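import Mathlib

set_option autoImplicit false
open MeasureTheory Set Complex Real
open scoped InnerProductSpace

namespace Pool.Agent.H10.Anti

/-- Cauchy-Schloemilch substitution. -/
theorem schl (b : ℝ) (hb : 0 < b) (φ : ℝ → ℂ) (hc : Continuous φ) (hi : Integrable φ)
    (he : ∀ y, φ (-y) = φ y) :
    ∫ r in Ioi (0:ℝ), φ (r - b / r) = (∫ y, φ y) / 2 := by
  have him : (fun r : ℝ => r - b / r) '' Ioi 0 = univ := by
    apply eq_univ_of_forall
    intro y
    have h4 : 0 < y ^ 2 + 4 * b := by positivity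
    have hs : |y| < √(y ^ 2 + 4 * b) := by
      apply Real.lt_sqrt_of_sq_lt
      rw [sq_abs]; linarith
    have hsq := Real.sq_sqrt h4.le
    have hpos : 0 < (y + √(y ^ 2 + 4 * b)) / 2 := by
      have := neg_abs_le y
      linarith
    refine ⟨(y + √(y ^ 2 + 4 * b)) / 2, hpos, ?_⟩
    have hne : y + √(y ^ 2 + 4 * b) ≠ 0 := by
      intro h; rw [h] at hpos; simp at hpos
    simp only
    field_simp
    nlinarith
  have hinj : InjOn (fun r : ℝ => r - b / r) (Ioi 0) := by
    intro r hr s hs h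
    simp only [mem_Ioi] at hr hs h
    have h2 : (r - s) * (r * s + b) = 0 := by
      field_simp at h
      nlinarith
    rcases mul_eq_zero.1 h2 with h3 | h3
    · linarith
    · have : 0 < r * s + b := by positivity
      linarith
  have hder : ∀ r ∈ Ioi (0:ℝ), HasDerivWithinAt (fun r : ℝ => r - b / r) (1 + b / r ^ 2) (Ioi 0) r := by
    intro r hr
    have hr' : r ≠ 0 := ne_of_gt hr
    have h1 : HasDerivAt (fun r : ℝ => r - b / r) (1 - (0 * r - b * 1) / r ^ 2) r :=
      (hasDerivAt_id r).sub ((hasDerivAt_const r b).div (hasDerivAt_id r) hr')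
    have h2 : 1 - (0 * r - b * 1) / r ^ 2 = 1 + b / r ^ 2 := by ring
    rw [h2] at h1
    exact h1.hasDerivWithinAt
  have him2 : (fun r : ℝ => b / r) '' Ioi 0 = Ioi 0 := by
    ext y
    constructor
    · rintro ⟨r, hr, rfl⟩
      simp only [mem_Ioi] at hr ⊢
      positivity
    · intro hy
      simp only [mem_Ioi] at hy
      refine ⟨b / y, by simp only [mem_Ioi]; positivity, ?_⟩
      simp only
      field_simp
  have hinj2 : InjOn (fun r : ℝ => b / r) (Ioi 0) := by
    intro r hr s hs h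
    simp only [mem_Ioi] at hr hs h
    field_simp at h
    linarith
  have hder2 : ∀ r ∈ Ioi (0:ℝ), HasDerivWithinAt (fun r : ℝ => b / r) (-(b / r ^ 2)) (Ioi 0) r := by
    intro r hr
    have hr' : r ≠ 0 := ne_of_gt hr
    have h1 : HasDerivAt (fun r : ℝ => b / r) ((0 * r - b * 1) / r ^ 2) r :=
      ((hasDerivAt_const r b).div (hasDerivAt_id r) hr')
    have h2 : (0 * r - b * 1) / r ^ 2 = -(b / r ^ 2) := by ring
    rw [h2] at h1
    exact h1.hasDerivWithinAt
  have e1 := integral_image_eq_integral_abs_deriv_smul measurableSet_Ioi hder hinj φ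
  have i1 := (integrableOn_image_iff_integrableOn_abs_deriv_smul measurableSet_Ioi hder hinj φ).1
    (by rw [him]; exact hi.integrableOn)
  have e2 := integral_image_eq_integral_abs_deriv_smul measurableSet_Ioi hder2 hinj2
    (fun r => φ (r - b / r))
  rw [him, Measure.restrict_univ] at e1
  rw [him2] at e2
  have m1 : Measurable (fun r : ℝ => φ (r - b / r)) := hc.measurable.comp (by fun_prop)
  have j1 : IntegrableOn (fun r : ℝ => φ (r - b / r)) (Ioi 0) := by
    refine Integrable.mono i1 m1.aestronglyMeasurable ?_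
    refine (ae_restrict_iff' measurableSet_Ioi).2 (Filter.Eventually.of_forall fun r hr => ?_)
    have hr' : (0:ℝ) < r := hr
    have h0 : 0 ≤ b / r ^ 2 := by positivity
    rw [norm_smul, Real.norm_eq_abs, abs_abs, abs_of_nonneg (by linarith)]
    nlinarith [norm_nonneg (φ (r - b / r))]
  have e3 : ∫ r in Ioi (0:ℝ), |-(b / r ^ 2)| • φ (b / r - b / (b / r))
      = ∫ r in Ioi (0:ℝ), (|1 + b / r ^ 2| • φ (r - b / r) - φ (r - b / r)) := by
    refine setIntegral_congr_fun measurableSet_Ioi fun r hr => ?_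
    have hr' : (0:ℝ) < r := hr
    have h0 : 0 ≤ b / r ^ 2 := by positivity
    have h1 : b / r - b / (b / r) = -(r - b / r) := by field_simp; ring
    rw [h1, he, abs_neg, abs_of_nonneg h0, abs_of_nonneg (by linarith), add_smul, one_smul]
    ring
  rw [e3, integral_sub i1 j1, ← e1] at e2
  linear_combination (1/2 : ℂ) * e2

theorem schl2 (κ : ℂ) (hκ : 0 < κ.re) (ρ : ℝ) (hρ : 0 ≤ ρ) :
    ∫ r in Ioi (0:ℝ), cexp (-κ * ((r:ℂ) ^ 2 + (ρ:ℂ) ^ 2 / (4 * (r:ℂ) ^ 2)))
      = cexp (-κ * ρ) * ((π / κ) ^ (1 / 2 : ℂ) / 2) := by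
  rcases hρ.eq_or_lt with h | h
  · subst h
    simpa using integral_gaussian_complex_Ioi hκ
  · have h1 := schl (ρ / 2) (by positivity) (fun y => cexp (-κ * (y:ℂ) ^ 2)) (by fun_prop)
      (integrable_cexp_neg_mul_sq hκ) (by intro y; simp)
    rw [integral_gaussian_complex hκ] at h1
    rw [← h1, ← integral_const_mul]
    refine setIntegral_congr_fun measurableSet_Ioi fun r hr => ?_
    have hr' : (r:ℂ) ≠ 0 := by exact_mod_cast (ne_of_gt hr)
    rw [← Complex.exp_add]
    congr 1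
    push_cast
    field_simp
    ring

theorem moment (d : ℕ) : ∃ C : ℝ, 0 < C ∧ ∀ γ : ℂ, 0 < γ.re →
    ∫ r in Ioi (0:ℝ), (r:ℂ) ^ d * cexp (-γ * (r:ℂ) ^ 2)
      = C * (π / γ) ^ ((((d:ℝ) + 1) / 2 : ℝ) : ℂ) := by
  have hv : 0 < (volume : Measure (EuclideanSpace ℝ (Fin (d + 1)))).real (Metric.ball 0 1) := by
    rw [measureReal_def]
    exact ENNReal.toReal_pos (Metric.measure_ball_pos _ _ one_pos).ne' measure_ball_lt_top.ne
  refine ⟨1 / ((d + 1 : ℝ) * (volume : Measure (EuclideanSpace ℝ (Fin (d + 1)))).real (Metric.ball 0 1)),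
    by positivity, fun γ hγ => ?_⟩
  have h1 := integral_fun_norm_addHaar (volume : Measure (EuclideanSpace ℝ (Fin (d + 1))))
    (fun r : ℝ => cexp (-γ * (r:ℂ) ^ 2))
  rw [GaussianFourier.integral_cexp_neg_mul_sq_norm hγ] at h1
  simp only [finrank_euclideanSpace, Fintype.card_fin, Nat.add_sub_cancel, real_smul,
    nsmul_eq_mul] at h1
  have h2 : ((((d:ℝ) + 1) / 2 : ℝ) : ℂ) = ((d + 1 : ℕ) : ℂ) / 2 := by push_cast; ring
  rw [h2, h1]
  have h3 : ((volume : Measure (EuclideanSpace ℝ (Fin (d + 1)))).real (Metric.ball 0 1) : ℂ) ≠ 0 := by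
    exact_mod_cast hv.ne'
  have h4 : ((d:ℂ) + 1) ≠ 0 := by exact_mod_cast (Nat.succ_ne_zero d)
  push_cast
  field_simp

end Pool.Agent.H10.Anti
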