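import Pool.Agent.H10.Anti1

set_option autoImplicit false
open MeasureTheory Set Complex Real
open scoped RealInnerProductSpace

namespace Pool.Agent.H10.Anti

variable {V : Type*} [NormedAddCommGroup V] [InnerProductSpace ℝ V] [FiniteDimensional ℝ V]
  [MeasurableSpace V] [BorelSpace V]

theorem re_div_pos (κ : ℂ) (hκ : 0 < κ.re) (r : ℝ) (hr : 0 < r) :
    0 < (κ / (4 * (r:ℂ) ^ 2)).re := by
  have : (4 * (r:ℂ) ^ 2) = ((4 * r ^ 2 : ℝ) : ℂ) := by push_cast; ring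
  rw [this, Complex.div_ofReal_re]
  positivity

theorem fub_int (κ : ℂ) (hκ : 0 < κ.re) (z : V) :
    Integrable (Function.uncurry fun (r : ℝ) (ξ : V) =>
      cexp (-κ * ((r:ℂ) ^ 2 + (‖ξ‖:ℂ) ^ 2 / (4 * (r:ℂ) ^ 2)) + I * ⟪z, ξ⟫))
      ((volume.restrict (Ioi (0:ℝ))).prod volume) := by
  have hm : Measurable (Function.uncurry fun (r : ℝ) (ξ : V) =>
      cexp (-κ * ((r:ℂ) ^ 2 + (‖ξ‖:ℂ) ^ 2 / (4 * (r:ℂ) ^ 2)) + I * ⟪z, ξ⟫)) := by
    unfold Function.uncurry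
    fun_prop
  rw [integrable_prod_iff hm.aestronglyMeasurable]
  constructor
  · refine (ae_restrict_iff' measurableSet_Ioi).2 (Filter.Eventually.of_forall fun r hr => ?_)
    have h1 := (GaussianFourier.integrable_cexp_neg_mul_sq_norm_add (re_div_pos κ hκ r hr) I z).const_mul
      (cexp (-κ * (r:ℂ) ^ 2))
    refine h1.congr (Filter.Eventually.of_forall fun ξ => ?_)
    simp only [Function.uncurry]
    rw [← Complex.exp_add]
    congr 1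
    ring
  · have h0 := (integrableOn_rpow_mul_exp_neg_mul_sq hκ
      (s := (Module.finrank ℝ V : ℝ)) (by have := Nat.cast_nonneg (α := ℝ) (Module.finrank ℝ V); linarith)).const_mul
      ((4 * π / κ.re) ^ ((Module.finrank ℝ V : ℝ) / 2))
    refine h0.congr ?_
    refine (ae_restrict_iff' measurableSet_Ioi).2 (Filter.Eventually.of_forall fun r hr => ?_)
    have hr' : (0:ℝ) < r := hr
    have h2 : ∀ ξ : V, ‖cexp (-κ * ((r:ℂ) ^ 2 + (‖ξ‖:ℂ) ^ 2 / (4 * (r:ℂ) ^ 2)) + I * ⟪z, ξ⟫)‖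
        = rexp (-κ.re * r ^ 2) * rexp (-(κ.re / (4 * r ^ 2)) * ‖ξ‖ ^ 2) := by
      intro ξ
      rw [Complex.norm_exp, ← Real.exp_add]
      congr 1
      have : ((r:ℂ) ^ 2 + (‖ξ‖:ℂ) ^ 2 / (4 * (r:ℂ) ^ 2))
          = ((r ^ 2 + ‖ξ‖ ^ 2 / (4 * r ^ 2) : ℝ) : ℂ) := by push_cast; ring
      rw [this]
      simp only [add_re, mul_re, neg_re, ofReal_re, ofReal_im, I_re, I_im]
      ring
    simp only [Function.uncurry, h2]
    rw [integral_const_mul, GaussianFourier.integral_rexp_neg_mul_sq_norm (by positivity)]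
    have h3 : π / (κ.re / (4 * r ^ 2)) = (4 * π / κ.re) * r ^ (2:ℝ) := by
      rw [Real.rpow_two]; field_simp
    rw [h3, Real.mul_rpow (by positivity) (by positivity), ← Real.rpow_mul hr'.le]
    have h4 : (2:ℝ) * ((Module.finrank ℝ V : ℝ) / 2) = (Module.finrank ℝ V : ℝ) := by ring
    rw [h4]
    ring

theorem cpow_split (κ : ℂ) (hκ : 0 < κ.re) (r : ℝ) (hr : 0 < r) (n : ℕ) :
    ((π:ℂ) / (κ / (4 * (r:ℂ) ^ 2))) ^ ((n:ℂ) / 2) = (2 * (r:ℂ)) ^ n * (π / κ) ^ ((n:ℂ) / 2) := by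
  have hk : κ ≠ 0 := by intro h; rw [h] at hκ; simp at hκ
  have hp : (π:ℂ) ≠ 0 := by exact_mod_cast Real.pi_ne_zero
  have hr' : (r:ℂ) ≠ 0 := by exact_mod_cast hr.ne'
  have h1 : ((π:ℂ) / (κ / (4 * (r:ℂ) ^ 2))) = (((2 * r) ^ 2 : ℝ) : ℂ) * (π / κ) := by
    push_cast; field_simp; ring
  have h2 : (π:ℂ) / κ ≠ 0 := div_ne_zero hp hk
  have h3 : (0:ℝ) < (2 * r) ^ 2 := by positivity
  rw [h1, Complex.cpow_def_of_ne_zero (mul_ne_zero (by exact_mod_cast h3.ne') h2),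
    Complex.cpow_def_of_ne_zero h2, Complex.log_ofReal_mul h3 h2, add_mul, Complex.exp_add]
  congr 1
  rw [Real.log_pow]
  have h5 : (((2:ℕ) * Real.log (2 * r) : ℝ) : ℂ) * ((n:ℂ) / 2) = n * ((Real.log (2 * r) : ℝ) : ℂ) := by
    push_cast; ring
  rw [h5, Complex.exp_nat_mul, ← Complex.ofReal_exp, Real.exp_log (by positivity)]
  push_cast
  ring

theorem poisson : ∃ C : ℝ, 0 < C ∧ ∀ κ : ℂ, 0 < κ.re → ∀ z : V,
    Integrable (fun ξ : V => cexp (-κ * (‖ξ‖:ℂ) + I * ⟪z, ξ⟫)) ∧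
    (∫ ξ : V, cexp (-κ * (‖ξ‖:ℂ) + I * ⟪z, ξ⟫)) * ((π / κ) ^ (1 / 2 : ℂ) / 2)
      = C * (π / κ) ^ ((Module.finrank ℝ V : ℂ) / 2) *
        (π / (κ + (‖z‖:ℂ) ^ 2 / κ)) ^ ((((Module.finrank ℝ V : ℝ) + 1) / 2 : ℝ) : ℂ) := by
  obtain ⟨C, hC, hm⟩ := moment (Module.finrank ℝ V)
  refine ⟨2 ^ (Module.finrank ℝ V) * C, by positivity, fun κ hκ z => ?_⟩
  have hk : κ ≠ 0 := by intro h; rw [h] at hκ; simp at hκ
  have hp : (π:ℂ) ≠ 0 := by exact_mod_cast Real.pi_ne_zero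
  have hP : ((π / κ) ^ (1 / 2 : ℂ) / 2) ≠ 0 := by
    refine div_ne_zero ?_ two_ne_zero
    rw [Ne, Complex.cpow_eq_zero_iff]
    exact fun h => div_ne_zero hp hk h.1
  have hF := fub_int κ hκ z
  have hin : ∀ ξ : V, ∫ r in Ioi (0:ℝ),
      cexp (-κ * ((r:ℂ) ^ 2 + (‖ξ‖:ℂ) ^ 2 / (4 * (r:ℂ) ^ 2)) + I * ⟪z, ξ⟫)
      = cexp (-κ * (‖ξ‖:ℂ) + I * ⟪z, ξ⟫) * ((π / κ) ^ (1 / 2 : ℂ) / 2) := by
    intro ξ
    simp only [Complex.exp_add]
    rw [integral_mul_const, schl2 κ hκ _ (norm_nonneg ξ)]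
    ring
  have hγ : 0 < (κ + (‖z‖:ℂ) ^ 2 / κ).re := by
    have : ((‖z‖:ℂ) ^ 2 / κ).re = ‖z‖ ^ 2 * κ.re / normSq κ := by
      rw [Complex.div_re, ← Complex.ofReal_pow]; simp only [ofReal_re, ofReal_im]; ring
    rw [add_re, this]
    have := normSq_nonneg κ
    positivity
  constructor
  · have h1 := hF.integral_prod_right
    simp only [Function.uncurry, hin] at h1
    have h2 := h1.mul_const ((π / κ) ^ (1 / 2 : ℂ) / 2)⁻¹
    refine h2.congr (Filter.Eventually.of_forall fun ξ => ?_)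
    simp only
    rw [mul_assoc, mul_inv_cancel₀ hP, mul_one]
  · have h1 := integral_integral_swap hF
    simp only [hin] at h1
    rw [integral_mul_const] at h1
    rw [← h1]
    have h2 : ∫ r in Ioi (0:ℝ), ∫ ξ : V,
        cexp (-κ * ((r:ℂ) ^ 2 + (‖ξ‖:ℂ) ^ 2 / (4 * (r:ℂ) ^ 2)) + I * ⟪z, ξ⟫)
        = ∫ r in Ioi (0:ℝ), (2 ^ (Module.finrank ℝ V) * (π / κ) ^ ((Module.finrank ℝ V : ℂ) / 2)) *
          ((r:ℂ) ^ (Module.finrank ℝ V) * cexp (-(κ + (‖z‖:ℂ) ^ 2 / κ) * (r:ℂ) ^ 2)) := by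
      refine setIntegral_congr_fun measurableSet_Ioi fun r hr => ?_
      have hr' : (r:ℂ) ≠ 0 := by exact_mod_cast (ne_of_gt hr)
      have h3 : ∀ ξ : V, cexp (-κ * ((r:ℂ) ^ 2 + (‖ξ‖:ℂ) ^ 2 / (4 * (r:ℂ) ^ 2)) + I * ⟪z, ξ⟫)
          = cexp (-κ * (r:ℂ) ^ 2) * cexp (-(κ / (4 * (r:ℂ) ^ 2)) * (‖ξ‖:ℂ) ^ 2 + I * ⟪z, ξ⟫) := by
        intro ξ
        rw [← Complex.exp_add]
        congr 1
        ring
      simp only [h3]
      rw [integral_const_mul, GaussianFourier.integral_cexp_neg_mul_sq_norm_add (re_div_pos κ hκ r hr),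
        cpow_split κ hκ r hr]
      have h4 : cexp (-(κ + (‖z‖:ℂ) ^ 2 / κ) * (r:ℂ) ^ 2)
          = cexp (-κ * (r:ℂ) ^ 2) * cexp (I ^ 2 * (‖z‖:ℂ) ^ 2 / (4 * (κ / (4 * (r:ℂ) ^ 2)))) := by
        rw [← Complex.exp_add, I_sq]
        congr 1
        field_simp
        ring
      rw [h4]
      ring
    rw [h2, integral_const_mul, hm _ hγ]
    push_cast
    ring

end Pool.Agent.H10.Anti
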