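import Pool.Agent.H10.Anti2

set_option autoImplicit false
open MeasureTheory Set Complex Real
open scoped RealInnerProductSpace

namespace Pool.Agent.H10.Anti

variable {V : Type*} [NormedAddCommGroup V] [InnerProductSpace ℝ V] [FiniteDimensional ℝ V]
  [MeasurableSpace V] [BorelSpace V]

theorem sum_eq (X : Finset V) (κ : ℂ) (hκ : 0 < κ.re) :
    ∑ x ∈ X, ∑ y ∈ X, ∫ ξ : V, cexp (-κ * (‖ξ‖:ℂ) + I * ⟪x - y, ξ⟫)
      = ∫ ξ : V, cexp (-κ * (‖ξ‖:ℂ)) * ((normSq (∑ x ∈ X, cexp (I * ⟪x, ξ⟫)) : ℝ) : ℂ) := by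
  obtain ⟨C, -, hP⟩ := poisson (V := V)
  have h1 : ∀ x ∈ X, ∑ y ∈ X, ∫ ξ : V, cexp (-κ * (‖ξ‖:ℂ) + I * ⟪x - y, ξ⟫)
      = ∫ ξ : V, ∑ y ∈ X, cexp (-κ * (‖ξ‖:ℂ) + I * ⟪x - y, ξ⟫) := fun x _ =>
    (integral_finsetSum _ fun y _ => (hP κ hκ (x - y)).1).symm
  rw [Finset.sum_congr rfl h1, ← integral_finsetSum _ fun x _ =>
    integrable_finsetSum _ fun y _ => (hP κ hκ (x - y)).1]
  congr 1
  ext ξ
  rw [← Complex.mul_conj, map_sum, Finset.sum_mul_sum, Finset.mul_sum]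
  refine Finset.sum_congr rfl fun x _ => ?_
  rw [Finset.mul_sum]
  refine Finset.sum_congr rfl fun y _ => ?_
  rw [← Complex.exp_conj, ← Complex.exp_add, ← Complex.exp_add, inner_sub_left]
  congr 1
  simp only [map_mul, conj_I, conj_ofReal]
  push_cast
  ring

theorem key (X : Finset V) (κ : ℂ) (hκ : 0 < κ.re) :
    ‖∑ x ∈ X, ∑ y ∈ X, ∫ ξ : V, cexp (-κ * (‖ξ‖:ℂ) + I * ⟪x - y, ξ⟫)‖
      ≤ ‖∑ x ∈ X, ∑ y ∈ X, ∫ ξ : V, cexp (-(κ.re:ℂ) * (‖ξ‖:ℂ) + I * ⟪x - y, ξ⟫)‖ := by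
  rw [sum_eq X κ hκ, sum_eq X (κ.re:ℂ) (by simpa using hκ)]
  refine (norm_integral_le_integral_norm _).trans ?_
  have h1 : ∀ ξ : V, ‖cexp (-κ * (‖ξ‖:ℂ)) * ((normSq (∑ x ∈ X, cexp (I * ⟪x, ξ⟫)) : ℝ) : ℂ)‖
      = rexp (-κ.re * ‖ξ‖) * normSq (∑ x ∈ X, cexp (I * ⟪x, ξ⟫)) := by
    intro ξ
    rw [norm_mul, Complex.norm_exp, Complex.norm_real, Real.norm_eq_abs,
      abs_of_nonneg (normSq_nonneg _)]
    simp
  have h2 : ∀ ξ : V, cexp (-(κ.re:ℂ) * (‖ξ‖:ℂ)) * ((normSq (∑ x ∈ X, cexp (I * ⟪x, ξ⟫)) : ℝ) : ℂ)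
      = ((rexp (-κ.re * ‖ξ‖) * normSq (∑ x ∈ X, cexp (I * ⟪x, ξ⟫)) : ℝ) : ℂ) := by
    intro ξ
    push_cast
    ring
  simp only [h1, h2]
  rw [integral_complex_ofReal, Complex.norm_real]
  exact le_abs_self _

theorem nrm (κ : ℂ) (a : ℝ) : ‖((π:ℂ) / κ) ^ (a:ℂ)‖ = (π / ‖κ‖) ^ a := by
  rw [Complex.norm_cpow_real, norm_div, Complex.norm_real, Real.norm_eq_abs, abs_of_pos Real.pi_pos]

/-- the domination inequality in explicit form -/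
theorem key2 (X : Finset V) (κ : ℂ) (hκ : 0 < κ.re) :
    ‖κ‖ ^ ((1 - (Module.finrank ℝ V : ℝ)) / 2) *
      ‖∑ x ∈ X, ∑ y ∈ X, ((π:ℂ) / (κ + (‖x - y‖:ℂ) ^ 2 / κ)) ^ ((((Module.finrank ℝ V : ℝ) + 1) / 2 : ℝ) : ℂ)‖
    ≤ κ.re ^ ((1 - (Module.finrank ℝ V : ℝ)) / 2) *
      ∑ x ∈ X, ∑ y ∈ X, (π / (κ.re + ‖x - y‖ ^ 2 / κ.re)) ^ (((Module.finrank ℝ V : ℝ) + 1) / 2) := by
  obtain ⟨C, hC, hP⟩ := poisson (V := V)
  set n : ℝ := (Module.finrank ℝ V : ℝ) with hn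
  have gen : ∀ k : ℂ, 0 < k.re →
      ‖∑ x ∈ X, ∑ y ∈ X, ∫ ξ : V, cexp (-k * (‖ξ‖:ℂ) + I * ⟪x - y, ξ⟫)‖
       = (2 * C * π ^ ((n - 1) / 2)) * (‖k‖ ^ ((1 - n) / 2) *
      ‖∑ x ∈ X, ∑ y ∈ X, ((π:ℂ) / (k + (‖x - y‖:ℂ) ^ 2 / k)) ^ (((n + 1) / 2 : ℝ) : ℂ)‖) := by
    intro k hk
    have hk0 : 0 < ‖k‖ := lt_of_lt_of_le hk (Complex.re_le_norm k)
    have e1 : (∑ x ∈ X, ∑ y ∈ X, ∫ ξ : V, cexp (-k * (‖ξ‖:ℂ) + I * ⟪x - y, ξ⟫)) *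
        ((π / k) ^ (1 / 2 : ℂ) / 2) = C * (π / k) ^ ((Module.finrank ℝ V : ℂ) / 2) *
        ∑ x ∈ X, ∑ y ∈ X, ((π:ℂ) / (k + (‖x - y‖:ℂ) ^ 2 / k)) ^ (((n + 1) / 2 : ℝ) : ℂ) := by
      rw [Finset.sum_mul, Finset.mul_sum]
      refine Finset.sum_congr rfl fun x _ => ?_
      rw [Finset.sum_mul, Finset.mul_sum]
      refine Finset.sum_congr rfl fun y _ => (hP k hk (x - y)).2
    have e2 := congrArg norm e1
    have c1 : (1 / 2 : ℂ) = ((1 / 2 : ℝ) : ℂ) := by push_cast; ring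
    have c2 : ((Module.finrank ℝ V : ℂ) / 2) = ((n / 2 : ℝ) : ℂ) := by rw [hn]; push_cast; ring
    rw [c1, c2, norm_mul, norm_mul, norm_mul, norm_div, nrm, nrm, Complex.norm_real,
      Real.norm_eq_abs, abs_of_pos hC, Complex.norm_two] at e2
    have hq : 0 < π / ‖k‖ := by positivity
    have e3 : (π / ‖k‖) ^ (n / 2) = (π / ‖k‖) ^ (1 / 2 : ℝ) * (π ^ ((n - 1) / 2) * ‖k‖ ^ ((1 - n) / 2)) := by
      have : (1 - n) / 2 = -((n - 1) / 2) := by ring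
      rw [this, Real.rpow_neg hk0.le, ← div_eq_mul_inv, ← Real.div_rpow Real.pi_pos.le hk0.le,
        ← Real.rpow_add hq]
      congr 1
      ring
    have h5 : 0 < (π / ‖k‖) ^ (1 / 2 : ℝ) := Real.rpow_pos_of_pos hq _
    rw [e3] at e2
    apply mul_right_cancel₀ h5.ne'
    linear_combination 2 * e2
  have h := key X κ hκ
  rw [gen κ hκ, gen (κ.re:ℂ) (by simpa using hκ)] at h
  have h2 := le_of_mul_le_mul_left h (by positivity)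
  refine h2.trans ?_
  rw [Complex.norm_real, Real.norm_eq_abs, abs_of_pos hκ]
  refine mul_le_mul_of_nonneg_left ?_ (by positivity)
  refine (norm_sum_le _ _).trans (Finset.sum_le_sum fun x _ => (norm_sum_le _ _).trans
    (Finset.sum_le_sum fun y _ => ?_))
  rw [nrm]
  have : ((κ.re:ℂ) + (‖x - y‖:ℂ) ^ 2 / (κ.re:ℂ)) = ((κ.re + ‖x - y‖ ^ 2 / κ.re : ℝ) : ℂ) := by
    push_cast; ring
  rw [this, Complex.norm_real, Real.norm_eq_abs, abs_of_pos (by positivity)]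

/-- sector estimate -/
theorem sector (s : ℝ) (hs : 0 < s) (γ : ℂ) (h1 : 0 < γ.re) (h2 : 2 * s * γ.re ≤ γ.im) :
    (π / ‖γ‖) ^ s / 2 ≤ (cexp (I * (s * (π / 2))) * ((π:ℂ) / γ) ^ (s:ℂ)).re := by
  have hg : γ ≠ 0 := by intro h; rw [h] at h1; simp at h1
  have hn : 0 < ‖γ‖ := norm_pos_iff.2 hg
  have him : 0 ≤ γ.im := le_trans (by positivity) h2
  have hp : (π:ℂ) ≠ 0 := by exact_mod_cast Real.pi_ne_zero
  have harg : γ.arg ≠ π := by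
    intro h
    have := (Complex.arg_eq_pi_iff.1 h).1
    linarith
  have e1 : ((π:ℂ) / γ) ^ (s:ℂ) = cexp ((Real.log (π / ‖γ‖) * s : ℝ) + (-(γ.arg * s) : ℝ) * I) := by
    rw [Complex.cpow_def_of_ne_zero (div_ne_zero hp hg), div_eq_mul_inv,
      Complex.log_ofReal_mul Real.pi_pos (inv_ne_zero hg), Complex.log_inv _ harg, Complex.log,
      Real.log_div Real.pi_ne_zero hn.ne']
    congr 1
    push_cast
    ring
  have e2 : cexp (I * (s * (π / 2))) * ((π:ℂ) / γ) ^ (s:ℂ)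
      = cexp ((Real.log (π / ‖γ‖) * s : ℝ)) * cexp ((s * (π / 2 - γ.arg) : ℝ) * I) := by
    rw [e1, ← Complex.exp_add, ← Complex.exp_add]
    congr 1
    push_cast
    ring
  rw [e2, ← Complex.ofReal_exp, Complex.re_ofReal_mul, Complex.exp_ofReal_mul_I_re,
    ← Real.rpow_def_of_pos (by positivity)]
  have e3 : π / 2 - γ.arg = Real.arcsin (γ.re / ‖γ‖) := by
    rw [Complex.arg_of_im_nonneg_of_ne_zero him hg, Real.arccos]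
    ring
  have hx0 : 0 ≤ γ.re / ‖γ‖ := by positivity
  have hx1 : γ.re / ‖γ‖ ≤ 1 := by
    rw [div_le_one hn]; exact Complex.re_le_norm γ
  have ht0 : 0 ≤ Real.arcsin (γ.re / ‖γ‖) := Real.arcsin_nonneg.2 hx0
  have ht1 := Real.mul_le_sin ht0 (Real.arcsin_le_pi_div_two _)
  rw [Real.sin_arcsin (by linarith) hx1] at ht1
  have hx2 : γ.re / ‖γ‖ ≤ 1 / (2 * s) := by
    rw [div_le_div_iff₀ hn (by positivity)]
    have := Complex.im_le_norm γ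
    linarith
  have ht2 : s * Real.arcsin (γ.re / ‖γ‖) ≤ 1 := by
    have h3 : 2 / π * Real.arcsin (γ.re / ‖γ‖) ≤ 1 / (2 * s) := ht1.trans hx2
    have h4 : (1:ℝ) / 2 ≤ 2 / π := by
      rw [div_le_div_iff₀ two_pos Real.pi_pos]; linarith [Real.pi_le_four]
    have h5 : 1 / 2 * Real.arcsin (γ.re / ‖γ‖) ≤ 1 / (2 * s) :=
      (mul_le_mul_of_nonneg_right h4 ht0).trans h3
    rw [le_div_iff₀ (by positivity)] at h5
    linarith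
  rw [e3]
  have hc := Real.one_sub_sq_div_two_le_cos (x := s * Real.arcsin (γ.re / ‖γ‖))
  have h6 : 0 ≤ s * Real.arcsin (γ.re / ‖γ‖) := by positivity
  have h7 : 1 / 2 ≤ Real.cos (s * Real.arcsin (γ.re / ‖γ‖)) := by nlinarith
  have h8 : 0 < (π / ‖γ‖) ^ s := by positivity
  nlinarith

end Pool.Agent.H10.Anti
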