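import Pool.Agent.H10.Anti3

set_option autoImplicit false
open MeasureTheory Set Complex Real
open scoped RealInnerProductSpace
open Classical

namespace Pool.Agent.H10.Anti

variable {V : Type*} [NormedAddCommGroup V] [InnerProductSpace ℝ V] [FiniteDimensional ℝ V]
  [MeasurableSpace V] [BorelSpace V]

theorem gam (ε β t : ℝ) :
    ((⟨ε, β⟩ : ℂ) + (t:ℂ) ^ 2 / (⟨ε, β⟩ : ℂ)).re = ε + t ^ 2 * ε / (ε ^ 2 + β ^ 2) ∧
    ((⟨ε, β⟩ : ℂ) + (t:ℂ) ^ 2 / (⟨ε, β⟩ : ℂ)).im = β - t ^ 2 * β / (ε ^ 2 + β ^ 2) := by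
  rw [← Complex.ofReal_pow]
  constructor
  · rw [add_re, Complex.div_re, normSq_mk]
    simp only [ofReal_re, ofReal_im]
    ring
  · rw [add_im, Complex.div_im, normSq_mk]
    simp only [ofReal_re, ofReal_im]
    ring

theorem lemA (hd : 1 ≤ Module.finrank ℝ V) : ∃ C : ℝ, 0 < C ∧ ∀ ε : ℝ, 0 < ε → ε < 1 →
    ∀ X : Finset V, (∀ x ∈ X, ∀ y ∈ X, dist x y ≤ 1) →
    (((X ×ˢ X).filter (fun p => 1 - ε ≤ dist p.1 p.2)).card : ℝ)
      ≤ C * ε ^ ((1 - (Module.finrank ℝ V : ℝ)) / 2) *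
        ∑ x ∈ X, ∑ y ∈ X, (1 + ‖x - y‖ ^ 2 / ε ^ 2) ^ (-(((Module.finrank ℝ V : ℝ) + 1) / 2)) := by
  set n : ℝ := (Module.finrank ℝ V : ℝ) with hn
  have hn1 : 1 ≤ n := by rw [hn]; exact_mod_cast hd
  set s : ℝ := (n + 1) / 2 with hs
  have hs0 : 0 < s := by rw [hs]; linarith
  set A : ℝ := 4 * s with hA
  have hA0 : 0 < A := by positivity
  set K : ℝ := 4 + 2 * A + A ^ 2 with hK
  have hK0 : 0 < K := by positivity
  refine ⟨2 * K ^ s / (2 + A) ^ ((1 - n) / 2), by positivity, fun ε h0 h1 X hX => ?_⟩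
  set β : ℝ := 1 + A * ε with hβ
  have hβ1 : 1 ≤ β := by have : 0 < A * ε := by positivity
                         linarith
  have hN : 1 ≤ ε ^ 2 + β ^ 2 := by nlinarith
  have hN2 : β ≤ ε ^ 2 + β ^ 2 := by nlinarith
  set κ : ℂ := ⟨ε, β⟩ with hκ
  have hre : κ.re = ε := rfl
  have hk := key2 X κ (by rw [hre]; exact h0)
  rw [hre, ← hn, ← hs] at hk
  have hκn : ‖κ‖ ≤ 2 + A := by
    refine (Complex.norm_le_abs_re_add_abs_im κ).trans ?_
    have : κ.im = β := rfl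
    rw [hre, this, abs_of_pos h0, abs_of_pos (by linarith)]
    have : A * ε ≤ A := by nlinarith
    linarith
  have hκ0 : 0 < ‖κ‖ := lt_of_lt_of_le (by rw [hre]; exact h0) (Complex.re_le_norm κ)
  have hκp : (2 + A) ^ ((1 - n) / 2) ≤ ‖κ‖ ^ ((1 - n) / 2) :=
    Real.rpow_le_rpow_of_nonpos hκ0 hκn (by linarith)
  -- termwise lower bound
  have hterm : ∀ x ∈ X, ∀ y ∈ X, (if 1 - ε ≤ dist x y then (π / (K * ε)) ^ s / 2 else 0)
      ≤ (cexp (I * (s * (π / 2))) * ((π:ℂ) / (κ + (‖x - y‖:ℂ) ^ 2 / κ)) ^ (s:ℂ)).re := by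
    intro x hx y hy
    have ht := hX x hx y hy
    rw [dist_eq_norm] at ht ⊢
    have ht0 := norm_nonneg (x - y)
    set t := ‖x - y‖ with htd
    obtain ⟨g1, g2⟩ := gam ε β t
    rw [← hκ] at g1 g2
    have hq : t ^ 2 / (ε ^ 2 + β ^ 2) ≤ 1 := by
      rw [div_le_one (by linarith)]; nlinarith
    have hq0 : 0 ≤ t ^ 2 / (ε ^ 2 + β ^ 2) := by positivity
    have r1 : t ^ 2 * ε / (ε ^ 2 + β ^ 2) = t ^ 2 / (ε ^ 2 + β ^ 2) * ε := by ring
    have hr0 : 0 < (κ + (t:ℂ) ^ 2 / κ).re := by rw [g1]; positivity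
    have hr1 : (κ + (t:ℂ) ^ 2 / κ).re ≤ 2 * ε := by rw [g1, r1]; nlinarith
    have hi1 : A * ε ≤ (κ + (t:ℂ) ^ 2 / κ).im := by
      rw [g2]
      have : t ^ 2 * β / (ε ^ 2 + β ^ 2) ≤ 1 := by
        rw [div_le_one (by linarith)]
        have : t ^ 2 ≤ 1 := by nlinarith
        nlinarith
      linarith
    have hsec := sector s hs0 _ hr0 (by nlinarith)
    refine le_trans ?_ hsec
    have hg0 : 0 < ‖κ + (t:ℂ) ^ 2 / κ‖ := lt_of_lt_of_le hr0 (Complex.re_le_norm _)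
    split_ifs with hc
    · have hi2 : (κ + (t:ℂ) ^ 2 / κ).im ≤ (2 + 2 * A + A ^ 2) * ε := by
        rw [g2]
        have e : β - t ^ 2 * β / (ε ^ 2 + β ^ 2) = (ε ^ 2 + β ^ 2 - t ^ 2) * (β / (ε ^ 2 + β ^ 2)) := by
          field_simp
        have e2 : β / (ε ^ 2 + β ^ 2) ≤ 1 := by rw [div_le_one (by linarith)]; exact hN2
        have e3 : 0 ≤ ε ^ 2 + β ^ 2 - t ^ 2 := by nlinarith
        have e4 : (1 - ε) ^ 2 ≤ t ^ 2 := by nlinarith
        have e5 : ε ^ 2 + β ^ 2 - t ^ 2 ≤ (2 + 2 * A + A ^ 2) * ε := by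
          have e6 : A ^ 2 * ε ^ 2 ≤ A ^ 2 * ε := by
            apply mul_le_mul_of_nonneg_left _ (by positivity)
            nlinarith
          have e7 : β ^ 2 = 1 + 2 * A * ε + A ^ 2 * ε ^ 2 := by rw [hβ]; ring
          nlinarith
        rw [e]
        nlinarith
      have hnorm : ‖κ + (t:ℂ) ^ 2 / κ‖ ≤ K * ε := by
        refine (Complex.norm_le_abs_re_add_abs_im _).trans ?_
        rw [abs_of_pos hr0, abs_of_nonneg (le_trans (by positivity) hi1), hK]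
        linarith
      have : (π / (K * ε)) ^ s ≤ (π / ‖κ + (t:ℂ) ^ 2 / κ‖) ^ s := by
        apply Real.rpow_le_rpow (by positivity) _ hs0.le
        exact div_le_div_of_nonneg_left Real.pi_pos.le hg0 hnorm
      linarith
    · positivity
  have hlow : (((X ×ˢ X).filter (fun p => 1 - ε ≤ dist p.1 p.2)).card : ℝ) * ((π / (K * ε)) ^ s / 2)
      ≤ ‖∑ x ∈ X, ∑ y ∈ X, ((π:ℂ) / (κ + (‖x - y‖:ℂ) ^ 2 / κ)) ^ (s:ℂ)‖ := by
    have e1 : (((X ×ˢ X).filter (fun p => 1 - ε ≤ dist p.1 p.2)).card : ℝ) * ((π / (K * ε)) ^ s / 2)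
        = ∑ x ∈ X, ∑ y ∈ X, (if 1 - ε ≤ dist x y then (π / (K * ε)) ^ s / 2 else 0) := by
      rw [← Finset.sum_product', ← Finset.sum_filter, Finset.sum_const, nsmul_eq_mul]
    rw [e1]
    refine (Finset.sum_le_sum fun x hx => Finset.sum_le_sum fun y hy => hterm x hx y hy).trans ?_
    have e2 : ∑ x ∈ X, ∑ y ∈ X,
        (cexp (I * (s * (π / 2))) * ((π:ℂ) / (κ + (‖x - y‖:ℂ) ^ 2 / κ)) ^ (s:ℂ)).re
        = (cexp (I * (s * (π / 2))) * ∑ x ∈ X, ∑ y ∈ X,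
          ((π:ℂ) / (κ + (‖x - y‖:ℂ) ^ 2 / κ)) ^ (s:ℂ)).re := by
      rw [Finset.mul_sum, Complex.re_sum]
      refine Finset.sum_congr rfl fun x _ => ?_
      rw [Finset.mul_sum, Complex.re_sum]
    rw [e2]
    refine (Complex.re_le_norm _).trans ?_
    have e3 : ‖cexp (I * (s * (π / 2)))‖ = 1 := by
      rw [Complex.norm_exp]; simp
    rw [norm_mul, e3, one_mul]
  have hup : ∑ x ∈ X, ∑ y ∈ X, (π / (ε + ‖x - y‖ ^ 2 / ε)) ^ s
      = (π / ε) ^ s * ∑ x ∈ X, ∑ y ∈ X, (1 + ‖x - y‖ ^ 2 / ε ^ 2) ^ (-s) := by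
    rw [Finset.mul_sum]
    refine Finset.sum_congr rfl fun x _ => ?_
    rw [Finset.mul_sum]
    refine Finset.sum_congr rfl fun y _ => ?_
    rw [Real.rpow_neg (by positivity), ← div_eq_mul_inv, ← Real.div_rpow (by positivity) (by positivity)]
    congr 1
    field_simp
  rw [hup] at hk
  have e4 : (π / (K * ε)) ^ s = (π / ε) ^ s / K ^ s := by
    rw [← Real.div_rpow (by positivity) hK0.le]
    congr 1
    field_simp
  rw [e4] at hlow
  have hP : 0 < (π / ε) ^ s := by positivity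
  have hQ : 0 < (2 + A) ^ ((1 - n) / 2) := by positivity
  have hKs : 0 < K ^ s := by positivity
  have h9 := (mul_le_mul hκp hlow (by positivity) (by positivity)).trans hk
  set S := ∑ x ∈ X, ∑ y ∈ X, (1 + ‖x - y‖ ^ 2 / ε ^ 2) ^ (-s)
  set c := (((X ×ˢ X).filter (fun p => 1 - ε ≤ dist p.1 p.2)).card : ℝ)
  set E := ε ^ ((1 - n) / 2)
  have h10 : (2 + A) ^ ((1 - n) / 2) * (c * ((π / ε) ^ s / K ^ s / 2))
      = c * ((2 + A) ^ ((1 - n) / 2) / (2 * K ^ s)) * (π / ε) ^ s := by field_simp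
  have h11 : E * ((π / ε) ^ s * S) = E * S * (π / ε) ^ s := by ring
  rw [h10, h11] at h9
  have h12 := le_of_mul_le_mul_right h9 hP
  rw [← le_div_iff₀ (by positivity)] at h12
  refine h12.trans (le_of_eq ?_)
  field_simp

end Pool.Agent.H10.Anti
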