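import Pool.Agent.H10.Anti4

set_option autoImplicit false
open MeasureTheory Set Real Metric
open Classical

namespace Pool.Agent.H10.Anti

variable {V : Type*} [NormedAddCommGroup V] [InnerProductSpace ℝ V] [FiniteDimensional ℝ V]
  [MeasurableSpace V] [BorelSpace V]

theorem lemL (X : Finset V) (η : ℝ) (hη : 0 < η) (W : V → ℝ) (hW : Integrable W)
    (hW0 : ∀ p, 0 ≤ W p) (u : V → ℝ) (hu : ∀ y ∈ X, ∀ p ∈ ball y (η / 2), u y ≤ W p) :
    (volume : Measure V).real (ball 0 (η / 2)) *
      ∑ y ∈ X, u y / ((X.filter (fun y' => dist y y' ≤ η)).card : ℝ) ≤ ∫ p, W p := by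
  have h1 : ∀ y ∈ X, (volume : Measure V).real (ball 0 (η / 2)) *
      (u y / ((X.filter (fun y' => dist y y' ≤ η)).card : ℝ))
      ≤ ∫ p, (ball y (η / 2)).indicator W p / ((X.filter (fun y' => dist y y' ≤ η)).card : ℝ) := by
    intro y hy
    rw [integral_div, ← mul_div_assoc]
    refine div_le_div_of_nonneg_right ?_ (by positivity)
    rw [integral_indicator measurableSet_ball, ← Measure.addHaar_real_ball_center volume y,
      ← smul_eq_mul, ← setIntegral_const]
    exact setIntegral_mono_on (integrableOn_const measure_ball_lt_top.ne) hW.integrableOn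
      measurableSet_ball (hu y hy)
  rw [Finset.mul_sum]
  refine (Finset.sum_le_sum h1).trans ?_
  have hi : ∀ y ∈ X, Integrable (fun p => (ball y (η / 2)).indicator W p /
      ((X.filter (fun y' => dist y y' ≤ η)).card : ℝ)) := fun y _ =>
    (hW.indicator measurableSet_ball).div_const _
  rw [← integral_finsetSum _ hi]
  refine integral_mono (integrable_finsetSum _ hi) hW fun p => ?_
  set T := X.filter (fun y => p ∈ ball y (η / 2)) with hT
  have e1 : ∑ y ∈ X, (ball y (η / 2)).indicator W p /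
      ((X.filter (fun y' => dist y y' ≤ η)).card : ℝ)
      = ∑ y ∈ T, W p / ((X.filter (fun y' => dist y y' ≤ η)).card : ℝ) := by
    rw [hT, Finset.sum_filter]
    refine Finset.sum_congr rfl fun y _ => ?_
    rw [Set.indicator_apply]
    split_ifs <;> simp
  simp only
  rw [e1]
  have e2 : ∀ y ∈ T, W p / ((X.filter (fun y' => dist y y' ≤ η)).card : ℝ) ≤ W p / T.card := by
    intro y hy
    have hpos : (0:ℝ) < T.card := by exact_mod_cast Finset.card_pos.2 ⟨y, hy⟩
    refine div_le_div_of_nonneg_left (hW0 p) hpos ?_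
    have : T ⊆ X.filter (fun y' => dist y y' ≤ η) := by
      intro y' hy'
      rw [hT, Finset.mem_filter, mem_ball] at hy hy'
      rw [Finset.mem_filter]
      refine ⟨hy'.1, ?_⟩
      have := dist_triangle_left y y' p
      linarith [hy.2, hy'.2]
    exact_mod_cast Finset.card_le_card this
  refine (Finset.sum_le_sum e2).trans ?_
  rw [Finset.sum_const, nsmul_eq_mul]
  rcases eq_or_ne (T.card : ℝ) 0 with h | h
  · rw [h]; simpa using hW0 p
  · rw [mul_div_cancel₀ _ h]

theorem lemB : ∃ C : ℝ, 0 < C ∧ ∀ η ε : ℝ, 0 < η → η ≤ ε → ∀ X : Finset V,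
    ∑ x ∈ X, ∑ y ∈ X, (1 + ‖x - y‖ ^ 2 / ε ^ 2) ^ (-(((Module.finrank ℝ V : ℝ) + 1) / 2))
      ≤ C * (ε / η) ^ (Module.finrank ℝ V) *
        (((X ×ˢ X).filter (fun p => dist p.1 p.2 ≤ η)).card : ℝ) := by
  set d := Module.finrank ℝ V with hd
  set s : ℝ := ((d:ℝ) + 1) / 2 with hs
  have hs0 : 0 < s := by rw [hs]; positivity
  have hI : Integrable (fun p : V => (1 + ‖p‖ ^ 2) ^ (-s)) := by
    have := integrable_rpow_neg_one_add_norm_sq (E := V) (μ := volume) (r := (d:ℝ) + 1) (by linarith)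
    simpa only [hs, neg_div] using this
  set J : ℝ := ∫ p : V, (1 + ‖p‖ ^ 2) ^ (-s) with hJ
  have hJ0 : 0 ≤ J := integral_nonneg fun p => by positivity
  set v : ℝ := (volume : Measure V).real (ball 0 1) with hv
  have hv0 : 0 < v := by
    rw [hv, measureReal_def]
    exact ENNReal.toReal_pos (measure_ball_pos _ _ one_pos).ne' measure_ball_lt_top.ne
  refine ⟨2 ^ s * (J + 1) * 2 ^ d / v, by positivity, fun η ε hη hηε X => ?_⟩
  have hε : 0 < ε := lt_of_lt_of_le hη hηε
  set D : V → ℝ := fun y => ((X.filter (fun y' => dist y y' ≤ η)).card : ℝ) with hD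
  have hD1 : ∀ y ∈ X, 0 < D y := by
    intro y hy
    have : 0 < (X.filter (fun y' => dist y y' ≤ η)).card :=
      Finset.card_pos.2 ⟨y, by rw [Finset.mem_filter]; exact ⟨hy, by simpa using hη.le⟩⟩
    simp only [hD]
    exact_mod_cast this
  set w : V → V → ℝ := fun x y => (1 + ‖x - y‖ ^ 2 / ε ^ 2) ^ (-s) with hw
  have hw0 : ∀ x y, 0 ≤ w x y := fun x y => by simp only [hw]; positivity
  have hsym : ∀ x y, w x y = w y x := fun x y => by simp only [hw]; rw [norm_sub_rev]
  have hvol : (volume : Measure V).real (ball 0 (η / 2)) = (η / 2) ^ d * v := by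
    rw [hv, measureReal_def, measureReal_def, Measure.addHaar_ball_of_pos _ _ (by positivity),
      ENNReal.toReal_mul, ENNReal.toReal_ofReal (by positivity)]
  have hrow : ∀ x : V, ∑ y ∈ X, w x y / D y ≤ 2 ^ s * (J + 1) * 2 ^ d / v * (ε / η) ^ d := by
    intro x
    have e0 : ∀ p : V, w x p = (1 + ‖ε⁻¹ • (x - p)‖ ^ 2) ^ (-s) := by
      intro p
      simp only [hw]
      rw [norm_smul, Real.norm_eq_abs, abs_of_pos (by positivity)]
      congr 2
      field_simp
    have hI2 : Integrable (fun p : V => (1 + ‖ε⁻¹ • p‖ ^ 2) ^ (-s)) :=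
      hI.comp_smul (inv_ne_zero hε.ne')
    have hI3 : Integrable (fun p : V => w x p) := by
      simp only [e0]
      exact hI2.comp_sub_left x
    have hint : ∫ p, w x p = ε ^ d * J := by
      simp only [e0]
      rw [integral_sub_left_eq_self (fun p : V => (1 + ‖ε⁻¹ • p‖ ^ 2) ^ (-s)) volume x,
        Measure.integral_comp_inv_smul_of_nonneg volume (fun p : V => (1 + ‖p‖ ^ 2) ^ (-s)) hε.le,
        smul_eq_mul]
    have h1 := lemL X η hη (fun p => 2 ^ s * w x p) (hI3.const_mul _)
      (fun p => mul_nonneg (by positivity) (hw0 x p)) (fun y => w x y) (by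
        intro y _ p hp
        simp only [hw]
        rw [mem_ball, dist_eq_norm] at hp
        have t1 : ‖x - p‖ ≤ ‖x - y‖ + ε / 2 := by
          have := norm_sub_le_norm_sub_add_norm_sub x y p
          rw [norm_sub_rev y p] at this
          linarith
        have t2 : ‖x - p‖ ^ 2 ≤ 2 * ‖x - y‖ ^ 2 + ε ^ 2 / 2 := by
          have := norm_nonneg (x - p)
          nlinarith [sq_nonneg (‖x - y‖ - ε / 2)]
        have t3 : (1 + ‖x - p‖ ^ 2 / ε ^ 2) / 2 ≤ 1 + ‖x - y‖ ^ 2 / ε ^ 2 := by
          have : ‖x - p‖ ^ 2 / ε ^ 2 ≤ 2 * (‖x - y‖ ^ 2 / ε ^ 2) + 1 / 2 := by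
            rw [div_le_iff₀ (by positivity)]
            have : (2 * (‖x - y‖ ^ 2 / ε ^ 2) + 1 / 2) * ε ^ 2 = 2 * ‖x - y‖ ^ 2 + ε ^ 2 / 2 := by
              field_simp
            linarith
          linarith
        refine (Real.rpow_le_rpow_of_nonpos (by positivity) t3 (by linarith)).trans (le_of_eq ?_)
        rw [Real.div_rpow (by positivity) (by positivity), Real.rpow_neg (by positivity : (0:ℝ) ≤ 2)]
        field_simp)
    rw [integral_const_mul, hint, hvol, mul_comm, ← le_div_iff₀ (by positivity)] at h1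
    refine h1.trans ?_
    have e5 : 2 ^ s * (J + 1) * 2 ^ d / v * (ε / η) ^ d
        = 2 ^ s * (ε ^ d * (J + 1)) / ((η / 2) ^ d * v) := by
      rw [div_pow, div_pow]; field_simp
    rw [e5]
    gcongr
    linarith
  have hM : (((X ×ˢ X).filter (fun p => dist p.1 p.2 ≤ η)).card : ℝ) = ∑ x ∈ X, D x := by
    simp only [hD]
    rw [Finset.card_filter, Finset.sum_product]
    push_cast
    refine Finset.sum_congr rfl fun x _ => ?_
    rw [Finset.card_filter]
    push_cast
    rfl
  have hamgm : ∑ x ∈ X, ∑ y ∈ X, w x y ≤ ∑ x ∈ X, ∑ y ∈ X, D x * (w x y / D y) := by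
    have e1 : ∑ x ∈ X, ∑ y ∈ X, D x * (w x y / D y) = ∑ x ∈ X, ∑ y ∈ X, D y * (w x y / D x) := by
      rw [Finset.sum_comm]
      refine Finset.sum_congr rfl fun x _ => Finset.sum_congr rfl fun y _ => ?_
      rw [hsym]
    have e2 : ∑ x ∈ X, ∑ y ∈ X, 2 * w x y
        ≤ ∑ x ∈ X, ∑ y ∈ X, (D x * (w x y / D y) + D y * (w x y / D x)) := by
      refine Finset.sum_le_sum fun x hx => Finset.sum_le_sum fun y hy => ?_
      have a := hD1 x hx
      have b := hD1 y hy
      have c := hw0 x y
      have e3 : D x * (w x y / D y) + D y * (w x y / D x) - 2 * w x y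
          = w x y * (D x - D y) ^ 2 / (D x * D y) := by field_simp; ring
      have e4 : 0 ≤ w x y * (D x - D y) ^ 2 / (D x * D y) := by positivity
      linarith
    simp only [Finset.sum_add_distrib, ← Finset.mul_sum] at e2 e1 ⊢
    linarith
  rw [hM, Finset.mul_sum]
  refine hamgm.trans (Finset.sum_le_sum fun x hx => ?_)
  rw [← Finset.mul_sum, mul_comm]
  exact mul_le_mul_of_nonneg_right (hrow x) (hD1 x hx).le

end Pool.Agent.H10.Anti
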