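import Pool.Agent.H10.Anti5

set_option autoImplicit false
open MeasureTheory Set Real Metric
open Classical

namespace Pool.Agent.H10.Anti

variable {V : Type*} [NormedAddCommGroup V] [InnerProductSpace ℝ V] [FiniteDimensional ℝ V]
  [MeasurableSpace V] [BorelSpace V]

theorem core (hd : 1 ≤ Module.finrank ℝ V) : ∃ c₁ c₂ : ℝ, 0 < c₁ ∧ 0 < c₂ ∧
    ∀ η ε : ℝ, 0 < η → η ≤ ε → ε < 1 → ∀ X : Finset V, (∀ x ∈ X, ∀ y ∈ X, dist x y ≤ 1) →
      c₁ * η ^ (-(Module.finrank ℝ V : ℝ)) ≤ (X.card : ℝ) →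
      c₂ * η ^ (Module.finrank ℝ V : ℝ) * ε ^ (-(((Module.finrank ℝ V : ℝ) + 1) / 2)) *
        ((X.offDiag.filter (fun p => 1 - ε ≤ dist p.1 p.2)).card : ℝ)
        ≤ ((X.offDiag.filter (fun p => dist p.1 p.2 ≤ η)).card : ℝ) := by
  obtain ⟨CA, hCA, hA⟩ := lemA (V := V) hd
  obtain ⟨CB, hCB, hB⟩ := lemB (V := V)
  set d := Module.finrank ℝ V with hdd
  set s : ℝ := ((d:ℝ) + 1) / 2 with hs
  have hs0 : 0 < s := by rw [hs]; positivity
  refine ⟨2 * CB * 2 ^ s, 1 / (2 * CA * CB), by positivity, by positivity,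
    fun η ε hη hηε hε X hX hn => ?_⟩
  have hε0 : 0 < ε := lt_of_lt_of_le hη hηε
  set N : ℝ := ((X.offDiag.filter (fun p => dist p.1 p.2 ≤ η)).card : ℝ) with hN
  set M : ℝ := (((X ×ˢ X).filter (fun p => dist p.1 p.2 ≤ η)).card : ℝ) with hM
  have hMN : M ≤ N + X.card := by
    have : (X ×ˢ X).filter (fun p => dist p.1 p.2 ≤ η)
        ⊆ X.offDiag.filter (fun p => dist p.1 p.2 ≤ η) ∪ X.diag := by
      intro p hp
      rw [Finset.mem_filter, Finset.mem_product] at hp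
      rw [Finset.mem_union, Finset.mem_filter, Finset.mem_offDiag, Finset.mem_diag]
      by_cases h : p.1 = p.2
      · exact Or.inr ⟨hp.1.1, h⟩
      · exact Or.inl ⟨⟨hp.1.1, hp.1.2, h⟩, hp.2⟩
    have h2 := (Finset.card_le_card this).trans (Finset.card_union_le _ _)
    rw [Finset.diag_card] at h2
    rw [hM, hN]
    exact_mod_cast h2
  have hpow : η ^ (-(d:ℝ)) = (1 / η) ^ d := by
    rw [Real.rpow_neg hη.le, Real.rpow_natCast, one_div, inv_pow]
  have h1 := hB η 1 hη (by linarith) X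
  have h2 : (X.card : ℝ) * (X.card * (2:ℝ) ^ (-s))
      ≤ ∑ x ∈ X, ∑ y ∈ X, (1 + ‖x - y‖ ^ 2 / 1 ^ 2) ^ (-s) := by
    rw [← nsmul_eq_mul, ← nsmul_eq_mul, ← Finset.sum_const, ← Finset.sum_const]
    refine Finset.sum_le_sum fun x hx => Finset.sum_le_sum fun y hy => ?_
    have ht := hX x hx y hy
    rw [dist_eq_norm] at ht
    have := norm_nonneg (x - y)
    refine Real.rpow_le_rpow_of_nonpos (by positivity) ?_ (by linarith)
    have : ‖x - y‖ ^ 2 ≤ 1 := by nlinarith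
    simp only [one_pow, div_one]
    linarith
  have h3 : 2 * (X.card : ℝ) ≤ M := by
    have h4 := h2.trans h1
    rw [← hM] at h4
    rw [hpow] at hn
    have hq : 0 < (1 / η) ^ d := by positivity
    have h5 : (X.card : ℝ) * (2 * CB * 2 ^ s * (1 / η) ^ d * (2:ℝ) ^ (-s))
        ≤ (X.card : ℝ) * (X.card * (2:ℝ) ^ (-s)) := by gcongr
    have h6 : (X.card : ℝ) * (2 * CB * 2 ^ s * (1 / η) ^ d * (2:ℝ) ^ (-s))
        = (CB * (1 / η) ^ d) * (2 * X.card) := by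
      rw [Real.rpow_neg (by positivity : (0:ℝ) ≤ 2)]
      field_simp
    rw [h6] at h5
    exact le_of_mul_le_mul_left (h5.trans h4) (by positivity)
  have h7 : M ≤ 2 * N := by linarith
  have h8 : ((X.offDiag.filter (fun p => 1 - ε ≤ dist p.1 p.2)).card : ℝ)
      ≤ (((X ×ˢ X).filter (fun p => 1 - ε ≤ dist p.1 p.2)).card : ℝ) := by
    have : X.offDiag.filter (fun p => 1 - ε ≤ dist p.1 p.2)
        ⊆ (X ×ˢ X).filter (fun p => 1 - ε ≤ dist p.1 p.2) := by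
      intro p hp
      rw [Finset.mem_filter, Finset.mem_offDiag] at hp
      rw [Finset.mem_filter, Finset.mem_product]
      exact ⟨⟨hp.1.1, hp.1.2.1⟩, hp.2⟩
    exact_mod_cast Finset.card_le_card this
  have h9 := hA ε hε0 hε X hX
  have h10 := hB η ε hη hηε X
  rw [← hM] at h10
  have h11 : ((X.offDiag.filter (fun p => 1 - ε ≤ dist p.1 p.2)).card : ℝ)
      ≤ CA * ε ^ ((1 - (d:ℝ)) / 2) * (CB * (ε / η) ^ d * (2 * N)) := by
    refine h8.trans (h9.trans ?_)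
    refine mul_le_mul_of_nonneg_left (h10.trans ?_) (by positivity)
    gcongr
  have h12 : ε ^ (-s) * (ε ^ ((1 - (d:ℝ)) / 2) * ε ^ d) = 1 := by
    rw [← Real.rpow_natCast, ← Real.rpow_add hε0, ← Real.rpow_add hε0]
    have : -s + ((1 - (d:ℝ)) / 2 + d) = 0 := by rw [hs]; ring
    rw [this, Real.rpow_zero]
  refine (mul_le_mul_of_nonneg_left h11 (by positivity)).trans (le_of_eq ?_)
  rw [Real.rpow_natCast, div_pow]
  have h13 : 1 / (2 * CA * CB) * η ^ d * ε ^ (-s) *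
      (CA * ε ^ ((1 - (d:ℝ)) / 2) * (CB * (ε ^ d / η ^ d) * (2 * N)))
      = (ε ^ (-s) * (ε ^ ((1 - (d:ℝ)) / 2) * ε ^ d)) * N := by
    field_simp
  rw [h13, h12, one_mul]

end Pool.Agent.H10.Anti
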