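import Mathlib

set_option autoImplicit false

namespace Pool.Agent.H10.BM

open Set

def allB (n : ℕ) (p : ℕ → Bool) : Bool := Nat.rec true (fun k ih => p k && ih) n

def anyB (n : ℕ) (p : ℕ → Bool) : Bool := Nat.rec false (fun k ih => p k || ih) n

theorem allB_iff (p : ℕ → Bool) (n : ℕ) : allB n p = true ↔ ∀ k < n, p k = true := by
  induction n with
  | zero => simp [allB]
  | succ n ih =>
    have : allB (n + 1) p = (p n && allB n p) := rfl
    rw [this, Bool.and_eq_true, ih]
    constructor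
    · rintro ⟨h1, h2⟩ k hk
      rcases Nat.lt_succ_iff_lt_or_eq.1 hk with h | h
      · exact h2 k h
      · exact h ▸ h1
    · intro h
      exact ⟨h n (Nat.lt_succ_self n), fun k hk => h k (Nat.lt_succ_of_lt hk)⟩

theorem anyB_iff (p : ℕ → Bool) (n : ℕ) : anyB n p = true ↔ ∃ k < n, p k = true := by
  induction n with
  | zero => simp [anyB]
  | succ n ih =>
    have : anyB (n + 1) p = (p n || anyB n p) := rfl
    rw [this, Bool.or_eq_true, ih]
    constructor
    · rintro (h | ⟨k, hk, h⟩)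
      · exact ⟨n, Nat.lt_succ_self n, h⟩
      · exact ⟨k, Nat.lt_succ_of_lt hk, h⟩
    · rintro ⟨k, hk, h⟩
      rcases Nat.lt_succ_iff_lt_or_eq.1 hk with h' | h'
      · exact Or.inr ⟨k, h', h⟩
      · exact Or.inl (h' ▸ h)

def pc (n m : ℕ) : ℕ := Nat.rec 0 (fun k ih => cond (m.testBit k) (ih + 1) ih) n

def S (n m : ℕ) : Set (Fin n) := {i | m.testBit i = true}

theorem mem_S {n m : ℕ} {i : Fin n} : i ∈ S n m ↔ m.testBit i = true := Iff.rfl

theorem pc_eq (m n : ℕ) : pc n m = ((Finset.range n).filter (fun k => m.testBit k = true)).card := by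
  induction n with
  | zero => simp [pc]
  | succ n ih =>
    have : pc (n + 1) m = cond (m.testBit n) (pc n m + 1) (pc n m) := rfl
    rw [this, Finset.range_add_one, Finset.filter_insert]
    by_cases h : m.testBit n = true
    · rw [if_pos h, Finset.card_insert_of_notMem (by simp), h, ← ih]; rfl
    · rw [if_neg h, ← ih]
      simp only [Bool.not_eq_true] at h
      rw [h]; rfl

theorem ncard_S (n m : ℕ) : (S n m).ncard = pc n m := by
  rw [pc_eq, ← Set.ncard_image_of_injective _ Fin.val_injective, ← Set.ncard_coe_finset]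
  congr 1
  ext k
  simp only [mem_image, mem_S, Finset.coe_filter, Finset.mem_range, mem_setOf_eq]
  constructor
  · rintro ⟨i, hi, rfl⟩
    exact ⟨i.2, hi⟩
  · rintro ⟨h1, h2⟩
    exact ⟨⟨k, h1⟩, h2, rfl⟩

theorem encard_S (n m : ℕ) : (S n m).encard = (pc n m : ℕ∞) := by
  rw [← ncard_S, Set.Finite.cast_ncard_eq (toFinite _)]

open Classical in
noncomputable def msk {n : ℕ} (X : Set (Fin n)) : ℕ := Nat.ofBits (fun i => decide (i ∈ X))

theorem msk_lt {n : ℕ} (X : Set (Fin n)) : msk X < 2 ^ n := Nat.ofBits_lt_two_pow _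

theorem S_msk {n : ℕ} (X : Set (Fin n)) : S n (msk X) = X := by
  ext i
  simp [mem_S, msk, Nat.testBit_ofBits_lt _ _ i.2]

theorem S_inj {n a b : ℕ} (ha : a < 2 ^ n) (hb : b < 2 ^ n) (h : S n a = S n b) : a = b := by
  apply Nat.eq_of_testBit_eq
  intro i
  by_cases hi : i < n
  · have := congrArg (fun X => (⟨i, hi⟩ : Fin n) ∈ X) h
    simp only [mem_S, eq_iff_iff] at this
    exact Bool.eq_iff_iff.2 this
  · have h2 : 2 ^ n ≤ 2 ^ i := Nat.pow_le_pow_right (by norm_num) (not_lt.1 hi)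
    rw [Nat.testBit_lt_two_pow (lt_of_lt_of_le ha h2), Nat.testBit_lt_two_pow (lt_of_lt_of_le hb h2)]

theorem msk_S {n a : ℕ} (ha : a < 2 ^ n) : msk (S n a) = a :=
  S_inj (msk_lt _) ha (S_msk _)

theorem exists_S {n : ℕ} (X : Set (Fin n)) : ∃ a < 2 ^ n, X = S n a :=
  ⟨msk X, msk_lt X, (S_msk X).symm⟩

theorem S_or (n a b : ℕ) : S n (a ||| b) = S n a ∪ S n b := by
  ext i; simp [mem_S]

theorem S_and (n a b : ℕ) : S n (a &&& b) = S n a ∩ S n b := by
  ext i; simp [mem_S]

theorem S_zero (n : ℕ) : S n 0 = ∅ := by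
  ext i; simp [mem_S]

theorem S_two_pow {n : ℕ} (i : Fin n) : S n (2 ^ (i : ℕ)) = {i} := by
  ext j
  simp only [mem_S, Nat.testBit_two_pow, decide_eq_true_eq, mem_singleton_iff]
  exact ⟨fun h => (Fin.ext h).symm, fun h => by rw [h]⟩

theorem S_full (n : ℕ) : S n (2 ^ n - 1) = univ := by
  ext j
  simp [mem_S, Nat.testBit_two_pow_sub_one]

theorem S_diff (n a b : ℕ) : S n (a ^^^ (a &&& b)) = S n a \ S n b := by
  ext i
  simp only [mem_S, Nat.testBit_xor, Nat.testBit_and, mem_diff]
  cases a.testBit i <;> cases b.testBit i <;> simp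

theorem or_lt {n a b : ℕ} (ha : a < 2 ^ n) (hb : b < 2 ^ n) : a ||| b < 2 ^ n :=
  Nat.or_lt_two_pow ha hb

theorem and_lt {n a : ℕ} (b : ℕ) (ha : a < 2 ^ n) : a &&& b < 2 ^ n :=
  lt_of_le_of_lt Nat.and_le_left ha

theorem diff_lt {n a : ℕ} (b : ℕ) (ha : a < 2 ^ n) : a ^^^ (a &&& b) < 2 ^ n :=
  Nat.xor_lt_two_pow ha (and_lt b ha)

theorem pow_lt {n : ℕ} (i : Fin n) : 2 ^ (i : ℕ) < 2 ^ n :=
  Nat.pow_lt_pow_right (by norm_num) i.2

theorem S_subset {n a : ℕ} (b : ℕ) (ha : a < 2 ^ n) : S n a ⊆ S n b ↔ a &&& b = a := by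
  constructor
  · intro h
    apply S_inj (and_lt b ha) ha
    rw [S_and]
    exact inter_eq_left.2 h
  · intro h
    rw [← h, S_and]
    exact inter_subset_right

theorem S_disjoint {n a : ℕ} (b : ℕ) (ha : a < 2 ^ n) :
    Disjoint (S n a) (S n b) ↔ a &&& b = 0 := by
  rw [Set.disjoint_iff_inter_eq_empty, ← S_and, ← S_zero]
  exact ⟨fun h => S_inj (and_lt b ha) (by positivity) h, fun h => by rw [h]⟩

theorem S_insert {n : ℕ} (a : ℕ) (i : Fin n) : S n (2 ^ (i : ℕ) ||| a) = insert i (S n a) := by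
  rw [S_or, S_two_pow]; rfl

/-- Finite check of the independence rules. -/
def chk (n : ℕ) (ind : ℕ → Bool) : Bool :=
  ind 0 && allB (2 ^ n) fun b => !ind b || allB (2 ^ n) fun a =>
    (!(Nat.beq (a &&& b) a) || ind a) &&
    (!ind a || !(Nat.blt (pc n a) (pc n b)) ||
      anyB n fun e => b.testBit e && !a.testBit e && ind (2 ^ e ||| a))

/-- The matroid on `Fin n` whose independent sets are given by a table on bit masks. -/
noncomputable def BM (n : ℕ) (ind : ℕ → Bool) (h : chk n ind = true) : Matroid (Fin n) :=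
  (IndepMatroid.ofFinite (E := univ) finite_univ (fun X => ind (msk X) = true)
    (by
      have := msk_S (n := n) (a := 0) (by positivity)
      rw [S_zero] at this
      simp only [chk, Bool.and_eq_true] at h
      rw [this]; exact h.1)
    (by
      intro I J hJ hIJ
      simp only [chk, Bool.and_eq_true, allB_iff, Bool.or_eq_true, Bool.not_eq_true'] at h
      rcases h.2 _ (msk_lt J) with h1 | h1
      · rw [h1] at hJ; exact absurd hJ (by simp)
      · rcases (h1 _ (msk_lt I)).1 with h2 | h2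
        · have : msk I &&& msk J = msk I := by
            rw [← S_subset _ (msk_lt I), S_msk, S_msk]; exact hIJ
          rw [this] at h2
          simp at h2
        · exact h2)
    (by
      intro I J hI hJ hIJ
      simp only [chk, Bool.and_eq_true, allB_iff, Bool.or_eq_true, Bool.not_eq_true',
        anyB_iff] at h
      rcases h.2 _ (msk_lt J) with h1 | h1
      · rw [h1] at hJ; exact absurd hJ (by simp)
      · rcases (h1 _ (msk_lt I)).2 with (h2 | h2) | ⟨e, he, ⟨h3, h4⟩, h5⟩
        · rw [h2] at hI; exact absurd hI (by simp)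
        · rw [← ncard_S, ← ncard_S, S_msk, S_msk, ← Bool.not_eq_true, Nat.blt_eq] at h2
          exact absurd hIJ h2
        · refine ⟨⟨e, he⟩, ?_, ?_, ?_⟩
          · rw [← S_msk J]; exact h3
          · rw [← S_msk I, mem_S]; simp [h4]
          · have : insert (⟨e, he⟩ : Fin n) I = S n (2 ^ e ||| msk I) := by
              rw [S_insert (msk I) ⟨e, he⟩, S_msk]
            rw [this, msk_S (or_lt (pow_lt ⟨e, he⟩) (msk_lt I))]
            exact h5)
    (fun _ _ => subset_univ _)).matroid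

variable {n : ℕ} {ind : ℕ → Bool} {h : chk n ind = true}

theorem BM_E : (BM n ind h).E = univ := rfl

theorem BM_indep' (X : Set (Fin n)) : (BM n ind h).Indep X ↔ ind (msk X) = true := by
  simp [BM]

theorem BM_indep {a : ℕ} (ha : a < 2 ^ n) : (BM n ind h).Indep (S n a) ↔ ind a = true := by
  rw [BM_indep', msk_S ha]

/-- `r` is the largest size of an independent subset of `m`, with witness `w`. -/
def rkChk (n : ℕ) (ind : ℕ → Bool) (m w r : ℕ) : Bool :=
  Nat.blt w (2 ^ n) && ind w && Nat.beq (w &&& m) w && Nat.beq (pc n w) r &&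
    allB n fun e => !m.testBit e || w.testBit e || !ind (2 ^ e ||| w)

theorem isBasis_of {m w r : ℕ} (hr : rkChk n ind m w r = true) :
    (BM n ind h).IsBasis (S n w) (S n m) := by
  simp only [rkChk, Bool.and_eq_true, allB_iff, Bool.or_eq_true, Bool.not_eq_true',
    Nat.blt_eq, Nat.beq_eq] at hr
  obtain ⟨⟨⟨⟨h1, h2⟩, h3⟩, -⟩, h5⟩ := hr
  refine ((BM_indep h1).2 h2).isBasis_of_forall_insert ((S_subset m h1).2 h3) ?_
  rintro e ⟨he1, he2⟩
  rw [Matroid.dep_iff]
  refine ⟨?_, subset_univ _⟩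
  rw [← S_insert, BM_indep (or_lt (pow_lt e) h1)]
  rcases h5 e e.2 with (h6 | h6) | h6
  · rw [mem_S, h6] at he1; exact absurd he1 (by simp)
  · exact absurd h6 he2
  · simp [h6]

theorem eRk_of {m w r : ℕ} (hr : rkChk n ind m w r = true) :
    (BM n ind h).eRk (S n m) = r := by
  rw [← (isBasis_of (h := h) hr).encard_eq_eRk, encard_S]
  simp only [rkChk, Bool.and_eq_true, Nat.beq_eq] at hr
  rw [hr.1.2]

theorem eRank_of {w r : ℕ} (hr : rkChk n ind (2 ^ n - 1) w r = true) :
    (BM n ind h).eRank = r := by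
  rw [← eRk_of (h := h) hr, S_full, ← Matroid.eRk_ground]; rfl

theorem isBase_iff {w r : ℕ} (hr : rkChk n ind (2 ^ n - 1) w r = true) {a : ℕ} (ha : a < 2 ^ n) :
    (BM n ind h).IsBase (S n a) ↔ ind a = true ∧ pc n a = r := by
  have hk := eRank_of (h := h) hr
  constructor
  · intro hb
    refine ⟨(BM_indep ha).1 hb.indep, ?_⟩
    have := hb.encard_eq_eRank
    rw [encard_S, hk] at this
    exact_mod_cast this
  · rintro ⟨h1, h2⟩
    refine ((BM_indep ha).2 h1).isBase_of_eRk_ge (toFinite _) ?_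
    rw [((BM_indep ha).2 h1).eRk_eq_encard, encard_S, hk, h2]

end Pool.Agent.H10.BM
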