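import Pool.Agent.H10.BM

set_option autoImplicit false

namespace Pool.Agent.H10.BM

open Set

def pmk (n : ℕ) (q : ℕ → ℕ) (a : ℕ) : ℕ :=
  Nat.rec 0 (fun j ih => cond (a.testBit (q j)) (2 ^ j ||| ih) ih) n

theorem testBit_pmk (q : ℕ → ℕ) (a j : ℕ) (n : ℕ) :
    (pmk n q a).testBit j = (decide (j < n) && a.testBit (q j)) := by
  induction n with
  | zero => simp [pmk]
  | succ n ih =>
    have : pmk (n + 1) q a = cond (a.testBit (q n)) (2 ^ n ||| pmk n q a) (pmk n q a) := rfl
    rw [this]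
    by_cases hj : j = n
    · subst hj
      cases h : a.testBit (q j) <;> simp [ih, h]
    · have e : decide (j < n + 1) = decide (j < n) := by
        apply decide_eq_decide.2; omega
      cases h : a.testBit (q n)
      · simp only [cond_false, ih, e]
      · simp only [cond_true, Nat.testBit_or, ih, e, Nat.testBit_two_pow]
        simp [Ne.symm hj]

theorem pmk_lt (q : ℕ → ℕ) (a n : ℕ) : pmk n q a < 2 ^ n := by
  apply Nat.lt_pow_two_of_testBit
  intro i hi
  rw [testBit_pmk]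
  simp [not_lt.2 hi]

theorem image_S {n : ℕ} (f : Fin n → Fin n) (q : ℕ → ℕ) (h1 : ∀ i, q (f i) = i)
    (h2 : ∀ j, ∃ i, f i = j) (a : ℕ) : f '' S n a = S n (pmk n q a) := by
  ext j
  obtain ⟨i, rfl⟩ := h2 j
  have hinj : Function.Injective f := fun x y h => Fin.ext (by rw [← h1 x, ← h1 y, h])
  rw [hinj.mem_set_image, mem_S, mem_S, testBit_pmk, h1]
  simp

variable {n : ℕ} {ind ind' : ℕ → Bool} {h : chk n ind = true} {h' : chk n ind' = true}

theorem bij_fix (f : Fin n → Fin n) (q : ℕ → ℕ) (h1 : ∀ i, q (f i) = i)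
    (h2 : ∀ j, ∃ i, f i = j) (e : Fin n) (h3 : f e = e) :
    BijOn f (univ \ {e}) (univ \ {e}) := by
  have hinj : Function.Injective f := fun x y h => Fin.ext (by rw [← h1 x, ← h1 y, h])
  refine ⟨fun x hx => ⟨trivial, fun k => hx.2 (hinj (k.trans h3.symm))⟩, hinj.injOn, ?_⟩
  intro y hy
  obtain ⟨x, rfl⟩ := h2 y
  exact ⟨x, ⟨trivial, fun k => hy.2 (by rw [mem_singleton_iff.1 k, h3]; rfl)⟩, rfl⟩

theorem del_iso (f : Fin n → Fin n) (q : ℕ → ℕ) (h1 : ∀ i, q (f i) = i)
    (h2 : ∀ j, ∃ i, f i = j) (e : Fin n) (h3 : f e = e)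
    (h4 : allB (2 ^ n) (fun a => a.testBit e || (ind a == ind' (pmk n q a))) = true) :
    BijOn f ((BM n ind h).delete {e}).E ((BM n ind' h').delete {e}).E ∧
      ∀ I ⊆ ((BM n ind h).delete {e}).E,
        (((BM n ind h).delete {e}).Indep I ↔ ((BM n ind' h').delete {e}).Indep (f '' I)) := by
  have hb := bij_fix f q h1 h2 e h3
  refine ⟨hb, fun I hI => ?_⟩
  have hI' : f '' I ⊆ univ \ {e} := (image_mono hI).trans hb.mapsTo.image_subset
  have d1 : Disjoint I {e} := disjoint_singleton_right.2 fun k => (hI k).2 rfl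
  have d2 : Disjoint (f '' I) {e} := disjoint_singleton_right.2 fun k => (hI' k).2 rfl
  obtain ⟨a, ha, rfl⟩ := exists_S I
  rw [Matroid.delete_indep_iff, Matroid.delete_indep_iff, and_iff_left d1, and_iff_left d2,
    image_S f q h1 h2, BM_indep ha, BM_indep (pmk_lt _ _ _)]
  have := (allB_iff _ _).1 h4 a ha
  have k : a.testBit e = false := by
    simpa [mem_S] using d1
  simp only [k, Bool.false_or, beq_iff_eq] at this
  rw [this]

theorem con_iso (f : Fin n → Fin n) (q : ℕ → ℕ) (h1 : ∀ i, q (f i) = i)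
    (h2 : ∀ j, ∃ i, f i = j) (e : Fin n) (h3 : f e = e)
    (k1 : ind (2 ^ (e : ℕ)) = true) (k2 : ind' (2 ^ (e : ℕ)) = true)
    (h4 : allB (2 ^ n) (fun a => a.testBit e ||
      (ind (2 ^ (e : ℕ) ||| a) == ind' (2 ^ (e : ℕ) ||| pmk n q a))) = true) :
    BijOn f ((BM n ind h).contract {e}).E ((BM n ind' h').contract {e}).E ∧
      ∀ I ⊆ ((BM n ind h).contract {e}).E,
        (((BM n ind h).contract {e}).Indep I ↔ ((BM n ind' h').contract {e}).Indep (f '' I)) := by
  have hb := bij_fix f q h1 h2 e h3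
  refine ⟨hb, fun I hI => ?_⟩
  have hI' : f '' I ⊆ univ \ {e} := (image_mono hI).trans hb.mapsTo.image_subset
  have d1 : e ∉ I := fun k => (hI k).2 rfl
  have d2 : e ∉ f '' I := fun k => (hI' k).2 rfl
  have n1 : (BM n ind h).IsNonloop e := by
    rw [← Matroid.indep_singleton, ← S_two_pow, BM_indep (pow_lt e)]; exact k1
  have n2 : (BM n ind' h').IsNonloop e := by
    rw [← Matroid.indep_singleton, ← S_two_pow, BM_indep (pow_lt e)]; exact k2
  obtain ⟨a, ha, rfl⟩ := exists_S I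
  rw [n1.contractElem_indep_iff, n2.contractElem_indep_iff, and_iff_right d1, and_iff_right d2,
    image_S f q h1 h2, ← S_insert, ← S_insert, BM_indep (or_lt (pow_lt e) ha),
    BM_indep (or_lt (pow_lt e) (pmk_lt _ _ _))]
  have := (allB_iff _ _).1 h4 a ha
  have k : a.testBit e = false := by
    simpa [mem_S] using d1
  simp only [k, Bool.false_or, beq_iff_eq] at this
  rw [this]

end Pool.Agent.H10.BM
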