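import Mathlib

set_option autoImplicit false

namespace Pool.Agent.H10.BinChar

open Polynomial Submodule Module

abbrev V : Type := Fin 6 → ZMod 2

def dec (x : ℕ) : V := fun i => if x.testBit i then 1 else 0

lemma dec_xor (x y : ℕ) : dec (x ^^^ y) = dec x + dec y := by
  funext i
  simp only [dec, Nat.testBit_xor, Pi.add_apply]
  cases x.testBit i <;> cases y.testBit i <;> decide

lemma dec_inj {x y : ℕ} (hx : x < 64) (hy : y < 64) (h : dec x = dec y) : x = y := by
  apply Nat.eq_of_testBit_eq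
  intro i
  by_cases hi : i < 6
  · have := congrFun h ⟨i, hi⟩
    simp only [dec] at this
    revert this
    cases x.testBit i <;> cases y.testBit i <;> decide
  · have h1 : (64 : ℕ) ≤ 2 ^ i := by
      calc (64 : ℕ) = 2 ^ 6 := by norm_num
        _ ≤ 2 ^ i := Nat.pow_le_pow_right (by norm_num) (by omega)
    rw [Nat.testBit_lt_two_pow (by omega), Nat.testBit_lt_two_pow (by omega)]

def lsub : List ℤ → List ℤ → List ℤ
  | [], bs => bs.map (fun b => -b)
  | a :: as, [] => a :: as
  | a :: as, b :: bs => (a - b) :: lsub as bs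

noncomputable def toP : ℕ → List ℤ → ℤ[X]
  | _, [] => 0
  | k, a :: as => C a * X ^ (6 - k) + toP (k + 1) as

lemma toP_neg (bs : List ℤ) : ∀ k, toP k (bs.map (fun b => -b)) = - toP k bs := by
  induction bs with
  | nil => intro k; simp [toP]
  | cons b bs ih => intro k; simp [toP, ih]; ring

lemma toP_lsub (as : List ℤ) : ∀ bs k, toP k (lsub as bs) = toP k as - toP k bs := by
  induction as with
  | nil => intro bs k; simp [lsub, toP_neg, toP]
  | cons a as ih =>
    intro bs k
    cases bs with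
    | nil => simp [lsub, toP]
    | cons b bs => simp [lsub, toP, ih]; ring

def F : List ℕ → List ℕ → List ℤ
  | [], _ => [1]
  | v :: L, Ws => if Ws.elem v then [] else lsub (F L Ws) (0 :: F L (Ws ++ Ws.map (fun w => w ^^^ v)))

noncomputable def G (S : Finset V) (W : Submodule (ZMod 2) V) : ℤ[X] :=
  ∑ Y ∈ S.powerset, (-1 : ℤ[X]) ^ Y.card *
    X ^ (6 - finrank (ZMod 2) ↥(W ⊔ span (ZMod 2) (Y : Set V)))

lemma G_insert (S : Finset V) (v : V) (hv : v ∉ S) (W : Submodule (ZMod 2) V) :
    G (insert v S) W = G S W - G S (W ⊔ span (ZMod 2) {v}) := by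
  unfold G
  rw [Finset.sum_powerset_insert hv, sub_eq_add_neg, ← Finset.sum_neg_distrib]
  congr 1
  refine Finset.sum_congr rfl fun Y hY => ?_
  have : v ∉ Y := fun h => hv (Finset.mem_powerset.1 hY h)
  rw [Finset.card_insert_of_notMem this, Finset.coe_insert, span_insert, ← sup_assoc, pow_succ]
  ring

theorem G_eq (L : List ℕ) (hL : ∀ x ∈ L, x < 64) (hn : L.Nodup) :
    ∀ (Ws : List ℕ) (W : Submodule (ZMod 2) V), (∀ x ∈ Ws, x < 64) →
      (∀ u, u ∈ W ↔ ∃ x ∈ Ws, dec x = u) →
      G (L.map dec).toFinset W = toP (finrank (ZMod 2) W) (F L Ws) := by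
  induction L with
  | nil =>
    intro Ws W _ _
    simp only [G, F, toP, List.map_nil, List.toFinset_nil, Finset.powerset_empty,
      Finset.sum_singleton, Finset.card_empty]
    rw [Finset.coe_empty, span_empty, sup_bot_eq]
    simp
  | cons v L ih =>
    intro Ws W h1 h2
    have hv : v < 64 := hL v (by simp)
    have hL' : ∀ x ∈ L, x < 64 := fun x hx => hL x (by simp [hx])
    rw [List.nodup_cons] at hn
    have hnot : dec v ∉ (L.map dec).toFinset := by
      simp only [List.mem_toFinset, List.mem_map, not_exists, not_and]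
      intro x hx he
      exact hn.1 (dec_inj (hL' x hx) hv he ▸ hx)
    rw [List.map_cons, List.toFinset_cons, G_insert _ _ hnot, F]
    split_ifs with h
    · have : dec v ∈ W := (h2 _).2 ⟨v, List.mem_of_elem_eq_true h, rfl⟩
      rw [sup_eq_left.2 ((span_singleton_le_iff_mem _ _).2 this)]
      simp [toP]
    · have hW : dec v ∉ W := by
        intro h'
        obtain ⟨x, hx, he⟩ := (h2 _).1 h'
        exact h (List.elem_eq_true_of_mem (dec_inj (h1 x hx) hv he ▸ hx))
      rw [toP_lsub, ih hL' hn.2 Ws W h1 h2, ih hL' hn.2 (Ws ++ Ws.map (fun w => w ^^^ v))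
        (W ⊔ span (ZMod 2) {dec v}), finrank_sup_span_singleton hW]
      · simp [toP]
      · intro x hx
        rcases List.mem_append.1 hx with hx | hx
        · exact h1 x hx
        · obtain ⟨y, hy, rfl⟩ := List.mem_map.1 hx
          exact Nat.xor_lt_two_pow (n := 6) (h1 y hy) hv
      · intro u
        rw [mem_sup]
        constructor
        · rintro ⟨y, hy, z, hz, rfl⟩
          obtain ⟨x, hx, rfl⟩ := (h2 _).1 hy
          obtain ⟨c, rfl⟩ := mem_span_singleton.1 hz
          have hc : c = 0 ∨ c = 1 := (by decide : ∀ c : ZMod 2, c = 0 ∨ c = 1) c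
          rcases hc with rfl | rfl
          · exact ⟨x, List.mem_append_left _ hx, by simp⟩
          · exact ⟨x ^^^ v, List.mem_append_right _ (List.mem_map.2 ⟨x, hx, rfl⟩), by
              simp [dec_xor]⟩
        · rintro ⟨x, hx, rfl⟩
          rcases List.mem_append.1 hx with hx | hx
          · exact ⟨_, (h2 _).2 ⟨x, hx, rfl⟩, 0, zero_mem _, by simp⟩
          · obtain ⟨y, hy, rfl⟩ := List.mem_map.1 hx
            exact ⟨_, (h2 _).2 ⟨y, hy, rfl⟩, _, mem_span_singleton_self _, (dec_xor _ _).symm⟩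

def L0 : List ℕ := [1, 2, 4, 5, 12, 13, 22, 23, 26, 27, 32, 33, 44, 45, 54, 55, 56, 57, 59, 60, 62]

lemma F_L0 : F L0 [0] = [1, -21, 175, -735, 1624, -1764, 720] := by decide +kernel

def S0 : Finset V := (L0.map dec).toFinset

lemma G_S0 : G S0 ⊥ = ∏ i ∈ Finset.range 6, (X - C ((i : ℤ) + 1)) := by
  rw [S0, G_eq L0 (by decide) (by decide) [0] ⊥ (by simp) (by
    intro u
    have : dec 0 = 0 := by funext i; simp [dec]
    simp [this, eq_comm]), F_L0]
  simp [toP, Finset.prod_range_succ]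
  ring

lemma span_S0 : span (ZMod 2) (S0 : Set V) = ⊤ := by
  have hm : ∀ x ∈ L0, dec x ∈ span (ZMod 2) (S0 : Set V) := fun x hx =>
    subset_span (by simp only [S0, List.coe_toFinset]; exact List.mem_map.2 ⟨x, hx, rfl⟩)
  rw [eq_top_iff, ← (Pi.basisFun (ZMod 2) (Fin 6)).span_eq, span_le]
  rintro _ ⟨i, rfl⟩
  rw [Pi.basisFun_apply]
  have h0 : Pi.single 0 1 = dec 1 := by decide
  have h1 : Pi.single 1 1 = dec 2 := by decide
  have h2 : Pi.single 2 1 = dec 4 := by decide
  have h3 : Pi.single 3 1 = dec 12 + dec 4 := by decide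
  have h4 : Pi.single 4 1 = dec 22 + dec 4 + dec 2 := by decide
  have h5 : Pi.single 5 1 = dec 32 := by decide
  fin_cases i
  · exact h0 ▸ hm _ (by decide)
  · exact h1 ▸ hm _ (by decide)
  · exact h2 ▸ hm _ (by decide)
  · exact h3 ▸ add_mem (hm _ (by decide)) (hm _ (by decide))
  · exact h4 ▸ add_mem (add_mem (hm _ (by decide)) (hm _ (by decide))) (hm _ (by decide))
  · exact h5 ▸ hm _ (by decide)

lemma no_mod : ∀ c : V, c ≠ 0 → ∃ a ∈ L0, ∃ b ∈ L0, a ≠ b ∧ (a ^^^ b) ∉ L0 ∧
    ∑ i, dec a i * c i ≠ 0 ∧ ∑ i, dec b i * c i ≠ 0 := by decide +kernel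

lemma mem_S0 {x : ℕ} (hx : x < 64) : dec x ∈ S0 ↔ x ∈ L0 := by
  simp only [S0, List.mem_toFinset, List.mem_map]
  constructor
  · rintro ⟨y, hy, he⟩
    exact dec_inj ((by decide : ∀ y ∈ L0, y < 64) y hy) hx he ▸ hy
  · exact fun h => ⟨x, h, rfl⟩

lemma zero_S0 : (0 : V) ∉ S0 := by
  have : dec 0 = 0 := by funext i; simp [dec]
  rw [← this, mem_S0 (by norm_num)]; decide

theorem no_copoint (W : Submodule (ZMod 2) V) (hW : finrank (ZMod 2) W = 5) :
    ∃ U : Submodule (ZMod 2) V, span (ZMod 2) ((S0 : Set V) ∩ U) = U ∧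
      finrank (ZMod 2) W + finrank (ZMod 2) U ≠ finrank (ZMod 2) ↥(W ⊔ U) +
        finrank (ZMod 2) ↥(span (ZMod 2) ((S0 : Set V) ∩ W ∩ U)) := by
  have hV : finrank (ZMod 2) V = 6 := by simp
  have hlt : W < ⊤ := by
    rw [lt_top_iff_ne_top]
    rintro rfl
    rw [finrank_top, hV] at hW; omega
  obtain ⟨f, hf, hWf⟩ := W.exists_le_ker_of_lt_top hlt
  have hfa : ∀ a : V, f a = ∑ i, a i * f (Pi.single i 1) := by
    intro a
    conv_lhs => rw [← Finset.univ_sum_single a, map_sum]
    refine Finset.sum_congr rfl fun i _ => ?_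
    rw [← smul_eq_mul, ← map_smul, ← Pi.single_smul, smul_eq_mul, mul_one]
  obtain ⟨a, ha, b, hb, hab, hs, h1, h2⟩ := no_mod (fun i => f (Pi.single i 1)) (by
    intro h
    apply hf
    ext i
    simpa using congrFun h i)
  rw [← hfa] at h1 h2
  have l64 : ∀ y ∈ L0, y < 64 := by decide
  have aS := (mem_S0 (l64 a ha)).2 ha
  have bS := (mem_S0 (l64 b hb)).2 hb
  have hne : dec a ≠ dec b := fun h => hab (dec_inj (l64 a ha) (l64 b hb) h)
  have a0 : dec a ≠ 0 := fun h => zero_S0 (h ▸ aS)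
  have b0 : dec b ≠ 0 := fun h => zero_S0 (h ▸ bS)
  have hc : ∀ c : ZMod 2, c = 0 ∨ c = 1 := by decide
  refine ⟨span (ZMod 2) {dec a, dec b}, ?_, ?_⟩
  · apply le_antisymm (span_le.2 Set.inter_subset_right)
    apply span_mono
    rintro x (rfl | rfl)
    · exact ⟨aS, subset_span (by simp)⟩
    · exact ⟨bS, subset_span (by simp)⟩
  · have e1 : finrank (ZMod 2) ↥(span (ZMod 2) ({dec a, dec b} : Set V)) = 2 := by
      rw [span_insert, sup_comm, finrank_sup_span_singleton, finrank_span_singleton b0]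
      rw [mem_span_singleton]
      rintro ⟨c, h⟩
      rcases hc c with rfl | rfl
      · exact a0 (by simpa using h.symm)
      · exact hne (by simpa using h.symm)
    have e2 : (S0 : Set V) ∩ W ∩ (span (ZMod 2) ({dec a, dec b} : Set V) : Set V) = ∅ := by
      rw [Set.eq_empty_iff_forall_notMem]
      rintro x ⟨⟨hx1, hx2⟩, hx3⟩
      obtain ⟨s, t, rfl⟩ := mem_span_pair.1 hx3
      rcases hc s with rfl | rfl <;> rcases hc t with rfl | rfl
      · exact zero_S0 (by simpa using hx1)
      · exact h2 (by simpa using hWf hx2)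
      · exact h1 (by simpa using hWf hx2)
      · apply hs
        rw [← mem_S0 (Nat.xor_lt_two_pow (n := 6) (l64 a ha) (l64 b hb)), dec_xor]
        simpa using hx1
    rw [e2, span_empty, finrank_bot, e1, hW]
    have := finrank_le (W ⊔ span (ZMod 2) ({dec a, dec b} : Set V))
    omega

end Pool.Agent.H10.BinChar
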