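import Mathlib

set_option autoImplicit false
open Set Metric
open scoped RealInnerProductSpace Pointwise

namespace Pool.Agent.H10.Blk

abbrev V := EuclideanSpace ℝ (Fin 3)
abbrev Z3 := ℤ × ℤ × ℤ

noncomputable def toV (w : Z3) : V := !₂[(w.1 : ℝ), (w.2.1 : ℝ), (w.2.2 : ℝ)]
def dot (u w : Z3) : ℤ := u.1 * w.1 + u.2.1 * w.2.1 + u.2.2 * w.2.2

def act : Fin 12 → Z3 → Z3 :=
  ![fun w => (w.1, w.2.1, w.2.2),
    fun w => (w.1, -w.2.1, -w.2.2),
    fun w => (-w.1, w.2.1, -w.2.2),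
    fun w => (-w.1, -w.2.1, w.2.2),
    fun w => (w.2.1, w.2.2, w.1),
    fun w => (w.2.1, -w.2.2, -w.1),
    fun w => (-w.2.1, w.2.2, -w.1),
    fun w => (-w.2.1, -w.2.2, w.1),
    fun w => (w.2.2, w.1, w.2.1),
    fun w => (w.2.2, -w.1, -w.2.1),
    fun w => (-w.2.2, w.1, -w.2.1),
    fun w => (-w.2.2, -w.1, w.2.1)]

noncomputable def G : Fin 12 → V → V :=
  ![fun x => !₂[x 0, x 1, x 2],
    fun x => !₂[x 0, -x 1, -x 2],
    fun x => !₂[-x 0, x 1, -x 2],
    fun x => !₂[-x 0, -x 1, x 2],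
    fun x => !₂[x 1, x 2, x 0],
    fun x => !₂[x 1, -x 2, -x 0],
    fun x => !₂[-x 1, x 2, -x 0],
    fun x => !₂[-x 1, -x 2, x 0],
    fun x => !₂[x 2, x 0, x 1],
    fun x => !₂[x 2, -x 0, -x 1],
    fun x => !₂[-x 2, x 0, -x 1],
    fun x => !₂[-x 2, -x 0, x 1]]

def ginv : Fin 12 → Fin 12 := ![0, 1, 2, 3, 8, 10, 11, 9, 4, 7, 5, 6]

def a0 : Fin 8 → Z3 :=
  ![(744, -19996, -10848), (-20192, -11228, 466), (-27914, -21008, 13738), (20964, -14246, -27904), (-12726, -34934, 13170), (-34738, -13550, 12448), (18231, -14739, -23434), (14359, -23168, -18443)]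

def m0 : Fin 8 → Z3 :=
  ![(-139, -98, -190), (98, 190, 139), (5, 22, 254), (22, 254, -5), (139, 98, 190), (-98, 190, 139), (106, 190, 133), (190, -133, 106)]

def b0 (k : Fin 8) : Z3 :=
  ((a0 k).1 + 2 * (m0 k).1, (a0 k).2.1 + 2 * (m0 k).2.1, (a0 k).2.2 + 2 * (m0 k).2.2)

def sw : Fin 8 → Fin 8 := ![1, 0, 3, 2, 5, 4, 7, 6]

def nb : Fin 12 → Fin 8 → Fin 12 :=
  ![![8, 4, 9, 7, 10, 5, 11, 6],
    ![9, 5, 8, 6, 11, 4, 10, 7],
    ![10, 6, 11, 5, 8, 7, 9, 4],
    ![11, 7, 10, 4, 9, 6, 8, 5],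
    ![0, 8, 3, 10, 1, 11, 2, 9],
    ![1, 9, 2, 11, 0, 10, 3, 8],
    ![2, 10, 1, 8, 3, 9, 0, 11],
    ![3, 11, 0, 9, 2, 8, 1, 10],
    ![4, 0, 6, 1, 7, 2, 5, 3],
    ![5, 1, 7, 0, 6, 3, 4, 2],
    ![6, 2, 4, 3, 5, 0, 7, 1],
    ![7, 3, 5, 2, 4, 1, 6, 0]]

def sep : Fin 12 → Fin 12 → Z3 :=
  ![![(0, 0, 0), (0, 254, -4), (193, 0, 165), (126, 221, 0), (98, 190, 139), (-98, 190, 139), (190, -133, 106), (22, 254, -5), (-139, -98, -190), (5, 22, 254), (139, 98, 190), (106, 190, 133)],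
    ![(0, -254, 4), (0, 0, 0), (126, -221, 0), (193, 0, -165), (-98, -190, -139), (98, -190, -139), (22, -254, 5), (190, 133, -106), (5, -22, -254), (-139, 98, 190), (106, -190, -133), (139, -98, -190)],
    ![(-193, 0, -165), (-126, 221, 0), (0, 0, 0), (0, 254, 4), (-190, -133, -106), (-22, 254, 5), (-98, 190, -139), (98, 190, -139), (-139, 98, -190), (-106, 190, -133), (139, -98, 190), (-5, 22, -254)],
    ![(-126, -221, 0), (-193, 0, 165), (0, -254, -4), (0, 0, 0), (-22, -254, -5), (-190, 133, 106), (98, -190, 139), (-98, -190, 139), (-106, -190, 133), (-139, -98, 190), (-5, -22, 254), (139, 98, -190)],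
    ![(-98, -190, -139), (98, 190, 139), (190, 133, 106), (22, 254, 5), (0, 0, 0), (0, 165, 193), (221, 0, 126), (254, -4, 0), (190, 139, 98), (-133, 106, 190), (254, -5, 22), (190, 139, -98)],
    ![(98, -190, -139), (-98, 190, 139), (22, -254, -5), (190, -133, -106), (0, -165, -193), (0, 0, 0), (254, 4, 0), (221, 0, -126), (-133, -106, -190), (190, -139, -98), (190, -139, 98), (254, 5, -22)],
    ![(-190, 133, -106), (-22, 254, -5), (98, -190, 139), (-98, 190, -139), (-221, 0, -126), (-254, -4, 0), (0, 0, 0), (0, 165, -193), (-254, -5, -22), (-190, 139, 98), (-190, 139, -98), (133, 106, -190)],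
    ![(-22, -254, 5), (-190, -133, 106), (-98, -190, 139), (98, 190, -139), (-254, 4, 0), (-221, 0, 126), (0, -165, 193), (0, 0, 0), (-190, -139, -98), (-254, 5, 22), (133, -106, 190), (-190, -139, 98)],
    ![(139, 98, 190), (-5, 22, 254), (139, -98, 190), (106, 190, -133), (-190, -139, -98), (133, 106, 190), (254, 5, 22), (190, 139, 98), (0, 0, 0), (0, 126, 221), (-4, 0, 254), (165, 193, 0)],
    ![(-5, -22, -254), (139, -98, -190), (106, -190, 133), (139, 98, -190), (133, -106, -190), (-190, 139, 98), (190, -139, -98), (254, -5, -22), (0, -126, -221), (0, 0, 0), (165, -193, 0), (-4, 0, -254)],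
    ![(-139, -98, -190), (-106, 190, 133), (-139, 98, -190), (5, 22, -254), (-254, 5, -22), (-190, 139, -98), (190, -139, 98), (-133, 106, -190), (4, 0, -254), (-165, 193, 0), (0, 0, 0), (0, 126, -221)],
    ![(-106, -190, -133), (-139, 98, 190), (5, -22, 254), (-139, -98, 190), (-190, -139, 98), (-254, -5, 22), (-133, -106, 190), (190, 139, -98), (-165, -193, 0), (4, 0, 254), (0, -126, 221), (0, 0, 0)]]

theorem chkSep : ∀ i j : Fin 12, i ≠ j → 0 < dot (sep i j) (sep i j) ∧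
    dot (sep i j) (sep i j) ≤ 65025 ∧
    ∀ k l : Fin 8, dot (sep i j) (act i (a0 k)) + 130050 ≤ dot (sep i j) (act j (a0 l)) := by
  decide +kernel

theorem chkNb : ∀ (i : Fin 12) (k : Fin 8), nb i k ≠ i ∧ act (nb i k) (a0 (sw k)) = act i (b0 k) := by
  decide +kernel

theorem chkA : ∀ k : Fin 8, dot (a0 k) (a0 k) + 1 ≤ 4000000000 ∧ dot (m0 k) (m0 k) = 65025 := by
  decide +kernel

theorem lp (x00 x01 x02 x10 x11 x12 x20 x21 x22 v0 v1 v2 N : ℝ)
    (h0 : (-139) * ((744) * x00 + (-19996) * x01 + (-10848) * x02 + v0) + (-98) * ((744) * x10 + (-19996) * x11 + (-10848) * x12 + v1) + (-190) * ((744) * x20 + (-19996) * x21 + (-10848) * x22 + v2) ≤ 1000000000 * N)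
    (h1 : (98) * ((-20192) * x00 + (-11228) * x01 + (466) * x02 + v0) + (190) * ((-20192) * x10 + (-11228) * x11 + (466) * x12 + v1) + (139) * ((-20192) * x20 + (-11228) * x21 + (466) * x22 + v2) ≤ 1000000000 * N)
    (h2 : (5) * ((-27914) * x00 + (-21008) * x01 + (13738) * x02 + v0) + (22) * ((-27914) * x10 + (-21008) * x11 + (13738) * x12 + v1) + (254) * ((-27914) * x20 + (-21008) * x21 + (13738) * x22 + v2) ≤ 1000000000 * N)
    (h3 : (22) * ((20964) * x00 + (-14246) * x01 + (-27904) * x02 + v0) + (254) * ((20964) * x10 + (-14246) * x11 + (-27904) * x12 + v1) + (-5) * ((20964) * x20 + (-14246) * x21 + (-27904) * x22 + v2) ≤ 1000000000 * N)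
    (h4 : (139) * ((-12726) * x00 + (-34934) * x01 + (13170) * x02 + v0) + (98) * ((-12726) * x10 + (-34934) * x11 + (13170) * x12 + v1) + (190) * ((-12726) * x20 + (-34934) * x21 + (13170) * x22 + v2) ≤ 1000000000 * N)
    (h5 : (-98) * ((-34738) * x00 + (-13550) * x01 + (12448) * x02 + v0) + (190) * ((-34738) * x10 + (-13550) * x11 + (12448) * x12 + v1) + (139) * ((-34738) * x20 + (-13550) * x21 + (12448) * x22 + v2) ≤ 1000000000 * N)
    (h6 : (106) * ((18231) * x00 + (-14739) * x01 + (-23434) * x02 + v0) + (190) * ((18231) * x10 + (-14739) * x11 + (-23434) * x12 + v1) + (133) * ((18231) * x20 + (-14739) * x21 + (-23434) * x22 + v2) ≤ 1000000000 * N)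
    (h7 : (190) * ((14359) * x00 + (-23168) * x01 + (-18443) * x02 + v0) + (-133) * ((14359) * x10 + (-23168) * x11 + (-18443) * x12 + v1) + (106) * ((14359) * x20 + (-23168) * x21 + (-18443) * x22 + v2) ≤ 1000000000 * N)
    (s00 : x00 + x00 ≤ N) (t00 : -N ≤ x00 + x00)
    (s01 : x01 + x10 ≤ N) (t01 : -N ≤ x01 + x10)
    (s02 : x02 + x20 ≤ N) (t02 : -N ≤ x02 + x20)
    (s11 : x11 + x11 ≤ N) (t11 : -N ≤ x11 + x11)
    (s12 : x12 + x21 ≤ N) (t12 : -N ≤ x12 + x21)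
    (s22 : x22 + x22 ≤ N) (t22 : -N ≤ x22 + x22) :
    |x00| ≤ 100000000000 * N ∧ |x01| ≤ 100000000000 * N ∧ |x02| ≤ 100000000000 * N ∧ |x10| ≤ 100000000000 * N ∧ |x11| ≤ 100000000000 * N ∧ |x12| ≤ 100000000000 * N ∧ |x20| ≤ 100000000000 * N ∧ |x21| ≤ 100000000000 * N ∧ |x22| ≤ 100000000000 * N ∧ |v0| ≤ 100000000000 * N ∧ |v1| ≤ 100000000000 * N ∧ |v2| ≤ 100000000000 * N := by
  refine ⟨?_, ?_, ?_, ?_, ?_, ?_, ?_, ?_, ?_, ?_, ?_, ?_⟩ <;> rw [abs_le] <;> constructor <;> linarith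

theorem G_toV (i : Fin 12) (w : Z3) : G i (toV w) = toV (act i w) := by
  fin_cases i <;> ext c <;> fin_cases c <;> simp [G, toV, act]

theorem G_inv (i : Fin 12) (x : V) : G i (G (ginv i) x) = x := by
  fin_cases i <;> ext c <;> fin_cases c <;> simp [G, ginv]

theorem G_inv' (i : Fin 12) (x : V) : G (ginv i) (G i x) = x := by
  fin_cases i <;> ext c <;> fin_cases c <;> simp [G, ginv]

theorem G_iso (i : Fin 12) : Isometry (G i) := by
  refine Isometry.of_dist_eq fun x y => ?_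
  rw [EuclideanSpace.dist_eq, EuclideanSpace.dist_eq]
  congr 1
  simp only [Fin.sum_univ_three, Real.dist_eq, sq_abs]
  fin_cases i <;> simp [G] <;> ring

theorem inner_toV (u w : Z3) : ⟪toV u, toV w⟫ = (dot u w : ℝ) := by
  simp [toV, dot, EuclideanSpace.inner_eq_star_dotProduct, Matrix.vec3_dotProduct]
  ring

end Pool.Agent.H10.Blk
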