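import Pool.Agent.H10.Blk1

set_option autoImplicit false
open Set Metric
open scoped RealInnerProductSpace Pointwise

namespace Pool.Agent.H10.Blk

noncomputable def e (j : Fin 3) : V := EuclideanSpace.single j 1

noncomputable def col (h : V → V) (j : Fin 3) : V := h (e j) - h 0 - e j

noncomputable def NN (h : V → V) : ℝ := ‖col h 0‖ ^ 2 + ‖col h 1‖ ^ 2 + ‖col h 2‖ ^ 2 + ‖h 0‖ ^ 2

theorem iso_lin (h : V → V) (hh : Isometry h) :
    ∃ Q : V ≃ₗᵢ[ℝ] V, ∀ x, h x = Q x + h 0 := by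
  set f := hh.affineIsometryOfStrictConvexSpace
  refine ⟨f.linearIsometry.toLinearIsometryEquiv rfl, fun x => ?_⟩
  have := f.map_vadd 0 x
  simpa [f] using this

theorem nsq (x : V) : ‖x‖ ^ 2 = x 0 ^ 2 + x 1 ^ 2 + x 2 ^ 2 := by
  rw [EuclideanSpace.norm_sq_eq]; simp [Fin.sum_univ_three]

theorem inn (x y : V) : ⟪x, y⟫ = x 0 * y 0 + x 1 * y 1 + x 2 * y 2 := by
  simp [EuclideanSpace.inner_eq_star_dotProduct, dotProduct, Fin.sum_univ_three]
  ring

theorem cs4 (a b c x y z v : ℝ) :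
    (a * x + b * y + c * z + v) ^ 2 ≤ (a ^ 2 + b ^ 2 + c ^ 2 + 1) * (x ^ 2 + y ^ 2 + z ^ 2 + v ^ 2) := by
  nlinarith [sq_nonneg (a * y - b * x), sq_nonneg (a * z - c * x), sq_nonneg (b * z - c * y),
    sq_nonneg (a * v - x), sq_nonneg (b * v - y), sq_nonneg (c * v - z)]

theorem aff (h : V → V) (hh : Isometry h) (x : V) :
    h x = x + (x 0 • col h 0 + x 1 • col h 1 + x 2 • col h 2 + h 0) := by
  obtain ⟨Q, hQ⟩ := iso_lin h hh
  have hc : ∀ j, col h j = Q (e j) - e j := fun j => by rw [col, hQ (e j)]; abel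
  have hx : x = x 0 • e 0 + x 1 • e 1 + x 2 • e 2 := by
    ext c; fin_cases c <;> simp [e]
  have h2 : Q x = x 0 • Q (e 0) + x 1 • Q (e 1) + x 2 • Q (e 2) := by
    conv_lhs => rw [hx]
    simp only [map_add, map_smul]
  rw [hQ x, h2, hc, hc, hc]
  conv_rhs => enter [1]; rw [hx]
  module

theorem orth (h : V → V) (hh : Isometry h) (i j : Fin 3) :
    col h j i + col h i j = -⟪col h i, col h j⟫ := by
  obtain ⟨Q, hQ⟩ := iso_lin h hh
  have hc : ∀ j, Q (e j) = e j + col h j := fun j => by rw [col, hQ (e j)]; abel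
  have h1 := Q.inner_map_map (e i) (e j)
  rw [hc, hc, inner_add_left, inner_add_right, inner_add_right] at h1
  have h2 : ⟪e i, col h j⟫ = col h j i := by simp [e, EuclideanSpace.inner_single_left]
  have h3 : ⟪col h i, e j⟫ = col h i j := by simp [e, EuclideanSpace.inner_single_right]
  linarith

theorem rigid (h : V → V) (hh : Isometry h)
    (hc : ∀ k, 510 ≤ dist (h (toV (a0 k))) (toV (b0 k))) :
    NN h ≤ 12 * (100000000000 * NN h) ^ 2 := by
  have hN : NN h = col h 0 0 ^ 2 + col h 0 1 ^ 2 + col h 0 2 ^ 2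
      + (col h 1 0 ^ 2 + col h 1 1 ^ 2 + col h 1 2 ^ 2)
      + (col h 2 0 ^ 2 + col h 2 1 ^ 2 + col h 2 2 ^ 2) + (h 0 0 ^ 2 + h 0 1 ^ 2 + h 0 2 ^ 2) := by
    rw [NN, nsq, nsq, nsq, nsq]
  have hN0 : 0 ≤ NN h := by rw [NN]; positivity
  have ht : ∀ k, ((m0 k).1 : ℝ) * ((a0 k).1 * col h 0 0 + (a0 k).2.1 * col h 1 0 + (a0 k).2.2 * col h 2 0 + h 0 0)
      + ((m0 k).2.1 : ℝ) * ((a0 k).1 * col h 0 1 + (a0 k).2.1 * col h 1 1 + (a0 k).2.2 * col h 2 1 + h 0 1)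
      + ((m0 k).2.2 : ℝ) * ((a0 k).1 * col h 0 2 + (a0 k).2.1 * col h 1 2 + (a0 k).2.2 * col h 2 2 + h 0 2)
      ≤ 1000000000 * NN h := by
    intro k
    have h1 := pow_le_pow_left₀ (by norm_num) (hc k) 2
    rw [dist_eq_norm, nsq, aff h hh] at h1
    simp only [toV, b0, PiLp.sub_apply, PiLp.add_apply, PiLp.smul_apply, smul_eq_mul,
      Matrix.cons_val_zero, Matrix.cons_val_one, Matrix.cons_val_two, Matrix.head_cons,
      Matrix.tail_cons, Int.cast_add, Int.cast_mul, Int.cast_ofNat] at h1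
    obtain ⟨c1, c2⟩ := chkA k
    have c1' : ((a0 k).1 : ℝ) ^ 2 + ((a0 k).2.1 : ℝ) ^ 2 + ((a0 k).2.2 : ℝ) ^ 2 + 1 ≤ 4000000000 := by
      have : ((dot (a0 k) (a0 k) + 1 : ℤ) : ℝ) ≤ ((4000000000 : ℤ) : ℝ) := by exact_mod_cast c1
      simp only [dot] at this
      push_cast at this
      nlinarith
    have c2' : ((m0 k).1 : ℝ) ^ 2 + ((m0 k).2.1 : ℝ) ^ 2 + ((m0 k).2.2 : ℝ) ^ 2 = 65025 := by
      have : ((dot (m0 k) (m0 k) : ℤ) : ℝ) = ((65025 : ℤ) : ℝ) := by exact_mod_cast c2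
      simp only [dot] at this
      push_cast at this
      nlinarith
    have q0 := cs4 (a0 k).1 (a0 k).2.1 (a0 k).2.2 (col h 0 0) (col h 1 0) (col h 2 0) (h 0 0)
    have q1 := cs4 (a0 k).1 (a0 k).2.1 (a0 k).2.2 (col h 0 1) (col h 1 1) (col h 2 1) (h 0 1)
    have q2 := cs4 (a0 k).1 (a0 k).2.1 (a0 k).2.2 (col h 0 2) (col h 1 2) (col h 2 2) (h 0 2)
    have q3 := mul_le_mul_of_nonneg_right c1' hN0
    set u0 := (a0 k).1 * col h 0 0 + (a0 k).2.1 * col h 1 0 + (a0 k).2.2 * col h 2 0 + h 0 0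
    set u1 := (a0 k).1 * col h 0 1 + (a0 k).2.1 * col h 1 1 + (a0 k).2.2 * col h 2 1 + h 0 1
    set u2 := (a0 k).1 * col h 0 2 + (a0 k).2.1 * col h 1 2 + (a0 k).2.2 * col h 2 2 + h 0 2
    have q4 : u0 ^ 2 + u1 ^ 2 + u2 ^ 2 ≤ 4000000000 * NN h := by
      refine le_trans ?_ q3
      rw [hN]
      linarith
    nlinarith
  have hs : ∀ i j, col h j i + col h i j ≤ NN h ∧ -NN h ≤ col h j i + col h i j := by
    intro i j
    rw [orth h hh]
    have b : ∀ i, ‖col h i‖ ^ 2 ≤ NN h := by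
      intro i
      rw [NN]
      have := sq_nonneg ‖col h 0‖
      have := sq_nonneg ‖col h 1‖
      have := sq_nonneg ‖col h 2‖
      have := sq_nonneg ‖h 0‖
      fin_cases i <;> simp <;> linarith
    have c := abs_le.1 (abs_real_inner_le_norm (col h i) (col h j))
    have d := b i
    have f := b j
    constructor <;> nlinarith [sq_nonneg (‖col h i‖ - ‖col h j‖), c.1, c.2]
  have key := lp (col h 0 0) (col h 1 0) (col h 2 0) (col h 0 1) (col h 1 1) (col h 2 1)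
    (col h 0 2) (col h 1 2) (col h 2 2) (h 0 0) (h 0 1) (h 0 2) (NN h)
    (by simpa [a0, m0] using ht 0) (by simpa [a0, m0] using ht 1) (by simpa [a0, m0] using ht 2)
    (by simpa [a0, m0] using ht 3) (by simpa [a0, m0] using ht 4) (by simpa [a0, m0] using ht 5)
    (by simpa [a0, m0] using ht 6) (by simpa [a0, m0] using ht 7)
    (hs 0 0).1 (hs 0 0).2 (hs 0 1).1 (hs 0 1).2 (hs 0 2).1 (hs 0 2).2
    (hs 1 1).1 (hs 1 1).2 (hs 1 2).1 (hs 1 2).2 (hs 2 2).1 (hs 2 2).2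
  obtain ⟨k1, k2, k3, k4, k5, k6, k7, k8, k9, k10, k11, k12⟩ := key
  have sq : ∀ x : ℝ, |x| ≤ 100000000000 * NN h → x ^ 2 ≤ (100000000000 * NN h) ^ 2 := by
    intro x hx
    rw [← sq_abs]
    exact pow_le_pow_left₀ (abs_nonneg x) hx 2
  conv_lhs => rw [hN]
  linarith [sq _ k1, sq _ k2, sq _ k3, sq _ k4, sq _ k5, sq _ k6, sq _ k7, sq _ k8, sq _ k9,
    sq _ k10, sq _ k11, sq _ k12]

theorem path0 (γ : ℝ → V → V) (hc : Continuous (fun p : ℝ × V => γ p.1 p.2))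
    (h0 : ∀ x, γ 0 x = x) (hi : ∀ t ∈ Icc (0:ℝ) 1, Isometry (γ t))
    (hk : ∀ t ∈ Icc (0:ℝ) 1, ∀ k, 510 ≤ dist (γ t (toV (a0 k))) (toV (b0 k))) (x : V) :
    γ 1 x = x := by
  have hp : ∀ y : V, Continuous fun t : ℝ => γ t y := fun y =>
    hc.comp (continuous_id.prodMk continuous_const)
  have hf : Continuous fun t : ℝ => NN (γ t) := by
    unfold NN col
    have := hp 0
    have := hp (e 0)
    have := hp (e 1)
    have := hp (e 2)
    fun_prop
  have f0 : NN (γ 0) = 0 := by simp [NN, col, h0]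
  have hN0 : 0 ≤ NN (γ 1) := by rw [NN]; positivity
  have f1 : NN (γ 1) = 0 := by
    by_contra hne
    have hpos : 0 < NN (γ 1) := lt_of_le_of_ne hN0 (Ne.symm hne)
    set δ : ℝ := min (NN (γ 1)) (1 / 10 ^ 24) with hδ
    have hδ0 : 0 < δ := lt_min hpos (by positivity)
    have hmem : δ ∈ Icc (NN (γ 0)) (NN (γ 1)) := ⟨by rw [f0]; exact hδ0.le, min_le_left _ _⟩
    obtain ⟨t, ht, e1⟩ := intermediate_value_Icc zero_le_one hf.continuousOn hmem
    have h1 := rigid (γ t) (hi t ht) (hk t ht)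
    simp only at e1
    rw [e1] at h1
    have h2 : δ ≤ 1 / 10 ^ 24 := min_le_right _ _
    nlinarith
  rw [NN] at f1
  have a := sq_nonneg ‖col (γ 1) 0‖
  have b := sq_nonneg ‖col (γ 1) 1‖
  have c := sq_nonneg ‖col (γ 1) 2‖
  have d := sq_nonneg ‖γ 1 0‖
  have z : ∀ y : V, ‖y‖ ^ 2 = 0 → y = 0 := fun y hy => by simpa using hy
  rw [aff (γ 1) (hi 1 ⟨zero_le_one, le_rfl⟩) x, z (col (γ 1) 0) (by linarith),
    z (col (γ 1) 1) (by linarith), z (col (γ 1) 2) (by linarith), z (γ 1 0) (by linarith)]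
  simp

end Pool.Agent.H10.Blk
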