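import Pool.Agent.H10.Blk2

set_option autoImplicit false
open Set Metric
open scoped RealInnerProductSpace Pointwise

namespace Pool.Agent.H10.Blk

noncomputable def K (i : Fin 12) : Set V :=
  convexHull ℝ (range fun k => toV (act i (a0 k))) + closedBall 0 255

theorem K_compact (i : Fin 12) : IsCompact (K i) :=
  ((finite_range _).isCompact_convexHull ℝ).add (isCompact_closedBall 0 255)

theorem K_convex (i : Fin 12) : Convex ℝ (K i) :=
  (convex_convexHull ℝ _).add (convex_closedBall 0 255)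

theorem ball_sub (i : Fin 12) (k : Fin 8) : ball (toV (act i (a0 k))) 255 ⊆ K i := by
  intro x hx
  refine ⟨toV (act i (a0 k)), subset_convexHull ℝ _ ⟨k, rfl⟩, x - toV (act i (a0 k)), ?_, by simp⟩
  rw [mem_closedBall_zero_iff, ← dist_eq_norm]
  exact (mem_ball.1 hx).le

theorem smooth (C : Set V) (x : V) (hx : x ∈ C + closedBall (0:V) 255) (u : V) (hu : u ≠ 0)
    (y z : V) (hy : y ∈ C) (hz : ‖z‖ ≤ 255) (hxyz : y + z = x)
    (h : ∀ w ∈ C + closedBall (0:V) 255, ⟪u, w - x⟫ ≤ 0) : ‖u‖ • z = (255:ℝ) • u := by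
  have hn : 0 < ‖u‖ := norm_pos_iff.2 hu
  have h1 := h (y + (255 / ‖u‖) • u) ⟨y, hy, _, by
    rw [mem_closedBall_zero_iff, norm_smul, Real.norm_eq_abs, abs_of_pos (by positivity)]
    exact le_of_eq (by field_simp), rfl⟩
  have h2 : y + (255 / ‖u‖) • u - x = (255 / ‖u‖) • u - z := by rw [← hxyz]; abel
  rw [h2, inner_sub_right, real_inner_smul_right, real_inner_self_eq_norm_sq] at h1
  have h3 : 255 / ‖u‖ * ‖u‖ ^ 2 = 255 * ‖u‖ := by field_simp
  rw [h3] at h1
  rw [← sub_eq_zero, ← norm_eq_zero]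
  have h4 : ‖‖u‖ • z - (255:ℝ) • u‖ ^ 2 ≤ 0 := by
    rw [norm_sub_sq_real, norm_smul, norm_smul, real_inner_smul_left, real_inner_smul_right,
      real_inner_comm u z, norm_norm, Real.norm_eq_abs, abs_of_pos (by norm_num : (0:ℝ) < 255)]
    have h5 : ‖z‖ ^ 2 ≤ 255 ^ 2 := pow_le_pow_left₀ (norm_nonneg z) hz 2
    have h6 := mul_le_mul_of_nonneg_left h5 (sq_nonneg ‖u‖)
    have h7 := mul_le_mul_of_nonneg_left h1 hn.le
    nlinarith
  exact pow_eq_zero_iff (two_ne_zero) |>.1 (le_antisymm h4 (sq_nonneg _))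

theorem K_smooth (i : Fin 12) : ∀ x ∈ frontier (K i), ∀ u v : V, u ≠ 0 → v ≠ 0 →
    (∀ y ∈ K i, inner ℝ u (y - x) ≤ 0) → (∀ y ∈ K i, inner ℝ v (y - x) ≤ 0) →
    ∃ c : ℝ, 0 < c ∧ v = c • u := by
  intro x hx u v hu hv h1 h2
  have hxK : x ∈ K i := (K_compact i).isClosed.frontier_subset hx
  obtain ⟨y, hy, z, hz, hyz⟩ := id hxK
  rw [mem_closedBall_zero_iff] at hz
  have e1 := smooth _ x hxK u hu y z hy hz hyz h1
  have e2 := smooth _ x hxK v hv y z hy hz hyz h2
  have hun : 0 < ‖u‖ := norm_pos_iff.2 hu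
  have hvn : 0 < ‖v‖ := norm_pos_iff.2 hv
  refine ⟨‖v‖ / ‖u‖, by positivity, ?_⟩
  have e3 : u = (‖u‖ / 255) • z := by
    have : (‖u‖ / 255) • z = (1 / 255 : ℝ) • (‖u‖ • z) := by rw [smul_smul]; congr 1; ring
    rw [this, e1, smul_smul]; norm_num
  have e4 : v = (‖v‖ / 255) • z := by
    have : (‖v‖ / 255) • z = (1 / 255 : ℝ) • (‖v‖ • z) := by rw [smul_smul]; congr 1; ring
    rw [this, e2, smul_smul]; norm_num
  have e5 : (‖v‖ / ‖u‖) • ((‖u‖ / 255) • z) = (‖v‖ / 255) • z := by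
    rw [smul_smul]; congr 1; field_simp
  rw [← e3, ← e4] at e5
  exact e5.symm

theorem hs_le (m : V) (hm : ‖m‖ ≤ 255) (c : ℝ) (s : Set V) (hs : ∀ y ∈ s, ⟪m, y⟫ ≤ c) :
    ∀ x ∈ convexHull ℝ s + closedBall (0:V) 255, ⟪m, x⟫ ≤ c + 65025 := by
  rintro x ⟨y, hy, z, hz, rfl⟩
  rw [mem_closedBall_zero_iff] at hz
  have hc : Convex ℝ {y : V | ⟪m, y⟫ ≤ c} :=
    convex_halfSpace_le (innerSL ℝ m).toLinearMap.isLinear c
  have h1 : ⟪m, y⟫ ≤ c := convexHull_min hs hc hy
  have h2 := real_inner_le_norm m z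
  have h3 : ‖m‖ * ‖z‖ ≤ 255 * 255 := mul_le_mul hm hz (norm_nonneg _) (by norm_num)
  simp only
  rw [inner_add_right]
  linarith

theorem K_disj (i j : Fin 12) (hij : i ≠ j) : Disjoint (interior (K i)) (interior (K j)) := by
  obtain ⟨h0, h1, h2⟩ := chkSep i j hij
  set m := toV (sep i j) with hm
  have n2 : ‖m‖ ^ 2 = (dot (sep i j) (sep i j) : ℝ) := by
    rw [← real_inner_self_eq_norm_sq, inner_toV]
  have n0 : 0 < ‖m‖ ^ 2 := by rw [n2]; exact_mod_cast h0
  have n1 : ‖m‖ ≤ 255 := by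
    have : ‖m‖ ^ 2 ≤ 255 ^ 2 := by rw [n2]; exact_mod_cast h1
    exact le_of_sq_le_sq this (by norm_num) |> fun h => h
  obtain ⟨k0, -, hk0⟩ := Finset.exists_max_image Finset.univ
    (fun k => dot (sep i j) (act i (a0 k))) Finset.univ_nonempty
  set c : ℝ := (dot (sep i j) (act i (a0 k0)) : ℝ) with hc
  have a1 := hs_le m n1 c (range fun k => toV (act i (a0 k))) (by
    rintro _ ⟨k, rfl⟩
    rw [inner_toV, hc]
    exact_mod_cast hk0 k (Finset.mem_univ k))
  have a2 := hs_le (-m) (by rw [norm_neg]; exact n1) (-(c + 130050))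
    (range fun k => toV (act j (a0 k))) (by
    rintro _ ⟨l, rfl⟩
    rw [inner_neg_left, inner_toV, hc, neg_le_neg_iff]
    exact_mod_cast h2 k0 l)
  rw [Set.disjoint_left]
  intro x hx hx'
  obtain ⟨ε, hε, hb⟩ := Metric.isOpen_iff.1 isOpen_interior x hx
  have hmem : x + (ε / 510) • m ∈ K i := by
    apply interior_subset
    apply hb
    rw [mem_ball, dist_eq_norm, add_sub_cancel_left, norm_smul, Real.norm_eq_abs,
      abs_of_pos (by positivity)]
    nlinarith
  have b1 := a1 _ hmem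
  have b2 := a2 x (interior_subset hx')
  rw [inner_add_right, real_inner_smul_right, real_inner_self_eq_norm_sq] at b1
  rw [inner_neg_left] at b2
  have : 0 < ε / 510 * ‖m‖ ^ 2 := by positivity
  linarith

theorem far (h : V → V) (hh : Isometry h) (i j : Fin 12) (k l : Fin 8)
    (hd : Disjoint (interior (h '' K i)) (interior (K j))) :
    510 ≤ dist (h (toV (act i (a0 k)))) (toV (act j (a0 l))) := by
  by_contra hlt
  rw [not_le] at hlt
  obtain ⟨Q, hQ⟩ := iso_lin h hh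
  have hsurj : Function.Surjective h := fun y => ⟨Q.symm (y - h 0), by rw [hQ]; simp⟩
  have b1 : ball (h (toV (act i (a0 k)))) 255 ⊆ interior (h '' K i) := by
    refine interior_maximal (fun y hy => ?_) isOpen_ball
    obtain ⟨x, rfl⟩ := hsurj y
    refine ⟨x, ball_sub i k ?_, rfl⟩
    rw [mem_ball, hh.dist_eq] at hy
    exact hy
  have b2 : ball (toV (act j (a0 l))) 255 ⊆ interior (K j) :=
    interior_maximal (ball_sub j l) isOpen_ball
  refine Set.disjoint_left.1 hd (b1 (a := midpoint ℝ (h (toV (act i (a0 k)))) (toV (act j (a0 l)))) ?_)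
    (b2 ?_)
  · rw [mem_ball, dist_midpoint_left]
    norm_num
    linarith
  · rw [mem_ball, dist_midpoint_right]
    norm_num
    linarith

theorem K_stuck (i : Fin 12) (γ : ℝ → V → V) (hc : Continuous (fun p : ℝ × V => γ p.1 p.2))
    (h0 : ∀ x, γ 0 x = x) (hi : ∀ t ∈ Icc (0:ℝ) 1, Isometry (γ t))
    (hd : ∀ t ∈ Icc (0:ℝ) 1, ∀ j, j ≠ i → Disjoint (interior (γ t '' K i)) (interior (K j))) :
    γ 1 '' K i = K i := by
  have h := path0 (fun t x => G (ginv i) (γ t (G i x)))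
    ((G_iso _).continuous.comp (hc.comp (continuous_fst.prodMk
      ((G_iso i).continuous.comp continuous_snd))))
    (fun x => by simp only [h0, G_inv'])
    (fun t ht => (G_iso _).comp ((hi t ht).comp (G_iso i)))
    (fun t ht k => by
      obtain ⟨c1, c2⟩ := chkNb i k
      have := far (γ t) (hi t ht) i (nb i k) k (sw k) (hd t ht _ c1)
      rw [c2, ← G_toV, ← G_toV] at this
      rw [← (G_iso i).dist_eq, G_inv]
      exact this)
  have h2 : ∀ x, γ 1 x = x := by
    intro x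
    have := congrArg (G i) (h (G (ginv i) x))
    simpa only [G_inv] using this
  have : γ 1 = id := funext h2
  rw [this, image_id]

end Pool.Agent.H10.Blk
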