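import Pool.Agent.H10.Blk3

set_option autoImplicit false
open Set Metric
open scoped RealInnerProductSpace Pointwise

namespace Pool.Agent.H10.Blk8
open Pool.Agent.H10.Blk

def A : Fin 8 → Fin 12 → Z3 :=
  ![![(784815, 307838, 477227), (411091, 86867, -118631), (373471, 127682, -83801), (-61658, 712647, 605450), (223742, 346135, 151869), (120505, 248151, 244391), (748557, 34983, 570913), (323309, 76782, 488717), (347869, -217149, 146340), (767339, -308529, -452837), (770918, -573530, -313213), (417416, 71350, -128557)],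
    ![(788009, 314646, 472699), (414285, 93675, -123159), (376665, 134490, -88329), (-68771, 410417, -133184), (576102, 763927, -317856), (311108, 760340, -457464), (-577349, 507980, -591792), (-284263, 194237, -483262), (-89089, 404396, -147742), (508688, 562561, -562099), (400891, 94895, -142169), (190734, 290075, -477694)],
    ![(-68250, 714365, 599914), (217150, 347853, 146333), (113913, 249869, 238855), (-71299, 417441, -128566), (573574, 770951, -313238), (308580, 767364, -452846), (-215724, 893135, 415138), (-86856, 411119, -118628), (-127671, 373499, -83798), (-746839, -28391, 576449), (-346151, 223741, 151876), (-248167, 120504, 244398)],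
    ![(-583159, 504480, -586220), (-290073, 190737, -477690), (-94899, 400896, -142170), (-222532, 896329, 410610), (-93664, 414313, -123156), (-134479, 376693, -88326), (-410417, -68771, -133184), (-763927, 576102, -317856), (-760340, 311108, -457464), (-485896, -556721, -584154), (-194218, -284259, -483269), (-404377, -89085, -147749)],
    ![(-748557, -34983, 570913), (-347869, 217149, 146340), (-249885, 113912, 238862), (-417441, -71299, -128566), (-770951, 573574, -313238), (-767364, 308580, -452846), (-784815, -307838, 477227), (-411091, -86867, -118631), (-373471, -127682, -83801), (61658, -712647, 605450), (27189, -744935, 574426), (-223742, -346135, 151869)],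
    ![(-482396, -562531, -578582), (-190718, -290069, -477697), (-400877, -94895, -142177), (-788009, -314646, 472699), (-414285, -93675, -123159), (-376665, -134490, -88329), (-576136, -763938, -317855), (-311142, -760351, -457463), (68737, -410428, -133183), (577349, -507980, -591792), (284263, -194237, -483262), (89089, -404396, -147742)],
    ![(746839, 28391, 576449), (321591, 70190, 494253), (346151, -223741, 151876), (68250, -714365, 599914), (33781, -746653, 568890), (-217150, -347853, 146333), (-573608, -770962, -313237), (-308614, -767375, -452845), (71265, -417452, -128565), (215724, -893135, 415138), (86856, -411119, -118628), (127671, -373499, -83798)],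
    ![(760315, -311057, -457455), (763894, -576058, -317831), (410392, 68822, -133175), (512188, 556751, -567671), (404391, 89085, -147741), (194234, 284265, -483266), (583159, -504480, -586220), (290073, -190737, -477690), (94899, -400896, -142170), (222532, -896329, 410610), (93664, -414313, -123156), (134479, -376693, -88326)]]

def Mv : Fin 8 → Fin 12 → Z3 :=
  ![![(1597, 3404, -2264), (1597, 3404, -2264), (1597, 3404, -2264), (-3296, 859, -2768), (-3296, 859, -2768), (-3296, 859, -2768), (-859, -3296, 2768), (-859, -3296, 2768), (-859, -3296, 2768), (-3512, -1264, -2309), (-3512, -1264, -2309), (-3512, -1264, -2309)],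
    ![(-1597, -3404, 2264), (-1597, -3404, 2264), (-1597, -3404, 2264), (-1264, 3512, 2309), (-1264, 3512, 2309), (-1264, 3512, 2309), (-2905, -1750, 2786), (-2905, -1750, 2786), (-2905, -1750, 2786), (1750, -2905, -2786), (1750, -2905, -2786), (1750, -2905, -2786)],
    ![(3296, -859, 2768), (3296, -859, 2768), (3296, -859, 2768), (1264, -3512, -2309), (1264, -3512, -2309), (1264, -3512, -2309), (-3404, 1597, -2264), (-3404, 1597, -2264), (-3404, 1597, -2264), (-859, -3296, -2768), (-859, -3296, -2768), (-859, -3296, -2768)],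
    ![(2905, 1750, -2786), (2905, 1750, -2786), (2905, 1750, -2786), (3404, -1597, 2264), (3404, -1597, 2264), (3404, -1597, 2264), (-3512, -1264, 2309), (-3512, -1264, 2309), (-3512, -1264, 2309), (1750, -2905, 2786), (1750, -2905, 2786), (1750, -2905, 2786)],
    ![(859, 3296, 2768), (859, 3296, 2768), (859, 3296, 2768), (3512, 1264, -2309), (3512, 1264, -2309), (3512, 1264, -2309), (-1597, -3404, -2264), (-1597, -3404, -2264), (-1597, -3404, -2264), (3296, -859, -2768), (3296, -859, -2768), (3296, -859, -2768)],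
    ![(-1750, 2905, -2786), (-1750, 2905, -2786), (-1750, 2905, -2786), (1597, 3404, 2264), (1597, 3404, 2264), (1597, 3404, 2264), (1264, -3512, 2309), (1264, -3512, 2309), (1264, -3512, 2309), (2905, 1750, 2786), (2905, 1750, 2786), (2905, 1750, 2786)],
    ![(859, 3296, -2768), (859, 3296, -2768), (859, 3296, -2768), (-3296, 859, 2768), (-3296, 859, 2768), (-3296, 859, 2768), (-1264, 3512, -2309), (-1264, 3512, -2309), (-1264, 3512, -2309), (3404, -1597, -2264), (3404, -1597, -2264), (3404, -1597, -2264)],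
    ![(3512, 1264, 2309), (3512, 1264, 2309), (3512, 1264, 2309), (-1750, 2905, 2786), (-1750, 2905, 2786), (-1750, 2905, 2786), (-2905, -1750, -2786), (-2905, -1750, -2786), (-2905, -1750, -2786), (-3404, 1597, 2264), (-3404, 1597, 2264), (-3404, 1597, 2264)]]

def nb : Fin 8 → Fin 12 → Fin 8 :=
  ![![1, 1, 1, 2, 2, 2, 6, 6, 6, 7, 7, 7],
    ![0, 0, 0, 2, 2, 2, 3, 3, 3, 7, 7, 7],
    ![0, 0, 0, 1, 1, 1, 3, 3, 3, 4, 4, 4],
    ![1, 1, 1, 2, 2, 2, 4, 4, 4, 5, 5, 5],
    ![2, 2, 2, 3, 3, 3, 5, 5, 5, 6, 6, 6],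
    ![3, 3, 3, 4, 4, 4, 6, 6, 6, 7, 7, 7],
    ![0, 0, 0, 4, 4, 4, 5, 5, 5, 7, 7, 7],
    ![0, 0, 0, 1, 1, 1, 5, 5, 5, 6, 6, 6]]

def ix : Fin 8 → Fin 12 → Fin 12 :=
  ![![0, 1, 2, 0, 1, 2, 0, 1, 2, 0, 1, 2],
    ![0, 1, 2, 3, 4, 5, 0, 1, 2, 3, 4, 5],
    ![3, 4, 5, 3, 4, 5, 3, 4, 5, 0, 1, 2],
    ![6, 7, 8, 6, 7, 8, 3, 4, 5, 0, 1, 2],
    ![9, 10, 11, 6, 7, 8, 3, 4, 5, 3, 4, 5],
    ![9, 10, 11, 6, 7, 8, 6, 7, 8, 6, 7, 8],
    ![6, 7, 8, 9, 10, 11, 6, 7, 8, 9, 10, 11],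
    ![9, 10, 11, 9, 10, 11, 9, 10, 11, 9, 10, 11]]

def sep : Fin 8 → Fin 8 → Z3 :=
  ![![(0, 0, 0), (1597, 3404, -2264), (-3296, 859, -2768), (-4058, 538, -1581), (-2803, -3376, 0), (-3250, -2489, -1581), (-859, -3296, 2768), (-3512, -1264, -2309)],
    ![(-1597, -3404, 2264), (0, 0, 0), (-1264, 3512, 2309), (-2905, -1750, 2786), (-3250, -2489, 1581), (405, -4370, 0), (-538, -4058, 1581), (1750, -2905, -2786)],
    ![(3296, -859, 2768), (1264, -3512, -2309), (0, 0, 0), (-3404, 1597, -2264), (-859, -3296, -2768), (-538, -4058, -1581), (3376, -2803, 0), (2489, -3250, -1581)],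
    ![(4058, -538, 1581), (2905, 1750, -2786), (3404, -1597, 2264), (0, 0, 0), (-3512, -1264, 2309), (1750, -2905, 2786), (2489, -3250, 1581), (4370, 405, 0)],
    ![(2803, 3376, 0), (3250, 2489, -1581), (859, 3296, 2768), (3512, 1264, -2309), (0, 0, 0), (-1597, -3404, -2264), (3296, -859, -2768), (4058, -538, -1581)],
    ![(3250, 2489, 1581), (-405, 4370, 0), (538, 4058, 1581), (-1750, 2905, -2786), (1597, 3404, 2264), (0, 0, 0), (1264, -3512, 2309), (2905, 1750, 2786)],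
    ![(859, 3296, -2768), (538, 4058, -1581), (-3376, 2803, 0), (-2489, 3250, -1581), (-3296, 859, 2768), (-1264, 3512, -2309), (0, 0, 0), (3404, -1597, -2264)],
    ![(3512, 1264, 2309), (-1750, 2905, 2786), (-2489, 3250, 1581), (-4370, -405, 0), (-4058, 538, 1581), (-2905, -1750, -2786), (-3404, 1597, 2264), (0, 0, 0)]]

def add2 (a m : Z3) : Z3 := (a.1 + 2 * m.1, a.2.1 + 2 * m.2.1, a.2.2 + 2 * m.2.2)

theorem chkSep : ∀ i j : Fin 8, i ≠ j → 0 < dot (sep i j) (sep i j) ∧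
    dot (sep i j) (sep i j) ≤ 19263321 ∧
    ∀ k l : Fin 12, dot (sep i j) (A i k) + 38526642 ≤ dot (sep i j) (A j l) := by
  decide +kernel

theorem chkNb : ∀ (i : Fin 8) (k : Fin 12), nb i k ≠ i ∧ A (nb i k) (ix i k) = add2 (A i k) (Mv i k) ∧
    dot (A i k) (A i k) + 1 ≤ 2000000000000 ∧ dot (Mv i k) (Mv i k) = 19263321 := by
  decide +kernel

def LP (a m : Fin 12 → Z3) : Prop :=
  ∀ x00 x01 x02 x10 x11 x12 x20 x21 x22 v0 v1 v2 N : ℝ,
    (∀ k, ((m k).1 : ℝ) * ((a k).1 * x00 + (a k).2.1 * x01 + (a k).2.2 * x02 + v0)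
      + ((m k).2.1 : ℝ) * ((a k).1 * x10 + (a k).2.1 * x11 + (a k).2.2 * x12 + v1)
      + ((m k).2.2 : ℝ) * ((a k).1 * x20 + (a k).2.1 * x21 + (a k).2.2 * x22 + v2)
      ≤ 500000000000 * N) →
    x00 + x00 ≤ N → -N ≤ x00 + x00 →
    x01 + x10 ≤ N → -N ≤ x01 + x10 →
    x02 + x20 ≤ N → -N ≤ x02 + x20 →
    x11 + x11 ≤ N → -N ≤ x11 + x11 →
    x12 + x21 ≤ N → -N ≤ x12 + x21 →
    x22 + x22 ≤ N → -N ≤ x22 + x22 →
    |x00| ≤ 100000000000000 * N ∧ |x01| ≤ 100000000000000 * N ∧ |x02| ≤ 100000000000000 * N ∧ |x10| ≤ 100000000000000 * N ∧ |x11| ≤ 100000000000000 * N ∧ |x12| ≤ 100000000000000 * N ∧ |x20| ≤ 100000000000000 * N ∧ |x21| ≤ 100000000000000 * N ∧ |x22| ≤ 100000000000000 * N ∧ |v0| ≤ 100000000000000 * N ∧ |v1| ≤ 100000000000000 * N ∧ |v2| ≤ 100000000000000 * N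

theorem lp0 : LP (A 0) (Mv 0) := by
  intro x00 x01 x02 x10 x11 x12 x20 x21 x22 v0 v1 v2 N h s00 t00 s01 t01 s02 t02 s11 t11 s12 t12 s22 t22
  have h0 := h 0
  have h1 := h 1
  have h2 := h 2
  have h3 := h 3
  have h4 := h 4
  have h5 := h 5
  have h6 := h 6
  have h7 := h 7
  have h8 := h 8
  have h9 := h 9
  have h10 := h 10
  have h11 := h 11
  simp only [A, Mv, Matrix.cons_val] at h0 h1 h2 h3 h4 h5 h6 h7 h8 h9 h10 h11
  push_cast at h0 h1 h2 h3 h4 h5 h6 h7 h8 h9 h10 h11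
  refine ⟨?_, ?_, ?_, ?_, ?_, ?_, ?_, ?_, ?_, ?_, ?_, ?_⟩ <;> rw [abs_le] <;> constructor <;> linarith

theorem lp1 : LP (A 1) (Mv 1) := by
  intro x00 x01 x02 x10 x11 x12 x20 x21 x22 v0 v1 v2 N h s00 t00 s01 t01 s02 t02 s11 t11 s12 t12 s22 t22
  have h0 := h 0
  have h1 := h 1
  have h2 := h 2
  have h3 := h 3
  have h4 := h 4
  have h5 := h 5
  have h6 := h 6
  have h7 := h 7
  have h8 := h 8
  have h9 := h 9
  have h10 := h 10
  have h11 := h 11
  simp only [A, Mv, Matrix.cons_val] at h0 h1 h2 h3 h4 h5 h6 h7 h8 h9 h10 h11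
  push_cast at h0 h1 h2 h3 h4 h5 h6 h7 h8 h9 h10 h11
  refine ⟨?_, ?_, ?_, ?_, ?_, ?_, ?_, ?_, ?_, ?_, ?_, ?_⟩ <;> rw [abs_le] <;> constructor <;> linarith

theorem lp2 : LP (A 2) (Mv 2) := by
  intro x00 x01 x02 x10 x11 x12 x20 x21 x22 v0 v1 v2 N h s00 t00 s01 t01 s02 t02 s11 t11 s12 t12 s22 t22
  have h0 := h 0
  have h1 := h 1
  have h2 := h 2
  have h3 := h 3
  have h4 := h 4
  have h5 := h 5
  have h6 := h 6
  have h7 := h 7
  have h8 := h 8
  have h9 := h 9
  have h10 := h 10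
  have h11 := h 11
  simp only [A, Mv, Matrix.cons_val] at h0 h1 h2 h3 h4 h5 h6 h7 h8 h9 h10 h11
  push_cast at h0 h1 h2 h3 h4 h5 h6 h7 h8 h9 h10 h11
  refine ⟨?_, ?_, ?_, ?_, ?_, ?_, ?_, ?_, ?_, ?_, ?_, ?_⟩ <;> rw [abs_le] <;> constructor <;> linarith

theorem lp3 : LP (A 3) (Mv 3) := by
  intro x00 x01 x02 x10 x11 x12 x20 x21 x22 v0 v1 v2 N h s00 t00 s01 t01 s02 t02 s11 t11 s12 t12 s22 t22
  have h0 := h 0
  have h1 := h 1
  have h2 := h 2
  have h3 := h 3
  have h4 := h 4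
  have h5 := h 5
  have h6 := h 6
  have h7 := h 7
  have h8 := h 8
  have h9 := h 9
  have h10 := h 10
  have h11 := h 11
  simp only [A, Mv, Matrix.cons_val] at h0 h1 h2 h3 h4 h5 h6 h7 h8 h9 h10 h11
  push_cast at h0 h1 h2 h3 h4 h5 h6 h7 h8 h9 h10 h11
  refine ⟨?_, ?_, ?_, ?_, ?_, ?_, ?_, ?_, ?_, ?_, ?_, ?_⟩ <;> rw [abs_le] <;> constructor <;> linarith

theorem lp4 : LP (A 4) (Mv 4) := by
  intro x00 x01 x02 x10 x11 x12 x20 x21 x22 v0 v1 v2 N h s00 t00 s01 t01 s02 t02 s11 t11 s12 t12 s22 t22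
  have h0 := h 0
  have h1 := h 1
  have h2 := h 2
  have h3 := h 3
  have h4 := h 4
  have h5 := h 5
  have h6 := h 6
  have h7 := h 7
  have h8 := h 8
  have h9 := h 9
  have h10 := h 10
  have h11 := h 11
  simp only [A, Mv, Matrix.cons_val] at h0 h1 h2 h3 h4 h5 h6 h7 h8 h9 h10 h11
  push_cast at h0 h1 h2 h3 h4 h5 h6 h7 h8 h9 h10 h11
  refine ⟨?_, ?_, ?_, ?_, ?_, ?_, ?_, ?_, ?_, ?_, ?_, ?_⟩ <;> rw [abs_le] <;> constructor <;> linarith

theorem lp5 : LP (A 5) (Mv 5) := by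
  intro x00 x01 x02 x10 x11 x12 x20 x21 x22 v0 v1 v2 N h s00 t00 s01 t01 s02 t02 s11 t11 s12 t12 s22 t22
  have h0 := h 0
  have h1 := h 1
  have h2 := h 2
  have h3 := h 3
  have h4 := h 4
  have h5 := h 5
  have h6 := h 6
  have h7 := h 7
  have h8 := h 8
  have h9 := h 9
  have h10 := h 10
  have h11 := h 11
  simp only [A, Mv, Matrix.cons_val] at h0 h1 h2 h3 h4 h5 h6 h7 h8 h9 h10 h11
  push_cast at h0 h1 h2 h3 h4 h5 h6 h7 h8 h9 h10 h11
  refine ⟨?_, ?_, ?_, ?_, ?_, ?_, ?_, ?_, ?_, ?_, ?_, ?_⟩ <;> rw [abs_le] <;> constructor <;> linarith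

theorem lp6 : LP (A 6) (Mv 6) := by
  intro x00 x01 x02 x10 x11 x12 x20 x21 x22 v0 v1 v2 N h s00 t00 s01 t01 s02 t02 s11 t11 s12 t12 s22 t22
  have h0 := h 0
  have h1 := h 1
  have h2 := h 2
  have h3 := h 3
  have h4 := h 4
  have h5 := h 5
  have h6 := h 6
  have h7 := h 7
  have h8 := h 8
  have h9 := h 9
  have h10 := h 10
  have h11 := h 11
  simp only [A, Mv, Matrix.cons_val] at h0 h1 h2 h3 h4 h5 h6 h7 h8 h9 h10 h11
  push_cast at h0 h1 h2 h3 h4 h5 h6 h7 h8 h9 h10 h11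
  refine ⟨?_, ?_, ?_, ?_, ?_, ?_, ?_, ?_, ?_, ?_, ?_, ?_⟩ <;> rw [abs_le] <;> constructor <;> linarith

theorem lp7 : LP (A 7) (Mv 7) := by
  intro x00 x01 x02 x10 x11 x12 x20 x21 x22 v0 v1 v2 N h s00 t00 s01 t01 s02 t02 s11 t11 s12 t12 s22 t22
  have h0 := h 0
  have h1 := h 1
  have h2 := h 2
  have h3 := h 3
  have h4 := h 4
  have h5 := h 5
  have h6 := h 6
  have h7 := h 7
  have h8 := h 8
  have h9 := h 9
  have h10 := h 10
  have h11 := h 11
  simp only [A, Mv, Matrix.cons_val] at h0 h1 h2 h3 h4 h5 h6 h7 h8 h9 h10 h11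
  push_cast at h0 h1 h2 h3 h4 h5 h6 h7 h8 h9 h10 h11
  refine ⟨?_, ?_, ?_, ?_, ?_, ?_, ?_, ?_, ?_, ?_, ?_, ?_⟩ <;> rw [abs_le] <;> constructor <;> linarith

theorem lpAll (i : Fin 8) : LP (A i) (Mv i) := by
  fin_cases i
  exacts [lp0, lp1, lp2, lp3, lp4, lp5, lp6, lp7]

end Pool.Agent.H10.Blk8
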