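import Pool.Agent.H10.Blk4

set_option autoImplicit false
open Set Metric
open scoped RealInnerProductSpace Pointwise

namespace Pool.Agent.H10.Blk8
open Pool.Agent.H10.Blk hiding K K_compact K_convex ball_sub hs_le K_disj far K_stuck rigid path0 sep nb chkSep chkNb chkA

theorem rigid (a0 m0 : Fin 12 → Z3) (hlp : LP a0 m0)
    (chkA : ∀ k, dot (a0 k) (a0 k) + 1 ≤ 2000000000000 ∧ dot (m0 k) (m0 k) = 19263321)
    (h : V → V) (hh : Isometry h)
    (hc : ∀ k, 8778 ≤ dist (h (toV (a0 k))) (toV (add2 (a0 k) (m0 k)))) :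
    NN h ≤ 12 * (100000000000000 * NN h) ^ 2 := by
  have hN : NN h = col h 0 0 ^ 2 + col h 0 1 ^ 2 + col h 0 2 ^ 2
      + (col h 1 0 ^ 2 + col h 1 1 ^ 2 + col h 1 2 ^ 2)
      + (col h 2 0 ^ 2 + col h 2 1 ^ 2 + col h 2 2 ^ 2) + (h 0 0 ^ 2 + h 0 1 ^ 2 + h 0 2 ^ 2) := by
    rw [NN, nsq, nsq, nsq, nsq]
  have hN0 : 0 ≤ NN h := by rw [NN]; positivity
  have ht : ∀ k, ((m0 k).1 : ℝ) * ((a0 k).1 * col h 0 0 + (a0 k).2.1 * col h 1 0 + (a0 k).2.2 * col h 2 0 + h 0 0)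
      + ((m0 k).2.1 : ℝ) * ((a0 k).1 * col h 0 1 + (a0 k).2.1 * col h 1 1 + (a0 k).2.2 * col h 2 1 + h 0 1)
      + ((m0 k).2.2 : ℝ) * ((a0 k).1 * col h 0 2 + (a0 k).2.1 * col h 1 2 + (a0 k).2.2 * col h 2 2 + h 0 2)
      ≤ 500000000000 * NN h := by
    intro k
    have h1 := pow_le_pow_left₀ (by norm_num) (hc k) 2
    rw [dist_eq_norm, nsq, aff h hh] at h1
    simp only [toV, add2, PiLp.sub_apply, PiLp.add_apply, PiLp.smul_apply, smul_eq_mul,
      Matrix.cons_val_zero, Matrix.cons_val_one, Matrix.cons_val_two, Matrix.head_cons,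
      Matrix.tail_cons, Int.cast_add, Int.cast_mul, Int.cast_ofNat] at h1
    obtain ⟨c1, c2⟩ := chkA k
    have c1' : ((a0 k).1 : ℝ) ^ 2 + ((a0 k).2.1 : ℝ) ^ 2 + ((a0 k).2.2 : ℝ) ^ 2 + 1 ≤ 2000000000000 := by
      have : ((dot (a0 k) (a0 k) + 1 : ℤ) : ℝ) ≤ ((2000000000000 : ℤ) : ℝ) := by exact_mod_cast c1
      simp only [dot] at this
      push_cast at this
      nlinarith
    have c2' : ((m0 k).1 : ℝ) ^ 2 + ((m0 k).2.1 : ℝ) ^ 2 + ((m0 k).2.2 : ℝ) ^ 2 = 19263321 := by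
      have : ((dot (m0 k) (m0 k) : ℤ) : ℝ) = ((19263321 : ℤ) : ℝ) := by exact_mod_cast c2
      simp only [dot] at this
      push_cast at this
      nlinarith
    have q0 := cs4 (a0 k).1 (a0 k).2.1 (a0 k).2.2 (col h 0 0) (col h 1 0) (col h 2 0) (h 0 0)
    have q1 := cs4 (a0 k).1 (a0 k).2.1 (a0 k).2.2 (col h 0 1) (col h 1 1) (col h 2 1) (h 0 1)
    have q2 := cs4 (a0 k).1 (a0 k).2.1 (a0 k).2.2 (col h 0 2) (col h 1 2) (col h 2 2) (h 0 2)
    have q3 := mul_le_mul_of_nonneg_right c1' hN0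
    set u0 := (a0 k).1 * col h 0 0 + (a0 k).2.1 * col h 1 0 + (a0 k).2.2 * col h 2 0 + h 0 0
    set u1 := (a0 k).1 * col h 0 1 + (a0 k).2.1 * col h 1 1 + (a0 k).2.2 * col h 2 1 + h 0 1
    set u2 := (a0 k).1 * col h 0 2 + (a0 k).2.1 * col h 1 2 + (a0 k).2.2 * col h 2 2 + h 0 2
    have q4 : u0 ^ 2 + u1 ^ 2 + u2 ^ 2 ≤ 2000000000000 * NN h := by
      refine le_trans ?_ q3
      rw [hN]
      linarith
    nlinarith
  have hs : ∀ i j, col h j i + col h i j ≤ NN h ∧ -NN h ≤ col h j i + col h i j := by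
    intro i j
    rw [orth h hh]
    have b : ∀ i, ‖col h i‖ ^ 2 ≤ NN h := by
      intro i
      rw [NN]
      have := sq_nonneg ‖col h 0‖
      have := sq_nonneg ‖col h 1‖
      have := sq_nonneg ‖col h 2‖
      have := sq_nonneg ‖h 0‖
      fin_cases i <;> simp <;> linarith
    have c := abs_le.1 (abs_real_inner_le_norm (col h i) (col h j))
    have d := b i
    have f := b j
    constructor <;> nlinarith [sq_nonneg (‖col h i‖ - ‖col h j‖), c.1, c.2]
  have key := hlp (col h 0 0) (col h 1 0) (col h 2 0) (col h 0 1) (col h 1 1) (col h 2 1)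
    (col h 0 2) (col h 1 2) (col h 2 2) (h 0 0) (h 0 1) (h 0 2) (NN h) ht
    (hs 0 0).1 (hs 0 0).2 (hs 0 1).1 (hs 0 1).2 (hs 0 2).1 (hs 0 2).2
    (hs 1 1).1 (hs 1 1).2 (hs 1 2).1 (hs 1 2).2 (hs 2 2).1 (hs 2 2).2
  obtain ⟨k1, k2, k3, k4, k5, k6, k7, k8, k9, k10, k11, k12⟩ := key
  have sq : ∀ x : ℝ, |x| ≤ 100000000000000 * NN h → x ^ 2 ≤ (100000000000000 * NN h) ^ 2 := by
    intro x hx
    rw [← sq_abs]
    exact pow_le_pow_left₀ (abs_nonneg x) hx 2
  conv_lhs => rw [hN]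
  linarith [sq _ k1, sq _ k2, sq _ k3, sq _ k4, sq _ k5, sq _ k6, sq _ k7, sq _ k8, sq _ k9,
    sq _ k10, sq _ k11, sq _ k12]

theorem path0 (a0 m0 : Fin 12 → Z3) (hlp : LP a0 m0)
    (chkA : ∀ k, dot (a0 k) (a0 k) + 1 ≤ 2000000000000 ∧ dot (m0 k) (m0 k) = 19263321)
    (γ : unitInterval → V → V) (hc : Continuous (fun p : unitInterval × V => γ p.1 p.2))
    (h0 : γ 0 = id) (hi : ∀ t, Isometry (γ t))
    (hk : ∀ t, ∀ k, 8778 ≤ dist (γ t (toV (a0 k))) (toV (add2 (a0 k) (m0 k))))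
    (s : unitInterval) (x : V) : γ s x = x := by
  have hp : ∀ y : V, Continuous fun t : unitInterval => γ t y := fun y =>
    hc.comp (continuous_id.prodMk continuous_const)
  have hf : Continuous fun t : unitInterval => NN (γ t) := by
    unfold NN col
    have := hp 0
    have := hp (e 0)
    have := hp (e 1)
    have := hp (e 2)
    fun_prop
  have f0 : NN (γ 0) = 0 := by simp [NN, col, h0]
  have hN0 : 0 ≤ NN (γ s) := by rw [NN]; positivity
  have f1 : NN (γ s) = 0 := by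
    by_contra hne
    have hpos : 0 < NN (γ s) := lt_of_le_of_ne hN0 (Ne.symm hne)
    set δ : ℝ := min (NN (γ s)) (1 / 10 ^ 30) with hδ
    have hδ0 : 0 < δ := lt_min hpos (by positivity)
    have hmem : δ ∈ Icc (NN (γ 0)) (NN (γ s)) := ⟨by rw [f0]; exact hδ0.le, min_le_left _ _⟩
    obtain ⟨t, e1⟩ := intermediate_value_univ 0 s hf hmem
    have h1 := rigid a0 m0 hlp chkA (γ t) (hi t) (hk t)
    simp only at e1
    rw [e1] at h1
    have h2 : δ ≤ 1 / 10 ^ 30 := min_le_right _ _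
    nlinarith
  rw [NN] at f1
  have a := sq_nonneg ‖col (γ s) 0‖
  have b := sq_nonneg ‖col (γ s) 1‖
  have c := sq_nonneg ‖col (γ s) 2‖
  have d := sq_nonneg ‖γ s 0‖
  have z : ∀ y : V, ‖y‖ ^ 2 = 0 → y = 0 := fun y hy => by simpa using hy
  rw [aff (γ s) (hi s) x, z (col (γ s) 0) (by linarith),
    z (col (γ s) 1) (by linarith), z (col (γ s) 2) (by linarith), z (γ s 0) (by linarith)]
  simp

noncomputable def K (i : Fin 8) : Set V :=
  convexHull ℝ (range fun k => toV (A i k)) + closedBall 0 4389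

theorem K_compact (i : Fin 8) : IsCompact (K i) :=
  ((finite_range _).isCompact_convexHull ℝ).add (isCompact_closedBall 0 4389)

theorem K_convex (i : Fin 8) : Convex ℝ (K i) :=
  (convex_convexHull ℝ _).add (convex_closedBall 0 4389)

theorem ball_sub (i : Fin 8) (k : Fin 12) : ball (toV (A i k)) 4389 ⊆ K i := by
  intro x hx
  refine ⟨toV (A i k), subset_convexHull ℝ _ ⟨k, rfl⟩, x - toV (A i k), ?_, by simp⟩
  rw [mem_closedBall_zero_iff, ← dist_eq_norm]
  exact (mem_ball.1 hx).le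

theorem hs_le (m : V) (hm : ‖m‖ ≤ 4389) (c : ℝ) (s : Set V) (hs : ∀ y ∈ s, ⟪m, y⟫ ≤ c) :
    ∀ x ∈ convexHull ℝ s + closedBall (0:V) 4389, ⟪m, x⟫ ≤ c + 19263321 := by
  rintro x ⟨y, hy, z, hz, rfl⟩
  rw [mem_closedBall_zero_iff] at hz
  have hc : Convex ℝ {y : V | ⟪m, y⟫ ≤ c} :=
    convex_halfSpace_le (innerSL ℝ m).toLinearMap.isLinear c
  have h1 : ⟪m, y⟫ ≤ c := convexHull_min hs hc hy
  have h2 := real_inner_le_norm m z
  have h3 : ‖m‖ * ‖z‖ ≤ 4389 * 4389 := mul_le_mul hm hz (norm_nonneg _) (by norm_num)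
  simp only
  rw [inner_add_right]
  linarith

theorem K_disj (i j : Fin 8) (hij : i ≠ j) : Disjoint (interior (K i)) (interior (K j)) := by
  obtain ⟨h0, h1, h2⟩ := chkSep i j hij
  set m := toV (sep i j) with hm
  have n2 : ‖m‖ ^ 2 = (dot (sep i j) (sep i j) : ℝ) := by
    rw [← real_inner_self_eq_norm_sq, inner_toV]
  have n0 : 0 < ‖m‖ ^ 2 := by rw [n2]; exact_mod_cast h0
  have n1 : ‖m‖ ≤ 4389 := by
    have : ‖m‖ ^ 2 ≤ 4389 ^ 2 := by rw [n2]; exact_mod_cast h1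
    exact le_of_sq_le_sq this (by norm_num) |> fun h => h
  obtain ⟨k0, -, hk0⟩ := Finset.exists_max_image Finset.univ
    (fun k => dot (sep i j) (A i k)) Finset.univ_nonempty
  set c : ℝ := (dot (sep i j) (A i k0) : ℝ) with hc
  have a1 := hs_le m n1 c (range fun k => toV (A i k)) (by
    rintro _ ⟨k, rfl⟩
    rw [inner_toV, hc]
    exact_mod_cast hk0 k (Finset.mem_univ k))
  have a2 := hs_le (-m) (by rw [norm_neg]; exact n1) (-(c + 38526642))
    (range fun k => toV (A j k)) (by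
    rintro _ ⟨l, rfl⟩
    rw [inner_neg_left, inner_toV, hc, neg_le_neg_iff]
    exact_mod_cast h2 k0 l)
  rw [Set.disjoint_left]
  intro x hx hx'
  obtain ⟨ε, hε, hb⟩ := Metric.isOpen_iff.1 isOpen_interior x hx
  have hmem : x + (ε / 8778) • m ∈ K i := by
    apply interior_subset
    apply hb
    rw [mem_ball, dist_eq_norm, add_sub_cancel_left, norm_smul, Real.norm_eq_abs,
      abs_of_pos (by positivity)]
    nlinarith
  have b1 := a1 _ hmem
  have b2 := a2 x (interior_subset hx')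
  rw [inner_add_right, real_inner_smul_right, real_inner_self_eq_norm_sq] at b1
  rw [inner_neg_left] at b2
  have : 0 < ε / 8778 * ‖m‖ ^ 2 := by positivity
  linarith

theorem far (h : V → V) (hh : Isometry h) (i j : Fin 8) (k l : Fin 12)
    (hd : Disjoint (interior (h '' K i)) (interior (K j))) :
    8778 ≤ dist (h (toV (A i k))) (toV (A j l)) := by
  by_contra hlt
  rw [not_le] at hlt
  obtain ⟨Q, hQ⟩ := iso_lin h hh
  have hsurj : Function.Surjective h := fun y => ⟨Q.symm (y - h 0), by rw [hQ]; simp⟩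
  have b1 : ball (h (toV (A i k))) 4389 ⊆ interior (h '' K i) := by
    refine interior_maximal (fun y hy => ?_) isOpen_ball
    obtain ⟨x, rfl⟩ := hsurj y
    refine ⟨x, ball_sub i k ?_, rfl⟩
    rw [mem_ball, hh.dist_eq] at hy
    exact hy
  have b2 : ball (toV (A j l)) 4389 ⊆ interior (K j) :=
    interior_maximal (ball_sub j l) isOpen_ball
  refine Set.disjoint_left.1 hd (b1 (a := midpoint ℝ (h (toV (A i k))) (toV (A j l))) ?_)
    (b2 ?_)
  · rw [mem_ball, dist_midpoint_left]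
    norm_num
    linarith
  · rw [mem_ball, dist_midpoint_right]
    norm_num
    linarith

theorem K_stuck (i : Fin 8) (γ : unitInterval → V → V) (hi : ∀ t, Isometry (γ t))
    (hc : Continuous (fun p : unitInterval × V => γ p.1 p.2)) (h0 : γ 0 = id)
    (hd : ∀ t, ∀ j, j ≠ i → Disjoint (interior (γ t '' K i)) (interior (K j))) (s : unitInterval) :
    γ s '' K i = K i := by
  have h := path0 (A i) (Mv i) (lpAll i) (fun k => (chkNb i k).2.2) γ hc h0 hi
    (fun t k => by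
      obtain ⟨c1, c2, -⟩ := chkNb i k
      have := far (γ t) (hi t) i (nb i k) k (ix i k) (hd t _ c1)
      rwa [c2] at this) s
  have : γ s = id := funext h
  rw [this, image_id]

end Pool.Agent.H10.Blk8
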