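import Mathlib

set_option autoImplicit false

namespace Pool.Agent.H10.Chordal

open SimpleGraph

theorem cyc_adj (m : ℕ) (u v : Fin (m + 2)) : (cycleGraph (m + 2)).Adj u v ↔
    (u.1 + 1 = v.1 ∨ v.1 + 1 = u.1 ∨ (u.1 = 0 ∧ v.1 = m + 1) ∨ (v.1 = 0 ∧ u.1 = m + 1)) := by
  have key : ∀ a b : Fin (m + 2), (a - b).1 = 1 ↔ (b.1 + 1 = a.1 ∨ (a.1 = 0 ∧ b.1 = m + 1)) := by
    intro a b
    have ha := a.2
    have hb := b.2
    rw [Fin.sub_def]
    show (m + 2 - b.1 + a.1) % (m + 2) = 1 ↔ _
    rcases Nat.lt_or_ge (m + 2 - b.1 + a.1) (m + 2) with h | h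
    · rw [Nat.mod_eq_of_lt h]; omega
    · rw [Nat.mod_eq_sub_mod h, Nat.mod_eq_of_lt (by omega)]; omega
  rw [cycleGraph_adj', key, key]
  tauto

def Ch {V : Type} (G : SimpleGraph V) (x a b : V) (l : ℕ) : Prop :=
  ∃ s : ℕ → V, s 0 = a ∧ s l = b ∧ (∀ i, i < l → G.Adj (s i) (s (i + 1))) ∧
    ∀ i, 0 < i → i < l → s i ≠ x ∧ ¬ G.Adj x (s i)

theorem key {V : Type} (G : SimpleGraph V)
    (hG : ∀ n, 4 ≤ n → IsEmpty (cycleGraph n ↪g G)) (x a b : V) (ha : G.Adj x a)
    (hb : G.Adj x b) (hab : a ≠ b) (hex : ∃ l, Ch G x a b l) : G.Adj a b := by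
  classical
  by_contra hn
  obtain ⟨s, h0, hl, hadj, hint⟩ := Nat.find_spec hex
  set l := Nat.find hex with hldef
  have hmin : ∀ k, k < l → ¬ Ch G x a b k := fun k hk => Nat.find_min hex hk
  have hl2 : 2 ≤ l := by
    by_contra h
    have : l = 0 ∨ l = 1 := by omega
    rcases this with h | h
    · rw [h] at hl; exact hab (h0.symm.trans hl)
    · have := hadj 0 (by omega)
      rw [h] at hl
      rw [h0, Nat.zero_add, hl] at this
      exact hn this
  have short : ∀ i j, i + 2 ≤ j → j ≤ l → ¬ G.Adj (s i) (s j) := by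
    intro i j hij hj h
    refine hmin (l - (j - i - 1)) (by omega)
      ⟨fun k => if k ≤ i then s k else s (k + (j - i - 1)), by simp [h0], ?_, ?_, ?_⟩
    · have h1 : ¬ (l - (j - i - 1) ≤ i) := by omega
      have h2 : l - (j - i - 1) + (j - i - 1) = l := by omega
      simp only [h1, if_false, h2, hl]
    · intro k hk
      by_cases h1 : k + 1 ≤ i
      · have h2 : k ≤ i := by omega
        simp only [h1, h2, if_true]
        exact hadj k (by omega)
      · by_cases h2 : k ≤ i
        · have h3 : k = i := by omega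
          have h4 : k + 1 + (j - i - 1) = j := by omega
          simp only [h1, h2, if_true, if_false, h4]
          rw [h3]; exact h
        · have h4 : k + 1 + (j - i - 1) = k + (j - i - 1) + 1 := by omega
          simp only [h1, h2, if_false, h4]
          exact hadj _ (by omega)
    · intro k hk0 hk
      by_cases h2 : k ≤ i
      · simp only [h2, if_true]
        exact hint k hk0 (by omega)
      · simp only [h2, if_false]
        exact hint _ (by omega) (by omega)
  have inj : ∀ i j, i < j → j ≤ l → s i ≠ s j := by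
    intro i j hij hj h
    rcases Nat.lt_or_ge j l with h1 | h1
    · exact short i (j + 1) (by omega) (by omega) (h ▸ hadj j h1)
    · have h2 : j = l := by omega
      rw [h2, hl] at h
      rcases Nat.eq_zero_or_pos i with h3 | h3
      · rw [h3, h0] at h; exact hab h
      · exact (hint i h3 (by omega)).2 (h ▸ hb)
  have nex : ∀ i, i ≤ l → s i ≠ x := by
    intro i hi h
    rcases Nat.eq_zero_or_pos i with h3 | h3
    · rw [h3, h0] at h; exact ha.ne h.symm
    · rcases Nat.lt_or_ge i l with h1 | h1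
      · exact (hint i h3 h1).1 h
      · have h2 : i = l := by omega
        rw [h2, hl] at h; exact hb.ne h.symm
  have adjx : ∀ i, i ≤ l → (G.Adj x (s i) ↔ (i = 0 ∨ i = l)) := by
    intro i hi
    constructor
    · intro h
      by_contra h'
      exact (hint i (by omega) (by omega)).2 h
    · rintro (h | h)
      · rw [h, h0]; exact ha
      · rw [h, hl]; exact hb
  have adjs : ∀ i j, i ≤ l → j ≤ l → (G.Adj (s i) (s j) ↔ (i + 1 = j ∨ j + 1 = i)) := by
    intro i j hi hj
    constructor
    · intro h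
      by_contra h'
      rcases lt_trichotomy i j with h1 | h1 | h1
      · exact short i j (by omega) hj h
      · rw [h1] at h; exact G.irrefl h
      · exact short j i (by omega) hi h.symm
    · rintro (h | h)
      · rw [← h]; exact hadj i (by omega)
      · rw [← h]; exact (hadj j (by omega)).symm
  refine (hG (l + 2) (by omega)).false
    ⟨⟨fun i => if i.1 ≤ l then s i.1 else x, ?_⟩, ?_⟩
  · intro i j h
    have hi := i.2
    have hj := j.2
    by_cases h1 : i.1 ≤ l <;> by_cases h2 : j.1 ≤ l <;> simp only [h1, h2, if_true, if_false] at h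
    · rcases lt_trichotomy i.1 j.1 with h3 | h3 | h3
      · exact absurd h (inj _ _ h3 h2)
      · exact Fin.ext h3
      · exact absurd h.symm (inj _ _ h3 h1)
    · exact absurd h (nex _ h1)
    · exact absurd h.symm (nex _ h2)
    · exact Fin.ext (by omega)
  · intro i j
    have hi := i.2
    have hj := j.2
    rw [cyc_adj]
    show G.Adj (if i.1 ≤ l then s i.1 else x) (if j.1 ≤ l then s j.1 else x) ↔ _
    by_cases h1 : i.1 ≤ l <;> by_cases h2 : j.1 ≤ l <;> simp only [h1, h2, if_true, if_false]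
    · rw [adjs _ _ h1 h2]; omega
    · rw [G.adj_comm, adjx _ h1]; omega
    · rw [adjx _ h2]; omega
    · constructor
      · intro h; exact absurd h G.irrefl
      · intro h; omega

theorem chain {V : Type} (G : SimpleGraph V) (P : V → Prop) (p q : V) (hp : P p)
    (h : Relation.ReflTransGen (fun u v => G.Adj u v ∧ P v) p q) :
    ∃ (l : ℕ) (s : ℕ → V), s 0 = p ∧ s l = q ∧ (∀ i, i < l → G.Adj (s i) (s (i + 1))) ∧
      ∀ i, i ≤ l → P (s i) := by
  induction h with
  | refl => exact ⟨0, fun _ => p, rfl, rfl, fun i hi => absurd hi (by omega), fun _ _ => hp⟩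
  | @tail b c _ hbc ih =>
    obtain ⟨l, s, h0, hl, hadj, hP⟩ := ih
    refine ⟨l + 1, fun i => if i ≤ l then s i else c, by simp [h0], by simp, ?_, ?_⟩
    · intro i hi
      by_cases h1 : i + 1 ≤ l
      · have h2 : i ≤ l := by omega
        simp only [h1, h2, if_true]
        exact hadj i (by omega)
      · have h2 : i = l := by omega
        subst h2
        simp only [h1, le_refl, if_true, if_false, hl]
        exact hbc.1
    · intro i hi
      by_cases h1 : i ≤ l
      · simp only [h1, if_true]; exact hP i h1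
      · simp only [h1, if_false]; exact hbc.2

theorem rev {V : Type} (G : SimpleGraph V) (P : V → Prop) (p q : V) (hp : P p)
    (h : Relation.ReflTransGen (fun u v => G.Adj u v ∧ P v) p q) :
    P q ∧ Relation.ReflTransGen (fun u v => G.Adj u v ∧ P v) q p := by
  induction h with
  | refl => exact ⟨hp, .refl⟩
  | @tail b c _ hbc ih => exact ⟨hbc.2, Relation.ReflTransGen.head ⟨hbc.1.symm, ih.1⟩ ih.2⟩

theorem key2 {V : Type} (G : SimpleGraph V)
    (hG : ∀ n, 4 ≤ n → IsEmpty (cycleGraph n ↪g G)) (x a b p q : V) (P : V → Prop)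
    (hP : ∀ z, P z → z ≠ x ∧ ¬ G.Adj x z) (ha : G.Adj x a)
    (hb : G.Adj x b) (hab : a ≠ b) (hp : P p) (hap : G.Adj a p) (hbq : G.Adj q b)
    (h : Relation.ReflTransGen (fun u v => G.Adj u v ∧ P v) p q) : G.Adj a b := by
  obtain ⟨l, s, h0, hl, hadj, hs⟩ := chain G P p q hp h
  refine key G hG x a b ha hb hab ⟨l + 2,
    fun i => if i = 0 then a else if i ≤ l + 1 then s (i - 1) else b, by simp, by simp, ?_, ?_⟩
  · intro i hi
    rcases Nat.eq_zero_or_pos i with h1 | h1
    · subst h1
      simp [h0, hap]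
    · have h2 : i ≠ 0 := by omega
      have h3 : i ≤ l + 1 := by omega
      by_cases h4 : i + 1 ≤ l + 1
      · simp only [h2, h3, h4, if_true, if_false, Nat.add_one_ne_zero, Nat.add_sub_cancel]
        have := hadj (i - 1) (by omega)
        rwa [show i - 1 + 1 = i by omega] at this
      · simp only [h2, h3, h4, if_true, if_false, Nat.add_one_ne_zero]
        rw [show i - 1 = l by omega, hl]
        exact hbq
  · intro i h1 hi
    have h2 : i ≠ 0 := by omega
    have h3 : i ≤ l + 1 := by omega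
    simp only [h2, h3, if_true, if_false]
    exact hP _ (hs _ (by omega))

/-- `v` is simplicial inside the vertex set `U`. -/
def Simp {V : Type} (G : SimpleGraph V) (U : Finset V) (v : V) : Prop :=
  ∀ a ∈ U, ∀ b ∈ U, G.Adj v a → G.Adj v b → a ≠ b → G.Adj a b

theorem simp_aux {V : Type} (G : SimpleGraph V)
    (hG : ∀ n, 4 ≤ n → IsEmpty (cycleGraph n ↪g G)) :
    ∀ (n : ℕ) (U K : Finset V), U.card = n → K ⊆ U → (∃ y ∈ U, y ∉ K) →
      (∀ a ∈ K, ∀ b ∈ K, a ≠ b → G.Adj a b) → ∃ v ∈ U, v ∉ K ∧ Simp G U v := by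
  classical
  intro n
  induction n using Nat.strong_induction_on with
  | _ n ih =>
  have main : ∀ (U K : Finset V), U.card = n → K ⊆ U → (∃ y ∈ U, y ∉ K) →
      (∀ a ∈ K, ∀ b ∈ K, a ≠ b → G.Adj a b) → K.Nonempty → ∃ v ∈ U, v ∉ K ∧ Simp G U v := by
    intro U K hU hKU hy hK hne
    obtain ⟨x, hx⟩ := hne
    by_cases hA : ∃ y ∈ U, y ≠ x ∧ ¬ G.Adj x y
    · obtain ⟨y, hyU, hyx, hxy⟩ := hA
      let P : V → Prop := fun z => z ∈ U ∧ z ≠ x ∧ ¬ G.Adj x z
      let R : V → V → Prop := Relation.ReflTransGen (fun u v => G.Adj u v ∧ P v)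
      let C : Finset V := U.filter (fun z => R y z)
      let S : Finset V := U.filter (fun z => ¬ R y z ∧ ∃ c, R y c ∧ G.Adj c z)
      have hPy : P y := ⟨hyU, hyx, hxy⟩
      have hRP : ∀ z, R y z → P z := fun z hz => (rev G P y z hPy hz).1
      have hSx : ∀ z ∈ S, G.Adj x z := by
        intro z hz
        obtain ⟨hzU, hz1, c, hc, hcz⟩ := Finset.mem_filter.1 hz
        by_contra h
        refine hz1 (hc.tail ⟨hcz, hzU, ?_, h⟩)
        rintro rfl
        exact (hRP c hc).2.2 hcz.symm
      have hxn : x ∉ C ∪ S := by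
        intro h
        rcases Finset.mem_union.1 h with h | h
        · exact (hRP x (Finset.mem_filter.1 h).2).2.1 rfl
        · exact G.irrefl (hSx x h)
      have hsub : C ∪ S ⊆ U :=
        Finset.union_subset (Finset.filter_subset _ _) (Finset.filter_subset _ _)
      have hlt : (C ∪ S).card < n := by
        rw [← hU]
        exact Finset.card_lt_card ⟨hsub, fun h => hxn (h (hKU hx))⟩
      obtain ⟨v, hv, hvS, hsimp⟩ := ih _ hlt (C ∪ S) S rfl Finset.subset_union_right
        ⟨y, Finset.mem_union_left _ (Finset.mem_filter.2 ⟨hyU, .refl⟩),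
          fun h => (Finset.mem_filter.1 h).2.1 .refl⟩ (by
          intro a ha b hb hab
          obtain ⟨_, _, c, hc, hca⟩ := Finset.mem_filter.1 ha
          obtain ⟨_, _, d, hd, hdb⟩ := Finset.mem_filter.1 hb
          exact key2 G hG x a b c d P (fun z hz => hz.2) (hSx a ha) (hSx b hb) hab (hRP c hc)
            hca.symm hdb ((rev G P y c hPy hc).2.trans hd))
      have hvR : R y v := by
        rcases Finset.mem_union.1 hv with h | h
        · exact (Finset.mem_filter.1 h).2
        · exact absurd h hvS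
      have hnb : ∀ a ∈ U, G.Adj v a → a ∈ C ∪ S := by
        intro a ha hva
        by_cases h : R y a
        · exact Finset.mem_union_left _ (Finset.mem_filter.2 ⟨ha, h⟩)
        · exact Finset.mem_union_right _ (Finset.mem_filter.2 ⟨ha, h, v, hvR, hva⟩)
      refine ⟨v, hsub hv, fun hvK => ?_, ?_⟩
      · have := hRP v hvR
        exact this.2.2 (hK x hx v hvK this.2.1.symm)
      · intro a ha b hb hva hvb hab
        exact hsimp a (hnb a ha hva) b (hnb b hb hvb) hva hvb hab
    · have huniv : ∀ y ∈ U, y ≠ x → G.Adj x y := by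
        intro y hy hyx
        by_contra h
        exact hA ⟨y, hy, hyx, h⟩
      obtain ⟨y, hyU, hyK⟩ := hy
      have hlt : (U.erase x).card < n := by
        rw [← hU]; exact Finset.card_erase_lt_of_mem (hKU hx)
      obtain ⟨v, hv, hvK, hsimp⟩ := ih _ hlt (U.erase x) (K.erase x) rfl
        (Finset.erase_subset_erase _ hKU)
        ⟨y, Finset.mem_erase.2 ⟨fun h => hyK (h ▸ hx), hyU⟩,
          fun h => hyK (Finset.mem_of_mem_erase h)⟩
        (fun a ha b hb => hK a (Finset.mem_of_mem_erase ha) b (Finset.mem_of_mem_erase hb))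
      obtain ⟨hvx, hvU⟩ := Finset.mem_erase.1 hv
      refine ⟨v, hvU, fun h => hvK (Finset.mem_erase.2 ⟨hvx, h⟩), ?_⟩
      intro a ha b hb hva hvb hab
      by_cases h1 : a = x
      · subst h1; exact huniv b hb hab.symm
      · by_cases h2 : b = x
        · subst h2; exact (huniv a ha hab).symm
        · exact hsimp a (Finset.mem_erase.2 ⟨h1, ha⟩) b (Finset.mem_erase.2 ⟨h2, hb⟩) hva hvb hab
  intro U K hU hKU hy hK
  rcases K.eq_empty_or_nonempty with rfl | hne
  · obtain ⟨y, hyU, _⟩ := hy
    by_cases h : ∃ z ∈ U, z ∉ ({y} : Finset V)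
    · obtain ⟨v, hv, _, hs⟩ := main U {y} hU (by simpa using hyU) h (by simp) (by simp)
      exact ⟨v, hv, by simp, hs⟩
    · refine ⟨y, hyU, by simp, ?_⟩
      intro a ha b _ hya _ _
      exact absurd ⟨a, ha, by simpa using hya.ne.symm⟩ h
  · exact main U K hU hKU hy hK hne

/-- Dirac: every nonempty finite vertex set of a chordal graph has a simplicial vertex. -/
theorem exists_simp {V : Type} (G : SimpleGraph V)
    (hG : ∀ n, 4 ≤ n → IsEmpty (cycleGraph n ↪g G)) (U : Finset V) (hU : U.Nonempty) :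
    ∃ v ∈ U, Simp G U v := by
  obtain ⟨y, hy⟩ := hU
  obtain ⟨v, hv, _, hs⟩ := simp_aux G hG _ U ∅ rfl (by simp) ⟨y, hy, by simp⟩ (by simp)
  exact ⟨v, hv, hs⟩

end Pool.Agent.H10.Chordal
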