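import Mathlib

set_option autoImplicit false

namespace Pool.Agent.H10.Col

open Set

universe u v
variable {V : Type u}

def bk (H : SimpleGraph V) (A B : Set V) (r : V → V → Prop) (x : V) : Set V :=
  {y | H.Adj x y ∧ (y ∈ A ∨ (y ∈ B ∧ r y x))}

def Wit (H : SimpleGraph V) (b : ℕ) (A B : Set V) (r : V → V → Prop) : Prop :=
  IsWellOrder V r ∧ ∀ x ∈ B, x ∉ A → (bk H A B r x).encard ≤ b

def Free (H : SimpleGraph V) (b : ℕ) (A B : Set V) : Prop := ∃ r, Wit H b A B r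

def Ex (G : SimpleGraph V) (b : ℕ) (A B : Set V) : Prop :=
  ∃ H ≤ G, Free H (b + 1) A B ∧ ¬ Free H b A B

lemma Free.tr {H H' : SimpleGraph V} {b : ℕ} {A B A' B' : Set V} (h : Free H b A B)
    (h1 : ∀ x ∈ B', x ∉ A' → x ∈ B ∧ x ∉ A)
    (h2 : ∀ x ∈ B', x ∉ A' → ∀ y, H'.Adj x y → (y ∈ A' ∨ y ∈ B') → H.Adj x y)
    (h3 : ∀ x ∈ B', x ∉ A' → ∀ y, H'.Adj x y → y ∈ A' → y ∈ A) : Free H' b A' B' := by
  obtain ⟨r, hr, hw⟩ := h
  refine ⟨r, hr, fun x hx hxA => le_trans (encard_le_encard ?_) (hw x (h1 x hx hxA).1 (h1 x hx hxA).2)⟩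
  rintro y ⟨hy, hy'⟩
  by_cases hA : y ∈ A'
  · exact ⟨h2 x hx hxA y hy (Or.inl hA), Or.inl (h3 x hx hxA y hy hA)⟩
  · obtain ⟨hB, hr⟩ := hy'.resolve_left hA
    exact ⟨h2 x hx hxA y hy (Or.inr hB), Or.inr ⟨(h1 y hB hA).1, hr⟩⟩

lemma Free.sub {H : SimpleGraph V} {b : ℕ} {A B A' B' : Set V} (h : Free H b A B)
    (h1 : ∀ x ∈ B', x ∉ A' → x ∈ B ∧ x ∉ A) (h3 : A' ⊆ A) : Free H b A' B' :=
  h.tr h1 (fun _ _ _ _ h _ => h) (fun _ _ _ _ _ h => h3 h)

lemma Free.anti {H H' : SimpleGraph V} {b : ℕ} {A B : Set V} (h : Free H b A B) (hl : H' ≤ H) :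
    Free H' b A B :=
  h.tr (fun _ h1 h2 => ⟨h1, h2⟩) (fun _ _ _ _ h _ => hl h) (fun _ _ _ _ _ h => h)

lemma Free.mono {H : SimpleGraph V} {b c : ℕ} {A B : Set V} (h : Free H b A B) (hl : b ≤ c) :
    Free H c A B := by
  obtain ⟨r, hr, hw⟩ := h
  exact ⟨r, hr, fun x hx hxA => (hw x hx hxA).trans (by exact_mod_cast hl)⟩

lemma free_of_sub (H : SimpleGraph V) (b : ℕ) {A B : Set V} (h : B ⊆ A) : Free H b A B :=
  ⟨WellOrderingRel, inferInstance, fun _ hx hxA => absurd (h hx) hxA⟩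

lemma free_bot (b : ℕ) (A B : Set V) : Free ⊥ b A B :=
  ⟨WellOrderingRel, inferInstance, fun x _ _ => by
    have : bk ⊥ A B WellOrderingRel x = ∅ := by ext y; simp [bk]
    simp [this]⟩

lemma Wit.closed {H : SimpleGraph V} {b : ℕ} {A B D : Set V} {r : V → V → Prop}
    (h : Wit H b A B r) (hD : D ⊆ B)
    (hc : ∀ w ∈ D, w ∉ A → ∀ y ∈ B, H.Adj w y → r y w → y ∈ D) : Free H b (A ∪ D) B := by
  obtain ⟨hr, hw⟩ := h
  refine ⟨r, hr, fun x hx hxA => le_trans (encard_le_encard ?_) (hw x hx fun h => hxA (Or.inl h))⟩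
  rintro y ⟨hy, hy'⟩
  refine ⟨hy, ?_⟩
  by_cases hA : y ∈ A
  · exact Or.inl hA
  rcases hy' with (h | h) | h
  · exact Or.inl h
  · rcases trichotomous_of r y x with h' | h' | h'
    · exact Or.inr ⟨hD h, h'⟩
    · exact absurd h'.symm hy.ne
    · exact absurd (Or.inr (hc y h hA x hx hy.symm h')) hxA
  · exact Or.inr h

lemma lexo {T : Type v} [LinearOrder T] [WellFoundedLT T] (idx : V → T) (r : T → V → V → Prop)
    (hr : ∀ t, IsWellOrder V (r t)) :
    IsWellOrder V fun y x => idx y < idx x ∨ (idx y = idx x ∧ r (idx x) y x) := by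
  have wf : WellFounded fun y x => idx y < idx x ∨ (idx y = idx x ∧ r (idx x) y x) := by
    have : ∀ t x, idx x = t →
        Acc (fun y x => idx y < idx x ∨ (idx y = idx x ∧ r (idx x) y x)) x := by
      intro t
      induction t using WellFoundedLT.induction with
      | ind t ih =>
        intro x
        induction x using (hr t).wf.induction with
        | _ x ih2 =>
          intro hx
          refine ⟨x, fun y hy => ?_⟩
          rcases hy with hy | ⟨hy, hy'⟩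
          · exact ih _ (hx ▸ hy) y rfl
          · exact ih2 y (hx ▸ hy') (hy.trans hx)
    exact ⟨fun x => this _ x rfl⟩
  refine @IsWellOrder.mk _ _ ⟨wf⟩ ⟨fun a c h1 h2 => ?_⟩
  push Not at h1 h2
  have e : idx a = idx c := le_antisymm h2.1 h1.1
  have := hr (idx c)
  rcases trichotomous_of (r (idx c)) a c with h | h | h
  · exact absurd h (h1.2 e)
  · exact h
  · exact absurd (e ▸ h) (h2.2 e.symm)

lemma glue {T : Type v} [LinearOrder T] [WellFoundedLT T] (idx : V → T) {H : SimpleGraph V}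
    {b : ℕ} {A B : Set V}
    (h : ∀ t, Free H b (A ∪ {x ∈ B | idx x < t}) {x ∈ B | idx x = t}) : Free H b A B := by
  choose r hr hw using h
  refine ⟨_, lexo idx r hr, fun x hx hxA => le_trans (encard_le_encard ?_)
    (hw (idx x) x ⟨hx, rfl⟩ (by simp [hxA]))⟩
  rintro y ⟨hy, h | ⟨hB, h | h⟩⟩
  · exact ⟨hy, Or.inl (Or.inl h)⟩
  · exact ⟨hy, Or.inl (Or.inr ⟨hB, h⟩)⟩
  · exact ⟨hy, Or.inr ⟨⟨hB, h.1⟩, h.2⟩⟩

lemma exists_idx {T : Type v} [LinearOrder T] [WellFoundedLT T] [Nonempty T] (F : T → Set V) :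
    ∃ idx : V → T, ∀ x, (x ∈ ⋃ t, F t → x ∈ F (idx x)) ∧ ∀ t, x ∈ F t → idx x ≤ t := by
  have : ∀ x, ∃ i, (x ∈ ⋃ t, F t → x ∈ F i) ∧ ∀ t, x ∈ F t → i ≤ t := by
    intro x
    by_cases h : x ∈ ⋃ t, F t
    · obtain ⟨i, hi⟩ := exists_minimal_of_wellFoundedLT (fun t => x ∈ F t) (mem_iUnion.1 h)
      exact ⟨i, fun _ => hi.1, fun t ht => hi.le ht⟩
    · exact ⟨Classical.arbitrary T, fun h' => absurd h' h,
        fun t ht => absurd (mem_iUnion.2 ⟨t, ht⟩) h⟩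
  choose idx h using this
  exact ⟨idx, h⟩

lemma glueU {T : Type v} [LinearOrder T] [WellFoundedLT T] [Nonempty T] (F : T → Set V)
    {H : SimpleGraph V} {b : ℕ} {A : Set V}
    (h : ∀ t, Free H b (A ∪ ⋃ s < t, F s) (F t)) : Free H b A (⋃ t, F t) := by
  obtain ⟨idx, hi⟩ := exists_idx F
  refine glue idx fun t => (h t).sub ?_ ?_
  · rintro x ⟨hx, rfl⟩ hxA
    refine ⟨(hi x).1 hx, ?_⟩
    rintro (h | h)
    · exact hxA (Or.inl h)
    · simp only [mem_iUnion] at h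
      obtain ⟨s, hs, h⟩ := h
      exact absurd ((hi x).2 s h) (not_le.2 hs)
  · rintro x (h | ⟨hx, h⟩)
    · exact Or.inl h
    · exact Or.inr (mem_biUnion (t := F) h ((hi x).1 hx))

lemma Free.two {H : SimpleGraph V} {b : ℕ} {A D B : Set V} (h1 : Free H b A D)
    (h2 : Free H b (A ∪ D) B) : Free H b A B := by
  have := glueU (T := Bool) (fun t => if t then B else D) (H := H) (b := b) (A := A) (by
    intro t
    cases t
    · simpa using h1
    · have : (⋃ s < true, if s = true then B else D) = D := by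
        ext x; simp [Bool.lt_iff]
      simpa [this] using h2)
  refine this.sub (fun x hx hxA => ⟨mem_iUnion.2 ⟨true, by simpa using hx⟩, hxA⟩) subset_rfl

lemma Ex.up {G : SimpleGraph V} {b : ℕ} {A B B' : Set V} (h : Ex G b A B') (hB : B' ⊆ B) :
    Ex G b A B := by
  obtain ⟨H, hl, ⟨r, hr, hw⟩, h2⟩ := h
  let K : SimpleGraph V :=
    { Adj := fun x y => H.Adj x y ∧ x ∈ A ∪ B' ∧ y ∈ A ∪ B'
      symm := ⟨fun x y h => ⟨h.1.symm, h.2.2, h.2.1⟩⟩
      loopless := ⟨fun x h => h.1.ne rfl⟩ }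
  refine ⟨K, fun x y h => hl h.1, ⟨r, hr, fun x hx hxA => ?_⟩, fun h => h2 ?_⟩
  · by_cases hx' : x ∈ B'
    · refine le_trans (encard_le_encard ?_) (hw x hx' hxA)
      rintro y ⟨⟨hy, -, hy2⟩, hy'⟩
      rcases hy2 with h | h
      · exact ⟨hy, Or.inl h⟩
      · exact ⟨hy, hy'.imp id fun h' => ⟨h, h'.2⟩⟩
    · have : bk K A B r x = ∅ := by
        ext y
        simp only [mem_empty_iff_false, iff_false]
        rintro ⟨⟨-, h | h, -⟩, -⟩
        · exact hxA h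
        · exact hx' h
      simp [this]
  · exact h.tr (fun x hx hxA => ⟨hB hx, hxA⟩) (fun x hx _ y hy hy' => ⟨hy, Or.inr hx, hy'⟩)
      (fun _ _ _ _ _ h => h)

lemma assemble {T : Type v} [LinearOrder T] (idx : V → T) {G : SimpleGraph V} {A B : Set V}
    (hd : Disjoint A B) (K : T → SimpleGraph V) (hK : ∀ t, K t ≤ G) :
    ∃ H ≤ G, ∀ t c, Free H c (A ∪ {x ∈ B | idx x < t}) {x ∈ B | idx x = t} ↔
      Free (K t) c (A ∪ {x ∈ B | idx x < t}) {x ∈ B | idx x = t} := by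
  let R : V → V → Prop := fun x y =>
    x ∈ B ∧ (K (idx x)).Adj x y ∧ (y ∈ A ∨ (y ∈ B ∧ idx y ≤ idx x))
  let H : SimpleGraph V :=
    { Adj := fun x y => R x y ∨ R y x
      symm := ⟨fun x y h => h.symm⟩
      loopless := ⟨fun x h => by rcases h with h | h <;> exact h.2.1.ne rfl⟩ }
  have key : ∀ t, ∀ x ∈ {x ∈ B | idx x = t}, ∀ y,
      (y ∈ A ∪ {x ∈ B | idx x < t} ∨ y ∈ {x ∈ B | idx x = t}) → (H.Adj x y ↔ (K t).Adj x y) := by
    rintro t x ⟨hx, rfl⟩ y hy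
    have hy' : y ∈ A ∨ (y ∈ B ∧ idx y ≤ idx x) := by
      rcases hy with (h | h) | h
      · exact Or.inl h
      · exact Or.inr ⟨h.1, h.2.le⟩
      · exact Or.inr ⟨h.1, h.2.le⟩
    constructor
    · rintro (h | ⟨h1, h2, h3⟩)
      · exact h.2.1
      · have h4 : idx x ≤ idx y := (h3.resolve_left (disjoint_right.1 hd hx)).2
        have h5 : idx y ≤ idx x := (hy'.resolve_left (disjoint_right.1 hd h1)).2
        rw [le_antisymm h4 h5]; exact h2.symm
    · intro h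
      exact Or.inl ⟨hx, h, hy'⟩
  refine ⟨H, ?_, fun t c => ⟨fun h => ?_, fun h => ?_⟩⟩
  · rintro x y (h | h)
    · exact hK _ h.2.1
    · exact (hK _ h.2.1).symm
  · exact h.tr (fun _ h1 h2 => ⟨h1, h2⟩) (fun x hx _ y hy hy' => (key t x hx y hy').2 hy)
      (fun _ _ _ _ _ h => h)
  · exact h.tr (fun _ h1 h2 => ⟨h1, h2⟩) (fun x hx _ y hy hy' => (key t x hx y hy').1 hy)
      (fun _ _ _ _ _ h => h)

lemma Free.step {H H' : SimpleGraph V} {b : ℕ} {A B : Set V} (h : Free H b A B)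
    (hs : ∀ x, ∃ w, ∀ y, H'.Adj x y → H.Adj x y ∨ y = w) : Free H' (b + 1) A B := by
  obtain ⟨r, hr, hw⟩ := h
  refine ⟨r, hr, fun x hx hxA => ?_⟩
  obtain ⟨w, hw'⟩ := hs x
  have : bk H' A B r x ⊆ insert w (bk H A B r x) := by
    rintro y ⟨hy, hy'⟩
    rcases hw' y hy with h | h
    · exact Or.inr ⟨h, hy'⟩
    · exact Or.inl h
  refine (encard_le_encard this).trans ((encard_insert_le _ _).trans ?_)
  push_cast
  gcongr
  exact hw x hx hxA

lemma ex_edges (b : ℕ) (A B : Set V) (E : Set (Sym2 V)) (hE : E.Finite) :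
    ¬ Free (SimpleGraph.fromEdgeSet E) b A B → Ex (SimpleGraph.fromEdgeSet E) b A B := by
  induction E, hE using Set.Finite.induction_on with
  | empty => intro h; exact absurd (by simpa using free_bot b A B) h
  | @insert e E _ _ ih =>
    intro h
    by_cases h' : Free (SimpleGraph.fromEdgeSet E) b A B
    · refine ⟨_, le_rfl, h'.step fun x => ?_, h⟩
      by_cases hx : ∃ w, s(x, w) = e
      · obtain ⟨w, hw⟩ := hx
        refine ⟨w, fun y hy => ?_⟩
        rw [SimpleGraph.fromEdgeSet_adj] at hy ⊢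
        rcases hy.1 with h1 | h1
        · right; exact Sym2.congr_right.1 (h1.trans hw.symm)
        · left; exact ⟨h1, hy.2⟩
      · refine ⟨x, fun y hy => ?_⟩
        rw [SimpleGraph.fromEdgeSet_adj] at hy ⊢
        rcases hy.1 with h1 | h1
        · exact absurd ⟨y, h1⟩ hx
        · left; exact ⟨h1, hy.2⟩
    · obtain ⟨H, hl, h1⟩ := ih h'
      exact ⟨H, hl.trans (SimpleGraph.fromEdgeSet_mono (subset_insert _ _)), h1⟩

lemma ex_finite {G : SimpleGraph V} {b : ℕ} {A Y : Set V} (hY : Y.Finite) (h : ¬ Free G b A Y) :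
    Ex G b A Y := by
  have : ∀ x, ∃ N ⊆ {z | G.Adj x z ∧ z ∈ A}, N.Finite ∧
      (N = {z | G.Adj x z ∧ z ∈ A} ∨ N.encard = (b + 1 : ℕ)) := by
    intro x
    by_cases hx : ((b + 1 : ℕ) : ℕ∞) ≤ {z | G.Adj x z ∧ z ∈ A}.encard
    · obtain ⟨N, h1, h2⟩ := exists_subset_encard_eq hx
      exact ⟨N, h1, finite_of_encard_eq_coe h2, Or.inr h2⟩
    · exact ⟨_, subset_rfl, finite_of_encard_le_coe (not_le.1 hx).le, Or.inl rfl⟩
  choose N h1 h2 h3 using this
  let E : Set (Sym2 V) := {e | ∃ x ∈ Y, ∃ y, G.Adj x y ∧ (y ∈ Y ∨ y ∈ N x) ∧ e = s(x, y)}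
  have hE : E.Finite := by
    refine (hY.biUnion (t := fun x => (fun y => s(x, y)) '' (Y ∪ N x))
      fun x _ => (hY.union (h2 x)).image _).subset ?_
    rintro e ⟨x, hx, y, -, hy, rfl⟩
    simp only [mem_iUnion]
    exact ⟨x, hx, y, hy, rfl⟩
  have hl : SimpleGraph.fromEdgeSet E ≤ G := by
    intro x y hxy
    rw [SimpleGraph.fromEdgeSet_adj] at hxy
    obtain ⟨⟨a, -, c, hac, -, e⟩, -⟩ := hxy
    rw [← SimpleGraph.mem_edgeSet, e]; exact hac
  have ad : ∀ x ∈ Y, ∀ y, G.Adj x y → (y ∈ Y ∨ y ∈ N x) → (SimpleGraph.fromEdgeSet E).Adj x y :=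
    fun x hx y hy hy' => (SimpleGraph.fromEdgeSet_adj _).2 ⟨⟨x, hx, y, hy, hy', rfl⟩, hy.ne⟩
  obtain ⟨H, hH, h4⟩ := ex_edges b A Y E hE (by
    rintro ⟨r, hr, hw⟩
    refine h ⟨r, hr, fun x hx hxA => ?_⟩
    rcases h3 x with e | e
    · refine le_trans (encard_le_encard ?_) (hw x hx hxA)
      rintro y ⟨hy, h | h⟩
      · exact ⟨ad x hx y hy (Or.inr (e ▸ ⟨hy, h⟩)), Or.inl h⟩
      · exact ⟨ad x hx y hy (Or.inl h.1), Or.inr h⟩
    · have : N x ⊆ bk (SimpleGraph.fromEdgeSet E) A Y r x := fun y hy =>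
        ⟨ad x hx y (h1 x hy).1 (Or.inr hy), Or.inl (h1 x hy).2⟩
      have := (encard_le_encard this).trans (hw x hx hxA)
      rw [e] at this
      exact absurd this (by norm_cast; omega))
  exact ⟨H, hH.trans hl, h4⟩

end Pool.Agent.H10.Col
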