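import Mathlib
import Pool.Agent.H10.Col1

set_option autoImplicit false

namespace Pool.Agent.H10.Col

open Set

universe u v
variable {V : Type u}

lemma Wit.fin_closure {H : SimpleGraph V} {b : ℕ} {A U : Set V} {r : V → V → Prop}
    (h : Wit H b A U r) {Z : Set V} (hZ : Z.Finite) (hZU : Z ⊆ U) :
    ∃ S : Set V, S.Finite ∧ Z ⊆ S ∧ S ⊆ U ∧
      ∀ w ∈ S, w ∉ A → ∀ y ∈ U, H.Adj w y → r y w → y ∈ S := by
  obtain ⟨hr, hw⟩ := h
  have one : ∀ x, x ∈ U → ∃ S : Set V, S.Finite ∧ x ∈ S ∧ S ⊆ U ∧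
      ∀ w ∈ S, w ∉ A → ∀ y ∈ U, H.Adj w y → r y w → y ∈ S := by
    intro x
    induction x using hr.wf.induction with
    | _ x ih =>
      intro hx
      by_cases hxA : x ∈ A
      · refine ⟨{x}, finite_singleton x, rfl, singleton_subset_iff.2 hx, ?_⟩
        rintro w rfl hw; exact absurd hxA hw
      · choose! S h1 h2 h3 h4 using ih
        have hf : {y | y ∈ U ∧ H.Adj x y ∧ r y x}.Finite :=
          (finite_of_encard_le_coe (hw x hx hxA)).subset fun y hy =>
            ⟨hy.2.1, Or.inr ⟨hy.1, hy.2.2⟩⟩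
        refine ⟨insert x (⋃ y ∈ {y | y ∈ U ∧ H.Adj x y ∧ r y x}, S y),
          (hf.biUnion fun y hy => h1 y hy.2.2 hy.1).insert x, Or.inl rfl, ?_, ?_⟩
        · rintro w (rfl | hw)
          · exact hx
          · simp only [mem_iUnion] at hw
            obtain ⟨y, hy, hw⟩ := hw
            exact h3 y hy.2.2 hy.1 hw
        · rintro w (rfl | hw) hwA y hy hwy hr'
          · exact Or.inr (mem_biUnion (t := S) (⟨hy, hwy, hr'⟩ : y ∈ {y | y ∈ U ∧ H.Adj w y ∧ r y w})
              (h2 y hr' hy))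
          · simp only [mem_iUnion] at hw
            obtain ⟨z, hz, hw⟩ := hw
            exact Or.inr (mem_biUnion (t := S) hz (h4 z hz.2.2 hz.1 w hw hwA y hy hwy hr'))
  choose! S h1 h2 h3 h4 using one
  refine ⟨⋃ x ∈ Z, S x, hZ.biUnion fun x hx => h1 x (hZU hx),
    fun x hx => mem_biUnion (t := S) hx (h2 x (hZU hx)), ?_, ?_⟩
  · intro w hw
    simp only [mem_iUnion] at hw
    obtain ⟨z, hz, hw⟩ := hw
    exact h3 z (hZU hz) hw
  · intro w hw hwA y hy hwy hr'
    simp only [mem_iUnion] at hw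
    obtain ⟨z, hz, hw⟩ := hw
    exact mem_biUnion (t := S) hz (h4 z (hZU hz) w hw hwA y hy hwy hr')

lemma min_nonfree {G : SimpleGraph V} {b : ℕ} {A B Y : Set V} (hY : Y.Finite) (hB : Y ⊆ B)
    (h : ¬ Free G b A Y) : ∃ Y' : Set V, Y'.Finite ∧ Y' ⊆ B \ A ∧ ¬ Free G b A Y' ∧
      ∀ Y'' ⊂ Y', Free G b A Y'' := by
  obtain ⟨Y', ⟨h1, h2⟩, h3⟩ := exists_minimal_of_wellFoundedLT
    (fun s : Finset V => (s : Set V) ⊆ B \ A ∧ ¬ Free G b A s)
    ⟨(hY.sdiff (t := A)).toFinset, by
      rw [Finite.coe_toFinset]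
      exact ⟨sdiff_subset_sdiff_left hB, fun h' => h (h'.sub (fun x hx hxA => ⟨⟨hx, hxA⟩, hxA⟩)
        subset_rfl)⟩⟩
  refine ⟨Y', Y'.finite_toSet, h1, h2, fun Y'' hs => ?_⟩
  by_contra hn
  have hf : Y''.Finite := Y'.finite_toSet.subset hs.1
  have := h3 (y := hf.toFinset) (by simp only [Finite.coe_toFinset]; exact ⟨hs.1.trans h1, hn⟩)
    (by rw [← Finset.coe_subset, Finite.coe_toFinset]; exact hs.1)
  rw [← Finset.coe_subset, Finite.coe_toFinset] at this
  exact hs.2 this

lemma ex_countable {G : SimpleGraph V} {b : ℕ} {A B : Set V} (hd : Disjoint A B)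
    (hB : B.Countable) (h : ¬ Free G b A B) : Ex G b A B := by
  by_cases h0 : ∃ Y : Set V, Y.Finite ∧ Y ⊆ B ∧ ¬ Free G b A Y
  · obtain ⟨Y, h1, h2, h3⟩ := h0
    exact (ex_finite h1 h3).up h2
  push Not at h0
  by_cases h1 : ∀ X : Set V, X.Finite → X ⊆ B → ∃ X' : Set V, X'.Finite ∧ X ⊆ X' ∧ X' ⊆ B ∧
      ∀ Y : Set V, Y.Finite → Y ⊆ B → Free G b (A ∪ X') Y
  · exfalso
    rcases B.eq_empty_or_nonempty with rfl | hne
    · exact h (free_of_sub _ _ (empty_subset _))
    obtain ⟨f, hf⟩ := hB.exists_eq_range hne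
    choose! st s1 s2 s3 s4 using h1
    let X : ℕ → Set V := fun n => Nat.rec ∅ (fun n X => st (insert (f n) X)) n
    have hs : ∀ n, X (n + 1) = st (insert (f n) (X n)) := fun n => rfl
    have hfn : ∀ n, f n ∈ B := fun n => hf ▸ mem_range_self n
    have inv : ∀ n, (X n).Finite ∧ X n ⊆ B := by
      intro n
      induction n with
      | zero => exact ⟨finite_empty, empty_subset _⟩
      | succ n ih =>
        exact ⟨s1 _ (ih.1.insert _) (insert_subset (hfn n) ih.2),
          s3 _ (ih.1.insert _) (insert_subset (hfn n) ih.2)⟩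
    have up : ∀ n, insert (f n) (X n) ⊆ X (n + 1) := fun n =>
      s2 _ ((inv n).1.insert _) (insert_subset (hfn n) (inv n).2)
    have mono : Monotone X := monotone_nat_of_le_succ fun n => (subset_insert _ _).trans (up n)
    have str : ∀ n, ∀ Y : Set V, Y.Finite → Y ⊆ B → Free G b (A ∪ X n) Y := by
      intro n
      cases n with
      | zero => intro Y h1 h2; simpa [X] using h0 Y h1 h2
      | succ n => exact s4 _ ((inv n).1.insert _) (insert_subset (hfn n) (inv n).2)
    have := glueU X (H := G) (b := b) (A := A) (by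
      intro t
      cases t with
      | zero => exact free_of_sub _ _ (empty_subset _)
      | succ t =>
        have : (⋃ s < t + 1, X s) = X t := by
          apply Subset.antisymm
          · exact iUnion₂_subset fun s hs => mono (Nat.le_of_lt_succ hs)
          · exact subset_biUnion_of_mem (u := X) (Nat.lt_succ_self t)
        rw [this]
        exact str t _ (inv (t + 1)).1 (inv (t + 1)).2)
    refine h (this.sub (fun x hx hxA => ⟨?_, hxA⟩) subset_rfl)
    rw [hf] at hx
    obtain ⟨n, rfl⟩ := hx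
    exact mem_iUnion.2 ⟨n + 1, up n (mem_insert _ _)⟩
  push Not at h1
  obtain ⟨Z, hZ, hZB, h1⟩ := h1
  have h2 : ∀ X : Set V, X.Finite → Z ⊆ X → X ⊆ B → ∃ Y : Set V, Y.Finite ∧ Y ⊆ B \ (A ∪ X) ∧
      ¬ Free G b (A ∪ X) Y ∧ ∀ Y'' ⊂ Y, Free G b (A ∪ X) Y'' := by
    intro X a1 a2 a3
    obtain ⟨Y, y1, y2, y3⟩ := h1 X a1 a2 a3
    exact min_nonfree y1 y2 y3
  choose! Yf y1 y2 y3 y4 using h2
  let X : ℕ → Set V := fun n => Nat.rec Z (fun _ X => X ∪ Yf X) n
  have hs : ∀ n, X (n + 1) = X n ∪ Yf (X n) := fun n => rfl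
  have inv : ∀ n, (X n).Finite ∧ Z ⊆ X n ∧ X n ⊆ B := by
    intro n
    induction n with
    | zero => exact ⟨hZ, subset_rfl, hZB⟩
    | succ n ih =>
      exact ⟨ih.1.union (y1 _ ih.1 ih.2.1 ih.2.2), ih.2.1.trans subset_union_left,
        union_subset ih.2.2 ((y2 _ ih.1 ih.2.1 ih.2.2).trans sdiff_subset)⟩
  have mono : Monotone X := monotone_nat_of_le_succ fun n => subset_union_left
  have Y1 := fun n => y1 _ (inv n).1 (inv n).2.1 (inv n).2.2
  have Y2 := fun n => y2 _ (inv n).1 (inv n).2.1 (inv n).2.2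
  have Y3 := fun n => y3 _ (inv n).1 (inv n).2.1 (inv n).2.2
  have Y4 := fun n => y4 _ (inv n).1 (inv n).2.1 (inv n).2.2
  obtain ⟨idx, hi⟩ := exists_idx X
  set U := ⋃ n, X n with hU
  have hUB : U ⊆ B := iUnion_subset fun n => (inv n).2.2
  have e1 : ∀ n, {x ∈ U | idx x < n + 1} = X n := by
    intro n
    ext x
    constructor
    · rintro ⟨hx, h⟩; exact mono (Nat.le_of_lt_succ h) ((hi x).1 hx)
    · intro hx; exact ⟨mem_iUnion.2 ⟨n, hx⟩, Nat.lt_succ_of_le ((hi x).2 n hx)⟩
  have e2 : ∀ n, {x ∈ U | idx x = n + 1} = Yf (X n) := by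
    intro n
    ext x
    constructor
    · rintro ⟨hx, h⟩
      have := (hi x).1 hx
      rw [h, hs] at this
      refine this.resolve_left fun h' => ?_
      have := (hi x).2 n h'
      omega
    · intro hx
      have hx' : x ∈ X (n + 1) := Or.inr hx
      have hU' : x ∈ U := mem_iUnion.2 ⟨n + 1, hx'⟩
      refine ⟨hU', le_antisymm ((hi x).2 (n + 1) hx') ?_⟩
      by_contra hn
      have : x ∈ X n := e1 n ▸ ⟨hU', not_le.1 hn⟩
      exact (Y2 n hx).2 (Or.inr this)
  choose K k1 k2 k3 using fun n => ex_finite (Y1 n) (Y3 n)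
  obtain ⟨H, hH, key⟩ := assemble idx (G := G) (hd.mono_right hUB)
    (fun n => Nat.rec ⊥ (fun n _ => K n) n) (by
      intro t; cases t
      · exact bot_le
      · exact k1 _)
  refine Ex.up ⟨H, hH, glue idx fun t => (key t _).2 ?_, ?_⟩ hUB
  · cases t with
    | zero => exact free_bot _ _ _
    | succ t => rw [e1, e2]; exact k2 t
  · rintro ⟨r, hw⟩
    obtain ⟨S, s1, s2, s3, s4⟩ := hw.fin_closure hZ (subset_iUnion X 0)
    have hF := hw.closed s3 s4
    have all : ∀ n, X n ⊆ S := by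
      intro n
      induction n with
      | zero => exact s2
      | succ n ih =>
        refine union_subset ih ?_
        by_contra hn
        apply k3 n
        have := (key (n + 1) b).1
        rw [e1, e2] at this
        apply this
        have p1 : Free H b (A ∪ X n) (Yf (X n) ∩ S) :=
          (Y4 n _ ⟨inter_subset_left, fun h => hn (h.trans inter_subset_right)⟩).anti hH
        refine p1.two (hF.sub ?_ ?_)
        · intro x hx hxA
          refine ⟨mem_iUnion.2 ⟨n + 1, Or.inr hx⟩, ?_⟩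
          rintro (h | h)
          · exact hxA (Or.inl (Or.inl h))
          · exact hxA (Or.inr ⟨hx, h⟩)
        · rintro x ((h | h) | h)
          · exact Or.inl h
          · exact Or.inr (ih h)
          · exact Or.inr h.2
    have card : ∀ n, n ≤ (X n).ncard := by
      intro n
      induction n with
      | zero => exact Nat.zero_le _
      | succ n ih =>
        refine Nat.succ_le_of_lt (ih.trans_lt (ncard_lt_ncard ⟨subset_union_left, fun h => ?_⟩
          (inv (n + 1)).1))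
        exact Y3 n (free_of_sub _ _ fun x hx => Or.inr (h (Or.inr hx)))
    have := (card (S.ncard + 1)).trans (ncard_le_ncard (all (S.ncard + 1)) s1)
    omega

end Pool.Agent.H10.Col
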