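import Mathlib
import Pool.Agent.H10.Col2

set_option autoImplicit false

namespace Pool.Agent.H10.Col

open Set Cardinal

universe u
variable {V : Type u}

lemma bd {κ : Cardinal.{u}} (hκ : κ.IsRegular) (s : Set κ.ord.ToType) (hs : #s < κ) :
    ∃ a, ∀ t ∈ s, t < a := by
  rw [← not_isCofinal_iff]
  intro h
  have := Order.cof_le h
  rw [Ordinal.cof_toType, hκ.cof_ord] at this
  exact absurd hs (not_lt.2 this)

lemma sm {κ : Cardinal.{u}} (hκ : ℵ₀ ≤ κ) (a : κ.ord.ToType) : #(Iic a) < κ := by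
  simpa using mk_Iic_lt a (by simp) (by simpa using hκ)

lemma cp {κ : Cardinal.{u}} (hκ : κ.IsRegular) (h0 : ℵ₀ < κ) (f : κ.ord.ToType → κ.ord.ToType)
    (a : κ.ord.ToType) : ∃ c, a < c ∧ ∀ β < c, f β < c := by
  have : ∀ a : κ.ord.ToType, ∃ c, a < c ∧ ∀ β ≤ a, f β < c := by
    intro a
    obtain ⟨c, hc⟩ := bd hκ (insert a (f '' Iic a)) (by
      refine mk_insert_le.trans_lt (add_lt_of_lt hκ.aleph0_le (mk_image_le.trans_lt (sm h0.le a)) ?_)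
      exact one_lt_aleph0.trans h0)
    exact ⟨c, hc a (mem_insert _ _), fun β hβ => hc _ (Or.inr ⟨β, hβ, rfl⟩)⟩
  choose g g1 g2 using this
  obtain ⟨c0, hc0⟩ := bd hκ (range fun n : ℕ => g^[n] a)
    ((countable_range _).le_aleph0.trans_lt h0)
  obtain ⟨c, hc, hm⟩ := exists_minimal_of_wellFoundedLT (fun c => ∀ n : ℕ, g^[n] a < c)
    ⟨c0, fun n => hc0 _ ⟨n, rfl⟩⟩
  refine ⟨c, hc 0, fun β hβ => ?_⟩
  have : ¬ ∀ n : ℕ, g^[n] a < β := fun h => absurd (hm h hβ.le) (not_le.2 hβ)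
  push Not at this
  obtain ⟨n, hn⟩ := this
  have h2 := hc (n + 1)
  rw [Function.iterate_succ_apply'] at h2
  exact (g2 _ β hn).trans h2

lemma cl {κ : Cardinal.{u}} (hκ : κ.IsRegular) (idx : V → κ.ord.ToType) {H : SimpleGraph V}
    {b : ℕ} {A U : Set V} (hs : ∀ t, #{x ∈ U | idx x = t} < κ) (h : Free H b A U) :
    ∃ f : κ.ord.ToType → κ.ord.ToType, ∀ γ, (∀ β < γ, f β < γ) →
      Free H b (A ∪ {x ∈ U | idx x < γ}) U := by
  obtain ⟨r, hw⟩ := h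
  have : ∀ β, ∃ a, ∀ x ∈ U, x ∉ A → idx x = β → ∀ y ∈ bk H A U r x, idx y < a := by
    intro β
    obtain ⟨a, ha⟩ := bd hκ (idx '' ⋃ x ∈ {x ∈ U | x ∉ A ∧ idx x = β}, bk H A U r x) (by
      refine mk_image_le.trans_lt ?_
      refine (card_biUnion_lt_iff_forall_of_isRegular (t := fun x _ => bk H A U r x) hκ ?_).2 ?_
      · exact (mk_le_mk_of_subset fun x hx => (⟨hx.1, hx.2.2⟩ : x ∈ {x ∈ U | idx x = β})).trans_lt
          (hs β)
      · intro x hx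
        exact (finite_of_encard_le_coe (hw.2 x hx.1 hx.2.1)).lt_aleph0.trans_le hκ.aleph0_le)
    exact ⟨a, fun x h1 h2 h3 y hy => ha _ ⟨y, mem_biUnion (t := fun x => bk H A U r x)
      (⟨h1, h2, h3⟩ : x ∈ {x ∈ U | x ∉ A ∧ idx x = β}) hy, rfl⟩⟩
  choose f hf using this
  refine ⟨f, fun γ hγ => hw.closed (sep_subset _ _) ?_⟩
  rintro w ⟨h1, h2⟩ hA y hy hwy hr
  exact ⟨hy, (hf _ w h1 hA rfl y ⟨hwy, Or.inr ⟨hy, hr⟩⟩).trans (hγ _ h2)⟩

lemma exists_lo {T : Type u} [LinearOrder T] [WellFoundedLT T] (f : T → T) :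
    ∃ lo : T → T, ∀ β, (∀ η < lo β, f η < lo β) ∧ lo β ≤ β ∧
      ∀ c, (∀ η < c, f η < c) → c ≤ β → c ≤ lo β := by
  have : ∀ β, ∃ l, (∀ η < l, f η < l) ∧ l ≤ β ∧ ∀ c, (∀ η < c, f η < c) → c ≤ β → c ≤ l := by
    intro β
    obtain ⟨l, h1, h2⟩ := exists_minimal_of_wellFoundedLT
      (fun l => ∀ c, (∀ η < c, f η < c) → c ≤ β → c ≤ l) ⟨β, fun _ _ h => h⟩
    refine ⟨l, fun η hη => ?_, Minimal.le ⟨h1, h2⟩ (y := β) fun _ _ h => h, h1⟩
    have : ¬ ∀ c, (∀ η < c, f η < c) → c ≤ β → c ≤ η :=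
      fun h => absurd (h2 h hη.le) (not_le.2 hη)
    push Not at this
    obtain ⟨c, c1, c2, c3⟩ := this
    exact (c1 η c3).trans_le (h1 c c1 c2)
  choose lo h using this
  exact ⟨lo, h⟩

lemma ex_regular {G : SimpleGraph V} {b : ℕ} {A B : Set V} (hd : Disjoint A B)
    (hκ : (#B).IsRegular) (h0 : ℵ₀ < #B)
    (ih : ∀ A' B' : Set V, #B' < #B → Disjoint A' B' → ¬ Free G b A' B' → Ex G b A' B')
    (h : ¬ Free G b A B) : Ex G b A B := by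
  classical
  obtain ⟨e⟩ : Nonempty (B ≃ (#B).ord.ToType) := Cardinal.eq.1 (by simp)
  have hne : Nonempty (#B).ord.ToType := by
    rw [← mk_ne_zero_iff]; simpa using hκ.ne_zero
  let idx : V → (#B).ord.ToType := fun x => if h : x ∈ B then e ⟨x, h⟩ else Classical.arbitrary _
  have inj : InjOn idx B := by
    intro x hx y hy hxy
    simp only [idx, dif_pos hx, dif_pos hy] at hxy
    exact congrArg Subtype.val (e.injective hxy)
  have small : ∀ c, #{x ∈ B | idx x ≤ c} < #B := by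
    intro c
    rw [← mk_image_eq_of_injOn idx _ (inj.mono (sep_subset _ _))]
    refine (mk_le_mk_of_subset ?_).trans_lt (sm h0.le c)
    rintro _ ⟨x, hx, rfl⟩; exact hx.2
  have lt_lo : ∀ (f lo : (#B).ord.ToType → (#B).ord.ToType),
      (∀ β, (∀ η < lo β, f η < lo β) ∧ lo β ≤ β ∧ ∀ c, (∀ η < c, f η < c) → c ≤ β → c ≤ lo β) →
      ∀ γ, (∀ η < γ, f η < γ) → {x ∈ B | lo (idx x) < γ} = {x ∈ B | idx x < γ} := by
    intro f lo hlo γ hγ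
    ext x
    refine and_congr_right fun _ => ⟨fun h => ?_, fun h => (hlo _).2.1.trans_lt h⟩
    by_contra hn
    exact absurd ((hlo _).2.2 γ hγ (not_lt.1 hn)) (not_le.2 h)
  have blk_lo : ∀ (f lo : (#B).ord.ToType → (#B).ord.ToType),
      (∀ β, (∀ η < lo β, f η < lo β) ∧ lo β ≤ β ∧ ∀ c, (∀ η < c, f η < c) → c ≤ β → c ≤ lo β) →
      ∀ γ, ∃ c, {x ∈ B | lo (idx x) = γ} ⊆ {x ∈ B | idx x < c} := by
    intro f lo hlo γ
    obtain ⟨c, c1, c2⟩ := cp hκ h0 f γ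
    refine ⟨c, fun x hx => ⟨hx.1, ?_⟩⟩
    by_contra hn
    exact absurd ((hlo _).2.2 c c2 (not_lt.1 hn)) (by rw [hx.2]; exact not_le.2 c1)
  by_cases hS : ∃ f : (#B).ord.ToType → (#B).ord.ToType, ∀ γ, (∀ η < γ, f η < γ) →
      ∀ δ, Free G b (A ∪ {x ∈ B | idx x < γ}) {x ∈ B | idx x < δ}
  · obtain ⟨f, hf⟩ := hS
    obtain ⟨lo, hlo⟩ := exists_lo f
    refine absurd (glue (fun x => lo (idx x)) fun γ => ?_) h
    rcases ({x ∈ B | lo (idx x) = γ}).eq_empty_or_nonempty with h1 | ⟨x, -, h1⟩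
    · rw [h1]; exact free_of_sub _ _ (empty_subset _)
    · have hγ : ∀ η < γ, f η < γ := h1 ▸ (hlo (idx x)).1
      obtain ⟨c, hc⟩ := blk_lo f lo hlo γ
      rw [lt_lo f lo hlo γ hγ]
      exact (hf γ hγ c).sub (fun x hx hA => ⟨hc hx, hA⟩) subset_rfl
  push Not at hS
  have : ∀ γ, ∃ δ, (∃ δ', ¬ Free G b (A ∪ {x ∈ B | idx x < γ}) {x ∈ B | idx x < δ'}) →
      ¬ Free G b (A ∪ {x ∈ B | idx x < γ}) {x ∈ B | idx x < δ} := by
    intro γ
    by_cases h1 : ∃ δ', ¬ Free G b (A ∪ {x ∈ B | idx x < γ}) {x ∈ B | idx x < δ'}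
    · exact ⟨h1.choose, fun _ => h1.choose_spec⟩
    · exact ⟨γ, fun h => absurd h h1⟩
  choose δ hδ using this
  obtain ⟨lo, hlo⟩ := exists_lo δ
  have : ∀ γ, ∃ K ≤ G,
      Free K (b + 1) (A ∪ {x ∈ B | lo (idx x) < γ}) {x ∈ B | lo (idx x) = γ} ∧
      ((∀ η < γ, δ η < γ) → (∃ δ', ¬ Free G b (A ∪ {x ∈ B | idx x < γ}) {x ∈ B | idx x < δ'}) →
        ¬ Free K b (A ∪ {x ∈ B | lo (idx x) < γ}) {x ∈ B | lo (idx x) = γ}) := by
    intro γ
    by_cases h1 : (∀ η < γ, δ η < γ) ∧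
      ∃ δ', ¬ Free G b (A ∪ {x ∈ B | idx x < γ}) {x ∈ B | idx x < δ'}
    · obtain ⟨c, hc⟩ := blk_lo δ lo hlo γ
      obtain ⟨K, k1, k2, k3⟩ := ih (A ∪ {x ∈ B | lo (idx x) < γ}) {x ∈ B | lo (idx x) = γ}
        ((mk_le_mk_of_subset fun x hx =>
          (⟨hx.1, (hc hx).2.le⟩ : x ∈ {x ∈ B | idx x ≤ c})).trans_lt (small c))
        (by
          rw [disjoint_left]
          rintro x (h2 | h2) h3
          · exact disjoint_left.1 hd h2 h3.1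
          · exact absurd h3.2 h2.2.ne)
        (by
          intro h2
          rw [lt_lo δ lo hlo γ h1.1] at h2
          refine hδ γ h1.2 (h2.sub (fun x hx hA => ⟨⟨hx.1, ?_⟩, hA⟩) subset_rfl)
          have h3 : γ ≤ idx x := not_lt.1 fun h => hA (Or.inr ⟨hx.1, h⟩)
          refine le_antisymm (not_lt.1 fun h4 => ?_) ((hlo _).2.2 γ h1.1 h3)
          exact absurd (((hlo _).1 γ h4).trans_le (hlo _).2.1) (not_lt.2 hx.2.le))
      exact ⟨K, k1, k2, fun _ _ => k3⟩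
    · exact ⟨⊥, bot_le, free_bot _ _ _, fun a c => absurd ⟨a, c⟩ h1⟩
  choose K k1 k2 k3 using this
  obtain ⟨H, hH, key⟩ := assemble (fun x => lo (idx x)) hd K k1
  refine ⟨H, hH, glue (fun x => lo (idx x)) fun t => (key t _).2 (k2 t), fun hF => ?_⟩
  obtain ⟨f, hf⟩ := cl hκ idx (fun t => (mk_le_mk_of_subset fun x hx =>
    (⟨hx.1, hx.2.le⟩ : x ∈ {x ∈ B | idx x ≤ t})).trans_lt (small t)) hF
  obtain ⟨γ, g1, g2⟩ := hS fun η => max (f η) (δ η)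
  have g3 : ∀ η < γ, δ η < γ := fun η h => (le_max_right _ _).trans_lt (g1 η h)
  refine k3 γ g3 g2 ((key γ b).1 ?_)
  rw [lt_lo δ lo hlo γ g3]
  exact (hf γ fun η h => (le_max_left _ _).trans_lt (g1 η h)).sub
    (fun x hx hA => ⟨hx.1, hA⟩) subset_rfl

lemma mk_bU_le {ι : Type u} {μ : Cardinal.{u}} (hμ : ℵ₀ ≤ μ) (s : Set ι) (t : ι → Set V)
    (hs : #s ≤ μ) (ht : ∀ i ∈ s, #(t i) ≤ μ) : #(⋃ i ∈ s, t i) ≤ μ := by
  rw [← Order.lt_succ_iff] at hs ⊢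
  exact (card_biUnion_lt_iff_forall_of_isRegular (t := fun i _ => t i) (isRegular_succ hμ) hs).2
    fun i hi => Order.lt_succ_iff.2 (ht i hi)

lemma mk_un_le {μ : Cardinal.{u}} (hμ : ℵ₀ ≤ μ) {s t : Set V} (hs : #s ≤ μ) (ht : #t ≤ μ) :
    #(s ∪ t : Set V) ≤ μ := (mk_union_le s t).trans (add_le_of_le hμ hs ht)

lemma strongify {G : SimpleGraph V} {b : ℕ} {A B : Set V} {μ : Cardinal.{u}} (hμ : ℵ₀ ≤ μ)
    (h : ∀ Y ⊆ B, #Y ≤ Order.succ μ → Free G b A Y) (X : Set V) (hX : X ⊆ B) (hXμ : #X ≤ μ) :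
    ∃ X', X ⊆ X' ∧ X' ⊆ B ∧ #X' ≤ μ ∧ ∀ Y ⊆ B, #Y ≤ μ → Free G b (A ∪ X') Y := by
  by_contra hn
  push Not at hn
  choose! Yf y1 y2 y3 using hn
  have hκ := isRegular_succ hμ
  have h0 : ℵ₀ < Order.succ μ := Order.lt_succ_iff.2 hμ
  have hne : Nonempty (Order.succ μ).ord.ToType := by
    rw [← mk_ne_zero_iff]; simpa using hκ.ne_zero
  let F : (Order.succ μ).ord.ToType → Set V := (wellFounded_lt).fix fun α R =>
    (X ∪ ⋃ β, ⋃ h : β < α, R β h) ∪ Yf (X ∪ ⋃ β, ⋃ h : β < α, R β h)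
  have hF : ∀ α, F α = (X ∪ ⋃ β ∈ Iio α, F β) ∪ Yf (X ∪ ⋃ β ∈ Iio α, F β) := fun α =>
    WellFounded.fix_eq _ _ _
  have pre : ∀ α, (∀ β < α, F β ⊆ B ∧ #(F β) ≤ μ) →
      (X ∪ ⋃ β ∈ Iio α, F β) ⊆ B ∧ #(X ∪ ⋃ β ∈ Iio α, F β : Set V) ≤ μ := by
    intro α ih
    refine ⟨union_subset hX (iUnion₂_subset fun β hβ => (ih β hβ).1),
      mk_un_le hμ hXμ (mk_bU_le hμ _ _ ?_ fun β hβ => (ih β hβ).2)⟩
    exact Order.lt_succ_iff.1 ((mk_le_mk_of_subset Iio_subset_Iic_self).trans_lt (sm h0.le α))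
  have inv : ∀ α, F α ⊆ B ∧ #(F α) ≤ μ := by
    intro α
    induction α using WellFoundedLT.induction with
    | ind α ih =>
      obtain ⟨p1, p2⟩ := pre α ih
      rw [hF]
      exact ⟨union_subset p1 (y1 _ subset_union_left p1 p2),
        mk_un_le hμ p2 (y2 _ subset_union_left p1 p2)⟩
  obtain ⟨idx, hi⟩ := exists_idx F
  have hU : Free G b A (⋃ α, F α) := by
    refine h _ (iUnion_subset fun α => (inv α).1) ?_
    have := mk_bU_le h0.le univ F (by simp) fun α _ => (inv α).2.trans (Order.le_succ μ)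
    simpa using this
  obtain ⟨f, hf⟩ := cl hκ idx (fun t => Order.lt_succ_iff.2 ((mk_le_mk_of_subset
    (s := {x ∈ ⋃ α, F α | idx x = t}) (t := F t)
    fun x hx => hx.2 ▸ (hi x).1 hx.1).trans (inv t).2)) hU
  obtain ⟨γ, g1, g2⟩ := cp hκ h0 f (Classical.arbitrary _)
  obtain ⟨p1, p2⟩ := pre γ fun β _ => inv β
  have sub : (X ∪ ⋃ β ∈ Iio γ, F β) ⊆ {x ∈ ⋃ α, F α | idx x < γ} := by
    rintro x (hx | hx)
    · have : x ∈ F (Classical.arbitrary _) := by rw [hF]; exact Or.inl (Or.inl hx)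
      exact ⟨mem_iUnion.2 ⟨_, this⟩, ((hi x).2 _ this).trans_lt g1⟩
    · simp only [mem_iUnion] at hx
      obtain ⟨β, hβ, hx⟩ := hx
      exact ⟨mem_iUnion.2 ⟨_, hx⟩, ((hi x).2 _ hx).trans_lt hβ⟩
  refine y3 _ subset_union_left p1 p2 ((hf γ g2).sub (fun x hx hA => ⟨?_, ?_⟩)
    (union_subset_union_right _ sub))
  · exact mem_iUnion.2 ⟨γ, by rw [hF]; exact Or.inr hx⟩
  · rintro (h1 | h1)
    · exact hA (Or.inl h1)
    · exact hA (Or.inr (Or.inr (mem_biUnion (t := F) h1.2 ((hi x).1 h1.1))))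

end Pool.Agent.H10.Col
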