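import Mathlib
import Pool.Agent.H10.Col3

set_option autoImplicit false

namespace Pool.Agent.H10.Col

open Set Cardinal

universe u
variable {V : Type u}

lemma free_matrix {G : SimpleGraph V} {b : ℕ} {A B : Set V} {T : Type u} [LinearOrder T]
    [WellFoundedLT T] [Nonempty T] (μ : T → Cardinal.{u}) (ρ : Cardinal.{u}) (hρ : ℵ₀ ≤ ρ)
    (hT : #T ≤ ρ) (hρμ : ∀ i, ρ ≤ μ i) (hmono : Monotone μ) (W : T → Set V)
    (hW : ∀ i, W i ⊆ B ∧ #(W i) ≤ μ i) (hcov : B ⊆ ⋃ i, W i)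
    (h : ∀ i, ∀ Y ⊆ B, #Y ≤ Order.succ (μ i) → Free G b A Y) : Free G b A B := by
  classical
  have hμ : ∀ i, ℵ₀ ≤ μ i := fun i => hρ.trans (hρμ i)
  choose! st s1 s2 s3 s4 using fun i => strongify (hμ i) (h i)
  have : ∀ A' B' : Set V, ∃ r, IsWellOrder V r ∧ (Free G b A' B' → Wit G b A' B' r) := by
    intro A' B'
    by_cases h1 : Free G b A' B'
    · obtain ⟨r, hr⟩ := h1
      exact ⟨r, hr.1, fun _ => hr⟩
    · exact ⟨WellOrderingRel, inferInstance, fun h => absurd h h1⟩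
  choose w w1 w2 using this
  let F : Set V → Set V → V → Set V := fun A' B' x =>
    {y | y ∈ bk G A' B' (w A' B') x ∧ y ∈ B ∧ x ∈ B' ∧ x ∉ A' ∧ Free G b A' B'}
  have Ffin : ∀ A' B' x, (F A' B' x).Finite := by
    intro A' B' x
    rcases (F A' B' x).eq_empty_or_nonempty with h1 | ⟨y, -, -, h1, h2, h3⟩
    · rw [h1]; exact finite_empty
    · exact (finite_of_encard_le_coe ((w2 _ _ h3).2 x h1 h2)).subset fun y hy => hy.1
  let nx : (T → Set V) × (V → Set V) → T → Set V := fun p j =>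
    st j (W j ∪ ((⋃ i ∈ Iic j, p.1 i) ∪ ⋃ x ∈ p.1 j, p.2 x))
  let S : ℕ → (T → Set V) × (V → Set V) := fun n =>
    Nat.rec (fun _ => ∅, fun _ => ∅)
      (fun _ p => (nx p, fun x => p.2 x ∪ ⋃ i ∈ (univ : Set T), F (A ∪ p.1 i) (nx p i) x)) n
  let C : ℕ → T → Set V := fun n => (S n).1
  let K : ℕ → V → Set V := fun n => (S n).2
  have hC : ∀ n j, C (n + 1) j = st j (W j ∪ ((⋃ i ∈ Iic j, C n i) ∪ ⋃ x ∈ C n j, K n x)) :=
    fun _ _ => rfl
  have hK : ∀ n x, K (n + 1) x =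
      K n x ∪ ⋃ i ∈ (univ : Set T), F (A ∪ C n i) (C (n + 1) i) x := fun _ _ => rfl
  have C0 : ∀ j, C 0 j = ∅ := fun _ => rfl
  have invK : ∀ n x, K n x ⊆ B ∧ #(K n x) ≤ ρ := by
    intro n
    induction n with
    | zero => intro x; exact ⟨empty_subset _, by simp [K, S]⟩
    | succ n ih =>
      intro x
      rw [hK]
      exact ⟨union_subset (ih x).1 (iUnion₂_subset fun i _ y hy => hy.2.1),
        mk_un_le hρ (ih x).2 (mk_bU_le hρ _ _ (by simpa using hT)
          fun i _ => (Ffin _ _ _).lt_aleph0.le.trans hρ)⟩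
  have pre : ∀ n, (∀ j, C n j ⊆ B ∧ #(C n j) ≤ μ j) → ∀ j,
      (W j ∪ ((⋃ i ∈ Iic j, C n i) ∪ ⋃ x ∈ C n j, K n x)) ⊆ B ∧
      #(W j ∪ ((⋃ i ∈ Iic j, C n i) ∪ ⋃ x ∈ C n j, K n x) : Set V) ≤ μ j := by
    intro n ih j
    refine ⟨union_subset (hW j).1 (union_subset (iUnion₂_subset fun i _ => (ih i).1)
      (iUnion₂_subset fun x _ => (invK n x).1)), mk_un_le (hμ j) (hW j).2 (mk_un_le (hμ j) ?_ ?_)⟩
    · exact mk_bU_le (hμ j) _ _ ((mk_set_le _).trans (hT.trans (hρμ j)))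
        fun i hi => (ih i).2.trans (hmono hi)
    · exact mk_bU_le (hμ j) _ _ (ih j).2 fun x _ => (invK n x).2.trans (hρμ j)
  have invC : ∀ n j, C n j ⊆ B ∧ #(C n j) ≤ μ j := by
    intro n
    induction n with
    | zero => intro j; rw [C0]; simp
    | succ n ih =>
      intro j
      obtain ⟨p1, p2⟩ := pre n ih j
      exact ⟨s2 j _ p1 p2, s3 j _ p1 p2⟩
  have up : ∀ n j, (W j ∪ ((⋃ i ∈ Iic j, C n i) ∪ ⋃ x ∈ C n j, K n x)) ⊆ C (n + 1) j :=
    fun n j => s1 j _ (pre n (invC n) j).1 (pre n (invC n) j).2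
  have fr : ∀ n j, Free G b (A ∪ C n j) (C (n + 1) j) := by
    intro n j
    cases n with
    | zero =>
      rw [C0, union_empty]
      exact h j _ (invC (0 + 1) j).1 ((invC (0 + 1) j).2.trans (Order.le_succ _))
    | succ n =>
      exact s4 j _ (pre n (invC n) j).1 (pre n (invC n) j).2 _ (invC (n + 1 + 1) j).1
        (invC (n + 1 + 1) j).2
  have up1 : ∀ n i j, i ≤ j → C n i ⊆ C (n + 1) j := fun n i j hij x hx =>
    up n j (Or.inr (Or.inl (mem_biUnion (t := C n) hij hx)))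
  have monoC : ∀ j, Monotone fun n => C n j := fun j =>
    monotone_nat_of_le_succ fun n => up1 n j j le_rfl
  have monoK : ∀ x, Monotone fun n => K n x := fun x =>
    monotone_nat_of_le_succ fun n => subset_union_left
  let D : T → Set V := fun j => ⋃ n, C n j
  have main : ∀ i, Free G b (A ∪ ⋃ j < i, D j) (D i) := by
    intro i
    obtain ⟨idx, hi⟩ := exists_idx fun n => C (n + 1) i
    have hD : ∀ x ∈ D i, x ∈ ⋃ n, C (n + 1) i := by
      intro x hx
      obtain ⟨n, hn⟩ := mem_iUnion.1 hx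
      exact mem_iUnion.2 ⟨n, monoC i (Nat.le_succ n) hn⟩
    let r : ℕ → V → V → Prop := fun n => w (A ∪ C n i) (C (n + 1) i)
    have hs := lexo idx r fun n => w1 _ _
    have nA : ∀ x, x ∉ A → x ∉ A ∪ C (idx x) i := by
      rintro x hA (h1 | h1)
      · exact hA h1
      · rcases hn : idx x with _ | n
        · rw [hn, C0] at h1; exact h1
        · rw [hn] at h1
          have := (hi x).2 n h1
          omega
    have sub : ∀ x, bk G A (D i) (fun y x => idx y < idx x ∨ (idx y = idx x ∧ r (idx x) y x)) x ⊆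
        bk G (A ∪ C (idx x) i) (C (idx x + 1) i) (r (idx x)) x := by
      rintro x y ⟨hy, h1 | ⟨h1, h2 | h2⟩⟩
      · exact ⟨hy, Or.inl (Or.inl h1)⟩
      · exact ⟨hy, Or.inl (Or.inr (monoC i (Nat.succ_le_of_lt h2) ((hi y).1 (hD y h1))))⟩
      · exact ⟨hy, Or.inr ⟨h2.1 ▸ (hi y).1 (hD y h1), h2.2⟩⟩
    have wit : Wit G b A (D i) fun y x => idx y < idx x ∨ (idx y = idx x ∧ r (idx x) y x) :=
      ⟨hs, fun x hx hA => (encard_le_encard (sub x)).trans
        ((w2 _ _ (fr (idx x) i)).2 x ((hi x).1 (hD x hx)) (nA x hA))⟩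
    have hsub : (⋃ j < i, D j) ⊆ D i := by
      refine iUnion₂_subset fun j hj => iUnion_subset fun n x hx => ?_
      exact mem_iUnion.2 ⟨n + 1, up1 n j i hj.le hx⟩
    refine wit.closed hsub ?_
    intro x hx hA y hy hxy hr
    have hxi := hsub hx
    simp only [mem_iUnion] at hx
    obtain ⟨j, hj, hx⟩ := hx
    obtain ⟨n, hn⟩ := mem_iUnion.1 hx
    have yB : y ∈ B := by
      obtain ⟨m, hm⟩ := mem_iUnion.1 hy
      exact (invC m i).1 hm
    have y1 : y ∈ K (idx x + 1) x := by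
      rw [hK]
      exact Or.inr (mem_biUnion (t := fun i => F (A ∪ C (idx x) i) (C (idx x + 1) i) x)
        (mem_univ i) ⟨sub x ⟨hxy, Or.inr ⟨hy, hr⟩⟩, yB, (hi x).1 (hD x hxi), nA x hA, fr _ i⟩)
    have y2 : y ∈ C (max n (idx x + 1) + 1) j :=
      up _ j (Or.inr (Or.inr (mem_biUnion (t := K (max n (idx x + 1)))
        (monoC j (le_max_left _ _) hn) (monoK x (le_max_right _ _) y1))))
    exact mem_biUnion (t := D) hj (mem_iUnion.2 ⟨max n (idx x + 1) + 1, y2⟩)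
  refine (glueU D main).sub (fun x hx hA => ⟨?_, hA⟩) subset_rfl
  obtain ⟨i, hi⟩ := mem_iUnion.1 (hcov hx)
  exact mem_iUnion.2 ⟨i, mem_iUnion.2 ⟨1, up 0 i (Or.inl hi)⟩⟩

lemma free_singular {G : SimpleGraph V} {b : ℕ} {A B : Set V} (hκ : (#B).IsSingular)
    (h : ∀ Y ⊆ B, #Y < #B → Free G b A Y) (h0 : ℵ₀ < #B) : Free G b A B := by
  obtain ⟨e⟩ : Nonempty ((#B).ord.ToType ≃ B) := Cardinal.eq.1 (by simp)
  obtain ⟨s, hs, hc⟩ := Order.exists_cof_eq (#B).ord.ToType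
  rw [Ordinal.cof_toType] at hc
  have hne : Nonempty (#B).ord.ToType := by
    rw [← mk_ne_zero_iff]; simpa using hκ.pos.ne'
  have hne' : Nonempty s := hs.nonempty.to_subtype
  refine free_matrix (T := s) (fun i => max (max #s ℵ₀) #(Iic (i : (#B).ord.ToType)))
    (max #s ℵ₀) (le_max_right _ _) (le_max_left _ _) (fun i => le_max_left _ _)
    (fun i j hij => max_le_max le_rfl (mk_le_mk_of_subset (Iic_subset_Iic.2 hij)))
    (fun i => (fun t => (e t : V)) '' Iic (i : (#B).ord.ToType)) (fun i => ⟨?_, ?_⟩) ?_ ?_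
  · rintro _ ⟨t, -, rfl⟩; exact (e t).2
  · exact mk_image_le.trans (le_max_right _ _)
  · intro x hx
    obtain ⟨i, hi, hi'⟩ := hs (e.symm ⟨x, hx⟩)
    exact mem_iUnion.2 ⟨⟨i, hi⟩, _, hi', by simp⟩
  · intro i Y hY hYc
    refine h Y hY (hYc.trans_lt (hκ.isSuccLimit.succ_lt ?_))
    exact max_lt (max_lt (hc ▸ hκ.cof_ord_lt) h0) (sm h0.le _)

theorem ex_all (G : SimpleGraph V) (b : ℕ) (κ : Cardinal.{u}) :
    ∀ A B : Set V, #B = κ → Disjoint A B → ¬ Free G b A B → Ex G b A B := by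
  induction κ using WellFoundedLT.induction with
  | ind κ ih =>
    rintro A B rfl hd h
    by_cases h0 : #B ≤ ℵ₀
    · exact ex_countable hd (le_aleph0_iff_set_countable.1 h0) h
    push Not at h0
    rcases isRegular_or_isSingular h0.le with hκ | hκ
    · exact ex_regular hd hκ h0 (fun A' B' h' => ih _ h' A' B' rfl) h
    · have : ¬ ∀ Y ⊆ B, #Y < #B → Free G b A Y := fun h' => h (free_singular hκ h' h0)
      push Not at this
      obtain ⟨Y, y1, y2, y3⟩ := this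
      exact (ih _ y2 A Y rfl (hd.mono_right y1) y3).up y1

end Pool.Agent.H10.Col
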