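import Mathlib

set_option autoImplicit false

namespace Pool.Agent.H10.Conn

noncomputable def sweep (L : List (ℕ × ℕ)) (A : ℕ) : ℕ → ℕ :=
  List.rec (fun m => m) (fun p _ r m =>
    cond (Nat.beq (Nat.land 1 (Nat.shiftRight m p.1)) 0) (r m) (r (Nat.lor m (Nat.land p.2 A)))) L

noncomputable def iter (L : List (ℕ × ℕ)) (A k : ℕ) : ℕ → ℕ :=
  Nat.rec (fun m => m) (fun _ r m => cond (Nat.beq m A) m (r (sweep L A m))) k

theorem sweep_cons (p : ℕ × ℕ) (L : List (ℕ × ℕ)) (A m : ℕ) :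
    sweep (p :: L) A m = sweep L A (if m.testBit p.1 then m ||| (p.2 &&& A) else m) := by
  show cond (Nat.beq (1 &&& (m >>> p.1)) 0) (sweep L A m) (sweep L A (m ||| (p.2 &&& A))) = _
  unfold Nat.testBit
  by_cases h : 1 &&& (m >>> p.1) = 0
  · rw [h]; simp
  · have : Nat.beq (1 &&& (m >>> p.1)) 0 = false := by
      cases h' : Nat.beq (1 &&& (m >>> p.1)) 0
      · rfl
      · exact absurd (Nat.eq_of_beq_eq_true h') h
    rw [this, if_pos (by simpa using h)]
    rfl

theorem sweep_inv (R : ℕ → Prop) (A : ℕ) : ∀ (L : List (ℕ × ℕ)),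
    (∀ p ∈ L, R p.1 → ∀ w, p.2.testBit w → A.testBit w → R w) →
    ∀ m, (∀ v, m.testBit v → R v) → ∀ v, (sweep L A m).testBit v → R v := by
  intro L
  induction L with
  | nil => intro _ m hm; exact hm
  | cons p L ih =>
    intro hL m hm
    rw [sweep_cons]
    refine ih (fun q hq => hL q (List.mem_cons_of_mem _ hq)) _ ?_
    intro v hv
    split_ifs at hv with h
    · rw [Nat.testBit_or, Nat.testBit_and, Bool.or_eq_true, Bool.and_eq_true] at hv
      rcases hv with hv | hv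
      · exact hm v hv
      · exact hL p List.mem_cons_self (hm _ h) v hv.1 hv.2
    · exact hm v hv

theorem iter_inv (R : ℕ → Prop) (A : ℕ) (L : List (ℕ × ℕ))
    (hL : ∀ p ∈ L, R p.1 → ∀ w, p.2.testBit w → A.testBit w → R w) :
    ∀ k m, (∀ v, m.testBit v → R v) → ∀ v, (iter L A k m).testBit v → R v := by
  intro k
  induction k with
  | zero => intro m hm; exact hm
  | succ k ih =>
    intro m hm
    show ∀ v, (cond (Nat.beq m A) m (iter L A k (sweep L A m))).testBit v → R v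
    cases Nat.beq m A
    · exact ih _ (sweep_inv R A L hL m hm)
    · exact hm

theorem conn_of {n : ℕ} (G : SimpleGraph (Fin n)) (L : List (ℕ × ℕ))
    (hL : ∀ p ∈ L, ∀ v w : Fin n, v.1 = p.1 → p.2.testBit w.1 → G.Adj v w)
    (S : Set (Fin n)) (A : ℕ) (hA : ∀ v : Fin n, v ∈ S ↔ A.testBit v.1 = true) (hAn : A < 2 ^ n)
    (r : Fin n) (hr : r ∈ S) (k : ℕ) (h : iter L A k (2 ^ r.1) = A) :
    (G.induce S).Connected := by
  let R : ℕ → Prop := fun v => ∃ (x : Fin n) (hx : x ∈ S), x.1 = v ∧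
    (G.induce S).Reachable ⟨r, hr⟩ ⟨x, hx⟩
  have key := iter_inv R A L (by
    rintro p hp ⟨x, hx, hxv, hreach⟩ w hw hwA
    have hwn : w < n := by
      by_contra hc
      rw [Nat.testBit_lt_two_pow (lt_of_lt_of_le hAn (Nat.pow_le_pow_right (by norm_num)
        (by omega)))] at hwA
      exact absurd hwA (by simp)
    have hwS : (⟨w, hwn⟩ : Fin n) ∈ S := (hA _).2 hwA
    have e : (G.induce S).Adj ⟨x, hx⟩ ⟨⟨w, hwn⟩, hwS⟩ := hL p hp x ⟨w, hwn⟩ hxv hw
    exact ⟨⟨w, hwn⟩, hwS, rfl, hreach.trans e.reachable⟩) k (2 ^ r.1) (by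
    intro v hv
    rw [Nat.testBit_two_pow] at hv
    exact ⟨r, hr, by simpa using hv, SimpleGraph.Reachable.refl _⟩)
  rw [h] at key
  rw [SimpleGraph.connected_iff_exists_forall_reachable]
  refine ⟨⟨r, hr⟩, ?_⟩
  rintro ⟨x, hx⟩
  obtain ⟨y, hy, hyx, hreach⟩ := key x.1 ((hA x).1 hx)
  obtain rfl : y = x := Fin.ext hyx
  exact hreach

/-- the mask of `Fin n` without `x` and `y` (either may be `≥ n`). -/
def mask (n x y : ℕ) : ℕ := (2 ^ n - 1) &&& ((2 ^ (n + 1) - 1) ^^^ (2 ^ x ||| 2 ^ y))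

def root (x y : ℕ) : ℕ := if x ≠ 0 ∧ y ≠ 0 then 0 else if x ≠ 1 ∧ y ≠ 1 then 1 else 2

theorem mask_bit (n x y v : ℕ) (hv : v < n) :
    (mask n x y).testBit v = true ↔ v ≠ x ∧ v ≠ y := by
  simp only [mask, Nat.testBit_and, Nat.testBit_xor, Nat.testBit_or, Nat.testBit_two_pow_sub_one,
    Nat.testBit_two_pow]
  have h1 : v < n + 1 := by omega
  simp only [hv, h1, decide_true, Bool.true_and]
  by_cases h2 : x = v <;> by_cases h3 : y = v <;> simp [h2, h3, eq_comm]

theorem three_conn {n : ℕ} (hn : 3 ≤ n) (G : SimpleGraph (Fin n)) (L : List (ℕ × ℕ))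
    (hL : ∀ p ∈ L, ∀ v w : Fin n, v.1 = p.1 → p.2.testBit w.1 → G.Adj v w) (k : ℕ)
    (h : ∀ y < n + 1, ∀ x < y + 1, iter L (mask n x y) k (2 ^ root x y) = mask n x y)
    (S : Finset (Fin n)) (hS : S.card < 3) : (G.induce ((↑S : Set (Fin n))ᶜ)).Connected := by
  have main : ∀ x y, x ≤ y → y ≤ n → (∀ v : Fin n, v ∈ S ↔ v.1 = x ∨ v.1 = y) →
      (G.induce ((↑S : Set (Fin n))ᶜ)).Connected := by
    intro x y hxy hy hv
    have hr : root x y < n := by unfold root; split_ifs <;> omega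
    have hA : ∀ v : Fin n, v ∈ ((↑S : Set (Fin n))ᶜ) ↔ (mask n x y).testBit v.1 = true := by
      intro v
      rw [mask_bit n x y v.1 v.2, Set.mem_compl_iff, Finset.mem_coe, hv]
      tauto
    refine conn_of G L hL _ (mask n x y) hA ?_ ⟨root x y, hr⟩ ?_ k (h y (by omega) x (by omega))
    · have : 0 < 2 ^ n := by positivity
      exact lt_of_le_of_lt Nat.and_le_left (by omega)
    · rw [hA, mask_bit n x y _ hr]
      unfold root; split_ifs <;> omega
  have h3 : S.card = 0 ∨ S.card = 1 ∨ S.card = 2 := by omega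
  rcases h3 with h3 | h3 | h3
  · rw [Finset.card_eq_zero] at h3
    refine main n n le_rfl le_rfl (fun v => ?_)
    have := v.2
    simp [h3]; omega
  · obtain ⟨a, rfl⟩ := Finset.card_eq_one.1 h3
    refine main a a le_rfl a.2.le (fun v => ?_)
    simp [Fin.ext_iff]
  · obtain ⟨a, b, -, rfl⟩ := Finset.card_eq_two.1 h3
    rcases le_total a.1 b.1 with hab | hab
    · refine main a b hab b.2.le (fun v => ?_)
      simp [Fin.ext_iff]
    · refine main b a hab a.2.le (fun v => ?_)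
      simp [Fin.ext_iff, or_comm]

end Pool.Agent.H10.Conn
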