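import Mathlib

set_option autoImplicit false

namespace Pool.Agent.H10.Cubic

def act {V : Type} (σ : Fin 3 → V → V) : List (Fin 3) → V → V
  | [], v => v
  | i :: w, v => σ i (act σ w v)

def Good (K : ℕ) (l : List (Fin 3)) : Prop := l.IsChain (· ≠ ·) ∧ l.length ≤ K

def tog (K : ℕ) (i : Fin 3) : List (Fin 3) → List (Fin 3)
  | [] => if 0 < K then [i] else []
  | j :: t => if j = i then t else if t.length + 1 < K then i :: j :: t else j :: t

theorem tog_good (K : ℕ) (i : Fin 3) (l : List (Fin 3)) (h : Good K l) : Good K (tog K i l) := by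
  rcases l with _ | ⟨j, t⟩
  · rw [tog]
    split_ifs with h1
    · exact ⟨by simp, h1⟩
    · exact h
  · rw [tog]
    split_ifs with h1 h2
    · exact ⟨h.1.tail, by have := h.2; simp at this; omega⟩
    · exact ⟨List.IsChain.cons_cons (Ne.symm h1) h.1, by simp; omega⟩
    · exact h

theorem tog_tog (K : ℕ) (i : Fin 3) (l : List (Fin 3)) (h : Good K l) :
    tog K i (tog K i l) = l := by
  rcases l with _ | ⟨j, t⟩
  · by_cases h1 : 0 < K <;> simp [tog, h1]
  · by_cases h1 : j = i
    · subst h1
      have h2 := h.2
      simp only [List.length_cons] at h2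
      rcases t with _ | ⟨k, t⟩
      · simp [tog]; omega
      · have h3 : j ≠ k := (List.isChain_cons_cons.1 h.1).1
        simp only [List.length_cons] at h2
        simp [tog, h3.symm]; omega
    · by_cases h2 : t.length + 1 < K <;> simp [tog, h1, h2]

theorem tog_cons (K : ℕ) (i : Fin 3) (l : List (Fin 3)) (h : Good K (i :: l)) :
    tog K i l = i :: l := by
  have h2 := h.2
  simp only [List.length_cons] at h2
  rcases l with _ | ⟨k, t⟩
  · simp [tog]; omega
  · have h3 : i ≠ k := (List.isChain_cons_cons.1 h.1).1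
    simp only [List.length_cons] at h2
    simp [tog, h3.symm]; omega

def Om (K : ℕ) : Type := {l : List (Fin 3) // Good K l}

instance (K : ℕ) : Finite (Om K) :=
  Set.Finite.subset (List.finite_length_le (Fin 3) K) (fun _ h => h.2)

def gen (K : ℕ) (i : Fin 3) : Equiv.Perm (Om K) :=
  Function.Involutive.toPerm (fun l => ⟨tog K i l.1, tog_good K i l.1 l.2⟩)
    (fun l => Subtype.ext (tog_tog K i l.1 l.2))

theorem gen_mul (K : ℕ) (i : Fin 3) : gen K i * gen K i = 1 := by
  ext1 l
  exact Subtype.ext (tog_tog K i l.1 l.2)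

theorem word_nil (K : ℕ) : ∀ (w : List (Fin 3)), Good K w →
    (((w.map (gen K)).prod ⟨[], by simp [Good]⟩ : Om K)).1 = w := by
  intro w
  induction w with
  | nil => intro _; rfl
  | cons i w ih =>
    intro h
    have h1 : Good K w := ⟨h.1.tail, by have := h.2; simp at this; omega⟩
    rw [List.map_cons, List.prod_cons, Equiv.Perm.mul_apply]
    show tog K i _ = _
    rw [ih h1, tog_cons K i w h]

def VV (K : ℕ) : Type := {g : Equiv.Perm (Om K) // ∃ w : List (Fin 3), g = (w.map (gen K)).prod}

instance (K : ℕ) : Finite (VV K) := by unfold VV; infer_instance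

def sg (K : ℕ) (i : Fin 3) (g : VV K) : VV K :=
  ⟨gen K i * g.1, by obtain ⟨w, hw⟩ := g.2; exact ⟨i :: w, by simp [hw]⟩⟩

theorem act_val (K : ℕ) (g : VV K) : ∀ w : List (Fin 3),
    (act (sg K) w g).1 = (w.map (gen K)).prod * g.1 := by
  intro w
  induction w with
  | nil => simp [act]
  | cons i w ih => simp [act, sg, ih, mul_assoc]

theorem exists_system (K : ℕ) : ∃ (V : Type) (_ : Finite V) (σ : Fin 3 → V → V) (v0 : V),
    (∀ i v, σ i (σ i v) = v) ∧ (∀ v, ∃ w, v = act σ w v0) ∧
    ∀ v w w', Good K w → Good K w' → act σ w v = act σ w' v → w = w' := by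
  refine ⟨VV K, inferInstance, sg K, ⟨1, [], rfl⟩, ?_, ?_, ?_⟩
  · intro i v
    apply Subtype.ext
    simp [sg, ← mul_assoc, gen_mul]
  · intro v
    obtain ⟨w, hw⟩ := v.2
    exact ⟨w, Subtype.ext (by rw [act_val, hw]; simp)⟩
  · intro v w w' hw hw' h
    have h1 := congrArg Subtype.val h
    rw [act_val, act_val, mul_left_inj] at h1
    rw [← word_nil K w hw, ← word_nil K w' hw', h1]

def wd : List Bool → List (Fin 3)
  | [] => []
  | c :: b => ((wd b).headD 0 + (if c then 1 else 2)) :: wd b

theorem wd_length : ∀ b : List Bool, (wd b).length = b.length := by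
  intro b
  induction b with
  | nil => rfl
  | cons c b ih => simp [wd, ih]

theorem wd_chain : ∀ b : List Bool, (wd b).IsChain (· ≠ ·) := by
  intro b
  induction b with
  | nil => simp [wd]
  | cons c b ih =>
    rw [wd]
    rcases h : wd b with _ | ⟨j, t⟩
    · simp
    · rw [h] at ih
      refine List.IsChain.cons_cons ?_ ih
      have key : ∀ (c : Bool) (j : Fin 3), j + (if c then 1 else 2) ≠ j := by decide
      exact key c j

theorem wd_inj : Function.Injective wd := by
  intro b
  induction b with
  | nil =>
    intro b' h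
    cases b' with
    | nil => rfl
    | cons c b' => simp [wd] at h
  | cons c b ih =>
    intro b' h
    cases b' with
    | nil => simp [wd] at h
    | cons c' b' =>
      simp only [wd, List.cons.injEq] at h
      obtain rfl := ih h.2
      have h1 := add_left_cancel h.1
      have key : ∀ c c' : Bool, (if c then 1 else 2 : Fin 3) = (if c' then 1 else 2) → c = c' := by
        decide
      rw [key c c' h1]

end Pool.Agent.H10.Cubic
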