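import Mathlib

set_option autoImplicit false

namespace Pool.Agent.H10.Dist

theorem exists_walk {V : Type} (G : SimpleGraph V) (d : V → V → ℕ)
    (h0 : ∀ u v, d u v = 0 → u = v)
    (h1 : ∀ u v, d u v ≠ 0 → ∃ w, G.Adj u w ∧ d w v + 1 = d u v) :
    ∀ (k : ℕ) (u v : V), d u v = k → ∃ p : G.Walk u v, p.length = k := by
  intro k
  induction k with
  | zero =>
    intro u v h
    obtain rfl := h0 u v h
    exact ⟨.nil, rfl⟩
  | succ k ih =>
    intro u v h
    obtain ⟨w, hw, hd⟩ := h1 u v (by omega)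
    obtain ⟨p, hp⟩ := ih w v (by omega)
    exact ⟨.cons hw p, by simp [hp]⟩

theorem le_walk {V : Type} (G : SimpleGraph V) (d : V → V → ℕ)
    (h2 : ∀ v, d v v = 0) (h3 : ∀ u w v, G.Adj u w → d u v ≤ d w v + 1) :
    ∀ (u v : V) (p : G.Walk u v), d u v ≤ p.length := by
  intro u v p
  induction p with
  | nil => simp [h2]
  | cons h p ih =>
    simp only [SimpleGraph.Walk.length_cons]
    exact le_trans (h3 _ _ _ h) (by omega)

theorem dist_eq {V : Type} (G : SimpleGraph V) (d : V → V → ℕ)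
    (h0 : ∀ u v, d u v = 0 → u = v)
    (h1 : ∀ u v, d u v ≠ 0 → ∃ w, G.Adj u w ∧ d w v + 1 = d u v)
    (h2 : ∀ v, d v v = 0) (h3 : ∀ u w v, G.Adj u w → d u v ≤ d w v + 1) (u v : V) :
    G.dist u v = d u v := by
  obtain ⟨p, hp⟩ := exists_walk G d h0 h1 _ u v rfl
  refine le_antisymm (hp ▸ G.dist_le p) ?_
  obtain ⟨q, hq⟩ := p.reachable.exists_walk_length_eq_dist
  rw [← hq]
  exact le_walk G d h2 h3 u v q

theorem connected {V : Type} [Nonempty V] (G : SimpleGraph V) (d : V → V → ℕ)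
    (h0 : ∀ u v, d u v = 0 → u = v)
    (h1 : ∀ u v, d u v ≠ 0 → ∃ w, G.Adj u w ∧ d w v + 1 = d u v) : G.Connected := by
  refine ⟨fun u v => ?_⟩
  obtain ⟨p, _⟩ := exists_walk G d h0 h1 _ u v rfl
  exact p.reachable

end Pool.Agent.H10.Dist
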