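import Mathlib

namespace Pool.Agent.H10.Dom

open Finset PowerSeries

def T (d M k L : ℕ) : Finset (Fin k → ℕ) :=
  (Fintype.piFinset fun _ => Ico L M).filter fun a => ∀ i j, i < j → a i + d ≤ a j

lemma memT {d M k L : ℕ} {a : Fin k → ℕ} :
    a ∈ T d M k L ↔ (∀ j, L ≤ a j ∧ a j < M) ∧ ∀ i j, i < j → a i + d ≤ a j := by
  simp [T]

lemma rec1 (y : ℕ → ℂ) (d M k L : ℕ) (h : L < M) :
    ∑ a ∈ T d M (k + 1) L, ∏ j, y (a j) = y L * ∑ a ∈ T d M k (L + d), ∏ j, y (a j) +
      ∑ a ∈ T d M (k + 1) (L + 1), ∏ j, y (a j) := by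
  rw [← sum_filter_add_sum_filter_not _ (fun a => a 0 = L), mul_sum]
  congr 1
  · refine sum_nbij' Fin.tail (fun a => (Fin.cons L a : Fin (k + 1) → ℕ)) ?_ ?_ ?_ ?_ ?_
    · intro a ha
      obtain ⟨ha, h0⟩ := mem_filter.1 ha
      obtain ⟨h1, h2⟩ := memT.1 ha
      exact memT.2 ⟨fun j => ⟨h0 ▸ h2 0 j.succ (Fin.succ_pos j), (h1 j.succ).2⟩,
        fun i j hij => h2 _ _ (Fin.succ_lt_succ_iff.2 hij)⟩
    · intro a ha
      obtain ⟨h1, h2⟩ := memT.1 ha
      refine mem_filter.2 ⟨memT.2 ⟨fun j => ?_, fun i j hij => ?_⟩, rfl⟩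
      · cases j using Fin.cases with
        | zero => exact ⟨le_rfl, h⟩
        | succ j => exact ⟨(Nat.le_add_right _ _).trans (h1 j).1, (h1 j).2⟩
      · cases j using Fin.cases with
        | zero => exact absurd hij (Fin.not_lt_zero _)
        | succ j =>
          cases i using Fin.cases with
          | zero => exact (h1 j).1
          | succ i => exact h2 i j (Fin.succ_lt_succ_iff.1 hij)
    · intro a ha
      rw [← (mem_filter.1 ha).2]
      exact Fin.cons_self_tail a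
    · intro a _
      exact Fin.tail_cons _ _
    · intro a ha
      rw [Fin.prod_univ_succ, (mem_filter.1 ha).2]
      rfl
  · congr 1
    ext a
    rw [mem_filter, memT, memT]
    refine ⟨fun ⟨⟨h1, h2⟩, h3⟩ => ⟨fun j => ⟨?_, (h1 j).2⟩, h2⟩,
      fun ⟨h1, h2⟩ => ⟨⟨fun j => ⟨by have := h1 j; omega, (h1 j).2⟩, h2⟩, by have := h1 0; omega⟩⟩
    have := h1 0
    cases j using Fin.cases with
    | zero => omega
    | succ j => have := h2 0 j.succ (Fin.succ_pos j); omega

noncomputable def W (y : ℕ → ℂ) (d M L : ℕ) : ℂ⟦X⟧ := mk fun k => ∑ a ∈ T d M k L, ∏ j, y (a j)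

lemma rec2 (y : ℕ → ℂ) (d M L : ℕ) (h : L < M) :
    W y d M L = C (y L) * W y d M (L + d) * X + W y d M (L + 1) := by
  ext k
  cases k with
  | zero => simp [W, T]
  | succ k => simp [W, coeff_succ_mul_X, rec1 y d M k L h]

lemma newton (y : ℕ → ℂ) (d M : ℕ) (hd : d = 0 ∨ d = 1) (t : ℕ) : ∀ L, L + t = M →
    d⁄dX ℂ (W y d M L) = (mk fun i => ((-1) ^ d) ^ i * ∑ m ∈ Ico L M, y m ^ (i + 1)) * W y d M L := by
  induction t with
  | zero =>
    rintro L rfl
    have : (mk fun i => ((-1 : ℂ) ^ d) ^ i * ∑ m ∈ Ico L (L + 0), y m ^ (i + 1)) = 0 := by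
      ext i
      simp
    rw [this, zero_mul]
    ext k
    rw [coeff_derivative, W, coeff_mk, sum_eq_zero, zero_mul, map_zero]
    intro a ha
    have := (memT.1 ha).1 0
    omega
  | succ t ih =>
    intro L hL
    have h : L < M := by omega
    have i1 := ih (L + 1) (by omega)
    have r := rec2 y d M L h
    set Q := (mk fun i => ((-1 : ℂ) ^ d) ^ i * ∑ m ∈ Ico (L + 1) M, y m ^ (i + 1))
    let g : ℂ⟦X⟧ := mk fun i => ((-1 : ℂ) ^ d) ^ i * y L ^ (i + 1)
    have e : (mk fun i => ((-1 : ℂ) ^ d) ^ i * ∑ m ∈ Ico L M, y m ^ (i + 1)) = g + Q := by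
      ext i
      simp [g, Q, sum_eq_sum_Ico_succ_bot h, mul_add]
    have hg : g = C (y L) + (-1) ^ d * (C (y L) * g * X) := by
      have : (-1 : ℂ⟦X⟧) ^ d = C ((-1) ^ d) := by simp
      rw [this]
      ext i
      cases i with
      | zero => simp [g]
      | succ i =>
        rw [map_add, coeff_C_mul, coeff_succ_mul_X, coeff_C_mul, coeff_C]
        simp [g]
        ring
    have r' := congrArg (d⁄dX ℂ) r
    simp only [map_add, Derivation.leibniz, derivative_C, derivative_X, smul_eq_mul, i1] at r'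
    rw [e]
    rcases hd with rfl | rfl
    · have n0 : (1 - C (y L) * X : ℂ⟦X⟧) ≠ 0 := fun h0 => by
        simpa using congrArg constantCoeff h0
      refine mul_left_cancel₀ n0 ?_
      simp only [add_zero, pow_zero] at r r' hg
      linear_combination r' - Q * r - W y 0 M L * hg
    · rw [i1] at r'
      linear_combination r' - (g + Q) * r - W y 1 M (L + 1) * hg

lemma approx (k : ℕ) (u q : ℕ → ℂ) (t : ℝ) (ht : 0 < t) (u0 : u 0 = 1)
    (hu : ∀ n, u (n + 1) * (n + 1) = ∑ i ∈ range (n + 1), q i * u (n - i))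
    (hq : ∀ i, 1 ≤ i → i < k → ‖q i‖ ≤ t ^ (i + 1)) (hx : t ≤ ‖q 0‖) (n : ℕ) : n ≤ k →
    ‖q 0‖ * ‖u n - q 0 ^ n / n.factorial‖ ≤ n * t * ‖q 0‖ ^ n := by
  induction n using Nat.strong_induction_on with
  | _ n ih =>
    intro hn
    cases n with
    | zero => simp [u0]
    | succ n =>
      have x0 : 0 < ‖q 0‖ := ht.trans_le hx
      have ub : ∀ j ≤ n, ‖u j‖ ≤ (n + 1) * ‖q 0‖ ^ j := fun j hj => by
        have h1 := ih j (by omega) (by omega)
        have h2 : ‖u j - q 0 ^ j / j.factorial‖ ≤ n * ‖q 0‖ ^ j := by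
          refine le_of_mul_le_mul_left (h1.trans ?_) x0
          rw [← mul_assoc, mul_comm ‖q 0‖]
          gcongr
        have h3 : ‖q 0 ^ j / j.factorial‖ ≤ ‖q 0‖ ^ j := by
          rw [norm_div, norm_pow, Complex.norm_natCast]
          exact div_le_self (by positivity) (by exact_mod_cast j.factorial_pos)
        have := norm_sub_norm_le (u j) (q 0 ^ j / j.factorial)
        linarith
      have e : (u (n + 1) - q 0 ^ (n + 1) / (n + 1).factorial) * (n + 1) =
          q 0 * (u n - q 0 ^ n / n.factorial) + ∑ i ∈ range n, q (i + 1) * u (n - (i + 1)) := by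
        have : (n.factorial : ℂ) ≠ 0 := by exact_mod_cast n.factorial_ne_zero
        have : (n + 1 : ℂ) ≠ 0 := by exact_mod_cast n.succ_ne_zero
        rw [sub_mul, hu, sum_range_succ', Nat.factorial_succ]
        push_cast
        field_simp
        simp only [Nat.sub_zero]
        ring
      have b : ‖∑ i ∈ range n, q (i + 1) * u (n - (i + 1))‖ ≤ n * ((n + 1) * t * ‖q 0‖ ^ n) := by
        refine (norm_sum_le _ _).trans ((sum_le_card_nsmul _ _ _ fun i hi => ?_).trans_eq
          (by rw [card_range, nsmul_eq_mul]))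
        have hi := mem_range.1 hi
        rw [norm_mul]
        calc _ ≤ t ^ (i + 1 + 1) * ((n + 1) * ‖q 0‖ ^ (n - (i + 1))) :=
            mul_le_mul (hq _ (by omega) (by omega)) (ub _ (by omega)) (norm_nonneg _) (by positivity)
          _ = (n + 1) * t * (t ^ (i + 1) * ‖q 0‖ ^ (n - (i + 1))) := by ring
          _ ≤ (n + 1) * t * (‖q 0‖ ^ (i + 1) * ‖q 0‖ ^ (n - (i + 1))) := by gcongr
          _ = _ := by rw [← pow_add, Nat.add_sub_cancel' hi]
      have h1 := ih n (by omega) (by omega)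
      have h2 := (congrArg norm e).le.trans (norm_add_le _ _)
      rw [norm_mul, norm_mul, ← Nat.cast_succ, Complex.norm_natCast, Nat.cast_succ] at h2
      have h3 : ‖u (n + 1) - q 0 ^ (n + 1) / (n + 1).factorial‖ ≤ (n + 1) * t * ‖q 0‖ ^ n := by
        refine le_of_mul_le_mul_right (h2.trans ?_) (by positivity : (0 : ℝ) < n + 1)
        have : 0 ≤ t * ‖q 0‖ ^ n := by positivity
        nlinarith
      rw [pow_succ' ‖q 0‖, Nat.cast_succ]
      calc _ ≤ ‖q 0‖ * ((n + 1) * t * ‖q 0‖ ^ n) := by gcongr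
        _ = _ := by ring

lemma sym (k d : ℕ) (hd : d = 0 ∨ d = 1) (hk : 1 ≤ k) (y : ℕ → ℂ) (M : ℕ) (t : ℝ) (ht : 0 < t)
    (hq : ∀ j, 2 ≤ j → j ≤ k → ‖∑ m ∈ range M, y m ^ j‖ ≤ t ^ j)
    (hx : 2 * k * k.factorial * t ≤ ‖∑ m ∈ range M, y m‖) :
    ‖∑ m ∈ range M, y m‖ ^ k ≤ 2 * k.factorial * ‖∑ a ∈ T d M k 0, ∏ j, y (a j)‖ := by
  have f1 : (1 : ℝ) ≤ k.factorial := by exact_mod_cast k.factorial_pos
  have k1 : (1 : ℝ) ≤ k := by exact_mod_cast hk
  have := approx k (fun n => ∑ a ∈ T d M n 0, ∏ j, y (a j))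
    (fun i => ((-1) ^ d) ^ i * ∑ m ∈ range M, y m ^ (i + 1)) t ht (by simp [T]) (fun n => by
      have := congrArg (coeff n) (newton y d M hd M 0 (zero_add M))
      rw [coeff_derivative, coeff_mul, Nat.sum_antidiagonal_eq_sum_range_succ_mk] at this
      simpa [W] using this)
    (fun i h1 h2 => by simpa using hq (i + 1) (by omega) (by omega))
    (by
      simp only [pow_zero, zero_add, pow_one, one_mul]
      refine le_trans ?_ hx
      exact le_mul_of_one_le_left ht.le (by nlinarith)) k le_rfl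
  simp only [pow_zero, zero_add, pow_one, one_mul] at this
  generalize ∑ m ∈ range M, y m = p at *
  generalize ∑ a ∈ T d M k 0, ∏ j, y (a j) = s at *
  have x0 : 0 < ‖p‖ := lt_of_lt_of_le (by positivity) hx
  have h1 := norm_sub_norm_le (p ^ k / k.factorial) s
  rw [norm_sub_rev, norm_div, norm_pow, Complex.norm_natCast] at h1
  have h2 : 2 * k.factorial * ‖s - p ^ k / k.factorial‖ ≤ ‖p‖ ^ k := by
    refine le_of_mul_le_mul_left ?_ x0
    calc _ = 2 * k.factorial * (‖p‖ * ‖s - p ^ k / k.factorial‖) := by ring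
      _ ≤ 2 * k.factorial * (k * t * ‖p‖ ^ k) := by gcongr
      _ = (2 * k * k.factorial * t) * ‖p‖ ^ k := by ring
      _ ≤ _ := by gcongr
  have h3 := mul_le_mul_of_nonneg_left h1 (by positivity : (0 : ℝ) ≤ 2 * k.factorial)
  have h4 : 2 * (k.factorial : ℝ) * (‖p‖ ^ k / k.factorial) = 2 * ‖p‖ ^ k := by field_simp
  rw [mul_sub, h4] at h3
  linarith

end Pool.Agent.H10.Dom
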