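import Mathlib

namespace Pool.Agent.H10.Dom

open Finset Filter Topology Real

noncomputable def E (θ : ℝ) : ℂ := Complex.exp (θ * Complex.I)

lemma normE (θ : ℝ) : ‖E θ‖ = 1 := Complex.norm_exp_ofReal_mul_I θ

noncomputable def p (c : ℕ → ℝ) (M j : ℕ) (θ : ℝ) : ℂ := ∑ m ∈ range M, ((c m : ℂ) * E θ ^ m) ^ j

lemma pc (c : ℕ → ℝ) (M j : ℕ) : Continuous fun θ => ‖p c M j θ‖ ^ 2 := by
  unfold p E
  fun_prop

lemma pars (c : ℕ → ℝ) (M j : ℕ) (hj : 1 ≤ j) :
    ∫ θ in (0 : ℝ)..π, ‖p c M j θ‖ ^ 2 = π * ∑ m ∈ range M, (c m ^ j) ^ 2 := by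
  have e : ∀ θ, ‖p c M j θ‖ ^ 2 = ∑ m ∈ range M, ∑ n ∈ range M,
      c m ^ j * c n ^ j * cos ((((m : ℤ) - n) * j : ℤ) * θ) := fun θ => by
    have : ∀ m : ℕ, ((c m : ℂ) * E θ ^ m) ^ j =
        (c m ^ j : ℝ) * Complex.exp ((m * j * θ : ℝ) * Complex.I) := fun m => by
      rw [mul_pow, ← pow_mul, E, ← Complex.exp_nat_mul]
      push_cast
      ring_nf
    rw [Complex.sq_norm, Complex.normSq_apply, p, Complex.re_sum, Complex.im_sum, sum_mul_sum,
      sum_mul_sum, ← sum_add_distrib]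
    refine sum_congr rfl fun m _ => ?_
    rw [← sum_add_distrib]
    refine sum_congr rfl fun n _ => ?_
    simp only [this, Complex.re_ofReal_mul, Complex.im_ofReal_mul, Complex.exp_ofReal_mul_I_re,
      Complex.exp_ofReal_mul_I_im]
    push_cast
    rw [sub_mul, sub_mul, cos_sub]
    ring
  simp only [e]
  rw [intervalIntegral.integral_finsetSum fun _ _ => Continuous.intervalIntegrable (by fun_prop) _ _,
    mul_sum]
  refine sum_congr rfl fun m hm => ?_
  rw [intervalIntegral.integral_finsetSum fun _ _ => Continuous.intervalIntegrable (by fun_prop) _ _,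
    sum_eq_single m _ (fun h => absurd hm h)]
  · simp
    ring
  · intro n _ hn
    have : ((((m : ℤ) - n) * j : ℤ) : ℝ) ≠ 0 :=
      Int.cast_ne_zero.2 (mul_ne_zero (by omega) (by omega))
    rw [intervalIntegral.integral_const_mul, intervalIntegral.integral_comp_mul_left _ this,
      integral_cos, sin_int_mul_pi]
    simp

lemma abel {R : Type} [CommRing R] (a : ℕ → R) (z : R) (M : ℕ) :
    (1 - z) * ∑ n ∈ range M, a n * z ^ n =
      a 0 - a M * z ^ M + ∑ n ∈ range M, (a (n + 1) - a n) * z ^ (n + 1) := by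
  induction M with
  | zero => simp
  | succ M ih =>
    rw [sum_range_succ, sum_range_succ, mul_add, ih]
    ring

lemma abel' (a : ℕ → ℝ) (z : ℝ) (M : ℕ) : ∑ n ∈ range M, (a (n + 1) - a n) * z ^ n + a 0 =
    (1 - z) * ∑ n ∈ range M, a (n + 1) * z ^ n + a M * z ^ M := by
  induction M with
  | zero => simp
  | succ M ih =>
    rw [sum_range_succ, sum_range_succ]
    linear_combination ih

lemma abelb (a : ℕ → ℝ) (a0 : ∀ n, 0 ≤ a n) (n0 : ℕ) (hm : ∀ n, n0 ≤ n → a n ≤ a (n + 1)) (z : ℂ)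
    (r : ℝ) (hz : ‖z‖ = r) (r1 : r ≤ 1) (M : ℕ) : ‖1 - z‖ * ‖∑ n ∈ range M, (a n : ℂ) * z ^ n‖ ≤
      (1 - r) * ∑ n ∈ range M, a n * r ^ n + 2 * (a M * r ^ M) + 2 * ∑ n ∈ range n0, a n := by
  have r0 : 0 ≤ r := hz ▸ norm_nonneg z
  rw [← norm_mul, abel, abel]
  have h1 : ‖∑ n ∈ range M, ((a (n + 1) : ℂ) - a n) * z ^ (n + 1)‖ ≤
      ∑ n ∈ range M, ((a (n + 1) - a n) * r ^ (n + 1) + 2 * if n ∈ range n0 then a n else 0) := by
    refine norm_sum_le_of_le _ fun n _ => ?_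
    rw [norm_mul, norm_pow, hz, ← Complex.ofReal_sub, Complex.norm_real, Real.norm_eq_abs]
    have h2 : 0 ≤ r ^ (n + 1) := by positivity
    split_ifs with h
    · have h3 : r ^ (n + 1) ≤ 1 := pow_le_one₀ r0 r1
      have h4 : |a (n + 1) - a n| ≤ a (n + 1) - a n + 2 * a n :=
        abs_le.2 ⟨by linarith [a0 (n + 1)], by linarith [a0 n]⟩
      nlinarith [mul_le_mul_of_nonneg_right h4 h2, a0 n]
    · rw [abs_of_nonneg (sub_nonneg.2 (hm n (by simpa using h)))]
      simp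
  have h2 : ∑ n ∈ range M, (if n ∈ range n0 then a n else 0) ≤ ∑ n ∈ range n0, a n := by
    rw [sum_ite_mem]
    exact sum_le_sum_of_subset_of_nonneg inter_subset_right fun n _ _ => a0 n
  rw [sum_add_distrib, ← mul_sum] at h1
  have h3 : ‖(a 0 : ℂ) - a M * z ^ M‖ ≤ a 0 + a M * r ^ M := (norm_sub_le _ _).trans_eq (by
    rw [norm_mul, norm_pow, hz, Complex.norm_real, Complex.norm_real, norm_of_nonneg (a0 _),
      norm_of_nonneg (a0 _)])
  linarith [norm_add_le ((a 0 : ℂ) - a M * z ^ M) (∑ n ∈ range M, ((a (n + 1) : ℂ) - a n) * z ^ (n + 1))]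

lemma low (r θ : ℝ) (h1 : 1 / 2 ≤ r) (h2 : r < 1) (t0 : 0 < θ) (t1 : θ < π) (s : ℝ) (s0 : 0 ≤ s)
    (s1 : s ≤ 1) : 1 - r ≤ ‖1 - r * E θ‖ * (3 * (1 - r) / θ) ^ s := by
  have u0 : 0 < 1 - r := by linarith
  have a1 : 1 - r ≤ ‖1 - r * E θ‖ := by
    have := norm_sub_norm_le 1 (r * E θ)
    rwa [norm_mul, normE, norm_one, Complex.norm_real, norm_of_nonneg (by linarith), mul_one] at this
  have a2 : θ / 3 ≤ ‖1 - r * E θ‖ := by
    refine le_of_sq_le_sq ?_ (norm_nonneg _)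
    have c1 := cos_le_one_sub_mul_cos_sq (x := θ) (by rw [abs_of_pos t0]; exact t1.le)
    have c2 : 1 / 8 ≤ 2 / π ^ 2 := by
      rw [le_div_iff₀ (by positivity)]
      nlinarith [pi_le_four, pi_pos]
    have c3 := mul_le_mul_of_nonneg_right c2 (sq_nonneg θ)
    rw [Complex.sq_norm, Complex.normSq_apply]
    simp only [E, Complex.sub_re, Complex.sub_im, Complex.one_re, Complex.one_im,
      Complex.re_ofReal_mul, Complex.im_ofReal_mul, Complex.exp_ofReal_mul_I_re,
      Complex.exp_ofReal_mul_I_im]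
    have c4 : (1 - r * cos θ) * (1 - r * cos θ) + (0 - r * sin θ) * (0 - r * sin θ) =
        (1 - r) ^ 2 + 2 * r * (1 - cos θ) := by
      linear_combination r ^ 2 * sin_sq_add_cos_sq θ
    rw [c4]
    nlinarith [sq_nonneg (1 - r), sq_nonneg θ, cos_le_one θ]
  rcases le_total (3 * (1 - r) / θ) 1 with h | h
  · calc 1 - r = θ / 3 * (3 * (1 - r) / θ) := by field_simp
      _ ≤ _ := mul_le_mul a2 (self_le_rpow_of_le_one (by positivity) h s1) (by positivity)
        (norm_nonneg _)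
  · exact a1.trans (le_mul_of_one_le_right (norm_nonneg _) (one_le_rpow h s0))

theorem core (k : ℕ) (hk : 2 ≤ k) (ε : ℝ) (e0 : 0 < ε) (e1 : ε ≤ 1) (K B : ℝ) (K1 : 1 ≤ K)
    (B0 : 0 ≤ B) (ind a : ℕ → ℝ) (i0 : ∀ m, 0 ≤ ind m) (i1 : ∀ m, ind m ^ 2 = ind m)
    (a0 : ∀ n, 0 ≤ a n) (n0 : ℕ) (hm : ∀ n, n0 ≤ n → a n ≤ a (n + 1)) (a1 : 1 ≤ a n0)
    (h1 : ∀ M (r : ℝ), 0 ≤ r → ∑ n ∈ range M, a n * r ^ n ≤ (∑ m ∈ range M, ind m * r ^ m) ^ k)
    (h2 : ∀ M (r θ t : ℝ), 0 ≤ r → r ≤ 1 → 0 < t →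
      (∀ j, 2 ≤ j → j ≤ k → ‖p (fun m => ind m * r ^ m) M j θ‖ ≤ t ^ j) →
      K * t ≤ ‖p (fun m => ind m * r ^ m) M 1 θ‖ → ‖p (fun m => ind m * r ^ m) M 1 θ‖ ^ k ≤
        K * (‖∑ n ∈ range M, (a n : ℂ) * (r * E θ) ^ n‖ + M ^ k * r ^ M))
    (h5 : ∀ M (r : ℝ), 0 ≤ r → r < 1 → ∑ m ∈ range M, ind m * r ^ m ≤ B * (1 - r) ^ (ε - 2 / k)) :
    False := by
  have i2 : ∀ m, ind m ≤ 1 := fun m => by nlinarith [i0 m, i1 m]
  have k2 : (2 : ℝ) ≤ k := by exact_mod_cast hk
  let Φ : ℝ → ℝ := fun r => ⨆ M, ∑ m ∈ range M, ind m * r ^ m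
  have ge : ∀ M (r : ℝ), 0 ≤ r → r < 1 → ∑ m ∈ range M, ind m * r ^ m ≤ (1 - r)⁻¹ :=
    fun M r r0 r1 => (sum_le_sum fun m _ => mul_le_of_le_one_left (by positivity) (i2 m)).trans
      (sum_le_hasSum _ (fun _ _ => by positivity) (hasSum_geometric_of_lt_one r0 r1))
  have le : ∀ M (r : ℝ), 0 ≤ r → r < 1 → ∑ m ∈ range M, ind m * r ^ m ≤ Φ r := fun M r r0 r1 =>
    le_ciSup (f := fun M => ∑ m ∈ range M, ind m * r ^ m) ⟨_, Set.forall_mem_range.2 fun M =>
      ge M r r0 r1⟩ M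
  have p0 : ∀ r : ℝ, 0 ≤ r → r < 1 → 0 ≤ Φ r := fun r r0 r1 => by simpa using le 0 r r0 r1
  have h1' : ∀ M (r : ℝ), 0 ≤ r → r < 1 → ∑ n ∈ range M, a n * r ^ n ≤ Φ r ^ k := fun M r r0 r1 =>
    (h1 M r r0).trans (pow_le_pow_left₀ (sum_nonneg fun m _ => mul_nonneg (i0 m) (by positivity))
      (le M r r0 r1) k)
  have a2 : ∀ n, n0 ≤ n → 1 ≤ a n := fun n hn => by
    induction n, hn using Nat.le_induction with
    | base => exact a1
    | succ n hn ih => exact ih.trans (hm n hn)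
  have lo : ∀ r : ℝ, 1 / 2 ≤ r → r < 1 → (1 / 2) ^ n0 ≤ (1 - r) * Φ r ^ k := fun r r0 r1 => by
    have r2 : 0 ≤ r := by linarith
    have : ∀ M, n0 ≤ M → r ^ n0 - r ^ M ≤ (1 - r) * ∑ n ∈ range M, a n * r ^ n := fun M hM => by
      induction M, hM using Nat.le_induction with
      | base =>
        rw [sub_self]
        exact mul_nonneg (by linarith) (sum_nonneg fun n _ => mul_nonneg (a0 n) (by positivity))
      | succ n hn ih =>
        have : 0 ≤ (1 - r) * r ^ n := mul_nonneg (by linarith) (by positivity)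
        rw [sum_range_succ, pow_succ]
        nlinarith [mul_le_mul_of_nonneg_left (a2 n hn) this]
    refine (pow_le_pow_left₀ (by norm_num) r0 _).trans (le_of_tendsto (x := atTop)
      (by simpa using (tendsto_pow_atTop_nhds_zero_of_lt_one r2 r1).const_sub (r ^ n0)) ?_)
    filter_upwards [eventually_ge_atTop n0] with M hM
    exact (this M hM).trans (mul_le_mul_of_nonneg_left (h1' M r r2 r1) (by linarith))
  obtain ⟨L, L1, hL⟩ : ∃ L : ℝ, 1 ≤ L ∧ ∀ x, (1 / 2) ^ n0 ≤ x →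
      K * (x + 4 + 2 * ∑ n ∈ range n0, a n) ≤ L * x := by
    have : 0 ≤ ∑ n ∈ range n0, a n := sum_nonneg fun n _ => a0 n
    refine ⟨K * (1 + (4 + 2 * ∑ n ∈ range n0, a n) * 2 ^ n0), ?_, fun x hx => ?_⟩
    · exact one_le_mul_of_one_le_of_one_le K1 (le_add_of_nonneg_right (by positivity))
    · rw [one_div, inv_pow, inv_le_iff_one_le_mul₀ (by positivity)] at hx
      rw [mul_assoc]
      gcongr
      nlinarith
  let γ : ℝ := (1 - ε / 2) / k
  have g0 : 0 ≤ γ := div_nonneg (by linarith) (by linarith)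
  have g1 : γ * 2 < 1 := by
    rw [div_mul_eq_mul_div, div_lt_one (by linarith)]
    linarith
  have hI : IntervalIntegrable (fun θ : ℝ => θ ^ (-(γ * 2))) MeasureTheory.volume 0 π :=
    intervalIntegral.intervalIntegrable_rpow' (by linarith)
  set J := ∫ θ in (0 : ℝ)..π, θ ^ (-(γ * 2)) with hJ
  have J0 : 0 ≤ J := intervalIntegral.integral_nonneg pi_pos.le fun θ h => rpow_nonneg h.1 _
  let C : ℝ := 2 * k * K ^ 2 + k * (k * K ^ 2) ^ 2
  have C0 : 0 ≤ C := by positivity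
  have st : ∀ r : ℝ, 1 / 2 ≤ r → r < 1 →
      Φ (r ^ 2) ≤ C + (L ^ 2 * J * (3 * (1 - r)) ^ (γ * 2) * Φ r) * Φ r := fun r r0 r1 => by
    have r2 : 0 ≤ r := by linarith
    have u0 : 0 < 1 - r := by linarith
    have P0 := p0 r r2 r1
    have t1 := (summable_of_sum_range_le (fun n => mul_nonneg (a0 n) (by positivity))
      fun M => h1' M r r2 r1).tendsto_atTop_zero.eventually (ge_mem_nhds one_pos)
    have t2 := (tendsto_pow_const_mul_const_pow_of_abs_lt_one k
      (by rw [abs_of_nonneg r2]; exact r1)).eventually (ge_mem_nhds one_pos)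
    refine ciSup_le fun N => ?_
    obtain ⟨M, ⟨m1, m2⟩, m3⟩ := ((t1.and t2).and (eventually_ge_atTop N)).exists
    refine (sum_le_sum_of_subset_of_nonneg (range_mono m3) fun m _ _ =>
      mul_nonneg (i0 m) (by positivity)).trans ?_
    set c : ℕ → ℝ := fun m => ind m * r ^ m
    set D := 2 * k * L ^ 2 * (3 * (1 - r)) ^ (γ * 2) * Φ r ^ 2 with hD
    have pt : ∀ θ ∈ Set.Ioo 0 π, 2 * k * ‖p c M 1 θ‖ ^ 2 ≤
        C + ∑ j ∈ Icc 2 k, ‖p c M j θ‖ ^ 2 + D * θ ^ (-(γ * 2)) := fun θ ⟨θ0, θ1⟩ => by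
      have s0 : 0 ≤ ∑ j ∈ Icc 2 k, ‖p c M j θ‖ := sum_nonneg fun _ _ => norm_nonneg _
      have s1 : 0 ≤ ∑ j ∈ Icc 2 k, ‖p c M j θ‖ ^ 2 := sum_nonneg fun _ _ => sq_nonneg _
      have d0 : 0 ≤ D * θ ^ (-(γ * 2)) := by positivity
      set w := 1 + ∑ j ∈ Icc 2 k, ‖p c M j θ‖ with hw
      have w1 : 1 ≤ √w := one_le_sqrt.2 (by linarith)
      have w2 : √w ^ 2 = w := sq_sqrt (by linarith)
      rcases le_total ‖p c M 1 θ‖ (K * √w) with h | h
      · have q1 : ‖p c M 1 θ‖ ^ 2 ≤ K ^ 2 * w := by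
          rw [← w2, ← mul_pow]
          gcongr
        have q2 : 2 * k * K ^ 2 * ∑ j ∈ Icc 2 k, ‖p c M j θ‖ ≤
            ∑ j ∈ Icc 2 k, (‖p c M j θ‖ ^ 2 + (k * K ^ 2) ^ 2) := by
          rw [mul_sum]
          exact sum_le_sum fun j _ => by nlinarith [sq_nonneg (‖p c M j θ‖ - k * K ^ 2)]
        have q3 : ((#(Icc 2 k) : ℕ) : ℝ) ≤ k := by
          rw [Nat.card_Icc]
          exact_mod_cast (by omega)
        rw [sum_add_distrib, sum_const, nsmul_eq_mul] at q2
        have q4 := mul_le_mul_of_nonneg_right q3 (sq_nonneg (k * K ^ 2))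
        have q5 := mul_le_mul_of_nonneg_left q1 (by positivity : (0 : ℝ) ≤ 2 * k)
        rw [hw] at q5
        simp only [C]
        nlinarith
      · have q1 := h2 M r θ (√w) r2 r1.le (by linarith) (fun j j1 j2 => by
          refine le_trans ?_ (w2.ge.trans (pow_le_pow_right₀ w1 j1))
          have := single_le_sum (f := fun j => ‖p c M j θ‖) (fun _ _ => norm_nonneg _)
            (mem_Icc.2 ⟨j1, j2⟩)
          linarith) h
        have nz : ‖r * E θ‖ = r := by
          rw [norm_mul, normE, Complex.norm_real, norm_of_nonneg r2, mul_one]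
        have q2 := abelb a a0 n0 hm (r * E θ) r nz r1.le M
        have q3 := low r θ r0 r1 θ0 θ1 (1 - ε / 2) (by linarith) (by linarith)
        have q4 : ‖1 - r * E θ‖ ≤ 2 := (norm_sub_le _ _).trans (by rw [nz, norm_one]; linarith)
        have q5 := hL _ (lo r r0 r1)
        have q6 := mul_le_mul_of_nonneg_left (h1' M r r2 r1) u0.le
        set y := ‖1 - r * E θ‖
        set v := 3 * (1 - r) / θ
        have v0 : 0 < v := by positivity
        have y0 : 0 < y := (pos_iff_pos_of_mul_pos (u0.trans_le q3)).2 (by positivity)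
        have q7 : y * (M ^ k * r ^ M) ≤ 2 * 1 := by gcongr
        have q8 : y * ‖p c M 1 θ‖ ^ k ≤ y * (L * v ^ γ * Φ r) ^ k :=
          calc _ ≤ K * (y * ‖∑ n ∈ range M, (a n : ℂ) * (r * E θ) ^ n‖ + y * (M ^ k * r ^ M)) := by
                nlinarith [mul_le_mul_of_nonneg_left q1 y0.le]
            _ ≤ K * ((1 - r) * Φ r ^ k + 4 + 2 * ∑ n ∈ range n0, a n) :=
                mul_le_mul_of_nonneg_left (by linarith) (by linarith)
            _ ≤ L * ((1 - r) * Φ r ^ k) := q5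
            _ ≤ L ^ k * (y * v ^ (1 - ε / 2) * Φ r ^ k) := by
                gcongr
                exact le_self_pow₀ L1 (by omega)
            _ = _ := by
                rw [mul_pow, mul_pow, ← rpow_mul_natCast v0.le, div_mul_cancel₀ _ (by linarith)]
                ring
        have q9 := le_of_pow_le_pow_left₀ (by omega) (by positivity) (le_of_mul_le_mul_left q8 y0)
        have q10 : (v ^ γ) ^ 2 = (3 * (1 - r)) ^ (γ * 2) * θ ^ (-(γ * 2)) := by
          rw [← rpow_mul_natCast v0.le, div_rpow (by positivity) θ0.le, rpow_neg θ0.le]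
          rfl
        calc _ ≤ 2 * k * (L * v ^ γ * Φ r) ^ 2 := by gcongr
          _ = D * θ ^ (-(γ * 2)) := by
            rw [mul_pow, mul_pow, q10, hD]
            ring
          _ ≤ _ := by linarith
    have c1 : Continuous fun θ => ∑ j ∈ Icc 2 k, ‖p c M j θ‖ ^ 2 :=
      continuous_finsetSum _ fun j _ => pc c M j
    have it := intervalIntegral.integral_mono_on_of_le_Ioo pi_pos.le
      (((pc c M 1).const_mul _).intervalIntegrable _ _)
      (((c1.const_add C).intervalIntegrable _ _).add (hI.const_mul D)) pt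
    rw [intervalIntegral.integral_add ((c1.const_add C).intervalIntegrable _ _) (hI.const_mul D),
      intervalIntegral.integral_add intervalIntegrable_const (c1.intervalIntegrable _ _),
      intervalIntegral.integral_const_mul, intervalIntegral.integral_const_mul, ← hJ,
      intervalIntegral.integral_finsetSum fun j _ => (pc c M j).intervalIntegrable _ _,
      pars _ _ _ le_rfl, intervalIntegral.integral_const] at it
    have e2 : ∑ m ∈ range M, (c m ^ 1) ^ 2 = ∑ m ∈ range M, ind m * (r ^ 2) ^ m :=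
      sum_congr rfl fun m _ => by
        rw [pow_one, mul_pow, i1]
        ring
    set G := ∑ m ∈ range M, (c m ^ 1) ^ 2
    have G0 : 0 ≤ G := sum_nonneg fun _ _ => sq_nonneg _
    have e3 : ∑ j ∈ Icc 2 k, ∫ θ in (0 : ℝ)..π, ‖p c M j θ‖ ^ 2 ≤ k * (π * G) := by
      refine (sum_le_card_nsmul _ _ (π * G) fun j hj => ?_).trans ?_
      · have := (mem_Icc.1 hj).1
        rw [pars _ _ _ (by omega)]
        have c0 : ∀ m, 0 ≤ c m := fun m => mul_nonneg (i0 m) (by positivity)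
        refine mul_le_mul_of_nonneg_left (sum_le_sum fun m _ => pow_le_pow_left₀
          (pow_nonneg (c0 m) _) (pow_le_pow_of_le_one (c0 m) ?_ (by omega)) _) pi_pos.le
        exact mul_le_one₀ (i2 m) (by positivity) (pow_le_one₀ r2 r1.le)
      · rw [nsmul_eq_mul, Nat.card_Icc]
        gcongr
        omega
    rw [← e2]
    refine le_of_mul_le_mul_left ?_ (by positivity : (0 : ℝ) < k * π)
    have x0 : 0 ≤ k * (L ^ 2 * J * (3 * (1 - r)) ^ (γ * 2) * Φ r * Φ r) := by positivity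
    have x1 := mul_le_mul_of_nonneg_right two_le_pi x0
    have x2 : π * C ≤ k * π * C := by
      gcongr
      exact le_mul_of_one_le_left pi_pos.le (by linarith)
    rw [sub_zero, smul_eq_mul, hD] at it
    nlinarith
  have η0 : 0 < γ * 2 + (ε - 2 / k) := by
    have : γ * 2 + (ε - 2 / k) = ε * (1 - 1 / k) := by
      simp only [γ]
      ring
    rw [this]
    exact mul_pos e0 (sub_pos.2 ((div_lt_one (by linarith)).2 (by linarith)))
  obtain ⟨u, ⟨b1, b2⟩, b3⟩ : ∃ u : ℝ, (L ^ 2 * J * 3 ^ (γ * 2) * B * u ^ (γ * 2 + (ε - 2 / k)) ≤ 1 / 4 ∧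
      u ≤ 1 / 2) ∧ 0 < u := by
    have := ((continuousAt_rpow_const 0 _ (Or.inr η0.le)).const_mul
      (L ^ 2 * J * 3 ^ (γ * 2) * B)).tendsto
    rw [zero_rpow η0.ne', mul_zero] at this
    exact ((((this.eventually (ge_mem_nhds (by norm_num))).and (ge_mem_nhds (by norm_num))).filter_mono
      (nhdsWithin_le_nhds (s := Set.Ioi 0))).and self_mem_nhdsWithin).exists
  have s2 : ∀ r : ℝ, 1 - u ≤ r → r < 1 → Φ (r ^ 2) ≤ C + 1 / 4 * Φ r := fun r r0 r1 => by
    have u0 : 0 < 1 - r := by linarith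
    have P0 := p0 r (by linarith) r1
    refine (st r (by linarith) r1).trans ?_
    gcongr
    have : Φ r ≤ B * (1 - r) ^ (ε - 2 / k) := ciSup_le fun M => h5 M r (by linarith) r1
    calc _ ≤ L ^ 2 * J * (3 * (1 - r)) ^ (γ * 2) * (B * (1 - r) ^ (ε - 2 / k)) := by gcongr
      _ = L ^ 2 * J * 3 ^ (γ * 2) * B * (1 - r) ^ (γ * 2 + (ε - 2 / k)) := by
        rw [mul_rpow (by norm_num) u0.le, rpow_add u0]
        ring
      _ ≤ L ^ 2 * J * 3 ^ (γ * 2) * B * u ^ (γ * 2 + (ε - 2 / k)) := by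
        gcongr
        linarith
      _ ≤ _ := b1
  have s3 : ∀ j : ℕ, ∀ r : ℝ, 1 - u ≤ r → r < 1 → (1 - r) * (Φ r - 4 / 3 * C) ≤ (1 / 2) ^ j := by
    intro j
    induction j with
    | zero =>
      intro r r0 r1
      have : Φ r ≤ (1 - r)⁻¹ := ciSup_le fun M => ge M r (by linarith) r1
      have u0 : 0 < 1 - r := by linarith
      have := mul_le_mul_of_nonneg_left this u0.le
      rw [mul_inv_cancel₀ u0.ne'] at this
      nlinarith [mul_nonneg u0.le C0]
    | succ j ih =>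
      intro r r0 r1
      have r2 : 0 ≤ r := by linarith
      have q1 : √r < 1 := (sqrt_lt' one_pos).2 (by linarith)
      have q2 : r ≤ √r := le_sqrt_of_sq_le (by nlinarith)
      have q3 := ih _ (r0.trans q2) q1
      have q4 := s2 _ (r0.trans q2) q1
      have q5 := sq_sqrt r2
      have q6 := sqrt_nonneg r
      rw [q5] at q4
      have : (0 : ℝ) ≤ (1 / 2) ^ j := by positivity
      calc _ ≤ (1 - r) * (1 / 4 * (Φ √r - 4 / 3 * C)) := by
            gcongr <;> linarith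
        _ = (1 + √r) / 4 * ((1 - √r) * (Φ √r - 4 / 3 * C)) := by
            linear_combination (1 / 4 * (Φ √r - 4 / 3 * C)) * q5
        _ ≤ (1 + 1) / 4 * (1 / 2) ^ j :=
            (mul_le_mul_of_nonneg_left q3 (by positivity)).trans (by gcongr)
        _ = _ := by ring
  obtain ⟨x, x0, hx⟩ := exists_pos_mul_lt (by positivity : (0 : ℝ) < (1 / 2) ^ n0) ((4 / 3 * C) ^ k)
  have m0 : 0 < min u x := lt_min b3 x0
  have m1 := min_le_left u x
  have m2 := min_le_right u x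
  have q1 := ge_of_tendsto' (tendsto_pow_atTop_nhds_zero_of_lt_one (by norm_num) (by norm_num))
    fun j => s3 j (1 - min u x) (by linarith) (by linarith)
  have q2 := lo (1 - min u x) (by linarith) (by linarith)
  have q3 := p0 (1 - min u x) (by linarith) (by linarith)
  rw [sub_sub_cancel] at q1 q2
  have q4 : Φ (1 - min u x) ≤ 4 / 3 * C := by nlinarith
  have : min u x * Φ (1 - min u x) ^ k ≤ x * (4 / 3 * C) ^ k := by gcongr
  linarith

end Pool.Agent.H10.Dom
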