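import Pool.Agent.H10.DomA
import Pool.Agent.H10.DomB

namespace Pool.Agent.H10.Dom

open Finset Filter Topology Real Classical

noncomputable def G {k : ℕ} (A : Set ℕ) (P : (Fin k → ℕ) → Prop) (M : ℕ) : Finset (Fin k → ℕ) :=
  ((Fintype.piFinset fun _ => range M).filter P).filter fun a => ∀ j, a j ∈ A

noncomputable def rep {k : ℕ} (A : Set ℕ) (P : (Fin k → ℕ) → Prop) (n : ℕ) : ℕ :=
  Set.ncard {a : Fin k → ℕ | (∀ j, a j ∈ A) ∧ (∑ j, a j) = n ∧ P a}

lemma rep_eq {k : ℕ} (A : Set ℕ) (P : (Fin k → ℕ) → Prop) {n M : ℕ} (h : n < M) :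
    rep A P n = #(((G A P M).filter fun a => ∑ j, a j < M).filter fun a => ∑ j, a j = n) := by
  rw [rep, ← Set.ncard_coe_finset]
  congr 1
  ext a
  simp only [G, Set.mem_setOf_eq, coe_filter, mem_filter, Fintype.mem_piFinset, mem_range]
  refine ⟨fun ⟨h1, h2, h3⟩ => ⟨⟨⟨⟨fun j => ?_, h3⟩, h1⟩, by omega⟩, h2⟩,
    fun h => ⟨h.1.1.2, h.2, h.1.1.1.2⟩⟩
  have := single_le_sum (f := a) (fun _ _ => Nat.zero_le _) (mem_univ j)
  omega

lemma fib {R : Type} [CommSemiring R] {k : ℕ} (A : Set ℕ) (P : (Fin k → ℕ) → Prop) (M : ℕ) (z : R) :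
    ∑ n ∈ range M, (rep A P n : R) * z ^ n =
      ∑ a ∈ (G A P M).filter fun a => ∑ j, a j < M, z ^ ∑ j, a j := by
  rw [← sum_fiberwise_of_maps_to' (t := range M) (g := fun a : Fin k → ℕ => ∑ j, a j)
    (fun a ha => mem_range.2 (mem_filter.1 ha).2) fun n => z ^ n]
  exact sum_congr rfl fun n hn => by rw [rep_eq A P (mem_range.1 hn), sum_const, nsmul_eq_mul]

lemma pf {R : Type} [CommSemiring R] {k : ℕ} (A : Set ℕ) (P : (Fin k → ℕ) → Prop) (M : ℕ) (z : R) :
    ∑ a ∈ (Fintype.piFinset fun _ => range M).filter P, ∏ j, (if a j ∈ A then z ^ a j else 0) =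
      ∑ a ∈ G A P M, z ^ ∑ j, a j := by
  rw [G, sum_filter (fun a : Fin k → ℕ => ∀ j, a j ∈ A)]
  refine sum_congr rfl fun a _ => ?_
  split_ifs with h
  · simp [h, prod_pow_eq_pow_sum]
  · obtain ⟨j, hj⟩ := not_forall.1 h
    exact prod_eq_zero (mem_univ j) (if_neg hj)

lemma pw {R : Type} [CommSemiring R] (k M : ℕ) (y : ℕ → R) :
    ∑ a ∈ (Fintype.piFinset fun _ : Fin k => range M), ∏ j, y (a j) = (∑ m ∈ range M, y m) ^ k := by
  rw [← prod_univ_sum (fun _ : Fin k => range M) fun _ m => y m]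
  simp

lemma upper (A : Set ℕ) (α β : ℝ) (h0 : 0 ≤ α) (h1 : α ≤ 1) (h2 : β ≤ α)
    (hO : Asymptotics.IsBigO atTop (fun n : ℕ => ((A ∩ Set.Icc 1 n).ncard : ℝ))
      fun n : ℕ => (n : ℝ) ^ β) : ∃ B : ℝ, 0 ≤ B ∧ ∀ M (r : ℝ), 0 ≤ r → r < 1 →
      ∑ m ∈ range M, (if m ∈ A then 1 else 0) * r ^ m ≤ B * (1 - r) ^ (-α) := by
  obtain ⟨C, C0, hC⟩ := Asymptotics.isBigO_iff'.1 hO
  obtain ⟨N, hN⟩ := eventually_atTop.1 hC
  let c : ℕ → ℝ := fun n => #((range n).filter (· ∈ A))
  have c1 : ∀ n, c n ≤ N + 1 + C * (n : ℝ) ^ α := fun n => by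
    have n0 : 0 ≤ C * (n : ℝ) ^ α := by positivity
    rcases le_or_gt n N with h | h
    · have : c n ≤ N := by
        simp only [c]
        exact_mod_cast (card_filter_le _ _).trans (by simpa using h)
      linarith
    · have q1 := hN n h.le
      have n1 : (1 : ℝ) ≤ n := by exact_mod_cast (by omega)
      rw [norm_of_nonneg (by positivity), norm_of_nonneg (by positivity)] at q1
      have q2 := mul_le_mul_of_nonneg_left (rpow_le_rpow_of_exponent_le n1 h2) C0.le
      have q3 : c n ≤ (A ∩ Set.Icc 1 n).ncard + 1 := by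
        simp only [c]
        norm_cast
        rw [← Set.ncard_coe_finset]
        refine le_trans (Set.ncard_le_ncard (t := insert 0 (A ∩ Set.Icc 1 n)) (fun m hm => ?_)
          (((Set.finite_Icc _ _).inter_of_right _).insert _)) (Set.ncard_insert_le _ _)
        simp only [coe_filter, mem_range, Set.mem_setOf_eq] at hm
        rcases Nat.eq_zero_or_pos m with h | h
        · exact Or.inl h
        · exact Or.inr ⟨hm.2, h, hm.1.le⟩
      have : (0 : ℝ) ≤ N := by positivity
      linarith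
  refine ⟨(N + 1 + C) * 2, by positivity, fun M r r0 r1 => ?_⟩
  have u0 : 0 < 1 - r := by linarith
  have c2 : ∀ n : ℕ, c n ≤ (N + 1 + C) * (1 - r) ^ (-α) * (1 + (1 - r) * n) := fun n => by
    have q1 : 1 ≤ (1 - r) ^ (-α) := one_le_rpow_of_pos_of_le_one_of_nonpos u0 (by linarith) (by linarith)
    have q0 : 0 ≤ (1 - r) * n := by positivity
    have q2 : ((1 - r) * n) ^ α ≤ 1 + (1 - r) * n := by
      rcases le_total ((1 - r) * n) 1 with h | h
      · linarith [rpow_le_one q0 h h0]
      · linarith [rpow_le_self_of_one_le h h1]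
    have q3 : (n : ℝ) ^ α = (1 - r) ^ (-α) * ((1 - r) * n) ^ α := by
      rw [mul_rpow u0.le (by positivity), rpow_neg u0.le, inv_mul_cancel_left₀ (by positivity)]
    have q4 : (n : ℝ) ^ α ≤ (1 - r) ^ (-α) * (1 + (1 - r) * n) := by
      rw [q3]
      gcongr
    have q5 : 1 ≤ (1 - r) ^ (-α) * (1 + (1 - r) * n) :=
      one_le_mul_of_one_le_of_one_le q1 (by linarith)
    have : (0 : ℝ) ≤ N + 1 := by positivity
    nlinarith [c1 n, mul_le_mul_of_nonneg_left q4 C0.le, mul_le_mul_of_nonneg_left q5 this]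
  have e1 := abel' c r M
  have e2 := abel' (fun n => 1 + (1 - r) * n) r M
  have e3 : ∀ n, c (n + 1) - c n = if n ∈ A then 1 else 0 := fun n => by
    simp only [c, range_add_one, filter_insert]
    split_ifs
    · rw [card_insert_of_notMem (by simp)]
      simp
    · simp
  have e4 : ∑ n ∈ range M, (1 + (1 - r) * (n + 1 : ℕ) - (1 + (1 - r) * n)) * r ^ n = 1 - r ^ M := by
    rw [← mul_neg_geom_sum, mul_sum]
    exact sum_congr rfl fun n _ => by
      push_cast
      ring
  have c0 : c 0 = 0 := by simp [c]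
  simp only [e3, c0, add_zero] at e1
  rw [e4] at e2
  rw [e1]
  set D := (N + 1 + C) * (1 - r) ^ (-α) with hD
  have D0 : 0 ≤ D := by positivity
  calc _ ≤ (1 - r) * ∑ n ∈ range M, D * (1 + (1 - r) * (n + 1 : ℕ)) * r ^ n +
        D * (1 + (1 - r) * M) * r ^ M := by
        gcongr with n
        · exact c2 _
        · exact c2 _
    _ = D * (1 - r ^ M + 1) := by
        simp only [mul_assoc D, ← mul_sum]
        simp only [Nat.cast_zero, mul_zero, add_zero] at e2
        rw [e2]
        ring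
    _ ≤ D * 2 := by
        gcongr
        linarith [pow_nonneg r0 M]
    _ = _ := by
        rw [hD]
        ring

theorem main (k : ℕ) (hk : 2 ≤ k) (ε : ℝ) (e0 : 0 < ε) (A : Set ℕ) (hA : A.Infinite)
    (P : (Fin k → ℕ) → Prop) (hP : (∀ a, P a) ∨ ∃ d, (d = 0 ∨ d = 1) ∧
      ∀ a, P a ↔ ∀ i j, i < j → a i + d ≤ a j) (n0 : ℕ)
    (hm : ∀ n, n0 ≤ n → rep A P n ≤ rep A P (n + 1))
    (hO : Asymptotics.IsBigO atTop (fun n : ℕ => ((A ∩ Set.Icc 1 n).ncard : ℝ))
      fun n : ℕ => (n : ℝ) ^ ((2 : ℝ) / k - ε)) : False := by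
  have k2 : (2 : ℝ) ≤ k := by exact_mod_cast hk
  have k3 : 2 / (k : ℝ) ≤ 1 := (div_le_one (by linarith)).2 k2
  have m0 : 0 < min ε (2 / k) := lt_min e0 (by positivity)
  have m1 := min_le_left ε (2 / k)
  have m2 := min_le_right ε (2 / k)
  obtain ⟨B, B0, hB⟩ := upper A (2 / k - min ε (2 / k)) _ (by linarith) (by linarith) (by linarith) hO
  have f1 : (1 : ℝ) ≤ k.factorial := by exact_mod_cast k.factorial_pos
  let b : Fin k → ℕ := fun j => Nat.nth (· ∈ A) (j + n0)
  have b1 : n0 ≤ ∑ j, b j := by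
    refine le_trans ?_ (single_le_sum (f := b) (fun _ _ => Nat.zero_le _) (mem_univ ⟨0, by omega⟩))
    exact (Nat.le_add_left _ _).trans (Nat.nth_strictMono hA).le_apply
  have b2 : 1 ≤ rep A P (∑ j, b j) := by
    refine (Set.ncard_pos ((Fintype.piFinset fun _ => range (∑ j, b j + 1)).finite_toSet.subset
      fun a ha => ?_)).2 ⟨b, fun j => Nat.nth_mem_of_infinite hA _, rfl, ?_⟩
    · simp only [mem_coe, Fintype.mem_piFinset, mem_range]
      intro j
      have := single_le_sum (f := a) (fun _ _ => Nat.zero_le _) (mem_univ j)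
      have := ha.2.1
      omega
    · rcases hP with h | ⟨d, hd, h⟩
      · exact h _
      · refine (h _).2 fun i j hij => ?_
        have : b i < b j := Nat.nth_strictMono hA (Nat.add_lt_add_right hij _)
        omega
  refine core k hk _ m0 (by linarith) (2 * k * k.factorial) B (by nlinarith) B0
    (fun m => if m ∈ A then 1 else 0) (fun n => rep A P n) (fun m => by positivity)
    (fun m => by simp) (fun n => by positivity) (∑ j, b j)
    (fun n hn => by exact_mod_cast hm n (b1.trans hn)) (by exact_mod_cast b2) (fun M r r0 => ?_)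
    (fun M r θ t r0 r1 t0 hq hx => ?_) (fun M r r0 r1 => by simpa only [neg_sub] using hB M r r0 r1)
  · rw [fib, ← pw]
    simp only [ite_mul, one_mul, zero_mul]
    refine (sum_le_sum_of_subset_of_nonneg (filter_subset _ _) fun _ _ _ => by positivity).trans ?_
    rw [← pf]
    exact sum_le_sum_of_subset_of_nonneg (filter_subset _ _) fun _ _ _ =>
      prod_nonneg fun _ _ => by positivity
  · let y : ℕ → ℂ := fun m => if m ∈ A then (r * E θ) ^ m else 0
    have ey : ∀ j, p (fun m => (if m ∈ A then 1 else 0) * r ^ m) M j θ = ∑ m ∈ range M, y m ^ j :=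
      fun j => sum_congr rfl fun m _ => by
        simp only [y]
        split_ifs <;> simp [mul_pow]
    simp only [ey, pow_one] at hq hx ⊢
    have nz : ‖r * E θ‖ = r := by
      rw [norm_mul, normE, Complex.norm_real, norm_of_nonneg r0, mul_one]
    have s1 : ‖∑ a ∈ (Fintype.piFinset fun _ => range M).filter P, ∏ j, y (a j)‖ ≤
        ‖∑ n ∈ range M, ((rep A P n : ℝ) : ℂ) * (r * E θ) ^ n‖ + M ^ k * r ^ M := by
      simp only [y, Complex.ofReal_natCast]
      rw [pf, fib, ← sum_filter_add_sum_filter_not _ (fun a => ∑ j, a j < M)]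
      refine (norm_add_le _ _).trans (add_le_add le_rfl ((norm_sum_le _ _).trans
        ((sum_le_card_nsmul _ _ (r ^ M) fun a ha => ?_).trans ?_)))
      · rw [norm_pow, nz]
        exact pow_le_pow_of_le_one r0 r1 (not_lt.1 (mem_filter.1 ha).2)
      · rw [nsmul_eq_mul]
        gcongr
        exact_mod_cast (card_filter_le _ _).trans ((card_filter_le _ _).trans
          ((card_filter_le _ _).trans (by simp)))
    refine le_trans ?_ (mul_le_mul_of_nonneg_left s1 (by positivity))
    rcases hP with h | ⟨d, hd, h⟩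
    · rw [filter_true_of_mem fun a _ => h a, pw, norm_pow]
      exact le_mul_of_one_le_left (by positivity) (by nlinarith)
    · have : (Fintype.piFinset fun _ => range M).filter P = T d M k 0 := by
        ext a
        simp [memT, h]
      rw [this]
      refine (sym k d hd (by omega) y M t t0 hq hx).trans ?_
      gcongr
      linarith

end Pool.Agent.H10.Dom
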