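import Mathlib

set_option autoImplicit false
set_option linter.unusedSectionVars false

namespace Pool.Agent.H10.Dowl

open Set

abbrev P : Type := {p : Fin 3 × Fin 3 // p.1 < p.2}
abbrev E (A : Type) : Type := Fin 3 ⊕ (A × P)

def p01 : P := ⟨(0, 1), by decide⟩
def p02 : P := ⟨(0, 2), by decide⟩
def p12 : P := ⟨(1, 2), by decide⟩

lemma P_cases (p : P) : p = p01 ∨ p = p02 ∨ p = p12 := by revert p; decide

lemma P_card (p q : P) (h : p ≠ q) :
    2 + 1 ≤ (({p.1.1, p.1.2} : Finset (Fin 3)) ∪ {q.1.1, q.1.2}).card := by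
  revert p q; decide

lemma P_third (s p q s' : P) : p ≠ q → s ≠ p → s ≠ q → s' ≠ p → s' ≠ q → s = s' := by
  rcases P_cases s with rfl | rfl | rfl <;> rcases P_cases s' with rfl | rfl | rfl <;>
    rcases P_cases p with rfl | rfl | rfl <;> rcases P_cases q with rfl | rfl | rfl <;> simp

variable {A : Type} [Group A]

def vs (e : E A) : Finset (Fin 3) :=
  Sum.elim (fun i => ({i} : Finset (Fin 3))) (fun x => ({x.2.1.1, x.2.1.2} : Finset (Fin 3))) e

def Bal (T : Finset (E A)) : Prop :=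
  (∀ i : Fin 3, Sum.inl i ∉ T) ∧ ∃ φ : Fin 3 → A, ∀ x : A × P,
    Sum.inr x ∈ T → x.1 = φ x.2.1.1 * (φ x.2.1.2)⁻¹

def Ind (Y : Set (E A)) : Prop :=
  ∀ T : Finset (E A), (↑T ⊆ Y) → T.Nonempty →
    (T.card ≤ (T.biUnion vs).card ∧ (Bal T → T.card + 1 ≤ (T.biUnion vs).card))

lemma Ind.mono {Y Z : Set (E A)} (h : Ind Z) (hY : Y ⊆ Z) : Ind Y :=
  fun T hT => h T (hT.trans hY)

lemma card3 (s : Finset (Fin 3)) : s.card ≤ 3 := by simpa using s.card_le_univ

lemma Ind.card_le {Y : Set (E A)} (h : Ind Y) (hf : Y.Finite) : Y.ncard ≤ 3 := by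
  rcases Y.eq_empty_or_nonempty with rfl | hne
  · simp
  · have := (h hf.toFinset (by simp) (by simpa using hne)).1
    rw [ncard_eq_toFinset_card Y hf]
    exact this.trans (card3 _)

lemma vs_link (x : A × P) : (vs (Sum.inr x : E A)).card = 2 :=
  Finset.card_pair x.2.2.ne

open Classical in
lemma ind_pair (x y : E A) : Ind {x, y} := by
  have one : ∀ u : E A, ({u} : Finset (E A)).card ≤ (({u} : Finset (E A)).biUnion vs).card ∧
      (Bal {u} → ({u} : Finset (E A)).card + 1 ≤ (({u} : Finset (E A)).biUnion vs).card) := by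
    rintro (i | u)
    · refine ⟨by simp [vs], fun h => absurd (Finset.mem_singleton_self _) (h.1 i)⟩
    · simp [vs_link]
  intro T hT hne
  have hT' : T ⊆ {x, y} := by
    intro u hu; simpa using hT hu
  by_cases hc : T.card = 1
  · obtain ⟨u, rfl⟩ := Finset.card_eq_one.1 hc
    exact one u
  have h2 : 2 ≤ T.card := by have := hne.card_pos; omega
  have hxy : x ≠ y := by
    rintro rfl
    have := Finset.card_le_card hT'
    simp at this; omega
  obtain rfl : T = {x, y} := Finset.eq_of_subset_of_card_le hT' (by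
    rw [Finset.card_pair hxy]; exact h2)
  rw [Finset.card_pair hxy, Finset.biUnion_insert, Finset.singleton_biUnion]
  rcases x with i | ⟨α, p⟩ <;> rcases y with j | ⟨β, q⟩
  · have : i ≠ j := fun h => hxy (by rw [h])
    refine ⟨?_, fun h => absurd (by simp) (h.1 i)⟩
    simp only [vs, Sum.elim_inl]
    rw [← Finset.insert_eq, Finset.card_pair this]
  · refine ⟨?_, fun h => absurd (by simp) (h.1 i)⟩
    rw [← vs_link (β, q)]
    exact Finset.card_le_card Finset.subset_union_right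
  · refine ⟨?_, fun h => absurd (by simp) (h.1 j)⟩
    rw [← vs_link (α, p)]
    exact Finset.card_le_card Finset.subset_union_left
  · refine ⟨?_, ?_⟩
    · rw [← vs_link (α, p)]
      exact Finset.card_le_card Finset.subset_union_left
    · rintro ⟨-, φ, h⟩
      have h1 := h (α, p) (by simp)
      have h2 := h (β, q) (by simp)
      have hpq : p ≠ q := by
        rintro rfl
        exact hxy (by rw [show α = β from h1.trans h2.symm])
      exact P_card p q hpq

open Classical in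
lemma dep_iff {x y z : E A} (hxy : x ≠ y) (hxz : x ≠ z) (hyz : y ≠ z) :
    ¬ Ind {x, y, z} ↔ (vs x ∪ (vs y ∪ vs z)).card ≤ 2 ∨ Bal {x, y, z} := by
  have hc : ({x, y, z} : Finset (E A)).card = 3 :=
    Finset.card_eq_three.2 ⟨x, y, z, hxy, hxz, hyz, rfl⟩
  constructor
  · intro h
    by_contra hn
    push Not at hn
    apply h
    intro T hT hne
    have hT' : T ⊆ {x, y, z} := by
      intro u hu; simpa using hT hu
    by_cases h3 : 3 ≤ T.card
    · obtain rfl : T = {x, y, z} := Finset.eq_of_subset_of_card_le hT' (by omega)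
      rw [hc, Finset.biUnion_insert, Finset.biUnion_insert, Finset.singleton_biUnion]
      exact ⟨hn.1, fun h => absurd h hn.2⟩
    · by_cases h1 : T.card = 1
      · obtain ⟨u, rfl⟩ := Finset.card_eq_one.1 h1
        exact ind_pair u u _ (by simp) hne
      · have h2 : T.card = 2 := by have := hne.card_pos; omega
        obtain ⟨u, v, -, rfl⟩ := Finset.card_eq_two.1 h2
        exact ind_pair u v _ (by simp) hne
  · intro h hI
    have := hI {x, y, z} (by simp) (by simp)
    rw [hc, Finset.biUnion_insert, Finset.biUnion_insert, Finset.singleton_biUnion] at this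
    rcases h with h | h
    · omega
    · have h1 := this.2 h
      have h2 := card3 (vs x ∪ (vs y ∪ vs z))
      omega

open Classical in
lemma bal_links {x y z : E A} (h : Bal {x, y, z}) :
    ∃ (φ : Fin 3 → A) (p q s : P), x = Sum.inr (φ p.1.1 * (φ p.1.2)⁻¹, p) ∧
      y = Sum.inr (φ q.1.1 * (φ q.1.2)⁻¹, q) ∧ z = Sum.inr (φ s.1.1 * (φ s.1.2)⁻¹, s) := by
  obtain ⟨h0, φ, h⟩ := h
  have : ∀ u ∈ ({x, y, z} : Finset (E A)), ∃ p : P, u = Sum.inr (φ p.1.1 * (φ p.1.2)⁻¹, p) := by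
    rintro (i | ⟨α, p⟩) hu
    · exact absurd hu (h0 i)
    · exact ⟨p, by rw [← h (α, p) hu]⟩
  obtain ⟨p, hp⟩ := this x (by simp)
  obtain ⟨q, hq⟩ := this y (by simp)
  obtain ⟨s, hs⟩ := this z (by simp)
  exact ⟨φ, p, q, s, hp, hq, hs⟩

open Classical in
lemma bal_card {x y z : E A} (hyz : y ≠ z) (h : Bal {x, y, z}) : 3 ≤ (vs y ∪ vs z).card := by
  obtain ⟨φ, p, q, s, rfl, rfl, rfl⟩ := bal_links h
  have hqs : q ≠ s := by rintro rfl; exact hyz rfl
  simp only [vs, Sum.elim_inr]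
  clear h hyz
  revert q s
  decide

open Classical in
lemma bal_uniq {x y z w : E A} (hxy : x ≠ y) (hzx : z ≠ x) (hzy : z ≠ y) (hwx : w ≠ x)
    (hwy : w ≠ y) (h : Bal {z, x, y}) (h' : Bal {w, x, y}) : z = w := by
  obtain ⟨φ, s, p, q, rfl, rfl, rfl⟩ := bal_links h
  obtain ⟨ψ, s', p', q', rfl, h1, h2⟩ := bal_links h'
  simp only [Sum.inr.injEq, Prod.mk.injEq] at h1 h2
  obtain ⟨h1, rfl⟩ := h1
  obtain ⟨h2, rfl⟩ := h2
  have n1 : p ≠ q := by rintro rfl; exact hxy rfl
  have n2 : s ≠ p := by rintro rfl; exact hzx rfl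
  have n3 : s ≠ q := by rintro rfl; exact hzy rfl
  have n4 : s' ≠ p := by rintro rfl; exact hwx (by rw [h1])
  have n5 : s' ≠ q := by rintro rfl; exact hwy (by rw [h2])
  obtain rfl : s = s' := P_third s p q s' n1 n2 n3 n4 n5
  have k1 : (ψ p.1.1)⁻¹ * φ p.1.1 = (ψ p.1.2)⁻¹ * φ p.1.2 := by
    calc _ = (ψ p.1.1)⁻¹ * (φ p.1.1 * (φ p.1.2)⁻¹) * φ p.1.2 := by group
      _ = _ := by rw [h1]; group
  have k2 : (ψ q.1.1)⁻¹ * φ q.1.1 = (ψ q.1.2)⁻¹ * φ q.1.2 := by
    calc _ = (ψ q.1.1)⁻¹ * (φ q.1.1 * (φ q.1.2)⁻¹) * φ q.1.2 := by group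
      _ = _ := by rw [h2]; group
  have k3 : (ψ s.1.1)⁻¹ * φ s.1.1 = (ψ s.1.2)⁻¹ * φ s.1.2 := by
    rcases P_cases p with rfl | rfl | rfl <;> rcases P_cases q with rfl | rfl | rfl <;>
      rcases P_cases s with rfl | rfl | rfl <;>
      first
      | exact absurd rfl n1
      | exact absurd rfl n2
      | exact absurd rfl n3
      | exact k1.trans k2
      | exact k1.symm.trans k2
      | exact k1.trans k2.symm
      | exact k2.trans k1
      | exact k2.symm.trans k1
      | exact k2.trans k1.symm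
  have : φ s.1.1 * (φ s.1.2)⁻¹ = ψ s.1.1 * (ψ s.1.2)⁻¹ := by
    calc _ = ψ s.1.1 * ((ψ s.1.1)⁻¹ * φ s.1.1) * (φ s.1.2)⁻¹ := by group
      _ = _ := by rw [k3]; group
  rw [this]

open Classical in
/-- a dependent triple through two points spanning only two vertices stays on those vertices -/
lemma sub_of_dep {x y e : E A} (hxy : x ≠ y) (hex : e ≠ x) (hey : e ≠ y)
    (hV : (vs x ∪ vs y).card ≤ 2) (h : ¬ Ind {e, x, y}) : vs e ⊆ vs x ∪ vs y := by
  rcases (dep_iff hex hey hxy).1 h with h | h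
  · have h2 := (ind_pair x y {x, y} (by simp) (by simp)).1
    rw [Finset.card_pair hxy, Finset.biUnion_insert, Finset.singleton_biUnion] at h2
    have := Finset.eq_of_subset_of_card_le (Finset.subset_union_right (s₁ := vs e))
      (h.trans h2)
    rw [this]; exact Finset.subset_union_left
  · have := bal_card hxy h; omega

open Classical in
lemma aug {I J : Set (E A)} (hJf : J.Finite) (hIf : I.Finite) (hJ : Ind J)
    (hlt : I.ncard < J.ncard) : ∃ e ∈ J, e ∉ I ∧ Ind (insert e I) := by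
  have h3 := hJ.card_le hJf
  obtain ⟨z, hzJ, hzI⟩ := exists_mem_notMem_of_ncard_lt_ncard hlt hIf
  by_cases h1 : I.ncard ≤ 1
  · refine ⟨z, hzJ, hzI, ?_⟩
    rcases (ncard_le_one_iff_eq hIf).1 h1 with rfl | ⟨u, rfl⟩
    · exact (ind_pair z z).mono (by simp)
    · exact ind_pair z u
  obtain ⟨x, y, hxy, rfl⟩ := ncard_eq_two.1 (show I.ncard = 2 by omega)
  have hJ3 : J.ncard = 3 := by rw [ncard_pair hxy] at hlt; omega
  by_contra hn
  push Not at hn
  by_cases hV : (vs x ∪ vs y).card ≤ 2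
  · have hs : ∀ e ∈ J, vs e ⊆ vs x ∪ vs y := by
      intro e he
      by_cases hex : e = x
      · rw [hex]; exact Finset.subset_union_left
      by_cases hey : e = y
      · rw [hey]; exact Finset.subset_union_right
      exact sub_of_dep hxy hex hey hV (hn e he (by simp [hex, hey]))
    have h4 := (hJ hJf.toFinset (by simp) ⟨z, by simpa using hzJ⟩).1
    rw [← ncard_eq_toFinset_card J hJf, hJ3] at h4
    have h5 : (hJf.toFinset.biUnion vs).card ≤ (vs x ∪ vs y).card :=
      Finset.card_le_card (Finset.biUnion_subset.2 fun e he => hs e (by simpa using he))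
    omega
  · have hb : ∀ e ∈ J, e ≠ x → e ≠ y → Bal {e, x, y} := by
      intro e he hex hey
      rcases (dep_iff hex hey hxy).1 (hn e he (by simp [hex, hey])) with h | h
      · exact absurd ((Finset.card_le_card Finset.subset_union_right).trans h) hV
      · exact h
    have hzx : z ≠ x := fun h => hzI (by simp [h])
    have hzy : z ≠ y := fun h => hzI (by simp [h])
    have hsub : J ⊆ {z, x, y} := by
      intro e he
      by_cases hex : e = x
      · simp [hex]
      by_cases hey : e = y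
      · simp [hey]
      left
      exact bal_uniq hxy hex hey hzx hzy (hb e he hex hey) (hb z hzJ hzx hzy)
    have : J = {z, x, y} := eq_of_subset_of_ncard_le hsub (by
      rw [hJ3, ncard_eq_three.2 ⟨z, x, y, hzx, hzy, hxy, rfl⟩])
    exact hn z hzJ hzI (this ▸ hJ)

/-- the restriction of the rank three Dowling geometry along an injective map -/
noncomputable def mat {n : ℕ} (f : Fin n → E A) (hf : Function.Injective f) : Matroid (Fin n) :=
  (IndepMatroid.ofFinite (E := univ) (toFinite _) (fun X => Ind (f '' X))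
    (by intro T hT hne; obtain ⟨u, hu⟩ := hne; simpa using hT hu)
    (fun I J hJ hIJ => hJ.mono (image_mono hIJ))
    (fun I J _ hJ hlt => by
      obtain ⟨_, ⟨e, he, rfl⟩, h1, h2⟩ := aug (toFinite (f '' J)) (toFinite (f '' I)) hJ (by
        rwa [ncard_image_of_injective _ hf, ncard_image_of_injective _ hf])
      exact ⟨e, he, fun h => h1 ⟨e, h, rfl⟩, by rwa [image_insert_eq]⟩)
    (fun I _ => subset_univ _)).matroid

lemma mat_E {n : ℕ} (f : Fin n → E A) (hf : Function.Injective f) : (mat f hf).E = univ := rfl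

lemma mat_indep {n : ℕ} (f : Fin n → E A) (hf : Function.Injective f) (X : Set (Fin n)) :
    (mat f hf).Indep X ↔ Ind (f '' X) := by simp [mat]

section Emb
variable {B : Type} [Group B]

/-- the gain of a link read from the vertex `q` -/
def og (q : Fin 3) : E B → B
  | Sum.inl _ => 1
  | Sum.inr x => if x.2.1.1 = q then x.1 else x.1⁻¹

lemma link_of {u : E B} {q q' : Fin 3} (h : vs u ⊆ {q, q'}) (h1 : u ≠ Sum.inl q)
    (h2 : u ≠ Sum.inl q') : ∃ (β : B) (p : P), u = Sum.inr (β, p) ∧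
      ((p.1.1 = q ∧ p.1.2 = q') ∨ (p.1.1 = q' ∧ p.1.2 = q ∧ q ≠ q')) := by
  rcases u with i | ⟨β, p⟩
  · exfalso
    have : i ∈ ({q, q'} : Finset (Fin 3)) := h (by simp [vs])
    rcases Finset.mem_insert.1 this with rfl | h'
    · exact h1 rfl
    · exact h2 (by rw [Finset.mem_singleton.1 h'])
  · refine ⟨β, p, rfl, ?_⟩
    have h3 : ({p.1.1, p.1.2} : Finset (Fin 3)) ⊆ {q, q'} := h
    clear h h1 h2
    revert p q q'
    decide

lemma og_inj {u v : E B} {q q' : Fin 3} (h : vs u ⊆ {q, q'}) (h1 : u ≠ Sum.inl q)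
    (h2 : u ≠ Sum.inl q') (k : vs v ⊆ {q, q'}) (k1 : v ≠ Sum.inl q) (k2 : v ≠ Sum.inl q')
    (e : og q u = og q v) : u = v := by
  obtain ⟨β, p, rfl, hp⟩ := link_of h h1 h2
  obtain ⟨γ, s, rfl, hs⟩ := link_of k k1 k2
  have hlt := p.2
  have hlt' := s.2
  obtain rfl : p = s := by
    apply Subtype.ext
    rcases hp with ⟨a, b⟩ | ⟨a, b, -⟩ <;> rcases hs with ⟨c, d⟩ | ⟨c, d, -⟩
    · exact Prod.ext (a.trans c.symm) (b.trans d.symm)
    · rw [a, b] at hlt; rw [c, d] at hlt'; exact absurd hlt (not_lt.2 hlt'.le)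
    · rw [a, b] at hlt; rw [c, d] at hlt'; exact absurd hlt (not_lt.2 hlt'.le)
    · exact Prod.ext (a.trans c.symm) (b.trans d.symm)
  simp only [og] at e
  split_ifs at e
  · rw [e]
  · rw [inv_injective e]

lemma og_bal {φ : Fin 3 → B} {p : P} {q q' : Fin 3}
    (h : vs (Sum.inr (φ p.1.1 * (φ p.1.2)⁻¹, p) : E B) ⊆ {q, q'}) :
    og q (Sum.inr (φ p.1.1 * (φ p.1.2)⁻¹, p) : E B) = φ q * (φ q')⁻¹ := by
  obtain ⟨β, s, e, hs⟩ := link_of h (by simp) (by simp)
  simp only [Sum.inr.injEq, Prod.mk.injEq] at e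
  obtain ⟨-, rfl⟩ := e
  rcases hs with ⟨a, b⟩ | ⟨a, b, c⟩
  · simp [og, a, b]
  · simp [og, a, b, c.symm]

lemma fin_aux (V W : Finset (Fin 3)) (hV : V.card ≤ 2) (hW : W.card ≤ 2)
    (h : 3 ≤ (V ∪ W).card) (s : Finset (Fin 3)) (h1 : s ⊆ V) (h2 : s ⊆ W) : s.card ≤ 1 := by
  have := Finset.card_union_add_card_inter V W
  have := Finset.card_le_card (Finset.subset_inter h1 h2)
  omega

lemma joint_of {u : E B} (h : (vs u).card ≤ 1) : ∃ q, u = Sum.inl q := by
  rcases u with i | x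
  · exact ⟨i, rfl⟩
  · rw [vs_link] at h; omega

open Classical in
theorem emb (S : Set A) (a : A) (h1 : (1 : A) ∈ S) (ha : a ∈ S) (ha1 : a ≠ 1) (Y : Set (E A))
    (hYj : ∀ i, Sum.inl i ∈ Y) (hYl : ∀ α ∈ S, ∀ p, Sum.inr (α, p) ∈ Y) (g : E A → E B)
    (hg : InjOn g Y) (hI : ∀ X, X ⊆ Y → (Ind X ↔ Ind (g '' X))) :
    ∃ ψ : A → B, InjOn ψ S ∧ ∀ α ∈ S, ∀ β ∈ S, α * β ∈ S → ψ α * ψ β = ψ (α * β) := by
  have hdep : ∀ x ∈ Y, ∀ y ∈ Y, ∀ z ∈ Y, (¬ Ind {x, y, z} ↔ ¬ Ind {g x, g y, g z}) := by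
    intro x hx y hy z hz
    rw [hI _ (by rintro u (rfl | rfl | rfl) <;> assumption)]
    simp only [image_insert_eq, image_singleton]
  have gne : ∀ {x y : E A}, x ∈ Y → y ∈ Y → x ≠ y → g x ≠ g y := fun hx hy h e => h (hg hx hy e)
  -- every coordinate line goes to a coordinate line
  have line : ∀ p : P, (vs (g (Sum.inl p.1.1)) ∪ vs (g (Sum.inl p.1.2))).card ≤ 2 ∧
      ∀ α ∈ S, vs (g (Sum.inr (α, p))) ⊆ vs (g (Sum.inl p.1.1)) ∪ vs (g (Sum.inl p.1.2)) := by
    intro p
    have hne : (Sum.inl p.1.1 : E A) ≠ Sum.inl p.1.2 := fun h => p.2.ne (Sum.inl.inj h)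
    have hd : ∀ α ∈ S, ¬ Ind {g (Sum.inr (α, p)), g (Sum.inl p.1.1), g (Sum.inl p.1.2)} := by
      intro α hα
      rw [← hdep _ (hYl α hα p) _ (hYj _) _ (hYj _), dep_iff (by simp) (by simp) hne]
      left
      have : vs (Sum.inr (α, p) : E A) ∪ (vs (Sum.inl p.1.1 : E A) ∪ vs (Sum.inl p.1.2 : E A)) =
          vs (Sum.inr (α, p) : E A) := by
        ext i; simp [vs]
      rw [this, vs_link]
    have hV : (vs (g (Sum.inl p.1.1)) ∪ vs (g (Sum.inl p.1.2))).card ≤ 2 := by
      by_contra hV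
      have hb : ∀ α ∈ S, Bal {g (Sum.inr (α, p)), g (Sum.inl p.1.1), g (Sum.inl p.1.2)} := by
        intro α hα
        rcases (dep_iff (gne (hYl α hα p) (hYj _) (by simp)) (gne (hYl α hα p) (hYj _) (by simp))
          (gne (hYj _) (hYj _) hne)).1 (hd α hα) with h | h
        · exact absurd ((Finset.card_le_card Finset.subset_union_right).trans h) hV
        · exact h
      refine gne (hYl a ha p) (hYl 1 h1 p) (by simp [ha1]) ?_
      exact bal_uniq (gne (hYj _) (hYj _) hne) (gne (hYl a ha p) (hYj _) (by simp))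
        (gne (hYl a ha p) (hYj _) (by simp)) (gne (hYl 1 h1 p) (hYj _) (by simp))
        (gne (hYl 1 h1 p) (hYj _) (by simp)) (hb a ha) (hb 1 h1)
    exact ⟨hV, fun α hα => sub_of_dep (gne (hYj _) (hYj _) hne)
      (gne (hYl α hα p) (hYj _) (by simp)) (gne (hYl α hα p) (hYj _) (by simp)) hV (hd α hα)⟩
  have l01 := line p01
  have l02 := line p02
  have l12 := line p12
  simp only [p01, p02, p12] at l01 l02 l12
  have hj : 3 ≤ (vs (g (Sum.inl 0)) ∪ (vs (g (Sum.inl 1)) ∪ vs (g (Sum.inl 2)))).card := by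
    by_contra h
    have := (dep_iff (gne (hYj 0) (hYj 1) (by simp)) (gne (hYj 0) (hYj 2) (by simp))
      (gne (hYj 1) (hYj 2) (by simp))).2 (Or.inl (by omega))
    rw [← hdep _ (hYj 0) _ (hYj 1) _ (hYj 2), dep_iff (by simp) (by simp) (by simp)] at this
    rcases this with h' | h'
    · revert h'; simp only [vs, Sum.elim_inl]; decide
    · exact h'.1 0 (by simp)
  obtain ⟨q0, e0⟩ := joint_of (fin_aux _ _ l01.1 l02.1
    (hj.trans (Finset.card_le_card (by intro i; simp only [Finset.mem_union]; tauto)))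
    (vs (g (Sum.inl 0))) Finset.subset_union_left Finset.subset_union_left)
  obtain ⟨q1, e1⟩ := joint_of (fin_aux _ _ l01.1 l12.1
    (hj.trans (Finset.card_le_card (by intro i; simp only [Finset.mem_union]; tauto)))
    (vs (g (Sum.inl 1))) Finset.subset_union_right Finset.subset_union_left)
  obtain ⟨q2, e2⟩ := joint_of (fin_aux _ _ l02.1 l12.1
    (hj.trans (Finset.card_le_card (by intro i; simp only [Finset.mem_union]; tauto)))
    (vs (g (Sum.inl 2))) Finset.subset_union_right Finset.subset_union_right)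
  rw [e0, e1, e2] at hj
  rw [e0, e1] at l01
  rw [e0, e2] at l02
  rw [e1, e2] at l12
  have m01 : ∀ α ∈ S, vs (g (Sum.inr (α, p01))) ⊆ {q0, q1} := fun α hα => l01.2 α hα
  have m02 : ∀ α ∈ S, vs (g (Sum.inr (α, p02))) ⊆ {q0, q2} := fun α hα => l02.2 α hα
  have m12 : ∀ α ∈ S, vs (g (Sum.inr (α, p12))) ⊆ {q1, q2} := fun α hα => l12.2 α hα
  have n0 : ∀ α ∈ S, ∀ p, g (Sum.inr (α, p)) ≠ Sum.inl q0 := fun α hα p =>
    e0 ▸ gne (hYl α hα p) (hYj 0) (by simp)
  have n1 : ∀ α ∈ S, ∀ p, g (Sum.inr (α, p)) ≠ Sum.inl q1 := fun α hα p =>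
    e1 ▸ gne (hYl α hα p) (hYj 1) (by simp)
  have n2 : ∀ α ∈ S, ∀ p, g (Sum.inr (α, p)) ≠ Sum.inl q2 := fun α hα p =>
    e2 ▸ gne (hYl α hα p) (hYj 2) (by simp)
  have hq : ∀ s : Finset (Fin 3), q0 ∈ s → q1 ∈ s → q2 ∈ s → 3 ≤ s.card := by
    intro s a0 a1 a2
    refine hj.trans (Finset.card_le_card ?_)
    intro i
    simp only [vs, Sum.elim_inl, Finset.mem_union, Finset.mem_singleton]
    rintro (rfl | rfl | rfl) <;> assumption
  have mul : ∀ α ∈ S, ∀ β ∈ S, α * β ∈ S → og q0 (g (Sum.inr (α, p01))) *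
      og q1 (g (Sum.inr (β, p12))) = og q0 (g (Sum.inr (α * β, p02))) := by
    intro α hα β hβ hαβ
    have d1 : (Sum.inr (α, p01) : E A) ≠ Sum.inr (β, p12) := by simp [p01, p12]
    have d2 : (Sum.inr (α, p01) : E A) ≠ Sum.inr (α * β, p02) := by simp [p01, p02]
    have d3 : (Sum.inr (β, p12) : E A) ≠ Sum.inr (α * β, p02) := by simp [p12, p02]
    have hd : ¬ Ind ({Sum.inr (α, p01), Sum.inr (β, p12), Sum.inr (α * β, p02)} :
        Set (E A)) := by
      rw [dep_iff d1 d2 d3]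
      right
      refine ⟨fun i => by simp, ![α * β, β, 1], ?_⟩
      intro x hx
      simp only [Finset.mem_insert, Finset.mem_singleton, Sum.inr.injEq] at hx
      rcases hx with rfl | rfl | rfl <;> simp [p01, p02, p12]
    rw [hdep _ (hYl α hα _) _ (hYl β hβ _) _ (hYl _ hαβ _), dep_iff
      (gne (hYl α hα _) (hYl β hβ _) d1) (gne (hYl α hα _) (hYl _ hαβ _) d2)
      (gne (hYl β hβ _) (hYl _ hαβ _) d3)] at hd
    rcases hd with hd | hd
    · exfalso
      obtain ⟨b1, s1, f1, k1⟩ := link_of (m01 α hα) (n0 α hα _) (n1 α hα _)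
      obtain ⟨b2, s2, f2, k2⟩ := link_of (m12 β hβ) (n1 β hβ _) (n2 β hβ _)
      rw [f1, f2] at hd
      refine absurd hd (not_le.2 (hq _ ?_ ?_ ?_))
      · rcases k1 with ⟨a, b⟩ | ⟨a, b, -⟩ <;> simp [vs, a, b]
      · rcases k1 with ⟨a, b⟩ | ⟨a, b, -⟩ <;> simp [vs, a, b]
      · rcases k2 with ⟨a, b⟩ | ⟨a, b, -⟩ <;> simp [vs, a, b]
    · obtain ⟨φ, p, q, s, f1, f2, f3⟩ := bal_links hd
      have k1 := m01 α hα
      have k2 := m12 β hβ
      have k3 := m02 _ hαβ
      rw [f1] at k1 ⊢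
      rw [f2] at k2 ⊢
      rw [f3] at k3 ⊢
      rw [og_bal k1, og_bal k2, og_bal k3]
      group
  refine ⟨fun α => og q0 (g (Sum.inr (α, p01))) * (og q0 (g (Sum.inr (1, p01))))⁻¹, ?_, ?_⟩
  · intro α hα β hβ e
    have := og_inj (m01 α hα) (n0 α hα _) (n1 α hα _) (m01 β hβ) (n0 β hβ _) (n1 β hβ _)
      (mul_right_cancel e)
    have := hg (hYl α hα _) (hYl β hβ _) this
    simpa using this
  · intro α hα β hβ hαβ
    have k1 := mul α hα β hβ hαβ
    have k2 := mul (α * β) hαβ 1 h1 (by simpa using hαβ)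
    have k3 := mul 1 h1 β hβ (by simpa using hβ)
    have k4 := mul β hβ 1 h1 (by simpa using hβ)
    simp only [mul_one, one_mul] at k2 k3 k4
    dsimp only
    generalize og q0 (g (Sum.inr (α, p01))) = x at *
    generalize og q0 (g (Sum.inr (β, p01))) = y at *
    generalize og q0 (g (Sum.inr (α * β, p01))) = z at *
    generalize og q0 (g (Sum.inr (1, p01))) = u at *
    generalize og q1 (g (Sum.inr (β, p12))) = v at *
    generalize og q1 (g (Sum.inr (1, p12))) = w at *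
    have k5 : v = u⁻¹ * (y * w) := by rw [k4, ← k3]; group
    have k6 : z = x * v * w⁻¹ := by rw [k1, ← k2]; group
    rw [k6, k5]; group

lemma fin_comm [Finite B] (x y : B) (h : y * (x * x) = x * x * x * y) :
    x * (y * x * y⁻¹) = (y * x * y⁻¹) * x := by
  have h1 : y * x ^ 2 * y⁻¹ = x ^ 3 := by
    rw [show x ^ 2 = x * x from sq x, h, pow_three']; group
  have h2 : ∀ k : ℕ, y * x ^ (2 * k) * y⁻¹ = x ^ (3 * k) := by
    intro k
    rw [pow_mul, pow_mul, ← h1, conj_pow]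
  have hpos : 0 < orderOf x := orderOf_pos x
  rcases Nat.even_or_odd' (orderOf x) with ⟨m, hm | hm⟩
  · exfalso
    have e1 : x ^ (2 * m) = 1 := by rw [← hm]; exact pow_orderOf_eq_one x
    have e2 : x ^ (3 * m) = 1 := by rw [← h2, e1]; group
    have e3 : x ^ m = 1 := by
      have : x ^ (3 * m) = x ^ (2 * m) * x ^ m := by rw [← pow_add]; congr 1; ring
      rw [e2, e1, one_mul] at this; exact this.symm
    have := Nat.le_of_dvd (by omega) (orderOf_dvd_of_pow_eq_one e3)
    omega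
  · have e1 : x ^ (2 * (m + 1)) = x := by
      rw [show 2 * (m + 1) = orderOf x + 1 by omega, pow_succ, pow_orderOf_eq_one, one_mul]
    have e2 := h2 (m + 1)
    rw [e1] at e2
    rw [e2]
    exact (Commute.self_pow x _).eq

end Emb

section Grp

abbrev X : Type := ℚ × ZMod 2

open Classical in
noncomputable def chi (x : ℚ) : ZMod 2 := if ∃ k : ℤ, x = 3 * k then 1 else 0

lemma chi_add (x : ℚ) : chi (x + 3) = chi x := by
  unfold chi
  congr 1
  apply propext
  constructor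
  · rintro ⟨k, hk⟩; exact ⟨k - 1, by push_cast; linarith⟩
  · rintro ⟨k, hk⟩; exact ⟨k + 1, by push_cast; linarith⟩

def pa : Equiv.Perm X := Equiv.prodCongr (Equiv.addRight 1) (Equiv.refl _)

noncomputable def pt : Equiv.Perm X where
  toFun x := (3 / 2 * x.1, x.2 + chi (3 / 2 * x.1))
  invFun x := (2 / 3 * x.1, x.2 - chi x.1)
  left_inv x := by
    ext
    · simp; ring
    · simp
  right_inv x := by
    have : 3 / 2 * (2 / 3 * x.1) = x.1 := by ring
    ext
    · simp; ring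
    · simp [this]

lemma rel : pt * (pa * pa) = pa * pa * pa * pt := by
  ext x
  · simp [pa, pt]; ring
  · have : (3 : ℚ) / 2 * (x.1 + 1 + 1) = 3 / 2 * x.1 + 3 := by ring
    simp [pa, pt, this, chi_add]

lemma chi_zero : chi 0 = 1 := by
  unfold chi; rw [if_pos ⟨0, by simp⟩]

lemma chi_ne (x : ℚ) (h0 : 0 < x) (h3 : x < 3) : chi x = 0 := by
  unfold chi
  rw [if_neg]
  rintro ⟨k, rfl⟩
  have h1 : (0 : ℤ) < k := by exact_mod_cast (by linarith : (0 : ℚ) < k)
  have h2 : k < (1 : ℤ) := by exact_mod_cast (by linarith : (k : ℚ) < 1)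
  omega

lemma ncomm : pa * (pt * pa * pt⁻¹) ≠ (pt * pa * pt⁻¹) * pa := by
  intro h
  have := congrArg (fun e : Equiv.Perm X => (e (0, 0)).2) h
  simp only [Equiv.Perm.coe_mul, Function.comp_apply, Equiv.Perm.inv_def] at this
  simp [pa, pt] at this
  rw [chi_zero, chi_ne _ (by norm_num) (by norm_num), chi_ne _ (by norm_num) (by norm_num),
    chi_ne _ (by norm_num) (by norm_num)] at this
  revert this; decide

lemma pa_ne : pa ≠ 1 := by
  intro h
  apply ncomm
  rw [h]; group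

end Grp

end Pool.Agent.H10.Dowl
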