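import Mathlib

set_option autoImplicit false

namespace Pool.Agent.H10.Dress

abbrev F := Fin 9

def tab (m : ℕ) : ℕ := (279095111627852376407822673918065072905887935345660252616078444321004553794632734846670397129816087824539900320185752748697174774099406275418871420922392843349420571588327522721725840324092479331811110379513051681091052313194707874244897351556247769521619204335958950918425799528882530414930443626613868359643105290815560549486470974506248411575655582432983955948668273103768412118270831732247750263565515887821114347983323585645413423219095904568824803691551658915869987952695527066646545305615904434383741706624367744083854203625412755456 >>> (4 * m)) % 16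

def mk (B : Finset F) : ℕ := ∑ i ∈ B, 2 ^ (i : ℕ)

theorem mk_inj : Function.Injective mk := by
  intro A B h
  have h2 : ∀ C : Finset F, mk C = ∑ i ∈ C.map Fin.valEmbedding, 2 ^ i := by
    intro C; simp [mk]
  rw [h2, h2] at h
  exact Finset.map_injective _ (Finset.geomSum_injective le_rfl h)

noncomputable def w (B : Finset F) : ℝ := (tab (mk B) : ℝ)

def m3 (a b e : F) : ℕ := 2 ^ (a : ℕ) + (2 ^ (b : ℕ) + 2 ^ (e : ℕ))

def T (a b e : F) : ℕ := tab (m3 a b e)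

theorem s3 {R : Type} [AddCommMonoid R] (f : F → R) (a b e : F) (h1 : a ≠ b) (h2 : a ≠ e)
    (h3 : b ≠ e) : ∑ i ∈ ({a, b, e} : Finset F), f i = f a + (f b + f e) := by
  rw [Finset.sum_insert (by simp [h1, h2]), Finset.sum_insert (by simp [h3]), Finset.sum_singleton]

theorem mk3 (a b e : F) (h1 : a ≠ b) (h2 : a ≠ e) (h3 : b ≠ e) : mk {a, b, e} = m3 a b e :=
  s3 _ a b e h1 h2 h3

theorem w3 (a b e : F) (h1 : a ≠ b) (h2 : a ≠ e) (h3 : b ≠ e) : w {a, b, e} = T a b e := by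
  rw [w, mk3 a b e h1 h2 h3, T]

theorem c3 (a b e : F) (h1 : a ≠ b) (h2 : a ≠ e) (h3 : b ≠ e) :
    ({a, b, e} : Finset F).card = 3 := Finset.card_eq_three.2 ⟨a, b, e, h1, h2, h3, rfl⟩

def pl (s i j k l : F) : Prop :=
    (T i j s + T k l s = T i k s + T j l s ∧ T i j s + T k l s ≤ T i l s + T j k s) ∨
    (T i j s + T k l s = T i l s + T j k s ∧ T i j s + T k l s ≤ T i k s + T j l s) ∨
    (T i k s + T j l s = T i l s + T j k s ∧ T i k s + T j l s ≤ T i j s + T k l s)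

instance (s i j k l : F) : Decidable (pl s i j k l) := by unfold pl; infer_instance

def ds (s i j k l : F) : Prop := i ≠ s ∧ j ≠ s ∧ k ≠ s ∧ l ≠ s ∧ i ≠ j ∧ i ≠ k ∧ i ≠ l ∧ j ≠ k ∧
    j ≠ l ∧ k ≠ l

instance (s i j k l : F) : Decidable (ds s i j k l) := by unfold ds; infer_instance

theorem plT : ∀ s i j k l : F, ds s i j k l → pl s i j k l := by
  decide +kernel

def Am (v : Finset F → ℝ) (c : F → ℝ) : Set (Finset F) :=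
  {B : Finset F | B.card = 3 ∧ ∀ B' : Finset F, B'.card = 3 →
    v B - ∑ i ∈ B, c i ≤ v B' - ∑ i ∈ B', c i}

def cv (k : ℕ) (i : F) : ℕ := (([[2, 1, 0, 2, 2, 0, 1, 1, 2], [1, 0, 0, 1, 1, 0, 1, 0, 1], [1, 1, 0, 1, 1, 0, 1, 1, 1], [2, 0, 1, 1, 2, 0, 2, 0, 2], [3, 0, 1, 1, 3, 0, 2, 0, 2], [2, 0, 0, 1, 2, 0, 1, 0, 2], [0, 0, 0, 0, 0, 0, 0, 0, 0]] : List (List ℕ)).getD k []).getD i 0

def off (k : ℕ) : ℕ := ([3, 1, 2, 3, 4, 2, 0] : List ℕ).getD k 0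

theorem cell_low : ∀ k < 7, ∀ a b e : F, a ≠ b → a ≠ e → b ≠ e →
    cv k a + (cv k b + cv k e) ≤ T a b e + off k := by decide +kernel

abbrev Tr := F × F × F

def good (k : ℕ) (q : Tr) : Prop := q.1 ≠ q.2.1 ∧ q.1 ≠ q.2.2 ∧ q.2.1 ≠ q.2.2 ∧
  T q.1 q.2.1 q.2.2 + off k = cv k q.1 + (cv k q.2.1 + cv k q.2.2)

instance (k : ℕ) (q : Tr) : Decidable (good k q) := by unfold good; infer_instance

def fs (q : Tr) : Finset F := {q.1, q.2.1, q.2.2}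

def mq (q : Tr) : ℕ := m3 q.1 q.2.1 q.2.2

theorem good_mem {k : ℕ} (hk : k < 7) {q : Tr} (h : good k q) :
    fs q ∈ Am w (fun i => (cv k i : ℝ)) := by
  obtain ⟨h1, h2, h3, h4⟩ := h
  refine ⟨c3 _ _ _ h1 h2 h3, fun B hB => ?_⟩
  obtain ⟨a, b, e, k1, k2, k3, rfl⟩ := Finset.card_eq_three.1 hB
  have h5 := cell_low k hk a b e k1 k2 k3
  rw [fs, w3 _ _ _ h1 h2 h3, w3 _ _ _ k1 k2 k3, s3 _ _ _ _ h1 h2 h3, s3 _ _ _ _ k1 k2 k3]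
  have h4' := congrArg (Nat.cast : ℕ → ℝ) h4
  have h5' := (Nat.cast_le (α := ℝ)).2 h5
  push_cast at h4' h5'
  linarith

abbrev St := ℕ × Tr × Tr × Tr × Tr

def ls (p q : Tr) : List F := [p.1, p.2.1, p.2.2, q.1, q.2.1, q.2.2]

def valid (s : St) : Prop := s.1 < 7 ∧ good s.1 s.2.1 ∧ good s.1 s.2.2.1 ∧ good s.1 s.2.2.2.1 ∧
  good s.1 s.2.2.2.2 ∧ (ls s.2.1 s.2.2.1).Perm (ls s.2.2.2.1 s.2.2.2.2)

instance (s : St) : Decidable (valid s) := by unfold valid; infer_instance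

theorem sum_fs (f : F → ℝ) {k : ℕ} {q : Tr} (h : good k q) :
    ∑ i ∈ fs q, f i = f q.1 + (f q.2.1 + f q.2.2) := s3 _ _ _ _ h.1 h.2.1 h.2.2.1

theorem lin4 (f : F → ℝ) {s : St} (h : valid s) :
    ∑ i ∈ fs s.2.1, f i + ∑ i ∈ fs s.2.2.1, f i =
      ∑ i ∈ fs s.2.2.2.1, f i + ∑ i ∈ fs s.2.2.2.2, f i := by
  obtain ⟨-, h1, h2, h3, h4, h5⟩ := h
  rw [sum_fs f h1, sum_fs f h2, sum_fs f h3, sum_fs f h4]
  have := (h5.map f).sum_eq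
  simp only [ls, List.map_cons, List.map_nil, List.sum_cons, List.sum_nil] at this
  linarith

theorem four (v : Finset F → ℝ) (H : ∀ c, ∃ c', Am w c ⊆ Am v c') {s : St} (h : valid s) :
    v (fs s.2.1) + v (fs s.2.2.1) = v (fs s.2.2.2.1) + v (fs s.2.2.2.2) := by
  obtain ⟨c', hc⟩ := H (fun i => (cv s.1 i : ℝ))
  have hl := lin4 c' h
  obtain ⟨hk, h1, h2, h3, h4, -⟩ := h
  have g1 := hc (good_mem hk h1)
  have g2 := hc (good_mem hk h2)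
  have g3 := hc (good_mem hk h3)
  have g4 := hc (good_mem hk h4)
  have := g1.2 _ g3.1
  have := g3.2 _ g1.1
  have := g2.2 _ g4.1
  have := g4.2 _ g2.1
  linarith

def run : List ℕ → List St → Prop
  | K, [] => ∀ a b e : F, a ≠ b → a ≠ e → b ≠ e → m3 a b e ∈ K
  | K, s :: ss => valid s ∧ mq s.2.2.1 ∈ K ∧ mq s.2.2.2.1 ∈ K ∧ mq s.2.2.2.2 ∈ K ∧
      run (mq s.2.1 :: K) ss

instance decRun : ∀ (K : List ℕ) (ss : List St), Decidable (run K ss)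
  | K, [] => by unfold run; infer_instance
  | K, s :: ss => by
    unfold run
    haveI := decRun (mq s.2.1 :: K) ss
    infer_instance

theorem run_ok (u : Finset F → ℝ)
    (hu : ∀ s : St, valid s → u (fs s.2.1) + u (fs s.2.2.1) = u (fs s.2.2.2.1) + u (fs s.2.2.2.2)) :
    ∀ (ss : List St) (K : List ℕ), run K ss → (∀ B, mk B ∈ K → u B = 0) →
      ∀ B : Finset F, B.card = 3 → u B = 0 := by
  intro ss
  induction ss with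
  | nil =>
    intro K h hK B hB
    obtain ⟨a, b, e, k1, k2, k3, rfl⟩ := Finset.card_eq_three.1 hB
    exact hK _ (by rw [mk3 a b e k1 k2 k3]; exact h a b e k1 k2 k3)
  | cons s ss ih =>
    intro K h hK
    obtain ⟨hv, h2, h3, h4, h5⟩ := h
    refine ih _ h5 ?_
    have e : ∀ q, good s.1 q → mk (fs q) = mq q := fun q g => mk3 _ _ _ g.1 g.2.1 g.2.2.1
    intro B hB
    rcases List.mem_cons.1 hB with hB | hB
    · rw [← e _ hv.2.1] at hB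
      rw [mk_inj hB]
      have := hu s hv
      have z2 := hK (fs s.2.2.1) (by rw [e _ hv.2.2.1]; exact h2)
      have z3 := hK (fs s.2.2.2.1) (by rw [e _ hv.2.2.2.1]; exact h3)
      have z4 := hK (fs s.2.2.2.2) (by rw [e _ hv.2.2.2.2.1]; exact h4)
      linarith
    · exact hK B hB

def steps : List St := [
  (0, (1, 3, 7), (1, 4, 5), (1, 3, 5), (1, 4, 7)),
  (0, (1, 4, 8), (1, 3, 7), (1, 3, 4), (1, 7, 8)),
  (0, (1, 3, 8), (1, 4, 7), (1, 3, 4), (1, 7, 8)),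
  (0, (1, 5, 8), (1, 3, 7), (1, 3, 5), (1, 7, 8)),
  (0, (1, 3, 6), (1, 7, 8), (1, 3, 7), (1, 6, 8)),
  (1, (1, 4, 6), (1, 5, 8), (1, 4, 5), (1, 6, 8)),
  (2, (1, 5, 6), (1, 7, 8), (1, 5, 7), (1, 6, 8)),
  (2, (1, 6, 7), (1, 5, 8), (1, 5, 6), (1, 7, 8)),
  (3, (0, 1, 6), (2, 6, 8), (0, 2, 6), (1, 6, 8)),
  (3, (2, 4, 6), (1, 6, 8), (1, 4, 6), (2, 6, 8)),
  (0, (0, 3, 7), (1, 7, 8), (0, 7, 8), (1, 3, 7)),
  (0, (0, 4, 7), (1, 7, 8), (0, 7, 8), (1, 4, 7)),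
  (0, (0, 3, 8), (1, 7, 8), (0, 7, 8), (1, 3, 8)),
  (0, (0, 3, 4), (0, 7, 8), (0, 3, 8), (0, 4, 7)),
  (0, (0, 1, 3), (1, 4, 6), (0, 1, 6), (1, 3, 4)),
  (0, (0, 1, 4), (1, 3, 6), (0, 1, 6), (1, 3, 4)),
  (0, (0, 1, 7), (1, 3, 4), (0, 1, 3), (1, 4, 7)),
  (0, (0, 1, 8), (1, 3, 4), (0, 1, 3), (1, 4, 8)),
  (1, (0, 1, 5), (1, 3, 6), (0, 1, 6), (1, 3, 5)),
  (0, (3, 4, 5), (0, 1, 3), (0, 3, 4), (1, 3, 5)),
  (0, (0, 3, 5), (1, 3, 4), (0, 1, 3), (3, 4, 5)),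
  (0, (3, 4, 6), (0, 1, 3), (0, 3, 4), (1, 3, 6)),
  (0, (0, 3, 6), (1, 3, 4), (0, 1, 3), (3, 4, 6)),
  (0, (3, 4, 7), (0, 1, 3), (0, 3, 4), (1, 3, 7)),
  (0, (3, 4, 8), (0, 1, 3), (0, 3, 4), (1, 3, 8)),
  (0, (3, 5, 7), (0, 1, 3), (0, 3, 5), (1, 3, 7)),
  (0, (3, 5, 8), (0, 1, 3), (0, 3, 5), (1, 3, 8)),
  (0, (3, 6, 7), (0, 1, 3), (0, 3, 6), (1, 3, 7)),
  (0, (3, 6, 8), (0, 1, 3), (0, 3, 6), (1, 3, 8)),
  (0, (3, 7, 8), (0, 1, 3), (0, 3, 7), (1, 3, 8)),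
  (4, (0, 2, 4), (1, 4, 6), (0, 1, 4), (2, 4, 6)),
  (0, (4, 5, 7), (0, 1, 4), (0, 4, 7), (1, 4, 5)),
  (0, (4, 6, 7), (0, 1, 4), (0, 4, 7), (1, 4, 6)),
  (0, (4, 7, 8), (0, 1, 4), (0, 4, 7), (1, 4, 8)),
  (1, (3, 5, 6), (0, 1, 5), (0, 3, 5), (1, 5, 6)),
  (1, (0, 5, 6), (1, 3, 5), (0, 1, 5), (3, 5, 6)),
  (1, (0, 5, 7), (1, 3, 5), (0, 1, 5), (3, 5, 7)),
  (1, (4, 5, 6), (0, 1, 5), (0, 5, 6), (1, 4, 5)),
  (1, (5, 6, 7), (0, 1, 5), (0, 5, 7), (1, 5, 6)),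
  (1, (5, 6, 8), (0, 1, 5), (0, 5, 6), (1, 5, 8)),
  (1, (5, 7, 8), (0, 1, 5), (0, 5, 7), (1, 5, 8)),
  (1, (0, 6, 7), (1, 3, 6), (0, 1, 6), (3, 6, 7)),
  (1, (6, 7, 8), (0, 1, 6), (0, 6, 7), (1, 6, 8)),
  (5, (0, 5, 8), (1, 6, 8), (0, 1, 8), (5, 6, 8)),
  (5, (0, 6, 8), (1, 5, 8), (0, 1, 8), (5, 6, 8)),
  (5, (4, 5, 8), (0, 3, 8), (0, 5, 8), (3, 4, 8)),
  (5, (0, 4, 8), (3, 5, 8), (0, 5, 8), (3, 4, 8)),
  (5, (4, 6, 8), (0, 3, 8), (0, 4, 8), (3, 6, 8)),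
  (5, (0, 4, 5), (0, 1, 6), (0, 1, 4), (0, 5, 6)),
  (3, (1, 2, 6), (0, 6, 8), (0, 1, 6), (2, 6, 8)),
  (3, (2, 3, 6), (0, 6, 8), (0, 2, 6), (3, 6, 8)),
  (3, (2, 5, 6), (0, 6, 8), (0, 2, 6), (5, 6, 8)),
  (3, (2, 6, 7), (0, 6, 8), (0, 2, 6), (6, 7, 8)),
  (2, (0, 2, 7), (1, 6, 7), (0, 1, 7), (2, 6, 7)),
  (2, (1, 2, 7), (0, 6, 7), (0, 1, 7), (2, 6, 7)),
  (0, (2, 7, 8), (0, 1, 7), (0, 2, 7), (1, 7, 8)),
  (0, (2, 4, 7), (0, 3, 7), (0, 2, 7), (3, 4, 7)),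
  (0, (2, 3, 7), (0, 4, 7), (0, 2, 7), (3, 4, 7)),
  (0, (1, 2, 8), (0, 7, 8), (0, 1, 8), (2, 7, 8)),
  (0, (2, 3, 8), (0, 7, 8), (0, 3, 8), (2, 7, 8)),
  (5, (0, 2, 8), (4, 7, 8), (0, 4, 8), (2, 7, 8)),
  (5, (2, 4, 8), (0, 7, 8), (0, 2, 8), (4, 7, 8)),
  (5, (2, 5, 8), (0, 6, 8), (0, 2, 8), (5, 6, 8)),
  (0, (0, 1, 2), (0, 3, 7), (0, 1, 3), (0, 2, 7)),
  (0, (0, 2, 3), (0, 1, 7), (0, 1, 2), (0, 3, 7)),
  (5, (0, 2, 5), (0, 1, 4), (0, 1, 2), (0, 4, 5)),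
  (4, (0, 4, 6), (0, 1, 2), (0, 1, 4), (0, 2, 6)),
  (0, (1, 2, 4), (0, 1, 3), (0, 1, 2), (1, 3, 4)),
  (0, (1, 2, 3), (0, 1, 4), (0, 1, 2), (1, 3, 4)),
  (1, (2, 3, 4), (0, 1, 2), (0, 2, 3), (1, 2, 4)),
  (1, (2, 3, 5), (0, 1, 2), (0, 2, 5), (1, 2, 3)),
  (1, (2, 4, 5), (0, 1, 2), (0, 2, 5), (1, 2, 4)),
  (6, (2, 5, 7), (0, 1, 2), (0, 2, 5), (1, 2, 7)),
  (6, (1, 2, 5), (0, 2, 7), (0, 1, 2), (2, 5, 7))]

theorem run_steps : run [146, 69, 42, 324, 162, 322, 386, 26, 50, 385] steps := by decide +kernel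

theorem rigid (v : Finset F → ℝ) (H : ∀ c, ∃ c', Am w c ⊆ Am v c') :
    ∃ (t : ℝ) (a : F → ℝ), ∀ B : Finset F, B.card = 3 → v B = t * w B + ∑ i ∈ B, a i := by
  let y : Fin 10 → ℝ := ![v {1, 4, 7}, v {0, 2, 6}, v {1, 3, 5}, v {2, 6, 8}, v {1, 5, 7}, v {1, 6, 8}, v {1, 7, 8}, v {1, 3, 4}, v {1, 4, 5}, v {0, 7, 8}]
  refine ⟨(-1 / 1) * y 0 + (-1 / 1) * y 2 + (1 / 1) * y 4 + (1 / 1) * y 7, ![(1 / 3) * y 0 + (2 / 3) * y 1 + (2 / 3) * y 2 + (-2 / 3) * y 3 + (-1 / 1) * y 4 + (1 / 3) * y 6 + (-2 / 3) * y 7 + (1 / 3) * y 8 + (1 / 3) * y 9, (-2 / 3) * y 0 + (2 / 3) * y 1 + (-1 / 3) * y 2 + (-2 / 3) * y 3 + (4 / 3) * y 6 + (1 / 3) * y 7 + (1 / 3) * y 8 + (-2 / 3) * y 9, (1 / 3) * y 0 + (2 / 3) * y 1 + (2 / 3) * y 2 + (1 / 3) * y 3 + (-1 / 1) * y 4 + (-1 / 1) * y 5 + (4 / 3) * y 6 + (-2 / 3) * y 7 + (1 / 3) * y 8 + (-2 / 3) * y 9, (4 / 3) * y 0 + (-1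 / 3) * y 1 + (5 / 3) * y 2 + (1 / 3) * y 3 + (-1 / 1) * y 4 + (-2 / 3) * y 6 + (-2 / 3) * y 7 + (-2 / 3) * y 8 + (1 / 3) * y 9, (4 / 3) * y 0 + (-1 / 3) * y 1 + (2 / 3) * y 2 + (1 / 3) * y 3 + (-1 / 1) * y 4 + (-2 / 3) * y 6 + (-2 / 3) * y 7 + (1 / 3) * y 8 + (1 / 3) * y 9, (-2 / 3) * y 0 + (-1 / 3) * y 1 + (-1 / 3) * y 2 + (1 / 3) * y 3 + (1 / 1) * y 4 + (-2 / 3) * y 6 + (1 / 3) * y 7 + (1 / 3) * y 8 + (1 / 3) * y 9, (4 / 3) * y 0 + (-1 / 3) * y 1 + (2 / 3) * y 2 + (1 / 3) * y 3 + (1 / 1) * y 5 + (-5 / 3) * y 6 + (-2 / 3) * y 7 + (-2 / 3) * y 8 + (1 / 3) * y 9, (4 / 3) * y 0 + (-1 / 3) * y 1 + (2 / 3) * y 2 + (1 / 3) * y 3 + (-2 / 3) * y 6 + (-2 / 3) * y 7 + (-2 / 3) * y 8 + (1 / 3) * y 9, (1 / 3) * y 0 + (-1 / 3) * y 1 + (2 / 3) * y 2 + (1 / 3) * y 3 + (-1 / 1) * y 4 + (1 / 3) * y 6 + (-2 / 3) * y 7 + (1 / 3) * y 8 + (1 / 3) * y 9], ?_⟩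
  set t : ℝ := (-1 / 1) * y 0 + (-1 / 1) * y 2 + (1 / 1) * y 4 + (1 / 1) * y 7 with ht
  set a : F → ℝ := ![(1 / 3) * y 0 + (2 / 3) * y 1 + (2 / 3) * y 2 + (-2 / 3) * y 3 + (-1 / 1) * y 4 + (1 / 3) * y 6 + (-2 / 3) * y 7 + (1 / 3) * y 8 + (1 / 3) * y 9, (-2 / 3) * y 0 + (2 / 3) * y 1 + (-1 / 3) * y 2 + (-2 / 3) * y 3 + (4 / 3) * y 6 + (1 / 3) * y 7 + (1 / 3) * y 8 + (-2 / 3) * y 9, (1 / 3) * y 0 + (2 / 3) * y 1 + (2 / 3) * y 2 + (1 / 3) * y 3 + (-1 / 1) * y 4 + (-1 / 1) * y 5 + (4 / 3) * y 6 + (-2 / 3) * y 7 + (1 / 3) * y 8 + (-2 / 3) * y 9, (4 / 3) * y 0 + (-1 / 3) * y 1 + (5 / 3) * y 2 + (1 / 3) * y 3 + (-1 / 1) * y 4 + (-2 / 3) * y 6 + (-2 / 3) * y 7 + (-2 / 3) * y 8 + (1 / 3) * y 9, (4 / 3) * y 0 + (-1 / 3) * y 1 + (2 / 3) * y 2 + (1 / 3) * y 3 + (-1 / 1) * y 4 + (-2 / 3) * y 6 + (-2 / 3) * y 7 + (1 / 3) * y 8 + (1 / 3) * y 9, (-2 / 3) *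 y 0 + (-1 / 3) * y 1 + (-1 / 3) * y 2 + (1 / 3) * y 3 + (1 / 1) * y 4 + (-2 / 3) * y 6 + (1 / 3) * y 7 + (1 / 3) * y 8 + (1 / 3) * y 9, (4 / 3) * y 0 + (-1 / 3) * y 1 + (2 / 3) * y 2 + (1 / 3) * y 3 + (1 / 1) * y 5 + (-5 / 3) * y 6 + (-2 / 3) * y 7 + (-2 / 3) * y 8 + (1 / 3) * y 9, (4 / 3) * y 0 + (-1 / 3) * y 1 + (2 / 3) * y 2 + (1 / 3) * y 3 + (-2 / 3) * y 6 + (-2 / 3) * y 7 + (-2 / 3) * y 8 + (1 / 3) * y 9, (1 / 3) * y 0 + (-1 / 3) * y 1 + (2 / 3) * y 2 + (1 / 3) * y 3 + (-1 / 1) * y 4 + (1 / 3) * y 6 + (-2 / 3) * y 7 + (1 / 3) * y 8 + (1 / 3) * y 9] with ha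
  have key := run_ok (fun B => v B - (t * w B + ∑ i ∈ B, a i)) (by
    intro s hs
    have h1 := four v H hs
    have h2 := four w (fun c => ⟨c, subset_rfl⟩) hs
    have h3 := lin4 a hs
    linear_combination h1 - t * h2 - h3) steps _ run_steps (by
    intro B hB
    have hB' : B ∈ ([{1, 4, 7}, {0, 2, 6}, {1, 3, 5}, {2, 6, 8}, {1, 5, 7}, {1, 6, 8}, {1, 7, 8}, {1, 3, 4}, {1, 4, 5}, {0, 7, 8}] : List (Finset F)) := by
      refine (List.mem_map_of_injective mk_inj).1 ?_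
      have : ([{1, 4, 7}, {0, 2, 6}, {1, 3, 5}, {2, 6, 8}, {1, 5, 7}, {1, 6, 8}, {1, 7, 8}, {1, 3, 4}, {1, 4, 5}, {0, 7, 8}] : List (Finset F)).map mk = [146, 69, 42, 324, 162, 322, 386, 26, 50, 385] := by
        decide +kernel
      rw [this]; exact hB
    simp only [List.mem_cons, List.not_mem_nil, or_false] at hB'
    rw [ht, ha]
    rcases hB' with rfl | rfl | rfl | rfl | rfl | rfl | rfl | rfl | rfl | rfl
    · rw [w3 _ _ _ (by decide) (by decide) (by decide), s3 _ _ _ _ (by decide) (by decide) (by decide)]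
      have : T 1 4 7 = 1 := by decide +kernel
      rw [this]; simp [y]; ring
    · rw [w3 _ _ _ (by decide) (by decide) (by decide), s3 _ _ _ _ (by decide) (by decide) (by decide)]
      have : T 0 2 6 = 2 := by decide +kernel
      rw [this]; simp [y]; ring
    · rw [w3 _ _ _ (by decide) (by decide) (by decide), s3 _ _ _ _ (by decide) (by decide) (by decide)]
      have : T 1 3 5 = 0 := by decide +kernel
      rw [this]; simp [y]; ring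
    · rw [w3 _ _ _ (by decide) (by decide) (by decide), s3 _ _ _ _ (by decide) (by decide) (by decide)]
      have : T 2 6 8 = 2 := by decide +kernel
      rw [this]; simp [y]; ring
    · rw [w3 _ _ _ (by decide) (by decide) (by decide), s3 _ _ _ _ (by decide) (by decide) (by decide)]
      have : T 1 5 7 = 0 := by decide +kernel
      rw [this]; simp [y]; ring
    · rw [w3 _ _ _ (by decide) (by decide) (by decide), s3 _ _ _ _ (by decide) (by decide) (by decide)]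
      have : T 1 6 8 = 1 := by decide +kernel
      rw [this]; simp [y]; ring
    · rw [w3 _ _ _ (by decide) (by decide) (by decide), s3 _ _ _ _ (by decide) (by decide) (by decide)]
      have : T 1 7 8 = 1 := by decide +kernel
      rw [this]; simp [y]; ring
    · rw [w3 _ _ _ (by decide) (by decide) (by decide), s3 _ _ _ _ (by decide) (by decide) (by decide)]
      have : T 1 3 4 = 2 := by decide +kernel
      rw [this]; simp [y]; ring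
    · rw [w3 _ _ _ (by decide) (by decide) (by decide), s3 _ _ _ _ (by decide) (by decide) (by decide)]
      have : T 1 4 5 = 0 := by decide +kernel
      rw [this]; simp [y]; ring
    · rw [w3 _ _ _ (by decide) (by decide) (by decide), s3 _ _ _ _ (by decide) (by decide) (by decide)]
      have : T 0 7 8 = 2 := by decide +kernel
      rw [this]; simp [y]; ring)
  intro B hB
  have := key B hB
  linarith

theorem d1 : w {1, 3, 0} + w {2, 5, 0} = w {1, 2, 0} + w {3, 5, 0} + 1 ∧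
    w {1, 2, 0} + w {3, 5, 0} = w {1, 5, 0} + w {3, 2, 0} := by
  have h : ∀ B, w B = (tab (mk B) : ℝ) := fun _ => rfl
  simp only [h]
  norm_cast

theorem d3 : w {0, 4, 2} + w {1, 5, 2} = w {0, 1, 2} + w {4, 5, 2} + 3 := by
  have h : ∀ B, w B = (tab (mk B) : ℝ) := fun _ => rfl
  simp only [h]
  norm_cast

end Pool.Agent.H10.Dress
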