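import Mathlib

set_option autoImplicit false

namespace Pool.Agent.H10.EqPoly

open Complex Finset

/-- elements of the field Q(s i) -/
def InK (s : ℝ) (z : ℂ) : Prop := ∃ a b : ℚ, z.re = a ∧ z.im = b * s

def U (s : ℝ) : Set ℂ := {z | InK s z ∧ normSq z = 1}

variable {s : ℝ} {m : ℕ}

lemma InK.add {z w : ℂ} (hz : InK s z) (hw : InK s w) : InK s (z + w) := by
  obtain ⟨a, b, h1, h2⟩ := hz
  obtain ⟨c, d, h3, h4⟩ := hw
  refine ⟨a + c, b + d, ?_, ?_⟩
  · simp [h1, h3]
  · simp [h2, h4]; ring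

lemma InK.neg {z : ℂ} (hz : InK s z) : InK s (-z) := by
  obtain ⟨a, b, h1, h2⟩ := hz
  exact ⟨-a, -b, by simp [h1], by simp [h2]⟩

lemma InK.one : InK s 1 := ⟨1, 0, by simp, by simp⟩

lemma InK.mul (hs : s * s = m) {z w : ℂ} (hz : InK s z) (hw : InK s w) : InK s (z * w) := by
  obtain ⟨a, b, h1, h2⟩ := hz
  obtain ⟨c, d, h3, h4⟩ := hw
  refine ⟨a * c - b * d * m, a * d + b * c, ?_, ?_⟩
  · simp only [mul_re, h1, h2, h3, h4]; push_cast; rw [← hs]; ring
  · simp only [mul_im, h1, h2, h3, h4]; push_cast; ring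

lemma InK.inv (hs : s * s = m) {z : ℂ} (hz : InK s z) : InK s z⁻¹ := by
  obtain ⟨a, b, h1, h2⟩ := hz
  have hn : normSq z = ((a * a + b * b * m : ℚ) : ℝ) := by
    rw [normSq_apply, h1, h2]; push_cast; rw [← hs]; ring
  refine ⟨a / (a * a + b * b * m), -b / (a * a + b * b * m), ?_, ?_⟩
  · rw [inv_re, hn, h1]; push_cast; ring
  · rw [inv_im, hn, h2]; push_cast; ring

lemma U_ne {z : ℂ} (hz : z ∈ U s) : z ≠ 0 := by
  rintro rfl
  have := hz.2
  simp at this

lemma U_neg {z : ℂ} (hz : z ∈ U s) : -z ∈ U s := ⟨hz.1.neg, by rw [normSq_neg]; exact hz.2⟩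

lemma U_mul (hs : s * s = m) {z w : ℂ} (hz : z ∈ U s) (hw : w ∈ U s) : z * w ∈ U s :=
  ⟨hz.1.mul hs hw.1, by rw [map_mul, hz.2, hw.2, one_mul]⟩

lemma U_one : (1 : ℂ) ∈ U s := ⟨InK.one, by simp⟩

lemma U_inf (hs : s * s = m) (hm : 0 < m) : (U s).Infinite := by
  let f : ℕ → ℂ := fun t => ⟨(1 - m * t ^ 2) / (1 + m * t ^ 2), 2 * t / (1 + m * t ^ 2) * s⟩
  have hm' : (0 : ℝ) < m := by exact_mod_cast hm
  refine Set.infinite_of_injective_forall_mem (f := f) ?_ ?_
  · intro a b hab
    have h := congrArg Complex.re hab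
    simp only [f] at h
    have ha : (0 : ℝ) < 1 + m * a ^ 2 := by positivity
    have hb : (0 : ℝ) < 1 + m * b ^ 2 := by positivity
    rw [div_eq_div_iff ha.ne' hb.ne'] at h
    have h2 : (m : ℝ) * ((a : ℝ) ^ 2 - b ^ 2) = 0 := by linarith
    have h3 : (a : ℝ) ^ 2 = b ^ 2 := by
      rcases mul_eq_zero.1 h2 with h | h
      · exact absurd h hm'.ne'
      · linarith
    have h4 : a ^ 2 = b ^ 2 := by exact_mod_cast h3
    exact Nat.pow_left_injective (by norm_num) h4
  · intro t
    have ht : (0 : ℝ) < 1 + m * t ^ 2 := by positivity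
    refine ⟨⟨(1 - m * t ^ 2) / (1 + m * t ^ 2), 2 * t / (1 + m * t ^ 2), ?_, ?_⟩, ?_⟩
    · simp [f]
    · simp [f]
    · rw [normSq_apply]
      simp only [f]
      field_simp
      have : s ^ 2 = m := by rw [← hs]; ring
      rw [this]; ring

lemma quad_fin (α β γ : ℂ) (h : α ≠ 0 ∨ β ≠ 0 ∨ γ ≠ 0) :
    {b : ℂ | α * b ^ 2 + β * b + γ = 0}.Finite := by
  have hp : (Polynomial.C α * Polynomial.X ^ 2 + Polynomial.C β * Polynomial.X + Polynomial.C γ
      : Polynomial ℂ) ≠ 0 := by
    intro h0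
    have h2 := congrArg (fun p : Polynomial ℂ => p.coeff 2) h0
    have h1 := congrArg (fun p : Polynomial ℂ => p.coeff 1) h0
    have h00 := congrArg (fun p : Polynomial ℂ => p.coeff 0) h0
    simp [Polynomial.coeff_X, Polynomial.coeff_C] at h2 h1 h00
    rcases h with h | h | h
    · exact h h2
    · exact h h1
    · exact h h00
  refine (Polynomial.finite_setOfPred_isRoot hp).subset ?_
  intro b hb
  simpa [Polynomial.IsRoot] using hb

lemma conj_eq_inv {a : ℂ} (ha : normSq a = 1) : (starRingEnd ℂ) a = a⁻¹ := by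
  have h0 : a ≠ 0 := by rintro rfl; simp at ha
  have := Complex.mul_conj a
  rw [ha] at this
  field_simp
  rw [mul_comm]
  simpa using this

lemma repl1 (hs : s * s = m) (hm : 0 < m) (F : Finset ℂ) :
    ∃ T : Finset ℂ, T.card = 5 ∧ (∀ z ∈ T, z ∈ U s ∧ z ∉ F) ∧ ∑ z ∈ T, z = 1 := by
  classical
  have hinf := U_inf hs hm
  -- choose a
  obtain ⟨a, haU, ha⟩ := hinf.exists_notMem_finite
    (((F.image (fun z => -z)).finite_toSet.union (Set.finite_singleton (1 : ℂ))).union
      (quad_fin 1 1 1 (Or.inl one_ne_zero)))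
  have ha0 := U_ne haU
  simp only [Set.mem_union, Finset.mem_coe, Finset.mem_image, Set.mem_singleton_iff,
    Set.mem_ofPred_eq, not_or, not_exists, not_and] at ha
  obtain ⟨⟨haF, ha1⟩, ha3⟩ := ha
  have hna : ‖a‖ = 1 := by
    have := haU.2; rw [normSq_eq_norm_sq] at this
    nlinarith [norm_nonneg a]
  have h21 : 2 * a + 1 ≠ 0 := by
    intro h
    have : a = -(1 / 2) := by linear_combination h / 2
    rw [this] at hna; norm_num at hna
  have h22 : 2 + a ≠ 0 := by
    intro h
    have : a = -2 := by linear_combination h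
    rw [this] at hna; norm_num at hna
  set G := insert (-a) F with hG
  have f1 : (⋃ f ∈ (G : Set ℂ), {b : ℂ | a * b ^ 2 + (a * (1 + a) - f * (1 + a)) * b + (-(f * a)) = 0}).Finite :=
    G.finite_toSet.biUnion fun f _ => quad_fin _ _ _ (Or.inl ha0)
  have f2 : (⋃ f ∈ (G : Set ℂ), {b : ℂ | 1 * b ^ 2 + ((1 + a) - f * (1 + a)) * b + (-(f * a)) = 0}).Finite :=
    G.finite_toSet.biUnion fun f _ => quad_fin _ _ _ (Or.inl one_ne_zero)
  have f3 : (⋃ f ∈ (G : Set ℂ), {b : ℂ | 0 * b ^ 2 + (a - f * (1 + a)) * b + (a * (1 + a) - f * a) = 0}).Finite := by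
    refine G.finite_toSet.biUnion fun f _ => quad_fin _ _ _ (Or.inr ?_)
    by_contra hh
    push Not at hh
    obtain ⟨h1, h2⟩ := hh
    have h3 : f = 1 + a := by
      have : a * (1 + a - f) = 0 := by linear_combination h2
      rcases mul_eq_zero.1 this with h | h
      · exact absurd h ha0
      · linear_combination -h
    apply ha3
    rw [h3] at h1
    linear_combination -h1
  have f4 := quad_fin 0 (2 * a + 1) (a * (1 + a) + a) (Or.inr (Or.inl h21))
  have f5 := quad_fin 0 (2 + a) (1 + 2 * a) (Or.inr (Or.inl h22))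
  have f6 := quad_fin (1 + a) (2 * a) (a * (1 + a)) (Or.inr (Or.inl (mul_ne_zero two_ne_zero ha0)))
  have f7 := quad_fin 0 (1 + a) a (Or.inr (Or.inr ha0))
  have f8 := quad_fin 0 1 (1 + a) (Or.inr (Or.inl one_ne_zero))
  obtain ⟨b, hbU, hb⟩ := hinf.exists_notMem_finite
    ((((((((((f1.union f2).union f3).union f4).union f5).union f6).union f7).union f8).union
      (F.image (fun z => -z)).finite_toSet).union (Set.finite_singleton (1 : ℂ))).union
      (Set.finite_singleton a))
  have hb0 := U_ne hbU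
  simp only [Set.mem_union, Finset.mem_coe, Finset.mem_image, Set.mem_singleton_iff,
    Set.mem_ofPred_eq, not_or, not_exists, not_and, Set.mem_iUnion] at hb
  obtain ⟨⟨⟨⟨⟨⟨⟨⟨⟨⟨b1, b2⟩, b3⟩, b4⟩, b5⟩, b6⟩, b7⟩, b8⟩, hbF⟩, hb1⟩, hba⟩ := hb
  set h := 1 + a + b with hh
  set D := a + b + a * b with hD
  have hD0 : D ≠ 0 := fun h0 => b7 (by linear_combination h0)
  have hh0 : h ≠ 0 := fun h0 => b8 (by linear_combination h0)
  have hq : h / D ∈ U s := by
    refine ⟨?_, ?_⟩
    · rw [div_eq_mul_inv]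
      exact ((InK.one.add haU.1).add hbU.1).mul hs
        (((haU.1.add hbU.1).add (haU.1.mul hs hbU.1)).inv hs)
    · have e : D = a * b * (starRingEnd ℂ) h := by
        simp only [hh, hD, map_add, map_one, conj_eq_inv haU.2, conj_eq_inv hbU.2]
        field_simp
        ring
      have e2 : normSq D = normSq h := by
        rw [e, map_mul, map_mul, haU.2, hbU.2, normSq_conj]; ring
      rw [map_div₀, e2]
      exact div_self (by simpa using hh0)
  have hq0 := U_ne hq
  set q := h / D with hqd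
  have hqD : q * D = h := by rw [hqd]; field_simp
  have y1 : ∀ f ∈ G, a * b * q ≠ f := fun f hf e => b1 f hf (by
    linear_combination D * e - a * b * hqD)
  have y2 : ∀ f ∈ G, b * q ≠ f := fun f hf e => b2 f hf (by
    linear_combination D * e - b * hqD)
  have y3 : ∀ f ∈ G, a * q ≠ f := fun f hf e => b3 f hf (by
    linear_combination D * e - a * hqD)
  have z1 : a * b * q ≠ -b := fun e => b4 (by
    have : b * (a * q + 1) = 0 := by linear_combination e
    have e' : a * q + 1 = 0 := (mul_eq_zero.1 this).resolve_left hb0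
    linear_combination D * e' - a * hqD)
  have z2 : b * q ≠ -b := fun e => b5 (by
    have : b * (q + 1) = 0 := by linear_combination e
    have e' : q + 1 = 0 := (mul_eq_zero.1 this).resolve_left hb0
    linear_combination D * e' - hqD)
  have z3 : a * q ≠ -b := fun e => b6 (by
    linear_combination D * e - a * hqD)
  have w1 : a * b * q ≠ b * q := fun e => ha1 (by
    have : (a - 1) * (b * q) = 0 := by linear_combination e
    have := (mul_eq_zero.1 this).resolve_right (mul_ne_zero hb0 hq0)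
    linear_combination this)
  have w2 : a * b * q ≠ a * q := fun e => hb1 (by
    have : (b - 1) * (a * q) = 0 := by linear_combination e
    have := (mul_eq_zero.1 this).resolve_right (mul_ne_zero ha0 hq0)
    linear_combination this)
  have w3 : b * q ≠ a * q := fun e => hba (mul_right_cancel₀ hq0 e)
  have w4 : -a ≠ -b := fun e => hba (neg_injective e).symm
  have ga : -a ∈ G := Finset.mem_insert_self _ _
  have n1 : a * b * q ∉ ({b * q, a * q, -a, -b} : Finset ℂ) := by
    simp only [Finset.mem_insert, Finset.mem_singleton, not_or]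
    exact ⟨w1, w2, y1 _ ga, z1⟩
  have n2 : b * q ∉ ({a * q, -a, -b} : Finset ℂ) := by
    simp only [Finset.mem_insert, Finset.mem_singleton, not_or]
    exact ⟨w3, y2 _ ga, z2⟩
  have n3 : a * q ∉ ({-a, -b} : Finset ℂ) := by
    simp only [Finset.mem_insert, Finset.mem_singleton, not_or]
    exact ⟨y3 _ ga, z3⟩
  have n4 : -a ∉ ({-b} : Finset ℂ) := by simpa using fun e => hba e.symm
  refine ⟨{a * b * q, b * q, a * q, -a, -b}, ?_, ?_, ?_⟩
  · rw [card_insert_of_notMem n1, card_insert_of_notMem n2, card_insert_of_notMem n3,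
      card_insert_of_notMem n4, card_singleton]
  · intro z hz
    simp only [Finset.mem_insert, Finset.mem_singleton] at hz
    rcases hz with rfl | rfl | rfl | rfl | rfl
    · exact ⟨U_mul hs (U_mul hs haU hbU) hq, fun hf => y1 _ (mem_insert_of_mem hf) rfl⟩
    · exact ⟨U_mul hs hbU hq, fun hf => y2 _ (mem_insert_of_mem hf) rfl⟩
    · exact ⟨U_mul hs haU hq, fun hf => y3 _ (mem_insert_of_mem hf) rfl⟩
    · exact ⟨U_neg haU, fun hf => haF _ hf (neg_neg a)⟩
    · exact ⟨U_neg hbU, fun hf => hbF _ hf (neg_neg b)⟩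
  · rw [sum_insert n1, sum_insert n2, sum_insert n3, sum_insert n4, sum_singleton]
    linear_combination hqD

lemma repl (hs : s * s = m) (hm : 0 < m) (w : ℂ) (hw : w ∈ U s) (F : Finset ℂ) :
    ∃ T : Finset ℂ, T.card = 5 ∧ (∀ z ∈ T, z ∈ U s ∧ z ∉ F) ∧ ∑ z ∈ T, z = w := by
  classical
  have hw0 := U_ne hw
  obtain ⟨T, h1, h2, h3⟩ := repl1 hs hm (F.image (fun z => z / w))
  have hinj : Function.Injective (fun z : ℂ => w * z) := mul_right_injective₀ hw0
  refine ⟨T.image (fun z => w * z), ?_, ?_, ?_⟩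
  · rw [card_image_of_injective _ hinj, h1]
  · intro z hz
    obtain ⟨y, hy, rfl⟩ := mem_image.1 hz
    refine ⟨U_mul hs hw (h2 y hy).1, fun hf => (h2 y hy).2 (mem_image.2 ⟨_, hf, ?_⟩)⟩
    field_simp
  · rw [sum_image (fun x _ y _ e => hinj e), ← mul_sum, h3, mul_one]

lemma listrep (hs : s * s = m) (hm : 0 < m) (L : List ℂ) (hL : ∀ z ∈ L, z ∈ U s) :
    ∃ T : Finset ℂ, T.card = 5 * L.length ∧ (∀ z ∈ T, z ∈ U s) ∧ ∑ z ∈ T, z = L.sum := by
  classical
  induction L with
  | nil => exact ⟨∅, by simp, by simp, by simp⟩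
  | cons w L ih =>
    obtain ⟨T, h1, h2, h3⟩ := ih (fun z hz => hL z (List.mem_cons_of_mem _ hz))
    obtain ⟨T', g1, g2, g3⟩ := repl hs hm w (hL w List.mem_cons_self) T
    have hd : Disjoint T' T := Finset.disjoint_left.2 fun z hz => (g2 z hz).2
    refine ⟨T' ∪ T, ?_, ?_, ?_⟩
    · rw [card_union_of_disjoint hd, g1, h1, List.length_cons]; ring
    · intro z hz
      rcases mem_union.1 hz with h | h
      · exact (g2 z h).1
      · exact h2 z h
    · rw [sum_union hd, g3, h3, List.sum_cons]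

def Good (s : ℝ) (n : ℕ) : Prop :=
  ∃ T : Finset ℂ, T.card = n ∧ (∀ z ∈ T, z ∈ U s) ∧ ∑ z ∈ T, z = 0

lemma good_add (hs : s * s = m) (hm : 0 < m) {n : ℕ} (h : Good s n) : Good s (n + 2) := by
  classical
  obtain ⟨T, h1, h2, h3⟩ := h
  obtain ⟨x, hxU, hx⟩ := (U_inf hs hm).exists_notMem_finite
    (T.finite_toSet.union (T.image (fun z => -z)).finite_toSet)
  simp only [Set.mem_union, Finset.mem_coe, Finset.mem_image, not_or, not_exists, not_and] at hx
  have hx2 : -x ∉ T := fun hf => hx.2 _ hf (neg_neg x)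
  have hx3 : x ∉ insert (-x) T := by
    simp only [mem_insert, not_or]
    refine ⟨fun e => U_ne hxU ?_, hx.1⟩
    linear_combination e / 2
  refine ⟨insert x (insert (-x) T), ?_, ?_, ?_⟩
  · rw [card_insert_of_notMem hx3, card_insert_of_notMem hx2, h1]
  · intro z hz
    simp only [mem_insert] at hz
    rcases hz with rfl | rfl | h
    · exact hxU
    · exact U_neg hxU
    · exact h2 z h
  · rw [sum_insert hx3, sum_insert hx2, h3]; ring

lemma good_odd (hs : s * s = m) (h3 : m % 4 = 3) : Good s (5 * m) := by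
  have hm : 0 < m := by omega
  obtain ⟨q, hq⟩ : ∃ q : ℕ, m = 4 * q + 3 := ⟨m / 4, by omega⟩
  have hq0 : (0 : ℝ) < q + 1 := by positivity
  have hmr : (m : ℝ) = 4 * q + 3 := by exact_mod_cast hq
  let u : ℂ := ⟨-(2 * q + 1) / (2 * (q + 1)), 1 / (2 * (q + 1)) * s⟩
  let v : ℂ := ⟨-(2 * q + 1) / (2 * (q + 1)), -1 / (2 * (q + 1)) * s⟩
  have hs2 : s ^ 2 = 4 * q + 3 := by rw [← hmr, ← hs]; ring
  have hu : u ∈ U s := by
    refine ⟨⟨-(2 * q + 1) / (2 * (q + 1)), 1 / (2 * (q + 1)), by simp [u], by simp [u]⟩, ?_⟩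
    rw [normSq_apply]; simp only [u]; field_simp; rw [hs2]; ring
  have hv : v ∈ U s := by
    refine ⟨⟨-(2 * q + 1) / (2 * (q + 1)), -1 / (2 * (q + 1)), by simp [v], by simp [v]⟩, ?_⟩
    rw [normSq_apply]; simp only [v]; field_simp; rw [hs2]; ring
  obtain ⟨T, g1, g2, g3⟩ := listrep hs hm
    (List.replicate (q + 1) u ++ List.replicate (q + 1) v ++ List.replicate (2 * q + 1) 1) (by
      intro z hz
      simp only [List.mem_append, List.mem_replicate] at hz
      rcases hz with (⟨_, rfl⟩ | ⟨_, rfl⟩) | ⟨_, rfl⟩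
      · exact hu
      · exact hv
      · exact U_one)
  refine ⟨T, ?_, g2, ?_⟩
  · rw [g1]; simp only [List.length_append, List.length_replicate]; omega
  · rw [g3]
    simp only [List.sum_append, List.sum_replicate, nsmul_eq_mul]
    apply Complex.ext
    · simp [u, v]; field_simp; ring
    · simp [u, v]; field_simp; ring

lemma good_all (hs : s * s = m) (h3 : m % 4 = 3) (n : ℕ) (hn : 5 * m ≤ n) : Good s n := by
  have hm : 0 < m := by omega
  have step : ∀ a k, Good s a → Good s (a + 2 * k) := by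
    intro a k ha
    induction k with
    | zero => exact ha
    | succ k ih => exact good_add hs hm ih
  rcases Nat.even_or_odd n with ⟨k, hk⟩ | ⟨k, hk⟩
  · have := step 0 k ⟨∅, by simp, by simp, by simp⟩
    rwa [show 0 + 2 * k = n by omega] at this
  · have := step (5 * m) ((n - 5 * m) / 2) (good_odd hs h3)
    rwa [show 5 * m + 2 * ((n - 5 * m) / 2) = n by omega] at this

end Pool.Agent.H10.EqPoly
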