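import Mathlib
import Pool.Agent.H10.Conn

set_option autoImplicit false

namespace Pool.Agent.H10.SCC

open Finset SimpleGraph

section general
variable {V : Type} [Fintype V] [DecidableEq V] {G : SimpleGraph V}

lemma one (u w x : V) (h : u ≠ w) :
    (∑ y, if s(u, w) = s(x, y) then 1 else 0) = (if x = u then 1 else 0) + (if x = w then 1 else 0) := by
  simp only [Sym2.eq_iff]
  by_cases h1 : x = u
  · subst h1
    have h2 : ¬ (w = x) := fun h' => h h'.symm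
    simp [h, h2]
  · have h1' : ¬ (u = x) := fun h' => h1 h'.symm
    by_cases h2 : x = w
    · subst h2
      simp [h1, h1']
    · have h2' : ¬ (w = x) := fun h' => h2 h'.symm
      simp [h1, h1', h2, h2']

lemma step {u w v : V} (h : G.Adj u w) (p : G.Walk w v) (x : V) :
    ∑ y, (Walk.cons h p).edges.count s(x, y) = ∑ y, p.edges.count s(x, y)
      + ((if x = u then 1 else 0) + (if x = w then 1 else 0)) := by
  rw [← one u w x h.ne, ← sum_add_distrib]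
  refine sum_congr rfl (fun y _ => ?_)
  rw [Walk.edges_cons, List.count_cons]
  simp

lemma par {u v : V} (p : G.Walk u v) (x : V) :
    (∑ y, p.edges.count s(x, y) + (if x = u then 1 else 0) + (if x = v then 1 else 0)) % 2 = 0 := by
  induction p with
  | nil => simp; split_ifs <;> simp
  | cons h p ih =>
    rw [step]
    revert ih
    split_ifs <;> omega

lemma hand {u v : V} (p : G.Walk u v) :
    ∑ x, ∑ y, p.edges.count s(x, y) = 2 * p.length := by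
  induction p with
  | nil => simp
  | cons h p ih =>
    simp only [step, sum_add_distrib, ih, Walk.length_cons]
    simp
    omega

end general

lemma gad (f : Fin 60 → Fin 60 → ℕ) (hs : ∀ x y, f x y = f y x) (a b c x y z a' b' c' : Fin 60)
    (pa : (f a x + (f a y + (f a z + (f a a' + 0)))) % 2 = 0)
    (pb : (f b x + (f b y + (f b z + (f b b' + 0)))) % 2 = 0)
    (pc : (f c x + (f c y + (f c z + (f c c' + 0)))) % 2 = 0)
    (px : (f x a + (f x b + (f x c + (f x y + 0)))) % 2 = 0)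
    (py : (f y a + (f y b + (f y c + (f y x + 0)))) % 2 = 0)
    (pz : (f z a + (f z b + (f z c + 0))) % 2 = 0) :
    (f a a' + f b b' + f c c') % 2 = 0 := by
  rw [hs x a, hs x b, hs x c] at px
  rw [hs y a, hs y b, hs y c, hs y x] at py
  rw [hs z a, hs z b, hs z c] at pz
  omega

def all2 (p : ℕ → Bool) : Bool := p 0 && p 1

lemma all2_spec (p : ℕ → Bool) : all2 p = true ↔ ∀ a < 2, p a = true := by
  simp only [all2, Bool.and_eq_true]
  constructor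
  · rintro ⟨h0, h1⟩ a ha
    interval_cases a <;> assumption
  · exact fun h => ⟨h 0 (by norm_num), h 1 (by norm_num)⟩

def imp (c : Prop) [Decidable c] (b : Bool) : Bool := if c then b else true

lemma imp_spec (c : Prop) [Decidable c] (b : Bool) : imp c b = true ↔ (c → b = true) := by
  unfold imp
  split_ifs with h <;> simp [h]

lemma gad0 : ∀ ax < 2, ∀ ay < 2, ∀ az < 2, ∀ a < 2, (ax + ay + az + a) % 2 = 0 →
    ∀ bx < 2, ∀ by' < 2, ∀ bz < 2, ∀ b < 2, (bx + by' + bz + b) % 2 = 0 →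
    ∀ cx < 2, ∀ cy < 2, ∀ cz < 2, ∀ c < 2, (cx + cy + cz + c) % 2 = 0 →
    ∀ xy < 2, (ax + bx + cx + xy) % 2 = 0 → (ay + by' + cy + xy) % 2 = 0 →
    (az + bz + cz) % 2 = 1 →
    3 ≤ 2 * (ax + ay + az + bx + by' + bz + cx + cy + cz + xy) + (a + b + c) ∧
    (a + b + c = 1 ∨ 9 ≤ 2 * (ax + ay + az + bx + by' + bz + cx + cy + cz + xy) + (a + b + c)) := by
  have : (all2 fun ax => all2 fun ay => all2 fun az => all2 fun a => imp ((ax + ay + az + a) % 2 = 0) <|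
    all2 fun bx => all2 fun by' => all2 fun bz => all2 fun b => imp ((bx + by' + bz + b) % 2 = 0) <|
    all2 fun cx => all2 fun cy => all2 fun cz => all2 fun c => imp ((cx + cy + cz + c) % 2 = 0) <|
    all2 fun xy => imp ((ax + bx + cx + xy) % 2 = 0) <| imp ((ay + by' + cy + xy) % 2 = 0) <|
    imp ((az + bz + cz) % 2 = 1) <| decide
    (3 ≤ 2 * (ax + ay + az + bx + by' + bz + cx + cy + cz + xy) + (a + b + c) ∧
    (a + b + c = 1 ∨ 9 ≤ 2 * (ax + ay + az + bx + by' + bz + cx + cy + cz + xy) + (a + b + c))))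
      = true := by decide +kernel
  simpa only [all2_spec, imp_spec, decide_eq_true_eq] using this

lemma pos {n : ℕ} (h : 1 ≤ n ∧ n ≤ 2) : ∃ t, t < 2 ∧ n = t + 1 := ⟨n - 1, by omega, by omega⟩

lemma gad2 (f : Fin 60 → Fin 60 → ℕ) (hs : ∀ x y, f x y = f y x) (a b c x y z a' b' c' : Fin 60)
    (pa : (f a x + (f a y + (f a z + (f a a' + 0)))) % 2 = 0)
    (pb : (f b x + (f b y + (f b z + (f b b' + 0)))) % 2 = 0)
    (pc : (f c x + (f c y + (f c z + (f c c' + 0)))) % 2 = 0)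
    (px : (f x a + (f x b + (f x c + (f x y + 0)))) % 2 = 0)
    (py : (f y a + (f y b + (f y c + (f y x + 0)))) % 2 = 0)
    (pz : (f z a + (f z b + (f z c + 0))) % 2 = 0)
    (ha : ∀ w ∈ [x, y, z, a'], 1 ≤ f a w ∧ f a w ≤ 2)
    (hb : ∀ w ∈ [x, y, z, b'], 1 ≤ f b w ∧ f b w ≤ 2)
    (hc : ∀ w ∈ [x, y, z, c'], 1 ≤ f c w ∧ f c w ≤ 2)
    (hx : ∀ w ∈ [a, b, c, y], 1 ≤ f x w ∧ f x w ≤ 2) (s : ℕ)
    (hsum : s = (f a x + (f a y + (f a z + (f a a' + 0)))) + (f b x + (f b y + (f b z + (f b b' + 0))))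
      + (f c x + (f c y + (f c z + (f c c' + 0)))) + (f x a + (f x b + (f x c + (f x y + 0))))
      + (f y a + (f y b + (f y c + (f y x + 0)))) + (f z a + (f z b + (f z c + 0)))) :
    26 ≤ s ∧ (f a a' + f b b' + f c c' = 4 ∨ 32 ≤ s) := by
  rw [hs x a, hs x b, hs x c] at px hsum
  rw [hs y a, hs y b, hs y c, hs y x] at py hsum
  rw [hs z a, hs z b, hs z c] at pz hsum
  simp only [List.mem_cons, List.not_mem_nil, or_false, forall_eq_or_imp, forall_eq] at ha hb hc hx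
  obtain ⟨a1, a2, a3, a4⟩ := ha
  obtain ⟨b1, b2, b3, b4⟩ := hb
  obtain ⟨c1, c2, c3, c4⟩ := hc
  obtain ⟨-, -, -, x4⟩ := hx
  obtain ⟨ta1, la1, ea1⟩ := pos a1
  obtain ⟨ta2, la2, ea2⟩ := pos a2
  obtain ⟨ta3, la3, ea3⟩ := pos a3
  obtain ⟨ta4, la4, ea4⟩ := pos a4
  obtain ⟨tb1, lb1, eb1⟩ := pos b1
  obtain ⟨tb2, lb2, eb2⟩ := pos b2
  obtain ⟨tb3, lb3, eb3⟩ := pos b3
  obtain ⟨tb4, lb4, eb4⟩ := pos b4
  obtain ⟨tc1, lc1, ec1⟩ := pos c1
  obtain ⟨tc2, lc2, ec2⟩ := pos c2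
  obtain ⟨tc3, lc3, ec3⟩ := pos c3
  obtain ⟨tc4, lc4, ec4⟩ := pos c4
  obtain ⟨tx4, lx4, ex4⟩ := pos x4
  simp only [ea1, ea2, ea3, ea4, eb1, eb2, eb3, eb4, ec1, ec2, ec3, ec4, ex4] at pa pb pc px py pz hsum ⊢
  have := gad0 ta1 la1 ta2 la2 ta3 la3 ta4 la4 (by clear * - pa; omega)
    tb1 lb1 tb2 lb2 tb3 lb3 tb4 lb4 (by clear * - pb; omega)
    tc1 lc1 tc2 lc2 tc3 lc3 tc4 lc4 (by clear * - pc; omega)
    tx4 lx4 (by clear * - px; omega) (by clear * - py; omega) (by clear * - pz; omega)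
  clear * - this hsum
  omega

lemma pet : ∀ a0 < 2, ∀ a4 < 2, ∀ a5 < 2, a0 + a4 + a5 = 1 →
    ∀ a1 < 2, ∀ a6 < 2, a0 + a1 + a6 = 1 →
    ∀ a2 < 2, ∀ a7 < 2, a1 + a2 + a7 = 1 →
    ∀ a3 < 2, ∀ a8 < 2, a2 + a3 + a8 = 1 →
    ∀ a9 < 2, a3 + a4 + a9 = 1 →
    ∀ a10 < 2, ∀ a13 < 2, a5 + a10 + a13 = 1 →
    ∀ a12 < 2, a7 + a10 + a12 = 1 →
    ∀ a14 < 2, a9 + a12 + a14 = 1 →
    ∀ a11 < 2, a6 + a11 + a14 = 1 →
    a8 + a11 + a13 = 1 →
    ∀ x0 < 2, ∀ x4 < 2, ∀ x5 < 2, (x0 + x4 + x5) % 2 = 0 →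
    ∀ x1 < 2, ∀ x6 < 2, (x0 + x1 + x6) % 2 = 0 →
    ∀ x2 < 2, ∀ x7 < 2, (x1 + x2 + x7) % 2 = 0 →
    ∀ x3 < 2, ∀ x8 < 2, (x2 + x3 + x8) % 2 = 0 →
    ∀ x9 < 2, (x3 + x4 + x9) % 2 = 0 →
    ∀ x10 < 2, ∀ x13 < 2, (x5 + x10 + x13) % 2 = 0 →
    ∀ x12 < 2, (x7 + x10 + x12) % 2 = 0 →
    ∀ x14 < 2, (x9 + x12 + x14) % 2 = 0 →
    ∀ x11 < 2, (x6 + x11 + x14) % 2 = 0 →
    (x8 + x11 + x13) % 2 = 0 →
    (a0 * x0 + a1 * x1 + a2 * x2 + a3 * x3 + a4 * x4 + a5 * x5 + a6 * x6 + a7 * x7 + a8 * x8 + a9 * x9 + a10 * x10 + a11 * x11 + a12 * x12 + a13 * x13 + a14 * x14 ≤ (1 - a0) * x0 + (1 - a1) * x1 + (1 - a2) * x2 + (1 - a3) * x3 + (1 - a4) * x4 + (1 - a5) * x5 + (1 - a6) * x6 + (1 - a7) * x7 + (1 - a8) * x8 + (1 - a9) * x9 + (1 - a10) * x10 + (1 - a11) * x11 + (1 - a12) * x12 + (1 - a13) * x13 + (1 - a14) * x14) ∧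
    (a0 * x0 + a1 * x1 + a2 * x2 + a3 * x3 + a4 * x4 + a5 * x5 + a6 * x6 + a7 * x7 + a8 * x8 + a9 * x9 + a10 * x10 + a11 * x11 + a12 * x12 + a13 * x13 + a14 * x14 = (1 - a0) * x0 + (1 - a1) * x1 + (1 - a2) * x2 + (1 - a3) * x3 + (1 - a4) * x4 + (1 - a5) * x5 + (1 - a6) * x6 + (1 - a7) * x7 + (1 - a8) * x8 + (1 - a9) * x9 + (1 - a10) * x10 + (1 - a11) * x11 + (1 - a12) * x12 + (1 - a13) * x13 + (1 - a14) * x14 → ((1 - a0) * x0 + (1 - a1) * x1 + (1 - a2) * x2 + (1 - a3) * x3 + (1 - a4) * x4 + (1 - a5) * x5 + (1 - a6) * x6 + (1 - a7) * x7 + (1 - a8) * x8 + (1 - a9) * x9 + (1 - a10) * x10 + (1 - a11) * x11 + (1 - a12) * x12 + (1 - a13) * x13 + (1 - a14) * x14) % 4 = 0) := by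
  have : (all2 fun a0 => all2 fun a4 => all2 fun a5 => imp (a0 + a4 + a5 = 1) <|
    all2 fun a1 => all2 fun a6 => imp (a0 + a1 + a6 = 1) <|
    all2 fun a2 => all2 fun a7 => imp (a1 + a2 + a7 = 1) <|
    all2 fun a3 => all2 fun a8 => imp (a2 + a3 + a8 = 1) <|
    all2 fun a9 => imp (a3 + a4 + a9 = 1) <|
    all2 fun a10 => all2 fun a13 => imp (a5 + a10 + a13 = 1) <|
    all2 fun a12 => imp (a7 + a10 + a12 = 1) <|
    all2 fun a14 => imp (a9 + a12 + a14 = 1) <|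
    all2 fun a11 => imp (a6 + a11 + a14 = 1) <|
    imp (a8 + a11 + a13 = 1) <|
    all2 fun x0 => all2 fun x4 => all2 fun x5 => imp ((x0 + x4 + x5) % 2 = 0) <|
    all2 fun x1 => all2 fun x6 => imp ((x0 + x1 + x6) % 2 = 0) <|
    all2 fun x2 => all2 fun x7 => imp ((x1 + x2 + x7) % 2 = 0) <|
    all2 fun x3 => all2 fun x8 => imp ((x2 + x3 + x8) % 2 = 0) <|
    all2 fun x9 => imp ((x3 + x4 + x9) % 2 = 0) <|
    all2 fun x10 => all2 fun x13 => imp ((x5 + x10 + x13) % 2 = 0) <|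
    all2 fun x12 => imp ((x7 + x10 + x12) % 2 = 0) <|
    all2 fun x14 => imp ((x9 + x12 + x14) % 2 = 0) <|
    all2 fun x11 => imp ((x6 + x11 + x14) % 2 = 0) <|
    imp ((x8 + x11 + x13) % 2 = 0) <|
    decide ((a0 * x0 + a1 * x1 + a2 * x2 + a3 * x3 + a4 * x4 + a5 * x5 + a6 * x6 + a7 * x7 + a8 * x8 + a9 * x9 + a10 * x10 + a11 * x11 + a12 * x12 + a13 * x13 + a14 * x14 ≤ (1 - a0) * x0 + (1 - a1) * x1 + (1 - a2) * x2 + (1 - a3) * x3 + (1 - a4) * x4 + (1 - a5) * x5 + (1 - a6) * x6 + (1 - a7) * x7 + (1 - a8) * x8 + (1 - a9) * x9 + (1 - a10) * x10 + (1 - a11) * x11 + (1 - a12) * x12 + (1 - a13) * x13 + (1 - a14) * x14) ∧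
    (a0 * x0 + a1 * x1 + a2 * x2 + a3 * x3 + a4 * x4 + a5 * x5 + a6 * x6 + a7 * x7 + a8 * x8 + a9 * x9 + a10 * x10 + a11 * x11 + a12 * x12 + a13 * x13 + a14 * x14 = (1 - a0) * x0 + (1 - a1) * x1 + (1 - a2) * x2 + (1 - a3) * x3 + (1 - a4) * x4 + (1 - a5) * x5 + (1 - a6) * x6 + (1 - a7) * x7 + (1 - a8) * x8 + (1 - a9) * x9 + (1 - a10) * x10 + (1 - a11) * x11 + (1 - a12) * x12 + (1 - a13) * x13 + (1 - a14) * x14 → ((1 - a0) * x0 + (1 - a1) * x1 + (1 - a2) * x2 + (1 - a3) * x3 + (1 - a4) * x4 + (1 - a5) * x5 + (1 - a6) * x6 + (1 - a7) * x7 + (1 - a8) * x8 + (1 - a9) * x9 + (1 - a10) * x10 + (1 - a11) * x11 + (1 - a12) * x12 + (1 - a13) * x13 + (1 - a14) * x14) % 4 = 0))) = true := by decide +kernel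
  simpa only [all2_spec, imp_spec, decide_eq_true_eq] using this

lemma pet2 : ∀ a0 < 2, ∀ a4 < 2, ∀ a5 < 2, a0 + a4 + a5 = 1 →
    ∀ a1 < 2, ∀ a6 < 2, a0 + a1 + a6 = 1 →
    ∀ a2 < 2, ∀ a7 < 2, a1 + a2 + a7 = 1 →
    ∀ a3 < 2, ∀ a8 < 2, a2 + a3 + a8 = 1 →
    ∀ a9 < 2, a3 + a4 + a9 = 1 →
    ∀ a10 < 2, ∀ a13 < 2, a5 + a10 + a13 = 1 →
    ∀ a12 < 2, a7 + a10 + a12 = 1 →
    ∀ a14 < 2, a9 + a12 + a14 = 1 →
    ∀ a11 < 2, a6 + a11 + a14 = 1 →
    a8 + a11 + a13 = 1 →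
    a0 * (a0 + 1) + a1 * (a1 + 1) + a2 * (a2 + 1) + a3 * (a3 + 1) + a4 * (a4 + 1) + a5 * (a5 + 1) + a6 * (a6 + 1) + a7 * (a7 + 1) + a8 * (a8 + 1) + a9 * (a9 + 1) + a10 * (a10 + 1) + a11 * (a11 + 1) + a12 * (a12 + 1) + a13 * (a13 + 1) + a14 * (a14 + 1) = 10 ∧ (1 - a0) * (a0 + 1) + (1 - a1) * (a1 + 1) + (1 - a2) * (a2 + 1) + (1 - a3) * (a3 + 1) + (1 - a4) * (a4 + 1) + (1 - a5) * (a5 + 1) + (1 - a6) * (a6 + 1) + (1 - a7) * (a7 + 1) + (1 - a8) * (a8 + 1) + (1 - a9) * (a9 + 1) + (1 - a10) * (a10 + 1) + (1 - a11) * (a11 + 1) + (1 - a12) * (a12 + 1) + (1 - a13) * (a13 + 1) + (1 - a14) * (a14 + 1) = 10 := by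
  have : (all2 fun a0 => all2 fun a4 => all2 fun a5 => imp (a0 + a4 + a5 = 1) <|
    all2 fun a1 => all2 fun a6 => imp (a0 + a1 + a6 = 1) <|
    all2 fun a2 => all2 fun a7 => imp (a1 + a2 + a7 = 1) <|
    all2 fun a3 => all2 fun a8 => imp (a2 + a3 + a8 = 1) <|
    all2 fun a9 => imp (a3 + a4 + a9 = 1) <|
    all2 fun a10 => all2 fun a13 => imp (a5 + a10 + a13 = 1) <|
    all2 fun a12 => imp (a7 + a10 + a12 = 1) <|
    all2 fun a14 => imp (a9 + a12 + a14 = 1) <|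
    all2 fun a11 => imp (a6 + a11 + a14 = 1) <|
    imp (a8 + a11 + a13 = 1) <|
    decide (a0 * (a0 + 1) + a1 * (a1 + 1) + a2 * (a2 + 1) + a3 * (a3 + 1) + a4 * (a4 + 1) + a5 * (a5 + 1) + a6 * (a6 + 1) + a7 * (a7 + 1) + a8 * (a8 + 1) + a9 * (a9 + 1) + a10 * (a10 + 1) + a11 * (a11 + 1) + a12 * (a12 + 1) + a13 * (a13 + 1) + a14 * (a14 + 1) = 10 ∧ (1 - a0) * (a0 + 1) + (1 - a1) * (a1 + 1) + (1 - a2) * (a2 + 1) + (1 - a3) * (a3 + 1) + (1 - a4) * (a4 + 1) + (1 - a5) * (a5 + 1) + (1 - a6) * (a6 + 1) + (1 - a7) * (a7 + 1) + (1 - a8) * (a8 + 1) + (1 - a9) * (a9 + 1) + (1 - a10) * (a10 + 1) + (1 - a11) * (a11 + 1) + (1 - a12) * (a12 + 1) + (1 - a13) * (a13 + 1) + (1 - a14) * (a14 + 1) = 10)) = true := by decide +kernel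
  simpa only [all2_spec, imp_spec, decide_eq_true_eq] using this

def nbrs (v : Fin 60) : List (Fin 60) :=
  match v.1 with
  | 0 => [3, 4, 5, 6]
  | 1 => [3, 4, 5, 25]
  | 2 => [3, 4, 5, 30]
  | 3 => [0, 1, 2, 4]
  | 4 => [0, 1, 2, 3]
  | 5 => [0, 1, 2]
  | 6 => [9, 10, 11, 0]
  | 7 => [9, 10, 11, 12]
  | 8 => [9, 10, 11, 36]
  | 9 => [6, 7, 8, 10]
  | 10 => [6, 7, 8, 9]
  | 11 => [6, 7, 8]
  | 12 => [15, 16, 17, 7]
  | 13 => [15, 16, 17, 18]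
  | 14 => [15, 16, 17, 42]
  | 15 => [12, 13, 14, 16]
  | 16 => [12, 13, 14, 15]
  | 17 => [12, 13, 14]
  | 18 => [21, 22, 23, 13]
  | 19 => [21, 22, 23, 24]
  | 20 => [21, 22, 23, 48]
  | 21 => [18, 19, 20, 22]
  | 22 => [18, 19, 20, 21]
  | 23 => [18, 19, 20]
  | 24 => [27, 28, 29, 19]
  | 25 => [27, 28, 29, 1]
  | 26 => [27, 28, 29, 54]
  | 27 => [24, 25, 26, 28]
  | 28 => [24, 25, 26, 27]
  | 29 => [24, 25, 26]
  | 30 => [33, 34, 35, 2]
  | 31 => [33, 34, 35, 43]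
  | 32 => [33, 34, 35, 50]
  | 33 => [30, 31, 32, 34]
  | 34 => [30, 31, 32, 33]
  | 35 => [30, 31, 32]
  | 36 => [39, 40, 41, 8]
  | 37 => [39, 40, 41, 49]
  | 38 => [39, 40, 41, 56]
  | 39 => [36, 37, 38, 40]
  | 40 => [36, 37, 38, 39]
  | 41 => [36, 37, 38]
  | 42 => [45, 46, 47, 14]
  | 43 => [45, 46, 47, 31]
  | 44 => [45, 46, 47, 55]
  | 45 => [42, 43, 44, 46]
  | 46 => [42, 43, 44, 45]
  | 47 => [42, 43, 44]
  | 48 => [51, 52, 53, 20]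
  | 49 => [51, 52, 53, 37]
  | 50 => [51, 52, 53, 32]
  | 51 => [48, 49, 50, 52]
  | 52 => [48, 49, 50, 51]
  | 53 => [48, 49, 50]
  | 54 => [57, 58, 59, 26]
  | 55 => [57, 58, 59, 44]
  | 56 => [57, 58, 59, 38]
  | 57 => [54, 55, 56, 58]
  | 58 => [54, 55, 56, 57]
  | 59 => [54, 55, 56]
  | _ => []

def G : SimpleGraph (Fin 60) where
  Adj v w := w ∈ nbrs v
  symm := ⟨by
    have : ∀ v : Fin 60, ∀ w ∈ nbrs v, v ∈ nbrs w := by decide +kernel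
    exact fun v w h => this v w h⟩
  loopless := ⟨by
    have : ∀ v : Fin 60, v ∉ nbrs v := by decide +kernel
    exact this⟩

instance : DecidableRel G.Adj := fun v w => inferInstanceAs (Decidable (w ∈ nbrs v))

def L : List (ℕ × ℕ) :=
  [(0, 120), (1, 33554488), (2, 1073741880), (3, 23), (4, 15), (5, 7), (6, 3585), (7, 7680), (8, 68719480320), (9, 1472), (10, 960), (11, 448), (12, 229504), (13, 491520), (14, 4398046740480), (15, 94208), (16, 61440), (17, 28672), (18, 14688256), (19, 31457280), (20, 281474991390720), (21, 6029312), (22, 3932160), (23, 1835008), (24, 940048384), (25, 939524098), (26, 18014399449006080), (27, 385875968), (28, 251658240), (29, 117440512), (30, 60129542148), (31, 8856222564352), (32, 1125960036384768), (33, 24696061952), (34, 16106127360), (35, 7516192768), (36, 3848290697472), (37, 566798244118528), (38, 72061442328625152), (39, 1580547964928), (40,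 1030792151040), (41, 481036337152), (42, 246290604638208), (43, 246292752105472), (44, 36275087623585792), (45, 101155069755392), (46, 65970697666560), (47, 30786325577728), (48, 15762598696845312), (49, 15762736134750208), (50, 15762602990764032), (51, 6473924464345088), (52, 4222124650659840), (53, 1970324836974592), (54, 1008806316598099968), (55, 1008823908717035520), (56, 1008806591408898048), (57, 414331165718085632), (58, 270215977642229760), (59, 126100789566373888)]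

theorem conn (S : Finset (Fin 60)) (hS : S.card < 3) :
    (G.induce ((↑S : Set (Fin 60))ᶜ)).Connected := by
  refine Conn.three_conn (by norm_num) G L ?_ 8 (by decide +kernel) S hS
  have : ∀ p ∈ L, ∀ v : Fin 60, v.1 = p.1 → ∀ w : Fin 60, p.2.testBit w.1 → G.Adj v w := by
    decide +kernel
  exact fun p hp v w h1 h2 => this p hp v h1 w h2

lemma nsum (f : Fin 60 → ℕ) (v : Fin 60) (h : ∀ w, ¬ G.Adj v w → f w = 0) :
    ∑ w, f w = ((nbrs v).map f).sum := by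
  have nd : ∀ v, (nbrs v).Nodup := by decide +kernel
  rw [← List.sum_toFinset f (nd v)]
  symm
  refine sum_subset (subset_univ _) (fun w _ hw => h w ?_)
  exact fun h' => hw (List.mem_toFinset.2 h')

def AA (j : ℕ → ℕ) (f : Fin 60 → Fin 60 → ℕ) : ℕ :=
  j 0 * f 0 6 + j 1 * f 7 12 + j 2 * f 13 18 + j 3 * f 19 24 + j 4 * f 25 1 + j 5 * f 2 30 + j 6 * f 8 36 + j 7 * f 14 42 + j 8 * f 20 48 + j 9 * f 26 54 + j 10 * f 31 43 + j 11 * f 37 49 + j 12 * f 44 55 + j 13 * f 50 32 + j 14 * f 56 38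

def BB (j : ℕ → ℕ) (f : Fin 60 → Fin 60 → ℕ) : ℕ :=
  (1 - j 0) * f 0 6 + (1 - j 1) * f 7 12 + (1 - j 2) * f 13 18 + (1 - j 3) * f 19 24 + (1 - j 4) * f 25 1 + (1 - j 5) * f 2 30 + (1 - j 6) * f 8 36 + (1 - j 7) * f 14 42 + (1 - j 8) * f 20 48 + (1 - j 9) * f 26 54 + (1 - j 10) * f 31 43 + (1 - j 11) * f 37 49 + (1 - j 12) * f 44 55 + (1 - j 13) * f 50 32 + (1 - j 14) * f 56 38

def Good (j : ℕ → ℕ) (f : Fin 60 → Fin 60 → ℕ) : Prop :=
  AA j f ≤ BB j f ∧ (AA j f = BB j f → BB j f % 4 = 0)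

lemma good_add (j : ℕ → ℕ) (f g : Fin 60 → Fin 60 → ℕ) (hf : Good j f) (hg : Good j g) :
    Good j (fun x y => f x y + g x y) := by
  have h1 : AA j (fun x y => f x y + g x y) = AA j f + AA j g := by unfold AA; ring
  have h2 : BB j (fun x y => f x y + g x y) = BB j f + BB j g := by unfold BB; ring
  unfold Good at *
  rw [h1, h2]
  omega

def PM (j : ℕ → ℕ) : Prop :=
  (j 0 + j 4 + j 5 = 1) ∧ (j 0 + j 1 + j 6 = 1) ∧ (j 1 + j 2 + j 7 = 1) ∧ (j 2 + j 3 + j 8 = 1) ∧ (j 3 + j 4 + j 9 = 1) ∧ (j 5 + j 10 + j 13 = 1) ∧ (j 6 + j 11 + j 14 = 1) ∧ (j 7 + j 10 + j 12 = 1) ∧ (j 8 + j 11 + j 13 = 1) ∧ (j 9 + j 12 + j 14 = 1)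

lemma good_one (j : ℕ → ℕ) (hj : PM j) (f : Fin 60 → Fin 60 → ℕ) (hs : ∀ x y, f x y = f y x)
    (h1 : ∀ x y, f x y < 2) (hp : ∀ v, ((nbrs v).map (f v)).sum % 2 = 0) : Good j f := by
  obtain ⟨j0, j1, j2, j3, j4, j5, j6, j7, j8, j9⟩ := hj
  have p0 := gad f hs 0 1 2 3 4 5 6 25 30 (hp 0) (hp 1) (hp 2) (hp 3) (hp 4) (hp 5)
  rw [hs 1 25] at p0
  have p1 := gad f hs 6 7 8 9 10 11 0 12 36 (hp 6) (hp 7) (hp 8) (hp 9) (hp 10) (hp 11)
  rw [hs 6 0] at p1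
  have p2 := gad f hs 12 13 14 15 16 17 7 18 42 (hp 12) (hp 13) (hp 14) (hp 15) (hp 16) (hp 17)
  rw [hs 12 7] at p2
  have p3 := gad f hs 18 19 20 21 22 23 13 24 48 (hp 18) (hp 19) (hp 20) (hp 21) (hp 22) (hp 23)
  rw [hs 18 13] at p3
  have p4 := gad f hs 24 25 26 27 28 29 19 1 54 (hp 24) (hp 25) (hp 26) (hp 27) (hp 28) (hp 29)
  rw [hs 24 19] at p4
  have p5 := gad f hs 30 31 32 33 34 35 2 43 50 (hp 30) (hp 31) (hp 32) (hp 33) (hp 34) (hp 35)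
  rw [hs 30 2, hs 32 50] at p5
  have p6 := gad f hs 36 37 38 39 40 41 8 49 56 (hp 36) (hp 37) (hp 38) (hp 39) (hp 40) (hp 41)
  rw [hs 36 8, hs 38 56] at p6
  have p7 := gad f hs 42 43 44 45 46 47 14 31 55 (hp 42) (hp 43) (hp 44) (hp 45) (hp 46) (hp 47)
  rw [hs 42 14, hs 43 31] at p7
  have p8 := gad f hs 48 49 50 51 52 53 20 37 32 (hp 48) (hp 49) (hp 50) (hp 51) (hp 52) (hp 53)
  rw [hs 48 20, hs 49 37] at p8
  have p9 := gad f hs 54 55 56 57 58 59 26 44 38 (hp 54) (hp 55) (hp 56) (hp 57) (hp 58) (hp 59)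
  rw [hs 54 26, hs 55 44] at p9
  exact pet (j 0) (by omega) (j 4) (by omega) (j 5) (by omega) j0
    (j 1) (by omega) (j 6) (by omega) j1
    (j 2) (by omega) (j 7) (by omega) j2
    (j 3) (by omega) (j 8) (by omega) j3
    (j 9) (by omega) j4
    (j 10) (by omega) (j 13) (by omega) j5
    (j 12) (by omega) j7
    (j 14) (by omega) j9
    (j 11) (by omega) j6
    j8
    (f 0 6) (h1 _ _) (f 25 1) (h1 _ _) (f 2 30) (h1 _ _) p0
    (f 7 12) (h1 _ _) (f 8 36) (h1 _ _) p1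
    (f 13 18) (h1 _ _) (f 14 42) (h1 _ _) p2
    (f 19 24) (h1 _ _) (f 20 48) (h1 _ _) p3
    (f 26 54) (h1 _ _) p4
    (f 31 43) (h1 _ _) (f 50 32) (h1 _ _) p5
    (f 44 55) (h1 _ _) p7
    (f 56 38) (h1 _ _) p9
    (f 37 49) (h1 _ _) p6
    p8

lemma regroup {d0 d1 d2 d3 d4 d5 d6 d7 d8 d9 d10 d11 d12 d13 d14 d15 d16 d17 d18 d19 d20 d21 d22 d23 d24 d25 d26 d27 d28 d29 d30 d31 d32 d33 d34 d35 d36 d37 d38 d39 d40 d41 d42 d43 d44 d45 d46 d47 d48 d49 d50 d51 d52 d53 d54 d55 d56 d57 d58 d59 : ℕ}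
    (h : d0 + (d1 + (d2 + (d3 + (d4 + (d5 + (d6 + (d7 + (d8 + (d9 + (d10 + (d11 + (d12 + (d13 + (d14 + (d15 + (d16 + (d17 + (d18 + (d19 + (d20 + (d21 + (d22 + (d23 + (d24 + (d25 + (d26 + (d27 + (d28 + (d29 + (d30 + (d31 + (d32 + (d33 + (d34 + (d35 + (d36 + (d37 + (d38 + (d39 + (d40 + (d41 + (d42 + (d43 + (d44 + (d45 + (d46 + (d47 + (d48 + (d49 + (d50 + (d51 + (d52 + (d53 + (d54 + (d55 + (d56 + (d57 + (d58 + (d59 + 0))))))))))))))))))))))))))))))))))))))))))))))))))))))))))) ≤ 264) :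
    (d0 + d1 + d2 + d3 + d4 + d5) + (d6 + d7 + d8 + d9 + d10 + d11) + (d12 + d13 + d14 + d15 + d16 + d17) + (d18 + d19 + d20 + d21 + d22 + d23) + (d24 + d25 + d26 + d27 + d28 + d29) + (d30 + d31 + d32 + d33 + d34 + d35) + (d36 + d37 + d38 + d39 + d40 + d41) + (d42 + d43 + d44 + d45 + d46 + d47) + (d48 + d49 + d50 + d51 + d52 + d53) + (d54 + d55 + d56 + d57 + d58 + d59) ≤ 264 := by
  simp only [add_assoc, add_zero] at h ⊢
  exact h

lemma arith {s0 s1 s2 s3 s4 s5 s6 s7 s8 s9 : ℕ} {c0 c1 c2 c3 c4 c5 c6 c7 c8 c9 : Prop}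
    (h : s0 + s1 + s2 + s3 + s4 + s5 + s6 + s7 + s8 + s9 ≤ 264)
    (p0 : 26 ≤ s0 ∧ (c0 ∨ 32 ≤ s0))
    (p1 : 26 ≤ s1 ∧ (c1 ∨ 32 ≤ s1))
    (p2 : 26 ≤ s2 ∧ (c2 ∨ 32 ≤ s2))
    (p3 : 26 ≤ s3 ∧ (c3 ∨ 32 ≤ s3))
    (p4 : 26 ≤ s4 ∧ (c4 ∨ 32 ≤ s4))
    (p5 : 26 ≤ s5 ∧ (c5 ∨ 32 ≤ s5))
    (p6 : 26 ≤ s6 ∧ (c6 ∨ 32 ≤ s6))
    (p7 : 26 ≤ s7 ∧ (c7 ∨ 32 ≤ s7))
    (p8 : 26 ≤ s8 ∧ (c8 ∨ 32 ≤ s8))
    (p9 : 26 ≤ s9 ∧ (c9 ∨ 32 ≤ s9))
    : c0 ∧ c1 ∧ c2 ∧ c3 ∧ c4 ∧ c5 ∧ c6 ∧ c7 ∧ c8 ∧ c9 := by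
  obtain ⟨l0, p0⟩ := p0
  obtain ⟨l1, p1⟩ := p1
  obtain ⟨l2, p2⟩ := p2
  obtain ⟨l3, p3⟩ := p3
  obtain ⟨l4, p4⟩ := p4
  obtain ⟨l5, p5⟩ := p5
  obtain ⟨l6, p6⟩ := p6
  obtain ⟨l7, p7⟩ := p7
  obtain ⟨l8, p8⟩ := p8
  obtain ⟨l9, p9⟩ := p9
  exact ⟨p0.resolve_right (by clear p0 p1 p2 p3 p4 p5 p6 p7 p8 p9; omega), p1.resolve_right (by clear p0 p1 p2 p3 p4 p5 p6 p7 p8 p9; omega), p2.resolve_right (by clear p0 p1 p2 p3 p4 p5 p6 p7 p8 p9; omega), p3.resolve_right (by clear p0 p1 p2 p3 p4 p5 p6 p7 p8 p9; omega), p4.resolve_right (by clear p0 p1 p2 p3 p4 p5 p6 p7 p8 p9; omega), p5.resolve_right (by clear p0 p1 p2 p3 p4 p5 p6 p7 p8 p9; omega), p6.resolve_right (by clear p0 p1 p2 p3 p4 p5 p6 p7 p8 p9; omega), p7.resolve_right (by clear p0 p1 p2 p3 p4 p5 p6 p7 p8 p9; omega), p8.resolve_right (by clear p0 p1 p2 p3 p4 p5 p6 p7 p8 p9; omega), p9.resolve_right (by clear p0 p1 p2 p3 p4 p5 p6 p7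 p8 p9; omega)⟩

lemma final (f : Fin 60 → Fin 60 → ℕ) (hs : ∀ x y, f x y = f y x)
    (hb : ∀ v, ∀ w ∈ nbrs v, 1 ≤ f v w ∧ f v w ≤ 2)
    (hp : ∀ v, ((nbrs v).map (f v)).sum % 2 = 0)
    (ht : ∑ v, ((nbrs v).map (f v)).sum ≤ 264) (hg : ∀ j, PM j → Good j f) : False := by
  have hl : List.finRange 60 = [0, 1, 2, 3, 4, 5, 6, 7, 8, 9, 10, 11, 12, 13, 14, 15, 16, 17, 18, 19, 20, 21, 22, 23, 24, 25, 26, 27, 28, 29, 30, 31, 32, 33, 34, 35, 36, 37, 38, 39, 40, 41, 42, 43, 44, 45, 46, 47, 48, 49, 50, 51, 52, 53, 54, 55, 56, 57, 58, 59] := by decide +kernel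
  obtain ⟨D, hD⟩ : ∃ D : Fin 60 → ℕ, ∀ v, ((nbrs v).map (f v)).sum = D v := ⟨_, fun _ => rfl⟩
  simp only [hD] at ht
  rw [Fin.sum_univ_def, hl] at ht
  simp only [List.map_cons, List.map_nil, List.sum_cons, List.sum_nil] at ht
  have p0 := gad2 f hs 0 1 2 3 4 5 6 25 30 (hp 0) (hp 1) (hp 2) (hp 3) (hp 4) (hp 5) (hb 0) (hb 1) (hb 2) (hb 3)
    (D 0 + D 1 + D 2 + D 3 + D 4 + D 5) (by simp only [← hD]; rfl)
  rw [hs 1 25] at p0
  have p1 := gad2 f hs 6 7 8 9 10 11 0 12 36 (hp 6) (hp 7) (hp 8) (hp 9) (hp 10) (hp 11) (hb 6) (hb 7) (hb 8) (hb 9)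
    (D 6 + D 7 + D 8 + D 9 + D 10 + D 11) (by simp only [← hD]; rfl)
  rw [hs 6 0] at p1
  have p2 := gad2 f hs 12 13 14 15 16 17 7 18 42 (hp 12) (hp 13) (hp 14) (hp 15) (hp 16) (hp 17) (hb 12) (hb 13) (hb 14) (hb 15)
    (D 12 + D 13 + D 14 + D 15 + D 16 + D 17) (by simp only [← hD]; rfl)
  rw [hs 12 7] at p2
  have p3 := gad2 f hs 18 19 20 21 22 23 13 24 48 (hp 18) (hp 19) (hp 20) (hp 21) (hp 22) (hp 23) (hb 18) (hb 19) (hb 20) (hb 21)
    (D 18 + D 19 + D 20 + D 21 + D 22 + D 23) (by simp only [← hD]; rfl)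
  rw [hs 18 13] at p3
  have p4 := gad2 f hs 24 25 26 27 28 29 19 1 54 (hp 24) (hp 25) (hp 26) (hp 27) (hp 28) (hp 29) (hb 24) (hb 25) (hb 26) (hb 27)
    (D 24 + D 25 + D 26 + D 27 + D 28 + D 29) (by simp only [← hD]; rfl)
  rw [hs 24 19] at p4
  have p5 := gad2 f hs 30 31 32 33 34 35 2 43 50 (hp 30) (hp 31) (hp 32) (hp 33) (hp 34) (hp 35) (hb 30) (hb 31) (hb 32) (hb 33)
    (D 30 + D 31 + D 32 + D 33 + D 34 + D 35) (by simp only [← hD]; rfl)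
  rw [hs 30 2, hs 32 50] at p5
  have p6 := gad2 f hs 36 37 38 39 40 41 8 49 56 (hp 36) (hp 37) (hp 38) (hp 39) (hp 40) (hp 41) (hb 36) (hb 37) (hb 38) (hb 39)
    (D 36 + D 37 + D 38 + D 39 + D 40 + D 41) (by simp only [← hD]; rfl)
  rw [hs 36 8, hs 38 56] at p6
  have p7 := gad2 f hs 42 43 44 45 46 47 14 31 55 (hp 42) (hp 43) (hp 44) (hp 45) (hp 46) (hp 47) (hb 42) (hb 43) (hb 44) (hb 45)
    (D 42 + D 43 + D 44 + D 45 + D 46 + D 47) (by simp only [← hD]; rfl)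
  rw [hs 42 14, hs 43 31] at p7
  have p8 := gad2 f hs 48 49 50 51 52 53 20 37 32 (hp 48) (hp 49) (hp 50) (hp 51) (hp 52) (hp 53) (hb 48) (hb 49) (hb 50) (hb 51)
    (D 48 + D 49 + D 50 + D 51 + D 52 + D 53) (by simp only [← hD]; rfl)
  rw [hs 48 20, hs 49 37] at p8
  have p9 := gad2 f hs 54 55 56 57 58 59 26 44 38 (hp 54) (hp 55) (hp 56) (hp 57) (hp 58) (hp 59) (hb 54) (hb 55) (hb 56) (hb 57)
    (D 54 + D 55 + D 56 + D 57 + D 58 + D 59) (by simp only [← hD]; rfl)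
  rw [hs 54 26, hs 55 44] at p9
  have ht2 : (D 0 + D 1 + D 2 + D 3 + D 4 + D 5) + (D 6 + D 7 + D 8 + D 9 + D 10 + D 11) + (D 12 + D 13 + D 14 + D 15 + D 16 + D 17) + (D 18 + D 19 + D 20 + D 21 + D 22 + D 23) + (D 24 + D 25 + D 26 + D 27 + D 28 + D 29) + (D 30 + D 31 + D 32 + D 33 + D 34 + D 35) + (D 36 + D 37 + D 38 + D 39 + D 40 + D 41) + (D 42 + D 43 + D 44 + D 45 + D 46 + D 47) + (D 48 + D 49 + D 50 + D 51 + D 52 + D 53) + (D 54 + D 55 + D 56 + D 57 + D 58 + D 59) ≤ 264 := regroup ht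
  obtain ⟨q0, q1, q2, q3, q4, q5, q6, q7, q8, q9⟩ := arith ht2 p0 p1 p2 p3 p4 p5 p6 p7 p8 p9
  clear ht ht2 hD p0 p1 p2 p3 p4 p5 p6 p7 p8 p9
  obtain ⟨a0, l0, e0⟩ := pos (hb 0 6 (by decide))
  obtain ⟨a1, l1, e1⟩ := pos (hb 7 12 (by decide))
  obtain ⟨a2, l2, e2⟩ := pos (hb 13 18 (by decide))
  obtain ⟨a3, l3, e3⟩ := pos (hb 19 24 (by decide))
  obtain ⟨a4, l4, e4⟩ := pos (hb 25 1 (by decide))
  obtain ⟨a5, l5, e5⟩ := pos (hb 2 30 (by decide))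
  obtain ⟨a6, l6, e6⟩ := pos (hb 8 36 (by decide))
  obtain ⟨a7, l7, e7⟩ := pos (hb 14 42 (by decide))
  obtain ⟨a8, l8, e8⟩ := pos (hb 20 48 (by decide))
  obtain ⟨a9, l9, e9⟩ := pos (hb 26 54 (by decide))
  obtain ⟨a10, l10, e10⟩ := pos (hb 31 43 (by decide))
  obtain ⟨a11, l11, e11⟩ := pos (hb 37 49 (by decide))
  obtain ⟨a12, l12, e12⟩ := pos (hb 44 55 (by decide))
  obtain ⟨a13, l13, e13⟩ := pos (hb 50 32 (by decide))
  obtain ⟨a14, l14, e14⟩ := pos (hb 56 38 (by decide))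
  have r0 : a0 + a4 + a5 = 1 := by
    rw [e0, e4, e5] at q0
    clear * - q0
    omega
  have r1 : a0 + a1 + a6 = 1 := by
    rw [e0, e1, e6] at q1
    clear * - q1
    omega
  have r2 : a1 + a2 + a7 = 1 := by
    rw [e1, e2, e7] at q2
    clear * - q2
    omega
  have r3 : a2 + a3 + a8 = 1 := by
    rw [e2, e3, e8] at q3
    clear * - q3
    omega
  have r4 : a3 + a4 + a9 = 1 := by
    rw [e3, e4, e9] at q4
    clear * - q4
    omega
  have r5 : a5 + a10 + a13 = 1 := by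
    rw [e5, e10, e13] at q5
    clear * - q5
    omega
  have r6 : a6 + a11 + a14 = 1 := by
    rw [e6, e11, e14] at q6
    clear * - q6
    omega
  have r7 : a7 + a10 + a12 = 1 := by
    rw [e7, e10, e12] at q7
    clear * - q7
    omega
  have r8 : a8 + a11 + a13 = 1 := by
    rw [e8, e11, e13] at q8
    clear * - q8
    omega
  have r9 : a9 + a12 + a14 = 1 := by
    rw [e9, e12, e14] at q9
    clear * - q9
    omega
  have h2 := pet2 a0 l0 a4 l4 a5 l5 r0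
    a1 l1 a6 l6 r1
    a2 l2 a7 l7 r2
    a3 l3 a8 l8 r3
    a9 l9 r4
    a10 l10 a13 l13 r5
    a12 l12 r7
    a14 l14 r9
    a11 l11 r6
    r8
  let j : ℕ → ℕ := fun k => [a0, a1, a2, a3, a4, a5, a6, a7, a8, a9, a10, a11, a12, a13, a14].getD k 0
  have h3 := hg j ⟨r0, r1, r2, r3, r4, r5, r6, r7, r8, r9⟩
  have hA : AA j f = 10 := by
    unfold AA
    rw [e0, e1, e2, e3, e4, e5, e6, e7, e8, e9, e10, e11, e12, e13, e14]
    exact h2.1
  have hB : BB j f = 10 := by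
    unfold BB
    rw [e0, e1, e2, e3, e4, e5, e6, e7, e8, e9, e10, e11, e12, e13, e14]
    exact h2.2
  unfold Good at h3
  rw [hA, hB] at h3
  exact absurd (h3.2 rfl) (by norm_num)

def mu (F : List (Σ u : Fin 60, G.Walk u u)) (x y : Fin 60) : ℕ :=
  (F.map (fun c => c.2.edges.count s(x, y))).sum

lemma cnt0 {u v : Fin 60} (p : G.Walk u v) (x y : Fin 60) (h : ¬ G.Adj x y) :
    p.edges.count s(x, y) = 0 :=
  List.count_eq_zero.2 (fun h' => h (p.adj_of_mem_edges h'))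

lemma all (F : List (Σ u : Fin 60, G.Walk u u)) (hF : ∀ c ∈ F, c.2.IsCycle) :
    (∀ v, ((nbrs v).map (mu F v)).sum % 2 = 0) ∧
    (∑ v, ((nbrs v).map (mu F v)).sum = 2 * (F.map (fun c => c.2.length)).sum) ∧
    ∀ j, PM j → Good j (mu F) := by
  induction F with
  | nil =>
    have : ∀ v, mu [] v = fun _ => 0 := fun v => rfl
    refine ⟨fun v => by simp [this], by simp [this], fun j _ => ?_⟩
    simp [Good, AA, BB, this]
  | cons c F ih =>
    obtain ⟨i1, i2, i3⟩ := ih (fun d hd => hF d (List.mem_cons_of_mem _ hd))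
    have hc := hF c List.mem_cons_self
    have e : mu (c :: F) = fun x y => c.2.edges.count s(x, y) + mu F x y := by
      funext x y; simp [mu]
    have hn : ∀ v, ((nbrs v).map (fun y => c.2.edges.count s(v, y))).sum
        = ∑ y, c.2.edges.count s(v, y) := fun v => (nsum _ v (cnt0 c.2 v)).symm
    have hp : ∀ v, ((nbrs v).map (fun y => c.2.edges.count s(v, y))).sum % 2 = 0 := by
      intro v
      have := par c.2 v
      rw [hn]
      revert this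
      split_ifs <;> omega
    rw [e]
    refine ⟨fun v => ?_, ?_, fun j hj => ?_⟩
    · rw [List.sum_map_add]
      have := i1 v
      have := hp v
      omega
    · simp only [List.sum_map_add, sum_add_distrib, i2, hn, hand, List.map_cons, List.sum_cons]
      ring
    · refine good_add j _ _ (good_one j hj _ (fun x y => by rw [Sym2.eq_swap]) ?_ hp) (i3 j hj)
      intro x y
      have := List.nodup_iff_count_le_one.1 hc.edges_nodup s(x, y)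
      omega

theorem lower (F : List (Σ u : Fin 60, G.Walk u u)) (hF : ∀ c ∈ F, c.2.IsCycle)
    (hb : ∀ x y, G.Adj x y → 1 ≤ mu F x y ∧ mu F x y ≤ 2) :
    132 < (F.map (fun c => c.2.length)).sum := by
  by_contra h
  obtain ⟨i1, i2, i3⟩ := all F hF
  refine final (mu F) (fun x y => ?_) (fun v w hw => hb v w hw) i1 (by omega) i3
  unfold mu
  rw [Sym2.eq_swap]

def w0 : G.Walk 2 2 :=
  .cons (show G.Adj 2 5 by decide) (.cons (show G.Adj 5 1 by decide) (.cons (show G.Adj 1 3 by decide) (.cons (show G.Adj 3 0 by decide) (.cons (show G.Adj 0 6 by decide) (.cons (show G.Adj 6 10 by decide) (.cons (show G.Adj 10 7 by decide) (.cons (show G.Adj 7 12 by decide) (.cons (show G.Adj 12 17 by decide) (.cons (show G.Adj 17 14 by decide) (.cons (show G.Adj 14 42 by decide) (.cons (show G.Adj 42 47 by decide) (.cons (show G.Adj 47 43 by decide) (.cons (show G.Adj 43 31 by decide) (.cons (show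 G.Adj 31 35 by decide) (.cons (show G.Adj 35 30 by decide) (.cons (show G.Adj 30 2 by decide) (.nil)))))))))))))))))

def w1 : G.Walk 1 1 :=
  .cons (show G.Adj 1 4 by decide) (.cons (show G.Adj 4 0 by decide) (.cons (show G.Adj 0 6 by decide) (.cons (show G.Adj 6 9 by decide) (.cons (show G.Adj 9 7 by decide) (.cons (show G.Adj 7 11 by decide) (.cons (show G.Adj 11 8 by decide) (.cons (show G.Adj 8 36 by decide) (.cons (show G.Adj 36 41 by decide) (.cons (show G.Adj 41 37 by decide) (.cons (show G.Adj 37 49 by decide) (.cons (show G.Adj 49 53 by decide) (.cons (show G.Adj 53 48 by decide) (.cons (show G.Adj 48 20 by decide) (.cons (show G.Adj 20 23 by decide) (.cons (show G.Adj 23 18 by decide) (.cons (show G.Adj 18 13 by decide) (.cons (show G.Adj 13 17 by decide) (.cons (show G.Adj 17 14 by decide) (.cons (show G.Adj 14 42 by decide) (.cons (show G.Adj 42 47 by decide) (.cons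 (show G.Adj 47 44 by decide) (.cons (show G.Adj 44 55 by decide) (.cons (show G.Adj 55 59 by decide) (.cons (show G.Adj 59 54 by decide) (.cons (show G.Adj 54 26 by decide) (.cons (show G.Adj 26 29 by decide) (.cons (show G.Adj 29 25 by decide) (.cons (show G.Adj 25 1 by decide) (.nil)))))))))))))))))))))))))))))

def w2 : G.Walk 2 2 :=
  .cons (show G.Adj 2 5 by decide) (.cons (show G.Adj 5 0 by decide) (.cons (show G.Adj 0 6 by decide) (.cons (show G.Adj 6 11 by decide) (.cons (show G.Adj 11 8 by decide) (.cons (show G.Adj 8 36 by decide) (.cons (show G.Adj 36 41 by decide) (.cons (show G.Adj 41 38 by decide) (.cons (show G.Adj 38 56 by decide) (.cons (show G.Adj 56 59 by decide) (.cons (show G.Adj 59 54 by decide) (.cons (show G.Adj 54 26 by decide) (.cons (show G.Adj 26 29 by decide) (.cons (show G.Adj 29 24 by decide) (.cons (show G.Adj 24 19 by decide) (.cons (show G.Adj 19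 23 by decide) (.cons (show G.Adj 23 20 by decide) (.cons (show G.Adj 20 48 by decide) (.cons (show G.Adj 48 53 by decide) (.cons (show G.Adj 53 50 by decide) (.cons (show G.Adj 50 32 by decide) (.cons (show G.Adj 32 35 by decide) (.cons (show G.Adj 35 30 by decide) (.cons (show G.Adj 30 2 by decide) (.nil))))))))))))))))))))))))

def w3 : G.Walk 2 2 :=
  .cons (show G.Adj 2 3 by decide) (.cons (show G.Adj 3 4 by decide) (.cons (show G.Adj 4 2 by decide) (.nil)))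

def w4 : G.Walk 8 8 :=
  .cons (show G.Adj 8 9 by decide) (.cons (show G.Adj 9 10 by decide) (.cons (show G.Adj 10 8 by decide) (.nil)))

def w5 : G.Walk 12 12 :=
  .cons (show G.Adj 12 15 by decide) (.cons (show G.Adj 15 13 by decide) (.cons (show G.Adj 13 16 by decide) (.cons (show G.Adj 16 12 by decide) (.nil))))

def w6 : G.Walk 14 14 :=
  .cons (show G.Adj 14 15 by decide) (.cons (show G.Adj 15 16 by decide) (.cons (show G.Adj 16 14 by decide) (.nil)))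

def w7 : G.Walk 18 18 :=
  .cons (show G.Adj 18 21 by decide) (.cons (show G.Adj 21 19 by decide) (.cons (show G.Adj 19 22 by decide) (.cons (show G.Adj 22 18 by decide) (.nil))))

def w8 : G.Walk 20 20 :=
  .cons (show G.Adj 20 21 by decide) (.cons (show G.Adj 21 22 by decide) (.cons (show G.Adj 22 20 by decide) (.nil)))

def w9 : G.Walk 24 24 :=
  .cons (show G.Adj 24 27 by decide) (.cons (show G.Adj 27 25 by decide) (.cons (show G.Adj 25 28 by decide) (.cons (show G.Adj 28 24 by decide) (.nil))))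

def w10 : G.Walk 26 26 :=
  .cons (show G.Adj 26 27 by decide) (.cons (show G.Adj 27 28 by decide) (.cons (show G.Adj 28 26 by decide) (.nil)))

def w11 : G.Walk 31 31 :=
  .cons (show G.Adj 31 33 by decide) (.cons (show G.Adj 33 32 by decide) (.cons (show G.Adj 32 34 by decide) (.cons (show G.Adj 34 31 by decide) (.nil))))

def w12 : G.Walk 30 30 :=
  .cons (show G.Adj 30 33 by decide) (.cons (show G.Adj 33 34 by decide) (.cons (show G.Adj 34 30 by decide) (.nil)))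

def w13 : G.Walk 37 37 :=
  .cons (show G.Adj 37 39 by decide) (.cons (show G.Adj 39 38 by decide) (.cons (show G.Adj 38 40 by decide) (.cons (show G.Adj 40 37 by decide) (.nil))))

def w14 : G.Walk 36 36 :=
  .cons (show G.Adj 36 39 by decide) (.cons (show G.Adj 39 40 by decide) (.cons (show G.Adj 40 36 by decide) (.nil)))

def w15 : G.Walk 43 43 :=
  .cons (show G.Adj 43 45 by decide) (.cons (show G.Adj 45 44 by decide) (.cons (show G.Adj 44 46 by decide) (.cons (show G.Adj 46 43 by decide) (.nil))))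

def w16 : G.Walk 42 42 :=
  .cons (show G.Adj 42 45 by decide) (.cons (show G.Adj 45 46 by decide) (.cons (show G.Adj 46 42 by decide) (.nil)))

def w17 : G.Walk 49 49 :=
  .cons (show G.Adj 49 51 by decide) (.cons (show G.Adj 51 50 by decide) (.cons (show G.Adj 50 52 by decide) (.cons (show G.Adj 52 49 by decide) (.nil))))

def w18 : G.Walk 48 48 :=
  .cons (show G.Adj 48 51 by decide) (.cons (show G.Adj 51 52 by decide) (.cons (show G.Adj 52 48 by decide) (.nil)))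

def w19 : G.Walk 55 55 :=
  .cons (show G.Adj 55 57 by decide) (.cons (show G.Adj 57 56 by decide) (.cons (show G.Adj 56 58 by decide) (.cons (show G.Adj 58 55 by decide) (.nil))))

def w20 : G.Walk 54 54 :=
  .cons (show G.Adj 54 57 by decide) (.cons (show G.Adj 57 58 by decide) (.cons (show G.Adj 58 54 by decide) (.nil)))

def F0 : List (Σ u : Fin 60, G.Walk u u) :=
  [⟨2, w0⟩, ⟨1, w1⟩, ⟨2, w2⟩, ⟨2, w3⟩, ⟨8, w4⟩, ⟨12, w5⟩, ⟨14, w6⟩, ⟨18, w7⟩, ⟨20, w8⟩, ⟨24, w9⟩, ⟨26, w10⟩, ⟨31, w11⟩, ⟨30, w12⟩, ⟨37, w13⟩, ⟨36, w14⟩, ⟨43, w15⟩, ⟨42, w16⟩, ⟨49, w17⟩, ⟨48, w18⟩, ⟨55, w19⟩, ⟨54, w20⟩]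

lemma F0_cyc : ∀ c ∈ F0, c.2.IsCycle := by
  have : ∀ c ∈ F0, c.2.edges.Nodup ∧ c.2.length ≠ 0 ∧ c.2.support.tail.Nodup := by decide +kernel
  intro c hc
  obtain ⟨h1, h2, h3⟩ := this c hc
  refine (Walk.isCycle_def _).2 ⟨(Walk.isTrail_def _).2 h1, ?_, h3⟩
  intro h
  rw [h] at h2
  exact h2 rfl

lemma F0_cov : ∀ e ∈ G.edgeSet, ∃ c ∈ F0, e ∈ c.2.edges := by
  have : ∀ v : Fin 60, ∀ w ∈ nbrs v, ∃ c ∈ F0, s(v, w) ∈ c.2.edges := by decide +kernel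
  intro e
  induction e using Sym2.ind with
  | h v w => exact fun h => this v w h

lemma F0_len : (F0.map (fun c => c.2.length)).sum = 132 := by decide +kernel

end Pool.Agent.H10.SCC
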