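import Mathlib
import Pool.Agent.H10.SCC

set_option autoImplicit false

namespace Pool.Agent.H10.F5

open Finset Pool.Agent.H10.SCC

lemma pet : ∀ a0 < 2, ∀ a4 < 2, ∀ a5 < 2, (a0 + a4 + a5) % 2 = 0 →
    ∀ a1 < 2, ∀ a6 < 2, (a0 + a1 + a6) % 2 = 0 →
    ∀ a2 < 2, ∀ a7 < 2, (a1 + a2 + a7) % 2 = 0 →
    ∀ a3 < 2, ∀ a8 < 2, (a2 + a3 + a8) % 2 = 0 →
    ∀ a9 < 2, (a3 + a4 + a9) % 2 = 0 →
    ∀ a10 < 2, ∀ a13 < 2, (a5 + a10 + a13) % 2 = 0 →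
    ∀ a12 < 2, (a7 + a10 + a12) % 2 = 0 →
    ∀ a14 < 2, (a9 + a12 + a14) % 2 = 0 →
    ∀ a11 < 2, (a6 + a11 + a14) % 2 = 0 →
    (a8 + a11 + a13) % 2 = 0 →
    ∀ x0 < 2, ∀ x4 < 2, ∀ x5 < 2, (x0 + x4 + x5) % 2 = 0 →
    ∀ x1 < 2, ∀ x6 < 2, (x0 + x1 + x6) % 2 = 0 →
    ∀ x2 < 2, ∀ x7 < 2, (x1 + x2 + x7) % 2 = 0 →
    ∀ x3 < 2, ∀ x8 < 2, (x2 + x3 + x8) % 2 = 0 →
    ∀ x9 < 2, (x3 + x4 + x9) % 2 = 0 →
    ∀ x10 < 2, ∀ x13 < 2, (x5 + x10 + x13) % 2 = 0 →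
    ∀ x12 < 2, (x7 + x10 + x12) % 2 = 0 →
    ∀ x14 < 2, (x9 + x12 + x14) % 2 = 0 →
    ∀ x11 < 2, (x6 + x11 + x14) % 2 = 0 →
    (x8 + x11 + x13) % 2 = 0 →
    a0 + x0 = 0 ∨ a1 + x1 = 0 ∨ a2 + x2 = 0 ∨ a3 + x3 = 0 ∨ a4 + x4 = 0 ∨ a5 + x5 = 0 ∨ a6 + x6 = 0 ∨ a7 + x7 = 0 ∨ a8 + x8 = 0 ∨ a9 + x9 = 0 ∨ a10 + x10 = 0 ∨ a11 + x11 = 0 ∨ a12 + x12 = 0 ∨ a13 + x13 = 0 ∨ a14 + x14 = 0 := by
  have : (all2 fun a0 => all2 fun a4 => all2 fun a5 => imp ((a0 + a4 + a5) % 2 = 0) <|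
    all2 fun a1 => all2 fun a6 => imp ((a0 + a1 + a6) % 2 = 0) <|
    all2 fun a2 => all2 fun a7 => imp ((a1 + a2 + a7) % 2 = 0) <|
    all2 fun a3 => all2 fun a8 => imp ((a2 + a3 + a8) % 2 = 0) <|
    all2 fun a9 => imp ((a3 + a4 + a9) % 2 = 0) <|
    all2 fun a10 => all2 fun a13 => imp ((a5 + a10 + a13) % 2 = 0) <|
    all2 fun a12 => imp ((a7 + a10 + a12) % 2 = 0) <|
    all2 fun a14 => imp ((a9 + a12 + a14) % 2 = 0) <|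
    all2 fun a11 => imp ((a6 + a11 + a14) % 2 = 0) <|
    imp ((a8 + a11 + a13) % 2 = 0) <|
    all2 fun x0 => all2 fun x4 => all2 fun x5 => imp ((x0 + x4 + x5) % 2 = 0) <|
    all2 fun x1 => all2 fun x6 => imp ((x0 + x1 + x6) % 2 = 0) <|
    all2 fun x2 => all2 fun x7 => imp ((x1 + x2 + x7) % 2 = 0) <|
    all2 fun x3 => all2 fun x8 => imp ((x2 + x3 + x8) % 2 = 0) <|
    all2 fun x9 => imp ((x3 + x4 + x9) % 2 = 0) <|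
    all2 fun x10 => all2 fun x13 => imp ((x5 + x10 + x13) % 2 = 0) <|
    all2 fun x12 => imp ((x7 + x10 + x12) % 2 = 0) <|
    all2 fun x14 => imp ((x9 + x12 + x14) % 2 = 0) <|
    all2 fun x11 => imp ((x6 + x11 + x14) % 2 = 0) <|
    imp ((x8 + x11 + x13) % 2 = 0) <|
    decide (a0 + x0 = 0 ∨ a1 + x1 = 0 ∨ a2 + x2 = 0 ∨ a3 + x3 = 0 ∨ a4 + x4 = 0 ∨ a5 + x5 = 0 ∨ a6 + x6 = 0 ∨ a7 + x7 = 0 ∨ a8 + x8 = 0 ∨ a9 + x9 = 0 ∨ a10 + x10 = 0 ∨ a11 + x11 = 0 ∨ a12 + x12 = 0 ∨ a13 + x13 = 0 ∨ a14 + x14 = 0)) = true := by decide +kernel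
  simpa only [all2_spec, imp_spec, decide_eq_true_eq] using this

def s : Fin 45 → Fin 30 := ![0, 4, 7, 10, 13, 2, 5, 8, 11, 14, 16, 19, 23, 26, 29, 1, 2, 0, 4, 5, 3, 7, 8, 6, 10, 11, 9, 13, 14, 12, 16, 17, 15, 19, 20, 18, 22, 23, 21, 25, 26, 24, 28, 29, 27]

def t : Fin 45 → Fin 30 := ![3, 6, 9, 12, 1, 15, 18, 21, 24, 27, 22, 25, 28, 17, 20, 2, 0, 1, 5, 3, 4, 8, 6, 7, 11, 9, 10, 14, 12, 13, 17, 15, 16, 20, 18, 19, 23, 21, 22, 26, 24, 25, 29, 27, 28]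

def f : Fin 45 → Fin 3 → ZMod 2 := ![![0, 0, 1], ![1, 1, 0], ![0, 1, 1], ![1, 0, 0], ![1, 1, 1], ![1, 1, 0], ![1, 1, 1], ![1, 0, 1], ![1, 1, 1], ![0, 1, 1], ![0, 1, 1], ![0, 1, 0], ![1, 1, 0], ![1, 0, 1], ![1, 0, 1], ![0, 0, 1], ![1, 1, 1], ![1, 1, 0], ![0, 0, 1], ![1, 1, 0], ![1, 1, 1], ![1, 1, 0], ![0, 1, 1], ![1, 0, 1], ![0, 1, 1], ![1, 0, 0], ![1, 1, 1], ![1, 0, 0], ![1, 1, 1], ![0, 1, 1], ![1, 1, 0], ![0, 1, 1], ![1, 0, 1], ![1, 1, 1], ![0, 1, 0], ![1, 0, 1], ![1, 0, 1], ![0, 1, 1], ![1, 1, 0], ![1, 1, 1], ![0, 1, 0], ![1, 0, 1], ![0, 1, 1], ![1, 1, 0], ![1, 0, 1]]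

def inc : Fin 30 → List (Fin 45) := ![[0, 16, 17], [4, 15, 17], [5, 15, 16], [0, 19, 20], [1, 18, 20], [6, 18, 19], [1, 22, 23], [2, 21, 23], [7, 21, 22], [2, 25, 26], [3, 24, 26], [8, 24, 25], [3, 28, 29], [4, 27, 29], [9, 27, 28], [5, 31, 32], [10, 30, 32], [13, 30, 31], [6, 34, 35], [11, 33, 35], [14, 33, 34], [7, 37, 38], [10, 36, 38], [12, 36, 37], [8, 40, 41], [11, 39, 41], [13, 39, 40], [9, 43, 44], [12, 42, 44], [14, 42, 43]]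

def C0 : Finset (Fin 45) := univ.filter (fun e => 15 ≤ e.1)

def ind (C : Finset (Fin 45)) (e : Fin 45) : ℕ := if e ∈ C then 1 else 0

lemma ind_lt (C : Finset (Fin 45)) (e : Fin 45) : ind C e < 2 := by
  unfold ind; split_ifs <;> norm_num

lemma deg (C : Finset (Fin 45)) (v : Fin 30) :
    (C.filter (fun e => s e = v ∨ t e = v)).card = ((inc v).map (ind C)).sum := by
  have h1 : ∀ v, (inc v).Nodup := by decide +kernel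
  have h2 : ∀ v e, (s e = v ∨ t e = v) ↔ e ∈ inc v := by decide +kernel
  rw [← List.sum_toFinset _ (h1 v)]
  unfold ind
  rw [← card_filter]
  congr 1
  ext e
  simp [h2, and_comm]

lemma tri {a b c x y z : ℕ} (h1 : (a + (y + (z + 0))) % 2 = 0) (h2 : (b + (x + (z + 0))) % 2 = 0)
    (h3 : (c + (x + (y + 0))) % 2 = 0) : (a + b + c) % 2 = 0 := by omega

theorem main (C1 C2 : Finset (Fin 45))
    (h1 : ∀ v, Even (C1.filter (fun e => s e = v ∨ t e = v)).card)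
    (h2 : ∀ v, Even (C2.filter (fun e => s e = v ∨ t e = v)).card)
    (h : C0 ∪ C1 ∪ C2 = univ) : False := by
  simp only [deg, Nat.even_iff] at h1 h2
  have key : ∀ e : Fin 45, e.1 < 15 → ind C1 e + ind C2 e ≠ 0 := by
    intro e he
    have : e ∈ C0 ∪ C1 ∪ C2 := h ▸ mem_univ e
    simp only [C0, mem_union, mem_filter, mem_univ, true_and] at this
    unfold ind
    rcases this with (h3 | h3) | h3
    · omega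
    · simp [h3]
    · simp [h3]
  have := pet (ind C1 0) (ind_lt _ _) (ind C1 4) (ind_lt _ _) (ind C1 5) (ind_lt _ _) (tri (h1 0) (h1 1) (h1 2))
    (ind C1 1) (ind_lt _ _) (ind C1 6) (ind_lt _ _) (tri (h1 3) (h1 4) (h1 5))
    (ind C1 2) (ind_lt _ _) (ind C1 7) (ind_lt _ _) (tri (h1 6) (h1 7) (h1 8))
    (ind C1 3) (ind_lt _ _) (ind C1 8) (ind_lt _ _) (tri (h1 9) (h1 10) (h1 11))
    (ind C1 9) (ind_lt _ _) (tri (h1 12) (h1 13) (h1 14))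
    (ind C1 10) (ind_lt _ _) (ind C1 13) (ind_lt _ _) (tri (h1 15) (h1 16) (h1 17))
    (ind C1 12) (ind_lt _ _) (tri (h1 21) (h1 22) (h1 23))
    (ind C1 14) (ind_lt _ _) (tri (h1 27) (h1 28) (h1 29))
    (ind C1 11) (ind_lt _ _) (tri (h1 18) (h1 19) (h1 20))
    (tri (h1 24) (h1 25) (h1 26))
    (ind C2 0) (ind_lt _ _) (ind C2 4) (ind_lt _ _) (ind C2 5) (ind_lt _ _) (tri (h2 0) (h2 1) (h2 2))
    (ind C2 1) (ind_lt _ _) (ind C2 6) (ind_lt _ _) (tri (h2 3) (h2 4) (h2 5))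
    (ind C2 2) (ind_lt _ _) (ind C2 7) (ind_lt _ _) (tri (h2 6) (h2 7) (h2 8))
    (ind C2 3) (ind_lt _ _) (ind C2 8) (ind_lt _ _) (tri (h2 9) (h2 10) (h2 11))
    (ind C2 9) (ind_lt _ _) (tri (h2 12) (h2 13) (h2 14))
    (ind C2 10) (ind_lt _ _) (ind C2 13) (ind_lt _ _) (tri (h2 15) (h2 16) (h2 17))
    (ind C2 12) (ind_lt _ _) (tri (h2 21) (h2 22) (h2 23))
    (ind C2 14) (ind_lt _ _) (tri (h2 27) (h2 28) (h2 29))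
    (ind C2 11) (ind_lt _ _) (tri (h2 18) (h2 19) (h2 20))
    (tri (h2 24) (h2 25) (h2 26))
  rcases this with h3 | h3 | h3 | h3 | h3 | h3 | h3 | h3 | h3 | h3 | h3 | h3 | h3 | h3 | h3
  all_goals exact key _ (by decide) h3

end Pool.Agent.H10.F5
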