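import Mathlib

set_option autoImplicit false

namespace Pool.Agent.H10.GEL

open SimpleGraph

def Good {V : Type} (G : SimpleGraph V) : Prop :=
  ∃ f : V → V → ℝ, (∀ a b : V, f a b = f b a) ∧
    (∀ x y z w : V, G.Adj x y → G.Adj z w → f x y = f z w →
        (x = z ∧ y = w) ∨ (x = w ∧ y = z)) ∧
    ∀ (u : V) (p : G.Walk u u), p.IsCycle →
      ∃ i j : ℕ, i < p.length ∧ j < p.length ∧ i ≠ j ∧
        f (p.getVert ((i + 1) % p.length)) (p.getVert ((i + 1) % p.length + 1)) <
          f (p.getVert i) (p.getVert (i + 1)) ∧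
        f (p.getVert ((i + p.length - 1) % p.length))
            (p.getVert ((i + p.length - 1) % p.length + 1)) <
          f (p.getVert i) (p.getVert (i + 1)) ∧
        f (p.getVert ((j + 1) % p.length)) (p.getVert ((j + 1) % p.length + 1)) <
          f (p.getVert j) (p.getVert (j + 1)) ∧
        f (p.getVert ((j + p.length - 1) % p.length))
            (p.getVert ((j + p.length - 1) % p.length + 1)) <
          f (p.getVert j) (p.getVert (j + 1))

theorem pullback {V W : Type} {H : SimpleGraph V} {B : SimpleGraph W} (ψ : H →g B)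
    (hψ : Set.InjOn ψ H.support) (hB : Good B) : Good H := by
  obtain ⟨f, h1, h2, h3⟩ := hB
  refine ⟨fun a b => f (ψ a) (ψ b), fun a b => h1 _ _, ?_, ?_⟩
  · intro x y z w hxy hzw h
    have hx : x ∈ H.support := ⟨y, hxy⟩
    have hy : y ∈ H.support := ⟨x, hxy.symm⟩
    have hz : z ∈ H.support := ⟨w, hzw⟩
    have hw : w ∈ H.support := ⟨z, hzw.symm⟩
    rcases h2 _ _ _ _ (ψ.map_adj hxy) (ψ.map_adj hzw) h with ⟨a, b⟩ | ⟨a, b⟩
    · exact Or.inl ⟨hψ hx hz a, hψ hy hw b⟩
    · exact Or.inr ⟨hψ hx hw a, hψ hy hz b⟩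
  · intro u p hp
    have hsup : ∀ x ∈ p.support, x ∈ H.support := by
      intro x hx
      obtain ⟨e, he, hxe⟩ := (Walk.mem_support_iff_exists_mem_edges_of_not_nil hp.not_nil).1 hx
      obtain ⟨y, rfl⟩ := Sym2.mem_iff_exists.1 hxe
      exact ⟨y, p.adj_of_mem_edges he⟩
    have hc : (p.map ψ).IsCycle := by
      rw [Walk.isCycle_def] at hp ⊢
      refine ⟨?_, ?_, ?_⟩
      · rw [Walk.isTrail_def, Walk.edges_map]
        refine List.Nodup.map_on ?_ hp.1.edges_nodup
        intro e he e' he' h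
        induction e using Sym2.ind with
        | h a b =>
        induction e' using Sym2.ind with
        | h c d =>
        have ha := hsup a (p.fst_mem_support_of_mem_edges he)
        have hb := hsup b (p.snd_mem_support_of_mem_edges he)
        have hc := hsup c (p.fst_mem_support_of_mem_edges he')
        have hd := hsup d (p.snd_mem_support_of_mem_edges he')
        rw [Sym2.map_mk, Sym2.map_mk, Sym2.eq_iff] at h
        rw [Sym2.eq_iff]
        rcases h with ⟨h, h'⟩ | ⟨h, h'⟩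
        · exact Or.inl ⟨hψ ha hc h, hψ hb hd h'⟩
        · exact Or.inr ⟨hψ ha hd h, hψ hb hc h'⟩
      · intro h
        apply hp.2.1
        have := congrArg Walk.length h
        rw [Walk.length_map] at this
        exact Walk.length_eq_zero_iff.1 this |>.eq_nil
      · rw [Walk.support_map, ← List.map_tail]
        refine List.Nodup.map_on ?_ hp.2.2
        intro x hx y hy h
        exact hψ (hsup x (List.mem_of_mem_tail hx)) (hsup y (List.mem_of_mem_tail hy)) h
    have := h3 _ _ hc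
    simpa only [Walk.length_map, Walk.getVert_map] using this

theorem seq (l : ℕ) (hl : 3 ≤ l) (L : ℕ → ℕ) (hper : ∀ x y, x % l = y % l → L x = L y)
    (hne : ∀ k, L k ≠ L (k + 1)) :
    (∃ i j, i < l ∧ j < l ∧ i ≠ j ∧ L (i + 1) < L i ∧ L (i + l - 1) < L i ∧
      L (j + 1) < L j ∧ L (j + l - 1) < L j) ∨
    ∃ j a, j ≤ a ∧ a < j + l ∧ (∀ k, j ≤ k → k < a → L k < L (k + 1)) ∧
      ∀ k, a ≤ k → k + 1 < j + l → L (k + 1) < L k := by
  classical
  obtain ⟨j, _, hj⟩ := Finset.exists_min_image (Finset.range l) L ⟨0, by simp; omega⟩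
  have hmin : ∀ k, L j ≤ L k := by
    intro k
    rw [hper k (k % l) (by simp)]
    exact hj _ (Finset.mem_range.2 (Nat.mod_lt _ (by omega)))
  have hend : ¬ L (j + l - 1) < L (j + l - 1 + 1) := by
    rw [show j + l - 1 + 1 = j + l by omega, hper (j + l) j (by simp)]
    exact not_lt.2 (hmin _)
  have first : ∀ s, s ≤ j + l - 1 → L s < L (s + 1) → ∃ a, s < a ∧ a ≤ j + l - 1 ∧
      (∀ k, s ≤ k → k < a → L k < L (k + 1)) ∧ L (a + 1) < L a := by
    intro s hs hup
    have hex : ∃ k, s ≤ k ∧ ¬ L k < L (k + 1) := ⟨j + l - 1, hs, hend⟩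
    have h1 := Nat.find_spec hex
    have h2 : Nat.find hex ≤ j + l - 1 := Nat.find_min' hex ⟨hs, hend⟩
    refine ⟨Nat.find hex, ?_, h2, ?_, ?_⟩
    · rcases h1.1.lt_or_eq with h | h
      · exact h
      · exact absurd (h ▸ hup) h1.2
    · intro k hk hk2
      by_contra h
      exact Nat.find_min hex hk2 ⟨hk, h⟩
    · have := hne (Nat.find hex)
      have := h1.2
      omega
  have peak : ∀ a, 0 < a → L (a - 1) < L a → L (a + 1) < L a →
      L (a % l + 1) < L (a % l) ∧ L (a % l + l - 1) < L (a % l) := by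
    intro a ha h1 h2
    rw [hper (a % l) a (by simp), hper (a % l + 1) (a + 1) (by simp),
      hper (a % l + l - 1) (a - 1) ?_]
    · exact ⟨h2, h1⟩
    · rw [show a % l + l - 1 = a % l + (l - 1) by omega, Nat.mod_add_mod,
        show a + (l - 1) = a - 1 + l by omega, Nat.add_mod_right]
  obtain ⟨a, ha1, ha2, ha3, ha4⟩ := first j (by omega) (lt_of_le_of_ne (hmin _) (hne j))
  by_cases hall : ∀ k, a ≤ k → k + 1 < j + l → L (k + 1) < L k
  · exact Or.inr ⟨j, a, ha1.le, by omega, ha3, hall⟩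
  · left
    push Not at hall
    obtain ⟨k, hk1, hk2, hk3⟩ := hall
    obtain ⟨b, hb1, hb2, hb3, hb4⟩ := first k (by omega) (lt_of_le_of_ne hk3 (hne k))
    have pa := peak a (by omega) (by
      have := ha3 (a - 1) (by omega) (by omega)
      rwa [show a - 1 + 1 = a by omega] at this) ha4
    have pb := peak b (by omega) (by
      have := hb3 (b - 1) (by omega) (by omega)
      rwa [show b - 1 + 1 = b by omega] at this) hb4
    refine ⟨a % l, b % l, Nat.mod_lt _ (by omega), Nat.mod_lt _ (by omega), ?_, pa.1, pa.2,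
      pb.1, pb.2⟩
    intro h
    have h1 : l ∣ b - a := (Nat.modEq_iff_dvd' (by omega)).1 h
    have := Nat.le_of_dvd (by omega) h1
    omega

theorem good_of {V : Type} [Countable V] (G : SimpleGraph V) (lev : V → V → ℕ)
    (hs : ∀ a b, lev a b = lev b a)
    (hd : ∀ x y z, G.Adj y x → G.Adj y z → x ≠ z → lev y x ≠ lev y z)
    (S : V → V → V → Prop) (S0 : ∀ u v, G.Adj u v → S u u v)
    (S1 : ∀ u v w x, S u v w → G.Adj w x → lev v w < lev w x → S u w x)
    (S2 : ∀ u v v' w, S u v w → S u v' w → v = v') (S3 : ∀ u v, ¬ S u v u) : Good G := by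
  have : Countable (Sym2 V) := inferInstanceAs (Countable (Quot _))
  obtain ⟨code, hcode⟩ := exists_injective_nat (Sym2 V)
  let f : V → V → ℝ := fun a b => lev a b + 1 / ((code s(a, b) : ℝ) + 2)
  have hlo : ∀ a b, (lev a b : ℝ) < f a b := by
    intro a b
    have : (0 : ℝ) < 1 / ((code s(a, b) : ℝ) + 2) := by positivity
    simp only [f]; linarith
  have hhi : ∀ a b, f a b < lev a b + 1 := by
    intro a b
    have : 1 / ((code s(a, b) : ℝ) + 2) < 1 := by
      rw [div_lt_one (by positivity)]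
      have : (0 : ℝ) ≤ code s(a, b) := Nat.cast_nonneg _
      linarith
    simp only [f]; linarith
  have hlt : ∀ a b c d, lev a b < lev c d → f a b < f c d := by
    intro a b c d h
    have h' : (lev a b : ℝ) + 1 ≤ lev c d := by exact_mod_cast h
    linarith [hhi a b, hlo c d]
  refine ⟨f, fun a b => by simp only [f, hs a b, Sym2.eq_swap], ?_, ?_⟩
  · intro x y z w _ _ h
    have h1 : lev x y = lev z w := by
      rcases lt_trichotomy (lev x y) (lev z w) with h1 | h1 | h1
      · exact absurd h (hlt _ _ _ _ h1).ne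
      · exact h1
      · exact absurd h (hlt _ _ _ _ h1).ne'
    simp only [f, h1, add_right_inj] at h
    rw [div_eq_div_iff (by positivity) (by positivity)] at h
    have h2 : code s(x, y) = code s(z, w) := by
      have : (code s(x, y) : ℝ) = code s(z, w) := by linarith
      exact_mod_cast this
    exact Sym2.eq_iff.1 (hcode h2)
  · intro u p hp
    have hl := hp.three_le_length
    set l := p.length with hldef
    let q : ℕ → V := fun k => p.getVert (k % l)
    have hq : ∀ k, p.getVert (k % l + 1) = q (k + 1) := by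
      intro k
      have h1 := Nat.mod_lt k (show 0 < l by omega)
      show _ = p.getVert ((k + 1) % l)
      rw [← Nat.mod_add_mod]
      rcases Nat.lt_or_ge (k % l + 1) l with h | h
      · rw [Nat.mod_eq_of_lt h]
      · have h2 : k % l + 1 = l := by omega
        rw [h2, Nat.mod_self, hldef, p.getVert_length, p.getVert_zero]
    have hadj : ∀ k, G.Adj (q k) (q (k + 1)) := by
      intro k
      rw [← hq]
      exact p.adj_getVert_succ (Nat.mod_lt k (by omega))
    have hne2 : ∀ k, q k ≠ q (k + 2) := by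
      intro k h
      have h1 := Nat.mod_lt k (show 0 < l by omega)
      have h2 := Nat.mod_lt (k + 2) (show 0 < l by omega)
      have h3 : k % l = (k + 2) % l :=
        hp.getVert_injOn' (by show k % l ≤ l - 1; omega) (by show (k + 2) % l ≤ l - 1; omega) h
      have h4 : l ∣ k + 2 - k := (Nat.modEq_iff_dvd' (by omega)).1 h3
      have := Nat.le_of_dvd (by omega) h4
      omega
    have hqper : ∀ x y, x % l = y % l → q x = q y := fun x y h => by simp only [q, h]
    rcases seq l hl (fun k => lev (q k) (q (k + 1)))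
      (fun x y h => by
        rw [hqper x y h, hqper (x + 1) (y + 1) (by rw [← Nat.mod_add_mod, h, Nat.mod_add_mod])])
      (fun k => by
        rw [hs (q k)]
        exact hd _ _ _ (hadj k).symm (hadj (k + 1)) (hne2 k)) with
      ⟨i, j, hi, hj, hij, h1, h2, h3, h4⟩ | ⟨j, a, hja, haj, hup, hdn⟩
    · have e : ∀ i, i < l → p.getVert i = q i ∧ p.getVert (i + 1) = q (i + 1) := by
        intro i hi
        have := hq i
        rw [Nat.mod_eq_of_lt hi] at this
        exact ⟨by simp only [q, Nat.mod_eq_of_lt hi], this⟩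
      refine ⟨i, j, hi, hj, hij, ?_, ?_, ?_, ?_⟩
      · rw [hq, (e i hi).1, (e i hi).2]; exact hlt _ _ _ _ h1
      · rw [hq, (e i hi).1, (e i hi).2]; exact hlt _ _ _ _ h2
      · rw [hq, (e j hj).1, (e j hj).2]; exact hlt _ _ _ _ h3
      · rw [hq, (e j hj).1, (e j hj).2]; exact hlt _ _ _ _ h4
    · exfalso
      have hf : ∀ t, j + t ≤ a → S (q j) (q (j + t)) (q (j + t + 1)) := by
        intro t
        induction t with
        | zero => intro _; exact S0 _ _ (hadj j)
        | succ t ih =>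
          intro ht
          exact S1 _ _ _ _ (ih (by omega)) (hadj (j + t + 1)) (hup (j + t) (by omega) (by omega))
      have hfa : S (q j) (q a) (q (a + 1)) := by
        have := hf (a - j) (by omega)
        rwa [show j + (a - j) = a by omega] at this
      have hjl : q (j + l) = q j := hqper _ _ (by simp)
      have hb : ∀ t k, k + 1 + t = j + l → a < k → S (q j) (q (k + 1)) (q k) := by
        intro t
        induction t with
        | zero =>
          intro k hk _
          have h1 : q (k + 1) = q j := by rw [← hjl, ← hk]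
          rw [← h1]
          exact S0 _ _ (hadj k).symm
        | succ t ih =>
          intro k hk hak
          refine S1 _ _ _ _ (ih (k + 1) (by omega) (by omega)) (hadj k).symm ?_
          rw [hs (q (k + 1 + 1)), hs (q (k + 1)) (q k)]
          exact hdn k (by omega) (by omega)
      rcases Nat.lt_or_ge (a + 1) (j + l) with h | h
      · exact hne2 a (S2 _ _ _ _ hfa (hb (j + l - (a + 2)) (a + 1) (by omega) (by omega)))
      · have h1 : q (a + 1) = q j := by rw [← hjl, show a + 1 = j + l by omega]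
        rw [h1] at hfa
        exact S3 _ _ hfa

abbrev Z := ℤ × Fin 3

def nb (w : Z) : List Z :=
  if w.2 = 0 then [(w.1 + 1, 0), (w.1 - 1, 0), (w.1, 1), (w.1, 2), (w.1 - 3, 1), (w.1 - 3, 2)]
  else [(w.1, 0), (w.1 + 3, 0)]

def lev (x y : Z) : ℕ :=
  if x.2 = 0 ∧ y.2 = 0 then (if (min x.1 y.1) % 2 = 0 then 0 else 3)
  else if x.2 = 1 ∨ y.2 = 1 then (if x.1 = y.1 then 1 else 4)
  else (if x.1 = y.1 then 5 else 2)

def GZ : SimpleGraph Z where
  Adj x y := y ∈ nb x ∧ x ∈ nb y ∧ x ≠ y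
  symm := ⟨fun _ _ h => ⟨h.2.1, h.1, h.2.2.symm⟩⟩
  loopless := ⟨fun _ h => h.2.2 rfl⟩

def sh (u x : Z) : Z := (x.1 - 2 * (u.1 / 2), x.2)

theorem sh_inj (u : Z) : Function.Injective (sh u) := by
  intro x y h
  simp only [sh, Prod.mk.injEq] at h
  exact Prod.ext (by omega) h.2

theorem sh_nb (u x y : Z) (h : y ∈ nb x) : sh u y ∈ nb (sh u x) := by
  unfold nb at h ⊢
  by_cases hx : x.2 = 0
  · have hx' : (sh u x).2 = 0 := hx
    rw [if_pos hx] at h
    rw [if_pos hx']
    simp only [List.mem_cons, List.not_mem_nil, or_false] at h ⊢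
    rcases h with h | h | h | h | h | h <;> subst h <;> simp [sh] <;> omega
  · have hx' : ¬ (sh u x).2 = 0 := hx
    rw [if_neg hx] at h
    rw [if_neg hx']
    simp only [List.mem_cons, List.not_mem_nil, or_false] at h ⊢
    rcases h with h | h <;> subst h <;> simp [sh] <;> omega

theorem sh_lev (u x y : Z) : lev (sh u x) (sh u y) = lev x y := by
  have h1 : (min (sh u x).1 (sh u y).1) % 2 = (min x.1 y.1) % 2 := by
    simp only [sh]; omega
  have h2 : ((sh u x).1 = (sh u y).1) ↔ x.1 = y.1 := by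
    simp only [sh]; omega
  unfold lev
  simp only [h1, h2]
  rfl

def D : List Z := [(0, 0), (0, 1), (0, 2), (1, 0), (1, 1), (1, 2)]

theorem sh_self (u : Z) : sh u u ∈ D := by
  obtain ⟨i, s⟩ := u
  have h : i - 2 * (i / 2) = 0 ∨ i - 2 * (i / 2) = 1 := by omega
  unfold sh D
  rcases h with h | h <;> simp only [h] <;> revert s <;> decide

def SL : List (Z × Z × Z) :=
  [((0, 0), (0, 0), (1, 0)), ((0, 0), (0, 0), (-1, 0)), ((0, 0), (0, 0), (0, 1)),
   ((0, 0), (0, 0), (0, 2)), ((0, 0), (0, 0), (-3, 1)), ((0, 0), (0, 0), (-3, 2)),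
   ((0, 0), (1, 0), (2, 0)), ((0, 0), (1, 0), (1, 1)), ((0, 0), (1, 0), (1, 2)),
   ((0, 0), (1, 0), (-2, 1)), ((0, 0), (1, 0), (-2, 2)), ((0, 0), (-1, 0), (-1, 2)),
   ((0, 0), (-1, 0), (-4, 1)), ((0, 0), (0, 1), (3, 0)), ((0, 0), (-3, 2), (-3, 0)),
   ((0, 0), (2, 0), (2, 2)), ((0, 0), (2, 0), (-1, 1)), ((0, 0), (1, 1), (4, 0)),
   ((0, 0), (-2, 2), (-2, 0)), ((0, 0), (3, 0), (3, 2)), ((0, 0), (4, 0), (4, 2)),
   ((0, 1), (0, 1), (0, 0)), ((0, 1), (0, 1), (3, 0)), ((0, 1), (0, 0), (-1, 0)),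
   ((0, 1), (0, 0), (0, 2)), ((0, 1), (0, 0), (-3, 1)), ((0, 1), (0, 0), (-3, 2)),
   ((0, 1), (3, 0), (3, 2)), ((0, 1), (-1, 0), (-1, 2)), ((0, 1), (-1, 0), (-4, 1)),
   ((0, 1), (-3, 2), (-3, 0)),
   ((0, 2), (0, 2), (0, 0)), ((0, 2), (0, 2), (3, 0)), ((0, 2), (3, 0), (4, 0)),
   ((0, 2), (3, 0), (3, 2)), ((0, 2), (3, 0), (0, 1)), ((0, 2), (4, 0), (4, 2)),
   ((0, 2), (4, 0), (1, 1)),
   ((1, 0), (1, 0), (2, 0)), ((1, 0), (1, 0), (0, 0)), ((1, 0), (1, 0), (1, 1)),
   ((1, 0), (1, 0), (1, 2)), ((1, 0), (1, 0), (-2, 1)), ((1, 0), (1, 0), (-2, 2)),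
   ((1, 0), (2, 0), (2, 2)), ((1, 0), (2, 0), (-1, 1)), ((1, 0), (0, 0), (-1, 0)),
   ((1, 0), (0, 0), (0, 1)), ((1, 0), (0, 0), (0, 2)), ((1, 0), (0, 0), (-3, 1)),
   ((1, 0), (0, 0), (-3, 2)), ((1, 0), (1, 1), (4, 0)), ((1, 0), (-2, 2), (-2, 0)),
   ((1, 0), (-1, 0), (-1, 2)), ((1, 0), (-1, 0), (-4, 1)), ((1, 0), (0, 1), (3, 0)),
   ((1, 0), (-3, 2), (-3, 0)), ((1, 0), (4, 0), (4, 2)), ((1, 0), (3, 0), (3, 2)),
   ((1, 1), (1, 1), (1, 0)), ((1, 1), (1, 1), (4, 0)), ((1, 1), (1, 0), (2, 0)),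
   ((1, 1), (1, 0), (1, 2)), ((1, 1), (1, 0), (-2, 1)), ((1, 1), (1, 0), (-2, 2)),
   ((1, 1), (4, 0), (4, 2)), ((1, 1), (2, 0), (2, 2)), ((1, 1), (2, 0), (-1, 1)),
   ((1, 1), (-2, 2), (-2, 0)),
   ((1, 2), (1, 2), (1, 0)), ((1, 2), (1, 2), (4, 0)), ((1, 2), (4, 0), (3, 0)),
   ((1, 2), (4, 0), (4, 2)), ((1, 2), (4, 0), (1, 1)), ((1, 2), (3, 0), (3, 2)),
   ((1, 2), (3, 0), (0, 1))]

theorem goodZ : Good GZ := by
  refine good_of GZ lev ?_ ?_ (fun u v w => (sh u u, sh u v, sh u w) ∈ SL) ?_ ?_ ?_ ?_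
  · intro a b
    unfold lev
    simp only [min_comm a.1, and_comm (a := a.2 = 0), or_comm (a := a.2 = 1), eq_comm (a := a.1)]
  · intro x y z hx hz hxz
    have key : ∀ y ∈ D, ∀ x ∈ nb y, ∀ z ∈ nb y, x ≠ z → lev y x ≠ lev y z := by decide +kernel
    rw [← sh_lev y y x, ← sh_lev y y z]
    exact key _ (sh_self y) _ (sh_nb y _ _ hx.1) _ (sh_nb y _ _ hz.1) (fun h => hxz (sh_inj y h))
  · intro u v h
    have key : ∀ y ∈ D, ∀ x ∈ nb y, (y, y, x) ∈ SL := by decide +kernel
    exact key _ (sh_self u) _ (sh_nb u _ _ h.1)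
  · intro u v w x h hwx hl
    have key : ∀ t ∈ SL, ∀ x ∈ nb t.2.2, lev t.2.1 t.2.2 < lev t.2.2 x → (t.1, t.2.2, x) ∈ SL := by
      decide +kernel
    exact key _ h _ (sh_nb u _ _ hwx.1) (by simpa only [sh_lev] using hl)
  · intro u v v' w h h'
    have key : ∀ t ∈ SL, ∀ t' ∈ SL, t.1 = t'.1 → t.2.2 = t'.2.2 → t.2.1 = t'.2.1 := by
      decide +kernel
    exact sh_inj u (key _ h _ h' rfl rfl)
  · intro u v h
    have key : ∀ t ∈ SL, t.1 ≠ t.2.2 := by decide +kernel
    exact key _ h rfl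

end Pool.Agent.H10.GEL
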