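import Mathlib
import Pool.Agent.H10.GEL

set_option autoImplicit false

namespace Pool.Agent.H10.GEL

open SimpleGraph

def CycProp {V : Type} (G : SimpleGraph V) (f : V → V → ℝ) : Prop :=
  ∀ (u : V) (p : G.Walk u u), p.IsCycle →
      ∃ i j : ℕ, i < p.length ∧ j < p.length ∧ i ≠ j ∧
        f (p.getVert ((i + 1) % p.length)) (p.getVert ((i + 1) % p.length + 1)) <
          f (p.getVert i) (p.getVert (i + 1)) ∧
        f (p.getVert ((i + p.length - 1) % p.length))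
            (p.getVert ((i + p.length - 1) % p.length + 1)) <
          f (p.getVert i) (p.getVert (i + 1)) ∧
        f (p.getVert ((j + 1) % p.length)) (p.getVert ((j + 1) % p.length + 1)) <
          f (p.getVert j) (p.getVert (j + 1)) ∧
        f (p.getVert ((j + p.length - 1) % p.length))
            (p.getVert ((j + p.length - 1) % p.length + 1)) <
          f (p.getVert j) (p.getVert (j + 1))

theorem cyc4 {V : Type} {G : SimpleGraph V} {f : V → V → ℝ} (h : CycProp G f) {a b c d : V}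
    (h1 : G.Adj a b) (h2 : G.Adj b c) (h3 : G.Adj c d) (h4 : G.Adj d a) (hac : a ≠ c)
    (hbd : b ≠ d) :
    (f b c < f a b ∧ f d a < f a b ∧ f d a < f c d ∧ f b c < f c d) ∨
    (f c d < f b c ∧ f a b < f b c ∧ f a b < f d a ∧ f c d < f d a) := by
  have := h1.ne; have := h2.ne; have := h3.ne; have := h4.ne
  have := h1.ne'; have := h2.ne'; have := h3.ne'; have := h4.ne'
  have := hac.symm; have := hbd.symm
  obtain ⟨i, j, hi, hj, hij, e1, e2, e3, e4⟩ :=
    h a (.cons h1 (.cons h2 (.cons h3 (.cons h4 .nil)))) (by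
      simp [Walk.isCycle_def, Walk.isTrail_def, *])
  simp only [Walk.length_cons, Walk.length_nil] at hi hj e1 e2 e3 e4
  interval_cases i <;> interval_cases j <;> simp at e1 e2 e3 e4 hij <;>
    first
    | exact Or.inl ⟨by linarith, by linarith, by linarith, by linarith⟩
    | exact Or.inr ⟨by linarith, by linarith, by linarith, by linarith⟩

theorem cyc5 {V : Type} {G : SimpleGraph V} {f : V → V → ℝ} (h : CycProp G f) {a b c d e : V}
    (h1 : G.Adj a b) (h2 : G.Adj b c) (h3 : G.Adj c d) (h4 : G.Adj d e) (h5 : G.Adj e a)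
    (hac : a ≠ c) (had : a ≠ d) (hbd : b ≠ d) (hbe : b ≠ e) (hce : c ≠ e) :
    ((f b c < f a b ∧ f e a < f a b) ∧ (f d e < f c d ∧ f b c < f c d)) ∨
    ((f b c < f a b ∧ f e a < f a b) ∧ (f e a < f d e ∧ f c d < f d e)) ∨
    ((f c d < f b c ∧ f a b < f b c) ∧ (f e a < f d e ∧ f c d < f d e)) ∨
    ((f c d < f b c ∧ f a b < f b c) ∧ (f a b < f e a ∧ f d e < f e a)) ∨
    ((f d e < f c d ∧ f b c < f c d) ∧ (f a b < f e a ∧ f d e < f e a)) := by
  have := h1.ne; have := h2.ne; have := h3.ne; have := h4.ne; have := h5.ne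
  have := h1.ne'; have := h2.ne'; have := h3.ne'; have := h4.ne'; have := h5.ne'
  have := hac.symm; have := hbd.symm; have := had.symm; have := hbe.symm; have := hce.symm
  obtain ⟨i, j, hi, hj, hij, e1, e2, e3, e4⟩ :=
    h a (.cons h1 (.cons h2 (.cons h3 (.cons h4 (.cons h5 .nil))))) (by
      simp [Walk.isCycle_def, Walk.isTrail_def, *])
  simp only [Walk.length_cons, Walk.length_nil] at hi hj e1 e2 e3 e4
  interval_cases i <;> interval_cases j <;> simp at e1 e2 e3 e4 hij <;>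
    first
    | linarith
    | tauto

def Dn {n : ℕ} (x y : ZMod n × Fin 3) : Prop :=
  x.2 = 0 ∧ ((y.2 = 0 ∧ y.1 = x.1 + 1) ∨ (y.2 ≠ 0 ∧ (x.1 = y.1 ∨ x.1 = y.1 + 3)))

def Gn (n : ℕ) : SimpleGraph (ZMod n × Fin 3) where
  Adj x y := x ≠ y ∧ (Dn x y ∨ Dn y x)
  symm := ⟨fun _ _ h => ⟨h.1.symm, h.2.symm⟩⟩
  loopless := ⟨fun _ h => h.1 rfl⟩

theorem small_ne (n : ℕ) (hn : 4 ≤ n) (k : ℕ) (h1 : 0 < k) (h3 : k ≤ 3) : (k : ZMod n) ≠ 0 := by
  rw [Ne, ZMod.natCast_eq_zero_iff]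
  intro h
  have := Nat.le_of_dvd h1 h
  omega

theorem bad (n : ℕ) (hn : 4 ≤ n) (hodd : Odd n) : ¬ Good (Gn n) := by
  rintro ⟨f, hs, hinj, hc⟩
  have n1 : (1 : ZMod n) ≠ 0 := by simpa using small_ne n hn 1 (by omega) (by omega)
  have n2 : (2 : ZMod n) ≠ 0 := by simpa using small_ne n hn 2 (by omega) (by omega)
  have n3 : (3 : ZMod n) ≠ 0 := by simpa using small_ne n hn 3 (by omega) (by omega)
  have vne : ∀ (i k : ZMod n), k ≠ 0 → ((i, 0) : ZMod n × Fin 3) ≠ (i + k, 0) := by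
    intro i k hk h
    exact hk (by simpa using (Prod.ext_iff.1 h).1)
  have ae : ∀ i : ZMod n, (Gn n).Adj (i, 0) (i + 1, 0) :=
    fun i => ⟨vne i 1 n1, Or.inl ⟨rfl, Or.inl ⟨rfl, rfl⟩⟩⟩
  have gne : ∀ (i j : ZMod n) (t : Fin 3), t ≠ 0 → ((i, 0) : ZMod n × Fin 3) ≠ (j, t) :=
    fun i j t ht h => ht (Prod.ext_iff.1 h).2.symm
  have aL : ∀ (i : ZMod n) (t : Fin 3), t ≠ 0 → (Gn n).Adj (i, t) (i, 0) :=
    fun i t ht => ⟨(gne i i t ht).symm, Or.inr ⟨rfl, Or.inr ⟨ht, Or.inl rfl⟩⟩⟩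
  have aR : ∀ (i : ZMod n) (t : Fin 3), t ≠ 0 → (Gn n).Adj (i + 1 + 1 + 1, 0) (i, t) :=
    fun i t ht => ⟨gne _ i t ht, Or.inl ⟨rfl, Or.inr ⟨ht, Or.inr (by ring)⟩⟩⟩
  have alt : ∀ i : ZMod n, (f (i, 0) (i + 1, 0) < f (i + 1, 0) (i + 1 + 1, 0) ↔
      ¬ f (i + 1, 0) (i + 1 + 1, 0) < f (i + 1 + 1, 0) (i + 1 + 1 + 1, 0)) := by
    intro i
    have d2 : ∀ i : ZMod n, ((i, 0) : ZMod n × Fin 3) ≠ (i + 1 + 1, 0) := fun i => by
      rw [show i + 1 + 1 = i + 2 by ring]; exact vne i 2 n2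
    have d3 : ((i, 0) : ZMod n × Fin 3) ≠ (i + 1 + 1 + 1, 0) := by
      rw [show i + 1 + 1 + 1 = i + 3 by ring]; exact vne i 3 n3
    have c4 := cyc4 hc (aL i 1 (by decide)).symm (aR i 1 (by decide)).symm (aR i 2 (by decide))
      (aL i 2 (by decide)) d3 (fun h => absurd (Prod.ext_iff.1 h).2 (by decide : ¬ (1 : Fin 3) = 2))
    have c5 := cyc5 hc (ae i) (ae _) (ae _) (aR i 1 (by decide)) (aL i 1 (by decide)) (d2 i) d3
      (d2 _) (gne _ _ _ (by decide)) (gne _ _ _ (by decide))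
    have c5' := cyc5 hc (ae i) (ae _) (ae _) (aR i 2 (by decide)) (aL i 2 (by decide)) (d2 i) d3
      (d2 _) (gne _ _ _ (by decide)) (gne _ _ _ (by decide))
    rw [hs (i, 0) (i, 1), hs (i, 1) (i + 1 + 1 + 1, 0)] at c4
    generalize f (i, 0) (i + 1, 0) = e1 at *
    generalize f (i + 1, 0) (i + 1 + 1, 0) = e2 at *
    generalize f (i + 1 + 1, 0) (i + 1 + 1 + 1, 0) = e3 at *
    generalize f (i, 1) (i, 0) = Lc at *
    generalize f (i, 2) (i, 0) = Ld at *
    generalize f (i + 1 + 1 + 1, 0) (i, 1) = Rc at *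
    generalize f (i + 1 + 1 + 1, 0) (i, 2) = Rd at *
    have : (e1 < e2 ∧ e3 < e2) ∨ (e2 < e1 ∧ e2 < e3) := by
      rcases c4 with ⟨a1, a2, a3, a4⟩ | ⟨a1, a2, a3, a4⟩ <;>
      rcases c5 with ⟨⟨b1, b2⟩, b3, b4⟩ | ⟨⟨b1, b2⟩, b3, b4⟩ | ⟨⟨b1, b2⟩, b3, b4⟩ |
        ⟨⟨b1, b2⟩, b3, b4⟩ | ⟨⟨b1, b2⟩, b3, b4⟩ <;>
      rcases c5' with ⟨⟨c1, c2⟩, c3, c4⟩ | ⟨⟨c1, c2⟩, c3, c4⟩ | ⟨⟨c1, c2⟩, c3, c4⟩ |
        ⟨⟨c1, c2⟩, c3, c4⟩ | ⟨⟨c1, c2⟩, c3, c4⟩ <;>
      first
      | exact Or.inl ⟨by linarith, by linarith⟩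
      | exact Or.inr ⟨by linarith, by linarith⟩
    rcases this with ⟨a, b⟩ | ⟨a, b⟩
    · exact ⟨fun _ => not_lt.2 b.le, fun _ => a⟩
    · exact ⟨fun h => absurd h (not_lt.2 a.le), fun h => absurd b h⟩
  let up : ZMod n → Prop := fun i => f (i, 0) (i + 1, 0) < f (i + 1, 0) (i + 1 + 1, 0)
  have par : ∀ k : ℕ, (up (k : ZMod n) ↔ (up 0 ↔ Even k)) := by
    intro k
    induction k with
    | zero => simp
    | succ k ih =>
      have h1 : up (k : ZMod n) ↔ ¬ up ((k : ZMod n) + 1) := alt k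
      rw [Nat.cast_succ, Nat.even_add_one]
      tauto
  have := par n
  rw [ZMod.natCast_self, ← Nat.not_odd_iff_even] at this
  tauto

theorem fin3 : ∀ t : Fin 3, t ≠ 0 → t = 1 ∨ t = 2 := by decide

theorem val_step (n : ℕ) [NeZero n] (z : ZMod n) (h1 : z + 1 ≠ 0) (h2 : z + 2 ≠ 0)
    (h3 : z + 3 ≠ 0) : (z + 1).val = z.val + 1 ∧ (z + 3).val = z.val + 3 := by
  have hlt := ZMod.val_lt z
  have e : ∀ k : ℕ, z + k = ((z.val + k : ℕ) : ZMod n) := by
    intro k; rw [Nat.cast_add, ZMod.natCast_zmod_val]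
  have hb : z.val + 3 < n := by
    by_contra h
    have : z.val + 1 = n ∨ z.val + 2 = n ∨ z.val + 3 = n := by omega
    rcases this with h | h | h
    · have := e 1; rw [h, ZMod.natCast_self] at this; exact h1 (by simpa using this)
    · have := e 2; rw [h, ZMod.natCast_self] at this; exact h2 (by simpa using this)
    · have := e 3; rw [h, ZMod.natCast_self] at this; exact h3 (by simpa using this)
  constructor
  · have := e 1
    rw [Nat.cast_one] at this
    rw [this, ZMod.val_cast_of_lt (by omega)]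
  · have := e 3
    rw [Nat.cast_ofNat] at this
    rw [this, ZMod.val_cast_of_lt (by omega)]

theorem good_of_small (n : ℕ) [NeZero n] (B : SimpleGraph (ZMod n × Fin 3)) (hB : B ≤ Gn n)
    (hs : 3 * B.support.ncard < n) : Good B := by
  obtain ⟨i0, hi0⟩ : ∃ i0 : ZMod n, i0 ∉ ((fun x : ZMod n × Fin 3 => x.1 + 1) '' B.support ∪
      (fun x : ZMod n × Fin 3 => x.1 + 2) '' B.support) ∪
      (fun x : ZMod n × Fin 3 => x.1 + 3) '' B.support := by
    by_contra h
    push Not at h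
    have h1 := Set.eq_univ_of_forall h
    have h2 := congrArg Set.ncard h1
    rw [Set.ncard_univ, Nat.card_zmod] at h2
    have a1 := Set.ncard_union_le ((fun x : ZMod n × Fin 3 => x.1 + 1) '' B.support ∪
      (fun x : ZMod n × Fin 3 => x.1 + 2) '' B.support)
      ((fun x : ZMod n × Fin 3 => x.1 + 3) '' B.support)
    have a2 := Set.ncard_union_le ((fun x : ZMod n × Fin 3 => x.1 + 1) '' B.support)
      ((fun x : ZMod n × Fin 3 => x.1 + 2) '' B.support)
    have a3 := Set.ncard_image_le (f := fun x : ZMod n × Fin 3 => x.1 + 1) (s := B.support)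
    have a4 := Set.ncard_image_le (f := fun x : ZMod n × Fin 3 => x.1 + 2) (s := B.support)
    have a5 := Set.ncard_image_le (f := fun x : ZMod n × Fin 3 => x.1 + 3) (s := B.support)
    omega
  have hv : ∀ x ∈ B.support, (x.1 - i0 + 1).val = (x.1 - i0).val + 1 ∧
      (x.1 - i0 + 3).val = (x.1 - i0).val + 3 := by
    intro x hx
    refine val_step n _ (fun h => hi0 ?_) (fun h => hi0 ?_) (fun h => hi0 ?_)
    · exact Or.inl (Or.inl ⟨x, hx, by linear_combination h⟩)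
    · exact Or.inl (Or.inr ⟨x, hx, by linear_combination h⟩)
    · exact Or.inr ⟨x, hx, by linear_combination h⟩
  let ψ : ZMod n × Fin 3 → Z := fun x => (((x.1 - i0).val : ℤ), x.2)
  have hinj : Function.Injective ψ := by
    intro x y h
    have h1 : (x.1 - i0).val = (y.1 - i0).val := by
      have h0 : (((x.1 - i0).val : ℕ) : ℤ) = (((y.1 - i0).val : ℕ) : ℤ) := (Prod.ext_iff.1 h).1
      exact_mod_cast h0
    have h2 := ZMod.val_injective n h1
    exact Prod.ext (by linear_combination h2) (Prod.ext_iff.1 h).2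
  have hD : ∀ x ∈ B.support, ∀ y ∈ B.support, Dn x y → ψ y ∈ nb (ψ x) ∧ ψ x ∈ nb (ψ y) := by
    rintro ⟨i, s⟩ hx ⟨j, t⟩ hy ⟨h0, h⟩
    simp only at h0 h
    subst h0
    rcases h with ⟨h1, h2⟩ | ⟨h1, h2 | h2⟩
    · subst h1 h2
      have := (hv _ hx).1
      simp only at this
      have e : (i + 1 - i0).val = (i - i0).val + 1 := by rw [← this]; congr 1; ring
      simp [ψ, nb, e, -ZMod.natCast_val]
    · subst h2
      have : t = 1 ∨ t = 2 := fin3 t h1
      rcases this with rfl | rfl <;> simp [ψ, nb, -ZMod.natCast_val]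
    · subst h2
      have := (hv _ hy).2
      simp only at this
      have e : (j + 3 - i0).val = (j - i0).val + 3 := by rw [← this]; congr 1; ring
      have : t = 1 ∨ t = 2 := fin3 t h1
      rcases this with rfl | rfl <;> simp [ψ, nb, e, -ZMod.natCast_val]
  refine pullback (B := GZ) ⟨ψ, ?_⟩ hinj.injOn goodZ
  intro x y h
  have hx : x ∈ B.support := ⟨y, h⟩
  have hy : y ∈ B.support := ⟨x, h.symm⟩
  rcases (hB h).2 with h' | h'
  · exact ⟨(hD x hx y hy h').1, (hD x hx y hy h').2, hinj.ne h.ne⟩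
  · exact ⟨(hD y hy x hx h').2, (hD y hy x hx h').1, hinj.ne h.ne⟩

theorem edge_bound (n : ℕ) [NeZero n] (B : SimpleGraph (ZMod n × Fin 3)) (hB : B ≤ Gn n) :
    5 * B.edgeSet.ncard ≤ 9 * B.support.ncard := by
  set A : Set (ZMod n × Fin 3) := {x | x ∈ B.support ∧ x.2 = 0} with hA
  set C : Set (ZMod n × Fin 3) := {x | x ∈ B.support ∧ x.2 ≠ 0} with hC
  have hsum : B.support.ncard = A.ncard + C.ncard := by
    rw [← Set.ncard_union_eq (by
      rw [Set.disjoint_left]; intro x h1 h2; exact h2.2 h1.2)]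
    congr 1
    ext x
    simp only [hA, hC, Set.mem_union, Set.mem_ofPred_eq]
    tauto
  have h1 : B.edgeSet ⊆ ((fun x => s(x, (x.1 + 1, 0))) '' A ∪ (fun x => s((x.1, 0), x)) '' C) ∪
      (fun x => s((x.1 + 3, 0), x)) '' C := by
    have key : ∀ x y, B.Adj x y → Dn x y → s(x, y) ∈ ((fun x => s(x, (x.1 + 1, 0))) '' A ∪
        (fun x => s((x.1, 0), x)) '' C) ∪ (fun x => s((x.1 + 3, 0), x)) '' C := by
      rintro ⟨i, s⟩ ⟨j, t⟩ h ⟨h0, h'⟩
      simp only at h0 h'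
      subst h0
      rcases h' with ⟨h1, h2⟩ | ⟨h1, h2 | h2⟩
      · subst h1 h2
        exact Or.inl (Or.inl ⟨(i, 0), ⟨⟨_, h⟩, rfl⟩, rfl⟩)
      · subst h2
        exact Or.inl (Or.inr ⟨(i, t), ⟨⟨_, h.symm⟩, h1⟩, rfl⟩)
      · subst h2
        exact Or.inr ⟨(j, t), ⟨⟨_, h.symm⟩, h1⟩, rfl⟩
    intro e he
    induction e using Sym2.ind with
    | h x y =>
    rcases (hB he).2 with h | h
    · exact key x y he h
    · rw [Sym2.eq_swap]; exact key y x he.symm h
  have h2 : C ⊆ (((fun x => (x.1, 1)) '' A ∪ (fun x => (x.1, 2)) '' A) ∪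
      (fun x => (x.1 - 3, 1)) '' A) ∪ (fun x => (x.1 - 3, 2)) '' A := by
    rintro ⟨j, t⟩ ⟨⟨⟨i, s⟩, h⟩, ht⟩
    simp only at ht
    have ht' : t = 1 ∨ t = 2 := fin3 t ht
    rcases (hB h).2 with ⟨h0, _⟩ | ⟨h0, h'⟩
    · exact absurd h0 ht
    · simp only at h0 h'
      subst h0
      have hi : ((i, 0) : ZMod n × Fin 3) ∈ A := ⟨⟨_, h.symm⟩, rfl⟩
      rcases h' with ⟨h1, _⟩ | ⟨_, h2 | h2⟩
      · exact absurd h1 ht
      · subst h2
        rcases ht' with rfl | rfl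
        · exact Or.inl (Or.inl (Or.inl ⟨_, hi, rfl⟩))
        · exact Or.inl (Or.inl (Or.inr ⟨_, hi, rfl⟩))
      · subst h2
        rcases ht' with rfl | rfl
        · exact Or.inl (Or.inr ⟨_, hi, by simp⟩)
        · exact Or.inr ⟨_, hi, by simp⟩
  have b1 : B.edgeSet.ncard ≤ A.ncard + C.ncard + C.ncard := by
    refine le_trans (Set.ncard_le_ncard h1 (Set.toFinite _)) ?_
    refine le_trans (Set.ncard_union_le _ _) (add_le_add ?_ (Set.ncard_image_le))
    exact le_trans (Set.ncard_union_le _ _) (add_le_add Set.ncard_image_le Set.ncard_image_le)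
  have b2 : C.ncard ≤ A.ncard + A.ncard + A.ncard + A.ncard := by
    refine le_trans (Set.ncard_le_ncard h2 (Set.toFinite _)) ?_
    refine le_trans (Set.ncard_union_le _ _) (add_le_add ?_ (Set.ncard_image_le))
    refine le_trans (Set.ncard_union_le _ _) (add_le_add ?_ (Set.ncard_image_le))
    exact le_trans (Set.ncard_union_le _ _) (add_le_add Set.ncard_image_le Set.ncard_image_le)
  omega

theorem main (N : ℕ) : ∃ (m : ℕ) (G : SimpleGraph (Fin m)), (∀ v, ∃ w, G.Adj v w) ∧ ¬ Good G ∧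
    (∀ H : SimpleGraph (Fin m), H < G → Good H) ∧ 5 * G.edgeSet.ncard ≤ 9 * m ∧ N < m := by
  classical
  obtain ⟨n, hn, hodd⟩ : ∃ n, 3 * N + 4 ≤ n ∧ Odd n := ⟨2 * (3 * N + 4) + 1, by omega, ⟨_, rfl⟩⟩
  have : NeZero n := ⟨by omega⟩
  obtain ⟨B, ⟨hB, hbad⟩, hmin⟩ := (wellFounded_lt (α := SimpleGraph (ZMod n × Fin 3))).has_min
    {B | B ≤ Gn n ∧ ¬ Good B} ⟨Gn n, le_rfl, bad n (by omega) hodd⟩
  have hbig : N < B.support.ncard := by
    by_contra h
    exact hbad (good_of_small n B hB (by omega))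
  set m := B.support.ncard with hm
  have hcard : Nat.card B.support = m := rfl
  let e : Fin m ≃ B.support := (Finite.equivFinOfCardEq hcard).symm
  let ι : Fin m ↪ ZMod n × Fin 3 := e.toEmbedding.trans (Function.Embedding.subtype _)
  have hι : ∀ x ∈ B.support, ∃ a, ι a = x := fun x hx => ⟨e.symm ⟨x, hx⟩, by simp [ι]⟩
  refine ⟨m, B.comap ι, ?_, ?_, ?_, ?_, hbig⟩
  · intro v
    obtain ⟨w, hw⟩ : ι v ∈ B.support := (e v).2
    obtain ⟨a, rfl⟩ := hι w ⟨_, hw.symm⟩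
    exact ⟨a, hw⟩
  · intro h
    have : Nonempty (Fin m) := ⟨⟨0, by omega⟩⟩
    have hr : ∀ x ∈ B.support, ι (Function.invFun ι x) = x :=
      fun x hx => Function.invFun_eq (hι x hx)
    refine hbad (pullback (B := B.comap ι) ⟨Function.invFun ι, ?_⟩ ?_ h)
    · intro x y hxy
      show B.Adj (ι _) (ι _)
      rw [hr x ⟨y, hxy⟩, hr y ⟨x, hxy.symm⟩]
      exact hxy
    · intro x hx y hy hxy
      rw [← hr x hx, ← hr y hy]
      exact congrArg ι hxy
  · intro H hH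
    have hle : H.map ι ≤ B := (map_le_iff_le_comap ι H B).2 hH.le
    have hlt : H.map ι < B := by
      refine lt_of_le_of_ne hle (fun h => hH.ne ?_)
      rw [← h, comap_map_eq]
    have hg : Good (H.map ι) := by
      by_contra h
      exact hmin _ ⟨hle.trans hB, h⟩ hlt
    exact pullback (Embedding.map ι H).toHom ι.injective.injOn hg
  · refine le_trans (Nat.mul_le_mul_left 5 ?_) (edge_bound n B hB)
    refine Set.ncard_le_ncard_of_injOn (Sym2.map ι) ?_ (Sym2.map.injective ι.injective).injOn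
    intro x hx
    induction x using Sym2.ind with
    | h a b => exact hx

end Pool.Agent.H10.GEL
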