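import Mathlib

set_option autoImplicit false

namespace Pool.Agent.H10.GammaG

theorem equiv_of {n m : ℕ} [NeZero n] (G : SimpleGraph (Fin n)) (s : Fin m → Finset (Fin n))
    (h1 : ∀ i, (s i).card = 3 ∧ ∀ v, v ∈ s i ∨ ∃ u ∈ s i, G.Adj u v)
    (h2 : Function.Injective s) (i0 : Fin m)
    (h3 : ∀ a b : Fin n, ∃ v, v ≠ a ∧ v ≠ b ∧ ¬ G.Adj a v ∧ ¬ G.Adj b v)
    (h4 : ∀ a b c : Fin n, (∀ v, v = a ∨ v = b ∨ v = c ∨ G.Adj a v ∨ G.Adj b v ∨ G.Adj c v) →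
      ∃ i, s i = {a, b, c}) :
    ∃ e : Fin m ≃ {S : Finset (Fin n) // (∀ v, v ∈ S ∨ ∃ u ∈ S, G.Adj u v) ∧
      ∀ T : Finset (Fin n), (∀ v, v ∈ T ∨ ∃ u ∈ T, G.Adj u v) → S.card ≤ T.card},
      ∀ i, (e i).1 = s i := by
  have hmin : ∀ T : Finset (Fin n), (∀ v, v ∈ T ∨ ∃ u ∈ T, G.Adj u v) → 3 ≤ T.card := by
    intro T hT
    by_contra h
    obtain ⟨a, b, hab⟩ : ∃ a b : Fin n, T ⊆ {a, b} := by
      have : T.card = 0 ∨ T.card = 1 ∨ T.card = 2 := by omega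
      rcases this with h | h | h
      · exact ⟨0, 0, by simp [Finset.card_eq_zero.1 h]⟩
      · obtain ⟨a, rfl⟩ := Finset.card_eq_one.1 h
        exact ⟨a, a, by simp⟩
      · obtain ⟨a, b, _, rfl⟩ := Finset.card_eq_two.1 h
        exact ⟨a, b, le_rfl⟩
    obtain ⟨v, ha, hb, ha', hb'⟩ := h3 a b
    rcases hT v with h | ⟨u, hu, h⟩
    · have := hab h
      simp [ha, hb] at this
    · have := hab hu
      simp only [Finset.mem_insert, Finset.mem_singleton] at this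
      rcases this with rfl | rfl
      · exact ha' h
      · exact hb' h
  refine ⟨Equiv.ofBijective (fun i => ⟨s i, (h1 i).2, fun T hT => (h1 i).1 ▸ hmin T hT⟩)
    ⟨fun i j h => h2 (Subtype.ext_iff.1 h), ?_⟩, fun i => rfl⟩
  rintro ⟨S, hS, hS2⟩
  have hc : S.card = 3 := le_antisymm ((h1 i0).1 ▸ hS2 _ (h1 i0).2) (hmin S hS)
  obtain ⟨a, b, c, _, _, _, rfl⟩ := Finset.card_eq_three.1 hc
  obtain ⟨i, hi⟩ := h4 a b c (by
    intro v
    rcases hS v with h | ⟨u, hu, h⟩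
    · simp only [Finset.mem_insert, Finset.mem_singleton] at h
      tauto
    · simp only [Finset.mem_insert, Finset.mem_singleton] at hu
      rcases hu with rfl | rfl | rfl <;> tauto)
  exact ⟨i, Subtype.ext hi⟩

def ofList (E : List (ℕ × ℕ)) : SimpleGraph (Fin 12) where
  Adj u v := u ≠ v ∧ ((u.1, v.1) ∈ E ∨ (v.1, u.1) ∈ E)
  symm := ⟨fun _ _ h => ⟨h.1.symm, h.2.symm⟩⟩
  loopless := ⟨fun _ h => h.1 rfl⟩

instance (E : List (ℕ × ℕ)) : DecidableRel (ofList E).Adj := fun u v =>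
  inferInstanceAs (Decidable (u ≠ v ∧ ((u.1, v.1) ∈ E ∨ (v.1, u.1) ∈ E)))

def EA : List (ℕ × ℕ) :=
  [(0, 3), (0, 11), (1, 2), (1, 10), (2, 7), (2, 10), (3, 7), (3, 11), (4, 5), (4, 8), (4, 11),
   (5, 8), (5, 11), (6, 9), (6, 10), (7, 8), (7, 9), (8, 9), (8, 11), (9, 10)]

def EB : List (ℕ × ℕ) :=
  [(0, 3), (0, 11), (1, 2), (1, 10), (2, 3), (2, 7), (2, 10), (3, 7), (3, 11), (4, 5), (4, 8),
   (4, 11), (5, 8), (5, 11), (6, 9), (6, 10), (7, 8), (7, 9), (8, 11), (9, 10)]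

def s : Fin 12 → Finset (Fin 12) :=
  ![{0, 8, 10}, {1, 9, 11}, {9, 10, 11}, {8, 10, 11}, {3, 4, 10}, {3, 5, 10}, {2, 6, 11},
    {7, 10, 11}, {3, 10, 11}, {2, 10, 11}, {2, 9, 11}, {3, 8, 10}]

def Step (G H : SimpleGraph (Fin 12)) : Prop :=
  ∃ e : Fin 12 ≃ {S : Finset (Fin 12) // (∀ v, v ∈ S ∨ ∃ u ∈ S, G.Adj u v) ∧
      ∀ T : Finset (Fin 12), (∀ v, v ∈ T ∨ ∃ u ∈ T, G.Adj u v) → S.card ≤ T.card},
    ∀ a b, H.Adj a b ↔
      ∃ u v, u ∈ (e a).1 ∧ v ∉ (e a).1 ∧ G.Adj u v ∧ (e b).1 = insert v ((e a).1.erase u)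

theorem s_inj : Function.Injective s := by decide +kernel

theorem stepAB : Step (ofList EA) (ofList EB) := by
  obtain ⟨e, he⟩ := equiv_of (ofList EA) s (by decide +kernel) s_inj 0 (by decide +kernel)
    (by decide +kernel)
  refine ⟨e, ?_⟩
  simp only [he]
  decide +kernel

theorem stepBA : Step (ofList EB) (ofList EA) := by
  obtain ⟨e, he⟩ := equiv_of (ofList EB) s (by decide +kernel) s_inj 0 (by decide +kernel)
    (by decide +kernel)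
  refine ⟨e, ?_⟩
  simp only [he]
  decide +kernel

theorem not_iso : IsEmpty (ofList EA ≃g ofList EB) := by
  refine ⟨fun φ => ?_⟩
  have h : ∀ v, (ofList EB).degree v = 5 → v = 11 := by decide +kernel
  have h8 : φ 8 = 11 := h _ (by rw [φ.degree_eq]; decide +kernel)
  have h11 : φ 11 = 11 := h _ (by rw [φ.degree_eq]; decide +kernel)
  exact absurd (φ.injective (h8.trans h11.symm)) (by decide)

end Pool.Agent.H10.GammaG
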