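import Mathlib

set_option autoImplicit false

namespace Pool.Agent.H10.IEop

open Set

section General
variable {α : Type}

/-- finitely supported permutations -/
def FS (e : Equiv.Perm α) : Prop := {x | e x ≠ x}.Finite

lemma FS.one : FS (1 : Equiv.Perm α) := by simp [FS]

lemma FS.mul {e g : Equiv.Perm α} (he : FS e) (hg : FS g) : FS (e * g) := by
  refine (he.union hg).subset ?_
  intro x hx
  by_contra h
  simp only [mem_union, mem_ofPred_eq, not_or, not_not] at h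
  apply hx
  simp [h.2, h.1]

lemma FS.inv {e : Equiv.Perm α} (he : FS e) : FS e⁻¹ := by
  refine he.subset ?_
  intro x hx h
  apply hx
  rw [Equiv.Perm.inv_eq_iff_eq]
  exact h.symm

lemma FS.swap [DecidableEq α] (a b : α) : FS (Equiv.swap a b) := by
  refine (Set.toFinite ({a, b} : Set α)).subset ?_
  intro x hx
  by_contra h
  simp only [mem_insert_iff, mem_singleton_iff, not_or] at h
  exact hx (Equiv.swap_apply_of_ne_of_ne h.1 h.2)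

lemma eq_of_sub {e : Equiv.Perm α} (he : FS e) {Z : Set α} (h : Z ⊆ e '' Z) : Z = e '' Z := by
  set F := {x | e x ≠ x} with hF
  have h1 : Z ∩ F ⊆ e '' (Z ∩ F) := by
    rintro x ⟨hx, hxF⟩
    obtain ⟨z, hz, rfl⟩ := h hx
    refine ⟨z, ⟨hz, ?_⟩, rfl⟩
    intro hz'
    apply hxF
    rw [hz']; exact hz'
  have hfin : (Z ∩ F).Finite := he.subset inter_subset_right
  have h2 : Z ∩ F = e '' (Z ∩ F) :=
    Set.eq_of_subset_of_ncard_le h1 (by rw [Set.ncard_image_of_injective _ e.injective])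
      (hfin.image _)
  apply Subset.antisymm h
  rintro x ⟨z, hz, rfl⟩
  by_cases hzF : z ∈ F
  · have : e z ∈ Z ∩ F := by rw [h2]; exact ⟨z, ⟨hz, hzF⟩, rfl⟩
    exact this.1
  · have : e z = z := by simpa [hF] using hzF
    rw [this]; exact hz

lemma image_inv_image (e : Equiv.Perm α) (Z : Set α) : (e⁻¹ : Equiv.Perm α) '' (e '' Z) = Z := by
  rw [image_image]; simp

lemma image_mul (e g : Equiv.Perm α) (Z : Set α) : (e * g : Equiv.Perm α) '' Z = e '' (g '' Z) := by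
  rw [image_image]; simp

lemma orbit_eq {e g : Equiv.Perm α} (he : FS e) (hg : FS g) {Z : Set α} (h : e '' Z ⊆ g '' Z) :
    e '' Z = g '' Z := by
  have h1 : Z ⊆ (e⁻¹ * g : Equiv.Perm α) '' Z := by
    rw [image_mul]
    calc Z = (e⁻¹ : Equiv.Perm α) '' (e '' Z) := (image_inv_image e Z).symm
      _ ⊆ _ := image_mono h
  have h2 := eq_of_sub (he.inv.mul hg) h1
  calc e '' Z = e '' ((e⁻¹ * g : Equiv.Perm α) '' Z) := by rw [← h2]
    _ = g '' Z := by rw [← image_mul]; simp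

/-- a family closed under finitely supported permutations which is an antichain -/
def Good (𝓑 : Set (Set α)) : Prop :=
  (∀ B ∈ 𝓑, ∀ e, FS e → e '' B ∈ 𝓑) ∧ ∀ B ∈ 𝓑, ∀ B' ∈ 𝓑, B ⊆ B' → B = B'

theorem exists_max (𝓑₀ : Set (Set α)) (h₀ : Good 𝓑₀) :
    ∃ 𝓑, 𝓑₀ ⊆ 𝓑 ∧ Good 𝓑 ∧ ∀ Z, ∃ B ∈ 𝓑, Z ⊆ B ∨ B ⊆ Z := by
  obtain ⟨𝓑, h1, h2⟩ := zorn_subset_nonempty {𝓑 : Set (Set α) | Good 𝓑} (by
    intro c hc hch hne
    refine ⟨⋃₀ c, ⟨?_, ?_⟩, fun s hs => subset_sUnion_of_mem hs⟩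
    · rintro B ⟨t, ht, hB⟩ e he
      exact ⟨t, ht, (hc ht).1 B hB e he⟩
    · rintro B ⟨t, ht, hB⟩ B' ⟨t', ht', hB'⟩ hsub
      rcases hch.total ht ht' with h | h
      · exact (hc ht').2 B (h hB) B' hB' hsub
      · exact (hc ht).2 B hB B' (h hB') hsub) 𝓑₀ h₀
  refine ⟨𝓑, h1, h2.prop, ?_⟩
  intro Z
  by_contra hZ
  push Not at hZ
  have hg : Good (𝓑 ∪ {B | ∃ e, FS e ∧ B = e '' Z}) := by
    refine ⟨?_, ?_⟩
    · rintro B (hB | ⟨g, hg, rfl⟩) e he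
      · exact Or.inl (h2.prop.1 B hB e he)
      · exact Or.inr ⟨e * g, he.mul hg, (image_mul _ _ _).symm⟩
    · rintro B (hB | ⟨g, hg, rfl⟩) B' (hB' | ⟨g', hg', rfl⟩) hsub
      · exact h2.prop.2 B hB B' hB' hsub
      · exfalso
        refine (hZ _ (h2.prop.1 B hB g'⁻¹ hg'.inv)).2 ?_
        calc _ ⊆ (g'⁻¹ : Equiv.Perm α) '' (g' '' Z) := image_mono hsub
          _ = Z := image_inv_image _ _
      · exfalso
        refine (hZ _ (h2.prop.1 B' hB' g⁻¹ hg.inv)).1 ?_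
        calc Z = (g⁻¹ : Equiv.Perm α) '' (g '' Z) := (image_inv_image _ _).symm
          _ ⊆ _ := image_mono hsub
      · exact orbit_eq hg hg' hsub
  have := h2.eq_of_subset hg subset_union_left
  have hZm : Z ∈ 𝓑 := by
    rw [this]; exact Or.inr ⟨1, FS.one, by simp⟩
  exact (hZ Z hZm).1 subset_rfl

open Classical in
/-- the uniform-type operator of a family -/
noncomputable def op (𝓑 : Set (Set α)) (Z : Set α) : Set α :=
  if ∃ B ∈ 𝓑, B ⊆ Z then univ else Z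

variable {𝓑 : Set (Set α)}

lemma op_of_sp {Z : Set α} (h : ∃ B ∈ 𝓑, B ⊆ Z) : op 𝓑 Z = univ := by
  unfold op; rw [if_pos h]

lemma op_of_nsp {Z : Set α} (h : ¬ ∃ B ∈ 𝓑, B ⊆ Z) : op 𝓑 Z = Z := by
  unfold op; rw [if_neg h]

lemma op_ext (Z : Set α) : Z ⊆ op 𝓑 Z := by
  by_cases h : ∃ B ∈ 𝓑, B ⊆ Z
  · rw [op_of_sp h]; exact subset_univ _
  · rw [op_of_nsp h]

lemma op_mono {Y Z : Set α} (h : Y ⊆ Z) : op 𝓑 Y ⊆ op 𝓑 Z := by
  by_cases hY : ∃ B ∈ 𝓑, B ⊆ Y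
  · obtain ⟨B, hB, hBY⟩ := hY
    rw [op_of_sp (Z := Z) ⟨B, hB, hBY.trans h⟩]; exact subset_univ _
  · rw [op_of_nsp hY]; exact h.trans (op_ext Z)

lemma op_idem (Z : Set α) : op 𝓑 (op 𝓑 Z) = op 𝓑 Z := by
  by_cases h : ∃ B ∈ 𝓑, B ⊆ Z
  · rw [op_of_sp h]
    obtain ⟨B, hB, -⟩ := h
    exact op_of_sp ⟨B, hB, subset_univ _⟩
  · rw [op_of_nsp h, op_of_nsp h]

lemma exch (hg : Good 𝓑) {B : Set α} (hB : B ∈ 𝓑) {x p : α} (hp : p ∉ B) :
    ∃ B' ∈ 𝓑, B' ⊆ insert p (B \ {x}) := by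
  classical
  refine ⟨_, hg.1 B hB (Equiv.swap x p) (FS.swap x p), ?_⟩
  rintro _ ⟨y, hy, rfl⟩
  by_cases hyx : y = x
  · subst hyx; simp
  · have hyp : y ≠ p := fun h => hp (h ▸ hy)
    rw [Equiv.swap_apply_of_ne_of_ne hyx hyp]
    exact Or.inr ⟨hy, hyx⟩

lemma nsp_of_ssub (hg : Good 𝓑) {B Z : Set α} (hB : B ∈ 𝓑) (hZ : Z ⊆ B) (hne : ¬ B ⊆ Z) :
    ¬ ∃ B' ∈ 𝓑, B' ⊆ Z := by
  rintro ⟨B', hB', h⟩
  have := hg.2 B' hB' B hB (h.trans hZ)
  exact hne (this ▸ h)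

lemma op_cl4 (hg : Good 𝓑) (X Y : Set α) (p : α) (h1 : p ∈ op 𝓑 Y) (h2 : p ∉ op 𝓑 (Y \ X)) :
    ∃ x ∈ X, x ∈ op 𝓑 (insert p (Y \ {x})) := by
  by_cases hpY : p ∈ Y
  · refine ⟨p, ?_, op_ext _ (mem_insert _ _)⟩
    by_contra hpX
    exact h2 (op_ext _ ⟨hpY, hpX⟩)
  · by_cases hY : ∃ B ∈ 𝓑, B ⊆ Y
    · obtain ⟨B, hB, hBY⟩ := hY
      have : ¬ B ⊆ Y \ X := by
        intro h
        apply h2
        rw [op_of_sp ⟨B, hB, h⟩]; trivial
      obtain ⟨x, hxB, hx⟩ := not_subset.1 this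
      have hxX : x ∈ X := by
        by_contra hxX
        exact hx ⟨hBY hxB, hxX⟩
      obtain ⟨B', hB', hsub⟩ := exch hg hB (x := x) (p := p) (fun h => hpY (hBY h))
      refine ⟨x, hxX, ?_⟩
      rw [op_of_sp ⟨B', hB', hsub.trans (insert_subset_insert (sdiff_subset_sdiff_left hBY))⟩]
      trivial
    · rw [op_of_nsp hY] at h1; exact absurd h1 hpY

lemma op_C (hg : Good 𝓑) (hne : ∅ ∉ 𝓑) (Y : Set α) (p : α) (h : p ∈ op 𝓑 Y) :
    ∃ U : Set α, Minimal (fun W : Set α => W ⊆ Y ∧ p ∈ op 𝓑 W) U ∧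
      ∀ x ∈ U, x ∉ op 𝓑 (U \ {x}) := by
  have h0 : op 𝓑 ∅ = ∅ := op_of_nsp (by
    rintro ⟨B, hB, h⟩
    rw [subset_empty_iff] at h
    exact hne (h ▸ hB))
  by_cases hpY : p ∈ Y
  · refine ⟨{p}, ⟨⟨by simpa using hpY, op_ext _ rfl⟩, ?_⟩, ?_⟩
    · rintro W ⟨-, hW⟩ hsub
      rcases subset_singleton_iff_eq.1 hsub with rfl | rfl
      · rw [h0] at hW; exact absurd hW (notMem_empty _)
      · exact le_rfl
    · rintro x rfl
      simp [h0]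
  · by_cases hY : ∃ B ∈ 𝓑, B ⊆ Y
    · obtain ⟨B, hB, hBY⟩ := hY
      refine ⟨B, ⟨⟨hBY, by rw [op_of_sp ⟨B, hB, subset_rfl⟩]; trivial⟩, ?_⟩, ?_⟩
      · rintro W ⟨hWY, hW⟩ hsub
        by_contra hn
        rw [op_of_nsp (nsp_of_ssub hg hB hsub hn)] at hW
        exact hpY (hWY hW)
      · intro x hx
        rw [op_of_nsp (nsp_of_ssub (Z := B \ {x}) hg hB sdiff_subset (fun h => (h hx).2 rfl))]
        exact fun h => h.2 rfl
    · rw [op_of_nsp hY] at h; exact absurd h hpY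

lemma op_H (hg : Good 𝓑) (hc : ∀ Z, ∃ B ∈ 𝓑, Z ⊆ B ∨ B ⊆ Z) (Y : Set α) (p : α)
    (h : p ∉ op 𝓑 Y) :
    ∃ V : Set α, Maximal (fun W : Set α => Y ⊆ W ∧ p ∉ op 𝓑 W) V ∧
      op 𝓑 (insert p V) = univ := by
  have hpY : p ∉ Y := fun h' => h (op_ext _ h')
  obtain ⟨B, hB, hBY | hBY⟩ := hc (insert p Y)
  · have hpB : p ∈ B := hBY (mem_insert _ _)
    refine ⟨B \ {p}, ⟨⟨fun y hy => ⟨hBY (Or.inr hy), fun h' => hpY (h' ▸ hy)⟩, ?_⟩, ?_⟩, ?_⟩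
    · rw [op_of_nsp (nsp_of_ssub (Z := B \ {p}) hg hB sdiff_subset (fun h => (h hpB).2 rfl))]
      exact fun h => h.2 rfl
    · rintro W ⟨-, hW⟩ hsub x hx
      by_contra hxn
      have hxp : x ≠ p := fun h' => hW (op_ext _ (h' ▸ hx))
      have hxB : x ∉ B := fun h' => hxn ⟨h', hxp⟩
      obtain ⟨B', hB', hs⟩ := exch hg hB (x := p) hxB
      apply hW
      rw [op_of_sp ⟨B', hB', hs.trans (insert_subset hx hsub)⟩]; trivial
    · exact op_of_sp ⟨B, hB, by rw [insert_sdiff_singleton, insert_eq_of_mem hpB]⟩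
  · refine ⟨Y, ⟨⟨subset_rfl, h⟩, ?_⟩, op_of_sp ⟨B, hB, hBY⟩⟩
    rintro W ⟨-, hW⟩ hsub x hx
    by_contra hxn
    have hxp : x ≠ p := fun h' => hW (op_ext _ (h' ▸ hx))
    have hxB : x ∉ B := fun h' => by
      rcases hBY h' with h'' | h''
      · exact hxp h''
      · exact hxn h''
    obtain ⟨B', hB', hs⟩ := exch hg hB (x := p) hxB
    apply hW
    rw [op_of_sp ⟨B', hB', hs.trans (insert_subset hx ?_)⟩]
    · trivial
    · rintro y ⟨hy, hyp⟩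
      rcases hBY hy with h'' | h''
      · exact absurd h'' hyp
      · exact hsub h''

end General

/-! the concrete family -/

abbrev S : Type := Fin 3 × ℕ

noncomputable abbrev U : Ultrafilter ℕ := Filter.hyperfilter ℕ

def A (W : Set ℕ) : Set S := {x | x.1 = 0 ∨ (x.1 = 1 ∧ x.2 ∈ W) ∨ (x.1 = 2 ∧ x.2 ∉ W)}
def A' (W : Set ℕ) : Set S := {x | (x.1 = 0 ∧ x.2 ∉ W) ∨ (x.1 = 1 ∧ x.2 ∈ W)}

def Gen : Set (Set S) := {M | (∃ W, W ∉ U ∧ M = A W) ∨ (∃ W, W ∈ U ∧ M = A' W)}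

def B0 : Set (Set S) := {B | ∃ M ∈ Gen, ∃ e, FS e ∧ B = e '' M}

lemma diff_fin {e : Equiv.Perm S} (he : FS e) {M M' : Set S} (h : e '' M ⊆ M') :
    (M \ M').Finite := by
  refine he.subset ?_
  rintro x ⟨hx, hx'⟩ h'
  exact hx' (h ⟨x, hx, h'⟩)

lemma fin_slice {T : Set S} (hT : T.Finite) (i : Fin 3) : {n | (i, n) ∈ T}.Finite :=
  hT.preimage (f := fun n => (i, n)) (fun _ _ _ _ h => (Prod.ext_iff.1 h).2)

open Classical in
noncomputable def sw (a b : Fin 3) (D : Set ℕ) : Equiv.Perm S :=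
  Function.Involutive.toPerm (fun x => if x.2 ∈ D then (Equiv.swap a b x.1, x.2) else x) (by
    intro x
    by_cases h : x.2 ∈ D <;> simp [h])

lemma sw_FS (a b : Fin 3) {D : Set ℕ} (hD : D.Finite) : FS (sw a b D) := by
  refine ((Set.toFinite (univ : Set (Fin 3))).prod hD).subset ?_
  intro x hx
  refine ⟨trivial, ?_⟩
  by_contra h
  apply hx
  simp [sw, h]

lemma sw_image (a b : Fin 3) (D : Set ℕ) (M : Set S) (x : S) :
    x ∈ sw a b D '' M ↔ sw a b D x ∈ M := by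
  constructor
  · rintro ⟨y, hy, rfl⟩
    have : sw a b D (sw a b D y) = y := by
      by_cases h : y.2 ∈ D <;> simp [sw, h]
    rw [this]; exact hy
  · intro h
    refine ⟨_, h, ?_⟩
    by_cases h : x.2 ∈ D <;> simp [sw, h]

lemma A_rel (W1 W2 : Set ℕ) : A W2 = sw 1 2 ((W1 \ W2) ∪ (W2 \ W1)) '' A W1 := by
  ext ⟨i, n⟩
  rw [sw_image]
  by_cases h1 : n ∈ W1 <;> by_cases h2 : n ∈ W2 <;> fin_cases i <;>
    simp [sw, A, h1, h2, Equiv.swap_apply_def]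

lemma A'_rel (W1 W2 : Set ℕ) : A' W2 = sw 0 1 ((W1 \ W2) ∪ (W2 \ W1)) '' A' W1 := by
  ext ⟨i, n⟩
  rw [sw_image]
  by_cases h1 : n ∈ W1 <;> by_cases h2 : n ∈ W2 <;> fin_cases i <;>
    simp [sw, A', h1, h2, Equiv.swap_apply_def]

lemma mem_U_of {W1 W2 : Set ℕ} (h : W1 ∈ U) (hf : (W1 \ W2).Finite) : W2 ∈ U := by
  have := Filter.inter_mem h (hf.compl_mem_hyperfilter)
  refine Filter.mem_of_superset this ?_
  rintro x ⟨h1, h2⟩
  by_contra h3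
  exact h2 ⟨h1, h3⟩

lemma gen_anti {M M' : Set S} (hM : M ∈ Gen) (hM' : M' ∈ Gen) {e : Equiv.Perm S} (he : FS e)
    (h : e '' M ⊆ M') : e '' M = M' := by
  have hf := diff_fin he h
  rcases hM with ⟨W1, h1, rfl⟩ | ⟨W1, h1, rfl⟩ <;> rcases hM' with ⟨W2, h2, rfl⟩ | ⟨W2, h2, rfl⟩
  · have f1 : (W1 \ W2).Finite := (fin_slice hf 1).subset (by
      rintro n ⟨a, b⟩; simp [A, a, b])
    have f2 : (W2 \ W1).Finite := (fin_slice hf 2).subset (by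
      rintro n ⟨a, b⟩; simp [A, a, b])
    rw [A_rel W1 W2] at h ⊢
    exact orbit_eq he (sw_FS _ _ (f1.union f2)) h
  · exfalso
    have f1 : W2.Finite := (fin_slice hf 0).subset (by
      rintro n a; simp [A, A', a])
    exact f1.notMem_hyperfilter h2
  · exfalso
    have f1 : (W1 \ W2).Finite := (fin_slice hf 1).subset (by
      rintro n ⟨a, b⟩; simp [A, A', a, b])
    exact h2 (mem_U_of h1 f1)
  · have f1 : (W1 \ W2).Finite := (fin_slice hf 1).subset (by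
      rintro n ⟨a, b⟩; simp [A', a, b])
    have f2 : (W2 \ W1).Finite := (fin_slice hf 0).subset (by
      rintro n ⟨a, b⟩; simp [A', a, b])
    rw [A'_rel W1 W2] at h ⊢
    exact orbit_eq he (sw_FS _ _ (f1.union f2)) h

lemma good_B0 : Good B0 := by
  refine ⟨?_, ?_⟩
  · rintro B ⟨M, hM, g, hg, rfl⟩ e he
    exact ⟨M, hM, e * g, he.mul hg, (image_mul _ _ _).symm⟩
  · rintro B ⟨M, hM, g, hg, rfl⟩ B' ⟨M', hM', g', hg', rfl⟩ h
    have h1 : (g'⁻¹ * g : Equiv.Perm S) '' M ⊆ M' := by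
      rw [image_mul]
      calc _ ⊆ (g'⁻¹ : Equiv.Perm S) '' (g' '' M') := image_mono h
        _ = M' := image_inv_image _ _
    have h2 := gen_anti hM hM' (hg'.inv.mul hg) h1
    rw [← h2, ← image_mul]; simp

def X0 : Set S := {x | x.1 = 0 ∨ x.1 = 1}
def Y0 : Set S := {x | x.1 = 0}

/-- the main existence statement -/
theorem exists_family : ∃ 𝓑 : Set (Set S), Good 𝓑 ∧ ∅ ∉ 𝓑 ∧ (∀ Z, ∃ B ∈ 𝓑, Z ⊆ B ∨ B ⊆ Z) ∧
    (¬ ∃ B ∈ 𝓑, B ⊆ Y0) ∧
    ∀ V, Y0 ⊆ V → V ⊆ X0 →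
      (∃ x ∈ V, ∃ B ∈ 𝓑, B ⊆ V \ {x}) ∨
      (∀ p ∈ X0, (¬ ∃ B ∈ 𝓑, B ⊆ insert p V) ∧ ¬ X0 ⊆ insert p V) := by
  obtain ⟨𝓑, h0, hg, hc⟩ := exists_max B0 good_B0
  have hA : ∀ W, W ∉ U → A W ∈ 𝓑 := fun W hW =>
    h0 ⟨A W, Or.inl ⟨W, hW, rfl⟩, 1, FS.one, by simp⟩
  have hA' : ∀ W, W ∈ U → A' W ∈ 𝓑 := fun W hW =>
    h0 ⟨A' W, Or.inr ⟨W, hW, rfl⟩, 1, FS.one, by simp⟩
  have hY : ¬ ∃ B ∈ 𝓑, B ⊆ Y0 := by
    refine nsp_of_ssub hg (hA ∅ (by simp)) (fun x hx => Or.inl hx) ?_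
    intro h
    have : ((2, 0) : S) ∈ Y0 := h (by simp [A])
    simp [Y0] at this
  refine ⟨𝓑, hg, fun h => hY ⟨∅, h, empty_subset _⟩, hc, hY, ?_⟩
  intro V hYV hVX
  set W := {n | ((1 : Fin 3), n) ∈ V} with hW
  by_cases hU : W ∈ U
  · left
    obtain ⟨n, hn⟩ := Ultrafilter.nonempty_of_mem hU
    refine ⟨(0, n), hYV rfl, A' W, hA' W hU, ?_⟩
    rintro ⟨i, m⟩ (⟨h1, h2⟩ | ⟨h1, h2⟩)
    · refine ⟨hYV h1, ?_⟩
      intro h
      have : m = n := (Prod.ext_iff.1 h).2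
      exact h2 (this ▸ hn)
    · dsimp only at h1 h2
      subst h1
      refine ⟨h2, ?_⟩
      intro h
      have := (Prod.ext_iff.1 h).1
      simp at this
  · right
    rintro ⟨j, k⟩ hp
    have hU' : insert k W ∉ U := by
      intro h
      exact hU (mem_U_of h ((Set.toFinite {k}).subset (by
        rintro x ⟨hx | hx, hx'⟩
        · exact hx
        · exact absurd hx hx')))
    have hne : ∃ m, m ∉ insert k W := by
      by_contra h
      push Not at h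
      exact hU' (Filter.univ_mem' h)
    obtain ⟨m, hm⟩ := hne
    refine ⟨nsp_of_ssub hg (hA _ hU') ?_ ?_, ?_⟩
    · rintro ⟨i, n⟩ (h | h)
      · obtain ⟨rfl, rfl⟩ := Prod.ext_iff.1 h
        rcases hp with hp | hp
        · exact Or.inl hp
        · exact Or.inr (Or.inl ⟨hp, Or.inl rfl⟩)
      · rcases hVX h with h' | h'
        · exact Or.inl h'
        · dsimp only at h'
          subst h'
          exact Or.inr (Or.inl ⟨rfl, Or.inr h⟩)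
    · intro h
      have h2 : ((2, m) : S) ∈ A (insert k W) := Or.inr (Or.inr ⟨rfl, hm⟩)
      have h3 : ((2, m) : S) ∈ X0 := by
        rcases h h2 with h' | h'
        · rw [h']; exact hp
        · exact hVX h'
      simp [X0] at h3
    · intro h
      have h2 : ((1, m) : S) ∈ X0 := Or.inr rfl
      rcases h h2 with h' | h'
      · exact hm (Or.inl (Prod.ext_iff.1 h').2)
      · exact hm (Or.inr h')

end Pool.Agent.H10.IEop
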