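import Mathlib

set_option autoImplicit false
open Finset
open scoped RealInnerProductSpace
open Classical

namespace Pool.Agent.H10.Iso

variable {V : Type*} [NormedAddCommGroup V] [InnerProductSpace ℝ V] [FiniteDimensional ℝ V]
variable {ι : Type*}

theorem welch (J : Finset ι) (y : ι → V) :
    (∑ i ∈ J, ⟪y i, y i⟫) ^ 2 ≤ (Module.finrank ℝ V : ℝ) * ∑ i ∈ J, ∑ j ∈ J, ⟪y i, y j⟫ ^ 2 := by
  set e := stdOrthonormalBasis ℝ V
  have h1 : ∀ u v : V, ⟪u, v⟫ = ∑ l, ⟪e l, u⟫ * ⟪e l, v⟫ := by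
    intro u v
    rw [← e.sum_inner_mul_inner u v]
    exact Finset.sum_congr rfl fun l _ => by rw [real_inner_comm]
  have h2 : ∑ i ∈ J, ⟪y i, y i⟫ = ∑ l, ∑ i ∈ J, ⟪e l, y i⟫ * ⟪e l, y i⟫ := by
    rw [Finset.sum_comm]
    exact Finset.sum_congr rfl fun i _ => h1 _ _
  have h3 : ∑ i ∈ J, ∑ j ∈ J, ⟪y i, y j⟫ ^ 2
      = ∑ l, ∑ m, (∑ i ∈ J, ⟪e l, y i⟫ * ⟪e m, y i⟫) ^ 2 := by
    have a1 : ∀ i j, ⟪y i, y j⟫ ^ 2
        = ∑ l, ∑ m, (⟪e l, y i⟫ * ⟪e m, y i⟫) * (⟪e l, y j⟫ * ⟪e m, y j⟫) := by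
      intro i j
      rw [h1 (y i) (y j), sq, Finset.sum_mul_sum]
      exact Finset.sum_congr rfl fun l _ => Finset.sum_congr rfl fun m _ => by ring
    simp only [a1, sq, Finset.sum_mul_sum]
    rw [Finset.sum_congr rfl fun i _ => Finset.sum_comm, Finset.sum_comm]
    refine Finset.sum_congr rfl fun l _ => ?_
    rw [Finset.sum_congr rfl fun i _ => Finset.sum_comm, Finset.sum_comm]
  rw [h2, h3]
  refine (sq_sum_le_card_mul_sum_sq).trans ?_
  rw [Finset.card_univ, Fintype.card_fin]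
  refine mul_le_mul_of_nonneg_left (Finset.sum_le_sum fun l _ => ?_) (by positivity)
  exact Finset.single_le_sum (f := fun m => (∑ i ∈ J, ⟪e l, y i⟫ * ⟪e m, y i⟫) ^ 2)
    (fun m _ => sq_nonneg _) (Finset.mem_univ l)

theorem sc2 (J : Finset ι) (y : ι → V) (R e : ι → ι → ℝ) (μ ρ ε : ℝ) (hμ : 0 < μ) (hε : 0 ≤ ε)
    (hρ0 : 0 ≤ ρ)
    (hR0 : ∀ i ∈ J, ∀ j ∈ J, 0 ≤ R i j) (hRd : ∀ i, R i i = 0)
    (hρ : ∀ i ∈ J, ∑ j ∈ J, R i j ≤ ρ)
    (he : ∀ i ∈ J, ∀ j ∈ J, |e i j| ≤ ε)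
    (hG : ∀ i ∈ J, ∀ j ∈ J, ⟪y i, y j⟫ = (if i = j then μ else 0) - R i j + e i j) :
    ∑ i ∈ J, ∑ j ∈ J, ⟪y i, y j⟫ ^ 2
      ≤ J.card * (2 * μ ^ 2 + (ε * (μ + ρ) ^ 2 / μ + 2 * ε * (μ + ρ) + J.card * ε ^ 2)) := by
  rw [← nsmul_eq_mul, ← Finset.sum_const]
  refine Finset.sum_le_sum fun x hx => ?_
  set s2 := ∑ j ∈ J, R x j ^ 2 with hs2
  have hup : ∀ i ∈ J, ∀ j ∈ J, ⟪y i, y j⟫ ≤ (if i = j then μ else 0) - R i j + ε := by
    intro i hi j hj
    rw [hG i hi j hj]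
    linarith [le_abs_self (e i j), he i hi j hj]
  have hs : μ * s2 ≤ μ ^ 3 + ε * (μ + ρ) ^ 2 := by
    set v := ∑ j ∈ J, R x j • y j with hv
    set r := ∑ j ∈ J, R x j with hr
    have hr0 : 0 ≤ r := Finset.sum_nonneg fun j hj => hR0 x hx j hj
    have hr1 : r ≤ ρ := hρ x hx
    have a0 : 0 ≤ ⟪μ • y x + v, μ • y x + v⟫ := real_inner_self_nonneg
    have a1 : ⟪y x, y x⟫ ≤ μ + ε := by
      have := hup x hx x hx
      rw [if_pos rfl, hRd] at this
      linarith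
    have a2 : ⟪y x, v⟫ ≤ -s2 + ε * r := by
      rw [hv, inner_sum, hs2, hr, Finset.mul_sum, ← Finset.sum_neg_distrib, ← Finset.sum_add_distrib]
      refine Finset.sum_le_sum fun j hj => ?_
      rw [real_inner_smul_right]
      have h1 := hup x hx j hj
      have h0 := hR0 x hx j hj
      by_cases h : x = j
      · subst h; rw [hRd]; simp
      · rw [if_neg h] at h1
        nlinarith
    have a3 : ⟪v, v⟫ ≤ μ * s2 + ε * r ^ 2 := by
      have b1 : ⟪v, v⟫ = ∑ i ∈ J, ∑ j ∈ J, R x i * R x j * ⟪y i, y j⟫ := by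
        rw [hv, sum_inner]
        refine Finset.sum_congr rfl fun i _ => ?_
        rw [inner_sum]
        refine Finset.sum_congr rfl fun j _ => ?_
        rw [real_inner_smul_left, real_inner_smul_right]; ring
      have b2 : μ * s2 + ε * r ^ 2
          = ∑ i ∈ J, ∑ j ∈ J, R x i * R x j * ((if i = j then μ else 0) + ε) := by
        rw [hs2, hr, sq, Finset.sum_mul_sum, Finset.mul_sum, Finset.mul_sum, ← Finset.sum_add_distrib]
        refine Finset.sum_congr rfl fun i hi => ?_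
        simp only [mul_add, Finset.sum_add_distrib, mul_ite, mul_zero, Finset.sum_ite_eq, if_pos hi,
          Finset.mul_sum]
        congr 1
        · ring
        · exact Finset.sum_congr rfl fun j _ => by ring
      rw [b1, b2]
      refine Finset.sum_le_sum fun i hi => Finset.sum_le_sum fun j hj => ?_
      refine mul_le_mul_of_nonneg_left ?_ (mul_nonneg (hR0 x hx i hi) (hR0 x hx j hj))
      linarith [hup i hi j hj, hR0 i hi j hj]
    rw [inner_add_left, inner_add_right, inner_add_right, real_inner_smul_left, real_inner_smul_left,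
      real_inner_smul_right, real_inner_smul_right, real_inner_comm (y x) v] at a0
    have c1 : μ * (μ * ⟪y x, y x⟫) ≤ μ * (μ * (μ + ε)) := by gcongr
    have c2 : μ * ⟪y x, v⟫ ≤ μ * (-s2 + ε * r) := by gcongr
    have c3 : ε * (μ + r) ^ 2 ≤ ε * (μ + ρ) ^ 2 := by gcongr
    nlinarith
  have hs' : s2 ≤ μ ^ 2 + ε * (μ + ρ) ^ 2 / μ := by
    have : μ ^ 2 + ε * (μ + ρ) ^ 2 / μ = (μ ^ 3 + ε * (μ + ρ) ^ 2) / μ := by field_simp
    rw [this, le_div_iff₀ hμ]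
    linarith
  have t1 : ∀ j ∈ J, ⟪y x, y j⟫ ^ 2 ≤ (if x = j then μ ^ 2 + 2 * ε * μ else 0) + R x j ^ 2
      + 2 * ε * R x j + ε ^ 2 := by
    intro j hj
    rw [hG x hx j hj]
    have h1 := abs_le.1 (he x hx j hj)
    have h0 := hR0 x hx j hj
    by_cases h : x = j
    · subst h
      rw [if_pos rfl, if_pos rfl, hRd]
      nlinarith [h1.1, h1.2]
    · rw [if_neg h, if_neg h]
      nlinarith [h1.1, h1.2]
  refine (Finset.sum_le_sum t1).trans ?_
  simp only [Finset.sum_add_distrib, Finset.sum_ite_eq, if_pos hx, ← Finset.mul_sum,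
    Finset.sum_const, nsmul_eq_mul]
  have c4 : 2 * ε * ∑ j ∈ J, R x j ≤ 2 * ε * ρ := by gcongr; exact hρ x hx
  rw [← hs2]
  nlinarith

end Pool.Agent.H10.Iso
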