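import Pool.Agent.H10.Iso1

set_option autoImplicit false
open Finset
open scoped RealInnerProductSpace
open Classical

namespace Pool.Agent.H10.Iso

variable {V : Type*} [NormedAddCommGroup V] [InnerProductSpace ℝ V] [FiniteDimensional ℝ V]
variable {ι : Type*}

noncomputable def thr (μ C θ : ℝ) : ℝ :=
  2 * ((C + μ) / θ) / (θ * μ) +
    (2 * ((C + μ) / θ) * (μ + (C + μ) / θ) ^ 2 / μ + 4 * ((C + μ) / θ) * (μ + (C + μ) / θ)
      + 4 * ((C + μ) / θ) ^ 2) / (θ * μ ^ 2)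

theorem sc (I : Finset ι) (p : ι → V) (B μ C θ : ℝ) (hμ : 0 < μ) (hC : 0 ≤ C) (hθ : 0 < θ)
    (hθ1 : θ < 1) (hd : ∀ i ∈ I, ⟪p i, p i⟫ = B + μ)
    (ho : ∀ i ∈ I, ∀ j ∈ I, i ≠ j → ⟪p i, p j⟫ ≤ B)
    (hs : B * (I.card : ℝ) ^ 2 - C * I.card ≤ ⟪∑ i ∈ I, p i, ∑ i ∈ I, p i⟫)
    (hn : thr μ C θ ≤ I.card) :
    (1 - θ) ^ 3 * I.card ≤ (2 + θ) * (Module.finrank ℝ V : ℝ) := by
  set n : ℝ := (I.card : ℝ) with hnn
  set E := C + μ with hE
  have hE0 : 0 < E := by positivity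
  set ρ := E / θ with hρ
  have hρ0 : 0 < ρ := by positivity
  have hEρ : E ≤ ρ := by
    rw [hρ, le_div_iff₀ hθ]; nlinarith
  set F := 2 * ρ * (μ + ρ) ^ 2 / μ + 4 * ρ * (μ + ρ) + 4 * ρ ^ 2 with hF
  have hF0 : 0 < F := by positivity
  have hthr : thr μ C θ = 2 * ρ / (θ * μ) + F / (θ * μ ^ 2) := rfl
  have t1 : 0 < 2 * ρ / (θ * μ) := by positivity
  have t2 : 0 < F / (θ * μ ^ 2) := by positivity
  have hn0 : 0 < n := by linarith
  have hn1 : 2 * ρ / n ≤ θ * μ := by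
    rw [div_le_iff₀ hn0, mul_comm (θ * μ), ← div_le_iff₀ (by positivity)]; linarith
  have hn2 : F / n ≤ θ * μ ^ 2 := by
    rw [div_le_iff₀ hn0, mul_comm (θ * μ ^ 2), ← div_le_iff₀ (by positivity)]; linarith
  set R : ι → ι → ℝ := fun i j => if i = j then 0 else B - ⟪p i, p j⟫ with hR
  have hR0 : ∀ i ∈ I, ∀ j ∈ I, 0 ≤ R i j := by
    intro i hi j hj
    simp only [hR]
    split_ifs with h
    · exact le_rfl
    · linarith [ho i hi j hj h]
  have hRd : ∀ i, R i i = 0 := fun i => by simp [hR]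
  have hG : ∀ i ∈ I, ∀ j ∈ I, ⟪p i, p j⟫ = B + (if i = j then μ else 0) - R i j := by
    intro i hi j hj
    simp only [hR]
    split_ifs with h
    · subst h; rw [hd i hi]; ring
    · ring
  set r : ι → ℝ := fun i => ∑ j ∈ I, R i j with hr
  have hr0 : ∀ i ∈ I, 0 ≤ r i := fun i hi => Finset.sum_nonneg fun j hj => hR0 i hi j hj
  set S := ∑ i ∈ I, p i with hS
  have hpS : ∀ i ∈ I, ⟪p i, S⟫ = B * n + μ - r i := by
    intro i hi
    rw [hS, inner_sum, Finset.sum_congr rfl fun j hj => hG i hi j hj]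
    simp only [Finset.sum_sub_distrib, Finset.sum_add_distrib, Finset.sum_ite_eq, if_pos hi,
      Finset.sum_const, nsmul_eq_mul, hr]
    ring
  set T := ∑ i ∈ I, r i with hT
  have hT0 : 0 ≤ T := Finset.sum_nonneg hr0
  have hSS : ⟪S, S⟫ = B * n ^ 2 + μ * n - T := by
    conv_lhs => rw [hS, sum_inner, ← hS, Finset.sum_congr rfl hpS]
    simp only [Finset.sum_sub_distrib, Finset.sum_add_distrib, Finset.sum_const, nsmul_eq_mul]
    ring
  have hTE : T ≤ E * n := by rw [hSS] at hs; rw [hE]; linarith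
  set J := I.filter (fun i => r i ≤ ρ) with hJ
  have hJI : J ⊆ I := Finset.filter_subset _ _
  have hm : (1 - θ) * n ≤ J.card := by
    have h1 := Finset.card_filter_add_card_filter_not (s := I) (fun i => r i ≤ ρ)
    have h2 : ((I.filter (fun i => ¬ r i ≤ ρ)).card : ℝ) * ρ ≤ T := by
      rw [← nsmul_eq_mul, ← Finset.sum_const, hT]
      refine le_trans (Finset.sum_le_sum fun i hi => ?_)
        (Finset.sum_le_sum_of_subset_of_nonneg (Finset.filter_subset (fun i => ¬ r i ≤ ρ) I)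
          fun i hi _ => hr0 i hi)
      exact (not_le.1 (Finset.mem_filter.1 hi).2).le
    have h3 : ((I.filter (fun i => ¬ r i ≤ ρ)).card : ℝ) ≤ θ * n := by
      have h4 : E * n = θ * n * ρ := by rw [hρ]; field_simp
      exact le_of_mul_le_mul_right (by linarith) hρ0
    have h5 : (J.card : ℝ) + ((I.filter (fun i => ¬ r i ≤ ρ)).card : ℝ) = n := by
      rw [hnn, hJ]; exact_mod_cast h1
    linarith
  have hmn : (J.card : ℝ) ≤ n := by rw [hnn]; exact_mod_cast Finset.card_le_card hJI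
  set y : ι → V := fun i => p i - (1 / n) • S with hy
  set e : ι → ι → ℝ := fun i j => (r i + r j - T / n - μ) / n with he
  have hG2 : ∀ i ∈ J, ∀ j ∈ J, ⟪y i, y j⟫ = (if i = j then μ else 0) - R i j + e i j := by
    intro i hi j hj
    simp only [hy, he]
    rw [inner_sub_left, inner_sub_right, inner_sub_right, real_inner_smul_left, real_inner_smul_left,
      real_inner_smul_right, real_inner_smul_right, real_inner_comm (p j) S, hpS i (hJI hi),
      hpS j (hJI hj), hSS, hG i (hJI hi) j (hJI hj)]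
    field_simp
    ring
  have hTn : T / n ≤ E := by rw [div_le_iff₀ hn0]; exact hTE
  have hTn0 : 0 ≤ T / n := by positivity
  have he2 : ∀ i ∈ J, ∀ j ∈ J, |e i j| ≤ 2 * ρ / n := by
    intro i hi j hj
    simp only [he]
    rw [abs_div, abs_of_pos hn0]
    refine div_le_div_of_nonneg_right (abs_le.2 ⟨?_, ?_⟩) hn0.le
    · linarith [hr0 i (hJI hi), hr0 j (hJI hj)]
    · linarith [(Finset.mem_filter.1 hi).2, (Finset.mem_filter.1 hj).2]
  have h6 := sc2 J y R e μ ρ (2 * ρ / n) hμ (by positivity) hρ0.le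
    (fun i hi j hj => hR0 i (hJI hi) j (hJI hj)) hRd
    (fun i hi => le_trans (Finset.sum_le_sum_of_subset_of_nonneg hJI
      fun j hj _ => hR0 i (hJI hi) j hj) (Finset.mem_filter.1 hi).2) he2 hG2
  have h7 : 2 * ρ / n * (μ + ρ) ^ 2 / μ + 2 * (2 * ρ / n) * (μ + ρ) + J.card * (2 * ρ / n) ^ 2
      ≤ θ * μ ^ 2 := by
    refine le_trans ?_ hn2
    have : F / n = 2 * ρ / n * (μ + ρ) ^ 2 / μ + 2 * (2 * ρ / n) * (μ + ρ) + n * (2 * ρ / n) ^ 2 := by
      rw [hF]; field_simp; ring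
    rw [this]
    gcongr
  have h8 : (J.card : ℝ) * ((1 - θ) * μ) ≤ ∑ i ∈ J, ⟪y i, y i⟫ := by
    rw [← nsmul_eq_mul, ← Finset.sum_const]
    refine Finset.sum_le_sum fun i hi => ?_
    rw [hG2 i hi i hi, if_pos rfl, hRd]
    linarith [(abs_le.1 (he2 i hi i hi)).1]
  have h9 := welch J y
  have hθ2 : 0 < 1 - θ := by linarith
  have hm0 : (0:ℝ) < J.card := lt_of_lt_of_le (by positivity) hm
  have h10 : ((J.card : ℝ) * ((1 - θ) * μ)) ^ 2
      ≤ (Module.finrank ℝ V : ℝ) * (J.card * (2 * μ ^ 2 + θ * μ ^ 2)) := by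
    refine le_trans (pow_le_pow_left₀ (by positivity) h8 2) (h9.trans ?_)
    refine mul_le_mul_of_nonneg_left (h6.trans ?_) (by positivity)
    gcongr
  have h11 : (J.card : ℝ) * (1 - θ) ^ 2 ≤ (2 + θ) * (Module.finrank ℝ V : ℝ) := by
    have a : ((J.card : ℝ) * ((1 - θ) * μ)) ^ 2 = (J.card : ℝ) * (1 - θ) ^ 2 * (J.card * μ ^ 2) := by
      ring
    have b : (Module.finrank ℝ V : ℝ) * (J.card * (2 * μ ^ 2 + θ * μ ^ 2))
        = (2 + θ) * (Module.finrank ℝ V : ℝ) * (J.card * μ ^ 2) := by ring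
    rw [a, b] at h10
    exact le_of_mul_le_mul_right h10 (by positivity)
  have h12 : (1 - θ) * n * (1 - θ) ^ 2 ≤ (J.card : ℝ) * (1 - θ) ^ 2 := by gcongr
  nlinarith

end Pool.Agent.H10.Iso
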