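import Pool.Agent.H10.Iso2

set_option autoImplicit false
open Finset
open scoped RealInnerProductSpace
open Classical

namespace Pool.Agent.H10.Iso

variable {V : Type*} [NormedAddCommGroup V] [InnerProductSpace ℝ V] [FiniteDimensional ℝ V]

theorem bas (U : Submodule ℝ V) (k : ℕ) (hk : Module.finrank ℝ U = k) :
    ∃ f : Fin k → V, (∀ j, f j ∈ U) ∧ (∀ j, ‖f j‖ = 1) ∧
      ∀ v, U.starProjection v = ∑ j, ⟪f j, v⟫ • f j := by
  subst hk
  set b := stdOrthonormalBasis ℝ U
  refine ⟨fun j => (b j : V), fun j => (b j).2, fun j => b.orthonormal.1 j, fun v => ?_⟩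
  rw [b.starProjection_eq_sum_rankOne]
  simp

theorem inner_self_proj (U : Submodule ℝ V) (v : V) :
    ⟪v, U.starProjection v⟫ = ‖U.starProjection v‖ ^ 2 := by
  have h : U.starProjection (U.starProjection v) = U.starProjection v :=
    Submodule.starProjection_eq_self_iff.2 (U.starProjection_apply_mem v)
  rw [← real_inner_self_eq_norm_sq, Submodule.inner_starProjection_left_eq_right, h]

theorem inner_le_of (W : Submodule ℝ V) (u w : V) (hw : w ∈ W) :
    ⟪u, w⟫ ≤ ‖W.starProjection u‖ * ‖w‖ := by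
  have h : W.starProjection w = w := Submodule.starProjection_eq_self_iff.2 hw
  conv_lhs => rw [← h, ← Submodule.inner_starProjection_left_eq_right]
  exact real_inner_le_norm _ _

section
variable (S : Finset (Submodule ℝ V)) (k : ℕ) (α : ℝ)
  (hk : ∀ U ∈ S, Module.finrank ℝ U = k)
  (hiso : ∀ U ∈ S, ∀ W ∈ S, U ≠ W → ∀ u ∈ U, ‖W.starProjection u‖ = α * ‖u‖)
include hk hiso

theorem trace2 (U : Submodule ℝ V) (hU : U ∈ S) (W : Submodule ℝ V) (hW : W ∈ S) :
    ∑ l, ⟪U.starProjection (stdOrthonormalBasis ℝ V l), W.starProjection (stdOrthonormalBasis ℝ V l)⟫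
      = k * α ^ 2 + if U = W then k * (1 - α ^ 2) else 0 := by
  set e := stdOrthonormalBasis ℝ V
  obtain ⟨f, f1, f2, f3⟩ := bas U k (hk U hU)
  have h1 : ∀ l, ⟪U.starProjection (e l), W.starProjection (e l)⟫
      = ∑ j, ⟪f j, e l⟫ * ⟪e l, W.starProjection (f j)⟫ := by
    intro l
    rw [f3, sum_inner]
    refine Finset.sum_congr rfl fun j _ => ?_
    rw [real_inner_smul_left, ← Submodule.inner_starProjection_left_eq_right,
      real_inner_comm (e l) (W.starProjection (f j))]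
  simp only [h1]
  rw [Finset.sum_comm]
  simp only [e.sum_inner_mul_inner, inner_self_proj]
  split_ifs with h
  · subst h
    have : ∀ j, ‖U.starProjection (f j)‖ ^ 2 = 1 := fun j => by
      rw [Submodule.starProjection_eq_self_iff.2 (f1 j), f2]; ring
    simp only [this, Finset.sum_const, Finset.card_univ, Fintype.card_fin, nsmul_eq_mul]
    ring
  · have : ∀ j, ‖W.starProjection (f j)‖ ^ 2 = α ^ 2 := fun j => by
      rw [hiso U hU W hW h _ (f1 j), f2]; ring
    simp only [this, Finset.sum_const, Finset.card_univ, Fintype.card_fin, nsmul_eq_mul]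
    ring

theorem lemA (I : Finset (Submodule ℝ V)) (hI : I ⊆ S) (c : Submodule ℝ V → ℝ)
    (hc : ∑ U ∈ I, c U = 0) (a : V) (ha : ‖a‖ = 1) :
    ‖∑ U ∈ I, c U • U.starProjection a‖ ^ 2 ≤ k * ∑ U ∈ I, c U ^ 2 := by
  set e := stdOrthonormalBasis ℝ V
  set T : V →L[ℝ] V := ∑ U ∈ I, c U • U.starProjection with hT
  have hTv : ∀ v, T v = ∑ U ∈ I, c U • U.starProjection v := by
    intro v; simp [hT]
  rw [← hTv]
  have h1 : T a = ∑ l, ⟪e l, a⟫ • T (e l) := by
    conv_lhs => rw [← e.sum_repr' a, map_sum]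
    simp only [map_smul]
  have h2 : ‖T a‖ ≤ ∑ l, |⟪e l, a⟫| * ‖T (e l)‖ := by
    rw [h1]
    refine (norm_sum_le _ _).trans (le_of_eq ?_)
    exact Finset.sum_congr rfl fun l _ => by rw [norm_smul, Real.norm_eq_abs]
  have h3 : ‖T a‖ ^ 2 ≤ ∑ l, ‖T (e l)‖ ^ 2 := by
    refine (pow_le_pow_left₀ (norm_nonneg _) h2 2).trans ((Finset.sum_mul_sq_le_sq_mul_sq _ _ _).trans ?_)
    simp only [sq_abs]
    rw [e.sum_sq_inner_right, ha]
    simp
  refine h3.trans ?_
  have h4 : ∀ l, ‖T (e l)‖ ^ 2 = ∑ U ∈ I, ∑ W ∈ I,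
      c U * c W * ⟪U.starProjection (e l), W.starProjection (e l)⟫ := by
    intro l
    rw [← real_inner_self_eq_norm_sq, hTv, sum_inner]
    refine Finset.sum_congr rfl fun U _ => ?_
    rw [inner_sum]
    refine Finset.sum_congr rfl fun W _ => ?_
    rw [real_inner_smul_left, real_inner_smul_right]; ring
  simp only [h4]
  rw [Finset.sum_comm]
  have h5 : ∀ U ∈ I, ∑ l, ∑ W ∈ I, c U * c W * ⟪U.starProjection (e l), W.starProjection (e l)⟫
      = k * (1 - α ^ 2) * c U ^ 2 := by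
    intro U hU
    rw [Finset.sum_comm]
    have : ∀ W ∈ I, ∑ l, c U * c W * ⟪U.starProjection (e l), W.starProjection (e l)⟫
        = (c U * (k * α ^ 2)) * c W + if U = W then c U * c W * (k * (1 - α ^ 2)) else 0 := by
      intro W hW
      rw [← Finset.mul_sum, trace2 S k α hk hiso U (hI hU) W (hI hW)]
      split_ifs <;> ring
    rw [Finset.sum_congr rfl this, Finset.sum_add_distrib, ← Finset.mul_sum, hc,
      Finset.sum_ite_eq, if_pos hU]
    ring
  rw [Finset.sum_congr rfl h5, ← Finset.mul_sum]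
  refine mul_le_mul_of_nonneg_right ?_ (Finset.sum_nonneg fun U _ => sq_nonneg _)
  have : (0:ℝ) ≤ k * α ^ 2 := by positivity
  linarith

theorem lem2 (I : Finset (Submodule ℝ V)) (hI : I ⊆ S) (hn : 0 < I.card) (a : V) (ha : ‖a‖ = 1)
    (f : V) (hf : ‖f‖ = 1) :
    (I.card : ℝ) * ∑ U ∈ I, ⟪f, U.starProjection a⟫ ^ 2
      ≤ ⟪f, ∑ U ∈ I, U.starProjection a⟫ ^ 2 + I.card * k := by
  have hn' : (0:ℝ) < I.card := by exact_mod_cast hn
  set t : Submodule ℝ V → ℝ := fun U => ⟪f, U.starProjection a⟫ with ht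
  set m : ℝ := (∑ U ∈ I, t U) / I.card with hm
  have hm2 : ∑ U ∈ I, t U = I.card * m := by rw [hm]; field_simp
  have hc : ∑ U ∈ I, (t U - m) = 0 := by
    rw [Finset.sum_sub_distrib, Finset.sum_const, nsmul_eq_mul, hm2]; ring
  have h1 := lemA S k α hk hiso I hI (fun U => t U - m) hc a ha
  set Q := ∑ U ∈ I, (t U - m) ^ 2 with hQ
  have hQ0 : 0 ≤ Q := Finset.sum_nonneg fun U _ => sq_nonneg _
  have h2 : Q = ∑ U ∈ I, t U ^ 2 - I.card * m ^ 2 := by
    have : ∀ U ∈ I, (t U - m) ^ 2 = t U ^ 2 - 2 * m * t U + m ^ 2 := fun U _ => by ring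
    rw [hQ, Finset.sum_congr rfl this, Finset.sum_add_distrib, Finset.sum_sub_distrib,
      ← Finset.mul_sum, hm2, Finset.sum_const, nsmul_eq_mul]
    ring
  have h3 : ⟪f, ∑ U ∈ I, (t U - m) • U.starProjection a⟫ = Q := by
    rw [inner_sum, h2]
    have : ∀ U ∈ I, ⟪f, (t U - m) • U.starProjection a⟫ = t U ^ 2 - m * t U := fun U _ => by
      rw [real_inner_smul_right]; simp only [ht]; ring
    rw [Finset.sum_congr rfl this, Finset.sum_sub_distrib, ← Finset.mul_sum, hm2]
    ring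
  have h4 : Q ≤ ‖∑ U ∈ I, (t U - m) • U.starProjection a‖ := by
    have := real_inner_le_norm f (∑ U ∈ I, (t U - m) • U.starProjection a)
    rwa [h3, hf, one_mul] at this
  have h5 : Q ^ 2 ≤ k * Q := (pow_le_pow_left₀ hQ0 h4 2).trans h1
  have h6 : Q ≤ k := by
    rcases hQ0.eq_or_lt with h | h
    · rw [← h]; positivity
    · exact le_of_mul_le_mul_right (by nlinarith) h
  have h7 : ⟪f, ∑ U ∈ I, U.starProjection a⟫ = I.card * m := by rw [inner_sum, ← hm2]
  rw [h7]
  have h8 : (I.card : ℝ) * Q ≤ I.card * k := mul_le_mul_of_nonneg_left h6 hn'.le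
  rw [h2] at h8
  nlinarith

omit hk in
theorem lem3 (hα : 0 ≤ α) (I : Finset (Submodule ℝ V)) (hI : I ⊆ S) (v : V) :
    ∑ W ∈ I, ‖W.starProjection v‖ ^ 2 ≤ (1 + α * I.card) * ‖v‖ ^ 2 := by
  set Q := ∑ W ∈ I, ‖W.starProjection v‖ ^ 2 with hQ
  have hQ0 : 0 ≤ Q := Finset.sum_nonneg fun U _ => sq_nonneg _
  have h1 : Q = ⟪v, ∑ W ∈ I, W.starProjection v⟫ := by
    rw [inner_sum, hQ]
    exact Finset.sum_congr rfl fun W _ => (inner_self_proj W v).symm
  have h2 : ‖∑ W ∈ I, W.starProjection v‖ ^ 2 ≤ (1 + α * I.card) * Q := by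
    rw [← real_inner_self_eq_norm_sq, sum_inner]
    simp only [inner_sum]
    have a : ∀ U ∈ I, ∀ W ∈ I, ⟪U.starProjection v, W.starProjection v⟫
        ≤ (if U = W then ‖U.starProjection v‖ ^ 2 else 0)
          + (α / 2 * ‖U.starProjection v‖ ^ 2 + α / 2 * ‖W.starProjection v‖ ^ 2) := by
      intro U hU W hW
      split_ifs with h
      · subst h
        rw [real_inner_self_eq_norm_sq]
        have : 0 ≤ α / 2 * ‖U.starProjection v‖ ^ 2 := by positivity
        linarith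
      · have b := inner_le_of W (U.starProjection v) _ (W.starProjection_apply_mem v)
        rw [hiso U (hI hU) W (hI hW) h _ (U.starProjection_apply_mem v)] at b
        nlinarith [mul_nonneg hα (sq_nonneg (‖U.starProjection v‖ - ‖W.starProjection v‖))]
    refine (Finset.sum_le_sum fun U hU => Finset.sum_le_sum fun W hW => a U hU W hW).trans (le_of_eq ?_)
    have b : ∀ U ∈ I, ∑ W ∈ I, ((if U = W then ‖U.starProjection v‖ ^ 2 else 0)
          + (α / 2 * ‖U.starProjection v‖ ^ 2 + α / 2 * ‖W.starProjection v‖ ^ 2))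
        = (1 + I.card * (α / 2)) * ‖U.starProjection v‖ ^ 2 + α / 2 * Q := by
      intro U hU
      rw [Finset.sum_add_distrib, Finset.sum_add_distrib, Finset.sum_ite_eq, if_pos hU,
        Finset.sum_const, nsmul_eq_mul, ← Finset.mul_sum]
      ring
    rw [Finset.sum_congr rfl b, Finset.sum_add_distrib, ← Finset.mul_sum, Finset.sum_const,
      nsmul_eq_mul]
    ring
  have h3 : Q ≤ ‖v‖ * ‖∑ W ∈ I, W.starProjection v‖ := by
    conv_lhs => rw [h1]
    exact real_inner_le_norm _ _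
  have h4 : Q ^ 2 ≤ ‖v‖ ^ 2 * ((1 + α * I.card) * Q) := by
    refine (pow_le_pow_left₀ hQ0 h3 2).trans ?_
    rw [mul_pow]
    gcongr
  rcases hQ0.eq_or_lt with h | h
  · rw [← h]; positivity
  · exact le_of_mul_le_mul_right (by nlinarith) h

end

end Pool.Agent.H10.Iso
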