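import Pool.Agent.H10.Iso3

set_option autoImplicit false
open Finset
open scoped RealInnerProductSpace
open Classical

namespace Pool.Agent.H10.Iso

variable {V : Type*} [NormedAddCommGroup V] [InnerProductSpace ℝ V] [FiniteDimensional ℝ V]

theorem normP (W : Submodule ℝ V) (k : ℕ) (f : Fin k → V)
    (f3 : ∀ v, W.starProjection v = ∑ j, ⟪f j, v⟫ • f j) (v : V) :
    ‖W.starProjection v‖ ^ 2 = ∑ j, ⟪f j, v⟫ ^ 2 := by
  rw [← inner_self_proj, f3, inner_sum]
  refine Finset.sum_congr rfl fun j _ => ?_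
  rw [real_inner_smul_right, real_inner_comm (f j) v, sq]

theorem mid (S : Finset (Submodule ℝ V)) (k : ℕ) (hk1 : 1 ≤ k) (α : ℝ) (h0 : 0 < α) (h1 : α < 1)
    (hk : ∀ U ∈ S, Module.finrank ℝ U = k)
    (hiso : ∀ U ∈ S, ∀ W ∈ S, U ≠ W → ∀ u ∈ U, ‖W.starProjection u‖ = α * ‖u‖)
    (θ : ℝ) (hθ : 0 < θ) (hθ1 : θ < 1)
    (hn : thr (α ^ 2 - α ^ 3) (α ^ 2 + (k:ℝ) ^ 2 / α) θ + 2 ≤ S.card) (hS : 2 ≤ S.card) :
    (1 - θ) ^ 3 * ((S.card : ℝ) - 1) ≤ (2 + θ) * (Module.finrank ℝ V : ℝ) := by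
  obtain ⟨Z, hZ⟩ : S.Nonempty := Finset.card_pos.1 (by omega)
  obtain ⟨g, g1, g2, -⟩ := bas Z k (hk Z hZ)
  set a := g ⟨0, hk1⟩ with ha
  have a1 : a ∈ Z := g1 _
  have a2 : ‖a‖ = 1 := g2 _
  set I := S.erase Z with hI
  have hIS : I ⊆ S := Finset.erase_subset _ _
  have hcard : I.card + 1 = S.card := Finset.card_erase_add_one hZ
  have hcard' : (I.card : ℝ) = S.card - 1 := by
    rw [← hcard]; push_cast; ring
  have hIpos : 0 < I.card := by omega
  have hn0 : (0:ℝ) < I.card := by exact_mod_cast hIpos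
  have hp : ∀ U ∈ I, ‖U.starProjection a‖ = α := by
    intro U hU
    rw [hiso Z hZ U (hIS hU) (Finset.ne_of_mem_erase hU).symm a a1, a2, mul_one]
  have hpp : ∀ U ∈ I, ∀ W ∈ I, U ≠ W → ‖W.starProjection (U.starProjection a)‖ = α ^ 2 := by
    intro U hU W hW h
    rw [hiso U (hIS hU) W (hIS hW) h _ (U.starProjection_apply_mem a), hp U hU, sq]
  set s := ∑ U ∈ I, U.starProjection a with hs
  set n : ℝ := (I.card : ℝ) with hn'
  have hW : ∀ W ∈ I, n * (n * α ^ 4 - (k:ℝ) ^ 2) ≤ ‖W.starProjection s‖ ^ 2 := by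
    intro W hW
    obtain ⟨f, -, f2, f3⟩ := bas W k (hk W (hIS hW))
    have b1 : n * α ^ 4 ≤ ∑ U ∈ I, ‖W.starProjection (U.starProjection a)‖ ^ 2 := by
      rw [hn', ← nsmul_eq_mul, ← Finset.sum_const]
      refine Finset.sum_le_sum fun U hU => ?_
      by_cases h : U = W
      · subst h
        rw [Submodule.starProjection_eq_self_iff.2 (U.starProjection_apply_mem a), hp U hU]
        have : α ^ 2 ≤ 1 := by nlinarith
        nlinarith [sq_nonneg α]
      · rw [hpp U hU W hW h]; nlinarith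
    have b2 := Finset.sum_le_sum fun j (_ : j ∈ Finset.univ) =>
      lem2 S k α hk hiso I hIS hIpos a a2 (f j) (f2 j)
    rw [Finset.sum_add_distrib, ← Finset.mul_sum, Finset.sum_comm, ← normP W k f f3,
      Finset.sum_const, Finset.card_univ, Fintype.card_fin, nsmul_eq_mul,
      Finset.sum_congr rfl fun U _ => (normP W k f f3 (U.starProjection a)).symm, ← hs, ← hn'] at b2
    nlinarith
  have h3 := lem3 S α hiso h0.le I hIS s
  have h4 : n * (n * (n * α ^ 4 - (k:ℝ) ^ 2)) ≤ (1 + α * n) * ‖s‖ ^ 2 := by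
    refine le_trans ?_ h3
    conv_lhs => rw [hn', ← nsmul_eq_mul, ← Finset.sum_const]
    exact Finset.sum_le_sum hW
  set C := α ^ 2 + (k:ℝ) ^ 2 / α with hC
  have hC0 : 0 ≤ C := by positivity
  have hC1 : α * C = α ^ 3 + (k:ℝ) ^ 2 := by rw [hC]; field_simp
  have h5 : α ^ 3 * n ^ 2 - C * n ≤ ⟪s, s⟫ := by
    rw [real_inner_self_eq_norm_sq]
    have hpos : 0 < 1 + α * n := by positivity
    refine le_of_mul_le_mul_left (le_trans ?_ h4) hpos
    have e : (1 + α * n) * (α ^ 3 * n ^ 2 - C * n)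
        = α ^ 3 * n ^ 2 - C * n + α ^ 4 * n ^ 3 - (α * C) * n ^ 2 := by ring
    rw [e, hC1]
    have : 0 ≤ C * n := by positivity
    nlinarith
  have h6 := sc I (fun U => U.starProjection a) (α ^ 3) (α ^ 2 - α ^ 3) C θ (by nlinarith [sq_pos_of_pos h0])
    hC0 hθ hθ1
    (fun U hU => by rw [real_inner_self_eq_norm_sq, hp U hU]; ring)
    (fun U hU W hW h => by
      have := inner_le_of W (U.starProjection a) _ (W.starProjection_apply_mem a)
      rw [hpp U hU W hW h, hp W hW] at this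
      linarith)
    h5 (by linarith)
  rwa [← hcard']

theorem main (k : ℕ) (hk1 : 1 ≤ k) (α : ℝ) (h0 : 0 ≤ α) (h1 : α ≤ 1) (η : ℝ) (hη : 0 < η) :
    ∃ C : ℝ, 0 ≤ C ∧ ∀ d : ℕ, ∀ S : Finset (Submodule ℝ (EuclideanSpace ℝ (Fin d))),
      (∀ U ∈ S, Module.finrank ℝ U = k) →
      (∀ U ∈ S, ∀ W ∈ S, U ≠ W → ∀ u ∈ U, ‖u‖ = 1 → ‖W.starProjection u‖ = α) →
      (S.card : ℝ) ≤ (2 + η) * d + C := by
  have scale : ∀ d : ℕ, ∀ S : Finset (Submodule ℝ (EuclideanSpace ℝ (Fin d))),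
      (∀ U ∈ S, ∀ W ∈ S, U ≠ W → ∀ u ∈ U, ‖u‖ = 1 → ‖W.starProjection u‖ = α) →
      ∀ U ∈ S, ∀ W ∈ S, U ≠ W → ∀ u ∈ U, ‖W.starProjection u‖ = α * ‖u‖ := by
    intro d S h U hU W hW hne u hu
    by_cases hz : u = 0
    · subst hz; simp
    · have hn : 0 < ‖u‖ := norm_pos_iff.2 hz
      have := h U hU W hW hne (‖u‖⁻¹ • u) (U.smul_mem _ hu) (by
        rw [norm_smul, norm_inv, norm_norm, inv_mul_cancel₀ hn.ne'])
      rw [map_smul, norm_smul, norm_inv, norm_norm] at this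
      rw [← this]; field_simp
  rcases h1.eq_or_lt with h1 | h1
  · refine ⟨1, zero_le_one, fun d S hk h => ?_⟩
    have h' := scale d S h
    have : S.card ≤ 1 := by
      rw [Finset.card_le_one]
      intro U hU W hW
      by_contra hne
      apply hne
      apply Submodule.eq_of_le_of_finrank_eq _ (by rw [hk U hU, hk W hW])
      intro u hu
      rw [Submodule.mem_iff_norm_starProjection, h' U hU W hW hne u hu, h1, one_mul]
    have h2 : (S.card : ℝ) ≤ 1 := by exact_mod_cast this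
    have : 0 ≤ (2 + η) * d := by positivity
    linarith
  rcases h0.eq_or_lt with h0 | h0
  · refine ⟨0, le_rfl, fun d S hk h => ?_⟩
    have h' := scale d S h
    choose g g1 g2 g3 using fun U : S => bas U.1 k (hk U.1 U.2)
    have hon : Orthonormal ℝ (fun U : S => g U ⟨0, hk1⟩) := by
      refine ⟨fun U => g2 U _, fun U W hne => ?_⟩
      have hne' : U.1 ≠ W.1 := fun h => hne (Subtype.ext h)
      have e1 := h' U.1 U.2 W.1 W.2 hne' _ (g1 U ⟨0, hk1⟩)
      rw [← h0, zero_mul, norm_eq_zero] at e1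
      have e2 : W.1.starProjection (g W ⟨0, hk1⟩) = g W ⟨0, hk1⟩ :=
        Submodule.starProjection_eq_self_iff.2 (g1 W _)
      simp only
      rw [← e2, ← Submodule.inner_starProjection_left_eq_right, e1, inner_zero_left]
    have := hon.linearIndependent.fintype_card_le_finrank
    simp only [Fintype.card_coe, finrank_euclideanSpace, Fintype.card_fin] at this
    have h2 : (S.card : ℝ) ≤ d := by exact_mod_cast this
    have h3 : (0:ℝ) ≤ d := by positivity
    nlinarith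
  set θ := η / (7 + 3 * η) with hθ
  have hθ0 : 0 < θ := by positivity
  have hθ3 : θ * (7 + 3 * η) = η := by rw [hθ]; field_simp
  have hθ1 : θ < 1 / 3 := by rw [hθ, div_lt_iff₀ (by positivity)]; linarith
  refine ⟨|thr (α ^ 2 - α ^ 3) (α ^ 2 + (k:ℝ) ^ 2 / α) θ| + 2, by positivity, fun d S hk h => ?_⟩
  have hd0 : 0 ≤ (2 + η) * d := by positivity
  have habs := le_abs_self (thr (α ^ 2 - α ^ 3) (α ^ 2 + (k:ℝ) ^ 2 / α) θ)
  have habs0 := abs_nonneg (thr (α ^ 2 - α ^ 3) (α ^ 2 + (k:ℝ) ^ 2 / α) θ)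
  by_cases hb : |thr (α ^ 2 - α ^ 3) (α ^ 2 + (k:ℝ) ^ 2 / α) θ| + 2 ≤ S.card
  · have hS : 2 ≤ S.card := by
      have : (2:ℝ) ≤ S.card := by linarith
      exact_mod_cast this
    have hS' : (0:ℝ) ≤ (S.card : ℝ) - 1 := by linarith
    have h5 := mid S k hk1 α h0 h1 hk (scale d S h) θ hθ0 (by linarith) (by linarith) hS
    simp only [finrank_euclideanSpace, Fintype.card_fin] at h5
    have h6 : 1 - 3 * θ ≤ (1 - θ) ^ 3 := by nlinarith [sq_nonneg θ, mul_pos hθ0 hθ0]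
    have h7 : (1 - 3 * θ) * ((S.card : ℝ) - 1) ≤ (2 + θ) * d :=
      (mul_le_mul_of_nonneg_right h6 hS').trans h5
    have h8 : 2 + θ = (1 - 3 * θ) * (2 + η) := by linarith
    rw [h8, mul_assoc] at h7
    have h9 := le_of_mul_le_mul_left h7 (by linarith)
    linarith
  · linarith

end Pool.Agent.H10.Iso
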