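import Pool.Agent.H10.JD2

set_option autoImplicit false
set_option maxRecDepth 100000

namespace Pool.Agent.H10.JD
open Pool.Agent.H10.NK


theorem k1_0 : chk f1 c1_0 0 = true := by decide +kernel
theorem k1_1 : chk f1 c1_1 15 = true := by decide +kernel
theorem k1_2 : chk f1 c1_2 30 = true := by decide +kernel
theorem k1_3 : chk f1 c1_3 45 = true := by decide +kernel
theorem k1_4 : chk f1 c1_4 60 = true := by decide +kernel
theorem k1_5 : chk f1 c1_5 75 = true := by decide +kernel
theorem k1_6 : chk f1 c1_6 90 = true := by decide +kernel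
theorem k1_7 : chk f1 c1_7 105 = true := by decide +kernel
theorem k1_8 : chk f1 c1_8 120 = true := by decide +kernel
theorem k1_9 : chk f1 c1_9 135 = true := by decide +kernel
theorem k1_10 : chk f1 c1_10 150 = true := by decide +kernel
theorem k1_11 : chk f1 c1_11 165 = true := by decide +kernel
theorem k2_0 : chk f2 c2_0 0 = true := by decide +kernel
theorem k2_1 : chk f2 c2_1 24 = true := by decide +kernel
theorem k2_2 : chk f2 c2_2 48 = true := by decide +kernel
theorem k2_3 : chk f2 c2_3 72 = true := by decide +kernel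
theorem k1 : chk f1 c1 0 = true :=
  chk_app f1 _ _ _ k1_0 (chk_app f1 _ _ _ k1_1 (chk_app f1 _ _ _ k1_2 (chk_app f1 _ _ _ k1_3 (chk_app f1 _ _ _ k1_4 (chk_app f1 _ _ _ k1_5 (chk_app f1 _ _ _ k1_6 (chk_app f1 _ _ _ k1_7 (chk_app f1 _ _ _ k1_8 (chk_app f1 _ _ _ k1_9 (chk_app f1 _ _ _ k1_10 (k1_11)))))))))))
theorem k2 : chk f2 c2 0 = true :=
  chk_app f2 _ _ _ k2_0 (chk_app f2 _ _ _ k2_1 (chk_app f2 _ _ _ k2_2 (k2_3)))

end Pool.Agent.H10.JD
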