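import Mathlib

set_option autoImplicit false
open Set Module
open scoped RealInnerProductSpace

namespace Pool.Agent.H10.Jam2

theorem cone2 {W W' : Type*} [NormedAddCommGroup W] [NormedSpace ℝ W] [FiniteDimensional ℝ W]
    [NormedAddCommGroup W'] [NormedSpace ℝ W'] (K : Set W) (hK : IsClosed K)
    (hs : ∀ a : ℝ, 0 ≤ a → ∀ w ∈ K, a • w ∈ K) (L : W →ₗ[ℝ] W') (q : W → ℝ) (hq : Continuous q)
    (hq2 : ∀ (a : ℝ) w, q (a • w) = a * a * q w)
    (h : ∀ w ∈ K, L w = 0 → q w ≤ 0 → w = 0) :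
    ∃ c : ℝ, 0 < c ∧ ∀ w ∈ K, c * ‖w‖ ≤ ‖L w‖ ∨ c * (‖w‖ * ‖w‖) ≤ q w := by
  have hc : IsCompact (K ∩ Metric.sphere (0:W) 1) := (isCompact_sphere 0 1).inter_left hK
  have hL : Continuous fun w => max ‖L w‖ (q w) :=
    (LinearMap.continuous_of_finiteDimensional L).norm.max hq
  have key : ∃ c : ℝ, 0 < c ∧ ∀ w ∈ K ∩ Metric.sphere (0:W) 1, c ≤ max ‖L w‖ (q w) := by
    rcases (K ∩ Metric.sphere (0:W) 1).eq_empty_or_nonempty with he | hne
    · exact ⟨1, one_pos, fun w hw => by rw [he] at hw; exact absurd hw (notMem_empty w)⟩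
    · obtain ⟨w0, hw0, hm⟩ := hc.exists_isMinOn hne hL.continuousOn
      refine ⟨max ‖L w0‖ (q w0), ?_, fun w hw => hm hw⟩
      by_contra hn
      rw [not_lt, max_le_iff] at hn
      have h1 := h w0 hw0.1 (norm_le_zero_iff.1 hn.1) hn.2
      have h2 := hw0.2
      rw [h1] at h2
      simp at h2
  obtain ⟨c, hc0, hc1⟩ := key
  refine ⟨c, hc0, fun w hw => ?_⟩
  by_cases h0 : w = 0
  · simp [h0]
  have hn : 0 < ‖w‖ := norm_pos_iff.2 h0
  have h1 := hc1 (‖w‖⁻¹ • w) ⟨hs _ (by positivity) w hw, by simp [norm_smul, hn.ne']⟩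
  rw [map_smul, norm_smul, norm_inv, norm_norm, hq2, le_max_iff] at h1
  rcases h1 with h1 | h1
  · left
    have h2 := mul_le_mul_of_nonneg_right h1 hn.le
    rwa [mul_comm ‖w‖⁻¹, mul_assoc, inv_mul_cancel₀ hn.ne', mul_one] at h2
  · right
    have h2 := mul_le_mul_of_nonneg_right h1 (mul_pos hn hn).le
    refine h2.trans (le_of_eq ?_)
    field_simp

variable {n : ℕ} {P : Type} [Fintype P] {ι : Type} [Fintype ι]

abbrev V (n : ℕ) := EuclideanSpace ℝ (Fin n)

noncomputable def rz : (V n →ₗ[ℝ] ℝ) →ₗ[ℝ] V n where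
  toFun f := WithLp.toLp 2 fun k => f (EuclideanSpace.single k 1)
  map_add' _ _ := rfl
  map_smul' _ _ := rfl

theorem rz_in (f : V n →ₗ[ℝ] ℝ) (z : V n) : ⟪rz f, z⟫ = f z := by
  conv_rhs => rw [← (EuclideanSpace.basisFun (Fin n) ℝ).sum_repr z]
  simp [rz, PiLp.inner_apply, map_sum]

variable (b : Basis ι ℝ (V n)) (β : ι → P) (x : P → V n)

noncomputable def ph (i : P) : (P → P → ℝ) →ₗ[ℝ] (V n →ₗ[ℝ] ℝ) where
  toFun D := ∑ l, D i (β l) • b.coord l
  map_add' D E := by simp [add_smul, Finset.sum_add_distrib]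
  map_smul' a D := by simp [Finset.smul_sum, smul_smul]

noncomputable def ps (z : V n) : (P → P → ℝ) →ₗ[ℝ] (V n →ₗ[ℝ] ℝ) :=
  ∑ l, b.repr z l • ph b β (β l)

omit [Fintype P] in
theorem ph_apply (D : P → P → ℝ) (i : P) (z : V n) :
    ph b β i D z = ∑ l, b.repr z l * D i (β l) := by
  simp [ph, LinearMap.sum_apply, mul_comm]

omit [Fintype P] in
theorem ps_apply (D : P → P → ℝ) (z w : V n) :
    ps b β z D w = ∑ l, ∑ m, b.repr z l * (b.repr w m * D (β l) (β m)) := by
  simp [ps, LinearMap.sum_apply, ph_apply, Finset.mul_sum]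

noncomputable def LD : (P → P → ℝ) →ₗ[ℝ] (P → P → ℝ) where
  toFun D := fun i j => D i j - ph b β i D (x j) - ph b β j D (x i) + ps b β (x i) D (x j)
  map_add' D E := by
    funext i j
    simp only [map_add, Pi.add_apply, LinearMap.add_apply]
    ring
  map_smul' a D := by
    funext i j
    simp only [map_smul, Pi.smul_apply, LinearMap.smul_apply, smul_eq_mul, RingHom.id_apply]
    ring

omit [Fintype P] in
theorem LD_apply (D : P → P → ℝ) (i j : P) :
    LD b β x D i j = D i j - ph b β i D (x j) - ph b β j D (x i) + ps b β (x i) D (x j) := rfl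

omit [Fintype P] in
theorem ps_symm (D : P → P → ℝ) (hD : ∀ i j, D i j = D j i) (z w : V n) :
    ps b β z D w = ps b β w D z := by
  rw [ps_apply, ps_apply, Finset.sum_comm]
  exact Finset.sum_congr rfl fun l _ => Finset.sum_congr rfl fun m _ => by rw [hD]; ring

noncomputable def Ps (D : P → P → ℝ) : V n →ₗ[ℝ] V n where
  toFun z := rz (ps b β z D)
  map_add' z w := by simp [ps, add_smul, Finset.sum_add_distrib]
  map_smul' a z := by simp [ps, Finset.smul_sum, smul_smul]

noncomputable def rho (i : P) : (P → P → ℝ) →ₗ[ℝ] V n := rz ∘ₗ (ph b β i - ps b β (x i))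

noncomputable def QQ (O : P → P → ℝ) (v : P → V n) : ℝ := ∑ i, ∑ j, O i j * ⟪v i, v j⟫

theorem Q_lin {O : P → P → ℝ} (hs : ∀ i j, O i j = O j i) (he : ∀ i, ∑ j, O i j • x j = 0)
    (v : P → V n) : ∑ i, ∑ j, O i j * ⟪v i, x j⟫ = 0 ∧ ∑ i, ∑ j, O i j * ⟪x i, v j⟫ = 0 := by
  have h1 : ∑ i, ∑ j, O i j * ⟪v i, x j⟫ = 0 := by
    refine Finset.sum_eq_zero fun i _ => ?_
    have := congrArg (fun z => ⟪v i, z⟫) (he i)
    simpa [inner_sum, real_inner_smul_right] using this
  refine ⟨h1, ?_⟩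
  rw [Finset.sum_comm, ← h1]
  exact Finset.sum_congr rfl fun i _ => Finset.sum_congr rfl fun j _ => by
    rw [hs, real_inner_comm]

theorem Q_shift {O : P → P → ℝ} (hs : ∀ i j, O i j = O j i) (he : ∀ i, ∑ j, O i j • x j = 0)
    (v : P → V n) (A : V n →ₗ[ℝ] V n) : QQ O (fun i => v i + A (x i)) = QQ O v := by
  have he' : ∀ i, ∑ j, O i j • A (x j) = 0 := fun i => by
    have := congrArg A (he i)
    simpa [map_sum] using this
  have h1 := (Q_lin (fun i => A (x i)) hs he' (fun i => v i + A (x i))).1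
  have h2 := (Q_lin (fun i => A (x i)) hs he' v).2
  simp only [QQ]
  rw [← sub_eq_zero, ← add_zero (0:ℝ)]
  nth_rewrite 1 [← h1]
  nth_rewrite 1 [← h2]
  simp only [← Finset.sum_add_distrib, ← Finset.sum_sub_distrib]
  refine Finset.sum_congr rfl fun i _ => Finset.sum_congr rfl fun j _ => ?_
  simp only [inner_add_left, inner_add_right]
  ring

def Kc (O : P → P → ℝ) : Set (P → P → ℝ) :=
  {D | (∀ i j, D i j = D j i) ∧ (∀ i, D i i = 0) ∧ ∀ i j, O i j ≠ 0 → D i j ≤ 0}

/-- second order condition -/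
def SO (O : P → P → ℝ) : Prop :=
  ∀ v : P → V n, (∀ i, ⟪x i, v i⟫ = 0) → (∀ i j, O i j ≠ 0 → ⟪x i, v j⟫ + ⟪x j, v i⟫ = 0) →
    QQ O v ≤ 0 → ∀ i j, ⟪x i, v j⟫ + ⟪x j, v i⟫ = 0

omit [Fintype P] in
theorem OD_le {O : P → P → ℝ} (hp : ∀ i j, i ≠ j → 0 ≤ O i j) {D : P → P → ℝ} (hD : D ∈ Kc O)
    (i j : P) : O i j * D i j ≤ 0 := by
  by_cases h : i = j
  · rw [h, hD.2.1, mul_zero]
  by_cases h0 : O i j = 0
  · rw [h0, zero_mul]
  · exact mul_nonpos_of_nonneg_of_nonpos (hp i j h) (hD.2.2 i j h0)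

theorem ker0 {O : P → P → ℝ} (hs : ∀ i j, O i j = O j i) (he : ∀ i, ∑ j, O i j • x j = 0)
    (hp : ∀ i j, i ≠ j → 0 ≤ O i j) (hI : SO x O) (D : P → P → ℝ) (hD : D ∈ Kc O)
    (h0 : LD b β x D = 0) (hq : QQ O (fun i => rho b β x i D) ≤ 0) : D = 0 := by
  let v : P → V n := fun i => rho b β x i D + ((1 / 2 : ℝ) • Ps b β D) (x i)
  have key : ∀ i j, ⟪x i, v j⟫ + ⟪x j, v i⟫ = D i j := by
    intro i j
    have e := congrFun (congrFun h0 i) j
    rw [LD_apply] at e
    rw [real_inner_comm, real_inner_comm (v i)]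
    simp only [v, rho, Ps, inner_add_left, LinearMap.smul_apply, real_inner_smul_left,
      LinearMap.comp_apply, LinearMap.coe_mk, AddHom.coe_mk, rz_in, LinearMap.sub_apply]
    rw [ps_symm b β D hD.1 (x j) (x i)]
    simp only [Pi.zero_apply] at e
    linarith
  have z : ∑ i, ∑ j, O i j * D i j = 0 := by
    obtain ⟨h1, h2⟩ := Q_lin x hs he v
    rw [← add_zero (0:ℝ)]
    nth_rewrite 1 [← h1]
    nth_rewrite 1 [← h2]
    simp only [← Finset.sum_add_distrib]
    refine Finset.sum_congr rfl fun i _ => Finset.sum_congr rfl fun j _ => ?_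
    rw [← key, real_inner_comm (x j)]; ring
  rw [Finset.sum_eq_zero_iff_of_nonpos fun i _ => Finset.sum_nonpos fun j _ => OD_le hp hD i j] at z
  funext i j
  rw [← key]
  refine hI v (fun i => ?_) (fun i j h => ?_) (by rwa [Q_shift x hs he]) i j
  · have := key i i
    rw [hD.2.1] at this
    linarith
  · have := (Finset.sum_eq_zero_iff_of_nonpos fun j _ => OD_le hp hD i j).1
      (z i (Finset.mem_univ i)) j (Finset.mem_univ j)
    rw [key]
    exact (mul_eq_zero.1 this).resolve_left h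

noncomputable def gd (y : P → V n) : P → P → ℝ := fun i j => ⟪y i, y j⟫ - ⟪x i, x j⟫

noncomputable def U (y : P → V n) : V n →ₗ[ℝ] V n := b.constr ℝ fun l => y (β l)

omit [Fintype P] in
theorem U_apply (y : P → V n) (z : V n) : U b β y z = ∑ l, b.repr z l • y (β l) := by
  simp [U, Basis.constr_apply_fintype]

omit [Fintype P] in
theorem in1 (hβ : ∀ l, x (β l) = b l) (y : P → V n) (i : P) (z : V n) :
    ⟪y i, U b β y z⟫ = ⟪x i, z⟫ + ph b β i (gd x y) z := by
  have e : ⟪x i, z⟫ = ∑ l, b.repr z l * ⟪x i, x (β l)⟫ := by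
    conv_lhs => rw [← b.sum_repr z]
    simp only [inner_sum, real_inner_smul_right, hβ]
  rw [U_apply, ph_apply, e, inner_sum, ← Finset.sum_add_distrib]
  exact Finset.sum_congr rfl fun l _ => by rw [real_inner_smul_right, gd]; ring

omit [Fintype P] in
theorem in2 (hβ : ∀ l, x (β l) = b l) (y : P → V n) (z w : V n) :
    ⟪U b β y z, U b β y w⟫ = ⟪z, w⟫ + ps b β z (gd x y) w := by
  have e : ⟪z, w⟫ = ∑ l, b.repr z l * ⟪x (β l), w⟫ := by
    conv_lhs => rw [← b.sum_repr z]
    simp only [sum_inner, real_inner_smul_left, hβ]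
  rw [U_apply b β y z, sum_inner, e, ps, LinearMap.sum_apply, LinearMap.sum_apply,
    ← Finset.sum_add_distrib]
  exact Finset.sum_congr rfl fun l _ => by
    rw [real_inner_smul_left, in1 b β x hβ]; simp; ring

omit [Fintype P] in
theorem in3 (hβ : ∀ l, x (β l) = b l) (y : P → V n) (i j : P) :
    ⟪y i - U b β y (x i), y j - U b β y (x j)⟫ = LD b β x (gd x y) i j := by
  rw [LD_apply, inner_sub_left, inner_sub_right, inner_sub_right, in1 b β x hβ, in2 b β x hβ,
    real_inner_comm (y j) (U b β y (x i)), in1 b β x hβ, real_inner_comm (x i) (x j), gd]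
  ring

omit [Fintype P] in
theorem in4 (hβ : ∀ l, x (β l) = b l) (y : P → V n) (i : P) (z : V n) :
    ⟪y i - U b β y (x i), U b β y z⟫ = ⟪rho b β x i (gd x y), z⟫ := by
  rw [inner_sub_left, in1 b β x hβ, in2 b β x hβ, rho, LinearMap.comp_apply, rz_in]
  simp

omit [Fintype P] in
theorem gd0 (hβ : ∀ l, x (β l) = b l) (y : P → V n) (h0 : gd x y = 0) :
    ∃ g : V n ≃ₗᵢ[ℝ] V n, ∀ i, y i = g (x i) := by
  have e : ∀ z w, ⟪U b β y z, U b β y w⟫ = ⟪z, w⟫ := fun z w => by
    rw [in2 b β x hβ, h0]; simp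
  refine ⟨((U b β y).isometryOfInner e).toLinearIsometryEquiv rfl, fun i => ?_⟩
  have := in3 b β x hβ y i i
  rw [h0, map_zero, real_inner_self_eq_norm_sq] at this
  have h2 : ‖y i - U b β y (x i)‖ = 0 := by simpa using this
  rw [norm_eq_zero, sub_eq_zero] at h2
  simpa using h2

omit [Fintype P] in
theorem rr (hβ : ∀ l, x (β l) = b l) {a ε : ℝ} (hε : 0 ≤ ε)
    (ha : ∀ z, ∑ l, |b.repr z l| ≤ a * ‖z‖) (y : P → V n) (hy : ∀ i, ‖y i - x i‖ ≤ ε) (i : P) :
    ‖rho b β x i (gd x y) - (y i - U b β y (x i))‖ ≤ a * ε * ‖y i - U b β y (x i)‖ := by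
  have hU : ∀ z, ‖U b β y z - z‖ ≤ a * ε * ‖z‖ := by
    intro z
    have e : U b β y z - z = ∑ l, b.repr z l • (y (β l) - x (β l)) := by
      rw [U_apply]
      simp only [smul_sub, Finset.sum_sub_distrib, hβ, b.sum_repr]
    rw [e]
    refine (norm_sum_le _ _).trans ?_
    refine le_trans (Finset.sum_le_sum fun l _ => (norm_smul_le _ _).trans
      (mul_le_mul_of_nonneg_left (hy (β l)) (norm_nonneg _))) ?_
    rw [← Finset.sum_mul]
    have := mul_le_mul_of_nonneg_right (ha z) hε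
    simp only [Real.norm_eq_abs]
    linarith
  set r := y i - U b β y (x i) with hr
  set w := rho b β x i (gd x y) - r with hw
  have e : ⟪w, w⟫ = ⟪r, U b β y w - w⟫ := by
    rw [inner_sub_right r, in4 b β x hβ y i w, ← inner_sub_left]
  have h1 := real_inner_le_norm r (U b β y w - w)
  have h2 := mul_le_mul_of_nonneg_left (hU w) (norm_nonneg r)
  rw [← e, real_inner_self_eq_norm_sq] at h1
  rcases (norm_nonneg w).eq_or_lt with h | h
  · have := (norm_nonneg _).trans (hU r)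
    rw [← h]; exact this
  · nlinarith

omit [Fintype ι] in
theorem jam2 (hsp : ⊤ ≤ Submodule.span ℝ (range x)) (h1 : ∀ i, ‖x i‖ = 1) {O : P → P → ℝ}
    (hs : ∀ i j, O i j = O j i) (he : ∀ i, ∑ j, O i j • x j = 0)
    (hp : ∀ i j, i ≠ j → 0 ≤ O i j) (hI : SO x O) :
    ∃ ε : ℝ, 0 < ε ∧ ∀ y : P → V n, (∀ i, ‖y i‖ = 1) → (∀ i, ‖y i - x i‖ ≤ ε) →
      (∀ i j, i ≠ j → O i j ≠ 0 → ⟪y i, y j⟫ ≤ ⟪x i, x j⟫) →
      ∃ g : V n ≃ₗᵢ[ℝ] V n, ∀ i, y i = g (x i) := by
  classical
  let b0 := Basis.ofSpan hsp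
  have : Fintype _ := FiniteDimensional.fintypeBasisIndex b0
  let b := b0.reindex (Fintype.equivFin _)
  have hb : ∀ l, ∃ i, x i = b l := fun l => by
    simp only [b, Basis.reindex_apply]
    exact Basis.ofSpan_subset hsp ⟨_, rfl⟩
  choose β hβ using hb
  obtain ⟨a, ha0, ha⟩ : ∃ a : ℝ, 0 < a ∧ ∀ z, ∑ l, |b.repr z l| ≤ a * ‖z‖ := by
    refine ⟨1 + ∑ l, ‖LinearMap.toContinuousLinearMap (b.coord l)‖, by positivity, fun z => ?_⟩
    rw [add_mul, Finset.sum_mul]
    refine le_trans (Finset.sum_le_sum fun l _ => ?_) (le_add_of_nonneg_left (by positivity))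
    exact (LinearMap.toContinuousLinearMap (b.coord l)).le_opNorm z
  obtain ⟨C, hC0, hC⟩ : ∃ C : ℝ, 0 < C ∧ ∀ i D, ‖rho b β x i D‖ ≤ C * ‖D‖ := by
    refine ⟨1 + ∑ i, ‖LinearMap.toContinuousLinearMap (rho b β x i)‖, by positivity, fun i D => ?_⟩
    refine ((LinearMap.toContinuousLinearMap (rho b β x i)).le_opNorm D).trans
      (mul_le_mul_of_nonneg_right ?_ (norm_nonneg D))
    have := Finset.single_le_sum (f := fun i => ‖LinearMap.toContinuousLinearMap (rho b β x i)‖)
      (fun _ _ => norm_nonneg _) (Finset.mem_univ i)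
    linarith
  have hcl : IsClosed (Kc O) := by
    simp only [Kc, Set.ofPred_and, Set.ofPred_forall]
    refine (isClosed_iInter fun x => isClosed_iInter fun y => isClosed_eq (by fun_prop)
      (by fun_prop)).inter ((isClosed_iInter fun x => isClosed_eq (by fun_prop)
      (by fun_prop)).inter (isClosed_iInter fun x => isClosed_iInter fun y =>
      isClosed_iInter fun _ => isClosed_le (by fun_prop) (by fun_prop)))
  obtain ⟨k, hk0, hk⟩ := cone2 (Kc O) hcl (fun s hs D hD => ⟨fun x y => by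
      simp [hD.1 x y], fun x => by simp [hD.2.1 x], fun x y h => by
      simpa using mul_nonpos_of_nonneg_of_nonpos hs (hD.2.2 x y h)⟩) (LD b β x)
    (fun D => QQ O (fun i => rho b β x i D))
    (by
      have := fun i => LinearMap.continuous_of_finiteDimensional (rho b β x i)
      unfold QQ
      fun_prop)
    (fun s D => by
      simp only [QQ, map_smul, real_inner_smul_left, real_inner_smul_right, Finset.mul_sum]
      exact Finset.sum_congr rfl fun i _ => Finset.sum_congr rfl fun j _ => by ring)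
    (fun D hD => ker0 b β x hs he hp hI D hD)
  set S := 1 + ∑ i, ∑ j, |O i j| with hS
  have hS0 : 0 < S := by positivity
  refine ⟨min (1 / (2 * a)) (min (k / (16 * (C * C))) (k / (32 * a * S * (C * C)))),
    by positivity, fun y hn hy hle => gd0 b β x hβ y ?_⟩
  set ε := min (1 / (2 * a)) (min (k / (16 * (C * C))) (k / (32 * a * S * (C * C)))) with hε
  have e0 : 0 < ε := by positivity
  have e1 : ε ≤ 1 / (2 * a) := min_le_left _ _
  have e2 : ε ≤ k / (16 * (C * C)) := (min_le_right _ _).trans (min_le_left _ _)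
  have e3 : ε ≤ k / (32 * a * S * (C * C)) := (min_le_right _ _).trans (min_le_right _ _)
  rw [le_div_iff₀ (by positivity)] at e1 e2 e3
  set D := gd x y with hD
  have hK : D ∈ Kc O := by
    have dg : ∀ i, D i i = 0 := fun i => by
      simp only [hD, gd, real_inner_self_eq_norm_sq, hn i, h1 i, sub_self]
    refine ⟨fun i j => ?_, dg, fun i j h => ?_⟩
    · simp only [hD, gd]
      rw [real_inner_comm (y i), real_inner_comm (x i)]
    · by_cases hij : i = j
      · rw [hij, dg]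
      · exact sub_nonpos.2 (hle i j hij h)
  have hD0 := norm_nonneg D
  have hDe : ‖D‖ ≤ 2 * ε := by
    refine (pi_norm_le_iff_of_nonneg (by positivity)).2 fun i =>
      (pi_norm_le_iff_of_nonneg (by positivity)).2 fun j => ?_
    have : D i j = ⟪y i - x i, y j⟫ + ⟪x i, y j - x j⟫ := by
      simp only [hD, gd, inner_sub_left, inner_sub_right]; ring
    rw [this]
    refine (norm_add_le _ _).trans ?_
    have t1 := norm_inner_le_norm (𝕜 := ℝ) (y i - x i) (y j)
    have t2 := norm_inner_le_norm (𝕜 := ℝ) (x i) (y j - x j)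
    rw [hn j] at t1
    rw [h1 i] at t2
    linarith [hy i, hy j]
  let r : P → V n := fun i => y i - U b β y (x i)
  have r1 : ∀ i, ‖rho b β x i D - r i‖ ≤ a * ε * ‖r i‖ := rr b β x hβ e0.le ha y hy
  have r2 : ∀ i, ‖r i‖ ≤ 2 * C * ‖D‖ := fun i => by
    have t1 := norm_sub_le (rho b β x i D) (rho b β x i D - r i)
    rw [sub_sub_cancel] at t1
    have t2 := hC i D
    have t3 := r1 i
    have t4 : a * ε * ‖r i‖ ≤ 1 / 2 * ‖r i‖ :=
      mul_le_mul_of_nonneg_right (by linarith) (norm_nonneg _)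
    linarith
  have r3 : ∀ i, ‖rho b β x i D - r i‖ ≤ a * ε * (2 * C * ‖D‖) := fun i =>
    (r1 i).trans (mul_le_mul_of_nonneg_left (r2 i) (by positivity))
  by_contra hne
  have hpos : 0 < ‖D‖ := norm_pos_iff.2 hne
  rcases hk D hK with h | h
  · have hL : ‖LD b β x D‖ ≤ 2 * C * ‖D‖ * (2 * C * ‖D‖) := by
      refine (pi_norm_le_iff_of_nonneg (by positivity)).2 fun i =>
        (pi_norm_le_iff_of_nonneg (by positivity)).2 fun j => ?_
      rw [hD, ← in3 b β x hβ]
      exact (norm_inner_le_norm _ _).trans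
        (mul_le_mul (r2 i) (r2 j) (norm_nonneg _) (by positivity))
    have t1 := h.trans hL
    have t2 : k ≤ 4 * (C * C) * ‖D‖ := le_of_mul_le_mul_right (by linarith) hpos
    have t3 := mul_le_mul_of_nonneg_left hDe (show 0 ≤ 4 * (C * C) by positivity)
    linarith
  · have q1 : QQ O r ≤ 0 := by
      have t1 := Q_shift x hs he r (U b β y)
      have t2 := (Q_lin x hs he x).1
      have t3 : QQ O (fun i => r i + U b β y (x i)) = ∑ i, ∑ j, O i j * D i j := by
        rw [← add_zero (∑ i, ∑ j, O i j * D i j), ← t2, ← Finset.sum_add_distrib]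
        refine Finset.sum_congr rfl fun i _ => ?_
        rw [← Finset.sum_add_distrib]
        refine Finset.sum_congr rfl fun j _ => ?_
        simp only [r, hD, gd, sub_add_cancel]; ring
      rw [← t1, t3]
      exact Finset.sum_nonpos fun i _ => Finset.sum_nonpos fun j _ => OD_le hp hK i j
    have q2 : QQ O (fun i => rho b β x i D) - QQ O r ≤
        (∑ i, ∑ j, |O i j|) * (a * ε * (6 * (C * C) * (‖D‖ * ‖D‖))) := by
      simp only [QQ, ← Finset.sum_sub_distrib, Finset.sum_mul]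
      refine Finset.sum_le_sum fun i _ => Finset.sum_le_sum fun j _ => ?_
      rw [← mul_sub]
      refine (le_abs_self _).trans ?_
      rw [abs_mul]
      refine mul_le_mul_of_nonneg_left ?_ (abs_nonneg _)
      have : ⟪rho b β x i D, rho b β x j D⟫ - ⟪r i, r j⟫ =
          ⟪rho b β x i D - r i, rho b β x j D⟫ + ⟪r i, rho b β x j D - r j⟫ := by
        simp only [inner_sub_left, inner_sub_right]; ring
      rw [this]
      refine (abs_add_le _ _).trans ?_
      have t1 := (abs_real_inner_le_norm (rho b β x i D - r i) (rho b β x j D)).trans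
        (mul_le_mul (r3 i) (hC j D) (norm_nonneg _) (by positivity))
      have t2 := (abs_real_inner_le_norm (r i) (rho b β x j D - r j)).trans
        (mul_le_mul (r2 i) (r3 j) (norm_nonneg _) (by positivity))
      linarith
    have q3 : (∑ i, ∑ j, |O i j|) * (a * ε * (6 * (C * C) * (‖D‖ * ‖D‖))) ≤
        S * (a * ε * (6 * (C * C) * (‖D‖ * ‖D‖))) :=
      mul_le_mul_of_nonneg_right (by linarith) (by positivity)
    have t2 : k ≤ 6 * (ε * (a * S * (C * C))) :=
      le_of_mul_le_mul_right (by linarith) (mul_pos hpos hpos)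
    linarith

end Pool.Agent.H10.Jam2
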