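import Pool.Agent.H10.JD3
import Pool.Agent.H10.Jam5

set_option autoImplicit false
set_option maxRecDepth 100000
open Set Module
open scoped RealInnerProductSpace

namespace Pool.Agent.H10.JD
open Pool.Agent.H10.NK Pool.Agent.H10.Jam2

def sv (a : ℕ) : ℤ := W 42 (c2.getD a 0) 179

theorem len1 : c1.length = 178 := by decide +kernel
theorem len2 : c2.length = 96 := by decide +kernel
theorem len3 : c3.length = 6 := by decide +kernel
theorem szT : ∀ a : Fin 178, sz (T a) ≤ 28 ∧ (bilZ (T a) Z Z).natAbs ≤ 2 ^ 87 := by decide +kernel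
theorem szT2 : ∀ a : Fin 96, sz (T2 a) ≤ 29 := by decide +kernel
theorem szS : ∀ a : Fin 6, sz (TS a) ≤ 16 := by decide +kernel
theorem Z01 : Z 0 = 2 ^ 80 ∧ Z 1 = 0 ∧ Z 179 ≤ 2 ^ 79 := by decide +kernel
theorem eid_symm : ∀ i j : Fin 16, eid i j = eid j i := by decide +kernel
theorem eid_ed : ∀ i j : Fin 16, (eid i j = 1 ∧ i ≠ j ∧ sz (TP i j 179) ≤ 7 ∧
      bilZ (TP i j 179) Z Z ≤ -2 ^ 150) ∨
    ∃ e : Fin 81, ((pe e = i ∧ qe e = j) ∨ (pe e = j ∧ qe e = i)) ∧
      ((i = j ∧ e.val < 16) ∨ (i ≠ j ∧ 16 ≤ e.val ∧ 2 ^ 70 ≤ Z (eid i j))) := by decide +kernel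
theorem pq_lt : ∀ e : Fin 81, pe e < 16 ∧ qe e < 16 := by decide +kernel
theorem pq16 : pe 16 ≠ qe 16 := by decide +kernel
theorem Q0 : 2 ^ 164 ≤ ∑ i : Fin 16, ∑ j : Fin 16, ∑ k : Fin 6,
    Z (eid i j) * sv (6 * i + k) * sv (6 * j + k) := by decide +kernel

noncomputable def z0 (j : ℕ) : ℝ := Z j / 2 ^ 80

theorem z0_bd (j : ℕ) : |z0 j| ≤ 8 := by
  have h : |((Z j : ℤ) : ℝ)| ≤ 2 ^ 83 := by exact_mod_cast dec_bd 84 zN j (by norm_num)
  rw [z0, abs_div, div_le_iff₀ (by positivity), abs_of_pos (by positivity : (0:ℝ) < 2 ^ 80)]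
  linarith

theorem Wr (w c j : ℕ) (q : ℕ) (hw : 0 < w) : |((W w c j : ℤ) : ℝ) / 2 ^ q| ≤ 2 ^ (w - 1) / 2 ^ q := by
  have h : |((W w c j : ℤ) : ℝ)| ≤ 2 ^ (w - 1) := by exact_mod_cast W_bd w c j hw
  rw [abs_div, abs_of_pos (by positivity : (0:ℝ) < 2 ^ q)]
  exact div_le_div_of_nonneg_right h (by positivity)

structure Sol (z : ℕ → ℝ) : Prop where
  nr : ∀ j, |z j - z0 j| ≤ 1 / 2 ^ 57
  h0 : z 0 = 1
  h1 : z 1 = 0
  eq : ∀ a < 178, bil (T a) z z = 0

theorem exSol : ∃ z, Sol z := by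
  obtain ⟨u, hu, he⟩ := newton (ι := Fin 178) (fun a => T a) z0
    (fun j k => (W 32 (c1.getD k 0) j : ℝ) / 2 ^ 24) (1 / 2 ^ 20) 128 28 (1 / 2 ^ 72)
    (by positivity) (by positivity) (by positivity)
    (fun a k => by
      have h := ent 32 (2 ^ 104) (2 ^ 84) 178 _ L1 e1 c1 k1 a k a.2 (by rw [len1]; exact k.2)
      rw [val_cp1] at h
      have h' : |(if a = k then (2:ℝ) ^ 104 else 0) - ((bilZ (T a) Z (W 32 (c1.getD k 0)) : ℝ) +
          bilZ (T a) (W 32 (c1.getD k 0)) Z)| ≤ 2 ^ 84 := by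
        simp only [Fin.ext_iff]
        exact_mod_cast h
      unfold z0
      rw [bil_cast, bil_cast, abs_le] at *
      split_ifs at h' ⊢ <;> constructor <;> linarith [h'.1, h'.2])
    (fun j k => (Wr 32 _ j 24 (by norm_num)).trans (by norm_num))
    (fun a => by exact_mod_cast (szT a).1)
    (fun a => by
      have h := (szT a).2
      have h' : |(bilZ (T a) Z Z : ℝ)| ≤ 2 ^ 87 := by
        rw [← Int.cast_abs, ← Int.natCast_natAbs]; exact_mod_cast h
      unfold z0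
      rw [bil_cast, abs_le] at *
      constructor <;> linarith [h'.1, h'.2])
    (by simp; norm_num)
  refine ⟨_, fun j => ?_, ?_, ?_, fun a ha => he ⟨a, ha⟩⟩
  · rw [add_sub_cancel_left]
    refine (hu j).trans ?_
    simp; norm_num
  · simp [W, z0, Z01.1]; norm_num
  · simp [W, z0, Z01.2.1]

variable {z : ℕ → ℝ}

noncomputable def X (z : ℕ → ℝ) (i : ℕ) : V 6 := WithLp.toLp 2 fun k : Fin 6 => z (xi i k)

noncomputable def sk (w : ℕ → ℝ) : V 6 →ₗ[ℝ] V 6 where
  toFun y := WithLp.toLp 2 fun k : Fin 6 => ∑ l : Fin 6, (w (ai l k) - w (ai k l)) * y l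
  map_add' y y' := by ext k; simp [mul_add, Finset.sum_add_distrib]
  map_smul' a y := by ext k; simp [Finset.mul_sum, mul_left_comm]

theorem inn (a b : V 6) : ⟪a, b⟫ = ∑ k, a k * b k := by
  simp [PiLp.inner_apply, mul_comm]

theorem sk_skew (w : ℕ → ℝ) (a b : V 6) : ⟪sk w a, b⟫ = -⟪a, sk w b⟫ := by
  simp only [inn, sk, LinearMap.coe_mk, AddHom.coe_mk, Finset.mul_sum, Finset.sum_mul]
  rw [Finset.sum_comm, ← Finset.sum_neg_distrib]
  refine Finset.sum_congr rfl fun k _ => ?_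
  rw [← Finset.sum_neg_distrib]
  exact Finset.sum_congr rfl fun l _ => by ring

theorem TE_eq (w : ℕ → ℝ) (i : ℕ) (k : Fin 6) :
    bil (TE i k) w z = (∑ j : Fin 16, w (eid i j) • X z j + sk w (X z i)) k := by
  simp only [TE, bil_append, bil_range, sk, X, sub_mul, Finset.sum_sub_distrib]
  simp [Finset.sum_apply]
  ring

theorem TP_eq (i j c : ℕ) : bil (TP i j c) z z = ⟪X z i, X z j⟫ - z c * z 0 := by
  simp only [TP, bil_append, bil_range, inn, X]
  simp
  ring

theorem T_lo (i : Fin 16) (k : Fin 6) : T (6 * i + k) = TE i k := by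
  have := i.2
  have := k.2
  rw [T, if_pos (by omega), show (6 * i.val + k.val) / 6 = i.val by omega,
    show (6 * i.val + k.val) % 6 = k.val by omega]

theorem gram (h : Sol z) (e : Fin 81) :
    ⟪X z (pe e), X z (qe e)⟫ = if e.val < 16 then 1 else z 179 := by
  have := e.2
  have h1 := h.eq (96 + e) (by omega)
  rw [T, if_neg (by omega), if_pos (by omega), Nat.add_sub_cancel_left, TP_eq, h.h0] at h1
  by_cases he : e.val < 16
  · rw [if_pos (by omega), h.h0] at h1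
    rw [if_pos he]; linarith
  · rw [if_neg (by omega)] at h1
    rw [if_neg he]; linarith

theorem cases (h : Sol z) (i j : Fin 16) :
    (eid i j = 1 ∧ i ≠ j ∧ ⟪X z i, X z j⟫ < z 179) ∨ (i = j ∧ ⟪X z i, X z j⟫ = 1) ∨
      (i ≠ j ∧ 0 < z (eid i j) ∧ ⟪X z i, X z j⟫ = z 179) := by
  rcases eid_ed i j with ⟨h1, h2, h3, h4⟩ | ⟨e, h1, h2⟩
  · refine Or.inl ⟨h1, h2, ?_⟩
    have a := (abs_le.1 (bil_near (TP i j 179) h.nr z0_bd)).2
    have b : (sz (TP i j 179) : ℝ) ≤ 7 := by exact_mod_cast h3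
    have c : (bilZ (TP i j 179) Z Z : ℝ) ≤ -2 ^ 150 := by exact_mod_cast h4
    rw [TP_eq, h.h0] at a
    unfold z0 at a
    rw [bil_cast] at a
    nlinarith
  · have g : ⟪X z i, X z j⟫ = if e.val < 16 then 1 else z 179 := by
      rw [← gram h e]
      rcases h1 with ⟨a, b⟩ | ⟨a, b⟩
      · rw [a, b]
      · rw [a, b, real_inner_comm]
    right
    rcases h2 with ⟨a, b⟩ | ⟨a, b, c⟩
    · exact Or.inl ⟨a, by rw [g, if_pos b]⟩
    · refine Or.inr ⟨a, ?_, by rw [g, if_neg (by omega)]⟩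
      have d := (abs_le.1 (h.nr (eid i j))).1
      have c' : (2:ℝ) ^ 70 ≤ Z (eid i j) := by exact_mod_cast c
      unfold z0 at d
      linarith

theorem c_lt (h : Sol z) : z 179 < 1 := by
  have d := (abs_le.1 (h.nr 179)).2
  have c' : (Z 179 : ℝ) ≤ 2 ^ 79 := by exact_mod_cast Z01.2.2
  unfold z0 at d
  linarith

theorem sym0 (w : ℕ → ℝ) (f : Fin 16 → Fin 16 → ℝ)
    (h : ∀ i j : Fin 16, w (eid i j) * (f i j + f j i) = 0) :
    ∑ i : Fin 16, ∑ j : Fin 16, w (eid i j) * f i j = 0 := by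
  have e : ∑ i : Fin 16, ∑ j : Fin 16, w (eid i j) * f i j =
      ∑ i : Fin 16, ∑ j : Fin 16, w (eid i j) * f j i := by
    rw [Finset.sum_comm]
    exact Finset.sum_congr rfl fun i _ => Finset.sum_congr rfl fun j _ => by rw [eid_symm]
  have e2 : ∑ i : Fin 16, ∑ j : Fin 16, w (eid i j) * f i j +
      ∑ i : Fin 16, ∑ j : Fin 16, w (eid i j) * f j i = 0 := by
    simp only [← Finset.sum_add_distrib, ← mul_add, h, Finset.sum_const_zero]
  linarith

theorem equil (h : Sol z) (i : Fin 16) : ∑ j : Fin 16, z (eid i j) • X z j = 0 := by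
  have e : ∀ i : Fin 16, ∑ j : Fin 16, z (eid i j) • X z j + sk z (X z i) = 0 := fun i => by
    ext k
    have := i.2
    have := k.2
    rw [← TE_eq, ← T_lo]
    exact h.eq _ (by omega)
  have e1 := sym0 z (fun i j => ⟪sk z (X z i), X z j⟫) fun i j => by
    rw [sk_skew, real_inner_comm, neg_add_cancel, mul_zero]
  have e2 : ∑ i : Fin 16, ⟪sk z (X z i), sk z (X z i)⟫ = 0 := by
    rw [← neg_eq_zero, ← e1, ← Finset.sum_neg_distrib]
    refine Finset.sum_congr rfl fun i _ => ?_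
    have := congrArg (fun y => ⟪sk z (X z i), y⟫) (e i)
    simp only [inner_add_right, inner_sum, real_inner_smul_right, inner_zero_right] at this
    linarith
  have e3 := (Finset.sum_eq_zero_iff_of_nonneg fun i _ => real_inner_self_nonneg).1 e2 i
    (Finset.mem_univ i)
  have := e i
  rwa [inner_self_eq_zero.1 e3, add_zero] at this

theorem pert (h : Sol z) (t : Tm) (c : ℕ) (w q : ℕ) (hw : 0 < w) (hb : (2:ℝ) ^ (w - 1) / 2 ^ q ≤ 2)
    (ht : sz t ≤ 32) : |bil t (fun j => (W w c j : ℝ) / 2 ^ q) z -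
      bilZ t (W w c) Z / (2 ^ q * 2 ^ 80)| ≤ 1 / 2 ^ 51 := by
  have e : bil t (fun j => (W w c j : ℝ) / 2 ^ q) z = bil t (fun j => (W w c j : ℝ) / 2 ^ q) z0 +
      bil t (fun j => (W w c j : ℝ) / 2 ^ q) (fun j => z j - z0 j) := by
    rw [← bil_addr]; congr 1; funext j; ring
  have b := bil_bd t (fun j => (Wr w c j q hw).trans hb) h.nr
  have ht' : (sz t : ℝ) ≤ 32 := by exact_mod_cast ht
  rw [e, ← bil_cast]
  unfold z0
  rw [add_sub_cancel_left]
  unfold z0 at b
  nlinarith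

theorem span_top (h : Sol z) : ⊤ ≤ Submodule.span ℝ (range fun i : Fin 16 => X z i) := by
  rw [top_le_iff, ← Submodule.orthogonal_eq_bot_iff, eq_bot_iff]
  intro y hy
  have hy' : ∀ i : Fin 16, ⟪X z i, y⟫ = 0 := fun i => hy _ (Submodule.subset_span ⟨i, rfl⟩)
  let g : Fin 6 → ℝ := fun k => y k
  have key : ∀ k, |g k| ≤ 1 / 2 * ‖g‖ := by
    intro k
    let w : ℕ → ℝ := fun j => (W 22 (c3.getD k 0) j : ℝ) / 2 ^ 20
    have e1 : ∑ a : Fin 6, g a * bil (TS a) w z = 0 := by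
      simp only [TS, bil_range, Finset.mul_sum]
      rw [Finset.sum_comm]
      refine Finset.sum_eq_zero fun i _ => ?_
      have := congrArg (fun t => w (i + 2) * t) (hy' i)
      simp only [inn, Finset.mul_sum, mul_zero, X] at this
      rw [← this]
      exact Finset.sum_congr rfl fun a _ => by simp only [g]; push_cast; ring
    have e2 : g k = ∑ a : Fin 6, g a * ((if a = k then 1 else 0) - bil (TS a) w z) := by
      simp only [mul_sub, Finset.sum_sub_distrib, e1]; simp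
    rw [e2]
    refine (Finset.abs_sum_le_sum_abs _ _).trans ?_
    refine (Finset.sum_le_card_nsmul _ _ (‖g‖ * (1 / 12)) fun a _ => ?_).trans (le_of_eq ?_)
    · rw [abs_mul]
      refine mul_le_mul (norm_le_pi_norm g a) ?_ (abs_nonneg _) (norm_nonneg _)
      have h1 := ent 22 (2 ^ 100) (2 ^ 84) 6 _ L3 e3 c3 k3 a k a.2 (by rw [len3]; exact k.2)
      rw [val_cp2] at h1
      have h' : |(if a = k then (2:ℝ) ^ 100 else 0) - (bilZ (TS a) (W 22 (c3.getD k 0)) Z : ℝ)| ≤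
          2 ^ 84 := by
        simp only [Fin.ext_iff]
        exact_mod_cast h1
      have h2 : |bil (TS a) w z - _| ≤ _ := pert h (TS a) (c3.getD k 0) 22 20 (by norm_num) (by norm_num)
        ((szS a).trans (by norm_num))
      rw [abs_le] at *
      split_ifs at h' ⊢ <;> constructor <;> linarith [h'.1, h'.2, h2.1, h2.2]
    · simp; ring
  have : ‖g‖ ≤ 1 / 2 * ‖g‖ := (pi_norm_le_iff_of_nonneg (by positivity)).2 key
  have h0 : g = 0 := norm_le_zero_iff.1 (by linarith)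
  rw [Submodule.mem_bot]
  ext k
  exact congrFun h0 k

theorem flex0 (h : Sol z) (v : Fin 16 → V 6) (h1 : ∀ i : Fin 16, ⟪X z i, v i⟫ = 0)
    (h2 : ∀ i j : Fin 16, z (eid i j) ≠ 0 → ⟪X z i, v j⟫ + ⟪X z j, v i⟫ = 0)
    (h3 : ∀ w, ∑ i : Fin 16, ⟪v i, sk w (X z i)⟫ = 0)
    (h4 : QQ (fun i j : Fin 16 => z (eid i j)) v ≤ 0) : v = 0 := by
  let g : Fin 16 × Fin 6 → ℝ := fun p => v p.1 p.2
  let s : Fin 16 × Fin 6 → ℝ := fun p => (sv (6 * p.1 + p.2) : ℝ) / 2 ^ 40
  set τ := g (0, 5) with hτ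
  have sb : ∀ p, |s p| ≤ 2 := fun p => (Wr 42 _ 179 40 (by norm_num)).trans (by norm_num)
  have key : ∀ p, |g p - τ * s p| ≤ 1 / 2 ^ 30 * ‖g‖ := by
    intro p
    have p1 := p.1.2
    have p2 := p.2.2
    let w : ℕ → ℝ := fun j => (W 42 (c2.getD (6 * p.1 + p.2) 0) j : ℝ) / 2 ^ 40
    have e0 := sym0 w (fun i j => ⟪v i, X z j⟫) fun i j => by
      rcases cases h i j with ⟨a, _⟩ | ⟨a, _⟩ | ⟨_, a, _⟩
      · simp [a, w, W]
      · rw [a, real_inner_comm, h1, add_zero, mul_zero]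
      · rw [real_inner_comm, real_inner_comm (X z i), add_comm, h2 i j a.ne', mul_zero]
    have e1 : ∑ a : Fin 16 × Fin 6, g a * bil (TE a.1 a.2) w z = 0 := by
      rw [Fintype.sum_prod_type, ← add_zero (0:ℝ)]
      nth_rewrite 1 [← e0]
      rw [← h3 w, ← Finset.sum_add_distrib]
      refine Finset.sum_congr rfl fun i _ => ?_
      simp only [TE_eq, g]
      rw [← inn, inner_add_right, inner_sum]
      simp only [real_inner_smul_right]
    have e3 : ∀ a : Fin 16 × Fin 6, bil (T2 (6 * a.1 + a.2)) w z =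
        bil (TE a.1 a.2) w z + if a = (0, 5) then s p else 0 := by
      intro a
      have a1 := a.1.2
      have a2 := a.2.2
      rw [T2, bil_append, T_lo]
      by_cases ha : a = (0, 5)
      · subst ha
        simp [h.h0, w, s, sv]
      · rw [if_neg ha, if_neg (fun e => ha (Prod.ext (Fin.ext (by simp; omega))
          (Fin.ext (by simp; omega)))), bil_nil]
    have e2 : g p - τ * s p = ∑ a : Fin 16 × Fin 6,
        g a * ((if a = p then 1 else 0) - bil (T2 (6 * a.1 + a.2)) w z) := by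
      simp only [e3, mul_sub, mul_add, Finset.sum_sub_distrib, Finset.sum_add_distrib, e1]
      simp [hτ]
    rw [e2]
    refine (Finset.abs_sum_le_sum_abs _ _).trans ?_
    refine (Finset.sum_le_card_nsmul _ _ (‖g‖ * (1 / 2 ^ 37)) fun a _ => ?_).trans ?_
    · rw [abs_mul]
      refine mul_le_mul (norm_le_pi_norm g a) ?_ (abs_nonneg _) (norm_nonneg _)
      have a1 := a.1.2
      have a2 := a.2.2
      have k1 := ent 42 (2 ^ 120) (2 ^ 82) 96 _ L2 JD.e2 c2 k2 (6 * a.1 + a.2) (6 * p.1 + p.2)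
        (by omega) (by rw [len2]; omega)
      rw [val_cp2] at k1
      have ap : 6 * a.1.val + a.2.val = 6 * p.1 + p.2 ↔ a = p :=
        ⟨fun e => Prod.ext (Fin.ext (by omega)) (Fin.ext (by omega)), fun e => by rw [e]⟩
      have h' : |(if a = p then (2:ℝ) ^ 120 else 0) -
          (bilZ (T2 (6 * a.1 + a.2)) (W 42 (c2.getD (6 * p.1 + p.2) 0)) Z : ℝ)| ≤ 2 ^ 82 := by
        simp only [← ap]
        exact_mod_cast k1
      have k2 : |bil (T2 (6 * a.1 + a.2)) w z - _| ≤ _ := pert h (T2 (6 * a.1 + a.2)) (c2.getD (6 * p.1 + p.2) 0) 42 40 (by norm_num)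
        (by norm_num) ((szT2 ⟨6 * a.1 + a.2, by omega⟩).trans (by norm_num))
      rw [abs_le] at *
      split_ifs at h' ⊢ <;> constructor <;> linarith [h'.1, h'.2, k2.1, k2.2]
    · have := norm_nonneg g
      simp
      linarith
  have g0 := norm_nonneg g
  have t0 := abs_nonneg τ
  have gb : ‖g‖ ≤ 4 * |τ| := by
    have : ‖g‖ ≤ 2 * |τ| + 1 / 2 ^ 30 * ‖g‖ :=
      (pi_norm_le_iff_of_nonneg (by positivity)).2 fun p => by
        have a := abs_add_le (g p - τ * s p) (τ * s p)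
        rw [sub_add_cancel, abs_mul] at a
        have b := mul_le_mul_of_nonneg_left (sb p) t0
        rw [Real.norm_eq_abs]
        linarith [key p]
    linarith
  have term : ∀ (e : ℕ) (p q : Fin 16 × Fin 6),
      τ * τ * (z0 e * s p * s q) - 1 / 2 ^ 20 * (τ * τ) ≤ z e * (g p * g q) := by
    intro e p q
    have b1 : |g p| ≤ 4 * |τ| := (norm_le_pi_norm g p).trans gb
    have b2 : |g q| ≤ 4 * |τ| := (norm_le_pi_norm g q).trans gb
    have b3 : |g p - τ * s p| ≤ 1 / 2 ^ 28 * |τ| := by linarith [key p]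
    have b4 : |g q - τ * s q| ≤ 1 / 2 ^ 28 * |τ| := by linarith [key q]
    have b5 : |τ * s p| ≤ 2 * |τ| := by
      rw [abs_mul, mul_comm]; exact mul_le_mul_of_nonneg_right (sb p) t0
    have c1 : |(z e - z0 e) * (g p * g q)| ≤ 1 / 2 ^ 57 * (4 * |τ| * (4 * |τ|)) := by
      rw [abs_mul, abs_mul]
      exact mul_le_mul (h.nr e) (mul_le_mul b1 b2 (abs_nonneg _) (by positivity))
        (by positivity) (by positivity)
    have c2 : |z0 e * ((g p - τ * s p) * g q)| ≤ 8 * (1 / 2 ^ 28 * |τ| * (4 * |τ|)) := by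
      rw [abs_mul, abs_mul]
      exact mul_le_mul (z0_bd e) (mul_le_mul b3 b2 (abs_nonneg _) (by positivity))
        (by positivity) (by positivity)
    have c3 : |z0 e * ((τ * s p) * (g q - τ * s q))| ≤ 8 * (2 * |τ| * (1 / 2 ^ 28 * |τ|)) := by
      rw [abs_mul, abs_mul]
      exact mul_le_mul (z0_bd e) (mul_le_mul b5 b4 (abs_nonneg _) (by positivity))
        (by positivity) (by positivity)
    have c4 := abs_mul_abs_self τ
    have c5 := mul_self_nonneg τ
    linarith [(abs_le.1 c1).1, (abs_le.1 c2).1, (abs_le.1 c3).1]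
  have q0 : (16:ℝ) ≤ ∑ i : Fin 16, ∑ j : Fin 16, ∑ k : Fin 6,
      z0 (eid i j) * s (i, k) * s (j, k) := by
    have a : (2:ℝ) ^ 164 ≤ ∑ i : Fin 16, ∑ j : Fin 16, ∑ k : Fin 6,
        (Z (eid i j) : ℝ) * sv (6 * i + k) * sv (6 * j + k) := by exact_mod_cast Q0
    have b := div_le_div_of_nonneg_right a (by positivity : (0:ℝ) ≤ 2 ^ 160)
    simp only [Finset.sum_div] at b
    refine le_trans (by norm_num) (b.trans (le_of_eq ?_))
    refine Finset.sum_congr rfl fun i _ => Finset.sum_congr rfl fun j _ =>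
      Finset.sum_congr rfl fun k _ => ?_
    simp only [z0, s]; ring
  have q1 : ∑ i : Fin 16, ∑ j : Fin 16, ∑ k : Fin 6,
      (τ * τ * (z0 (eid i j) * s (i, k) * s (j, k)) - 1 / 2 ^ 20 * (τ * τ)) ≤
        QQ (fun i j : Fin 16 => z (eid i j)) v := by
    simp only [QQ, inn, Finset.mul_sum]
    exact Finset.sum_le_sum fun i _ => Finset.sum_le_sum fun j _ => Finset.sum_le_sum fun k _ =>
      term _ (i, k) (j, k)
  simp only [Finset.sum_sub_distrib, ← Finset.mul_sum, Finset.sum_const, Finset.card_univ,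
    Fintype.card_fin, nsmul_eq_mul] at q1
  have q2 := mul_le_mul_of_nonneg_left q0 (mul_self_nonneg τ)
  have q3 : τ * τ ≤ 0 := by push_cast at q1; linarith [mul_self_nonneg τ]
  have q4 : τ = 0 := mul_self_eq_zero.1 (le_antisymm q3 (mul_self_nonneg τ))
  rw [q4, abs_zero, mul_zero] at gb
  have g1 := norm_le_zero_iff.1 gb
  funext i
  ext k
  exact congrFun g1 (i, k)

end Pool.Agent.H10.JD
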