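import Pool.Agent.H10.JD4

set_option autoImplicit false
open Set Module
open scoped RealInnerProductSpace

namespace Pool.Agent.H10.JD
open Pool.Agent.H10.NK Pool.Agent.H10.Jam2

variable {z : ℕ → ℝ}

noncomputable def tr (z : ℕ → ℝ) : (ℕ → ℝ) →ₗ[ℝ] PiLp 2 (fun _ : Fin 16 => V 6) where
  toFun w := WithLp.toLp 2 fun i => sk w (X z i)
  map_add' w w' := by
    ext i k
    simp only [sk, LinearMap.coe_mk, AddHom.coe_mk, Pi.add_apply, PiLp.add_apply,
      ← Finset.sum_add_distrib]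
    exact Finset.sum_congr rfl fun l _ => by ring
  map_smul' a w := by
    ext i k
    simp only [sk, LinearMap.coe_mk, AddHom.coe_mk, Pi.smul_apply, PiLp.smul_apply, smul_eq_mul,
      RingHom.id_apply, Finset.mul_sum]
    exact Finset.sum_congr rfl fun l _ => by ring

theorem so (h : Sol z) : SO (fun i : Fin 16 => X z i) (fun i j : Fin 16 => z (eid i j)) := by
  intro v h1 h2 h4
  obtain ⟨_, ⟨w, rfl⟩, u, hu, e⟩ := (LinearMap.range (tr z)).exists_add_mem_mem_orthogonal
    (WithLp.toLp 2 v)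
  have ev : ∀ i, v i = u i + sk w (X z i) := fun i => by
    rw [add_comm]; exact congrArg (fun t : PiLp 2 (fun _ : Fin 16 => V 6) => t i) e
  have sk0 : ∀ i j : Fin 16, ⟪X z i, v j⟫ + ⟪X z j, v i⟫ = ⟪X z i, u j⟫ + ⟪X z j, u i⟫ := by
    intro i j
    rw [ev, ev, inner_add_right, inner_add_right, real_inner_comm (sk w (X z i)), sk_skew]
    ring
  have u0 : (fun i => u i) = 0 := by
    refine flex0 h _ (fun i => ?_) (fun i j hij => ?_) (fun w' => ?_) ?_
    · have := sk0 i i
      rw [h1 i] at this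
      linarith
    · rw [← sk0]; exact h2 i j hij
    · have := hu _ ⟨w', rfl⟩
      rw [real_inner_comm, PiLp.inner_apply] at this
      exact this
    · rw [← Q_shift (fun i : Fin 16 => X z i) (fun i j => by rw [eid_symm]) (equil h) _ (sk w)]
      simpa only [← ev] using h4
  intro i j
  rw [sk0, congrFun u0 i, congrFun u0 j]
  simp

abbrev Pr := {p : Fin 6 × Fin 6 // p.1 < p.2}

noncomputable def th (z : ℕ → ℝ) : (Fin 16 → V 6) →ₗ[ℝ] (Fin 81 → ℝ) × (Pr → ℝ) where
  toFun v := (fun e => ⟪X z (pe e), v ⟨qe e, (pq_lt e).2⟩⟫ + ⟪X z (qe e), v ⟨pe e, (pq_lt e).1⟩⟫,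
    fun p => ∑ i : Fin 16, (v i p.1.1 * X z i p.1.2 - v i p.1.2 * X z i p.1.1))
  map_add' v v' := by
    ext e
    · simp only [Pi.add_apply, inner_add_right, Prod.fst_add]; ring
    · simp only [Pi.add_apply, PiLp.add_apply, Prod.snd_add, ← Finset.sum_add_distrib]
      exact Finset.sum_congr rfl fun l _ => by ring
  map_smul' a v := by
    ext e
    · simp only [Pi.smul_apply, real_inner_smul_right, Prod.smul_fst, smul_eq_mul,
        RingHom.id_apply]; ring
    · simp only [Pi.smul_apply, PiLp.smul_apply, Prod.smul_snd, smul_eq_mul, RingHom.id_apply,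
        Finset.mul_sum]
      exact Finset.sum_congr rfl fun l _ => by ring

theorem notIJ (h : Sol z) : ¬ ∀ v : Fin 16 → V 6, (∀ i : Fin 16, ⟪X z i, v i⟫ = 0) →
    (∀ i j : Fin 16, i ≠ j → ⟪X z i, X z j⟫ = z 179 → ⟪X z i, v j⟫ + ⟪X z j, v i⟫ ≤ 0) →
    ∃ A : V 6 →ₗ[ℝ] V 6, (∀ u w, ⟪A u, w⟫ = -⟪u, A w⟫) ∧ ∀ i, v i = A (X z i) := by
  intro hI
  have key : ∀ v : Fin 16 → V 6, (∀ e : Fin 81, e.val < 16 → (th z v).1 e = 0) →
      (∀ e, (th z v).1 e ≤ 0) →
      ∃ A : V 6 →ₗ[ℝ] V 6, (∀ u w, ⟪A u, w⟫ = -⟪u, A w⟫) ∧ ∀ i, v i = A (X z i) := by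
    intro v h1 h2
    have ed : ∀ (i j : Fin 16) (e : Fin 81), (pe e = i ∧ qe e = j) ∨ (pe e = j ∧ qe e = i) →
        (th z v).1 e = ⟪X z i, v j⟫ + ⟪X z j, v i⟫ := by
      rintro i j e (⟨a, b⟩ | ⟨a, b⟩)
      · simp only [th, LinearMap.coe_mk, AddHom.coe_mk, a, b]
      · simp only [th, LinearMap.coe_mk, AddHom.coe_mk, a, b, add_comm]
    refine hI v (fun i => ?_) fun i j hij hc => ?_
    · rcases eid_ed i i with ⟨_, a, _⟩ | ⟨e, a, ⟨_, b⟩ | ⟨b, _⟩⟩
      · exact absurd rfl a
      · have := h1 e b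
        rw [ed i i e a] at this
        linarith
      · exact absurd rfl b
    · rcases eid_ed i j with ⟨a, _⟩ | ⟨e, a, _⟩
      · rcases cases h i j with ⟨_, _, b⟩ | ⟨b, _⟩ | ⟨_, b, _⟩
        · exact absurd hc b.ne
        · exact absurd b hij
        · rw [a, h.h1] at b; exact absurd b (lt_irrefl 0)
      · rw [← ed i j e a]; exact h2 e
  have inj : Function.Injective (th z) := by
    rw [injective_iff_map_eq_zero]
    intro v hv
    obtain ⟨A, hA, e⟩ := key v (fun e _ => by rw [hv]; rfl) (fun e => by rw [hv]; exact le_rfl)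
    let G : Fin 6 → Fin 6 → ℝ := fun k l => ∑ i : Fin 16, v i k * X z i l
    have Gs : ∀ k l, G k l = G l k := by
      have : ∀ k l, k < l → G k l = G l k := fun k l hkl => by
        have := congrFun (congrArg Prod.snd hv) ⟨(k, l), hkl⟩
        simp only [th, LinearMap.coe_mk, AddHom.coe_mk, Finset.sum_sub_distrib] at this
        exact sub_eq_zero.1 this
      intro k l
      rcases lt_trichotomy k l with a | a | a
      · exact this k l a
      · rw [a]
      · exact (this l k a).symm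
    let a : Fin 6 → Fin 6 → ℝ := fun k l => A (EuclideanSpace.single l 1) k
    have as : ∀ k l, a k l = -a l k := fun k l => by
      have := hA (EuclideanSpace.single l 1) (EuclideanSpace.single k 1)
      simpa [EuclideanSpace.inner_single_left, EuclideanSpace.inner_single_right] using this
    have Ax : ∀ (y : V 6) k, A y k = ∑ l, a k l * y l := fun y k => by
      conv_lhs => rw [← (EuclideanSpace.basisFun (Fin 6) ℝ).sum_repr y]
      simp [a, map_sum, mul_comm]
    have s1 : ∑ i, ⟪v i, v i⟫ = ∑ k, ∑ l, a k l * G k l := by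
      simp only [G, Finset.mul_sum]
      rw [Finset.sum_congr rfl fun k _ => Finset.sum_comm, Finset.sum_comm]
      refine Finset.sum_congr rfl fun i _ => ?_
      rw [inn]
      refine Finset.sum_congr rfl fun k _ => ?_
      nth_rewrite 2 [e i]
      rw [Ax, Finset.mul_sum]
      exact Finset.sum_congr rfl fun l _ => by ring
    have s2 : ∑ k, ∑ l, a k l * G k l = -∑ k, ∑ l, a k l * G k l := by
      conv_rhs => rw [Finset.sum_comm]
      simp only [← Finset.sum_neg_distrib]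
      exact Finset.sum_congr rfl fun k _ => Finset.sum_congr rfl fun l _ => by
        rw [as, Gs]; ring
    have s3 : ∑ i, ⟪v i, v i⟫ = 0 := by linarith
    funext i
    exact inner_self_eq_zero.1 ((Finset.sum_eq_zero_iff_of_nonneg
      fun i _ => real_inner_self_nonneg).1 s3 i (Finset.mem_univ i))
  have sur := (LinearMap.injective_iff_surjective_of_finrank_eq_finrank (by
    have : Fintype.card Pr = 15 := by decide
    simp [Module.finrank_pi_fintype, Module.finrank_prod, this])).1 inj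
  obtain ⟨v, hv⟩ := sur (fun e => if e.val < 16 then 0 else -1, 0)
  obtain ⟨A, hA, e⟩ := key v (fun e he => by rw [hv]; exact if_pos he) (fun e => by
    rw [hv]; dsimp only; split_ifs <;> norm_num)
  have := congrFun (congrArg Prod.fst hv) 16
  simp only [th, LinearMap.coe_mk, AddHom.coe_mk, e] at this
  rw [real_inner_comm (A _) (X z (qe _)), hA] at this
  norm_num at this

theorem dsq {a b : V 6} (ha : ‖a‖ = 1) (hb : ‖b‖ = 1) : dist a b = √(2 - 2 * ⟪a, b⟫) := by
  rw [dist_eq_norm, ← Real.sqrt_sq (norm_nonneg (a - b)), norm_sub_sq_real, ha, hb]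
  congr 1; ring

theorem d_le {a b : V 6} (ha : ‖a‖ = 1) (hb : ‖b‖ = 1) {c : ℝ} :
    √(2 - 2 * c) ≤ dist a b ↔ ⟪a, b⟫ ≤ c := by
  have := real_inner_le_norm a b
  rw [ha, hb] at this
  rw [dsq ha hb, Real.sqrt_le_sqrt_iff (by linarith)]
  constructor <;> intro <;> linarith

theorem main : ∃ (n N : ℕ) (x : Fin N → EuclideanSpace ℝ (Fin n)) (d : ℝ),
      Function.Injective x ∧
      (∀ i, ‖x i‖ = 1) ∧
      0 < d ∧
      (∀ i j, i ≠ j → d ≤ dist (x i) (x j)) ∧
      (∃ i j, i ≠ j ∧ dist (x i) (x j) = d) ∧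
      Submodule.span ℝ (Set.range x) = ⊤ ∧
      (∃ ε : ℝ, 0 < ε ∧
        ∀ y : Fin N → EuclideanSpace ℝ (Fin n),
          (∀ i, ‖y i‖ = 1) →
          (∀ i, dist (y i) (x i) < ε) →
          (∀ i j, i ≠ j → d ≤ dist (y i) (y j)) →
          ∃ g : EuclideanSpace ℝ (Fin n) ≃ₗᵢ[ℝ] EuclideanSpace ℝ (Fin n),
            ∀ i, y i = g (x i)) ∧
      ¬ (∀ v : Fin N → EuclideanSpace ℝ (Fin n),
          (∀ i, inner ℝ (x i) (v i) = 0) →
          (∀ i j, i ≠ j → dist (x i) (x j) = d →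
            0 ≤ inner ℝ (x i - x j) (v i - v j)) →
          ∃ A : EuclideanSpace ℝ (Fin n) →ₗ[ℝ] EuclideanSpace ℝ (Fin n),
            (∀ u w, inner ℝ (A u) w = - inner ℝ u (A w)) ∧
            ∀ i, v i = A (x i)) := by
  obtain ⟨z, h⟩ := exSol
  have c1 := c_lt h
  have hn : ∀ i : Fin 16, ‖X z i‖ = 1 := fun i => by
    rcases cases h i i with ⟨_, a, _⟩ | ⟨_, a⟩ | ⟨a, _⟩
    · exact absurd rfl a
    · rw [real_inner_self_eq_norm_sq] at a
      exact (pow_eq_one_iff_of_nonneg (norm_nonneg _) two_ne_zero).1 a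
    · exact absurd rfl a
  have hle : ∀ i j : Fin 16, i ≠ j → ⟪X z i, X z j⟫ ≤ z 179 := fun i j hij => by
    rcases cases h i j with ⟨_, _, a⟩ | ⟨a, _⟩ | ⟨_, _, a⟩
    · exact a.le
    · exact absurd a hij
    · exact a.le
  have d0 : 0 < √(2 - 2 * z 179) := Real.sqrt_pos.2 (by linarith)
  refine ⟨6, 16, fun i => X z i, √(2 - 2 * z 179), fun i j e => ?_, hn, d0,
    fun i j hij => (d_le (hn i) (hn j)).2 (hle i j hij), ?_, top_le_iff.1 (span_top h), ?_, ?_⟩
  · by_contra hij
    have := (d_le (hn i) (hn j)).2 (hle i j hij)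
    simp only at e
    rw [e, dist_self] at this
    linarith
  · refine ⟨⟨pe 16, (pq_lt 16).1⟩, ⟨qe 16, (pq_lt 16).2⟩, fun e => pq16 (congrArg Fin.val e), ?_⟩
    rw [dsq (hn _) (hn _)]
    exact congrArg (fun t => √(2 - 2 * t)) (gram h 16)
  · obtain ⟨ε, e0, he⟩ := jam2 (fun i : Fin 16 => X z i) (span_top h) hn
      (O := fun i j => z (eid i j)) (fun i j => by rw [eid_symm]) (equil h) (fun i j hij => by
        rcases cases h i j with ⟨a, _⟩ | ⟨a, _⟩ | ⟨_, a, _⟩
        · rw [a, h.h1]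
        · exact absurd a hij
        · exact a.le) (so h)
    refine ⟨ε, e0, fun y h1 h2 h3 => he y h1 (fun i => by rw [← dist_eq_norm]; exact (h2 i).le)
      fun i j hij h0 => ?_⟩
    rcases cases h i j with ⟨a, _⟩ | ⟨a, _⟩ | ⟨_, _, a⟩
    · exact absurd (by rw [a, h.h1]) h0
    · exact absurd a hij
    · rw [a]; exact (d_le (h1 i) (h1 j)).1 (h3 i j hij)
  · intro hI
    refine notIJ h fun v h1 h2 => hI v h1 fun i j hij hd => ?_
    have a := (d_le (hn i) (hn j) (c := ⟪X z i, X z j⟫)).2 le_rfl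
    have b := real_inner_le_norm (X z i) (X z j)
    rw [hd, Real.sqrt_le_sqrt_iff (by linarith)] at a
    have := h2 i j hij (le_antisymm (hle i j hij) (by linarith))
    simp only [inner_sub_left, inner_sub_right, h1]
    linarith

end Pool.Agent.H10.JD
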