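import Mathlib

set_option autoImplicit false
open Set Module
open scoped RealInnerProductSpace

namespace Pool.Agent.H10.Jam

theorem cone {W W' : Type*} [NormedAddCommGroup W] [NormedSpace ℝ W] [FiniteDimensional ℝ W]
    [NormedAddCommGroup W'] [NormedSpace ℝ W'] (K : Set W) (hK : IsClosed K)
    (hs : ∀ a : ℝ, 0 ≤ a → ∀ w ∈ K, a • w ∈ K) (L : W →ₗ[ℝ] W')
    (h : ∀ w ∈ K, L w = 0 → w = 0) : ∃ c : ℝ, 0 < c ∧ ∀ w ∈ K, c * ‖w‖ ≤ ‖L w‖ := by
  have hc : IsCompact (K ∩ Metric.sphere (0:W) 1) := (isCompact_sphere 0 1).inter_left hK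
  have hL : Continuous fun w => ‖L w‖ := (LinearMap.continuous_of_finiteDimensional L).norm
  have key : ∃ c : ℝ, 0 < c ∧ ∀ w ∈ K ∩ Metric.sphere (0:W) 1, c ≤ ‖L w‖ := by
    rcases (K ∩ Metric.sphere (0:W) 1).eq_empty_or_nonempty with he | hne
    · exact ⟨1, one_pos, fun w hw => by rw [he] at hw; exact absurd hw (notMem_empty w)⟩
    · obtain ⟨w0, hw0, hm⟩ := hc.exists_isMinOn hne hL.continuousOn
      refine ⟨‖L w0‖, ?_, fun w hw => hm hw⟩
      rw [norm_pos_iff]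
      intro h0
      have h1 := h w0 hw0.1 h0
      have h2 := hw0.2
      rw [h1] at h2
      simp at h2
  obtain ⟨c, hc0, hc1⟩ := key
  refine ⟨c, hc0, fun w hw => ?_⟩
  by_cases h0 : w = 0
  · simp [h0]
  have hn : 0 < ‖w‖ := norm_pos_iff.2 h0
  have h1 := hc1 (‖w‖⁻¹ • w) ⟨hs _ (by positivity) w hw, by
    simp [norm_smul, hn.ne']⟩
  rw [map_smul, norm_smul, norm_inv, norm_norm] at h1
  have h2 := mul_le_mul_of_nonneg_right h1 hn.le
  rwa [mul_comm ‖w‖⁻¹, mul_assoc, inv_mul_cancel₀ hn.ne', mul_one] at h2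

variable {V : Type*} [NormedAddCommGroup V] [InnerProductSpace ℝ V]

/-- first order jamming, written with linear functionals -/
def IJ (C : Set V) (c : ℝ) : Prop :=
  ∀ f : V → V →ₗ[ℝ] ℝ, (∀ x ∈ C, f x x = 0) →
    (∀ x ∈ C, ∀ y ∈ C, ⟪x, y⟫ = c → f x y + f y x ≤ 0) → ∀ x ∈ C, ∀ y ∈ C, f x y + f y x = 0

section
variable {ι : Type} [Fintype ι] {C : Set V} (b : Basis ι ℝ V) (β : ι → C)

noncomputable def ph (D : C → C → ℝ) (x : C) : V →ₗ[ℝ] ℝ := ∑ l, D x (β l) • b.coord l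

noncomputable def ps (D : C → C → ℝ) (z : V) : V →ₗ[ℝ] ℝ := ∑ l, b.repr z l • ph b β D (β l)

theorem ph_apply (D : C → C → ℝ) (x : C) (z : V) :
    ph b β D x z = ∑ l, b.repr z l * D x (β l) := by
  simp [ph, LinearMap.sum_apply, mul_comm]

theorem ps_apply (D : C → C → ℝ) (z w : V) :
    ps b β D z w = ∑ l, ∑ m, b.repr z l * (b.repr w m * D (β l) (β m)) := by
  simp [ps, LinearMap.sum_apply, ph_apply, Finset.mul_sum]

noncomputable def LD : (C → C → ℝ) →ₗ[ℝ] (C → C → ℝ) where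
  toFun D := fun x y => D x y - ph b β D x y - ph b β D y x + ps b β D x y
  map_add' D E := by
    funext x y
    simp only [ph_apply, ps_apply, Pi.add_apply, mul_add, Finset.sum_add_distrib]
    ring
  map_smul' a D := by
    funext x y
    simp only [ph_apply, ps_apply, Pi.smul_apply, smul_eq_mul, RingHom.id_apply, mul_add, mul_sub,
      Finset.mul_sum]
    congr 1
    · congr 1
      · congr 1
        exact Finset.sum_congr rfl fun l _ => by ring
      · exact Finset.sum_congr rfl fun l _ => by ring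
    · exact Finset.sum_congr rfl fun l _ => Finset.sum_congr rfl fun m _ => by ring

theorem LD_apply (D : C → C → ℝ) (x y : C) :
    LD b β D x y = D x y - ph b β D x y - ph b β D y x + ps b β D x y := rfl

theorem ps_symm (D : C → C → ℝ) (hD : ∀ x y, D x y = D y x) (z w : V) :
    ps b β D z w = ps b β D w z := by
  rw [ps_apply, ps_apply, Finset.sum_comm]
  exact Finset.sum_congr rfl fun l _ => Finset.sum_congr rfl fun m _ => by rw [hD]; ring

def Kc (C : Set V) (c : ℝ) : Set (C → C → ℝ) :=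
  {D | (∀ x y, D x y = D y x) ∧ (∀ x, D x x = 0) ∧ ∀ x y : C, ⟪(x:V), (y:V)⟫ = c → D x y ≤ 0}

theorem ker0 {c : ℝ} (hI : IJ C c) (D : C → C → ℝ) (hD : D ∈ Kc C c) (h0 : LD b β D = 0) :
    D = 0 := by
  classical
  obtain ⟨h1, h2, h3⟩ := hD
  let f : V → V →ₗ[ℝ] ℝ := fun x =>
    if hx : x ∈ C then ph b β D ⟨x, hx⟩ - (1/2 : ℝ) • ps b β D x else 0
  have key : ∀ x y : C, f x y + f y x = D x y := by
    intro x y
    have e := congrFun (congrFun h0 x) y
    rw [LD_apply] at e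
    simp only [f, x.2, y.2, dif_pos, LinearMap.sub_apply, LinearMap.smul_apply, smul_eq_mul,
      Subtype.coe_eta]
    rw [ps_symm b β D h1 y x]
    simp only [Pi.zero_apply] at e
    linarith
  funext x y
  have := hI f (fun x hx => by have := key ⟨x, hx⟩ ⟨x, hx⟩; rw [h2] at this; simp only at this; linarith)
    (fun x hx y hy hxy => by
      have := key ⟨x, hx⟩ ⟨y, hy⟩
      simp only at this
      rw [this]; exact h3 _ _ hxy) x x.2 y y.2
  rw [key] at this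
  exact this

noncomputable def gd (y : C → V) : C → C → ℝ := fun x x' => ⟪y x, y x'⟫ - ⟪(x:V), (x':V)⟫

noncomputable def U (y : C → V) : V →ₗ[ℝ] V := b.constr ℝ fun l => y (β l)

theorem U_apply (y : C → V) (z : V) : U b β y z = ∑ l, b.repr z l • y (β l) := by
  simp [U, Basis.constr_apply_fintype]

theorem in1 (hβ : ∀ l, (β l : V) = b l) (y : C → V) (x : C) (z : V) :
    ⟪y x, U b β y z⟫ = ⟪(x:V), z⟫ + ph b β (gd y) x z := by
  have e : ⟪(x:V), z⟫ = ∑ l, b.repr z l * ⟪(x:V), (β l : V)⟫ := by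
    conv_lhs => rw [← b.sum_repr z]
    simp only [inner_sum, real_inner_smul_right, hβ]
  rw [U_apply, ph_apply, e, inner_sum, ← Finset.sum_add_distrib]
  exact Finset.sum_congr rfl fun l _ => by rw [real_inner_smul_right, gd]; ring

theorem in2 (hβ : ∀ l, (β l : V) = b l) (y : C → V) (z w : V) :
    ⟪U b β y z, U b β y w⟫ = ⟪z, w⟫ + ps b β (gd y) z w := by
  have e : ⟪z, w⟫ = ∑ l, b.repr z l * ⟪(β l : V), w⟫ := by
    conv_lhs => rw [← b.sum_repr z]
    simp only [sum_inner, real_inner_smul_left, hβ]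
  rw [U_apply b β y z, sum_inner, e, ps, LinearMap.sum_apply, ← Finset.sum_add_distrib]
  exact Finset.sum_congr rfl fun l _ => by
    rw [real_inner_smul_left, in1 b β hβ]; simp; ring

theorem in3 (hβ : ∀ l, (β l : V) = b l) (y : C → V) (x x' : C) :
    ⟪y x - U b β y x, y x' - U b β y x'⟫ = LD b β (gd y) x x' := by
  rw [LD_apply, inner_sub_left, inner_sub_right, inner_sub_right, in1 b β hβ, in2 b β hβ,
    real_inner_comm (y x') (U b β y x), in1 b β hβ, real_inner_comm (x:V) (x':V), gd]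
  ring

theorem in4 (hβ : ∀ l, (β l : V) = b l) (y : C → V) (x : C) (z : V) :
    ⟪y x - U b β y x, U b β y z⟫ = ph b β (gd y) x z - ps b β (gd y) x z := by
  rw [inner_sub_left, in1 b β hβ, in2 b β hβ]
  ring

variable [Fintype C]

theorem ph_bd {a : ℝ} (ha : ∀ z, ∑ l, |b.repr z l| ≤ a * ‖z‖) (D : C → C → ℝ) (x : C) (z : V) :
    |ph b β D x z| ≤ a * ‖z‖ * ‖D‖ := by
  rw [ph_apply]
  refine (Finset.abs_sum_le_sum_abs _ _).trans ?_
  refine le_trans ?_ (mul_le_mul_of_nonneg_right (ha z) (norm_nonneg D))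
  rw [Finset.sum_mul]
  refine Finset.sum_le_sum fun l _ => ?_
  rw [abs_mul]
  exact mul_le_mul_of_nonneg_left ((norm_le_pi_norm (D x) (β l)).trans (norm_le_pi_norm D x))
    (abs_nonneg _)

theorem ps_bd {a : ℝ} (ha0 : 0 ≤ a) (ha : ∀ z, ∑ l, |b.repr z l| ≤ a * ‖z‖) (D : C → C → ℝ)
    (z w : V) : |ps b β D z w| ≤ a * ‖z‖ * (a * ‖w‖ * ‖D‖) := by
  rw [ps, LinearMap.sum_apply]
  refine (Finset.abs_sum_le_sum_abs _ _).trans ?_
  refine le_trans ?_ (mul_le_mul_of_nonneg_right (ha z) (by positivity))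
  rw [Finset.sum_mul]
  refine Finset.sum_le_sum fun l _ => ?_
  rw [LinearMap.smul_apply, smul_eq_mul, abs_mul]
  exact mul_le_mul_of_nonneg_left (ph_bd b β ha D _ w) (abs_nonneg _)

theorem rbd [FiniteDimensional ℝ V] (hβ : ∀ l, (β l : V) = b l) {a : ℝ} (ha0 : 0 ≤ a)
    (ha : ∀ z, ∑ l, |b.repr z l| ≤ a * ‖z‖) (h1 : ∀ x ∈ C, ‖x‖ = 1) (y : C → V)
    (hs : a * a * ‖gd y‖ ≤ 1 / 2) (x : C) :
    ‖y x - U b β y x‖ ≤ 2 * (a + a * a) * ‖gd y‖ := by
  have lo : ∀ z, ‖z‖ ≤ 2 * ‖U b β y z‖ := by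
    intro z
    have e := in2 b β hβ y z z
    rw [real_inner_self_eq_norm_sq, real_inner_self_eq_norm_sq] at e
    have e2 := (abs_le.1 (ps_bd b β ha0 ha (gd y) z z)).1
    have e3 : a * ‖z‖ * (a * ‖z‖ * ‖gd y‖) = (a * a * ‖gd y‖) * ‖z‖ ^ 2 := by ring
    have e4 := mul_le_mul_of_nonneg_right hs (sq_nonneg ‖z‖)
    have e5 : ‖z‖ ^ 2 ≤ (2 * ‖U b β y z‖) ^ 2 := by nlinarith [sq_nonneg ‖U b β y z‖]
    exact abs_le_of_sq_le_sq' e5 (by positivity) |>.2
  have inj : Function.Injective (U b β y) := by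
    rw [injective_iff_map_eq_zero]
    intro z hz
    have := lo z
    rw [hz, norm_zero, mul_zero] at this
    exact norm_le_zero_iff.1 this
  obtain ⟨z, hz⟩ := (LinearMap.injective_iff_surjective.1 inj) (y x - U b β y x)
  have e := in4 b β hβ y x z
  rw [hz, real_inner_self_eq_norm_sq] at e
  have e1 := (abs_le.1 (ph_bd b β ha (gd y) x z)).2
  have e2 := (abs_le.1 (ps_bd b β ha0 ha (gd y) x z)).1
  rw [h1 x x.2] at e2
  have e3 := lo z
  rw [hz] at e3
  set r := ‖y x - U b β y x‖ with hr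
  have hr0 : 0 ≤ r := norm_nonneg _
  have hD := norm_nonneg (gd y)
  have e4 : r ^ 2 ≤ (a + a * a) * ‖gd y‖ * ‖z‖ := by nlinarith
  have e5 : (a + a * a) * ‖gd y‖ * ‖z‖ ≤ (a + a * a) * ‖gd y‖ * (2 * r) :=
    mul_le_mul_of_nonneg_left e3 (by positivity)
  rcases hr0.eq_or_lt with h | h
  · rw [← h]; positivity
  · nlinarith

omit [Fintype C] in
theorem gd0 [FiniteDimensional ℝ V] (hβ : ∀ l, (β l : V) = b l) (y : C → V) (h0 : gd y = 0) :
    ∃ g : V ≃ₗᵢ[ℝ] V, ∀ x : C, y x = g x := by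
  have e : ∀ z w, ⟪U b β y z, U b β y w⟫ = ⟪z, w⟫ := fun z w => by
    rw [in2 b β hβ, h0, ps_apply]; simp
  refine ⟨((U b β y).isometryOfInner e).toLinearIsometryEquiv rfl, fun x => ?_⟩
  have := in3 b β hβ y x x
  rw [h0, map_zero, real_inner_self_eq_norm_sq] at this
  have h2 : ‖y x - U b β y x‖ = 0 := by simpa using this
  rw [norm_eq_zero, sub_eq_zero] at h2
  simpa using h2

end

theorem loc [FiniteDimensional ℝ V] {C : Set V} [Fintype C] (hsp : ⊤ ≤ Submodule.span ℝ C)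
    (h1 : ∀ x ∈ C, ‖x‖ = 1) {c : ℝ} (hI : IJ C c) :
    (∃ ε : ℝ, 0 < ε ∧ ∀ y : C → V, gd y ∈ Kc C c → ‖gd y‖ ≤ ε → gd y = 0) ∧
      ∀ y : C → V, gd y = 0 → ∃ g : V ≃ₗᵢ[ℝ] V, ∀ x : C, y x = g x := by
  classical
  let b0 := Basis.ofSpan hsp
  have : Fintype _ := FiniteDimensional.fintypeBasisIndex b0
  let b := b0.reindex (Fintype.equivFin _)
  have hb : ∀ l, b l ∈ C := fun l => by
    simp only [b, Basis.reindex_apply]
    exact Basis.ofSpan_subset hsp ⟨_, rfl⟩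
  let β : _ → C := fun l => ⟨b l, hb l⟩
  have hβ : ∀ l, (β l : V) = b l := fun l => rfl
  refine ⟨?_, fun y => gd0 b β hβ y⟩
  obtain ⟨a, ha0, ha⟩ : ∃ a : ℝ, 0 < a ∧ ∀ z, ∑ l, |b.repr z l| ≤ a * ‖z‖ := by
    refine ⟨1 + ∑ l, ‖LinearMap.toContinuousLinearMap (b.coord l)‖, by positivity, fun z => ?_⟩
    rw [add_mul, Finset.sum_mul]
    refine le_trans (Finset.sum_le_sum fun l _ => ?_) (le_add_of_nonneg_left (by positivity))
    exact (LinearMap.toContinuousLinearMap (b.coord l)).le_opNorm z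
  have hcl : IsClosed (Kc C c) := by
    simp only [Kc, Set.ofPred_and, Set.ofPred_forall]
    refine (isClosed_iInter fun x => isClosed_iInter fun y => isClosed_eq (by fun_prop)
      (by fun_prop)).inter ((isClosed_iInter fun x => isClosed_eq (by fun_prop)
      (by fun_prop)).inter (isClosed_iInter fun x => isClosed_iInter fun y =>
      isClosed_iInter fun _ => isClosed_le (by fun_prop) (by fun_prop)))
  obtain ⟨k, hk0, hk⟩ := cone (Kc C c) hcl (fun s hs D hD => ⟨fun x y => by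
      simp [hD.1 x y], fun x => by simp [hD.2.1 x], fun x y h => by
      simpa using mul_nonpos_of_nonneg_of_nonpos hs (hD.2.2 x y h)⟩) (LD b β)
    (fun D hD => ker0 b β hI D hD)
  set q := 2 * (a + a * a) with hq
  have hq0 : 0 < q := by positivity
  refine ⟨min (1 / (2 * (a * a))) (k / (2 * (q * q))), by positivity, fun y hy hs => ?_⟩
  have s1 := hs.trans (min_le_left _ _)
  have s2 := hs.trans (min_le_right _ _)
  rw [le_div_iff₀ (by positivity)] at s1 s2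
  have hr := rbd b β hβ ha0.le ha h1 y (by linarith)
  have hD := norm_nonneg (gd y)
  have hL : ‖LD b β (gd y)‖ ≤ q * ‖gd y‖ * (q * ‖gd y‖) := by
    refine (pi_norm_le_iff_of_nonneg (by positivity)).2 fun x =>
      (pi_norm_le_iff_of_nonneg (by positivity)).2 fun x' => ?_
    rw [← in3 b β hβ]
    exact (norm_inner_le_norm _ _).trans (mul_le_mul (hr x) (hr x') (norm_nonneg _) (by positivity))
  have h3 := (hk _ hy).trans hL
  rcases hD.eq_or_lt with h | h
  · exact norm_eq_zero.1 h.symm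
  · nlinarith

theorem jam [FiniteDimensional ℝ V] {C : Set V} (hC : C.Finite) (hsp : ⊤ ≤ Submodule.span ℝ C)
    (h1 : ∀ x ∈ C, ‖x‖ = 1) {c : ℝ} (hI : IJ C c) (γ : V → ℝ → V)
    (hc : ∀ x ∈ C, ContinuousOn (γ x) (Icc 0 1)) (h0 : ∀ x ∈ C, γ x 0 = x)
    (hn : ∀ x ∈ C, ∀ t ∈ Icc (0:ℝ) 1, ‖γ x t‖ = 1)
    (hle : ∀ x ∈ C, ∀ y ∈ C, x ≠ y → ∀ t ∈ Icc (0:ℝ) 1, ⟪γ x t, γ y t⟫ ≤ c) :
    ∀ t ∈ Icc (0:ℝ) 1, ∃ g : V ≃ₗᵢ[ℝ] V, ∀ x ∈ C, γ x t = g x := by
  have := hC.fintype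
  obtain ⟨⟨ε, hε, hl⟩, hz⟩ := loc hsp h1 hI
  intro T hT
  have hK : ∀ t ∈ Icc (0:ℝ) 1, gd (fun x : C => γ x t) ∈ Kc C c := by
    intro t ht
    have dg : ∀ x : C, gd (fun x : C => γ x t) x x = 0 := fun x => by
      simp only [gd, real_inner_self_eq_norm_sq, hn x x.2 t ht, h1 x x.2, sub_self]
    refine ⟨fun x y => ?_, dg, fun x y h => ?_⟩
    · simp only [gd]
      rw [real_inner_comm (γ x t), real_inner_comm (x:V)]
    · by_cases hxy : x = y
      · rw [hxy, dg]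
      · have := hle x x.2 y y.2 (fun e => hxy (Subtype.ext e)) t ht
        simp only [gd]
        linarith
  have hf : ContinuousOn (fun t => ‖gd (fun x : C => γ x t)‖) (Icc 0 1) := by
    refine ContinuousOn.norm (continuousOn_pi.2 fun x => continuousOn_pi.2 fun y => ?_)
    exact ((hc x x.2).inner (hc y y.2)).sub continuousOn_const
  have f0 : ‖gd (fun x : C => γ x 0)‖ = 0 := by
    rw [norm_eq_zero]
    funext x y
    simp [gd, h0 x x.2, h0 y y.2]
  have f1 : gd (fun x : C => γ x T) = 0 := by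
    by_contra hne
    have hpos : 0 < ‖gd (fun x : C => γ x T)‖ := norm_pos_iff.2 hne
    set δ := min ‖gd (fun x : C => γ x T)‖ ε with hδ
    have hδ0 : 0 < δ := lt_min hpos hε
    have hsub : Icc 0 T ⊆ Icc (0:ℝ) 1 := Icc_subset_Icc_right hT.2
    obtain ⟨t, ht, e1⟩ := intermediate_value_Icc hT.1 (hf.mono hsub)
      (show δ ∈ _ from ⟨f0.le.trans hδ0.le, min_le_left _ _⟩)
    simp only at e1
    have := hl _ (hK t (hsub ht)) (by rw [e1]; exact min_le_right _ _)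
    rw [this, norm_zero] at e1
    exact hδ0.ne e1
  obtain ⟨g, hg⟩ := hz _ f1
  exact ⟨g, fun x hx => hg ⟨x, hx⟩⟩

end Pool.Agent.H10.Jam
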