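import Pool.Agent.H10.Jam1

set_option autoImplicit false
open Set Module
open scoped RealInnerProductSpace

namespace Pool.Agent.H10.Jam

variable {V : Type*} [NormedAddCommGroup V] [InnerProductSpace ℝ V]

def Mn (L : AddSubgroup V) (N : ℝ) : Set V := {x | x ∈ L ∧ ⟪x, x⟫ = N}

def DD (f : V → V →ₗ[ℝ] ℝ) (x y : V) : ℝ := f x y + f y x

theorem DD_comm (f : V → V →ₗ[ℝ] ℝ) (x y : V) : DD f x y = DD f y x := add_comm _ _

structure Def (L : AddSubgroup V) (N : ℝ) (f : V → V →ₗ[ℝ] ℝ) : Prop where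
  dg : ∀ x ∈ Mn L N, f x x = 0
  ct : ∀ x ∈ Mn L N, ∀ y ∈ Mn L N, ⟪x, y⟫ = N / 2 → DD f x y ≤ 0

variable {L : AddSubgroup V} {N : ℝ} {f : V → V →ₗ[ℝ] ℝ}

theorem Mn_neg {x : V} (hx : x ∈ Mn L N) : -x ∈ Mn L N :=
  ⟨L.neg_mem hx.1, by rw [inner_neg_neg]; exact hx.2⟩

theorem D_self (hf : Def L N f) {x : V} (hx : x ∈ Mn L N) : DD f x x = 0 := by
  simp [DD, hf.dg x hx]

theorem D_anti (hf : Def L N f) {x : V} (hx : x ∈ Mn L N) : DD f x (-x) = 0 := by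
  have h1 := hf.dg x hx
  have h2 := hf.dg _ (Mn_neg hx)
  rw [map_neg, neg_eq_zero] at h2
  simp [DD, h1, h2]

theorem D_obt (hf : Def L N f) {a c : V} (ha : a ∈ Mn L N) (hc : c ∈ Mn L N)
    (h : ⟪a, c⟫ = -(N / 2)) : DD f a c ≤ 0 := by
  have h' : ⟪c, a⟫ = -(N / 2) := by rw [real_inner_comm, h]
  have hb : a + c ∈ Mn L N := ⟨L.add_mem ha.1 hc.1, by
    rw [inner_add_left, inner_add_right, inner_add_right, ha.2, hc.2, h, h']; ring⟩
  have e1 := hf.ct a ha _ hb (by rw [inner_add_right, ha.2, h]; ring)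
  have e2 := hf.ct c hc _ hb (by rw [inner_add_right, hc.2, h']; ring)
  have e3 := hf.dg _ hb
  have e4 := hf.dg a ha
  have e5 := hf.dg c hc
  simp only [DD, map_add] at *
  linarith

theorem D_hex (hf : Def L N f) {x y : V} (hx : x ∈ Mn L N) (hy : y ∈ Mn L N)
    (h : ⟪x, y⟫ = N / 2) : DD f x y = 0 ∧ DD f x (-y) = 0 := by
  have e1 := hf.ct x hx y hy h
  have e2 := hf.ct _ (Mn_neg hx) _ (Mn_neg hy) (by rw [inner_neg_neg, h])
  have e3 := D_obt hf hx (Mn_neg hy) (by rw [inner_neg_right, h])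
  have e4 := D_obt hf (Mn_neg hx) hy (by rw [inner_neg_left, h])
  simp only [DD, map_neg] at *
  constructor <;> linarith

theorem D_pm (hf : Def L N f) {x y : V} (hx : x ∈ Mn L N) (hy : y ∈ Mn L N)
    (h : ⟪x, y⟫ = N / 2 ∨ ⟪x, y⟫ = -(N / 2)) : DD f x y = 0 := by
  rcases h with h | h
  · exact (D_hex hf hx hy h).1
  · have := (D_hex hf hx (Mn_neg hy) (by rw [inner_neg_right, h, neg_neg])).2
    rwa [neg_neg] at this

theorem D_sq (hf : Def L N f) {x y u : V} (hx : x ∈ Mn L N) (hy : y ∈ Mn L N) (hu : u ∈ Mn L N)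
    (h : ⟪x, y⟫ = 0) (h1 : ⟪u, x⟫ = N / 2) (h2 : ⟪u, y⟫ = N / 2) :
    x + y - u ∈ Mn L N ∧ DD f x y + DD f u (x + y - u) = 0 := by
  have h' : ⟪y, x⟫ = 0 := by rw [real_inner_comm, h]
  have h1' : ⟪x, u⟫ = N / 2 := by rw [real_inner_comm, h1]
  have h2' : ⟪y, u⟫ = N / 2 := by rw [real_inner_comm, h2]
  have hw : x + y - u ∈ Mn L N := ⟨L.sub_mem (L.add_mem hx.1 hy.1) hu.1, by
    simp only [inner_add_left, inner_add_right, inner_sub_left, inner_sub_right, hx.2, hy.2, hu.2,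
      h, h', h1, h2, h1', h2']; ring⟩
  refine ⟨hw, ?_⟩
  have e1 := (D_hex hf hx hu h1').1
  have e2 := (D_hex hf hy hu h2').1
  have e3 := (D_hex hf hx hw (by
    simp only [inner_add_right, inner_sub_right, hx.2, h, h1']; ring)).1
  have e4 := (D_hex hf hy hw (by
    simp only [inner_add_right, inner_sub_right, hy.2, h', h2']; ring)).1
  have d1 := hf.dg x hx
  have d2 := hf.dg y hy
  have d3 := hf.dg u hu
  have d4 := hf.dg _ hw
  simp only [DD, map_add, map_sub] at *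
  linarith

theorem D_tri (hf : Def L N f) {x y u w : V} (hx : x ∈ Mn L N) (hy : y ∈ Mn L N)
    (hu : u ∈ Mn L N) (hw : w ∈ Mn L N) (h : ⟪x, y⟫ = 0) (h1 : ⟪u, x⟫ = N / 2)
    (h2 : ⟪u, y⟫ = N / 2) (h3 : ⟪w, x⟫ = N / 2) (h4 : ⟪w, y⟫ = N / 2) (h5 : ⟪w, u⟫ = N / 2) :
    DD f x y = 0 := by
  obtain ⟨hu', e1⟩ := D_sq hf hx hy hu h h1 h2
  obtain ⟨_, e2⟩ := D_sq hf hx hy hw h h3 h4
  obtain ⟨_, e3⟩ := D_sq hf hu hu' hw (by
    simp only [inner_add_right, inner_sub_right, hu.2, h1, h2]; ring) h5 (by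
    simp only [inner_add_right, inner_sub_right, h3, h4, h5]; ring)
  rw [show u + (x + y - u) - w = x + y - w by abel] at e3
  linarith

theorem D_trans {S : Set V} (hS : ⊤ ≤ Submodule.span ℝ S) (h0 : ∀ s ∈ S, ∀ t ∈ S, DD f s t = 0)
    {x y : V} (hx : ∀ s ∈ S, DD f x s = 0) (hy : ∀ s ∈ S, DD f y s = 0) : DD f x y = 0 := by
  obtain ⟨n, a, s, hs⟩ := Submodule.mem_span_set'.1 (hS (Submodule.mem_top (x := x)))
  obtain ⟨m, b, t, ht⟩ := Submodule.mem_span_set'.1 (hS (Submodule.mem_top (x := y)))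
  have e1 : f x y = -∑ j, ∑ i, b j * (a i * f (t j) (s i)) := by
    conv_lhs => rw [← ht]
    rw [map_sum, ← Finset.sum_neg_distrib]
    refine Finset.sum_congr rfl fun j _ => ?_
    have := hx _ (t j).2
    rw [DD] at this
    rw [map_smul, smul_eq_mul, ← Finset.mul_sum, eq_neg_of_add_eq_zero_left this]
    conv_lhs => rw [← hs]
    simp [map_sum]
  have e2 : f y x = -∑ i, ∑ j, a i * (b j * f (s i) (t j)) := by
    conv_lhs => rw [← hs]
    rw [map_sum, ← Finset.sum_neg_distrib]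
    refine Finset.sum_congr rfl fun i _ => ?_
    have := hy _ (s i).2
    rw [DD] at this
    rw [map_smul, smul_eq_mul, ← Finset.mul_sum, eq_neg_of_add_eq_zero_left this]
    conv_lhs => rw [← ht]
    simp [map_sum]
  rw [DD, e1, e2, Finset.sum_comm, ← neg_add, ← Finset.sum_add_distrib, neg_eq_zero]
  refine Finset.sum_eq_zero fun i _ => ?_
  rw [← Finset.sum_add_distrib]
  refine Finset.sum_eq_zero fun j _ => ?_
  have := h0 _ (s i).2 _ (t j).2
  rw [DD] at this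
  linear_combination (a i * b j) * this

noncomputable def hf (J : V →ₗ[ℝ] V) : V →ₗ[ℝ] V := (1 / 2 : ℝ) • (LinearMap.id - J)

theorem hf_apply (J : V →ₗ[ℝ] V) (x : V) : hf J x = (1 / 2 : ℝ) • (x - J x) := rfl

def cg (L : AddSubgroup V) (J : V →ₗ[ℝ] V) (x y : V) : Prop := hf J (x - y) ∈ L

structure CL (L : AddSubgroup V) (J : V →ₗ[ℝ] V) (N : ℝ) : Prop where
  sk : ∀ x y, ⟪J x, y⟫ = -⟪x, J y⟫
  sq : ∀ x, J (J x) = -x
  cl : ∀ x ∈ L, J x ∈ L
  mn : ∀ x ∈ L, x ≠ 0 → N ≤ ⟪x, x⟫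

variable {J : V →ₗ[ℝ] V}

theorem cg_refl (x : V) : cg L J x x := by simp [cg]

theorem cg_symm {x y : V} (h : cg L J x y) : cg L J y x := by
  have := L.neg_mem h
  rwa [← map_neg, neg_sub] at this

theorem cg_trans {x y z : V} (h : cg L J x y) (h' : cg L J y z) : cg L J x z := by
  have := L.add_mem h h'
  rwa [← map_add, sub_add_sub_cancel] at this

theorem J0 (H : CL L J N) (x : V) : ⟪x, J x⟫ = 0 := by
  have := H.sk x x
  rw [real_inner_comm] at this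
  linarith

theorem JJ (H : CL L J N) (x y : V) : ⟪J x, J y⟫ = ⟪x, y⟫ := by
  rw [H.sk, H.sq, inner_neg_right, neg_neg]

theorem Mn_J (H : CL L J N) {x : V} (hx : x ∈ Mn L N) : J x ∈ Mn L N :=
  ⟨H.cl x hx.1, by rw [JJ H, hx.2]⟩

theorem cg_J (H : CL L J N) {x : V} (hx : x ∈ L) : cg L J x (J x) := by
  have : hf J (x - J x) = -J x := by
    rw [hf_apply, map_sub, H.sq]; module
  rw [cg, this]
  exact L.neg_mem (H.cl x hx)

theorem cg_neg (H : CL L J N) {x : V} (hx : x ∈ L) : cg L J x (-x) := by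
  have := cg_trans (cg_J H hx) (cg_J H (H.cl x hx))
  rwa [H.sq] at this

theorem hf_in (H : CL L J N) (x y : V) : ⟪hf J x, y⟫ = (⟪x, y⟫ + ⟪x, J y⟫) / 2 := by
  rw [hf_apply, real_inner_smul_left, inner_sub_left, H.sk]; ring

theorem hf_in2 (H : CL L J N) (x y : V) : ⟪hf J x, hf J y⟫ = ⟪x, y⟫ / 2 := by
  rw [hf_in H, hf_apply, map_smul, map_sub, H.sq]
  simp only [real_inner_smul_right, inner_sub_right, inner_neg_right]
  ring

theorem cg_le (H : CL L J N) {b c : V} (hb : b ∈ Mn L N) (hc : c ∈ Mn L N) (h : cg L J b c)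
    (hne : b ≠ c) : ⟪b, c⟫ ≤ 0 := by
  have h0 : hf J (b - c) ≠ 0 := by
    intro h0
    have := hf_in2 H (b - c) (b - c)
    rw [h0, inner_zero_left] at this
    have h2 : ⟪b - c, b - c⟫ = 0 := by linarith
    exact hne (sub_eq_zero.1 (inner_self_eq_zero.1 h2))
  have := H.mn _ h h0
  rw [hf_in2 H, inner_sub_left, inner_sub_right, inner_sub_right, hb.2, hc.2,
    real_inner_comm b c] at this
  linarith

def CO (J : V →ₗ[ℝ] V) (b c : V) : Prop := ⟪b, c⟫ = 0 ∧ ⟪b, J c⟫ = 0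

theorem CO_symm (H : CL L J N) {b c : V} (h : CO J b c) : CO J c b :=
  ⟨by rw [real_inner_comm, h.1], by rw [real_inner_comm, H.sk, h.2, neg_zero]⟩

theorem CO_J (H : CL L J N) {b c : V} (h : CO J b c) : CO J b (J c) :=
  ⟨h.2, by rw [H.sq, inner_neg_right, h.1, neg_zero]⟩

theorem cls (H : CL L J N) {b c : V} (hb : b ∈ Mn L N) (hc : c ∈ Mn L N) (h : cg L J b c) :
    c = b ∨ c = -b ∨ c = J b ∨ c = -J b ∨ CO J b c := by
  by_contra hn
  push Not at hn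
  obtain ⟨n1, n2, n3, n4, n5⟩ := hn
  have e1 := cg_le H hb hc h n1.symm
  have e2 := cg_le H (Mn_neg hb) hc (cg_trans (cg_symm (cg_neg H hb.1)) h) n2.symm
  have k := cg_trans (cg_symm (cg_J H hb.1)) h
  have e3 := cg_le H (Mn_J H hb) hc k n3.symm
  have e4 := cg_le H (Mn_neg (Mn_J H hb)) hc (cg_trans (cg_symm (cg_neg H (H.cl _ hb.1))) k) n4.symm
  rw [inner_neg_left] at e2 e4
  rw [H.sk] at e3 e4
  exact n5 ⟨by linarith, by linarith⟩

theorem hf_mem (H : CL L J N) {b c : V} (hb : b ∈ Mn L N) (hc : c ∈ Mn L N) (h : cg L J b c)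
    (ho : ⟪b, c⟫ = 0) : hf J (b + c) ∈ Mn L N := by
  refine ⟨?_, ?_⟩
  · have := cg_trans h (cg_neg H hc.1)
    rwa [cg, sub_neg_eq_add] at this
  · rw [hf_in2 H, inner_add_left, inner_add_right, inner_add_right, hb.2, hc.2,
      real_inner_comm b c, ho]; ring

theorem CO_all (H : CL L J N) {b c : V} (h : CO J b c) :
    ⟪b, c⟫ = 0 ∧ ⟪b, J c⟫ = 0 ∧ ⟪c, b⟫ = 0 ∧ ⟪c, J b⟫ = 0 :=
  ⟨h.1, h.2, (CO_symm H h).1, (CO_symm H h).2⟩

theorem A1 (H : CL L J N) (hd : Def L N f) {b c : V} (hb : b ∈ Mn L N) (hc : c ∈ Mn L N)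
    (h : cg L J b c) (ho : CO J b c) : DD f b c = 0 := by
  obtain ⟨o1, o2, o3, o4⟩ := CO_all H ho
  have hu := hf_mem H hb hc h o1
  have hw := hf_mem H hb (Mn_J H hc) (cg_trans h (cg_J H hc.1)) o2
  refine D_tri hd hb hc hu hw o1 ?_ ?_ ?_ ?_ ?_ <;>
    simp only [hf_in2 H, hf_in H, inner_add_left, inner_add_right, H.sk, H.sq, J0 H,
      inner_neg_right, hb.2, hc.2, o1, o2, o3, o4] <;> ring

theorem A2 (H : CL L J N) (hd : Def L N f) {b c : V} (hb : b ∈ Mn L N) (hc : c ∈ Mn L N)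
    (h : cg L J b c) (ho : CO J b c) : DD f b (J b) = 0 := by
  obtain ⟨o1, o2, o3, o4⟩ := CO_all H ho
  have k := cg_trans (cg_symm (cg_J H hb.1)) h
  have hu := hf_mem H (Mn_J H hb) hc k (by rw [H.sk, o2, neg_zero])
  have hw := hf_mem H (Mn_J H hb) (Mn_J H hc) (cg_trans k (cg_J H hc.1)) (by rw [JJ H, o1])
  refine D_tri hd hb (Mn_J H hb) hu hw (J0 H b) ?_ ?_ ?_ ?_ ?_ <;>
    simp only [hf_in2 H, hf_in H, inner_add_left, inner_add_right, H.sk, H.sq, J0 H,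
      inner_neg_right, hb.2, hc.2, o1, o2, o3, o4] <;> ring

def Par (L : AddSubgroup V) (J : V →ₗ[ℝ] V) (N : ℝ) : Prop :=
  ∀ b ∈ Mn L N, ∃ c ∈ Mn L N, cg L J b c ∧ CO J b c

theorem A3 (H : CL L J N) (hp : Par L J N) (hd : Def L N f) {b c : V} (hb : b ∈ Mn L N)
    (hc : c ∈ Mn L N) (h : cg L J b c) : DD f b c = 0 := by
  rcases cls H hb hc h with e | e | e | e | e
  · rw [e]; exact D_self hd hb
  · rw [e]; exact D_anti hd hb
  · obtain ⟨d, hd1, hd2, hd3⟩ := hp b hb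
    rw [e]; exact A2 H hd hb hd1 hd2 hd3
  · obtain ⟨d, hd1, hd2, hd3⟩ := hp c hc
    have := A2 H hd hc hd1 hd2 hd3
    rw [DD_comm]
    rw [e, map_neg, H.sq, neg_neg, ← e] at this
    exact this
  · exact A1 H hd hb hc h e

theorem B1 (H : CL L J N) (hd : Def L N f) {b b' c : V} (hb : b ∈ Mn L N) (hb' : b' ∈ Mn L N)
    (hc : c ∈ Mn L N) (h : cg L J b b') (ho : CO J b b')
    (e : c = b ∨ c = -b ∨ c = J b ∨ c = -J b) : DD f (hf J (b + b')) c = 0 := by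
  obtain ⟨o1, o2, o3, o4⟩ := CO_all H ho
  refine D_pm hd (hf_mem H hb hb' h o1) hc ?_
  rcases e with e | e | e | e
  on_goal 1 => left
  on_goal 2 => right
  on_goal 3 => right
  on_goal 4 => left
  all_goals
    simp only [e, hf_in H, inner_add_left, H.sq, J0 H, map_neg, inner_neg_right, hb.2, o3, o4]
    ring

theorem B2 (H : CL L J N) (hd : Def L N f) {b b' c : V} (hb : b ∈ Mn L N) (hb' : b' ∈ Mn L N)
    (hc : c ∈ Mn L N) (h : cg L J b b') (ho : CO J b b') (hbc : cg L J b c) :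
    DD f (hf J (b + b')) c = 0 := by
  have k := cls H hb hc hbc
  rw [← or_assoc, ← or_assoc, ← or_assoc, or_assoc (a := c = b ∨ c = -b), or_assoc (a := c = b)] at k
  rcases k with e | e
  · exact B1 H hd hb hb' hc h ho e
  have k := cls H hb' hc (cg_trans (cg_symm h) hbc)
  rw [← or_assoc, ← or_assoc, ← or_assoc, or_assoc (a := c = b' ∨ c = -b'),
    or_assoc (a := c = b')] at k
  rcases k with e' | e'
  · rw [add_comm]
    exact B1 H hd hb' hb hc (cg_symm h) (CO_symm H ho) e'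
  obtain ⟨o1, o2, o3, o4⟩ := CO_all H ho
  obtain ⟨p1, p2, p3, p4⟩ := CO_all H e
  obtain ⟨q1, q2, q3, q4⟩ := CO_all H e'
  have hu := hf_mem H hb hc hbc p1
  have hw := hf_mem H hb (Mn_J H hc) (cg_trans hbc (cg_J H hc.1)) p2
  refine D_tri hd (hf_mem H hb hb' h o1) hc hu hw ?_ ?_ ?_ ?_ ?_ ?_
  on_goal 2 => rw [hf_in2 H]
  on_goal 4 => rw [hf_in2 H]
  on_goal 6 => rw [hf_in2 H]
  all_goals
    simp only [hf_in H, inner_add_left, inner_add_right, H.sk, H.sq, J0 H,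
      inner_neg_right, hb.2, hc.2, o1, p1, p2, p3, p4, q1, q2, q3, q4]
    ring

structure Good (L : AddSubgroup V) (J : V →ₗ[ℝ] V) (P : V →ₗ[ℝ] V) : Prop where
  is : ∀ x y, ⟪P x, P y⟫ = ⟪x, y⟫
  cm : ∀ x, P (J x) = J (P x)
  cg : ∀ x ∈ L, cg L J (P x) x

theorem hf_inv (H : CL L J N) (x : V) : hf J x + J (hf J x) = x := by
  rw [hf_apply, map_smul, map_sub, H.sq]; module

theorem hf_phi (H : CL L J N) (x : V) : hf J (x + J x) = x := by
  rw [hf_apply, map_add, H.sq]; module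

theorem cg_mem (H : CL L J N) {x y : V} (h : cg L J x y) (hy : y ∈ L) : x ∈ L := by
  have := L.add_mem (L.add_mem h (H.cl _ h)) hy
  rwa [hf_inv H, sub_add_cancel] at this

theorem Good.mn (H : CL L J N) {P : V →ₗ[ℝ] V} (hP : Good L J P) {x : V} (hx : x ∈ Mn L N) :
    P x ∈ Mn L N := ⟨cg_mem H (hP.cg x hx.1) hx.1, by rw [hP.is, hx.2]⟩

def Irr (L : AddSubgroup V) (J : V →ₗ[ℝ] V) : Prop :=
  ∀ x : V, x ≠ 0 → ∀ z : V, (∀ P, Good L J P → ⟪P x, z⟫ = 0) → z = 0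

theorem orb_span [FiniteDimensional ℝ V] (hI : Irr L J) {x : V} (hx : x ≠ 0) {S : Set V}
    (hS : ∀ P, Good L J P → P x ∈ S) : ⊤ ≤ Submodule.span ℝ S := by
  rw [top_le_iff, ← Submodule.orthogonal_eq_bot_iff, eq_bot_iff]
  intro z hz
  exact hI x hx z fun P hP => hz _ (Submodule.subset_span (hS P hP))

inductive Reach (L : AddSubgroup V) (J : V →ₗ[ℝ] V) (N : ℝ) (x0 : V) : V → Prop
  | base : Reach L J N x0 x0
  | cls (x y : V) : Reach L J N x0 x → x ∈ Mn L N → y ∈ Mn L N → cg L J x y → Reach L J N x0 y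
  | adj (b b' : V) : Reach L J N x0 b → b ∈ Mn L N → b' ∈ Mn L N → cg L J b b' → CO J b b' →
      Reach L J N x0 (hf J (b + b'))

theorem absIJ [FiniteDimensional ℝ V] (H : CL L J N) (hN : N ≠ 0) (hp : Par L J N) (hI : Irr L J)
    {x0 : V} (h0 : x0 ∈ Mn L N) (hr : ∀ x ∈ Mn L N, Reach L J N x0 x) : IJ (Mn L N) (N / 2) := by
  intro f h1 h2
  have hd : Def L N f := ⟨h1, h2⟩
  have nz : ∀ x ∈ Mn L N, x ≠ 0 := fun x hx e => hN (by rw [← hx.2, e, inner_zero_left])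
  let K : V → Set V := fun x => {y | y ∈ Mn L N ∧ cg L J x y}
  have Ksp : ∀ x ∈ Mn L N, ⊤ ≤ Submodule.span ℝ (K x) := fun x hx =>
    orb_span hI (nz x hx) fun P hP => ⟨hP.mn H hx, cg_symm (hP.cg x hx.1)⟩
  have Kg : ∀ x, ∀ s ∈ K x, ∀ t ∈ K x, DD f s t = 0 := fun x s hs t ht =>
    A3 H hp hd hs.1 ht.1 (cg_trans (cg_symm hs.2) ht.2)
  let S : Set V := {x | ∀ c ∈ K x0, DD f x c = 0}
  have Sg : ∀ s ∈ S, ∀ t ∈ S, DD f s t = 0 := fun s hs t ht =>
    D_trans (Ksp x0 h0) (Kg x0) hs ht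
  have K0 : K x0 ⊆ S := fun c hc d hd => Kg x0 c hc d hd
  have Sc : ∀ T ⊆ S, ⊤ ≤ Submodule.span ℝ T → ∀ x, (∀ t ∈ T, DD f x t = 0) → x ∈ S :=
    fun T hT hsp x hx c hc => D_trans hsp (fun s hs t ht => Sg s (hT hs) t (hT ht)) hx
      fun s hs => Sg c (K0 hc) s (hT hs)
  have main : ∀ x, Reach L J N x0 x → K x ⊆ S := by
    intro x hx
    induction hx with
    | base => exact K0
    | cls x y _ _ _ h ih => exact fun z hz => ih ⟨hz.1, cg_trans h hz.2⟩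
    | adj b b' _ hb hb' h ho ih =>
      have hy := hf_mem H hb hb' h ho.1
      intro z hz
      refine Sc {w | w ∈ S ∧ w ∈ K (hf J (b + b'))} (fun w hw => hw.1)
        (orb_span hI (nz _ hy) fun P hP => ⟨?_, hP.mn H hy, cg_symm (hP.cg _ hy.1)⟩) z
        fun t ht => Kg _ z hz t ht.2
      have e : P (hf J (b + b')) = hf J (P b + P b') := by
        rw [hf_apply, hf_apply, map_smul, map_sub, hP.cm, map_add]
      rw [e]
      refine Sc (K b) ih (Ksp b hb) _ fun c hc => ?_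
      exact B2 H hd (hP.mn H hb) (hP.mn H hb') hc.1
        (cg_trans (hP.cg b hb.1) (cg_trans h (cg_symm (hP.cg b' hb'.1))))
        ⟨by rw [hP.is, ho.1], by rw [← hP.cm, hP.is, ho.2]⟩ (cg_trans (hP.cg b hb.1) hc.2)
  intro x hx y hy
  exact Sg x (main x (hr x hx) ⟨hx, cg_refl x⟩) y (main y (hr y hy) ⟨hy, cg_refl y⟩)

theorem IJ_scale {C : Set V} {c : ℝ} (h : IJ C c) (s : ℝ) :
    IJ ((fun x => s • x) '' C) (s * s * c) := by
  intro f h1 h2
  have := h (fun x => s • f (s • x)) (fun x hx => by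
      have := h1 _ ⟨x, hx, rfl⟩
      simpa using this)
    (fun x hx y hy hxy => by
      have := h2 _ ⟨x, hx, rfl⟩ _ ⟨y, hy, rfl⟩ (by
        rw [real_inner_smul_left, real_inner_smul_right, hxy, mul_assoc])
      simpa using this)
  rintro _ ⟨x, hx, rfl⟩ _ ⟨y, hy, rfl⟩
  simpa using this x hx y hy

end Pool.Agent.H10.Jam
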