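import Mathlib

set_option autoImplicit false

namespace Pool.Agent.H10.BW

/-- The space `ℂ^(2^n)`, coordinates indexed by binary words of length `n`. It is used as a real
Euclidean space of dimension `2^(n+1)`, with inner product the real part of the Hermitian one. -/
abbrev E (n : ℕ) := EuclideanSpace ℂ (Fin n → Fin 2)

/-- The matrix with rows `(1, 1)` and `(0, 1 + i)`. -/
noncomputable def M : Matrix (Fin 2) (Fin 2) ℂ := !![1, 1; 0, 1 + Complex.I]

/-- Row `r` of the Kronecker power `M ⊗ ⋯ ⊗ M` with `n` factors. -/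
noncomputable def row (n : ℕ) (r : Fin n → Fin 2) : E n :=
  WithLp.toLp 2 fun c => ∏ j, M (r j) (c j)

/-- The Barnes-Wall lattice of real rank `2^(n+1)`: the `ℤ[i]`-span of the rows. -/
def lat (n : ℕ) : Set (E n) :=
  {x | ∃ a : (Fin n → Fin 2) → GaussianInt, x = ∑ r, (a r : ℂ) • row n r}

/-- The nonzero lattice vectors of minimal norm. -/
def minVec (n : ℕ) : Set (E n) := {x | x ∈ lat n ∧ x ≠ 0 ∧ ∀ y ∈ lat n, y ≠ 0 → ‖x‖ ≤ ‖y‖}

/-- The kissing configuration: minimal vectors rescaled to unit length. -/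
def kiss (n : ℕ) : Set (E n) := (fun x => ‖x‖⁻¹ • x) '' minVec n

/-- The smallest angle between two distinct points of `C`. -/
noncomputable def minAngle {V : Type} [NormedAddCommGroup V] [InnerProductSpace ℝ V]
    (C : Set V) : ℝ :=
  sInf {θ | ∃ x ∈ C, ∃ y ∈ C, x ≠ y ∧ θ = InnerProductGeometry.angle x y}

/-- Every continuous motion of `C` on the unit sphere that keeps all inner products of distinct
points at most `c` is, at each time, induced by an orthogonal map. -/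
def Rigid {V : Type} [NormedAddCommGroup V] [InnerProductSpace ℝ V] (C : Set V) (c : ℝ) : Prop :=
  ∀ γ : V → ℝ → V, (∀ x ∈ C, ContinuousOn (γ x) (Set.Icc 0 1)) → (∀ x ∈ C, γ x 0 = x) →
    (∀ x ∈ C, ∀ t ∈ Set.Icc (0 : ℝ) 1, ‖γ x t‖ = 1) →
    (∀ x ∈ C, ∀ y ∈ C, x ≠ y → ∀ t ∈ Set.Icc (0 : ℝ) 1, inner ℝ (γ x t) (γ y t) ≤ c) →
    ∀ t ∈ Set.Icc (0 : ℝ) 1, ∃ g : V ≃ₗᵢ[ℝ] V, ∀ x ∈ C, γ x t = g x

end Pool.Agent.H10.BW
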