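import Pool.Agent.H10.Jam2
import Pool.Agent.H10.JamDef

set_option autoImplicit false
open Set Module
open scoped RealInnerProductSpace

namespace Pool.Agent.H10.BW
open Pool.Agent.H10.Jam

variable {n : ℕ}

noncomputable def lo : E (n + 1) →ₗ[ℝ] E n where
  toFun x := WithLp.toLp 2 fun c => x (Fin.cons 0 c)
  map_add' _ _ := rfl
  map_smul' _ _ := rfl

noncomputable def hi : E (n + 1) →ₗ[ℝ] E n where
  toFun x := WithLp.toLp 2 fun c => x (Fin.cons 1 c)
  map_add' _ _ := rfl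
  map_smul' _ _ := rfl

noncomputable def pr (u w : E n) : E (n + 1) :=
  WithLp.toLp 2 fun c => if c 0 = 0 then u (Fin.tail c) else w (Fin.tail c)

@[simp] theorem lo_pr (u w : E n) : lo (pr u w) = u := by
  ext c; simp [lo, pr]

@[simp] theorem hi_pr (u w : E n) : hi (pr u w) = w := by
  ext c; simp [hi, pr]

theorem ext2 {x y : E (n + 1)} (h1 : lo x = lo y) (h2 : hi x = hi y) : x = y := by
  ext c
  rw [← Fin.cons_self_tail c]
  have k1 := congrArg (fun z : E n => z (Fin.tail c)) h1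
  have k2 := congrArg (fun z : E n => z (Fin.tail c)) h2
  generalize c 0 = a
  fin_cases a
  · exact k1
  · exact k2

theorem sum2 {A : Type} [AddCommMonoid A] (g : (Fin (n + 1) → Fin 2) → A) :
    ∑ c, g c = ∑ c : Fin n → Fin 2, g (Fin.cons 0 c) + ∑ c : Fin n → Fin 2, g (Fin.cons 1 c) := by
  rw [← (Fin.consEquiv (fun _ : Fin (n + 1) => Fin 2)).sum_comp, Fintype.sum_prod_type,
    Fin.sum_univ_two]
  rfl

theorem in_split (x y : E (n + 1)) : ⟪x, y⟫ = ⟪lo x, lo y⟫ + ⟪hi x, hi y⟫ := by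
  simp only [PiLp.inner_apply]
  rw [sum2]
  rfl

noncomputable def J (n : ℕ) : E n →ₗ[ℝ] E n where
  toFun x := Complex.I • x
  map_add' := smul_add _
  map_smul' _ _ := smul_comm _ _ _

theorem J_apply (x : E n) : J n x = Complex.I • x := rfl

@[simp] theorem lo_J (x : E (n + 1)) : lo (J _ x) = J _ (lo x) := rfl
@[simp] theorem hi_J (x : E (n + 1)) : hi (J _ x) = J _ (hi x) := rfl
theorem lo_sm (a : ℂ) (x : E (n + 1)) : lo (a • x) = a • lo x := rfl
theorem hi_sm (a : ℂ) (x : E (n + 1)) : hi (a • x) = a • hi x := rfl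
@[simp] theorem lo_hf (x : E (n + 1)) : lo (hf (J _) x) = hf (J _) (lo x) := rfl
@[simp] theorem hi_hf (x : E (n + 1)) : hi (hf (J _) x) = hf (J _) (hi x) := rfl

theorem J_sq (x : E n) : J n (J n x) = -x := by
  rw [J_apply, J_apply, smul_smul, Complex.I_mul_I, neg_smul, one_smul]

theorem J_sk (x y : E n) : ⟪J n x, y⟫ = -⟪x, J n y⟫ := by
  simp only [PiLp.inner_apply, J_apply]
  rw [← Finset.sum_neg_distrib]
  refine Finset.sum_congr rfl fun c _ => ?_
  simp [Complex.inner]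
  ring

def L (n : ℕ) : AddSubgroup (E n) where
  carrier := lat n
  zero_mem' := ⟨0, by simp⟩
  add_mem' := by
    rintro _ _ ⟨a, rfl⟩ ⟨b, rfl⟩
    exact ⟨a + b, by simp [add_smul, Finset.sum_add_distrib]⟩
  neg_mem' := by
    rintro _ ⟨a, rfl⟩
    exact ⟨-a, by simp⟩

theorem L_J {x : E n} (hx : x ∈ L n) : J n x ∈ L n := by
  obtain ⟨a, rfl⟩ := hx
  refine ⟨fun r => ⟨0, 1⟩ * a r, ?_⟩
  rw [J_apply, Finset.smul_sum]
  refine Finset.sum_congr rfl fun r _ => ?_
  rw [smul_smul, GaussianInt.toComplex_mul]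
  simp [GaussianInt.toComplex_def]

theorem r00 (r : Fin n → Fin 2) : lo (row (n + 1) (Fin.cons 0 r)) = row n r := by
  ext c; simp [lo, row, Fin.prod_univ_succ, M]

theorem r01 (r : Fin n → Fin 2) : hi (row (n + 1) (Fin.cons 0 r)) = row n r := by
  ext c; simp [hi, row, Fin.prod_univ_succ, M]

theorem r10 (r : Fin n → Fin 2) : lo (row (n + 1) (Fin.cons 1 r)) = 0 := by
  ext c; simp [lo, row, Fin.prod_univ_succ, M]

theorem r11 (r : Fin n → Fin 2) : hi (row (n + 1) (Fin.cons 1 r)) = (1 + Complex.I) • row n r := by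
  ext c; simp [hi, row, Fin.prod_univ_succ, M]

theorem hf_ph (x : E n) : hf (J n) (x + J n x) = x := by
  rw [hf_apply, map_add, J_sq]; module

theorem hf_iv (x : E n) : hf (J n) x + J n (hf (J n) x) = x := by
  rw [hf_apply, map_smul, map_sub, J_sq]; module

theorem lohi (a : (Fin (n + 1) → Fin 2) → GaussianInt) :
    lo (∑ r, (a r : ℂ) • row (n + 1) r) = ∑ r, (a (Fin.cons 0 r) : ℂ) • row n r ∧
    hi (∑ r, (a r : ℂ) • row (n + 1) r) = ∑ r, (a (Fin.cons 0 r) : ℂ) • row n r +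
      (∑ r, (a (Fin.cons 1 r) : ℂ) • row n r + J n (∑ r, (a (Fin.cons 1 r) : ℂ) • row n r)) := by
  constructor
  · rw [map_sum, sum2]
    simp [lo_sm, r00, r10]
  · rw [map_sum, sum2]
    simp only [hi_sm, r01, r11, J_apply, Finset.smul_sum, ← Finset.sum_add_distrib]
    refine Finset.sum_congr rfl fun r _ => ?_
    module

theorem mem_succ (x : E (n + 1)) :
    x ∈ L (n + 1) ↔ lo x ∈ L n ∧ cg (L n) (J n) (hi x) (lo x) := by
  constructor
  · rintro ⟨a, rfl⟩
    obtain ⟨h1, h2⟩ := lohi a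
    rw [cg, h1, h2, add_sub_cancel_left, hf_ph]
    exact ⟨⟨_, rfl⟩, ⟨_, rfl⟩⟩
  · rintro ⟨⟨a, ha⟩, ⟨b, hb⟩⟩
    refine ⟨fun r => if r 0 = 0 then a (Fin.tail r) else b (Fin.tail r), ?_⟩
    obtain ⟨h1, h2⟩ := lohi (fun r => if r 0 = 0 then a (Fin.tail r) else b (Fin.tail r))
    apply ext2
    · rw [h1, ha]; simp
    · rw [h2]
      simp only [Fin.cons_zero, Fin.tail_cons, if_true, one_ne_zero, if_false]
      rw [← ha, ← hb, hf_iv, add_sub_cancel]

def o : Fin 0 → Fin 2 := fun _ => 0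

theorem in0 (x y : E 0) : ⟪x, y⟫ = (x o).re * (y o).re + (x o).im * (y o).im := by
  rw [PiLp.inner_apply, Fintype.sum_subsingleton _ o]
  simp [Complex.inner]
  ring

theorem mem0 (x : E 0) : x ∈ L 0 ↔ ∃ a b : ℤ, (x o).re = a ∧ (x o).im = b := by
  constructor
  · rintro ⟨a, rfl⟩
    rw [Fintype.sum_subsingleton _ o]
    exact ⟨(a o).re, (a o).im, by simp [row], by simp [row]⟩
  · rintro ⟨a, b, h1, h2⟩
    refine ⟨fun _ => ⟨a, b⟩, ?_⟩
    rw [Fintype.sum_subsingleton _ o]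
    ext c
    rw [Subsingleton.elim c o]
    apply Complex.ext <;> simp [row, h1, h2, ← GaussianInt.intCast_re, ← GaussianInt.intCast_im]

theorem ext0 {x y : E 0} (h1 : (x o).re = (y o).re) (h2 : (x o).im = (y o).im) : x = y := by
  ext c
  rw [Subsingleton.elim c o]
  exact Complex.ext h1 h2

theorem phi_in (v : E n) : ⟪v + J n v, v + J n v⟫ = 2 * ⟪v, v⟫ := by
  have h := J_sk v v
  have h2 := J_sk v (J n v)
  rw [J_sq, inner_neg_right, neg_neg] at h2
  rw [inner_add_left, inner_add_right, inner_add_right, h, h2]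
  ring

theorem cgm {x y : E n} (h : cg (L n) (J n) x y) (hy : y ∈ L n) : x ∈ L n := by
  have := (L n).add_mem ((L n).add_mem h (L_J h)) hy
  rwa [hf_iv, sub_add_cancel] at this

theorem minN : ∀ (n : ℕ) (x : E n), x ∈ L n → x ≠ 0 → (2:ℝ) ^ n ≤ ⟪x, x⟫ := by
  intro n
  induction n with
  | zero =>
    intro x hx h0
    obtain ⟨a, b, h1, h2⟩ := (mem0 x).1 hx
    rw [in0, h1, h2]
    have : a ≠ 0 ∨ b ≠ 0 := by
      by_contra hn
      push Not at hn
      exact h0 (ext0 (by simp [h1, hn.1]) (by simp [h2, hn.2]))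
    have h3 : (1:ℤ) ≤ a * a + b * b := by
      rcases this with h | h
      · nlinarith [mul_self_pos.2 h, mul_self_nonneg b]
      · nlinarith [mul_self_pos.2 h, mul_self_nonneg a]
    rw [pow_zero]
    exact_mod_cast h3
  | succ n ih =>
    intro x hx h0
    obtain ⟨h1, h2⟩ := (mem_succ x).1 hx
    have key : ∀ w : E n, w ≠ 0 → hf (J n) w ∈ L n → (2:ℝ) ^ (n + 1) ≤ ⟪w, w⟫ := by
      intro w hw h
      have e := phi_in (hf (J n) w)
      rw [hf_iv] at e
      have := ih _ h (fun h0 => hw (by rw [← hf_iv w, h0, map_zero, add_zero]))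
      rw [e, pow_succ]; linarith
    rw [in_split]
    by_cases a : lo x = 0
    · have b : hi x ≠ 0 := fun b => h0 (ext2 (by rw [a, map_zero]) (by rw [b, map_zero]))
      rw [cg, a, sub_zero] at h2
      rw [a, inner_zero_left, zero_add]
      exact key _ b h2
    by_cases b : hi x = 0
    · have h3 := cg_symm h2
      rw [cg, b, sub_zero] at h3
      rw [b, inner_zero_left, add_zero]
      exact key _ a h3
    have := ih _ h1 a
    have := ih _ (cgm h2 h1) b
    rw [pow_succ]; linarith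

theorem H (n : ℕ) : CL (L n) (J n) (2 ^ n) := ⟨J_sk, J_sq, fun _ => L_J, minN n⟩

abbrev MM (n : ℕ) : Set (E n) := Mn (L n) (2 ^ n)

theorem classify {x : E (n + 1)} (hx : x ∈ MM (n + 1)) :
    (∃ v ∈ MM n, x = pr (v + J n v) 0) ∨ (∃ v ∈ MM n, x = pr 0 (v + J n v)) ∨
      (lo x ∈ MM n ∧ hi x ∈ MM n ∧ cg (L n) (J n) (lo x) (hi x)) := by
  obtain ⟨h1, h2⟩ := (mem_succ x).1 hx.1
  have hn := hx.2
  rw [in_split, pow_succ] at hn
  by_cases b : hi x = 0
  · left
    have h3 := cg_symm h2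
    rw [cg, b, sub_zero] at h3
    rw [b, inner_zero_left, add_zero] at hn
    refine ⟨_, ⟨h3, ?_⟩, ext2 (by rw [lo_pr, hf_iv]) (by rw [hi_pr, b])⟩
    rw [hf_in2 (H n), hn]; ring
  right
  by_cases a : lo x = 0
  · left
    rw [cg, a, sub_zero] at h2
    rw [a, inner_zero_left, zero_add] at hn
    refine ⟨_, ⟨h2, ?_⟩, ext2 (by rw [lo_pr, a]) (by rw [hi_pr, hf_iv])⟩
    rw [hf_in2 (H n), hn]; ring
  right
  have := minN n _ h1 a
  have := minN n _ (cgm h2 h1) b
  exact ⟨⟨h1, by linarith⟩, ⟨cgm h2 h1, by linarith⟩, cg_symm h2⟩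

theorem cg_succ (x y : E (n + 1)) : cg (L (n + 1)) (J _) x y ↔ cg (L n) (J n) (lo x) (lo y) ∧
    hf (J n) (hf (J n) (hi x - hi y - (lo x - lo y))) ∈ L n := by
  rw [cg, mem_succ, cg, cg]
  simp only [lo_hf, hi_hf, map_sub]

theorem mA {v : E n} (hv : v ∈ MM n) : pr (v + J n v) 0 ∈ MM (n + 1) := by
  refine ⟨(mem_succ _).2 ⟨?_, ?_⟩, ?_⟩
  · rw [lo_pr]; exact (L n).add_mem hv.1 (L_J hv.1)
  · rw [cg, lo_pr, hi_pr, zero_sub, map_neg, hf_ph]; exact (L n).neg_mem hv.1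
  · rw [in_split, lo_pr, hi_pr, phi_in, hv.2, inner_zero_left, pow_succ]; ring

theorem mB {v : E n} (hv : v ∈ MM n) : pr 0 (v + J n v) ∈ MM (n + 1) := by
  refine ⟨(mem_succ _).2 ⟨?_, ?_⟩, ?_⟩
  · rw [lo_pr]; exact (L n).zero_mem
  · rw [cg, lo_pr, hi_pr, sub_zero, hf_ph]; exact hv.1
  · rw [in_split, lo_pr, hi_pr, phi_in, hv.2, inner_zero_left, pow_succ]; ring

theorem mC {u w : E n} (hu : u ∈ MM n) (hw : w ∈ MM n) (h : cg (L n) (J n) u w) :
    pr u w ∈ MM (n + 1) := by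
  refine ⟨(mem_succ _).2 ⟨?_, ?_⟩, ?_⟩
  · rw [lo_pr]; exact hu.1
  · rw [lo_pr, hi_pr]; exact cg_symm h
  · rw [in_split, lo_pr, hi_pr, hu.2, hw.2, pow_succ]; ring

theorem cAA {u w : E n} (h : cg (L n) (J n) u w) :
    cg (L (n + 1)) (J _) (pr (u + J n u) 0) (pr (w + J n w) 0) := by
  have e : u + J n u - (w + J n w) = (u - w) + J n (u - w) := by rw [map_sub]; abel
  rw [cg_succ]
  simp only [lo_pr, hi_pr, cg, e, hf_ph, sub_self, zero_sub, map_neg]
  refine ⟨?_, (L n).neg_mem h⟩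
  rw [← hf_iv (u - w)]
  exact (L n).add_mem h (L_J h)

theorem cAB {u w : E n} (hu : u ∈ L n) (hw : w ∈ L n) (h : cg (L n) (J n) u w) :
    cg (L (n + 1)) (J _) (pr (u + J n u) 0) (pr 0 (w + J n w)) := by
  have e : 0 - (w + J n w) - (u + J n u - 0) = (-w - u) + J n (-w - u) := by
    rw [map_sub, map_neg]; abel
  rw [cg_succ]
  simp only [lo_pr, hi_pr]
  rw [e, hf_ph, cg, sub_zero, hf_ph]
  exact ⟨hu, cg_trans (cg_symm (cg_neg (H n) hw)) (cg_symm h)⟩

theorem oAB (u w : E n) : CO (J _) (pr u 0) (pr 0 w) := by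
  constructor <;> rw [in_split] <;> simp

noncomputable def s : (n : ℕ) → E n
  | 0 => WithLp.toLp 2 fun _ => 1
  | n + 1 => pr (s n + J n (s n)) 0

theorem s_mem : ∀ n, s n ∈ MM n
  | 0 => ⟨(mem0 _).2 ⟨1, 0, by simp [s], by simp [s]⟩, by rw [in0]; simp [s]⟩
  | n + 1 => mA (s_mem n)

theorem M0 {x : E 0} (hx : x ∈ MM 0) : x = s 0 ∨ x = -s 0 ∨ x = J 0 (s 0) ∨ x = -J 0 (s 0) := by
  obtain ⟨a, b, h1, h2⟩ := (mem0 x).1 hx.1
  have h := hx.2
  rw [in0, h1, h2, pow_zero] at h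
  have h3 : a * a + b * b = 1 := by exact_mod_cast h
  have ha : -1 ≤ a ∧ a ≤ 1 := by constructor <;> nlinarith [mul_self_nonneg b]
  have hb : -1 ≤ b ∧ b ≤ 1 := by constructor <;> nlinarith [mul_self_nonneg a]
  obtain ⟨a1, a2⟩ := ha
  obtain ⟨b1, b2⟩ := hb
  interval_cases a <;> interval_cases b <;> simp at h3
  · right; left; exact ext0 (by simp [h1, s]) (by simp [h2, s])
  · right; right; right; exact ext0 (by simp [h1, s, J_apply]) (by simp [h2, s, J_apply])
  · right; right; left; exact ext0 (by simp [h1, s, J_apply]) (by simp [h2, s, J_apply])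
  · left; exact ext0 (by simp [h1, s]) (by simp [h2, s])

theorem fin : ∀ n, (MM n).Finite
  | 0 => (toFinite ({s 0, -s 0, J 0 (s 0), -J 0 (s 0)} : Set (E 0))).subset fun x hx => by
      simpa using M0 hx
  | n + 1 => by
      refine ((((fin n).image fun v => pr (v + J n v) 0).union
        ((fin n).image fun v => pr 0 (v + J n v))).union ((fin n).image2 pr (fin n))).subset
        fun x hx => ?_
      rcases classify hx with ⟨v, hv, e⟩ | ⟨v, hv, e⟩ | ⟨h1, h2, _⟩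
      · exact Or.inl (Or.inl ⟨v, hv, e.symm⟩)
      · exact Or.inl (Or.inr ⟨v, hv, e.symm⟩)
      · exact Or.inr ⟨_, h1, _, h2, ext2 (by simp) (by simp)⟩

theorem lift {v : E n} (h : Reach (L n) (J n) (2 ^ n) (s n) v) :
    Reach (L (n + 1)) (J _) (2 ^ (n + 1)) (s (n + 1)) (pr (v + J n v) 0) := by
  induction h with
  | base => exact Reach.base
  | cls x y _ hx hy h ih => exact Reach.cls _ _ ih (mA hx) (mA hy) (cAA h)
  | adj b b' _ hb hb' h ho ih =>
    have := Reach.adj _ _ ih (mA hb) (mA hb') (cAA h) (by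
      obtain ⟨o1, o2, o3, o4⟩ := CO_all (H n) ho
      constructor <;> rw [in_split] <;>
        simp [inner_add_left, inner_add_right, J_sk, J_sq, o1, o2])
    convert this using 1
    apply ext2
    · rw [lo_pr, hf_iv, map_add (hf _), map_add lo, lo_hf, lo_hf, lo_pr, lo_pr, hf_ph, hf_ph]
    · simp

theorem reach : ∀ n, ∀ x ∈ MM n, Reach (L n) (J n) (2 ^ n) (s n) x
  | 0 => fun x hx => by
      refine Reach.cls _ _ Reach.base (s_mem 0) hx ?_
      have h := (s_mem 0).1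
      rcases M0 hx with e | e | e | e <;> rw [e]
      · exact cg_refl _
      · exact cg_neg (H 0) h
      · exact cg_J (H 0) h
      · exact cg_trans (cg_J (H 0) h) (cg_neg (H 0) (L_J h))
  | n + 1 => fun x hx => by
      rcases classify hx with ⟨v, hv, e⟩ | ⟨v, hv, e⟩ | ⟨h1, h2, h3⟩
      · rw [e]; exact lift (reach n v hv)
      · rw [e]
        exact Reach.cls _ _ (lift (reach n v hv)) (mA hv) (mB hv) (cAB hv.1 hv.1 (cg_refl v))
      · have := Reach.adj _ _ (lift (reach n _ h1)) (mA h1) (mB h2) (cAB h1.1 h2.1 h3) (oAB _ _)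
        convert this using 1
        apply ext2 <;> simp [hf_ph]

noncomputable def prL (A B : E (n + 1) →ₗ[ℝ] E n) : E (n + 1) →ₗ[ℝ] E (n + 1) where
  toFun x := pr (A x) (B x)
  map_add' x y := ext2 (by simp) (by simp)
  map_smul' a x := ext2 (by simp) (by simp)

@[simp] theorem lo_prL (A B : E (n + 1) →ₗ[ℝ] E n) (x : E (n + 1)) : lo (prL A B x) = A x :=
  lo_pr _ _

@[simp] theorem hi_prL (A B : E (n + 1) →ₗ[ℝ] E n) (x : E (n + 1)) : hi (prL A B x) = B x :=
  hi_pr _ _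

theorem good_comp {P Q : E n →ₗ[ℝ] E n} (hP : Good (L n) (J n) P) (hQ : Good (L n) (J n) Q) :
    Good (L n) (J n) (P ∘ₗ Q) :=
  ⟨fun x y => by simp [hP.is, hQ.is], fun x => by simp [hP.cm, hQ.cm], fun x hx =>
    cg_trans (hP.cg _ (cgm (hQ.cg x hx) hx)) (hQ.cg x hx)⟩

theorem hfhf (x : E n) : hf (J n) (hf (J n) (x + x)) = -J n x := by
  rw [hf_apply, hf_apply, map_smul, map_sub, J_sq, map_add]; module

theorem good_T {Q : E n →ₗ[ℝ] E n} (hQ : Good (L n) (J n) Q) :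
    Good (L (n + 1)) (J _) (prL (Q ∘ₗ lo) (Q ∘ₗ hi)) := by
  refine ⟨fun x y => ?_, fun x => ?_, fun x hx => ?_⟩
  · rw [in_split, in_split x]; simp [hQ.is]
  · apply ext2 <;> simp [hQ.cm]
  · obtain ⟨h1, h2⟩ := (mem_succ x).1 hx
    rw [cg_succ]
    simp only [lo_prL, hi_prL, LinearMap.comp_apply]
    refine ⟨hQ.cg _ h1, ?_⟩
    have := hQ.cg _ h2
    rw [cg] at this
    convert this using 2
    simp only [hf_apply, map_smul, map_sub, hQ.cm]
    module

theorem good_Z : Good (L (n + 1)) (J _) (prL lo (-hi)) := by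
  refine ⟨fun x y => ?_, fun x => ?_, fun x hx => ?_⟩
  · rw [in_split, in_split x]; simp
  · apply ext2 <;> simp
  · obtain ⟨h1, h2⟩ := (mem_succ x).1 hx
    rw [cg_succ]
    simp only [lo_prL, hi_prL, LinearMap.neg_apply]
    refine ⟨cg_refl _, ?_⟩
    rw [sub_self, sub_zero, sub_eq_add_neg, hfhf]
    exact (L n).neg_mem (L_J ((L n).neg_mem (cgm h2 h1)))

theorem good_X : Good (L (n + 1)) (J _) (prL hi lo) := by
  refine ⟨fun x y => ?_, fun x => ?_, fun x hx => ?_⟩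
  · rw [in_split, in_split x, add_comm]; simp
  · apply ext2 <;> simp
  · obtain ⟨h1, h2⟩ := (mem_succ x).1 hx
    rw [cg_succ]
    simp only [lo_prL, hi_prL]
    refine ⟨h2, ?_⟩
    rw [show lo x - hi x - (hi x - lo x) = (lo x - hi x) + (lo x - hi x) by abel, hfhf]
    exact (L n).neg_mem (L_J ((L n).sub_mem h1 (cgm h2 h1)))

theorem irr : ∀ n, Irr (L n) (J n)
  | 0 => fun x hx z h => by
      have h1 := h LinearMap.id ⟨fun _ _ => rfl, fun _ => rfl, fun x _ => cg_refl x⟩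
      have h2 := h (J 0) ⟨JJ (H 0), fun _ => rfl, fun x hx => cg_symm (cg_J (H 0) hx)⟩
      have h3 : ⟪x, x⟫ ≠ 0 := fun e => hx (inner_self_eq_zero.1 e)
      rw [in0] at h1 h2 h3
      simp [J_apply] at h1 h2
      apply ext0
      · apply mul_left_cancel₀ h3
        simp only [PiLp.zero_apply, Complex.zero_re, mul_zero]
        linear_combination (x o).re * h1 - (x o).im * h2
      · apply mul_left_cancel₀ h3
        simp only [PiLp.zero_apply, Complex.zero_im, mul_zero]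
        linear_combination (x o).im * h1 + (x o).re * h2
  | n + 1 => fun x hx z h => by
      have key : ∀ Q, Good (L n) (J n) Q → (⟪Q (lo x), lo z⟫ = 0 ∧ ⟪Q (hi x), hi z⟫ = 0) ∧
          (⟪Q (hi x), lo z⟫ = 0 ∧ ⟪Q (lo x), hi z⟫ = 0) := by
        intro Q hQ
        have e1 := h _ (good_T hQ)
        have e2 := h _ (good_comp (good_T hQ) good_Z)
        have e3 := h _ (good_comp (good_T hQ) good_X)
        have e4 := h _ (good_comp (good_T hQ) (good_comp good_Z good_X))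
        rw [in_split] at e1 e2 e3 e4
        simp only [LinearMap.comp_apply, lo_prL, hi_prL, LinearMap.neg_apply, map_neg,
          inner_neg_left] at e1 e2 e3 e4
        refine ⟨⟨?_, ?_⟩, ?_, ?_⟩ <;> linarith
      by_cases a : lo x = 0
      · have b : hi x ≠ 0 := fun b => hx (ext2 (by rw [a, map_zero]) (by rw [b, map_zero]))
        exact ext2 (irr n _ b _ fun Q hQ => (key Q hQ).2.1) (irr n _ b _ fun Q hQ => (key Q hQ).1.2)
      · exact ext2 (irr n _ a _ fun Q hQ => (key Q hQ).1.1) (irr n _ a _ fun Q hQ => (key Q hQ).2.2)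

theorem par (n : ℕ) : Par (L (n + 1)) (J _) (2 ^ (n + 1)) := by
  intro x hx
  rcases classify hx with ⟨v, hv, e⟩ | ⟨v, hv, e⟩ | ⟨h1, h2, h3⟩
  · exact ⟨_, mB hv, e ▸ cAB hv.1 hv.1 (cg_refl v), e ▸ oAB _ _⟩
  · exact ⟨_, mA hv, e ▸ cg_symm (cAB hv.1 hv.1 (cg_refl v)), e ▸ CO_symm (H _) (oAB _ _)⟩
  · refine ⟨_, good_Z.mn (H _) hx, cg_symm (good_Z.cg x hx.1), ?_, ?_⟩
    · rw [in_split, lo_prL, hi_prL, LinearMap.neg_apply, inner_neg_right, h1.2, h2.2]; ring
    · rw [in_split, lo_J, hi_J, lo_prL, hi_prL, LinearMap.neg_apply, map_neg, inner_neg_right,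
        J0 (H n), J0 (H n)]; ring

theorem IJ_succ (n : ℕ) : IJ (MM (n + 1)) (2 ^ (n + 1) / 2) :=
  absIJ (H _) (by positivity) (par n) (irr _) (s_mem _) (reach _)

theorem IJ_zero : IJ (MM 0) 0 := by
  intro f h1 h2
  have a := s_mem 0
  have b := Mn_J (H 0) a
  have j := J0 (H 0) (s 0)
  have d1 := h1 _ a
  have d2 := h1 _ b
  have d3 := h1 _ (Mn_neg a)
  have d4 := h1 _ (Mn_neg b)
  have e1 := h2 _ a _ b j
  have e2 := h2 _ a _ (Mn_neg b) (by simp [j])
  have e3 := h2 _ (Mn_neg a) _ b (by simp [j])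
  have e4 := h2 _ (Mn_neg a) _ (Mn_neg b) (by simp [j])
  simp only [map_neg] at d3 d4 e2 e3 e4
  intro x hx y hy
  rcases M0 hx with e | e | e | e <;> rcases M0 hy with e' | e' | e' | e' <;> rw [e, e'] <;>
    (try simp only [map_neg]) <;> linarith

theorem span_MM (n : ℕ) : ⊤ ≤ Submodule.span ℝ (MM n) :=
  orb_span (irr n) (x := s n) (fun e => by
    have := (s_mem n).2
    rw [e, inner_zero_left] at this
    exact absurd this (by positivity)) fun P hP => hP.mn (H n) (s_mem n)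

theorem in_le {x y : E n} (hx : x ∈ MM n) (hy : y ∈ MM n) (h : x ≠ y) : ⟪x, y⟫ ≤ 2 ^ n / 2 := by
  have := minN n _ ((L n).sub_mem hx.1 hy.1) (sub_ne_zero.2 h)
  rw [inner_sub_left, inner_sub_right, inner_sub_right, hx.2, hy.2, real_inner_comm x y] at this
  linarith

theorem in_le0 {x y : E 0} (hx : x ∈ MM 0) (hy : y ∈ MM 0) (h : x ≠ y) : ⟪x, y⟫ ≤ 0 := by
  obtain ⟨a, b, h1, h2⟩ := (mem0 x).1 hx.1
  obtain ⟨c, d, h3, h4⟩ := (mem0 y).1 hy.1
  have := in_le hx hy h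
  rw [in0, h1, h2, h3, h4] at this ⊢
  have h5 : 2 * (a * c + b * d) ≤ 1 := by
    have : (2:ℝ) * (a * c + b * d) ≤ 1 := by linarith
    exact_mod_cast this
  have h6 : a * c + b * d ≤ 0 := by omega
  exact_mod_cast h6

noncomputable def sc (n : ℕ) : ℝ := (√(2 ^ n))⁻¹

theorem sc_pos (n : ℕ) : 0 < sc n := by rw [sc]; positivity

theorem sc_sq (n : ℕ) : sc n * sc n * 2 ^ n = 1 := by
  rw [sc, ← mul_inv, Real.mul_self_sqrt (by positivity), inv_mul_cancel₀ (by positivity)]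

theorem norm_MM {x : E n} (hx : x ∈ MM n) : ‖x‖ = √(2 ^ n) := by
  rw [← hx.2, real_inner_self_eq_norm_sq, Real.sqrt_sq (norm_nonneg x)]

theorem minVec_eq (n : ℕ) : minVec n = MM n := by
  ext x
  constructor
  · rintro ⟨h1, h2, h3⟩
    refine ⟨h1, le_antisymm ?_ (minN n x h1 h2)⟩
    have h4 := h3 _ (s_mem n).1 (fun e => by
      have := (s_mem n).2
      rw [e, inner_zero_left] at this
      exact absurd this (by positivity))
    rw [← (s_mem n).2, real_inner_self_eq_norm_sq, real_inner_self_eq_norm_sq]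
    exact pow_le_pow_left₀ (norm_nonneg x) h4 2
  · intro hx
    refine ⟨hx.1, fun e => ?_, fun y hy h0 => ?_⟩
    · have := hx.2
      rw [e, inner_zero_left] at this
      exact absurd this (by positivity)
    · have := minN n y hy h0
      rw [← hx.2, real_inner_self_eq_norm_sq, real_inner_self_eq_norm_sq] at this
      exact (abs_le_of_sq_le_sq' this (norm_nonneg y)).2

theorem kiss_eq (n : ℕ) : kiss n = (fun x => sc n • x) '' MM n := by
  rw [kiss, minVec_eq]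
  exact image_congr fun x hx => by rw [norm_MM hx, sc]

theorem kiss_fin (n : ℕ) : (kiss n).Finite := by rw [kiss_eq]; exact (fin n).image _

theorem kiss_norm {x : E n} (hx : x ∈ kiss n) : ‖x‖ = 1 := by
  rw [kiss_eq] at hx
  obtain ⟨y, hy, rfl⟩ := hx
  rw [norm_smul, norm_MM hy, Real.norm_eq_abs, abs_of_pos (sc_pos n), sc,
    inv_mul_cancel₀ (by positivity)]

theorem kiss_span (n : ℕ) : ⊤ ≤ Submodule.span ℝ (kiss n) := by
  refine (span_MM n).trans (Submodule.span_le.2 fun x hx => ?_)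
  have : x = (sc n)⁻¹ • (sc n • x) := by rw [smul_smul, inv_mul_cancel₀ (sc_pos n).ne', one_smul]
  rw [this]
  exact Submodule.smul_mem _ _ (Submodule.subset_span (by rw [kiss_eq]; exact ⟨x, hx, rfl⟩))

theorem kiss_le {x y : E n} (hx : x ∈ kiss n) (hy : y ∈ kiss n) (h : x ≠ y) :
    ⟪x, y⟫ ≤ 1 / 2 ∧ (n = 0 → ⟪x, y⟫ ≤ 0) := by
  rw [kiss_eq] at hx hy
  obtain ⟨x, hx, rfl⟩ := hx
  obtain ⟨y, hy, rfl⟩ := hy
  have h' : x ≠ y := fun e => h (by rw [e])
  have p := mul_pos (sc_pos n) (sc_pos n)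
  simp only [real_inner_smul_left, real_inner_smul_right, ← mul_assoc]
  constructor
  · have := mul_le_mul_of_nonneg_left (in_le hx hy h') p.le
    linarith [sc_sq n]
  · rintro rfl
    exact mul_nonpos_of_nonneg_of_nonpos p.le (in_le0 hx hy h')

theorem kiss_IJ (n : ℕ) : IJ (kiss (n + 1)) (1 / 2) := by
  have := IJ_scale (IJ_succ n) (sc (n + 1))
  rwa [← kiss_eq, ← mul_div_assoc, sc_sq] at this

theorem kiss_IJ0 : IJ (kiss 0) 0 := by
  have := IJ_scale IJ_zero (sc 0)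
  rwa [← kiss_eq, mul_zero] at this

theorem rigid_succ (n : ℕ) : Rigid (kiss (n + 1)) (1 / 2) :=
  jam (kiss_fin _) (kiss_span _) (fun _ => kiss_norm) (kiss_IJ n)

theorem rigid_zero : Rigid (kiss 0) 0 :=
  jam (kiss_fin _) (kiss_span _) (fun _ => kiss_norm) kiss_IJ0

theorem Rigid.mono {V : Type} [NormedAddCommGroup V] [InnerProductSpace ℝ V] {C : Set V} {c d : ℝ}
    (h : Rigid C c) (hd : d ≤ c) : Rigid C d := fun γ h1 h2 h3 h4 =>
  h γ h1 h2 h3 fun x hx y hy hxy t ht => (h4 x hx y hy hxy t ht).trans hd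

theorem cos_le {V : Type} [NormedAddCommGroup V] [InnerProductSpace ℝ V] {C : Set V} {c : ℝ}
    (h1 : ∀ x ∈ C, ‖x‖ = 1) (hc : ∀ x ∈ C, ∀ y ∈ C, x ≠ y → ⟪x, y⟫ ≤ c) (hc1 : -1 ≤ c)
    (hc2 : c ≤ 1) {a b : V} (ha : a ∈ C) (hb : b ∈ C) (hab : a ≠ b) :
    Real.cos (minAngle C) ≤ c := by
  have lb : ∀ θ ∈ {θ | ∃ x ∈ C, ∃ y ∈ C, x ≠ y ∧ θ = InnerProductGeometry.angle x y},
      Real.arccos c ≤ θ := by
    rintro _ ⟨x, hx, y, hy, hxy, rfl⟩
    rw [InnerProductGeometry.angle, h1 x hx, h1 y hy, one_mul, div_one]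
    exact Real.arccos_le_arccos (hc x hx y hy hxy)
  have l1 : Real.arccos c ≤ minAngle C := le_csInf ⟨_, a, ha, b, hb, hab, rfl⟩ lb
  have l2 : minAngle C ≤ Real.pi :=
    (csInf_le ⟨_, lb⟩ ⟨a, ha, b, hb, hab, rfl⟩).trans (InnerProductGeometry.angle_le_pi a b)
  have := Real.cos_le_cos_of_nonneg_of_le_pi (Real.arccos_nonneg c) l2 l1
  rwa [Real.cos_arccos hc1 hc2] at this

theorem main (n : ℕ) : Rigid (kiss n) (Real.cos (minAngle (kiss n))) := by
  have ha : sc n • s n ∈ kiss n := by rw [kiss_eq]; exact ⟨_, s_mem n, rfl⟩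
  have hb : sc n • (-s n) ∈ kiss n := by rw [kiss_eq]; exact ⟨_, Mn_neg (s_mem n), rfl⟩
  have hab : sc n • s n ≠ sc n • (-s n) := by
    intro e
    have h := kiss_norm ha
    rw [smul_neg, ← sub_eq_zero, sub_neg_eq_add, ← two_smul ℝ, smul_eq_zero] at e
    rcases e with e | e
    · norm_num at e
    · rw [e, norm_zero] at h; norm_num at h
  cases n with
  | zero =>
    exact rigid_zero.mono (cos_le (fun _ => kiss_norm)
      (fun x hx y hy h => (kiss_le hx hy h).2 rfl) (by norm_num) (by norm_num) ha hb hab)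
  | succ n =>
    exact (rigid_succ n).mono (cos_le (fun _ => kiss_norm)
      (fun x hx y hy h => (kiss_le hx hy h).1) (by norm_num) (by norm_num) ha hb hab)

end Pool.Agent.H10.BW
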