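import Pool.Agent.H10.Jam3

set_option autoImplicit false
open Set Module Filter
open scoped RealInnerProductSpace

namespace Pool.Agent.H10.BW
open Pool.Agent.H10.Jam

theorem rk (n : ℕ) : finrank ℝ (E n) = 2 ^ (n + 1) := by
  rw [← Module.finrank_mul_finrank ℝ ℂ (E n), Complex.finrank_real_complex,
    finrank_euclideanSpace]
  simp [pow_succ, mul_comm]

theorem two_rk {V : Type} [AddCommGroup V] [Module ℝ V] [FiniteDimensional ℝ V] (K : Finset V)
    (hs : ⊤ ≤ Submodule.span ℝ (K : Set V)) (hn : ∀ x ∈ K, -x ∈ K) :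
    2 * finrank ℝ V ≤ K.card := by
  classical
  let b := Basis.ofSpan hs
  have := FiniteDimensional.fintypeBasisIndex b
  have hb : ∀ i, b i ∈ K := fun i => Basis.ofSpan_subset hs ⟨i, rfl⟩
  rw [finrank_eq_card_basis b, two_mul, ← Fintype.card_sum, ← Finset.card_univ]
  have ne : ∀ i j, b i ≠ -b j := by
    intro i j e
    have h := congrArg (fun z => b.repr z i) e
    by_cases hij : j = i
    · simp [hij] at h; norm_num at h
    · simp [hij] at h
  refine Finset.card_le_card_of_injOn (Sum.elim b fun i => -b i) ?_ ?_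
  · rintro (i | i) _
    · exact hb i
    · exact hn _ (hb i)
  · rintro (i | i) _ (j | j) _ e
    · exact congrArg _ (b.injective e)
    · exact absurd e (ne i j)
    · exact absurd e.symm (ne j i)
    · exact congrArg _ (b.injective (neg_injective e))

theorem card_step (n : ℕ) :
    (fin n).toFinset.card * 2 ^ (n + 2) ≤ (fin (n + 1)).toFinset.card := by
  classical
  let A := (fin n).toFinset
  have hK : ∀ u ∈ A, 2 ^ (n + 2) ≤ (A.filter fun w => cg (L n) (J n) u w).card := by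
    intro u hu
    have hu' : u ∈ MM n := by simpa [A] using hu
    rw [pow_succ', ← rk]
    refine two_rk _ (orb_span (irr n) (x := u) (fun e => ?_) fun P hP => ?_) fun x hx => ?_
    · have := hu'.2
      rw [e, inner_zero_left] at this
      exact absurd this (by positivity)
    · simpa [A] using ⟨hP.mn (H n) hu', cg_symm (hP.cg u hu'.1)⟩
    · simp only [A, Finset.mem_filter, Finite.mem_toFinset] at hx ⊢
      exact ⟨Mn_neg hx.1, cg_trans hx.2 (cg_neg (H n) hx.1.1)⟩
  have h1 := Finset.card_nsmul_le_sum A _ _ hK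
  rw [← Finset.card_sigma, smul_eq_mul] at h1
  refine h1.trans (Finset.card_le_card_of_injOn (fun p => pr p.1 p.2) ?_ ?_)
  · rintro ⟨u, w⟩ hp
    simp only [A, Finset.coe_sigma, mem_sigma_iff, Finset.mem_coe, Finset.mem_filter,
      Finite.mem_toFinset] at hp ⊢
    exact mC hp.1 hp.2.1 hp.2.2
  · rintro ⟨u, w⟩ _ ⟨u', w'⟩ _ e
    have e1 := congrArg lo e
    have e2 := congrArg hi e
    simp only [lo_pr, hi_pr] at e1 e2
    rw [e1, e2]

theorem card_ge : ∀ n, 2 ^ ((n + 1) * (n + 2) / 2) ≤ (fin n).toFinset.card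
  | 0 => by
      refine Finset.one_lt_card.2 ⟨s 0, by simpa using s_mem 0, -s 0,
        (Finite.mem_toFinset _).2 (Mn_neg (s_mem 0)), fun e => ?_⟩
      have := congrArg (fun z : E 0 => (z o).re) e
      simp [s] at this
      norm_num at this
  | n + 1 => by
      refine le_trans ?_ (card_step n)
      have : (n + 1 + 1) * (n + 1 + 2) / 2 = (n + 1) * (n + 2) / 2 + (n + 2) := by
        rw [← Nat.add_mul_div_left _ _ two_pos]; congr 1; ring
      rw [this, pow_add]
      exact Nat.mul_le_mul_right _ (card_ge n)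

theorem Rigid.map {V W : Type} [NormedAddCommGroup V] [InnerProductSpace ℝ V]
    [NormedAddCommGroup W] [InnerProductSpace ℝ W] {C : Set V} {c : ℝ} (h : Rigid C c)
    (e : V ≃ₗᵢ[ℝ] W) : Rigid (e '' C) c := by
  intro γ h1 h2 h3 h4 t ht
  obtain ⟨g, hg⟩ := h (fun x t => e.symm (γ (e x) t))
    (fun x hx => e.symm.continuous.comp_continuousOn (h1 _ ⟨x, hx, rfl⟩))
    (fun x hx => by simp [h2 _ ⟨x, hx, rfl⟩])
    (fun x hx t ht => by simp [h3 _ ⟨x, hx, rfl⟩ t ht])
    (fun x hx y hy hxy t ht => by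
      rw [e.symm.inner_map_map]
      exact h4 _ ⟨x, hx, rfl⟩ _ ⟨y, hy, rfl⟩ (fun e' => hxy (e.injective e')) t ht) t ht
  refine ⟨e.symm.trans (g.trans e), ?_⟩
  rintro _ ⟨x, hx, rfl⟩
  simp [← hg x hx]

theorem big (n : ℕ) : ∃ C : Finset (EuclideanSpace ℝ (Fin (2 ^ (n + 2)))),
    (∀ x ∈ C, ‖x‖ = 1) ∧ (∀ x ∈ C, ∀ y ∈ C, x ≠ y → ⟪x, y⟫ ≤ 1 / 2) ∧
      Rigid (C : Set (EuclideanSpace ℝ (Fin (2 ^ (n + 2))))) (1 / 2) ∧
      2 ^ ((n + 2) * (n + 2 + 1) / 2) ≤ C.card := by
  let e : E (n + 1) ≃ₗᵢ[ℝ] EuclideanSpace ℝ (Fin (2 ^ (n + 2))) :=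
    ((stdOrthonormalBasis ℝ (E (n + 1))).reindex (finCongr (rk (n + 1)))).repr
  refine ⟨((kiss_fin (n + 1)).image e).toFinset, ?_, ?_, ?_, ?_⟩
  · simp only [Finite.mem_toFinset]
    rintro _ ⟨x, hx, rfl⟩
    rw [e.norm_map, kiss_norm hx]
  · simp only [Finite.mem_toFinset]
    rintro _ ⟨x, hx, rfl⟩ _ ⟨y, hy, rfl⟩ h
    rw [e.inner_map_map]
    exact (kiss_le hx hy fun e' => h (by rw [e'])).1
  · rw [Finite.coe_toFinset]
    exact (rigid_succ n).map e
  · refine (card_ge (n + 1)).trans (Finset.card_le_card_of_injOn (fun x => e (sc (n + 1) • x)) ?_ ?_)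
    · intro x hx
      simp only [Finite.coe_toFinset] at hx ⊢
      exact ⟨_, by rw [kiss_eq]; exact ⟨x, hx, rfl⟩, rfl⟩
    · intro x _ y _ h
      exact smul_right_injective _ (sc_pos _).ne' (e.injective h)

theorem grow (c : ℕ → ℕ) (h : ∀ k, 2 ≤ k → 2 ^ (k * (k + 1) / 2) ≤ c k) (a : ℕ) :
    Tendsto (fun k : ℕ => (c k : ℝ) / ((2 ^ k : ℕ) : ℝ) ^ a) atTop atTop := by
  refine tendsto_atTop_mono' _ ?_ (tendsto_pow_atTop_atTop_of_one_lt (one_lt_two (α := ℝ)))
  filter_upwards [eventually_ge_atTop (2 * a + 2)] with k hk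
  rw [le_div_iff₀ (by positivity)]
  have h1 : k + k * a ≤ k * (k + 1) / 2 := by
    rw [Nat.le_div_iff_mul_le two_pos]; nlinarith
  have h2 := (Nat.pow_le_pow_right two_pos h1).trans (h k (by omega))
  rw [pow_add, pow_mul] at h2
  exact_mod_cast h2

end Pool.Agent.H10.BW
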