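import Mathlib

set_option autoImplicit false

namespace Pool.Agent.H10.Mader

lemma cross {V E : Type} (tail head : E → V) (S : V → Prop) : ∀ (l : List E), l ≠ [] →
    (∀ e ∈ l.head?, S (tail e)) → (∀ e ∈ l.getLast?, ¬ S (head e)) →
    (∀ (k : ℕ) (a b : E), l[k]? = some a → l[k+1]? = some b → head a = tail b) →
    ∃ e ∈ l, S (tail e) ∧ ¬ S (head e) := by
  intro l
  induction l with
  | nil => intro h; exact absurd rfl h
  | cons a l ih =>
    intro _ h1 h2 h3
    by_cases ha : S (head a)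
    · cases l with
      | nil => exact absurd ha (h2 a (by simp))
      | cons b l =>
        obtain ⟨e, he, h⟩ := ih (by simp)
          (by
            intro e he
            simp only [List.head?_cons, Option.mem_def, Option.some.injEq] at he
            subst he
            rw [← h3 0 a b rfl rfl]; exact ha)
          (by intro e he; exact h2 e (by simpa [List.getLast?_cons_cons] using he))
          (fun k x y hx hy => h3 (k + 1) x y hx hy)
        exact ⟨e, List.mem_cons_of_mem _ he, h⟩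
    · exact ⟨a, List.mem_cons_self, h1 a (by simp), ha⟩

def tail (e : Fin 24) : Fin 6 := ⟨e.1 / 4, by omega⟩

def head : Fin 24 → Fin 6 :=
  ![2, 5, 5, 5, 3, 3, 4, 3, 0, 4, 4, 4, 1, 4, 4, 1, 1, 2, 2, 2, 2, 0, 0, 2]

lemma noloop : ∀ e, tail e ≠ head e := by decide

lemma outdeg (v : Fin 6) : 4 ≤ Nat.card {e : Fin 24 // tail e = v} := by
  rw [Nat.card_eq_fintype_card, Fintype.card_subtype]
  revert v
  decide +kernel

lemma cuts : ∀ x y : Fin 6, x ≠ y → ∃ S : Finset (Fin 6), x ∈ S ∧ y ∉ S ∧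
    (Finset.univ.filter (fun e => tail e ∈ S ∧ head e ∉ S)).card ≤ 3 := by
  decide +kernel

theorem main (x y : Fin 6) (hxy : x ≠ y) (P : Fin 4 → List (Fin 24))
    (h1 : ∀ i, P i ≠ [] ∧ (∀ e ∈ (P i).head?, tail e = x) ∧
      (∀ e ∈ (P i).getLast?, head e = y) ∧
      ∀ (k : ℕ) (a b : Fin 24), (P i)[k]? = some a → (P i)[k+1]? = some b → head a = tail b)
    (h2 : ∀ i j, i ≠ j → ∀ e ∈ P i, e ∉ P j) : False := by
  obtain ⟨S, hx, hy, hS⟩ := cuts x y hxy
  have h3 : ∀ i, ∃ e ∈ P i, tail e ∈ S ∧ ¬ head e ∈ S := fun i =>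
    cross tail head (· ∈ S) (P i) (h1 i).1 (fun e he => by rw [(h1 i).2.1 e he]; exact hx)
      (fun e he => by rw [(h1 i).2.2.1 e he]; exact hy) (h1 i).2.2.2
  choose f hf using h3
  have h4 := Finset.card_le_card_of_injOn (s := (Finset.univ : Finset (Fin 4)))
    (t := Finset.univ.filter (fun e => tail e ∈ S ∧ head e ∉ S)) f
    (fun i _ => by simpa using (hf i).2)
    (fun i _ j _ hij => by
      by_contra hne
      exact h2 i j hne _ (hf i).1 (hij ▸ (hf j).1))
  simp at h4
  omega

end Pool.Agent.H10.Mader
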