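import Mathlib

set_option autoImplicit false
open Set

namespace Pool.Agent.H10.NK

abbrev Tm := List (ℤ × ℕ × ℕ)

noncomputable def bil (t : Tm) (z w : ℕ → ℝ) : ℝ :=
  (t.map fun p => (p.1 : ℝ) * z p.2.1 * w p.2.2).sum

def bilZ : Tm → (ℕ → ℤ) → (ℕ → ℤ) → ℤ
  | [], _, _ => 0
  | p :: t, Z, W => Int.add (Int.mul (Int.mul p.1 (Z p.2.1)) (W p.2.2)) (bilZ t Z W)

def sz : Tm → ℕ
  | [] => 0
  | p :: t => p.1.natAbs + sz t

@[simp] theorem bil_nil (z w : ℕ → ℝ) : bil [] z w = 0 := rfl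

@[simp] theorem bil_cons (p : ℤ × ℕ × ℕ) (t : Tm) (z w : ℕ → ℝ) :
    bil (p :: t) z w = (p.1 : ℝ) * z p.2.1 * w p.2.2 + bil t z w := by simp [bil]

theorem bil_append (t s : Tm) (z w : ℕ → ℝ) : bil (t ++ s) z w = bil t z w + bil s z w := by
  simp [bil]

theorem bil_range (n : ℕ) (g : ℕ → ℤ × ℕ × ℕ) (z w : ℕ → ℝ) :
    bil ((List.range n).map g) z w = ∑ j : Fin n, ((g j).1 : ℝ) * z (g j).2.1 * w (g j).2.2 := by
  induction n with
  | zero => simp
  | succ n ih => rw [List.range_succ, List.map_append, bil_append, ih, Fin.sum_univ_castSucc]; simp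

theorem bil_cast (t : Tm) (Z W : ℕ → ℤ) (d e : ℝ) :
    bil t (fun j => Z j / d) (fun j => W j / e) = bilZ t Z W / (d * e) := by
  induction t with
  | nil => simp [bilZ]
  | cons p t ih => rw [bil_cons, ih, bilZ, Int.add_def, Int.mul_def, Int.mul_def]; push_cast; ring

theorem bil_addl (t : Tm) (z z' w : ℕ → ℝ) :
    bil t (fun j => z j + z' j) w = bil t z w + bil t z' w := by
  induction t with
  | nil => simp
  | cons p t ih => simp only [bil_cons, ih]; ring

theorem bil_addr (t : Tm) (z w w' : ℕ → ℝ) :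
    bil t z (fun j => w j + w' j) = bil t z w + bil t z w' := by
  induction t with
  | nil => simp
  | cons p t ih => simp only [bil_cons, ih]; ring

theorem bil_suml {ι : Type} [Fintype ι] (t : Tm) (B : ℕ → ι → ℝ) (u : ι → ℝ) (w : ℕ → ℝ) :
    bil t (fun j => ∑ k, B j k * u k) w = ∑ k, bil t (fun j => B j k) w * u k := by
  induction t with
  | nil => simp
  | cons p t ih =>
    simp only [bil_cons, ih, add_mul, Finset.sum_add_distrib, Finset.mul_sum, Finset.sum_mul]
    congr 1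
    exact Finset.sum_congr rfl fun k _ => by ring

theorem bil_sumr {ι : Type} [Fintype ι] (t : Tm) (B : ℕ → ι → ℝ) (u : ι → ℝ) (z : ℕ → ℝ) :
    bil t z (fun j => ∑ k, B j k * u k) = ∑ k, bil t z (fun j => B j k) * u k := by
  induction t with
  | nil => simp
  | cons p t ih =>
    simp only [bil_cons, ih, add_mul, Finset.sum_add_distrib, Finset.mul_sum]
    congr 1
    exact Finset.sum_congr rfl fun k _ => by ring

theorem bil_bd (t : Tm) {z w : ℕ → ℝ} {r s : ℝ} (hz : ∀ j, |z j| ≤ r) (hw : ∀ j, |w j| ≤ s) :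
    |bil t z w| ≤ sz t * (r * s) := by
  induction t with
  | nil => simp [sz]
  | cons p t ih =>
    rw [bil_cons, sz]
    refine (abs_add_le _ _).trans ?_
    have h1 : |(p.1 : ℝ) * z p.2.1 * w p.2.2| ≤ (p.1.natAbs : ℝ) * (r * s) := by
      rw [mul_assoc, abs_mul, abs_mul, Nat.cast_natAbs, Int.cast_abs]
      exact mul_le_mul_of_nonneg_left (mul_le_mul (hz _) (hw _) (abs_nonneg _)
        ((abs_nonneg _).trans (hz 0))) (abs_nonneg _)
    push_cast
    linarith

theorem bil_near (t : Tm) {z z0 : ℕ → ℝ} {r M : ℝ} (h : ∀ j, |z j - z0 j| ≤ r)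
    (hM : ∀ j, |z0 j| ≤ M) : |bil t z z - bil t z0 z0| ≤ sz t * (r * (M + r) + M * r) := by
  have e : z = fun j => z0 j + (z j - z0 j) := by funext j; ring
  have h1 := bil_bd t h (fun j => show |z j| ≤ M + r by
    have := abs_add_le (z0 j) (z j - z0 j)
    rw [add_sub_cancel] at this
    linarith [h j, hM j])
  have h2 := bil_bd t hM h
  have e1 : bil t z z = bil t z0 z + bil t (fun j => z j - z0 j) z := by
    rw [← bil_addl]; congr 1
  have e2 : bil t z0 z = bil t z0 z0 + bil t z0 (fun j => z j - z0 j) := by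
    rw [← bil_addr]; congr 1
  rw [e1, e2, abs_le] at *
  constructor <;> linarith [h1.1, h1.2, h2.1, h2.2]

theorem newton {ι : Type} [Fintype ι] [DecidableEq ι] (T : ι → Tm) (z0 : ℕ → ℝ) (B : ℕ → ι → ℝ)
    (e b S ρ : ℝ) (hρ : 0 ≤ ρ) (hb0 : 0 ≤ b) (he0 : 0 ≤ e)
    (h1 : ∀ a k, |(if a = k then 1 else 0) -
      (bil (T a) z0 (fun j => B j k) + bil (T a) (fun j => B j k) z0)| ≤ e)
    (h2 : ∀ j k, |B j k| ≤ b) (h3 : ∀ a, (sz (T a) : ℝ) ≤ S) (h4 : ∀ a, |bil (T a) z0 z0| ≤ ρ / 2)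
    (h5 : Fintype.card ι * e + 2 * S * (Fintype.card ι * b) ^ 2 * ρ ≤ 1 / 2) :
    ∃ u : ι → ℝ, (∀ j, |∑ k, B j k * u k| ≤ Fintype.card ι * b * ρ) ∧
      ∀ a, bil (T a) (fun j => z0 j + ∑ k, B j k * u k) (fun j => z0 j + ∑ k, B j k * u k) = 0 := by
  set m : ℝ := (Fintype.card ι : ℝ) with hm
  have hm0 : 0 ≤ m := by positivity
  let d : (ι → ℝ) → ℕ → ℝ := fun u j => ∑ k, B j k * u k
  have dbd : ∀ u j, |d u j| ≤ m * b * ‖u‖ := by
    intro u j
    refine (Finset.abs_sum_le_sum_abs _ _).trans ?_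
    have : ∀ k ∈ Finset.univ, |B j k * u k| ≤ b * ‖u‖ := fun k _ => by
      rw [abs_mul]
      exact mul_le_mul (h2 j k) (norm_le_pi_norm u k) (abs_nonneg _) hb0
    refine (Finset.sum_le_card_nsmul _ _ _ this).trans (le_of_eq ?_)
    rw [nsmul_eq_mul, Finset.card_univ, mul_assoc]
  let N : (ι → ℝ) → ι → ℝ := fun u a =>
    u a - bil (T a) (fun j => z0 j + d u j) (fun j => z0 j + d u j)
  have lip : ∀ u v : ι → ℝ, ‖u‖ ≤ ρ → ‖v‖ ≤ ρ → ‖N u - N v‖ ≤ 1 / 2 * ‖u - v‖ := by
    intro u v hu hv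
    refine (pi_norm_le_iff_of_nonneg (by positivity)).2 fun a => ?_
    have du : d u = fun j => d v j + d (u - v) j := by
      funext j
      simp only [d, Pi.sub_apply, ← Finset.sum_add_distrib]
      exact Finset.sum_congr rfl fun k _ => by ring
    have q1 : bil (T a) (d u) (d u) = bil (T a) (d v) (d v) + bil (T a) (d v) (d (u - v)) +
        bil (T a) (d (u - v)) (d u) := by
      rw [← bil_addr, ← du, ← bil_addl, ← du]
    have l1 : bil (T a) z0 (d u) = bil (T a) z0 (d v) + bil (T a) z0 (d (u - v)) := by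
      rw [← bil_addr, ← du]
    have l2 : bil (T a) (d u) z0 = bil (T a) (d v) z0 + bil (T a) (d (u - v)) z0 := by
      rw [← bil_addl, ← du]
    have l3 : (u - v) a - (bil (T a) z0 (d (u - v)) + bil (T a) (d (u - v)) z0) =
        ∑ k, ((if a = k then 1 else 0) -
          (bil (T a) z0 (fun j => B j k) + bil (T a) (fun j => B j k) z0)) * (u - v) k := by
      simp only [d, bil_suml, bil_sumr, sub_mul, add_mul, Finset.sum_sub_distrib,
        Finset.sum_add_distrib, ite_mul, one_mul, zero_mul, Finset.sum_ite_eq, Finset.mem_univ,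
        if_true]
    have l4 : |(u - v) a - (bil (T a) z0 (d (u - v)) + bil (T a) (d (u - v)) z0)| ≤
        m * e * ‖u - v‖ := by
      rw [l3]
      refine (Finset.abs_sum_le_sum_abs _ _).trans ?_
      refine (Finset.sum_le_card_nsmul _ _ (e * ‖u - v‖) fun k _ => ?_).trans (le_of_eq ?_)
      · rw [abs_mul]
        exact mul_le_mul (h1 a k) (norm_le_pi_norm (u - v) k) (abs_nonneg _) he0
      · rw [nsmul_eq_mul, Finset.card_univ, mul_assoc]
    have bu : ∀ j, |d u j| ≤ m * b * ρ := fun j =>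
      (dbd u j).trans (mul_le_mul_of_nonneg_left hu (by positivity))
    have bv : ∀ j, |d v j| ≤ m * b * ρ := fun j =>
      (dbd v j).trans (mul_le_mul_of_nonneg_left hv (by positivity))
    have n0 := norm_nonneg (u - v)
    have q2 := (bil_bd (T a) bv (dbd (u - v))).trans
      (mul_le_mul_of_nonneg_right (h3 a) (by positivity))
    have q3 := (bil_bd (T a) (dbd (u - v)) bu).trans
      (mul_le_mul_of_nonneg_right (h3 a) (by positivity))
    have h6 := mul_le_mul_of_nonneg_right h5 n0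
    have e0 : (N u - N v) a = ((u - v) a - (bil (T a) z0 (d (u - v)) + bil (T a) (d (u - v)) z0)) -
        bil (T a) (d v) (d (u - v)) - bil (T a) (d (u - v)) (d u) := by
      simp only [N, Pi.sub_apply, bil_addl, bil_addr]
      rw [q1, l1, l2]; ring
    rw [Real.norm_eq_abs, e0]
    rw [abs_le] at *
    constructor <;> nlinarith [l4.1, l4.2, q2.1, q2.2, q3.1, q3.2]
  have N0 : ‖N 0‖ ≤ ρ / 2 := by
    refine (pi_norm_le_iff_of_nonneg (by positivity)).2 fun a => ?_
    simpa [N, d] using h4 a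
  have mp : MapsTo N (Metric.closedBall 0 ρ) (Metric.closedBall 0 ρ) := by
    intro u hu
    rw [mem_closedBall_zero_iff] at hu ⊢
    have := lip u 0 hu (by simpa using hρ)
    rw [sub_zero] at this
    have h7 := norm_add_le (N u - N 0) (N 0)
    rw [sub_add_cancel] at h7
    linarith
  have cw : ContractingWith (1 / 2 : NNReal) (mp.restrict N _ _) := by
    refine ⟨by norm_num, LipschitzWith.of_dist_le_mul fun u v => ?_⟩
    have := lip u v (mem_closedBall_zero_iff.1 u.2) (mem_closedBall_zero_iff.1 v.2)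
    simpa [Subtype.dist_eq, dist_eq_norm] using this
  obtain ⟨u, hu, hf, _⟩ := cw.exists_fixedPoint' Metric.isClosed_closedBall.isComplete mp
    (Metric.mem_closedBall_self hρ) (edist_ne_top _ _)
  refine ⟨u, fun j => (dbd u j).trans (mul_le_mul_of_nonneg_left (mem_closedBall_zero_iff.1 hu)
    (by positivity)), fun a => ?_⟩
  have := congrFun hf a
  simp only [N] at this
  linarith

/-- signed digit `j` of width `w` -/
def dec (w c j : ℕ) : ℤ :=
  Int.subNatNat (Nat.land (Nat.shiftRight c (Nat.mul w j)) (Nat.sub (Nat.pow 2 w) 1))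
    (Nat.pow 2 (Nat.sub w 1))

theorem dec_bd (w c j : ℕ) (hw : 0 < w) : |dec w c j| ≤ 2 ^ (w - 1) := by
  have h : Nat.land (Nat.shiftRight c (Nat.mul w j)) (Nat.sub (Nat.pow 2 w) 1) ≤ 2 ^ w :=
    Nat.and_le_right.trans (Nat.sub_le _ _)
  rw [dec, Int.subNatNat_eq_coe]
  generalize Nat.land (Nat.shiftRight c (Nat.mul w j)) (Nat.sub (Nat.pow 2 w) 1) = x at *
  obtain ⟨v, rfl⟩ := Nat.exists_eq_add_of_lt hw
  simp only [zero_add, Nat.add_sub_cancel, Nat.sub_eq, Nat.pow_eq] at *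
  rw [pow_succ] at h
  have h1 : (x:ℤ) ≤ 2 ^ v * 2 := by exact_mod_cast h
  have h2 : (0:ℤ) ≤ x := Int.natCast_nonneg x
  rw [abs_le]
  push_cast
  constructor <;> linarith

def W (w c j : ℕ) : ℤ := if j < 2 then 0 else dec w c j

theorem W_bd (w c j : ℕ) (hw : 0 < w) : |W w c j| ≤ 2 ^ (w - 1) := by
  rw [W]
  split_ifs
  · positivity
  · exact dec_bd w c j hw

abbrev Rw := List (ℕ × ℕ) × List (ℕ × ℕ) × ℕ × ℕ

noncomputable def lin (M c : ℕ) (l : List (ℕ × ℕ)) (i : ℕ) : ℕ :=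
  l.rec i (fun p _ r => Nat.add (Nat.mul p.1 (Nat.land (Nat.shiftRight c p.2) M)) r)

noncomputable def val (M c : ℕ) (s : Rw) : ℤ := (lin M c s.1 s.2.2.2 : ℤ) - lin M c s.2.1 s.2.2.1

theorem lin_cons (M c : ℕ) (p : ℕ × ℕ) (l : List (ℕ × ℕ)) (i : ℕ) :
    lin M c (p :: l) i = p.1 * Nat.land (Nat.shiftRight c p.2) M + lin M c l i := rfl

theorem lin_add (M c : ℕ) (l : List (ℕ × ℕ)) (i d : ℕ) : lin M c l (i + d) = lin M c l i + d := by
  induction l with
  | nil => rfl
  | cons p l ih => rw [lin_cons, lin_cons, ih, add_assoc]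

def put (w : ℕ) (x : ℤ) (j : ℕ) (s : Rw) : Rw :=
  if j < 2 then s else
    match x with
    | Int.ofNat 0 => s
    | Int.ofNat (a + 1) => ((a + 1, w * j) :: s.1, s.2.1, s.2.2.1 + (a + 1) * 2 ^ (w - 1), s.2.2.2)
    | Int.negSucc a => (s.1, (a + 1, w * j) :: s.2.1, s.2.2.1, s.2.2.2 + (a + 1) * 2 ^ (w - 1))

theorem val_put (w c : ℕ) (x : ℤ) (j : ℕ) (s : Rw) :
    val (2 ^ w - 1) c (put w x j s) = x * W w c j + val (2 ^ w - 1) c s := by
  unfold put W
  split_ifs with h
  · simp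
  rw [dec, Int.subNatNat_eq_coe]
  rcases x with (_ | a) | a
  · simp
  · simp only [val, lin_cons, lin_add, Nat.sub_eq, Nat.pow_eq, Nat.mul_eq, Int.ofNat_eq_natCast]
    push_cast; ring
  · simp only [val, lin_cons, lin_add, Nat.sub_eq, Nat.pow_eq, Nat.mul_eq, Int.negSucc_eq]
    push_cast; ring

def cp1 (w : ℕ) (Z : ℕ → ℤ) : Tm → Rw
  | [] => ([], [], 0, 0)
  | p :: t => put w (p.1 * Z p.2.2) p.2.1 (put w (p.1 * Z p.2.1) p.2.2 (cp1 w Z t))

def cp2 (w : ℕ) (Z : ℕ → ℤ) : Tm → Rw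
  | [] => ([], [], 0, 0)
  | p :: t => put w (p.1 * Z p.2.2) p.2.1 (cp2 w Z t)

theorem val_cp1 (w c : ℕ) (Z : ℕ → ℤ) (t : Tm) :
    val (2 ^ w - 1) c (cp1 w Z t) = bilZ t Z (W w c) + bilZ t (W w c) Z := by
  induction t with
  | nil => rfl
  | cons p t ih =>
    rw [cp1, val_put, val_put, ih, bilZ, bilZ]
    simp only [Int.add_def, Int.mul_def]; ring

theorem val_cp2 (w c : ℕ) (Z : ℕ → ℤ) (t : Tm) :
    val (2 ^ w - 1) c (cp2 w Z t) = bilZ t (W w c) Z := by
  induction t with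
  | nil => rfl
  | cons p t ih =>
    rw [cp2, val_put, ih, bilZ]
    simp only [Int.add_def, Int.mul_def]; ring

def cl (E x y : ℕ) : Bool := Bool.and (Nat.ble x (Nat.add y E)) (Nat.ble y (Nat.add x E))

noncomputable def col (M D E : ℕ) (L : List Rw) (k c : ℕ) : ℕ → Bool :=
  L.rec (fun _ => true) (fun l _ r a => Bool.and (cl E (lin M c l.1 l.2.2.2)
    (Nat.add (cond (Nat.beq a k) D 0) (lin M c l.2.1 l.2.2.1))) (r (Nat.succ a)))

theorem col_ok (M D E k c : ℕ) (g : ℕ → Rw) : ∀ (m a0 : ℕ),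
    col M D E ((List.range' a0 m).map g) k c a0 = true → ∀ a, a0 ≤ a → a < a0 + m →
      |(if a = k then (D:ℤ) else 0) - val M c (g a)| ≤ E := by
  intro m
  induction m with
  | zero => intro a0 _ a h1 h2; omega
  | succ m ih =>
    intro a0 h a h1 h2
    rw [List.range'_succ, List.map_cons] at h
    obtain ⟨h3, h4⟩ := Bool.and_eq_true_iff.1 h
    rcases h1.eq_or_lt with e | e
    · subst e
      simp only [cl, Bool.and_eq_true, Nat.ble_eq, Nat.add_eq] at h3
      rw [val, abs_le]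
      by_cases hk : a0 = k
      · simp only [hk, Nat.beq_refl, cond_true, if_true] at h3 ⊢
        omega
      · have : Nat.beq a0 k = false := by
          rw [← Bool.not_eq_true, Nat.beq_eq]; exact hk
        simp only [this, cond_false, hk, if_false] at h3 ⊢
        omega
    · exact ih (a0 + 1) h4 a e (by omega)

noncomputable def chk (f : ℕ → ℕ → Bool) (l : List ℕ) : ℕ → Bool :=
  l.rec (fun _ => true) (fun c _ r k => Bool.and (f k c) (r (Nat.succ k)))

theorem chk_ok (f : ℕ → ℕ → Bool) : ∀ (l : List ℕ) (k0 : ℕ), chk f l k0 = true →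
    ∀ k < l.length, f (k0 + k) (l.getD k 0) = true
  | [], _, _, k, hk => absurd hk (Nat.not_lt_zero k)
  | c :: l, k0, h, 0, _ => (Bool.and_eq_true_iff.1 h).1
  | c :: l, k0, h, k + 1, hk => by
      have := chk_ok f l (k0 + 1) (Bool.and_eq_true_iff.1 h).2 k (Nat.lt_of_succ_lt_succ hk)
      rwa [Nat.add_right_comm] at this

theorem chk_app (f : ℕ → ℕ → Bool) : ∀ (l l' : List ℕ) (k0 : ℕ), chk f l k0 = true →
    chk f l' (k0 + l.length) = true → chk f (l ++ l') k0 = true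
  | [], _, _, _, h => h
  | c :: l, l', k0, h, h' => Bool.and_eq_true_iff.2 ⟨(Bool.and_eq_true_iff.1 h).1,
      chk_app f l l' (k0 + 1) (Bool.and_eq_true_iff.1 h).2 (by
        rwa [List.length_cons, ← add_assoc, Nat.add_right_comm] at h')⟩

/-- entries of the approximate inverse identity -/
theorem ent (w D E m : ℕ) (g : ℕ → Rw) (L : List Rw) (hL : L = (List.range' 0 m).map g)
    (cs : List ℕ) (h : chk (fun k c => col (2 ^ w - 1) D E L k c 0) cs 0 = true) (a k : ℕ)
    (ha : a < m) (hk : k < cs.length) :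
    |(if a = k then (D:ℤ) else 0) - val (2 ^ w - 1) (cs.getD k 0) (g a)| ≤ E := by
  have := chk_ok _ cs 0 h k hk
  rw [zero_add, hL] at this
  exact col_ok _ D E k _ g m 0 this a (Nat.zero_le a) (by omega)

end Pool.Agent.H10.NK
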