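import Mathlib

set_option autoImplicit false

namespace Pool.Agent.H10.NonReal

open Polynomial

theorem exists_nonreal (p : ℂ[X]) (t e : ℝ)
    (h : Complex.normSq (p.eval ((t : ℂ) + e * Complex.I)) < Complex.normSq (p.eval (t : ℂ))) :
    ∃ z : ℂ, p.IsRoot z ∧ z.im ≠ 0 := by
  by_contra hn
  push Not at hn
  have hp : p ≠ 0 := by
    rintro rfl
    simp at h
  have hs : p.Splits := IsAlgClosed.splits p
  rw [hs.eval_eq_prod_roots, hs.eval_eq_prod_roots, map_mul, map_mul, map_multiset_prod,
    map_multiset_prod, Multiset.map_map, Multiset.map_map] at h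
  refine absurd h (not_lt.2 (mul_le_mul_of_nonneg_left ?_ (Complex.normSq_nonneg _)))
  refine Multiset.prod_map_le_prod_map₀ _ _ (fun a _ => Complex.normSq_nonneg _) ?_
  intro a ha
  have h0 := hn a ((mem_roots hp).1 ha)
  simp only [Function.comp, Complex.normSq_apply]
  simp [h0]
  nlinarith [mul_self_nonneg e]

end Pool.Agent.H10.NonReal
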