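import Mathlib

set_option autoImplicit false

namespace Pool.Agent.H10.OddCol

open Finset

lemma three (x y z : ℕ) (hx : x = 0 ∨ Odd x) (hy : y = 0 ∨ Odd y) (hz : z = 0 ∨ Odd z)
    (hs : Odd (x + y + z)) (h0 : x ≠ 0) : (y ≠ 0 ↔ z ≠ 0) := by
  simp only [Nat.odd_iff] at *
  omega

lemma sum3 (f : Fin 3 → ℕ) (a b c : Fin 3) (hab : a ≠ b) (hac : a ≠ c) (hbc : b ≠ c) :
    ∑ i, f i = f a + f b + f c := by
  rw [Fin.sum_univ_three]
  fin_cases a <;> fin_cases b <;> fin_cases c <;> simp_all <;> omega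

lemma clique (m : ℕ) (hm : Even m) (e : Fin m → Fin m → Fin 3) (hsym : ∀ a b, e a b = e b a)
    (p q : Fin m → Fin 3) (D : Fin m → Fin 3 → ℕ)
    (hD : ∀ a col, D a col = (univ.filter (fun b => b ≠ a ∧ e a b = col)).card
      + (if p a = col then 1 else 0) + (if q a = col then 1 else 0))
    (h : ∀ a col, D a col = 0 ∨ Odd (D a col)) :
    (∀ col, Even ((univ.filter (fun a => p a = col)).card + (univ.filter (fun a => q a = col)).card)) ∨
    ∃ c0, (univ.filter (fun a => p a = c0)).card ≠ 0 ∧ (univ.filter (fun a => q a = c0)).card ≠ 0 ∧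
      Even ((univ.filter (fun a => p a = c0)).card + (univ.filter (fun a => q a = c0)).card) ∧
      ∀ col, col ≠ c0 →
        Odd ((univ.filter (fun a => p a = col)).card + (univ.filter (fun a => q a = col)).card) := by
  classical
  have key : ∀ col, Even ((univ.filter (fun a => p a = col)).card
      + (univ.filter (fun a => q a = col)).card) ↔
      Even (univ.filter (fun a => D a col ≠ 0)).card := by
    intro col
    let H : SimpleGraph (Fin m) :=
      { Adj := fun a b => b ≠ a ∧ e a b = col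
        symm := ⟨fun a b hab => ⟨fun h' => hab.1 h'.symm, by rw [hsym]; exact hab.2⟩⟩
        loopless := ⟨fun a ha => ha.1 rfl⟩ }
    have h1 := H.sum_degrees_eq_twice_card_edges
    have h2 : ∀ a, H.degree a = (univ.filter (fun b => b ≠ a ∧ e a b = col)).card := by
      intro a
      rw [← SimpleGraph.card_neighborFinset_eq_degree, SimpleGraph.neighborFinset_eq_filter]
    have h3 : ∑ a, D a col = 2 * H.edgeFinset.card + ((univ.filter (fun a => p a = col)).card
      + (univ.filter (fun a => q a = col)).card) := by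
      rw [← h1, card_filter, card_filter, ← sum_add_distrib, ← sum_add_distrib]
      refine sum_congr rfl (fun a _ => ?_)
      rw [hD, h2, add_assoc]
    have h4 := Finset.even_sum_iff_even_card_odd (s := (univ : Finset (Fin m))) (fun a => D a col)
    have h5 : univ.filter (fun a => Odd (D a col)) = univ.filter (fun a => D a col ≠ 0) := by
      refine filter_congr (fun a _ => ?_)
      have := h a col
      simp only [Nat.odd_iff] at *
      omega
    rw [← h5, ← h4, h3]
    simp only [Nat.even_iff]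
    omega
  have htot : ∀ a, Odd (∑ col, D a col) := by
    intro a
    have h1 : ∑ col, (univ.filter (fun b => b ≠ a ∧ e a b = col)).card = m - 1 := by
      have := card_eq_sum_card_fiberwise (s := univ.filter (fun b : Fin m => b ≠ a))
        (t := (univ : Finset (Fin 3))) (f := fun b => e a b) (fun _ _ => mem_coe.2 (mem_univ _))
      rw [filter_ne', card_erase_of_mem (mem_univ _), card_univ, Fintype.card_fin] at this
      rw [this]
      refine sum_congr rfl (fun col _ => ?_)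
      congr 1
      ext b; simp
    have h2 : ∑ col, D a col = m - 1 + 1 + 1 := by
      rw [← h1]
      simp only [hD, sum_add_distrib]
      simp
    have h3 : 0 < m := a.pos
    rw [h2]
    simp only [Nat.odd_iff, Nat.even_iff] at *
    omega
  by_cases hall : ∀ a col, D a col ≠ 0
  · left
    intro col
    rw [key, filter_true_of_mem (fun a _ => hall a col), card_univ, Fintype.card_fin]
    exact hm
  · push Not at hall
    obtain ⟨a0, c1, h0⟩ := hall
    have hp0 : D a0 (p a0) ≠ 0 := by rw [hD]; simp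
    have third : ∀ x y : Fin 3, x ≠ y → ∃ z, z ≠ x ∧ z ≠ y := by decide
    have two : ∀ x y z w : Fin 3, x ≠ y → x ≠ z → y ≠ z → w = x ∨ w = y ∨ w = z := by decide
    have hc1 : p a0 ≠ c1 := fun h' => hp0 (h' ▸ h0)
    have eqv : ∀ b, D b (p a0) ≠ 0 → ∀ x y, x ≠ p a0 → y ≠ p a0 → (D b x ≠ 0 ↔ D b y ≠ 0) := by
      intro b hb x y hx hy
      by_cases hxy : x = y
      · rw [hxy]
      · have := htot b
        rw [sum3 _ (p a0) x y hx.symm hy.symm hxy] at this
        exact three _ _ _ (h _ _) (h _ _) (h _ _) this hb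
    have mono : ∀ col, col ≠ p a0 → D a0 col = 0 := by
      intro col hcol
      by_contra hne
      exact ((eqv a0 hp0 col c1 hcol hc1.symm).1 hne) h0
    have hq : q a0 = p a0 := by
      by_contra hne
      have := mono _ hne
      rw [hD] at this
      simp at this
    have hb : ∀ b, D b (p a0) ≠ 0 := by
      intro b
      by_cases hba : b = a0
      · rw [hba]; exact hp0
      · have he : e a0 b = p a0 := by
          by_contra hne
          have := mono _ hne
          rw [hD] at this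
          have h2 : (univ.filter (fun b' => b' ≠ a0 ∧ e a0 b' = e a0 b)).card = 0 := by omega
          rw [card_eq_zero, filter_eq_empty_iff] at h2
          exact h2 (mem_univ b) ⟨hba, rfl⟩
        rw [hD]
        have : 0 < (univ.filter (fun b' => b' ≠ b ∧ e b b' = p a0)).card :=
          card_pos.2 ⟨a0, by simp [hsym b a0, he, Ne.symm hba]⟩
        omega
    have e0 : Even ((univ.filter (fun a => p a = p a0)).card
        + (univ.filter (fun a => q a = p a0)).card) := by
      rw [key, filter_true_of_mem (fun a _ => hb a), card_univ, Fintype.card_fin]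
      exact hm
    have same : ∀ x, x ≠ p a0 → univ.filter (fun a => D a x ≠ 0) = univ.filter (fun a => D a c1 ≠ 0) :=
      fun x hx => filter_congr (fun b _ => eqv b (hb b) x c1 hx hc1.symm)
    by_cases hev : Even (univ.filter (fun a => D a c1 ≠ 0)).card
    · left
      intro col
      by_cases hc : col = p a0
      · rw [hc]; exact e0
      · rw [key, same col hc]; exact hev
    · right
      refine ⟨p a0, ?_, ?_, e0, ?_⟩
      · exact (card_pos.2 ⟨a0, by simp⟩).ne'
      · exact (card_pos.2 ⟨a0, by simp [hq]⟩).ne'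
      · intro col hc
        rw [← Nat.not_even_iff_odd, key, same col hc]; exact hev

lemma edge (u w : Fin 3 → ℕ) (μ ν : Fin 3) (hu : u μ = 0) (hw : w ν = 0)
    (su : Even (∑ i, u i)) (sw : Even (∑ i, w i))
    (h : (∀ col, Even (u col + w col)) ∨ ∃ c0, u c0 ≠ 0 ∧ w c0 ≠ 0 ∧ Even (u c0 + w c0) ∧
      ∀ col, col ≠ c0 → Odd (u col + w col)) :
    ((∃ col, Odd (u col)) ↔ ∃ col, Odd (w col)) := by
  rw [Fin.sum_univ_three] at su sw
  simp only [Fin.exists_fin_succ, Fin.forall_fin_succ, Nat.odd_iff, Nat.even_iff] at *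
  fin_cases μ <;> fin_cases ν <;> simp at * <;> omega

lemma centre (u w : Fin 3 → ℕ) (su : Even (∑ i, u i)) (sw : Even (∑ i, w i))
    (hpos : ∑ i, u i ≠ 0)
    (h : ∀ col, u col + w col = 0 ∨ Odd (u col + w col)) :
    (∃ μ, u μ = 0 ∧ w μ = 0) ∧ ((∃ col, Odd (u col)) ↔ ¬ ∃ col, Odd (w col)) := by
  rw [Fin.sum_univ_three] at su sw hpos
  simp only [Fin.exists_fin_succ, Fin.forall_fin_succ, Nat.odd_iff, Nat.even_iff] at *
  simp at *
  omega

/-- three centres and three cliques of order `m`; clique `i` is joined to the centres `j ≠ i`. -/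
def G (m : ℕ) : SimpleGraph (Fin 3 ⊕ Fin 3 × Fin m) where
  Adj x y := match x, y with
    | .inl _, .inl _ => False
    | .inl j, .inr z => z.1 ≠ j
    | .inr z, .inl j => z.1 ≠ j
    | .inr z, .inr z' => z'.1 = z.1 ∧ z'.2 ≠ z.2
  symm := ⟨by
    rintro (x | x) (y | y) h
    · exact h
    · exact h
    · exact h
    · exact ⟨h.1.symm, h.2.symm⟩⟩
  loopless := ⟨by
    rintro (x | x) h
    · exact h
    · exact h.2 rfl⟩

instance (m : ℕ) : DecidableRel (G m).Adj := fun x y =>
  match x, y with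
    | .inl _, .inl _ => inferInstanceAs (Decidable False)
    | .inl j, .inr z => inferInstanceAs (Decidable (z.1 ≠ j))
    | .inr z, .inl j => inferInstanceAs (Decidable (z.1 ≠ j))
    | .inr z, .inr z' => inferInstanceAs (Decidable (z'.1 = z.1 ∧ z'.2 ≠ z.2))

@[simp] lemma adj_ll (m : ℕ) (i j : Fin 3) : (G m).Adj (.inl i) (.inl j) ↔ False := Iff.rfl
@[simp] lemma adj_lr (m : ℕ) (j : Fin 3) (z : Fin 3 × Fin m) :
    (G m).Adj (.inl j) (.inr z) ↔ z.1 ≠ j := Iff.rfl
@[simp] lemma adj_rl (m : ℕ) (j : Fin 3) (z : Fin 3 × Fin m) :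
    (G m).Adj (.inr z) (.inl j) ↔ z.1 ≠ j := Iff.rfl
@[simp] lemma adj_rr (m : ℕ) (z z' : Fin 3 × Fin m) :
    (G m).Adj (.inr z) (.inr z') ↔ z'.1 = z.1 ∧ z'.2 ≠ z.2 := Iff.rfl

lemma count_l (m : ℕ) (j i i' : Fin 3) (h1 : j ≠ i) (h2 : j ≠ i') (h3 : i ≠ i')
    (P : Fin 3 ⊕ Fin 3 × Fin m → Prop) [DecidablePred P] :
    (univ.filter (fun w => (G m).Adj (.inl j) w ∧ P w)).card =
      (univ.filter (fun a => P (.inr (i, a)))).card + (univ.filter (fun a => P (.inr (i', a)))).card := by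
  rw [card_filter, Fintype.sum_sum_type, Fintype.sum_prod_type,
    sum3 (fun x => ∑ y : Fin m, if (G m).Adj (.inl j) (.inr (x, y)) ∧ P (.inr (x, y)) then 1 else 0)
      j i i' h1 h2 h3, card_filter, card_filter]
  simp [h1.symm, h2.symm]

lemma count_r (m : ℕ) (i j j' : Fin 3) (a : Fin m) (h1 : i ≠ j) (h2 : i ≠ j') (h3 : j ≠ j')
    (P : Fin 3 ⊕ Fin 3 × Fin m → Prop) [DecidablePred P] :
    (univ.filter (fun w => (G m).Adj (.inr (i, a)) w ∧ P w)).card =
      (univ.filter (fun b => b ≠ a ∧ P (.inr (i, b)))).card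
        + (if P (.inl j) then 1 else 0) + (if P (.inl j') then 1 else 0) := by
  rw [card_filter, Fintype.sum_sum_type, Fintype.sum_prod_type, sum3 _ i j j' h1 h2 h3,
    sum3 _ i j j' h1 h2 h3, card_filter]
  simp [h1, h2, h1.symm, h2.symm]
  omega

theorem no_colouring (m : ℕ) (hm : Even m) (hpos : 0 < m)
    (c : Sym2 (Fin 3 ⊕ Fin 3 × Fin m) → Fin 3)
    (h : ∀ v i, (univ.filter (fun w => (G m).Adj v w ∧ c s(v, w) = i)).card = 0 ∨
      Odd (univ.filter (fun w => (G m).Adj v w ∧ c s(v, w) = i)).card) : False := by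
  let n : Fin 3 → Fin 3 → Fin 3 → ℕ := fun j i col =>
    (univ.filter (fun a : Fin m => c s(.inl j, .inr (i, a)) = col)).card
  have hsum : ∀ j i, ∑ col, n j i col = m := by
    intro j i
    have := card_eq_sum_card_fiberwise (s := (univ : Finset (Fin m)))
      (t := (univ : Finset (Fin 3))) (f := fun a => c s(.inl j, .inr (i, a)))
      (fun _ _ => mem_coe.2 (mem_univ _))
    rw [card_univ, Fintype.card_fin] at this
    exact this.symm
  have hc : ∀ j i i', j ≠ i → j ≠ i' → i ≠ i' →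
      (∃ μ, n j i μ = 0 ∧ n j i' μ = 0) ∧
        ((∃ col, Odd (n j i col)) ↔ ¬ ∃ col, Odd (n j i' col)) := by
    intro j i i' h1 h2 h3
    refine centre _ _ (by rw [hsum]; exact hm) (by rw [hsum]; exact hm) (by rw [hsum]; omega) ?_
    intro col
    have := h (.inl j) col
    rwa [count_l m j i i' h1 h2 h3] at this
  have he : ∀ i j j', i ≠ j → i ≠ j' → j ≠ j' → (∃ μ, n j i μ = 0) → (∃ ν, n j' i ν = 0) →
      ((∃ col, Odd (n j i col)) ↔ ∃ col, Odd (n j' i col)) := by
    rintro i j j' h1 h2 h3 ⟨μ, hμ⟩ ⟨ν, hν⟩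
    refine edge _ _ μ ν hμ hν (by rw [hsum]; exact hm) (by rw [hsum]; exact hm) ?_
    refine clique m hm (fun a b => c s(.inr (i, a), .inr (i, b))) (fun a b => by rw [Sym2.eq_swap])
      (fun a => c s(.inl j, .inr (i, a))) (fun a => c s(.inl j', .inr (i, a)))
      (fun a col => (univ.filter (fun w => (G m).Adj (.inr (i, a)) w ∧ c s(.inr (i, a), w) = col)).card)
      ?_ (fun a col => h _ col)
    intro a col
    rw [count_r m i j j' a h1 h2 h3, Sym2.eq_swap (a := Sum.inl j), Sym2.eq_swap (a := Sum.inl j')]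
  obtain ⟨⟨a, a1, a2⟩, A⟩ := hc 0 1 2 (by decide) (by decide) (by decide)
  obtain ⟨⟨b, b1, b2⟩, B⟩ := hc 1 0 2 (by decide) (by decide) (by decide)
  obtain ⟨⟨d, d1, d2⟩, D⟩ := hc 2 0 1 (by decide) (by decide) (by decide)
  have E0 := he 0 1 2 (by decide) (by decide) (by decide) ⟨b, b1⟩ ⟨d, d1⟩
  have E1 := he 1 0 2 (by decide) (by decide) (by decide) ⟨a, a1⟩ ⟨d, d2⟩
  have E2 := he 2 0 1 (by decide) (by decide) (by decide) ⟨a, a2⟩ ⟨b, b2⟩
  tauto

lemma conn (m : ℕ) (S : Set (Fin 3 ⊕ Fin 3 × Fin m)) (h1 : ∀ i, ∃ a, Sum.inr (i, a) ∈ S)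
    (h2 : ∀ i, ∃ j, j ≠ i ∧ Sum.inl j ∈ S) : ((G m).induce S).Connected := by
  obtain ⟨j0, -, hj0⟩ := h2 0
  have hcen : ∀ j (hj : Sum.inl j ∈ S), ((G m).induce S).Reachable ⟨_, hj0⟩ ⟨_, hj⟩ := by
    intro j hj
    have third : ∀ x y : Fin 3, ∃ z, z ≠ x ∧ z ≠ y := by decide
    obtain ⟨i, hi1, hi2⟩ := third j0 j
    obtain ⟨a, ha⟩ := h1 i
    have e1 : ((G m).induce S).Adj ⟨_, hj0⟩ ⟨_, ha⟩ := hi1
    have e2 : ((G m).induce S).Adj ⟨_, ha⟩ ⟨_, hj⟩ := hi2
    exact e1.reachable.trans e2.reachable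
  rw [SimpleGraph.connected_iff_exists_forall_reachable]
  refine ⟨⟨_, hj0⟩, ?_⟩
  rintro ⟨x | ⟨i, a⟩, hx⟩
  · exact hcen x hx
  · obtain ⟨j, hji, hj⟩ := h2 i
    have e : ((G m).induce S).Adj ⟨_, hj⟩ ⟨_, hx⟩ := hji.symm
    exact (hcen j hj).trans e.reachable

lemma conn_all (m : ℕ) (hm : 0 < m) : (G m).Connected := by
  have := conn m Set.univ (fun i => ⟨⟨0, hm⟩, trivial⟩)
    (fun i => ⟨i + 1, by revert i; decide, trivial⟩)
  exact (SimpleGraph.induceUnivIso (G m)).connected_iff.1 this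

lemma conn_del (m : ℕ) (hm : 2 ≤ m) (v : Fin 3 ⊕ Fin 3 × Fin m) :
    ((G m).induce {w | w ≠ v}).Connected := by
  refine conn m _ ?_ ?_
  · intro i
    by_cases h : (Sum.inr (i, ⟨0, by omega⟩) : Fin 3 ⊕ Fin 3 × Fin m) = v
    · refine ⟨⟨1, by omega⟩, ?_⟩
      subst h
      simp
    · exact ⟨_, h⟩
  · intro i
    by_cases h : (Sum.inl (i + 1) : Fin 3 ⊕ Fin 3 × Fin m) = v
    · refine ⟨i + 2, by clear h; revert i; decide, ?_⟩
      subst h
      simp
    · exact ⟨i + 1, by clear h; revert i; decide, h⟩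

lemma deg (m : ℕ) (v : Fin 3 ⊕ Fin 3 × Fin m) :
    m ≤ (univ.filter (fun w => (G m).Adj v w ∧ True)).card := by
  have third : ∀ x : Fin 3, ∃ y z, x ≠ y ∧ x ≠ z ∧ y ≠ z := by decide
  rcases v with j | ⟨i, a⟩
  · obtain ⟨y, z, h1, h2, h3⟩ := third j
    rw [count_l m j y z h1 h2 h3]
    simp
  · obtain ⟨y, z, h1, h2, h3⟩ := third i
    rw [count_r m i y z a h1 h2 h3]
    simp [filter_ne']
    omega

end Pool.Agent.H10.OddCol
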