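import Mathlib

namespace Pool.Agent.H10.OrbCore

open MeasureTheory Filter Topology ProbabilityTheory
open scoped ENNReal

variable {E : Type*} [NormedAddCommGroup E]

noncomputable def T (y : E) : ℝ≥0∞ := ENNReal.ofReal (min 1 ‖y‖)

lemma T_le_one (y : E) : T y ≤ 1 := by
  unfold T
  rw [← ENNReal.ofReal_one]
  exact ENNReal.ofReal_le_ofReal (min_le_left _ _)

lemma T_cont : Continuous (T : E → ℝ≥0∞) :=
  ENNReal.continuous_ofReal.comp (continuous_const.min continuous_norm)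

lemma T_zero : T (0 : E) = 0 := by simp [T]

lemma T_add (a b : E) : T (a + b) ≤ T a + T b := by
  unfold T
  have ha := norm_nonneg a
  have hb := norm_nonneg b
  rw [← ENNReal.ofReal_add (le_min zero_le_one ha) (le_min zero_le_one hb)]
  apply ENNReal.ofReal_le_ofReal
  have h := norm_add_le a b
  have h1 := min_le_left 1 ‖a + b‖
  have h2 := min_le_right 1 ‖a + b‖
  rcases min_choice 1 ‖a‖ with h3 | h3 <;> rcases min_choice 1 ‖b‖ with h4 | h4 <;>
    rw [h3, h4] <;> linarith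

lemma T_mul {z y : E} {K : ℝ} (h : ‖z‖ ≤ K * ‖y‖) : T z ≤ ENNReal.ofReal (max 1 K) * T y := by
  unfold T
  have hK := le_max_left 1 K
  have hK2 := le_max_right 1 K
  have hy := norm_nonneg y
  rw [← ENNReal.ofReal_mul (by linarith)]
  apply ENNReal.ofReal_le_ofReal
  have h1 := min_le_left 1 ‖z‖
  have h2 := min_le_right 1 ‖z‖
  rcases min_choice 1 ‖y‖ with h3 | h3 <;> rw [h3]
  · linarith
  · nlinarith [mul_le_mul_of_nonneg_right hK2 hy]

variable {Γ : Type*} [Group Γ] [MeasurableSpace Γ] [MeasurableMul₂ Γ]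

noncomputable def cpow (ν : Measure Γ) : ℕ → Measure Γ
  | 0 => Measure.dirac 1
  | t + 1 => (cpow ν t).mconv ν

instance cpow_prob (ν : Measure Γ) [IsProbabilityMeasure ν] (t : ℕ) :
    IsProbabilityMeasure (cpow ν t) := by
  induction t with
  | zero => unfold cpow; infer_instance
  | succ t ih => unfold cpow; infer_instance

lemma cpow_succ' (ν : Measure Γ) [IsProbabilityMeasure ν] (t : ℕ) :
    cpow ν (t + 1) = ν.mconv (cpow ν t) := by
  induction t with
  | zero => simp [cpow]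
  | succ t ih =>
    have h : cpow ν (t + 1 + 1) = (cpow ν (t + 1)).mconv ν := rfl
    have h2 : cpow ν (t + 1) = (cpow ν t).mconv ν := rfl
    rw [h]
    conv_lhs => rw [ih]
    rw [Measure.mconv_assoc, ← h2]

lemma cpow_inv [MeasurableInv Γ] (ν : Measure Γ) [IsProbabilityMeasure ν]
    (hs : ∀ F : Γ → ℝ≥0∞, Measurable F → ∫⁻ g, F g⁻¹ ∂ν = ∫⁻ g, F g ∂ν) (t : ℕ) :
    ∀ F : Γ → ℝ≥0∞, Measurable F → ∫⁻ g, F g⁻¹ ∂(cpow ν t) = ∫⁻ g, F g ∂(cpow ν t) := by
  induction t with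
  | zero =>
    intro F hF
    have h : cpow ν 0 = Measure.dirac 1 := rfl
    have hF' : Measurable fun g : Γ => F g⁻¹ := hF.comp measurable_inv
    rw [h, lintegral_dirac' _ hF, lintegral_dirac' _ hF', inv_one]
  | succ t ih =>
    intro F hF
    have h2 : cpow ν (t + 1) = (cpow ν t).mconv ν := rfl
    conv_rhs => rw [cpow_succ']
    rw [h2, Measure.lintegral_mconv (by fun_prop), Measure.lintegral_mconv hF]
    have e1 : ∀ x : Γ, ∫⁻ y, F (x * y)⁻¹ ∂ν = ∫⁻ y, F (y * x⁻¹) ∂ν := by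
      intro x
      rw [← hs (fun y => F (y * x⁻¹)) (by fun_prop)]
      simp only [mul_inv_rev]
    simp only [e1]
    rw [lintegral_lintegral_swap (by fun_prop)]
    refine lintegral_congr fun y => ?_
    exact ih (fun x => F (y * x)) (by fun_prop)

lemma cpow_ae (ν : Measure Γ) [IsProbabilityMeasure ν] (S : Set Γ) (hS : MeasurableSet S)
    (h1 : 1 ∈ S) (hm : ∀ a ∈ S, ∀ b ∈ S, a * b ∈ S) (hν : ∀ᵐ g ∂ν, g ∈ S) (t : ℕ) :
    ∀ᵐ g ∂(cpow ν t), g ∈ S := by
  induction t with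
  | zero =>
    have h : cpow ν 0 = Measure.dirac 1 := rfl
    rw [h]
    exact (ae_dirac_iff (p := fun g => g ∈ S) hS).mpr h1
  | succ t ih =>
    have h2 : cpow ν (t + 1) = Measure.map (fun p : Γ × Γ => p.1 * p.2) ((cpow ν t).prod ν) := rfl
    rw [h2]
    refine (ae_map_iff (p := fun g => g ∈ S) measurable_mul.aemeasurable hS).mpr ?_
    have a1 : ∀ᵐ p ∂((cpow ν t).prod ν), p.1 ∈ S := Measure.quasiMeasurePreserving_fst.ae ih
    have a2 : ∀ᵐ p ∂((cpow ν t).prod ν), p.2 ∈ S := Measure.quasiMeasurePreserving_snd.ae hν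
    filter_upwards [a1, a2] with p h3 h4 using hm _ h3 _ h4

variable [NormedSpace ℝ E] [MeasurableSpace E] [BorelSpace E] [FiniteDimensional ℝ E]

noncomputable def phi (ρ : Γ →* (E →L[ℝ] E)) (m : Measure Γ) (w : E) : ℝ≥0∞ :=
  ∫⁻ g, T (ρ g w) ∂m

omit [MeasurableMul₂ Γ] [FiniteDimensional ℝ E] in
lemma mT (ρ : Γ →* (E →L[ℝ] E)) (hρ : ∀ w, Measurable fun g => ρ g w) (w : E) :
    Measurable fun g => T (ρ g w) := T_cont.measurable.comp (hρ w)

noncomputable def Kset (ρ : Γ →* (E →L[ℝ] E)) (hρ : ∀ w, Measurable fun g => ρ g w)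
    (ν : Measure Γ) (s : ℕ → ℕ) : Submodule ℝ E where
  carrier := {w | Tendsto (fun n => phi ρ (cpow ν (s n)) w) atTop (𝓝 0)}
  zero_mem' := by simp [phi, T_zero]
  add_mem' := by
    intro a b ha hb
    have h := Tendsto.add ha hb
    rw [add_zero] at h
    refine tendsto_of_tendsto_of_tendsto_of_le_of_le tendsto_const_nhds h
      (fun _ => zero_le) (fun n => ?_)
    unfold phi
    beta_reduce
    rw [← lintegral_add_left (mT ρ hρ a)]
    refine lintegral_mono fun g => ?_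
    rw [map_add]
    exact T_add _ _
  smul_mem' := by
    intro c a ha
    have h := ENNReal.Tendsto.const_mul (a := ENNReal.ofReal (max 1 ‖c‖)) ha
      (Or.inr ENNReal.ofReal_ne_top)
    rw [mul_zero] at h
    refine tendsto_of_tendsto_of_tendsto_of_le_of_le tendsto_const_nhds h
      (fun _ => zero_le) (fun n => ?_)
    unfold phi
    beta_reduce
    rw [← lintegral_const_mul _ (mT ρ hρ a)]
    refine lintegral_mono fun g => ?_
    rw [map_smul]
    exact T_mul (norm_smul_le _ _)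

lemma shift (ρ : Γ →* (E →L[ℝ] E)) (hρ : ∀ w, Measurable fun g => ρ g w)
    (ν : Measure Γ) [IsProbabilityMeasure ν] (s : ℕ → ℕ) (w : E)
    (hw : Tendsto (fun n => phi ρ (cpow ν (s n)) w) atTop (𝓝 0)) :
    Tendsto (fun n => ∫⁻ u, phi ρ (cpow ν (s n)) (ρ u w) ∂ν) atTop (𝓝 0) := by
  have hF : Measurable fun g => T (ρ g w) := T_cont.measurable.comp (hρ w)
  have hF2 : Measurable fun p : Γ × Γ => T (ρ (p.1 * p.2) w) := hF.comp measurable_mul
  have e : ∀ t, ∫⁻ u, phi ρ (cpow ν t) (ρ u w) ∂ν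
      = ∫⁻ u, ∫⁻ g, T (ρ (u * g) w) ∂(cpow ν t) ∂ν := by
    intro t
    rw [← Measure.lintegral_mconv hF, ← cpow_succ']
    have h2 : cpow ν (t + 1) = (cpow ν t).mconv ν := rfl
    rw [h2, Measure.lintegral_mconv hF, lintegral_lintegral_swap hF2.aemeasurable]
    refine lintegral_congr fun u => lintegral_congr fun g => ?_
    rw [map_mul]
    rfl
  simp only [e]
  have h := tendsto_lintegral_of_dominated_convergence (μ := ν)
    (F := fun n u => ∫⁻ g, T (ρ (u * g) w) ∂(cpow ν (s n))) (f := fun _ => 0) (fun _ => 1)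
    (fun n => hF2.lintegral_prod_right') (fun n => Eventually.of_forall fun u => by
      calc ∫⁻ g, T (ρ (u * g) w) ∂(cpow ν (s n)) ≤ ∫⁻ _g, 1 ∂(cpow ν (s n)) :=
            lintegral_mono fun g => T_le_one _
        _ = 1 := by simp) (by simp) (Eventually.of_forall fun u => by
      have h := ENNReal.Tendsto.const_mul (a := ENNReal.ofReal (max 1 ‖ρ u‖)) hw
        (Or.inr ENNReal.ofReal_ne_top)
      rw [mul_zero] at h
      refine tendsto_of_tendsto_of_tendsto_of_le_of_le tendsto_const_nhds h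
        (fun _ => zero_le) (fun n => ?_)
      unfold phi
      beta_reduce
      rw [← lintegral_const_mul _ hF]
      refine lintegral_mono fun g => ?_
      rw [map_mul]
      exact T_mul ((ρ u).le_opNorm _))
  simpa using h

theorem core [MeasurableInv Γ] (ρ : Γ →* (E →L[ℝ] E)) (hρ : ∀ w, Measurable fun g => ρ g w)
    (ν : Measure Γ) [IsProbabilityMeasure ν]
    (hs : ∀ F : Γ → ℝ≥0∞, Measurable F → ∫⁻ g, F g⁻¹ ∂ν = ∫⁻ g, F g ∂ν) (w0 : E)
    (h0 : Tendsto (fun t => ∫⁻ u, phi ρ (cpow ν t) (ρ u w0 - w0) ∂ν) atTop (𝓝 0)) :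
    ∀ᵐ u ∂ν, ρ u w0 = w0 := by
  classical
  let A : Set ℕ := {d | ∃ s : ℕ → ℕ, Tendsto s atTop atTop ∧
    Module.finrank ℝ (Kset ρ hρ ν s) = d}
  have hne : A.Nonempty := ⟨_, id, tendsto_id, rfl⟩
  have hbd : BddAbove A := ⟨Module.finrank ℝ E, by
    rintro _ ⟨s, _, rfl⟩
    exact Submodule.finrank_le _⟩
  obtain ⟨s, hs1, hs2⟩ := Nat.sSup_mem hne hbd
  set W := Kset ρ hρ ν s with hW
  have hmax : ∀ (x : ℕ → ℕ), Tendsto x atTop atTop → ∀ y : E,
      Tendsto (fun n => phi ρ (cpow ν (s (x n))) y) atTop (𝓝 0) → y ∈ W := by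
    intro x hx y hy
    have hle : W ≤ Kset ρ hρ ν (s ∘ x) := fun w hw => Tendsto.comp hw hx
    have hr : Module.finrank ℝ (Kset ρ hρ ν (s ∘ x)) ≤ Module.finrank ℝ W := by
      rw [hs2]
      exact le_csSup hbd ⟨s ∘ x, hs1.comp hx, rfl⟩
    rw [Submodule.eq_of_le_of_finrank_le hle hr]
    exact hy
  have fatou : ∀ Y : Γ → E, (Measurable fun p : Γ × Γ => T (ρ p.2 (Y p.1))) →
      Tendsto (fun n => ∫⁻ u, phi ρ (cpow ν (s n)) (Y u) ∂ν) atTop (𝓝 0) →
      ∀ᵐ u ∂ν, Y u ∈ W := by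
    intro Y hY ht
    have hm : ∀ n, Measurable fun u => phi ρ (cpow ν (s n)) (Y u) :=
      fun n => hY.lintegral_prod_right'
    have h1 := lintegral_liminf_le (μ := ν) (u := atTop) hm
    rw [ht.liminf_eq, nonpos_iff_eq_zero, lintegral_eq_zero_iff (Measurable.liminf hm)] at h1
    filter_upwards [h1] with u hu
    obtain ⟨x, hx1, hx2⟩ := exists_seq_tendsto_liminf (f := atTop)
      (u := fun n => phi ρ (cpow ν (s n)) (Y u))
    simp only [Pi.zero_apply] at hu
    rw [hu] at hx1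
    exact hmax x hx2 _ hx1
  have hfix : ∀ᵐ u ∂ν, ρ u w0 - w0 ∈ W := by
    refine fatou (fun u => ρ u w0 - w0) ?_ (h0.comp hs1)
    have : (fun p : Γ × Γ => T (ρ p.2 (ρ p.1 w0 - w0))) =
        fun p : Γ × Γ => T (ρ (p.2 * p.1) w0 - ρ p.2 w0) := by
      funext p
      rw [map_sub, map_mul]
      rfl
    rw [this]
    exact T_cont.measurable.comp
      (((hρ w0).comp (measurable_snd.mul measurable_fst)).sub ((hρ w0).comp measurable_snd))
  let b := Module.finBasis ℝ W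
  let S : Set Γ := {g | ∀ i, ρ g (b i) ∈ W}
  have hSW : ∀ g ∈ S, ∀ w : W, ρ g w ∈ W := by
    intro g hg w
    rw [← b.sum_repr w]
    simp only [Submodule.coe_sum, Submodule.coe_smul, map_sum, map_smul]
    exact W.sum_mem fun i _ => W.smul_mem _ (hg i)
  have hSm : MeasurableSet S := by
    have : S = ⋂ i, (fun g => ρ g (b i)) ⁻¹' (W : Set E) := by
      ext g
      simp [S]
    rw [this]
    exact MeasurableSet.iInter fun i => hρ _ W.closed_of_finiteDimensional.measurableSet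
  have hSν : ∀ᵐ g ∂ν, g ∈ S := by
    refine ae_all_iff.mpr fun i => fatou (fun u => ρ u (b i)) ?_ (shift ρ hρ ν s _ (b i).2)
    have : (fun p : Γ × Γ => T (ρ p.2 (ρ p.1 (b i)))) =
        fun p : Γ × Γ => T (ρ (p.2 * p.1) (b i)) := by
      funext p
      rw [map_mul]
      rfl
    rw [this]
    exact T_cont.measurable.comp ((hρ _).comp (measurable_snd.mul measurable_fst))
  have hSt := cpow_ae ν S hSm (fun i => by simp) (fun g hg h hh i => by
    rw [map_mul]
    exact hSW g hg ⟨ρ h (b i), hh i⟩) hSν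
  have hbot : ∀ w ∈ W, w = 0 := by
    intro w hw
    by_contra hw0
    have hwp : 0 < ‖w‖ := norm_pos_iff.mpr hw0
    obtain ⟨C, hC, hb⟩ := b.exists_opNorm_le (F := E)
    set δ : ℝ := min 1 (‖w‖ / (C + 1)) with hδ
    have hδ0 : 0 < δ := lt_min one_pos (by positivity)
    have hδ1 : δ ≤ 1 := min_le_left _ _
    have hδ2 : δ * (C + 1) ≤ ‖w‖ := by
      rw [← le_div_iff₀ (by positivity)]
      exact min_le_right _ _
    have key : ∀ g ∈ S, ENNReal.ofReal δ ≤ T (ρ g w) + ∑ i, T (ρ g⁻¹ (b i)) := by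
      intro g hg
      by_cases h1 : δ ≤ ‖ρ g w‖
      · exact le_add_right (ENNReal.ofReal_le_ofReal (le_min hδ1 h1))
      by_cases h2 : ∃ i, δ ≤ ‖ρ g⁻¹ (b i)‖
      · obtain ⟨i, hi⟩ := h2
        refine le_add_left (le_trans (ENNReal.ofReal_le_ofReal (le_min hδ1 hi)) ?_)
        exact Finset.single_le_sum (f := fun i => T (ρ g⁻¹ (b i))) (fun _ _ => zero_le)
          (Finset.mem_univ i)
      exfalso
      push Not at h1 h2
      have h3 : ‖(ρ g⁻¹).comp W.subtypeL‖ ≤ C * δ := hb hδ0.le fun i => (h2 i).le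
      have h4 := ((ρ g⁻¹).comp W.subtypeL).le_opNorm ⟨ρ g w, hSW g hg ⟨w, hw⟩⟩
      have h5 : ((ρ g⁻¹).comp W.subtypeL) ⟨ρ g w, hSW g hg ⟨w, hw⟩⟩ = w := by
        show (ρ g⁻¹ * ρ g) w = w
        rw [← map_mul, inv_mul_cancel, map_one]
        rfl
      rw [h5] at h4
      have h6 : ‖(⟨ρ g w, hSW g hg ⟨w, hw⟩⟩ : W)‖ = ‖ρ g w‖ := rfl
      rw [h6] at h4
      have h7 : ‖(ρ g⁻¹).comp W.subtypeL‖ * ‖ρ g w‖ ≤ C * δ * 1 :=
        mul_le_mul h3 (by linarith) (norm_nonneg _) (by positivity)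
      nlinarith
    have hle : ∀ n, ENNReal.ofReal δ ≤
        phi ρ (cpow ν (s n)) w + ∑ i, phi ρ (cpow ν (s n)) (b i) := by
      intro n
      calc ENNReal.ofReal δ = ∫⁻ _g, ENNReal.ofReal δ ∂(cpow ν (s n)) := by simp
        _ ≤ ∫⁻ g, (T (ρ g w) + ∑ i, T (ρ g⁻¹ (b i))) ∂(cpow ν (s n)) :=
            lintegral_mono_ae ((hSt (s n)).mono key)
        _ = _ := by
            rw [lintegral_add_left (mT ρ hρ w), lintegral_finset_sum]
            · congr 1
              refine Finset.sum_congr rfl fun i _ => ?_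
              exact cpow_inv ν hs (s n) (fun g => T (ρ g (b i))) (mT ρ hρ _)
            · intro i _
              exact (mT ρ hρ _).comp measurable_inv
    have hlim : Tendsto (fun n => phi ρ (cpow ν (s n)) w + ∑ i, phi ρ (cpow ν (s n)) (b i))
        atTop (𝓝 (0 + ∑ _i : Fin (Module.finrank ℝ W), 0)) :=
      Tendsto.add hw (tendsto_finset_sum _ fun i _ => (b i).2)
    have := ge_of_tendsto' hlim hle
    simp only [Finset.sum_const_zero, add_zero, nonpos_iff_eq_zero, ENNReal.ofReal_eq_zero] at this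
    linarith
  filter_upwards [hfix] with u hu
  exact sub_eq_zero.mp (hbot _ hu)

end Pool.Agent.H10.OrbCore
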