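import Mathlib
import Pool.Agent.H10.Cubic

set_option autoImplicit false

namespace Pool.Agent.H10.Pebble

open Finset Pool.Agent.H10.Cubic

variable {V : Type}

def gr (σ : Fin 3 → V → V) (hσ : ∀ i v, σ i (σ i v) = v) : SimpleGraph V where
  Adj u v := u ≠ v ∧ ∃ i, v = σ i u
  symm := ⟨fun u v h => ⟨h.1.symm, by obtain ⟨i, hi⟩ := h.2; exact ⟨i, by rw [hi, hσ]⟩⟩⟩
  loopless := ⟨fun _ h => h.1 rfl⟩

variable [DecidableEq V]

def Step (G : SimpleGraph V) (A B : V → ℕ) : Prop :=
  ∃ u v : V, G.Adj u v ∧ 2 ≤ A u ∧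
    B = Function.update (Function.update A u (A u - 2)) v (A v + 1)

theorem step_add (G : SimpleGraph V) (A B C : V → ℕ) (h : Step G A B) :
    Step G (A + C) (B + C) := by
  obtain ⟨u, v, huv, h2, rfl⟩ := h
  refine ⟨u, v, huv, by simp only [Pi.add_apply]; omega, ?_⟩
  funext x
  simp only [Pi.add_apply, Function.update_apply]
  split_ifs with h3 h4
  · subst h3; omega
  · subst h4; omega
  · rfl

theorem reach_add (G : SimpleGraph V) (A B C : V → ℕ)
    (h : Relation.ReflTransGen (Step G) A B) :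
    Relation.ReflTransGen (Step G) (A + C) (B + C) := by
  induction h with
  | refl => exact .refl
  | tail _ h2 ih => exact ih.tail (step_add G _ _ C h2)

theorem reach_add2 (G : SimpleGraph V) (A B C D : V → ℕ)
    (h : Relation.ReflTransGen (Step G) A B) (h' : Relation.ReflTransGen (Step G) C D) :
    Relation.ReflTransGen (Step G) (A + C) (B + D) := by
  refine (reach_add G A B C h).trans ?_
  rw [add_comm B C, add_comm B D]
  exact reach_add G C D B h'

theorem reach_edge (G : SimpleGraph V) (u v : V) (h : G.Adj u v) (m : ℕ) :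
    Relation.ReflTransGen (Step G) (Pi.single u (2 * m)) (Pi.single v m) := by
  induction m with
  | zero => simp only [mul_zero, Pi.single_zero]; exact .refl
  | succ m ih =>
    rw [mul_add, Pi.single_add, Pi.single_add]
    refine reach_add2 G _ _ _ _ ih (.single ⟨u, v, h, by simp, ?_⟩)
    funext x
    have := h.ne
    simp only [Function.update_apply, Pi.single_apply]
    split_ifs <;> simp_all

theorem reach_sum (G : SimpleGraph V) {ι : Type} (s : Finset ι) (A B : ι → V → ℕ)
    (h : ∀ i ∈ s, Relation.ReflTransGen (Step G) (A i) (B i)) :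
    Relation.ReflTransGen (Step G) (∑ i ∈ s, A i) (∑ i ∈ s, B i) := by
  classical
  induction s using Finset.induction_on with
  | empty => exact .refl
  | insert a s ha ih =>
    rw [sum_insert ha, sum_insert ha]
    exact reach_add2 G _ _ _ _ (h a (mem_insert_self _ _))
      (ih fun i hi => h i (mem_insert_of_mem hi))

theorem reach_word (σ : Fin 3 → V → V) (hσ : ∀ i v, σ i (σ i v) = v) (hne : ∀ i v, σ i v ≠ v)
    (r : V) : ∀ (w : List (Fin 3)) (m : ℕ), Relation.ReflTransGen (Step (gr σ hσ))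
      (Pi.single (act σ w r) (2 ^ w.length * m)) (Pi.single r m) := by
  intro w
  induction w with
  | nil => intro m; simp only [act, List.length_nil, pow_zero, one_mul]; exact .refl
  | cons i w ih =>
    intro m
    refine .trans ?_ (ih m)
    rw [List.length_cons, pow_succ', mul_assoc]
    exact reach_edge (gr σ hσ) _ _ ⟨hne i _, i, (hσ i _).symm⟩ _

theorem upper (K : ℕ) (σ : Fin 3 → V → V) (hσ : ∀ i v, σ i (σ i v) = v) (hne : ∀ i v, σ i v ≠ v)
    (hfree : ∀ v w w', Good K w → Good K w' → act σ w v = act σ w' v → w = w') (r : V) :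
    ∃ D' : V → ℕ, Relation.ReflTransGen (Step (gr σ hσ)) (fun _ => 2 ^ K) D' ∧
      (K + 1) * 2 ^ K ≤ D' r := by
  let s : Finset (Σ n : ℕ, Fin n → Bool) := (range (K + 1)).sigma fun _ => univ
  let W : (Σ n : ℕ, Fin n → Bool) → List (Fin 3) := fun p => wd (List.ofFn p.2)
  have hW : ∀ p, (W p).length = p.1 := fun p => by simp [W, wd_length]
  have hinj : Function.Injective W := by
    intro p q h
    exact List.equivSigmaTuple.symm.injective (wd_inj h)
  have hgood : ∀ p ∈ s, Good K (W p) := by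
    intro p hp
    refine ⟨wd_chain _, ?_⟩
    rw [hW]
    have := (mem_sigma.1 hp).1
    rw [mem_range] at this
    omega
  have h1 := reach_sum (gr σ hσ) s (fun p => Pi.single (act σ (W p) r) (2 ^ K))
    (fun p => Pi.single r (2 ^ (K - p.1))) (by
      intro p hp
      have h2 := reach_word σ hσ hne r (W p) (2 ^ (K - p.1))
      have h3 := (hgood p hp).2
      rw [hW] at h3
      rwa [hW, ← pow_add, Nat.add_sub_cancel' h3] at h2)
  have h2 : ∀ x, (∑ p ∈ s, Pi.single (act σ (W p) r) (2 ^ K) : V → ℕ) x ≤ 2 ^ K := by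
    intro x
    rw [Finset.sum_apply]
    simp only [Pi.single_apply]
    rw [← sum_filter, sum_const, smul_eq_mul]
    have : (s.filter fun p => x = act σ (W p) r).card ≤ 1 := by
      rw [card_le_one]
      intro p hp q hq
      rw [mem_filter] at hp hq
      exact hinj (hfree r _ _ (hgood p hp.1) (hgood q hq.1) (hp.2.symm.trans hq.2))
    calc _ ≤ 1 * 2 ^ K := Nat.mul_le_mul_right _ this
      _ = _ := one_mul _
  have h3 := reach_add _ _ _
    (fun x => 2 ^ K - (∑ p ∈ s, Pi.single (act σ (W p) r) (2 ^ K) : V → ℕ) x) h1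
  have h4 : (∑ p ∈ s, Pi.single (act σ (W p) r) (2 ^ K) : V → ℕ) +
      (fun x => 2 ^ K - (∑ p ∈ s, Pi.single (act σ (W p) r) (2 ^ K) : V → ℕ) x) =
      fun _ => 2 ^ K := by
    funext x
    have := h2 x
    simp only [Pi.add_apply]
    omega
  rw [h4] at h3
  refine ⟨_, h3, le_trans ?_ (Nat.le_add_right _ _)⟩
  rw [Finset.sum_apply]
  simp only [Pi.single_eq_same]
  rw [sum_sigma]
  have h5 : ∀ n ∈ range (K + 1), ∑ _f : Fin n → Bool, 2 ^ (K - n) = 2 ^ K := by
    intro n hn
    rw [mem_range] at hn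
    simp only [sum_const, card_univ, Fintype.card_pi, Fintype.card_bool, prod_const,
      Fintype.card_fin, smul_eq_mul]
    rw [← pow_add]
    congr 1
    omega
  rw [sum_congr rfl h5]
  simp

def FF (σ : Fin 3 → V → V) (E : V → ℕ) : ℕ → V → Fin 3 → ℕ
  | 0, _, _ => 0
  | t + 1, v, i => (E v + (FF σ E t (σ (i + 1) v) (i + 1) + FF σ E t (σ (i + 2) v) (i + 2))) / 2

omit [DecidableEq V] in
theorem FF_succ (σ : Fin 3 → V → V) (E : V → ℕ) :
    ∀ t v i, FF σ E t v i ≤ FF σ E (t + 1) v i := by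
  intro t
  induction t with
  | zero => intro v i; exact Nat.zero_le _
  | succ t ih =>
    intro v i
    have h1 := ih (σ (i + 1) v) (i + 1)
    have h2 := ih (σ (i + 2) v) (i + 2)
    rw [FF, FF]
    omega

omit [DecidableEq V] in
theorem FF_mono (σ : Fin 3 → V → V) (E : V → ℕ) (v : V) (i : Fin 3) :
    Monotone fun t => FF σ E t v i :=
  monotone_nat_of_le_succ fun t => FF_succ σ E t v i

theorem sum3 (f : Fin 3 → ℕ) (i : Fin 3) : ∑ j, f j = f i + f (i + 1) + f (i + 2) := by
  rw [Fin.sum_univ_three]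
  fin_cases i <;> simp <;> ring

theorem inv (σ : Fin 3 → V → V) (hσ : ∀ i v, σ i (σ i v) = v) (E E' : V → ℕ)
    (h : Relation.ReflTransGen (Step (gr σ hσ)) E E') :
    ∃ (T : ℕ) (g : V → Fin 3 → ℕ), (∀ v i, g v i ≤ FF σ E T v i) ∧
      ∀ v, E' v + 2 * ∑ i, g v i ≤ E v + ∑ j, g (σ j v) j := by
  induction h with
  | refl => exact ⟨0, fun _ _ => 0, fun _ _ => le_rfl, fun v => by simp⟩
  | @tail B C _ h2 ih =>
    obtain ⟨T, g, hg, hi⟩ := ih
    obtain ⟨u, v, ⟨huv, i, hv⟩, h2, rfl⟩ := h2
    have hu : u = σ i v := by rw [hv, hσ]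
    have hx : ∀ x, σ i x = v ↔ x = u := fun x =>
      ⟨fun h => by rw [hu, ← h, hσ], fun h => by rw [h, hv]⟩
    have hy : ∀ x, σ i x = u ↔ x = v := fun x =>
      ⟨fun h => by rw [hv, ← h, hσ], fun h => by rw [h, hu]⟩
    have n1 : i + 1 ≠ i := (by decide : ∀ i : Fin 3, i + 1 ≠ i) i
    have n2 : i + 2 ≠ i := (by decide : ∀ i : Fin 3, i + 2 ≠ i) i
    by_cases hr : g v i = 0
    · refine ⟨T + 1, fun x j => if j = i ∧ x = u then g u i + 1 else g x j, ?_, ?_⟩
      · intro x j
        beta_reduce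
        split_ifs with h3
        · obtain ⟨rfl, rfl⟩ := h3
          have h4 := hi x
          rw [sum3 _ j, sum3 _ j, ← hv, hr] at h4
          have h5 := hg (σ (j + 1) x) (j + 1)
          have h6 := hg (σ (j + 2) x) (j + 2)
          rw [FF]
          omega
        · exact le_trans (hg x j) (FF_succ σ E T x j)
      · intro x
        have h4 := hi x
        rw [sum3 _ i, sum3 _ i] at h4 ⊢
        simp only [n1, n2, false_and, if_false, true_and, hy, Function.update_apply]
        by_cases h5 : x = v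
        · subst h5
          rw [← hu] at h4
          simp only [if_true, huv.symm, if_false]
          omega
        · by_cases h6 : x = u
          · subst h6
            simp only [if_true, h5, if_false]
            omega
          · simp only [h5, h6, if_false]
            omega
    · refine ⟨T, fun x j => if j = i ∧ x = v then g v i - 1 else g x j, ?_, ?_⟩
      · intro x j
        beta_reduce
        split_ifs with h3
        · obtain ⟨rfl, rfl⟩ := h3
          exact le_trans (Nat.sub_le _ _) (hg _ _)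
        · exact hg x j
      · intro x
        have h4 := hi x
        rw [sum3 _ i, sum3 _ i] at h4 ⊢
        simp only [n1, n2, false_and, if_false, true_and, hx, Function.update_apply]
        by_cases h5 : x = v
        · subst h5
          simp only [if_true, huv.symm, if_false]
          omega
        · by_cases h6 : x = u
          · subst h6
            rw [← hv] at h4
            simp only [if_true, h5, if_false]
            omega
          · simp only [h5, h6, if_false]
            omega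

theorem loc (x0 x1 x2 y0 y1 y2 f0 f1 f2 e : ℕ) (c0 : f0 = 0 → y0 = 0) (c1 : f1 = 0 → y1 = 0)
    (c2 : f2 = 0 → y2 = 0) (c3 : 1 ≤ e + (f0 + f1 + f2)) :
    (((if x0 ≤ y0 then 1 else 0) + if x1 ≤ y1 then 1 else 0) + if x2 ≤ y2 then 1 else 0) ≤
      1 + 2 * (((if 1 ≤ f1 ∧ x0 ≤ y1 then 1 else 0) + if 1 ≤ f2 ∧ x0 ≤ y2 then 1 else 0) +
        ((if 1 ≤ f2 ∧ x1 ≤ y2 then 1 else 0) + if 1 ≤ f0 ∧ x1 ≤ y0 then 1 else 0) +
        ((if 1 ≤ f0 ∧ x2 ≤ y0 then 1 else 0) + if 1 ≤ f1 ∧ x2 ≤ y1 then 1 else 0) + e) := by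
  split_ifs <;> omega

theorem lower [Fintype V] (σ : Fin 3 → V → V) (hσ : ∀ i v, σ i (σ i v) = v) (E : V → ℕ)
    (h : ∀ r, ∃ E', Relation.ReflTransGen (Step (gr σ hσ)) E E' ∧ 1 ≤ E' r) :
    Fintype.card V ≤ 16 * ∑ v, E v := by
  classical
  have h1 : ∀ r, ∃ T, 1 ≤ E r + ∑ j, FF σ E T (σ j r) j := by
    intro r
    obtain ⟨E', h1, h2⟩ := h r
    obtain ⟨T, g, hg, hi⟩ := inv σ hσ E E' h1
    have h3 := hi r
    have h4 : ∑ j, g (σ j r) j ≤ ∑ j, FF σ E T (σ j r) j := sum_le_sum fun j _ => hg _ _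
    exact ⟨T, by omega⟩
  choose T0 hT0 using h1
  obtain ⟨T, hT⟩ := Finite.exists_le T0
  have h2 : ∀ r, 1 ≤ E r + ∑ j, FF σ E T (σ j r) j := fun r =>
    le_trans (hT0 r) (Nat.add_le_add_left (sum_le_sum fun j _ => FF_mono σ E _ _ (hT r)) _)
  have hex : ∀ v i, ∃ t, FF σ E t v i = FF σ E T v i := fun v i => ⟨T, rfl⟩
  let τ : V → Fin 3 → ℕ := fun v i => Nat.find (hex v i)
  have t1 : ∀ v i, FF σ E (τ v i) v i = FF σ E T v i := fun v i => Nat.find_spec (hex v i)
  have t2 : ∀ v i, τ v i ≤ T := fun v i => Nat.find_min' (hex v i) rfl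
  have t3 : ∀ v i s, s < τ v i → FF σ E s v i < FF σ E T v i := fun v i s hs =>
    lt_of_le_of_ne (FF_mono σ E v i (le_trans hs.le (t2 v i))) (Nat.find_min (hex v i) hs)
  have t4 : ∀ v i, FF σ E T v i = 0 → τ v i = 0 := fun v i h0 =>
    Nat.le_zero.1 (Nat.find_min' (hex v i) (by rw [h0]; rfl))
  let bad : V → Fin 3 → Fin 3 → ℕ := fun v i j =>
    if 1 ≤ FF σ E T (σ j v) j ∧ τ v i ≤ τ (σ j v) j then 1 else 0
  have b1 : ∀ v i j, FF σ E (τ v i - 1) (σ j v) j + bad v i j ≤ FF σ E T (σ j v) j := by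
    intro v i j
    simp only [bad]
    split_ifs with hb
    · by_cases h0 : τ v i = 0
      · rw [h0]
        have : FF σ E (0 - 1) (σ j v) j = 0 := rfl
        omega
      · exact t3 _ _ _ (by omega)
    · exact FF_mono σ E _ _ (le_trans (Nat.sub_le _ _) (t2 v i))
  have b2 : ∀ v i, 2 * FF σ E T v i + (bad v i (i + 1) + bad v i (i + 2)) ≤
      E v + (FF σ E T (σ (i + 1) v) (i + 1) + FF σ E T (σ (i + 2) v) (i + 2)) := by
    intro v i
    have c1 := b1 v i (i + 1)
    have c2 := b1 v i (i + 2)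
    have c3 := t1 v i
    rcases h0 : τ v i with _ | s
    · rw [h0] at c3
      simp only [FF] at c3
      omega
    · rw [h0] at c1 c2 c3
      rw [FF] at c3
      simp only [Nat.add_sub_cancel] at c1 c2
      omega
  let bd : V → ℕ := fun v => ∑ i, (bad v i (i + 1) + bad v i (i + 2))
  have reidx : ∀ (f : V → Fin 3 → ℕ), ∑ v, ∑ j, f (σ j v) j = ∑ v, ∑ j, f v j := by
    intro f
    rw [sum_comm, sum_comm (f := f)]
    refine sum_congr rfl fun j _ => ?_
    exact Equiv.sum_comp (Function.Involutive.toPerm (σ j) (hσ j)) (fun v => f v j)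
  have b3 : ∀ v, 2 * ∑ i, FF σ E T v i + bd v ≤ 3 * E v + 2 * ∑ j, FF σ E T (σ j v) j := by
    intro v
    have c0 := b2 v 0
    have c1 := b2 v 1
    have c2 := b2 v 2
    simp only [bd, Fin.sum_univ_three]
    simp only [Fin.isValue, zero_add, Fin.reduceAdd] at c0 c1 c2 ⊢
    omega
  have b4 : ∑ v, bd v ≤ 3 * ∑ v, E v := by
    have := sum_le_sum (s := univ) fun v _ => b3 v
    rw [sum_add_distrib, sum_add_distrib, ← mul_sum, ← mul_sum, ← mul_sum,
      reidx (fun v j => FF σ E T v j)] at this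
    omega
  let k : V → Fin 3 → ℕ := fun v j => if τ v j ≤ τ (σ j v) j then 1 else 0
  have k1 : ∀ v, 3 ≤ ∑ j, k v j + ∑ j, k (σ j v) j := by
    intro v
    have : ∀ j, 1 ≤ k v j + k (σ j v) j := by
      intro j
      simp only [k, hσ]
      split_ifs <;> omega
    have c0 := this 0
    have c1 := this 1
    have c2 := this 2
    simp only [Fin.sum_univ_three]
    omega
  have k2 : ∀ v, ∑ j, k v j ≤ 1 + 2 * (bd v + E v) := by
    intro v
    have c0 := t4 (σ 0 v) 0
    have c1 := t4 (σ 1 v) 1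
    have c2 := t4 (σ 2 v) 2
    have c3 := h2 v
    simp only [k, bd, bad, Fin.sum_univ_three] at c3 ⊢
    simp only [Fin.isValue, zero_add, Fin.reduceAdd]
    exact loc _ _ _ _ _ _ _ _ _ _ c0 c1 c2 c3
  have k3 := sum_le_sum (s := univ) fun v _ => k1 v
  have k4 := sum_le_sum (s := univ) fun v _ => k2 v
  rw [sum_add_distrib, reidx k] at k3
  rw [sum_add_distrib, ← mul_sum, sum_add_distrib] at k4
  simp only [sum_const, card_univ, smul_eq_mul] at k3 k4
  omega

end Pool.Agent.H10.Pebble
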