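import Mathlib

set_option autoImplicit false

namespace Pool.Agent.H10.Pen

open Finset

theorem card_quot_congr {α : Type} (r r' : α → α → Prop)
    (h1 : ∀ x y, r x y → Relation.EqvGen r' x y) (h2 : ∀ x y, r' x y → Relation.EqvGen r x y) :
    Nat.card (Quot r) = Nat.card (Quot r') :=
  Nat.card_congr
    { toFun := Quot.lift (Quot.mk r') (fun x y h => Quot.eqvGen_sound (h1 x y h))
      invFun := Quot.lift (Quot.mk r) (fun x y h => Quot.eqvGen_sound (h2 x y h))
      left_inv := by rintro ⟨x⟩; rfl
      right_inv := by rintro ⟨x⟩; rfl }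

def sb (a b x : ℕ) : ℕ := if x = min a b then max a b else x

def sbP (a b : ℕ) (p : ℕ × ℕ) : ℕ × ℕ := (sb a b p.1, sb a b p.2)

def U : ℕ → List (ℕ × ℕ) → ℕ
  | 0, _ => 0
  | _ + 1, [] => 0
  | k + 1, p :: L => if p.1 = p.2 then U k L + 1 else U k (L.map (sbP p.1 p.2))

theorem sb_eq (a b x y : ℕ) : sb a b x = sb a b y ↔ x = y ∨ (x = a ∧ y = b) ∨ (x = b ∧ y = a) := by
  unfold sb
  split_ifs <;> omega

theorem card_quot {α : Type} [Fintype α] : ∀ (L : List (α × α)) (l : α → ℕ),
    Nat.card (Quot (fun x y => l x = l y ∨ (x, y) ∈ L)) + L.length =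
      (univ.image l).card + U L.length (L.map (fun p => (l p.1, l p.2))) := by
  intro L
  induction L with
  | nil =>
    intro l
    have h : Nat.card (Quot (fun x y => l x = l y ∨ (x, y) ∈ ([] : List (α × α)))) =
        Nat.card (Set.range l) := by
      refine Nat.card_eq_of_bijective
        (Quot.lift (fun x => (⟨l x, x, rfl⟩ : Set.range l))
          (fun x y h => Subtype.ext (by simpa using h))) ⟨?_, ?_⟩
      · rintro ⟨x⟩ ⟨y⟩ h
        exact Quot.sound (Or.inl (congrArg Subtype.val h))
      · rintro ⟨_, x, rfl⟩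
        exact ⟨Quot.mk _ x, rfl⟩
    rw [h, Nat.card_coe_set_eq, ← Set.image_univ, ← coe_univ, ← coe_image, Set.ncard_coe_finset]
    simp [U]
  | cons p L ih =>
    intro l
    obtain ⟨a, b⟩ := p
    rw [List.length_cons, List.map_cons, U]
    dsimp only
    split_ifs with hab
    · rw [card_quot_congr _ (fun x y => l x = l y ∨ (x, y) ∈ L), ← add_assoc, ih, add_assoc]
      · rintro x y (h | h)
        · exact .rel _ _ (Or.inl h)
        · rcases List.mem_cons.1 h with h | h
          · obtain ⟨rfl, rfl⟩ := Prod.mk.inj h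
            exact .rel _ _ (Or.inl hab)
          · exact .rel _ _ (Or.inr h)
      · rintro x y (h | h)
        · exact .rel _ _ (Or.inl h)
        · exact .rel _ _ (Or.inr (List.mem_cons_of_mem _ h))
    · have hi := ih (fun x => sb (l a) (l b) (l x))
      have him : univ.image (fun x => sb (l a) (l b) (l x)) = (univ.image l).erase (min (l a) (l b)) := by
        ext z
        simp only [mem_image, mem_univ, true_and, mem_erase]
        constructor
        · rintro ⟨x, rfl⟩
          unfold sb
          split_ifs with h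
          · refine ⟨by omega, ?_⟩
            rcases le_total (l a) (l b) with h' | h'
            · exact ⟨b, by omega⟩
            · exact ⟨a, by omega⟩
          · exact ⟨h, x, rfl⟩
        · rintro ⟨h, x, rfl⟩
          exact ⟨x, by unfold sb; rw [if_neg h]⟩
      have hm : min (l a) (l b) ∈ univ.image l := by
        rcases le_total (l a) (l b) with h' | h'
        · exact mem_image.2 ⟨a, mem_univ _, by omega⟩
        · exact mem_image.2 ⟨b, mem_univ _, by omega⟩
      have hc := card_erase_add_one hm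
      rw [him] at hi
      rw [card_quot_congr _ (fun x y => sb (l a) (l b) (l x) = sb (l a) (l b) (l y) ∨ (x, y) ∈ L),
        ← add_assoc, hi, List.map_map, ← hc]
      · show _ = _ + U L.length (L.map fun p => (sb (l a) (l b) (l p.1), sb (l a) (l b) (l p.2)))
        omega
      · rintro x y (h | h)
        · exact .rel _ _ (Or.inl (by rw [h]))
        · rcases List.mem_cons.1 h with h | h
          · obtain ⟨rfl, rfl⟩ := Prod.mk.inj h
            exact .rel _ _ (Or.inl ((sb_eq _ _ _ _).2 (Or.inr (Or.inl ⟨rfl, rfl⟩))))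
          · exact .rel _ _ (Or.inr h)
      · rintro x y (h | h)
        · have e : Relation.EqvGen (fun x y => l x = l y ∨ (x, y) ∈ (a, b) :: L) a b :=
            .rel _ _ (Or.inr List.mem_cons_self)
          rcases (sb_eq _ _ _ _).1 h with h | ⟨h, h'⟩ | ⟨h, h'⟩
          · exact .rel _ _ (Or.inl h)
          · exact .trans _ _ _ (.rel _ _ (Or.inl h)) (.trans _ _ _ e (.rel _ _ (Or.inl h'.symm)))
          · exact .trans _ _ _ (.rel _ _ (Or.inl h))
              (.trans _ _ _ (.symm _ _ e) (.rel _ _ (Or.inl h'.symm)))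
        · exact .rel _ _ (Or.inr (List.mem_cons_of_mem _ h))

theorem card_quot' {α : Type} [Fintype α] (r : α → α → Prop) (L : List (α × α)) (l : α → ℕ)
    (hl : Function.Injective l) (h1 : ∀ x y, r x y → (x, y) ∈ L ∨ (y, x) ∈ L)
    (h2 : ∀ p ∈ L, r p.1 p.2 ∨ r p.2 p.1) :
    Nat.card (Quot r) + L.length =
      Fintype.card α + U L.length (L.map (fun p => (l p.1, l p.2))) := by
  rw [← card_univ, ← card_image_of_injective univ hl, ← card_quot L l,
    card_quot_congr r (fun x y => l x = l y ∨ (x, y) ∈ L)]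
  · intro x y h
    rcases h1 x y h with h | h
    · exact .rel _ _ (Or.inr h)
    · exact .symm _ _ (.rel _ _ (Or.inr h))
  · rintro x y (h | h)
    · rw [hl h]; exact .refl _
    · rcases h2 _ h with h | h
      · exact .rel _ _ h
      · exact .symm _ _ (.rel _ _ h)

abbrev Tup := ℕ × ℕ × ℕ × ℕ

def lk {α : Type} (t : α × α × α × α) (b : Bool) : List (α × α) :=
  if b then [(t.1, t.2.1), (t.2.2.1, t.2.2.2)] else [(t.1, t.2.2.2), (t.2.1, t.2.2.1)]

def lks {α : Type} : List (α × α × α × α) → List Bool → List (α × α)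
  | t :: T, b :: s => lk t b ++ lks T s
  | _, _ => []

def mp {α β : Type} (f : α → β) (t : α × α × α × α) : β × β × β × β :=
  (f t.1, f t.2.1, f t.2.2.1, f t.2.2.2)

theorem lks_map {α β : Type} (f : α → β) : ∀ (T : List (α × α × α × α)) (s : List Bool),
    lks (T.map (mp f)) s = (lks T s).map (fun p => (f p.1, f p.2)) := by
  intro T
  induction T with
  | nil => intro s; simp [lks]
  | cons t T ih =>
    intro s
    cases s with
    | nil => simp [lks]
    | cons b s => cases b <;> simp [lks, lk, mp, ih]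

theorem mem_lks {α : Type} (p : α × α) : ∀ (n : ℕ) (T : Fin n → α × α × α × α) (s : Fin n → Bool),
    p ∈ lks (List.ofFn T) (List.ofFn s) ↔ ∃ i, p ∈ lk (T i) (s i) := by
  intro n
  induction n with
  | zero => intro T s; simp [lks]
  | succ n ih =>
    intro T s
    rw [List.ofFn_succ, List.ofFn_succ, lks, List.mem_append, ih, Fin.exists_fin_succ]

theorem len_lks {α : Type} : ∀ (n : ℕ) (T : Fin n → α × α × α × α) (s : Fin n → Bool),
    (lks (List.ofFn T) (List.ofFn s)).length = 2 * n := by
  intro n
  induction n with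
  | zero => intro T s; simp [lks]
  | succ n ih =>
    intro T s
    rw [List.ofFn_succ, List.ofFn_succ, lks, List.length_append, ih]
    unfold lk
    split_ifs <;> simp <;> omega

theorem count_ofFn : ∀ (n : ℕ) (s : Fin n → Bool),
    (univ.filter (fun e => s e = true)).card = (List.ofFn s).count true := by
  intro n
  induction n with
  | zero => intro s; simp
  | succ n ih =>
    intro s
    rw [List.ofFn_succ, List.count_cons, ← ih, card_filter, card_filter, Fin.sum_univ_succ, add_comm]
    simp

noncomputable def Z (n : ℕ) (T : List Tup) : ℤ :=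
  ∑ s : Fin n → Bool, (-1) ^ ((List.ofFn s).count true) * (-1) ^ U (2 * n) (lks T (List.ofFn s))

def two (a b c d : ℕ) (T : List Tup) (k : ℤ) : List Tup × ℤ :=
  if a = b then (if c = d then (T, k) else (T.map (mp (sb c d)), -k))
  else if sb a b c = sb a b d then (T.map (mp (sb a b)), -k)
  else ((T.map (mp (sb a b))).map (mp (sb (sb a b c) (sb a b d))), k)

theorem two_spec (a b c d : ℕ) (T : List Tup) (k : ℤ) (n : ℕ) (s : List Bool) :
    k * (-1) ^ U (n + 2) ((a, b) :: (c, d) :: lks T s) =
      (two a b c d T k).2 * (-1) ^ U n (lks (two a b c d T k).1 s) := by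
  unfold two
  simp only [U, List.map_cons, sbP]
  split_ifs <;> simp only [lks_map, pow_succ] <;> first | rfl | ring_nf
  all_goals rfl

theorem Z_succ (n : ℕ) (T : List Tup) : Z (n + 1) T =
    (∑ s : Fin n → Bool, (-1) ^ ((List.ofFn s).count true) *
      (-1) ^ U (2 * n + 2) (lks T (false :: List.ofFn s))) -
    ∑ s : Fin n → Bool, (-1) ^ ((List.ofFn s).count true) *
      (-1) ^ U (2 * n + 2) (lks T (true :: List.ofFn s)) := by
  unfold Z
  rw [← (Fin.consEquiv (fun _ : Fin (n + 1) => Bool)).sum_comp, Fintype.sum_prod_type,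
    Fintype.sum_bool, add_comm, sub_eq_add_neg, ← sum_neg_distrib]
  congr 1
  · refine sum_congr rfl (fun s _ => ?_)
    simp [Fin.consEquiv, List.ofFn_succ, mul_add]
  · refine sum_congr rfl (fun s _ => ?_)
    simp [Fin.consEquiv, List.ofFn_succ, mul_add, pow_succ]

theorem Z_cons (n : ℕ) (t : Tup) (T : List Tup) (k : ℤ) : k * Z (n + 1) (t :: T) =
    (two t.1 t.2.2.2 t.2.1 t.2.2.1 T k).2 * Z n (two t.1 t.2.2.2 t.2.1 t.2.2.1 T k).1 +
    (two t.1 t.2.1 t.2.2.1 t.2.2.2 T (-k)).2 * Z n (two t.1 t.2.1 t.2.2.1 t.2.2.2 T (-k)).1 := by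
  rw [Z_succ, mul_sub, sub_eq_add_neg, ← neg_mul]
  unfold Z
  simp only [mul_sum]
  congr 1
  · refine sum_congr rfl (fun s _ => ?_)
    rw [mul_left_comm, mul_left_comm (two _ _ _ _ _ _).2, ← two_spec]
    rfl
  · refine sum_congr rfl (fun s _ => ?_)
    rw [mul_left_comm, mul_left_comm (two _ _ _ _ _ _).2, ← two_spec]
    rfl

theorem Z_nil (n : ℕ) : Z (n + 1) [] = 0 := by
  rw [Z_succ]
  simp [lks]

def ins (p : List Tup × ℤ) : List (List Tup × ℤ) → List (List Tup × ℤ)
  | [] => [p]
  | q :: S => if p.1 == q.1 then (q.1, q.2 + p.2) :: S else q :: ins p S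

noncomputable def val (n : ℕ) (S : List (List Tup × ℤ)) : ℤ := (S.map (fun p => p.2 * Z n p.1)).sum

theorem val_ins (n : ℕ) (p : List Tup × ℤ) : ∀ S, val n (ins p S) = p.2 * Z n p.1 + val n S := by
  intro S
  induction S with
  | nil => simp [ins, val]
  | cons q S ih =>
    unfold ins
    split_ifs with h
    · rw [beq_iff_eq] at h
      simp only [val, List.map_cons, List.sum_cons, h]
      ring
    · simp only [val, List.map_cons, List.sum_cons] at ih ⊢
      rw [ih]; ring

def next : List (List Tup × ℤ) → List (List Tup × ℤ)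
  | [] => []
  | ([], _) :: S => next S
  | (t :: T, k) :: S => ins (two t.1 t.2.2.2 t.2.1 t.2.2.1 T k)
      (ins (two t.1 t.2.1 t.2.2.1 t.2.2.2 T (-k)) (next S))

theorem val_next (n : ℕ) : ∀ S, val n (next S) = val (n + 1) S := by
  intro S
  induction S with
  | nil => rfl
  | cons p S ih =>
    obtain ⟨T, k⟩ := p
    cases T with
    | nil =>
      rw [next, ih]
      simp [val, Z_nil]
    | cons t T =>
      rw [next, val_ins, val_ins, ih, ← add_assoc, ← Z_cons]
      simp [val]

def run : ℕ → List (List Tup × ℤ) → ℤ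
  | 0, S => (S.map Prod.snd).sum
  | n + 1, S => run n (next S)

theorem run_spec : ∀ n S, run n S = val n S := by
  intro n
  induction n with
  | zero => intro S; simp [run, val, Z, U]
  | succ n ih => intro S; rw [run, ih, val_next]

theorem Z_eq (n : ℕ) (T : List Tup) : Z n T = run n [(T, 1)] := by
  rw [run_spec]; simp [val]

def cnt : ℕ → (ℕ → ℕ → Bool) → (ℕ → Fin 3 → Bool) → ℕ
  | 0, _, _ => 1
  | n + 1, adj, forb => ([0, 1, 2].map (fun x : Fin 3 => if forb 0 x then 0 else
      cnt n (fun i j => adj (i + 1) (j + 1))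
        (fun i y => forb (i + 1) y || (adj 0 (i + 1) && y == x)))).sum

theorem cnt_spec : ∀ (n : ℕ) (adj : ℕ → ℕ → Bool) (forb : ℕ → Fin 3 → Bool),
    (univ.filter (fun c : Fin n → Fin 3 => (∀ i : Fin n, forb i (c i) = false) ∧
      ∀ i j : Fin n, i < j → adj i j = true → c i ≠ c j)).card = cnt n adj forb := by
  intro n
  induction n with
  | zero => intro adj forb; simp [cnt]
  | succ n ih =>
    intro adj forb
    rw [card_filter, ← (Fin.consEquiv (fun _ : Fin (n + 1) => Fin 3)).sum_comp,
      Fintype.sum_prod_type, cnt]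
    have key : ∀ x : Fin 3, (∑ y : Fin n → Fin 3, if (∀ i : Fin (n + 1),
        forb i ((Fin.consEquiv (fun _ : Fin (n + 1) => Fin 3)) (x, y) i) = false) ∧
        ∀ i j : Fin (n + 1), i < j → adj i j = true →
          (Fin.consEquiv (fun _ : Fin (n + 1) => Fin 3)) (x, y) i ≠
          (Fin.consEquiv (fun _ : Fin (n + 1) => Fin 3)) (x, y) j then 1 else 0) =
        if forb 0 x then 0 else cnt n (fun i j => adj (i + 1) (j + 1))
          (fun i y => forb (i + 1) y || (adj 0 (i + 1) && y == x)) := by
      intro x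
      by_cases h : forb 0 x = true
      · rw [if_pos h]
        refine sum_eq_zero (fun y _ => if_neg (fun h' => ?_))
        have := h'.1 0
        simp [Fin.consEquiv, h] at this
      · rw [if_neg h, ← ih, card_filter]
        refine sum_congr rfl (fun y _ => if_congr ?_ rfl rfl)
        simp only [Fin.consEquiv, Equiv.coe_fn_mk, Fin.forall_fin_succ, Fin.cons_zero,
          Fin.cons_succ, Fin.val_succ, Fin.val_zero, Fin.succ_pos, Fin.not_lt_zero,
          Fin.succ_lt_succ_iff, Bool.or_eq_false_iff, Bool.and_eq_false_imp, beq_eq_false_iff_ne,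
          IsEmpty.forall_iff, forall_const, true_and, forall_and, ne_eq]
        constructor
        · rintro ⟨⟨-, h1⟩, h2, h3⟩
          exact ⟨⟨h1, fun i hi e => h2 i hi e.symm⟩, h3⟩
        · rintro ⟨⟨h1, h2⟩, h3⟩
          exact ⟨⟨by simpa using h, h1⟩, fun i hi e => h2 i hi e.symm, h3⟩
    rw [Fin.sum_univ_three, key, key, key]
    simp [add_assoc]

end Pool.Agent.H10.Pen
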