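import Mathlib

set_option autoImplicit false
set_option linter.unusedSectionVars false

namespace Pool.Agent.H10.QU

open Matrix Quaternion

/-- complex two by two model of a quaternion -/
noncomputable def phi : Quaternion ℝ →+* Matrix (Fin 2) (Fin 2) ℂ where
  toFun x := !![Complex.mk x.re x.imI, Complex.mk x.imJ x.imK;
                 Complex.mk (-x.imJ) x.imK, Complex.mk x.re (-x.imI)]
  map_one' := by
    ext i j; fin_cases i <;> fin_cases j <;> simp [Complex.ext_iff]
  map_zero' := by
    ext i j; fin_cases i <;> fin_cases j <;> simp [Complex.ext_iff]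
  map_add' x y := by
    ext i j; fin_cases i <;> fin_cases j <;> simp [Complex.ext_iff] <;> ring
  map_mul' x y := by
    ext i j; fin_cases i <;> fin_cases j <;>
      simp [Complex.ext_iff, Matrix.mul_apply, Fin.sum_univ_two] <;> constructor <;> ring

lemma det_phi (x : Quaternion ℝ) : (phi x).det = (normSq x : ℝ) := by
  simp only [phi, RingHom.coe_mk, MonoidHom.coe_mk, OneHom.coe_mk, det_fin_two_of, normSq_def']
  apply Complex.ext <;> simp [sq] <;> ring

section S
variable {n m : Type} [Fintype n] [DecidableEq n] [Fintype m] [DecidableEq m]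

/-- block matrix -/
noncomputable def blk {a b : Type} (A : Matrix a b (Quaternion ℝ)) :
    Matrix (a × Fin 2) (b × Fin 2) ℂ := Matrix.of fun p q => phi (A p.1 q.1) p.2 q.2

/-- Study determinant -/
noncomputable def S (A : Matrix n n (Quaternion ℝ)) : ℂ := (blk A).det

lemma blk_mul (A B : Matrix n n (Quaternion ℝ)) : blk (A * B) = blk A * blk B := by
  ext p q
  simp only [blk, of_apply, mul_apply, map_sum, map_mul, Fintype.sum_prod_type, Matrix.sum_apply]

lemma blk_one : blk (1 : Matrix n n (Quaternion ℝ)) = 1 := by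
  ext ⟨i, a⟩ ⟨j, b⟩
  by_cases h : i = j
  · subst h; simp [blk, one_apply]
  · simp [blk, one_apply, h]

lemma blk_zero {a b : Type} : blk (0 : Matrix a b (Quaternion ℝ)) = 0 := by
  ext p q; simp [blk]

lemma S_mul (A B : Matrix n n (Quaternion ℝ)) : S (A * B) = S A * S B := by
  simp [S, blk_mul]

lemma S_one : S (1 : Matrix n n (Quaternion ℝ)) = 1 := by simp [S, blk_one]

lemma S_ne (A : Matrix n n (Quaternion ℝ)) (h : IsUnit A) : S A ≠ 0 := by
  obtain ⟨u, rfl⟩ := h
  have := S_mul (u : Matrix n n _) (u⁻¹ : (Matrix n n (Quaternion ℝ))ˣ)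
  rw [Units.mul_inv, S_one] at this
  exact left_ne_zero_of_mul_eq_one this.symm

lemma blk_fromBlocks (A : Matrix m m (Quaternion ℝ)) (B : Matrix m n (Quaternion ℝ))
    (C : Matrix n m (Quaternion ℝ)) (D : Matrix n n (Quaternion ℝ)) :
    blk (fromBlocks A B C D) = (fromBlocks (blk A) (blk B) (blk C) (blk D)).submatrix
      (Equiv.sumProdDistrib _ _ _) (Equiv.sumProdDistrib _ _ _) := by
  ext ⟨i | i, a⟩ ⟨j | j, b⟩ <;> rfl

lemma S_up (A : Matrix m m (Quaternion ℝ)) (B : Matrix m n (Quaternion ℝ))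
    (D : Matrix n n (Quaternion ℝ)) : S (fromBlocks A B 0 D) = S A * S D := by
  rw [S, blk_fromBlocks, det_submatrix_equiv_self, blk_zero, det_fromBlocks_zero₂₁]; rfl

lemma S_low (A : Matrix m m (Quaternion ℝ)) (C : Matrix n m (Quaternion ℝ))
    (D : Matrix n n (Quaternion ℝ)) : S (fromBlocks A 0 C D) = S A * S D := by
  rw [S, blk_fromBlocks, det_submatrix_equiv_self, blk_zero, det_fromBlocks_zero₁₂]; rfl

lemma S_sub (A : Matrix n n (Quaternion ℝ)) (e e' : m ≃ n) : S (A.submatrix e e') = S A := by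
  have h : blk (A.submatrix e e') = ((blk A).submatrix id
      (Equiv.prodCongrLeft fun _ : Fin 2 => e.symm.trans e')).submatrix
      (e.prodCongr (Equiv.refl _)) (e.prodCongr (Equiv.refl _)) := by
    ext ⟨i, a⟩ ⟨j, b⟩
    simp [blk]
  rw [S, h, det_submatrix_equiv_self, det_permute', Equiv.Perm.sign_prodCongrLeft]
  simp [S]

lemma S_unit (a : Quaternion ℝ) : S (Matrix.of fun _ _ : Unit => a) = (normSq a : ℝ) := by
  rw [← det_phi, S, ← det_submatrix_equiv_self (Equiv.punitProd (Fin 2)).symm]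
  rfl

lemma S_pivot {k : ℕ} (A : Matrix (Fin (k + 1)) (Fin (k + 1)) (Quaternion ℝ))
    (p q : Fin (k + 1)) (h : A p q ≠ 0) :
    S A = (normSq (A p q) : ℝ) * S (Matrix.of fun i j : Fin k =>
      A (p.succAbove i) (q.succAbove j) - A (p.succAbove i) q * (A p q)⁻¹ * A p (q.succAbove j)) := by
  let e : ∀ p : Fin (k + 1), Fin k ⊕ Unit ≃ Fin (k + 1) := fun p =>
    ((finSuccEquiv' p).trans (Equiv.optionEquivSumPUnit (Fin k))).symm
  have e1 : ∀ p i, e p (Sum.inl i) = p.succAbove i := fun p i => by simp [e]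
  have e2 : ∀ p u, e p (Sum.inr u) = p := fun p u => by simp [e]
  rw [← S_sub A (e p) (e q)]
  have : A.submatrix (e p) (e q) =
      fromBlocks 1 (Matrix.of fun i (_ : Unit) => A (p.succAbove i) q * (A p q)⁻¹) 0 1 *
      fromBlocks (Matrix.of fun i j : Fin k => A (p.succAbove i) (q.succAbove j) -
        A (p.succAbove i) q * (A p q)⁻¹ * A p (q.succAbove j)) 0
        (Matrix.of fun (_ : Unit) j => A p (q.succAbove j)) (Matrix.of fun _ _ : Unit => A p q) := by
    rw [fromBlocks_multiply]
    ext (i | i) (j | j) <;> simp [e1, e2, mul_apply, h]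
  rw [this, S_mul, S_up, S_low, S_one, S_one, S_unit]
  ring

end S

section Good
variable {R C : Type}

/-- all square submatrices with rows in `T` have Study determinant zero or one -/
def Good (T : Set R) (D : Matrix R C (Quaternion ℝ)) : Prop :=
  ∀ (k : ℕ) (g : Fin k → R) (h : Fin k → C), (∀ i, g i ∈ T) →
    S (D.submatrix g h) = 0 ∨ S (D.submatrix g h) = 1

/-- Schur complement at a pivot -/
noncomputable def schur (D : Matrix R C (Quaternion ℝ)) (i : R) (j : C) :
    Matrix R C (Quaternion ℝ) := Matrix.of fun a b => D a b - D a j * (D i j)⁻¹ * D i b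

lemma good_empty (D : Matrix R C (Quaternion ℝ)) : Good ∅ D := by
  intro k g h hg
  cases k with
  | zero => right; simp [S]
  | succ k => exact absurd (hg 0) (Set.notMem_empty _)

lemma good_step (T : Set R) (i : R) (D : Matrix R C (Quaternion ℝ)) (h1 : Good T D)
    (h2 : ∀ j, D i j ≠ 0 → normSq (D i j) = 1 ∧ Good T (schur D i j)) :
    Good (insert i T) D := by
  intro k g h hg
  by_cases hi : ∃ p, g p = i
  · obtain ⟨p, rfl⟩ := hi
    by_cases hp : ∃ p', p' ≠ p ∧ g p' = g p
    · obtain ⟨p', hne, he⟩ := hp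
      left
      refine det_zero_of_row_eq (i := (p', (0 : Fin 2))) (j := (p, 0)) (by simp [hne]) ?_
      ext q; simp [blk, he]
    by_cases hq : ∃ q, D (g p) (h q) ≠ 0
    · obtain ⟨q, hq⟩ := hq
      cases k with
      | zero => exact p.elim0
      | succ k =>
        obtain ⟨h3, h4⟩ := h2 _ hq
        have := h4 k (fun i => g (p.succAbove i)) (fun j => h (q.succAbove j)) (by
          intro i
          rcases hg (p.succAbove i) with h' | h'
          · exact absurd ⟨_, Fin.succAbove_ne p i, h'⟩ hp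
          · exact h')
        rw [S_pivot _ p q hq]
        simp only [submatrix_apply, h3, Complex.ofReal_one, one_mul]
        exact this
    · left
      push Not at hq
      refine det_eq_zero_of_row_eq_zero (p, (0 : Fin 2)) ?_
      intro q; simp [blk, hq]
  · refine h1 k g h fun p => ?_
    rcases hg p with h' | h'
    · exact absurd ⟨p, h'⟩ hi
    · exact h'

end Good

section Unit
variable {K : Type} [Ring K] {n m : Type} [Fintype n] [DecidableEq n] [Fintype m] [DecidableEq m]

lemma unit_sub (A : Matrix n n K) (e e' : m ≃ n) (h : IsUnit A) : IsUnit (A.submatrix e e') := by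
  obtain ⟨u, rfl⟩ := h
  refine ⟨⟨u.1.submatrix e e', (u⁻¹ : (Matrix n n K)ˣ).1.submatrix e' e, ?_, ?_⟩, rfl⟩
  · rw [submatrix_mul_equiv, Units.mul_inv, submatrix_one_equiv]
  · rw [submatrix_mul_equiv, Units.inv_mul, submatrix_one_equiv]

lemma unit_low (A : Matrix m m K) (C : Matrix n m K) :
    IsUnit (fromBlocks A 0 C (1 : Matrix n n K)) ↔ IsUnit A := by
  constructor
  · rintro ⟨u, hu⟩
    have h1 := u.mul_inv
    have h2 := u.inv_mul
    rw [hu, ← fromBlocks_toBlocks (u⁻¹ : (Matrix (m ⊕ n) (m ⊕ n) K)ˣ).1, fromBlocks_multiply,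
      ← fromBlocks_one, fromBlocks_inj] at h1 h2
    simp only [Matrix.zero_mul, add_zero, Matrix.mul_zero, zero_add, Matrix.mul_one] at h1 h2
    refine ⟨⟨A, _, h1.1, ?_⟩, rfl⟩
    have := h2.1
    rwa [h2.2.1, Matrix.zero_mul, add_zero] at this
  · rintro ⟨u, rfl⟩
    refine ⟨⟨fromBlocks u.1 0 C 1, fromBlocks (u⁻¹ : (Matrix m m K)ˣ).1 0 (-(C * (u⁻¹ : (Matrix m m K)ˣ).1)) 1,
      ?_, ?_⟩, rfl⟩
    · rw [fromBlocks_multiply, ← fromBlocks_one]; simp
    · rw [fromBlocks_multiply, ← fromBlocks_one]; simp [Matrix.mul_assoc]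

open Classical in
/-- the column selection attached to a square submatrix -/
noncomputable def sel {k : ℕ} (g : Fin k → n) (h : Fin k → m) (i : n) : n ⊕ m :=
  if hi : ∃ p, g p = i then Sum.inr (h hi.choose) else Sum.inl i

lemma unit_sel {k : ℕ} (D : Matrix n m K) (g : Fin k → n) (hg : Function.Injective g)
    (h : Fin k → m) :
    IsUnit ((fromCols (1 : Matrix n n K) D).submatrix id (sel g h)) ↔ IsUnit (D.submatrix g h) := by
  classical
  let e : Fin k ⊕ {i // i ∉ Set.range g} ≃ n :=
    ((Equiv.ofInjective g hg).sumCongr (Equiv.refl _)).trans (Equiv.Set.sumCompl (Set.range g))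
  have e1 : ∀ p, e (Sum.inl p) = g p := fun p => rfl
  have e2 : ∀ p, e (Sum.inr p) = p.1 := fun p => rfl
  have s1 : ∀ p, sel g h (g p) = Sum.inr (h p) := by
    intro p
    have hp : ∃ p', g p' = g p := ⟨p, rfl⟩
    rw [sel, dif_pos hp, hg hp.choose_spec]
  have s2 : ∀ p : {i // i ∉ Set.range g}, sel g h p.1 = Sum.inl p.1 := by
    intro p
    have hp : ¬ ∃ p', g p' = p.1 := p.2
    rw [sel, dif_neg hp]
  have key : ((fromCols (1 : Matrix n n K) D).submatrix id (sel g h)).submatrix e e =
      fromBlocks (D.submatrix g h) 0 (Matrix.of fun p q => D p.1 (h q)) 1 := by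
    ext (p | p) (q | q)
    · simp [e1, s1]
    · have : g p ≠ q.1 := fun h' => q.2 ⟨p, h'⟩
      simp [e1, e2, s2, one_apply, this]
    · simp [e1, e2, s1]
    · simp [e2, s2, one_apply, Subtype.ext_iff]
  rw [← unit_low _ (Matrix.of fun (p : {i // i ∉ Set.range g}) q => D p.1 (h q)), ← key]
  refine ⟨unit_sub _ e e, fun h' => ?_⟩
  have := unit_sub _ e.symm e.symm h'
  simpa [Function.comp_assoc] using this

end Unit

end Pool.Agent.H10.QU
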