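import Mathlib
import Pool.Agent.H10.QU1

set_option autoImplicit false
set_option linter.unusedSectionVars false

namespace Pool.Agent.H10.QU

open Matrix Quaternion

abbrev W : Type := QuadraticAlgebra ℤ (-1) 1

def w : W := ⟨0, 1⟩

noncomputable def T : Fin 3 → Quaternion ℝ :=
  ![⟨1 / 2, 1 / 2, 1 / 2, 1 / 2⟩, ⟨1 / 2, 1 / 2, 1 / 2, -1 / 2⟩,
    ⟨1 / 2, (1 + √5) / 4, (1 - √5) / 4, 0⟩]

lemma s5 : √5 * √5 = (5 : ℝ) := Real.mul_self_sqrt (by norm_num)

lemma T_re (s : Fin 3) : (T s).re = 1 / 2 := by fin_cases s <;> rfl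

lemma T_norm (s : Fin 3) : normSq (T s) = 1 := by
  have := s5
  fin_cases s <;> simp [T, normSq_def'] <;> nlinarith

lemma T_dist (s s' : Fin 3) (h : s ≠ s') : normSq (T s - T s') = 1 := by
  have := s5
  fin_cases s <;> fin_cases s' <;> first | exact absurd rfl h | (simp [T, normSq_def']; nlinarith) | (simp [T, normSq_def']; norm_num)

lemma T_sq (s : Fin 3) : T s * T s = (-1 : ℤ) • 1 + (1 : ℤ) • T s := by
  have h1 := T_re s
  have h2 := T_norm s
  rw [normSq_def'] at h2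
  ext <;> simp [h1] <;> nlinarith

noncomputable def psi (s : Fin 3) : W →+* Quaternion ℝ :=
  (QuadraticAlgebra.lift ⟨T s, T_sq s⟩).toRingHom

lemma psi_apply (s : Fin 3) (z : W) : psi s z = z.re • (1 : Quaternion ℝ) + z.im • T s := rfl

lemma psi_w (s : Fin 3) : psi s w = T s := by simp [psi_apply, w]

def nrm (z : W) : ℤ := z.re * z.re + z.re * z.im + z.im * z.im

lemma psi_norm (s : Fin 3) (z : W) : normSq (psi s z) = (nrm z : ℝ) := by
  have h1 := T_re s
  have h2 := T_norm s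
  rw [normSq_def'] at h2 ⊢
  simp [psi_apply, nrm, h1] at h2 ⊢
  linear_combination (z.im : ℝ) ^ 2 * h2

lemma psi_inv (s : Fin 3) (z : W) (h : nrm z = 1) : (psi s z)⁻¹ = psi s (star z) := by
  have : z * star z = 1 := by
    unfold nrm at h
    ext <;> simp [QuadraticAlgebra.re_one, QuadraticAlgebra.im_one] <;> linarith
  exact (eq_inv_of_mul_eq_one_right (by rw [← map_mul, this, map_one])).symm

def ColH (x y : Quaternion ℝ) : Prop :=
  (x = 0 ∧ (y = 0 ∨ normSq y = 1)) ∨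
    (normSq x = 1 ∧ ∃ c, (c = 0 ∨ c = 1 ∨ ∃ s, c = T s) ∧ y = c * x)

lemma cset {c c' : Quaternion ℝ} (h : c = 0 ∨ c = 1 ∨ ∃ s, c = T s)
    (h' : c' = 0 ∨ c' = 1 ∨ ∃ s, c' = T s) : c - c' = 0 ∨ normSq (c - c') = 1 := by
  have key : ∀ s, normSq (1 - T s) = 1 := by
    intro s
    have h1 := T_re s
    have h2 := T_norm s
    rw [normSq_def'] at h2 ⊢
    simp [h1] at h2 ⊢
    linarith
  rcases h with rfl | rfl | ⟨s, rfl⟩ <;> rcases h' with rfl | rfl | ⟨s', rfl⟩
  · simp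
  · simp
  · simp [T_norm]
  · simp
  · simp
  · exact Or.inr (key s')
  · simp [T_norm]
  · right; rw [← normSq_neg, neg_sub]; exact key s
  · by_cases h : s = s'
    · simp [h]
    · exact Or.inr (T_dist s s' h)

lemma good_one {R C : Type} (D : Matrix R C (Quaternion ℝ)) (b : R)
    (h : ∀ j, D b j = 0 ∨ normSq (D b j) = 1) : Good (insert b ∅) D :=
  good_step _ _ _ (good_empty _) fun j hj => ⟨(h j).resolve_left hj, good_empty _⟩

lemma good_two {R C : Type} (D : Matrix R C (Quaternion ℝ)) (a b : R)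
    (h : ∀ j, ColH (D a j) (D b j)) : Good (insert a (insert b ∅)) D := by
  refine good_step _ _ _ (good_one _ _ fun j => ?_) fun j hj => ?_
  · rcases h j with ⟨-, h⟩ | ⟨h1, c, hc, h2⟩
    · exact h
    · rw [h2]
      rcases cset hc (Or.inl rfl) with h3 | h3 <;> rw [sub_zero] at h3
      · simp [h3]
      · simp [h3, h1]
  · rcases h j with ⟨h0, -⟩ | ⟨h1, c, hc, h2⟩
    · exact absurd h0 hj
    refine ⟨h1, good_one _ _ fun j' => ?_⟩
    simp only [schur, of_apply]
    rcases h j' with ⟨h3, h4⟩ | ⟨h3, c', hc', h4⟩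
    · simpa [h3] using h4
    · have : D b j' - D b j * (D a j)⁻¹ * D a j' = (c' - c) * D a j' := by
        rw [h2, h4, mul_inv_cancel_right₀ hj, sub_mul]
      rw [this]
      rcases cset hc' hc with h5 | h5
      · simp [h5]
      · simp [h5, h3]

abbrev G : Type := Fin 2 ⊕ Fin 2 → Fin 6 → W
abbrev RR : Type := Fin 2 ⊕ (Fin 3 × Fin 2)
abbrev CC : Type := Fin 3 × Fin 6

noncomputable def D0 (Ms : Fin 3 → G) : Matrix RR CC (Quaternion ℝ) := Matrix.of fun i j =>
  match i with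
  | Sum.inl i => psi j.1 (Ms j.1 (Sum.inl i) j.2)
  | Sum.inr i => if i.1 = j.1 then psi j.1 (Ms j.1 (Sum.inr i.2) j.2) else 0

def schurW (M : G) (i : Fin 2) (j : Fin 6) : G :=
  fun a b => M a b - M a j * star (M (Sum.inr i) j) * M (Sum.inr i) b

lemma schur_D0 (Ms : Fin 3 → G) (s : Fin 3) (i : Fin 2) (j : Fin 6)
    (h : nrm (Ms s (Sum.inr i) j) = 1) :
    schur (D0 Ms) (Sum.inr (s, i)) (s, j) = D0 (Function.update Ms s (schurW (Ms s) i j)) := by
  ext1 a ⟨t, b⟩
  by_cases hst : s = t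
  · subst hst
    rcases a with a | ⟨t', a⟩
    · simp [schur, D0, schurW, psi_inv _ _ h]
    · by_cases h' : t' = s
      · simp [schur, D0, schurW, psi_inv _ _ h, h']
      · simp [schur, D0, h']
  · have hts : t ≠ s := fun h => hst h.symm
    rcases a with a | ⟨t', a⟩ <;> simp [schur, D0, hst, hts]

def colsOK (M : G) : Prop := ∀ j,
  (M (Sum.inl 0) j = 0 ∧ (M (Sum.inl 1) j = 0 ∨ nrm (M (Sum.inl 1) j) = 1)) ∨
  (nrm (M (Sum.inl 0) j) = 1 ∧ (M (Sum.inl 1) j = 0 ∨ M (Sum.inl 1) j = M (Sum.inl 0) j ∨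
    M (Sum.inl 1) j = w * M (Sum.inl 0) j))

def chk (P : G → Prop) (i : Fin 2) (M : G) : Prop :=
  P M ∧ ∀ j, M (Sum.inr i) j = 0 ∨ (nrm (M (Sum.inr i) j) = 1 ∧ P (schurW M i j))

lemma good_chk (P : G → Prop) (U : Set RR) (Ms : Fin 3 → G) (s : Fin 3) (i : Fin 2)
    (h : ∀ M, P M → Good U (D0 (Function.update Ms s M))) (M : G) (hM : chk P i M) :
    Good (insert (Sum.inr (s, i)) U) (D0 (Function.update Ms s M)) := by
  refine good_step _ _ _ (h M hM.1) ?_
  rintro ⟨t, j⟩ hj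
  by_cases hst : s = t
  · subst hst
    simp only [D0, of_apply, if_true, Function.update_self] at hj
    rcases hM.2 j with h1 | ⟨h1, h2⟩
    · rw [h1, map_zero] at hj; exact absurd rfl hj
    · refine ⟨by simp [D0, psi_norm, h1], ?_⟩
      rw [schur_D0 _ _ _ _ (by simpa using h1)]
      simpa using h _ h2
  · simp [D0, hst] at hj

lemma good_base (Ms : Fin 3 → G) (h : ∀ s, colsOK (Ms s)) :
    Good (insert (Sum.inl 0) (insert (Sum.inl 1) ∅)) (D0 Ms) := by
  refine good_two _ _ _ ?_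
  rintro ⟨s, j⟩
  simp only [D0, of_apply]
  rcases h s j with ⟨h1, h2⟩ | ⟨h1, h2⟩
  · refine Or.inl ⟨by rw [h1, map_zero], ?_⟩
    rcases h2 with h2 | h2
    · left; rw [h2, map_zero]
    · right; rw [psi_norm, h2]; simp
  · refine Or.inr ⟨by rw [psi_norm, h1]; simp, ?_⟩
    rcases h2 with h2 | h2 | h2
    · exact ⟨0, Or.inl rfl, by rw [h2]; simp⟩
    · exact ⟨1, Or.inr (Or.inl rfl), by rw [h2]; simp⟩
    · exact ⟨T s, Or.inr (Or.inr ⟨s, rfl⟩), by rw [h2, map_mul, psi_w]⟩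

/-- the gadget -/
def G0 : G
  | Sum.inl 0 => ![1, 1, 0, 0, 1, 1]
  | Sum.inl 1 => ![1, w, 1, 1, 0, 0]
  | Sum.inr 0 => ![0, 0, 0, 1, -1, -w]
  | Sum.inr 1 => ![0, 0, 1, w, -w, 0]

lemma chk_G0 : chk (chk colsOK 1) 0 G0 := by
  unfold chk colsOK
  decide +kernel

theorem good_D0 : Good Set.univ (D0 fun _ => G0) := by
  have two : ∀ (U : Set RR) (Ms : Fin 3 → G) (s : Fin 3),
      (∀ M, colsOK M → Good U (D0 (Function.update Ms s M))) →
      Good (insert (Sum.inr (s, 0)) (insert (Sum.inr (s, 1)) U))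
        (D0 (Function.update Ms s G0)) := fun U Ms s h =>
    good_chk _ _ Ms s 0 (good_chk _ _ Ms s 1 h) G0 chk_G0
  have h := two _ (fun _ => G0) 0 fun M0 h0 => by
    have h := two _ (Function.update (fun _ => G0) 0 M0) 1 fun M1 h1 => by
      have h := two _ (Function.update (Function.update (fun _ => G0) 0 M0) 1 M1) 2
        fun M2 h2 => good_base _ (by
          intro s; fin_cases s <;> simpa)
      rwa [Function.update_eq_self_iff.2 (by simp)] at h
    rwa [Function.update_eq_self_iff.2 (by simp)] at h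
  rw [Function.update_eq_self_iff.2 rfl] at h
  intro k g hh _
  refine h k g hh fun i => ?_
  generalize g i = x
  revert x
  decide

lemma unit_of {k : ℕ} (s : Fin 3) (A B : Matrix (Fin k) (Fin k) W) (h1 : A * B = 1)
    (h2 : B * A = 1) : IsUnit (A.map (psi s)) :=
  (show IsUnit A from ⟨⟨A, B, h1, h2⟩, rfl⟩).map (psi s).mapMatrix

lemma nonunit_of {k : ℕ} (s : Fin 3) (A : Matrix (Fin k) (Fin k) W) (v : Fin k → W) (i : Fin k)
    (h1 : A *ᵥ v = 0) (h2 : v i = 1) : ¬ IsUnit (A.map (psi s)) := by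
  rintro ⟨u, hu⟩
  have h3 : (A.map (psi s)) *ᵥ (psi s ∘ v) = 0 := by
    funext j
    rw [← RingHom.map_mulVec, h1]; simp
  have h4 : (psi s ∘ v) = 0 := by
    have := congrArg (fun x => (u⁻¹ : (Matrix (Fin k) (Fin k) (Quaternion ℝ))ˣ).1 *ᵥ x) h3
    simp only [mulVec_mulVec, ← hu, Units.inv_mul, one_mulVec, mulVec_zero] at this
    exact this
  have := congrFun h4 i
  simp [h2] at this

/-- rows of the gadget inside the big matrix -/
def rw (s : Fin 3) : Fin 2 ⊕ Fin 2 → RR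
  | Sum.inl i => Sum.inl i
  | Sum.inr i => Sum.inr (s, i)

lemma rw_inj (s : Fin 3) : Function.Injective (rw s) := by
  rintro (a | a) (b | b) h <;> simp_all [rw]

lemma D0_sub (s : Fin 3) {k : ℕ} (g : Fin k → Fin 2 ⊕ Fin 2) (h : Fin k → Fin 6) :
    (D0 fun _ => G0).submatrix (rw s ∘ g) (fun j => (s, h j)) =
      (Matrix.of fun i j => G0 (g i) (h j)).map (psi s) := by
  ext1 i j
  simp only [submatrix_apply, Function.comp_apply, map_apply, of_apply]
  rcases g i with a | a <;> simp [D0, rw]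

section Field
variable {F : Type} [Field F]

lemma gadget (s : Fin 3) (x : Fin 2 ⊕ Fin 2 → Fin 6 → F)
    (H : ∀ (k : ℕ) (g : Fin k → Fin 2 ⊕ Fin 2) (h : Fin k → Fin 6), Function.Injective g →
      (IsUnit ((Matrix.of fun i j => G0 (g i) (h j)).map (psi s)) ↔
        (Matrix.of fun i j => x (g i) (h j)).det ≠ 0)) :
    x (Sum.inl 0) 0 ≠ 0 ∧ x (Sum.inl 1) 0 ≠ 0 ∧ x (Sum.inl 0) 1 ≠ 0 ∧
    (x (Sum.inl 1) 1 / x (Sum.inl 0) 1) ^ 2 - (x (Sum.inl 1) 1 / x (Sum.inl 0) 1) *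
      (x (Sum.inl 1) 0 / x (Sum.inl 0) 0) + (x (Sum.inl 1) 0 / x (Sum.inl 0) 0) ^ 2 = 0 := by
  have z : ∀ i j, G0 i j = 0 → x i j = 0 := by
    intro i j h
    have := (H 1 ![i] ![j] (Function.injective_of_subsingleton _)).not.1
      (nonunit_of s _ ![1] 0 (by funext a; simp [mulVec, dotProduct, h]) rfl)
    simpa using this
  have nz : ∀ i j, G0 i j * star (G0 i j) = 1 → x i j ≠ 0 := by
    intro i j h
    have := (H 1 ![i] ![j] (Function.injective_of_subsingleton _)).1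
      (unit_of s _ (Matrix.of fun _ _ => star (G0 i j))
        (by ext1 a b; simp [mul_apply, h, Subsingleton.elim a b, one_apply])
        (by ext1 a b; simp [mul_apply, mul_comm, h, Subsingleton.elim a b, one_apply]))
    simpa using this
  have R1 := (H 2 ![Sum.inr 0, Sum.inr 1] ![3, 4] (by decide)).not.1
    (nonunit_of s _ ![1, 1] 0 (by decide) rfl)
  have R2 := (H 3 ![Sum.inl 0, Sum.inl 1, Sum.inr 0] ![0, 3, 4] (by decide)).not.1
    (nonunit_of s _ ![1, -1, -1] 0 (by decide) rfl)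
  have R3 := (H 3 ![Sum.inl 0, Sum.inl 1, Sum.inr 0] ![1, 3, 5] (by decide)).not.1
    (nonunit_of s _ ![1, -w, -1] 0 (by decide) rfl)
  have R4 := (H 3 ![Sum.inl 0, Sum.inl 1, Sum.inr 1] ![1, 2, 4] (by decide)).not.1
    (nonunit_of s _ ![1, -w, -1] 0 (by decide) rfl)
  have R5 := (H 4 ![Sum.inl 0, Sum.inl 1, Sum.inr 0, Sum.inr 1] ![2, 3, 4, 5] (by decide)).not.1
    (nonunit_of s _ ![-(w * w), w * w, -1, 1] 3 (by decide) rfl)
  have z02 := z (Sum.inl 0) 2 rfl
  have z03 := z (Sum.inl 0) 3 rfl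
  have z14 := z (Sum.inl 1) 4 rfl
  have z15 := z (Sum.inl 1) 5 rfl
  have z20 := z (Sum.inr 0) 0 rfl
  have z21 := z (Sum.inr 0) 1 rfl
  have z22 := z (Sum.inr 0) 2 rfl
  have z31 := z (Sum.inr 1) 1 rfl
  have z35 := z (Sum.inr 1) 5 rfl
  have n00 := nz (Sum.inl 0) 0 (by decide)
  have n01 := nz (Sum.inl 0) 1 (by decide)
  have n04 := nz (Sum.inl 0) 4 (by decide)
  have n05 := nz (Sum.inl 0) 5 (by decide)
  have n10 := nz (Sum.inl 1) 0 (by decide)
  have n11 := nz (Sum.inl 1) 1 (by decide)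
  have n12 := nz (Sum.inl 1) 2 (by decide)
  have n13 := nz (Sum.inl 1) 3 (by decide)
  have n23 := nz (Sum.inr 0) 3 (by decide)
  have n32 := nz (Sum.inr 1) 2 (by decide)
  simp [det_fin_two] at R1
  simp [det_fin_three, z03, z14, z20] at R2
  simp [det_fin_three, z03, z15, z21] at R3
  simp [det_fin_three, z02, z14, z31] at R4
  simp [det_succ_row_zero, Fin.sum_univ_succ, Fin.succAbove, z02, z03, z14, z15, z22, z35] at R5
  refine ⟨n00, n10, n01, ?_⟩
  generalize x (Sum.inl 0) 0 = a0 at *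
  generalize x (Sum.inl 0) 1 = a1 at *
  generalize x (Sum.inl 0) 4 = a4 at *
  generalize x (Sum.inl 0) 5 = a5 at *
  generalize x (Sum.inl 1) 0 = b0 at *
  generalize x (Sum.inl 1) 1 = b1 at *
  generalize x (Sum.inl 1) 2 = b2 at *
  generalize x (Sum.inl 1) 3 = b3 at *
  generalize x (Sum.inr 0) 3 = c3 at *
  generalize x (Sum.inr 0) 4 = c4 at *
  generalize x (Sum.inr 0) 5 = c5 at *
  generalize x (Sum.inr 1) 2 = d2 at *
  generalize x (Sum.inr 1) 3 = d3 at *
  generalize x (Sum.inr 1) 4 = d4 at *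
  have e1 : c4 = -(a4 * b0 * c3) / (a0 * b3) := by field_simp; linear_combination R2
  have e2 : c5 = -(a5 * b1 * c3) / (a1 * b3) := by field_simp; linear_combination R3
  have e3 : d4 = -(a4 * b1 * d2) / (a1 * b2) := by field_simp; linear_combination R4
  have e4 : d3 = (a0 * b1 * d2 * b3) / (a1 * b2 * b0) := by
    rw [e1, e3] at R1
    field_simp at R1 ⊢
    apply mul_left_cancel₀ (mul_ne_zero n23 n04)
    linear_combination R1
  rw [e1, e2, e3, e4] at R5
  field_simp at R5 ⊢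
  apply mul_left_cancel₀ (mul_ne_zero (mul_ne_zero (mul_ne_zero n04 n05) n23) n32)
  linear_combination R5

theorem no_field (x : Matrix RR CC F)
    (H : ∀ (k : ℕ) (g : Fin k → RR) (h : Fin k → CC), Function.Injective g →
      (IsUnit ((D0 fun _ => G0).submatrix g h) ↔ (x.submatrix g h).det ≠ 0)) : False := by
  have gd := fun s : Fin 3 => gadget s (fun i j => x (rw s i) (s, j)) (by
    intro k g h hg
    rw [← D0_sub]
    exact H k _ _ ((rw_inj s).comp hg))
  simp only [rw] at gd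
  have par : ∀ s, x (Sum.inl 1) (s, 0) / x (Sum.inl 0) (s, 0) =
      x (Sum.inl 1) (0, 0) / x (Sum.inl 0) (0, 0) := by
    intro s
    have h1 : (D0 fun _ => G0).submatrix ![Sum.inl 0, Sum.inl 1] ![(s, 0), (0, 0)] =
        (!![1, 1; 1, 1] : Matrix (Fin 2) (Fin 2) W).map (psi 0) := by
      ext1 i j; fin_cases i <;> fin_cases j <;> simp [D0, G0]
    have := (H 2 ![Sum.inl 0, Sum.inl 1] ![(s, 0), (0, 0)] (by decide)).not.1 (by
      rw [h1]; exact nonunit_of 0 _ ![1, -1] 0 (by decide) rfl)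
    simp [det_fin_two] at this
    have a1 := (gd s).1
    have a2 := (gd 0).1
    field_simp
    linear_combination (-1 : F) * this
  have dis : ∀ s t, s ≠ t → x (Sum.inl 1) (s, 1) / x (Sum.inl 0) (s, 1) ≠
      x (Sum.inl 1) (t, 1) / x (Sum.inl 0) (t, 1) := by
    intro s t hst he
    have hd : T t - T s ≠ 0 := by
      intro h
      have := T_dist t s hst.symm
      rw [h] at this; simp at this
    have h1 : (D0 fun _ => G0).submatrix ![Sum.inl 0, Sum.inl 1] ![(s, 1), (t, 1)] =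
        !![1, 0; T s, 1] * !![1, 0; 0, T t - T s] * !![1, 1; 0, 1] := by
      ext1 i j; fin_cases i <;> fin_cases j <;> simp [D0, G0, psi_w, mul_apply, Fin.sum_univ_two]
    have := (H 2 ![Sum.inl 0, Sum.inl 1] ![(s, 1), (t, 1)] (by decide)).1 (by
      rw [h1]
      refine (IsUnit.mul ⟨⟨_, !![1, 0; -T s, 1], ?_, ?_⟩, rfl⟩
        ⟨⟨_, !![1, 0; 0, (T t - T s)⁻¹], ?_, ?_⟩, rfl⟩).mul ⟨⟨_, !![1, -1; 0, 1], ?_, ?_⟩, rfl⟩ <;>
      · ext1 i j; fin_cases i <;> fin_cases j <;> simp [mul_apply, Fin.sum_univ_two, hd])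
    apply this
    simp [det_fin_two]
    have a1 := (gd s).2.2.1
    have a2 := (gd t).2.2.1
    field_simp at he
    linear_combination (-1 : F) * he
  have q0 := (gd 0).2.2.2
  have q1 := (gd 1).2.2.2
  have q2 := (gd 2).2.2.2
  rw [par] at q1 q2
  have d01 := dis 0 1 (by decide)
  have d02 := dis 0 2 (by decide)
  have d12 := dis 1 2 (by decide)
  generalize x (Sum.inl 1) (0, 1) / x (Sum.inl 0) (0, 1) = a at *
  generalize x (Sum.inl 1) (1, 1) / x (Sum.inl 0) (1, 1) = b at *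
  generalize x (Sum.inl 1) (2, 1) / x (Sum.inl 0) (2, 1) = c at *
  generalize x (Sum.inl 1) (0, 0) / x (Sum.inl 0) (0, 0) = l at *
  have e1 : a + b = l := by
    apply mul_left_cancel₀ (sub_ne_zero.2 d01); linear_combination q0 - q1
  have e2 : a + c = l := by
    apply mul_left_cancel₀ (sub_ne_zero.2 d02); linear_combination q0 - q2
  exact d12 (by linear_combination e1 - e2)

end Field

end Pool.Agent.H10.QU
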