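import Mathlib

namespace Pool.Agent.H10.Rotor
open Classical

/-- number of false entries before position `p`. -/
noncomputable def zc (g : ℕ → Prop) : ℕ → ℕ
  | 0 => 0
  | p + 1 => zc g p + if g p then 0 else 1

/-- number of true entries before position `p`. -/
noncomputable def oc (g : ℕ → Prop) : ℕ → ℕ
  | 0 => 0
  | p + 1 => oc g p + if g p then 1 else 0

def sh (g : ℕ → Prop) : ℕ → Prop := fun p => g (p + 1)

lemma zc_add_oc (g : ℕ → Prop) (p : ℕ) : zc g p + oc g p = p := by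
  induction p with
  | zero => rfl
  | succ p ih => simp only [zc, oc]; split_ifs <;> omega

lemma zc_mono (g : ℕ → Prop) : Monotone (zc g) :=
  monotone_nat_of_le_succ fun n => by simp only [zc]; omega

lemma oc_mono (g : ℕ → Prop) : Monotone (oc g) :=
  monotone_nat_of_le_succ fun n => by simp only [oc]; omega

lemma zc_sh (g : ℕ → Prop) (p : ℕ) : zc g (p + 1) = zc (sh g) p + if g 0 then 0 else 1 := by
  induction p with
  | zero => simp [zc]
  | succ p ih =>
    rw [zc, ih]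
    have : zc (sh g) (p + 1) = zc (sh g) p + if g (p + 1) then 0 else 1 := by
      by_cases h : g (p + 1)
      · rw [zc, if_pos h, if_pos (show sh g p from h)]
      · rw [zc, if_neg h, if_neg (show ¬ sh g p from h)]
    omega

lemma head_of_zc (g : ℕ → Prop) (p : ℕ) (hp : g p) (h : zc g p = 0) : g 0 := by
  cases p with
  | zero => exact hp
  | succ p =>
    rw [zc_sh] at h
    by_contra h0
    simp [h0] at h

/-- labelled recursion at a vertex with `b0` children and rotor `r0`. -/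
def LRec (b0 r0 : ℕ) (g : ℕ → Prop) (c : ℕ → ℕ → Prop) : Prop :=
  ∃ κ : ℕ → ℕ,
    (∀ p, g p → 1 ≤ κ p ∧ κ p ≤ b0 ∧
      ∃ i, c (κ p) i ∧ zc g p + (if r0 < κ p then 1 else 0) = i + 1) ∧
    (∀ p q, g p → g q → zc g p = zc g q → κ p = κ q → p = q) ∧
    (∀ k i, 1 ≤ k → k ≤ b0 → c k i →
      ∃ p, g p ∧ κ p = k ∧ zc g p + (if r0 < k then 1 else 0) = i + 1)

lemma LRec.head {b0 r0 g c} (h : LRec b0 r0 g c) :
    g 0 ↔ ∃ k, r0 < k ∧ k ≤ b0 ∧ c k 0 := by
  obtain ⟨κ, h1, -, h3⟩ := h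
  constructor
  · intro h0
    obtain ⟨-, hb, i, hi, he⟩ := h1 0 h0
    have hz : zc g 0 = 0 := rfl
    by_cases hr : r0 < κ 0
    · rw [if_pos hr] at he
      have : i = 0 := by omega
      subst this
      exact ⟨κ 0, hr, hb, hi⟩
    · rw [if_neg hr] at he; omega
  · rintro ⟨k, hk, hb, hc⟩
    obtain ⟨p, hp, -, he⟩ := h3 k 0 (by omega) hb hc
    rw [if_pos hk] at he
    exact head_of_zc g p hp (by omega)

lemma LRec.shiftRet {b0 r0 g c} {c' : ℕ → ℕ → Prop} (h : LRec b0 r0 g c) (h0 : ¬ g 0)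
    (hA : ∀ k, r0 < k → k ≤ b0 → c' k = sh (c k)) (hB : ∀ k, k ≤ r0 → c' k = c k) :
    LRec b0 0 (sh g) c' := by
  have hh := h.head
  obtain ⟨κ, h1, h2, h3⟩ := h
  have hz : ∀ p, zc g (p + 1) = zc (sh g) p + 1 := fun p => by rw [zc_sh, if_neg h0]
  refine ⟨fun p => κ (p + 1), ?_, ?_, ?_⟩
  · intro p hp
    obtain ⟨ha, hb, i, hi, he⟩ := h1 (p + 1) hp
    refine ⟨ha, hb, ?_⟩
    beta_reduce
    rw [hz] at he
    rw [if_pos (by omega : 0 < κ (p + 1))]
    by_cases hr : r0 < κ (p + 1)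
    · rw [if_pos hr] at he
      refine ⟨zc (sh g) p, ?_, rfl⟩
      rw [hA _ hr hb]
      have : i = zc (sh g) p + 1 := by omega
      subst this
      exact hi
    · rw [if_neg hr] at he
      refine ⟨i, ?_, by omega⟩
      rw [hB _ (by omega)]
      exact hi
  · intro p q hp hq he hk
    have := h2 (p + 1) (q + 1) hp hq (by rw [hz, hz, he]) hk
    omega
  · intro k i ha hb hc
    rw [if_pos (by omega : 0 < k)]
    by_cases hr : r0 < k
    · rw [hA _ hr hb] at hc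
      obtain ⟨p, hp, hk, he⟩ := h3 k (i + 1) ha hb hc
      rw [if_pos hr] at he
      cases p with
      | zero => exact absurd hp h0
      | succ p => exact ⟨p, hp, hk, by rw [hz] at he; omega⟩
    · rw [hB _ (by omega)] at hc
      obtain ⟨p, hp, hk, he⟩ := h3 k i ha hb hc
      rw [if_neg hr] at he
      cases p with
      | zero => exact absurd hp h0
      | succ p => exact ⟨p, hp, hk, by rw [hz] at he; omega⟩

lemma LRec.swap {b0 r0 g c} (h : LRec b0 r0 g c) {k0 : ℕ} (hr : r0 < k0) (hb : k0 ≤ b0)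
    (hc : c k0 0) : ∃ κ : ℕ → ℕ, κ 0 = k0 ∧
    (∀ p, g p → 1 ≤ κ p ∧ κ p ≤ b0 ∧
      ∃ i, c (κ p) i ∧ zc g p + (if r0 < κ p then 1 else 0) = i + 1) ∧
    (∀ p q, g p → g q → zc g p = zc g q → κ p = κ q → p = q) ∧
    (∀ k i, 1 ≤ k → k ≤ b0 → c k i →
      ∃ p, g p ∧ κ p = k ∧ zc g p + (if r0 < k then 1 else 0) = i + 1) := by
  have h0 : g 0 := h.head.2 ⟨k0, hr, hb, hc⟩
  obtain ⟨κ, h1, h2, h3⟩ := h
  obtain ⟨p0, hp0, hk0, he0⟩ := h3 k0 0 (by omega) hb hc
  rw [if_pos hr] at he0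
  have hz0 : zc g p0 = 0 := by omega
  have hg : ∀ p, g (Equiv.swap 0 p0 p) ↔ g p := by
    intro p
    rw [Equiv.swap_apply_def]
    split_ifs with ha hb
    · subst ha; exact ⟨fun _ => h0, fun _ => hp0⟩
    · subst hb; exact ⟨fun _ => hp0, fun _ => h0⟩
    · rfl
  have hzz : ∀ p, zc g (Equiv.swap 0 p0 p) = zc g p := by
    intro p
    rw [Equiv.swap_apply_def]
    split_ifs with ha hb
    · subst ha; exact hz0
    · subst hb; exact hz0.symm
    · rfl
  refine ⟨fun p => κ (Equiv.swap 0 p0 p), by simp [hk0], ?_, ?_, ?_⟩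
  · intro p hp
    have := h1 _ ((hg p).2 hp)
    rwa [hzz] at this
  · intro p q hp hq he hk
    exact (Equiv.swap 0 p0).injective
      (h2 _ _ ((hg p).2 hp) ((hg q).2 hq) (by rw [hzz, hzz, he]) hk)
  · intro k i ha hb hc
    obtain ⟨p, hp, hk, he⟩ := h3 k i ha hb hc
    exact ⟨Equiv.swap 0 p0 p, (hg p).2 hp, by simp [hk], by rw [hzz]; exact he⟩

lemma LRec.shiftEsc {b0 r0 g c} {c' : ℕ → ℕ → Prop} (h : LRec b0 r0 g c) {k0 : ℕ}
    (hr : r0 < k0) (hb : k0 ≤ b0) (hc : c k0 0) (hmin : ∀ j, r0 < j → j < k0 → ¬ c j 0)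
    (hA : ∀ k, r0 < k → k ≤ k0 → c' k = sh (c k))
    (hB : ∀ k, k ≤ r0 ∨ k0 < k → c' k = c k) :
    LRec b0 k0 (sh g) c' := by
  have h0 : g 0 := h.head.2 ⟨k0, hr, hb, hc⟩
  obtain ⟨κ, hκ, h1, h2, h3⟩ := h.swap hr hb hc
  have hz : ∀ p, zc g (p + 1) = zc (sh g) p := fun p => by rw [zc_sh, if_pos h0]; rfl
  refine ⟨fun p => κ (p + 1), ?_, ?_, ?_⟩
  · intro p hp
    obtain ⟨ha, hb', i, hi, he⟩ := h1 (p + 1) hp
    refine ⟨ha, hb', ?_⟩
    beta_reduce
    by_cases h4 : κ (p + 1) ≤ r0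
    · rw [if_neg (by omega)] at he
      rw [if_neg (by omega), hB _ (Or.inl h4)]
      exact ⟨i, hi, by rw [← hz]; omega⟩
    by_cases h5 : k0 < κ (p + 1)
    · rw [if_pos (by omega)] at he
      rw [if_pos h5, hB _ (Or.inr h5)]
      exact ⟨i, hi, by rw [← hz]; omega⟩
    rw [if_pos (by omega)] at he
    rw [if_neg h5, hA _ (by omega) (by omega)]
    cases i with
    | zero =>
      exfalso
      by_cases h6 : κ (p + 1) = k0
      · have := h2 (p + 1) 0 hp h0 (by have : zc g 0 = 0 := rfl; omega) (by rw [h6, hκ])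
        omega
      · exact hmin _ (by omega) (by omega) hi
    | succ i => exact ⟨i, hi, by rw [← hz]; omega⟩
  · intro p q hp hq he hk
    have := h2 (p + 1) (q + 1) hp hq (by rw [hz, hz, he]) hk
    omega
  · intro k i ha hb' hc'
    have hz0 : zc g 0 = 0 := rfl
    by_cases h4 : k ≤ r0
    · rw [hB _ (Or.inl h4)] at hc'
      obtain ⟨p, hp, hk, he⟩ := h3 k i ha hb' hc'
      rw [if_neg (by omega)] at he
      rw [if_neg (by omega)]
      cases p with
      | zero => omega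
      | succ p => exact ⟨p, hp, hk, by rw [← hz]; omega⟩
    by_cases h5 : k0 < k
    · rw [hB _ (Or.inr h5)] at hc'
      obtain ⟨p, hp, hk, he⟩ := h3 k i ha hb' hc'
      rw [if_pos (by omega)] at he
      rw [if_pos h5]
      cases p with
      | zero => omega
      | succ p => exact ⟨p, hp, hk, by rw [← hz]; omega⟩
    rw [hA _ (by omega) (by omega)] at hc'
    obtain ⟨p, hp, hk, he⟩ := h3 k (i + 1) ha hb' hc'
    rw [if_pos (by omega)] at he
    rw [if_neg h5]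
    cases p with
    | zero => omega
    | succ p => exact ⟨p, hp, hk, by rw [← hz]; omega⟩

/-- `g` arises from `e` by inserting and substituting false entries. -/
def Dom (g e : ℕ → Prop) : Prop :=
  ∃ ψ : ℕ → ℕ, (∀ p, g p → e (ψ p) ∧ ψ p ≤ p) ∧
    (∀ p q, g p → g q → p < q → ψ p < ψ q ∧ p + ψ q ≤ q + ψ p)

lemma Dom.head {g e} (h : Dom g e) (h0 : g 0) : e 0 := by
  obtain ⟨ψ, h1, -⟩ := h
  obtain ⟨ha, hb⟩ := h1 0 h0
  have : ψ 0 = 0 := by omega
  rwa [this] at ha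

lemma oc_inj {g e : ℕ → Prop} {ψ : ℕ → ℕ} (h1 : ∀ p, g p → e (ψ p))
    (h2 : ∀ p q, g p → g q → p < q → ψ p < ψ q) (a p : ℕ) :
    ∀ n, p ≤ n → ∀ t, a ≤ t → (∀ i, p ≤ i → i < n → g i → a ≤ ψ i ∧ ψ i < t) →
      oc g n + oc e a ≤ oc e t + oc g p := by
  intro n hn
  induction n, hn using Nat.le_induction with
  | base => intro t ht _; have := oc_mono e ht; omega
  | succ n hn ih =>
    intro t ht hi
    by_cases hg : g n
    · obtain ⟨ha, hb⟩ := hi n hn (by omega) hg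
      have h3 := ih (ψ n) ha (fun i h4 h5 h6 => ⟨(hi i h4 (by omega) h6).1, h2 i n h6 hg h5⟩)
      have h4 : oc e (ψ n + 1) ≤ oc e t := oc_mono e hb
      simp only [oc, if_pos hg, if_pos (h1 n hg)] at h4 ⊢
      omega
    · have h3 := ih t ht (fun i h4 h5 h6 => hi i h4 (by omega) h6)
      simp only [oc, if_neg hg]
      omega

lemma LRec.descend {b0 r0 e c g} (h : LRec b0 r0 e c) (hd : Dom g e) (hr : r0 ≤ b0) :
    ∃ (r1 : ℕ) (d : ℕ → ℕ → Prop), r1 ≤ b0 ∧ LRec b0 r1 g d ∧ (∀ k, Dom (d k) (c k)) ∧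
      (r1 = b0 ∨ r1 = r0) ∧ (¬ g 0 → r1 = b0 ∨ ¬ e 0) := by
  obtain ⟨ψ, hψ1, hψ2⟩ := hd
  obtain ⟨κ, h1, h2, -⟩ := h
  have hoc := oc_inj (fun p hp => (hψ1 p hp).1) (fun p q hp hq h => (hψ2 p q hp hq h).1)
  have hA : ∀ p, g p → zc e (ψ p) ≤ zc g p := by
    intro p hp
    have := hoc 0 0 p (by omega) (ψ p) (by omega)
      (fun i _ h5 h6 => ⟨by omega, (hψ2 i p h6 hp h5).1⟩)
    have h3 := zc_add_oc g p
    have h4 := zc_add_oc e (ψ p)
    have h5 := (hψ1 p hp).2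
    have h6 : oc g 0 = 0 := rfl
    omega
  have hB : ∀ p q, g p → g q → p < q → zc g p + zc e (ψ q) ≤ zc g q + zc e (ψ p) := by
    intro p q hp hq hpq
    have := hoc (ψ p) p q hpq.le (ψ q) (hψ2 p q hp hq hpq).1.le
      (fun i h4 h5 h6 => ⟨by
        rcases h4.eq_or_lt with h7 | h7
        · subst h7; exact le_rfl
        · exact (hψ2 p i hp h6 h7).1.le, (hψ2 i q h6 hq h5).1⟩)
    have h3 := zc_add_oc g p
    have h4 := zc_add_oc e (ψ p)
    have h5 := zc_add_oc g q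
    have h6 := zc_add_oc e (ψ q)
    have h7 := (hψ2 p q hp hq hpq).2
    omega
  have hC : ¬ g 0 → e 0 → ∀ p, g p → zc e (ψ p) + 1 ≤ zc g p := by
    intro hg0 he0 p hp
    have h3 := zc_add_oc g p
    have h4 := zc_add_oc e (ψ p)
    have h5 := (hψ1 p hp).2
    have h6 : oc g 0 = 0 := rfl
    by_cases hlt : ψ p < p
    · have := hoc 0 0 p (by omega) (ψ p) (by omega)
        (fun i _ h5 h6 => ⟨by omega, (hψ2 i p h6 hp h5).1⟩)
      omega
    · have hp0 : p ≠ 0 := fun h => hg0 (h ▸ hp)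
      have := hoc 1 0 p (by omega) (ψ p) (by omega)
        (fun i _ h7 h8 => ⟨by
          have h9 := (hψ2 i p h8 hp h7).2
          have : i ≠ 0 := fun h => hg0 (h ▸ h8)
          omega, (hψ2 i p h8 hp h7).1⟩)
      have h9 : oc e 1 = 1 := by simp [oc, he0]
      omega
  obtain ⟨r1, hr1, hr2, hr3, hkey⟩ : ∃ r1, r1 ≤ b0 ∧ (r1 = b0 ∨ r1 = r0) ∧
      (¬ g 0 → r1 = b0 ∨ ¬ e 0) ∧ ∀ p, g p → zc e (ψ p) + (if r0 < κ (ψ p) then 1 else 0) ≤
        zc g p + (if r1 < κ (ψ p) then 1 else 0) := by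
    by_cases hcase : ¬ g 0 ∧ e 0
    · refine ⟨b0, le_rfl, Or.inl rfl, fun _ => Or.inl rfl, fun p hp => ?_⟩
      have := hC hcase.1 hcase.2 p hp
      split_ifs <;> omega
    · refine ⟨r0, hr, Or.inr rfl, fun h => Or.inr fun h' => hcase ⟨h, h'⟩, fun p hp => ?_⟩
      have := hA p hp
      omega
  refine ⟨r1, fun k i => ∃ p, g p ∧ κ (ψ p) = k ∧ zc g p + (if r1 < k then 1 else 0) = i + 1,
    hr1, ⟨fun p => κ (ψ p), ?_, ?_, ?_⟩, ?_, hr2, hr3⟩
  · intro p hp
    obtain ⟨ha, hb, i, -, he⟩ := h1 _ (hψ1 p hp).1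
    have := hkey p hp
    beta_reduce
    refine ⟨ha, hb, zc g p + (if r1 < κ (ψ p) then 1 else 0) - 1, ⟨p, hp, rfl, by omega⟩, by omega⟩
  · have key : ∀ p q, g p → g q → p < q → zc g p = zc g q → κ (ψ p) = κ (ψ q) → False := by
      intro p q hp hq hpq he hk
      have h3 := hB p q hp hq hpq
      have h4 := (hψ2 p q hp hq hpq).1
      have h5 := zc_mono e h4.le
      have := h2 _ _ (hψ1 p hp).1 (hψ1 q hq).1 (by omega) hk
      omega
    intro p q hp hq he hk
    rcases lt_trichotomy p q with h | h | h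
    · exact (key p q hp hq h he hk).elim
    · exact h
    · exact (key q p hq hp h he.symm hk.symm).elim
  · intro k i _ _ hc
    exact hc
  · intro k
    have : ∀ i, ∃ p, (∃ p, g p ∧ κ (ψ p) = k ∧ zc g p + (if r1 < k then 1 else 0) = i + 1) →
        g p ∧ κ (ψ p) = k ∧ zc g p + (if r1 < k then 1 else 0) = i + 1 := by
      intro i
      by_cases hh : ∃ p, g p ∧ κ (ψ p) = k ∧ zc g p + (if r1 < k then 1 else 0) = i + 1
      · obtain ⟨p, hp⟩ := hh
        exact ⟨p, fun _ => hp⟩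
      · exact ⟨0, fun h => absurd h hh⟩
    choose P hP using this
    refine ⟨fun i => zc e (ψ (P i)) + (if r0 < k then 1 else 0) - 1, ?_, ?_⟩
    · intro i hi
      obtain ⟨hp, hk, he⟩ := hP i hi
      obtain ⟨-, -, j, hj, hje⟩ := h1 _ (hψ1 _ hp).1
      have h3 := hkey _ hp
      rw [hk] at hj hje h3
      refine ⟨?_, by beta_reduce; omega⟩
      have : zc e (ψ (P i)) + (if r0 < k then 1 else 0) - 1 = j := by omega
      show c k (zc e (ψ (P i)) + (if r0 < k then 1 else 0) - 1)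
      rw [this]; exact hj
    · intro i j hi hj hij
      obtain ⟨hp, hk, he⟩ := hP i hi
      obtain ⟨hq, hk', he'⟩ := hP j hj
      have hlt : P i < P j := by
        by_contra hh
        have := zc_mono g (not_lt.1 hh)
        omega
      have h3 := hB _ _ hp hq hlt
      have h4 := (hψ2 _ _ hp hq hlt).1
      have h5 := zc_mono e h4.le
      have h6 : zc e (ψ (P i)) ≠ zc e (ψ (P j)) := fun hh => by
        have := h2 _ _ (hψ1 _ hp).1 (hψ1 _ hq).1 hh (by rw [hk, hk'])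
        omega
      obtain ⟨-, -, i0, -, hie⟩ := h1 _ (hψ1 _ hp).1
      rw [hk] at hie
      constructor
      · show zc e (ψ (P i)) + (if r0 < k then 1 else 0) - 1 <
          zc e (ψ (P j)) + (if r0 < k then 1 else 0) - 1
        omega
      · show i + (zc e (ψ (P j)) + (if r0 < k then 1 else 0) - 1) ≤
          j + (zc e (ψ (P i)) + (if r0 < k then 1 else 0) - 1)
        omega

end Pool.Agent.H10.Rotor
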