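import Pool.Agent.H10.RotorA

namespace Pool.Agent.H10.Rotor
open Classical

abbrev Cfg := List ℕ → ℕ

def sub {α : Type} (k : ℕ) (f : List ℕ → α) : List ℕ → α := fun l => f (k :: l)
def subs {α : Type} (v : List ℕ) (f : List ℕ → α) : List ℕ → α := fun l => f (v ++ l)

inductive Ret : Cfg → Cfg → Prop
  | mk (b r : Cfg) : (∀ k, r [] < k → k ≤ b [] → Ret (sub k b) (sub k r)) → Ret b r

lemma ret_iff {b r : Cfg} : Ret b r ↔ ∀ k, r [] < k → k ≤ b [] → Ret (sub k b) (sub k r) :=
  ⟨fun h => by cases h with | mk _ _ h => exact h, fun h => Ret.mk b r h⟩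

noncomputable def k0 (b r : Cfg) : ℕ :=
  if h : ∃ k, r [] < k ∧ k ≤ b [] ∧ ¬ Ret (sub k b) (sub k r) then Nat.find h else 0

def vis (b r : Cfg) (k : ℕ) : Prop :=
  r [] < k ∧ k ≤ b [] ∧ ∀ j, r [] < j → j < k → Ret (sub j b) (sub j r)

noncomputable def N : Cfg → Cfg → List ℕ → ℕ
  | b, r, [] => k0 b r
  | b, r, k :: l => if vis b r k then N (sub k b) (sub k r) l else r (k :: l)

lemma k0_ret {b r : Cfg} (h : Ret b r) : k0 b r = 0 := by
  unfold k0
  rw [dif_neg]
  rintro ⟨k, h1, h2, h3⟩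
  exact h3 (ret_iff.1 h k h1 h2)

lemma k0_spec {b r : Cfg} (h : ¬ Ret b r) : r [] < k0 b r ∧ k0 b r ≤ b [] ∧
    ¬ Ret (sub (k0 b r) b) (sub (k0 b r) r) ∧
    ∀ j, r [] < j → j < k0 b r → Ret (sub j b) (sub j r) := by
  have hex : ∃ k, r [] < k ∧ k ≤ b [] ∧ ¬ Ret (sub k b) (sub k r) := by
    by_contra hh
    exact h (ret_iff.2 fun k h1 h2 => by_contra fun h3 => hh ⟨k, h1, h2, h3⟩)
  have he : k0 b r = Nat.find hex := by unfold k0; rw [dif_pos hex]
  obtain ⟨h1, h2, h3⟩ := Nat.find_spec hex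
  rw [he]
  refine ⟨h1, h2, h3, fun j h4 h5 => by_contra fun h6 => ?_⟩
  exact Nat.find_min hex h5 ⟨h4, by omega, h6⟩

lemma vis_ret {b r : Cfg} (h : Ret b r) (k : ℕ) : vis b r k ↔ r [] < k ∧ k ≤ b [] :=
  ⟨fun h => ⟨h.1, h.2.1⟩, fun h1 => ⟨h1.1, h1.2, fun j h2 h3 => ret_iff.1 h j h2 (by omega)⟩⟩

lemma vis_esc {b r : Cfg} (h : ¬ Ret b r) (k : ℕ) : vis b r k ↔ r [] < k ∧ k ≤ k0 b r := by
  obtain ⟨h1, h2, h3, h4⟩ := k0_spec h
  constructor
  · rintro ⟨h5, h6, h7⟩
    refine ⟨h5, by_contra fun h8 => h3 (h7 _ h1 (by omega))⟩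
  · rintro ⟨h5, h6⟩
    exact ⟨h5, by omega, fun j h7 h8 => h4 j h7 (by omega)⟩

lemma sub_N_vis {b r : Cfg} {k : ℕ} (h : vis b r k) :
    sub k (N b r) = N (sub k b) (sub k r) := by
  funext l
  show N b r (k :: l) = _
  rw [N, if_pos h]

lemma sub_N_not {b r : Cfg} {k : ℕ} (h : ¬ vis b r k) : sub k (N b r) = sub k r := by
  funext l
  show N b r (k :: l) = _
  rw [N, if_neg h]
  rfl

lemma N_le : ∀ (v : List ℕ) (b r : Cfg), (∀ v, r v ≤ b v) → N b r v ≤ b v
  | [], b, r, hr => by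
    rw [N]
    by_cases h : Ret b r
    · rw [k0_ret h]; omega
    · exact (k0_spec h).2.1
  | k :: l, b, r, hr => by
    rw [N]
    split_ifs with h
    · exact N_le l (sub k b) (sub k r) fun v => hr (k :: v)
    · exact hr _

def GRec (b r : Cfg) (f : List ℕ → ℕ → Prop) : Prop :=
  ∀ v, LRec (b v) (r v) (f v) (fun k => f (v ++ [k]))

def GRet (b r : Cfg) (f : List ℕ → ℕ → Prop) : Prop :=
  ∀ v, ¬ f v 0 → Ret (subs v b) (subs v r)

lemma GRec.sub {b r f} (h : GRec b r f) (k : ℕ) : GRec (sub k b) (sub k r) (sub k f) :=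
  fun v => h (k :: v)

lemma GRet.sub {b r f} (h : GRet b r f) (k : ℕ) : GRet (sub k b) (sub k r) (sub k f) :=
  fun v => h (k :: v)

lemma ret_head {b r : Cfg} (h : Ret b r) : ∀ f, GRec b r f → ¬ f [] 0 := by
  induction h with
  | mk b r _ ih =>
    intro f hf h0
    obtain ⟨k, h1, h2, h3⟩ := (hf []).head.1 h0
    exact ih k h1 h2 (sub k f) (hf.sub k) h3

lemma head_iff {b r : Cfg} {f} (h1 : GRec b r f) (h2 : GRet b r f) : f [] 0 ↔ ¬ Ret b r :=
  ⟨fun h h' => ret_head h' f h1 h, fun h => by_contra fun h' => h (h2 [] h')⟩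

def Sh : Cfg → Cfg → (List ℕ → ℕ → Prop) → List ℕ → ℕ → Prop
  | _, _, f, [] => sh (f [])
  | b, r, f, k :: l => fun n =>
      (vis b r k ∧ Sh (sub k b) (sub k r) (sub k f) l n) ∨ (¬ vis b r k ∧ f (k :: l) n)

lemma Sh_vis {b r : Cfg} {k : ℕ} (h : vis b r k) (f l) :
    Sh b r f (k :: l) = Sh (sub k b) (sub k r) (sub k f) l := by
  funext n; rw [Sh]; simp [h]

lemma Sh_not {b r : Cfg} {k : ℕ} (h : ¬ vis b r k) (f l) : Sh b r f (k :: l) = f (k :: l) := by
  funext n; rw [Sh]; simp [h]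

lemma grec_sh : ∀ (v : List ℕ) (b r : Cfg) (f : List ℕ → ℕ → Prop), GRec b r f → GRet b r f →
    LRec (b v) (N b r v) (Sh b r f v) (fun k => Sh b r f (v ++ [k]))
  | [], b, r, f, h1, h2 => by
    have hc : ∀ k, f [k] 0 ↔ ¬ Ret (sub k b) (sub k r) := fun k => head_iff (h1.sub k) (h2.sub k)
    have hv : ∀ k, vis b r k → Sh b r f [k] = sh (f [k]) := fun k hk => by
      rw [Sh_vis hk]; rfl
    by_cases h : Ret b r
    · rw [N, k0_ret h]
      refine (h1 []).shiftRet (ret_head h f h1) (fun k h3 h4 => hv k ((vis_ret h k).2 ⟨h3, h4⟩))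
        (fun k h3 => Sh_not (fun h4 => by have := h4.1; omega) f [])
    · obtain ⟨h3, h4, h5, h6⟩ := k0_spec h
      rw [N]
      refine (h1 []).shiftEsc h3 h4 ((hc _).2 h5) (fun j h7 h8 h9 => (hc j).1 h9 (h6 j h7 h8))
        (fun k h7 h8 => hv k ((vis_esc h k).2 ⟨h7, h8⟩))
        (fun k h7 => Sh_not (fun h8 => by have := (vis_esc h k).1 h8; omega) f [])
  | k :: l, b, r, f, h1, h2 => by
    by_cases h : vis b r k
    · have := grec_sh l (sub k b) (sub k r) (sub k f) (h1.sub k) (h2.sub k)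
      rw [N, if_pos h, Sh_vis h]
      have he : (fun j => Sh b r f (k :: l ++ [j])) =
          fun j => Sh (sub k b) (sub k r) (sub k f) (l ++ [j]) := by
        funext j; exact Sh_vis h f _
      rw [he]; exact this
    · rw [N, if_neg h, Sh_not h]
      have he : (fun j => Sh b r f (k :: l ++ [j])) = fun j => f (k :: l ++ [j]) := by
        funext j; exact Sh_not h f _
      rw [he]; exact h1 (k :: l)

lemma ret_N_ret {b r : Cfg} (h : Ret b r) : ∀ f, GRec b r f → GRet b r f → ¬ Sh b r f [] 0 →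
    Ret b (N b r) := by
  induction h with
  | mk b r h ih =>
    intro f h1 h2 h0
    refine ret_iff.2 fun k h3 h4 => ?_
    have h5 : ¬ Sh b r f [k] 0 := fun h6 => h0 ((grec_sh [] b r f h1 h2).head.2 ⟨k, h3, h4, h6⟩)
    by_cases hv : vis b r k
    · rw [sub_N_vis hv]
      rw [Sh_vis hv] at h5
      exact ih k hv.1 h4 (sub k f) (h1.sub k) (h2.sub k) h5
    · rw [sub_N_not hv]
      rw [Sh_not hv] at h5
      exact h2 [k] h5

lemma gret_sh : ∀ (v : List ℕ) (b r : Cfg) (f : List ℕ → ℕ → Prop), GRec b r f → GRet b r f →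
    ¬ Sh b r f v 0 → Ret (subs v b) (subs v (N b r))
  | [], b, r, f, h1, h2, h0 => by
    by_cases h : Ret b r
    · exact ret_N_ret h f h1 h2 h0
    · show Ret b (N b r)
      refine ret_iff.2 fun k h3 h4 => ?_
      have h5 : ¬ Sh b r f [k] 0 := fun h6 => h0 ((grec_sh [] b r f h1 h2).head.2 ⟨k, h3, h4, h6⟩)
      have hv : ¬ vis b r k := fun h6 => by
        have := (vis_esc h k).1 h6
        rw [N] at h3
        omega
      rw [sub_N_not hv]
      rw [Sh_not hv] at h5
      exact h2 [k] h5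
  | k :: l, b, r, f, h1, h2, h0 => by
    show Ret (subs l (sub k b)) (subs l (sub k (N b r)))
    by_cases hv : vis b r k
    · rw [sub_N_vis hv]
      rw [Sh_vis hv] at h0
      exact gret_sh l _ _ _ (h1.sub k) (h2.sub k) h0
    · rw [sub_N_not hv]
      rw [Sh_not hv] at h0
      exact h2 (k :: l) h0

def E (b r : Cfg) (n : ℕ) : Prop := ¬ Ret b ((N b)^[n] r)

lemma good_eq (b : Cfg) : ∀ (n : ℕ) (r : Cfg) (f : List ℕ → ℕ → Prop), GRec b r f → GRet b r f →
    (f [] n ↔ E b r n)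
  | 0, _, _, h1, h2 => head_iff h1 h2
  | n + 1, r, f, h1, h2 =>
    good_eq b n (N b r) (Sh b r f) (fun v => grec_sh v b r f h1 h2) (fun v => gret_sh v b r f h1 h2)

noncomputable def mv (b r : Cfg) (k : ℕ) : ℕ → ℕ
  | 0 => 0
  | n + 1 => mv b r k n + if vis b ((N b)^[n] r) k then 1 else 0

lemma iter_le {b r : Cfg} (hr : ∀ v, r v ≤ b v) (n : ℕ) : ∀ v, (N b)^[n] r v ≤ b v := by
  induction n with
  | zero => exact hr
  | succ n ih => rw [Function.iterate_succ_apply']; exact fun v => N_le v b _ ih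

lemma sub_iter (b r : Cfg) (k n : ℕ) :
    sub k ((N b)^[n] r) = (N (sub k b))^[mv b r k n] (sub k r) := by
  induction n with
  | zero => rfl
  | succ n ih =>
    rw [Function.iterate_succ_apply', mv]
    split_ifs with h
    · rw [sub_N_vis h, ih, Function.iterate_succ_apply']
    · rw [sub_N_not h, ih, Nat.add_zero]

lemma mv_eq {b : Cfg} (r : Cfg) {k : ℕ} (h1 : 1 ≤ k) (h2 : k ≤ b []) (n : ℕ) :
    mv b r k n + (if (N b)^[n] r [] < k then 1 else 0) =
      zc (E b r) n + (if r [] < k then 1 else 0) := by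
  induction n with
  | zero => rfl
  | succ n ih =>
    rw [Function.iterate_succ_apply', mv, zc, N]
    by_cases h : Ret b ((N b)^[n] r)
    · have hE : ¬ E b r n := fun h' => h' h
      rw [if_neg hE, k0_ret h, if_pos (by omega : 0 < k)]
      by_cases h3 : (N b)^[n] r [] < k
      · rw [if_pos ((vis_ret h k).2 ⟨h3, h2⟩)]
        rw [if_pos h3] at ih
        omega
      · rw [if_neg (fun h4 => h3 h4.1)]
        rw [if_neg h3] at ih
        omega
    · have hE : E b r n := h
      have h5 := (k0_spec h).1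
      rw [if_pos hE]
      by_cases h3 : vis b ((N b)^[n] r) k
      · have h4 := (vis_esc h k).1 h3
        rw [if_pos h3, if_neg (by omega)]
        rw [if_pos h4.1] at ih
        omega
      · rw [if_neg h3]
        rw [vis_esc h k] at h3
        split_ifs at ih ⊢ <;> omega

lemma zc_big {b r : Cfg} (hr : ∀ v, r v ≤ b v) (n : ℕ) :
    n ≤ zc (E b r) n * (b [] + 1) + (N b)^[n] r [] := by
  induction n with
  | zero => omega
  | succ n ih =>
    rw [Function.iterate_succ_apply', zc, N]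
    have h1 := iter_le hr n []
    by_cases h : Ret b ((N b)^[n] r)
    · have hE : ¬ E b r n := fun h' => h' h
      rw [if_neg hE, k0_ret h, Nat.add_mul]
      omega
    · have hE : E b r n := h
      have h5 := (k0_spec h).1
      rw [if_pos hE]
      simp only [Nat.add_zero]
      omega

lemma lrec_true {b r : Cfg} (hr : ∀ v, r v ≤ b v) :
    LRec (b []) (r []) (E b r) (fun k => E (sub k b) (sub k r)) := by
  have hmono : ∀ k, Monotone (mv b r k) := fun k =>
    monotone_nat_of_le_succ fun n => by simp only [mv]; omega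
  refine ⟨fun n => k0 b ((N b)^[n] r), ?_, ?_, ?_⟩
  · intro p hp
    obtain ⟨h1, h2, h3, -⟩ := k0_spec hp
    beta_reduce
    refine ⟨by omega, h2, mv b r (k0 b ((N b)^[p] r)) p, ?_, ?_⟩
    · rw [sub_iter] at h3; exact h3
    · have := mv_eq r (by omega) h2 p
      rw [if_pos h1] at this
      omega
  · have key : ∀ p q, E b r p → E b r q → p < q → zc (E b r) p = zc (E b r) q →
        k0 b ((N b)^[p] r) = k0 b ((N b)^[q] r) → False := by
      intro p q hp hq hpq he hk
      obtain ⟨h1, h2, -, -⟩ := k0_spec hp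
      obtain ⟨h3, -, -, -⟩ := k0_spec hq
      have h5 := mv_eq r (by omega) h2 p
      have h6 := mv_eq r (by omega) h2 q
      rw [if_pos h1] at h5
      rw [if_pos (by omega)] at h6
      have h7 := hmono (k0 b ((N b)^[p] r)) (show p + 1 ≤ q by omega)
      rw [mv, if_pos ((vis_esc hp _).2 ⟨h1, le_rfl⟩)] at h7
      omega
    intro p q hp hq he hk
    rcases lt_trichotomy p q with h | h | h
    · exact (key p q hp hq h he hk).elim
    · exact h
    · exact (key q p hq hp h he.symm hk.symm).elim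
  · intro k i h1 h2 hc
    have hex : ∃ n, i < mv b r k n := by
      refine ⟨(i + 3) * (b [] + 1), ?_⟩
      have h3 := zc_big hr ((i + 3) * (b [] + 1))
      have h4 := iter_le hr ((i + 3) * (b [] + 1)) []
      have h5 := mv_eq r h1 h2 ((i + 3) * (b [] + 1))
      have h6 : i + 2 ≤ zc (E b r) ((i + 3) * (b [] + 1)) := by
        by_contra hh
        have := Nat.mul_le_mul_right (b [] + 1)
          (show zc (E b r) ((i + 3) * (b [] + 1)) ≤ i + 1 by omega)
        nlinarith
      split_ifs at h5 <;> omega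
    have h3 := Nat.find_spec hex
    obtain ⟨n, hn⟩ : ∃ n, Nat.find hex = n + 1 := by
      refine Nat.exists_eq_succ_of_ne_zero fun h => ?_
      rw [h] at h3
      simp [mv] at h3
    have h4 := Nat.find_min hex (show n < Nat.find hex by omega)
    rw [hn, mv] at h3
    have hv : vis b ((N b)^[n] r) k := by
      by_contra hh
      rw [if_neg hh] at h3
      omega
    rw [if_pos hv] at h3
    have h5 : mv b r k n = i := by omega
    have h6 : ¬ Ret (sub k b) (sub k ((N b)^[n] r)) := by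
      rw [sub_iter, h5]; exact hc
    have hE : ¬ Ret b ((N b)^[n] r) := fun h => h6 (ret_iff.1 h k hv.1 h2)
    refine ⟨n, hE, ?_, ?_⟩
    · have h7 := (vis_esc hE k).1 hv
      obtain ⟨-, -, -, h8⟩ := k0_spec hE
      show k0 b ((N b)^[n] r) = k
      by_contra hh
      exact h6 (h8 k hv.1 (by omega))
    · have := mv_eq r h1 h2 n
      rw [if_pos hv.1] at this
      omega

lemma subs_snoc {α : Type} (v : List ℕ) (k : ℕ) (f : List ℕ → α) :
    subs (v ++ [k]) f = sub k (subs v f) := by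
  funext l; simp [subs, sub]

lemma ret_transfer {b r : Cfg} (h : Ret b r) : ∀ r' : Cfg, (∀ v, r' v = b v ∨ r' v = r v) →
    Ret b r' := by
  induction h with
  | mk b r _ ih =>
    intro r' h1
    refine ret_iff.2 fun k h2 h3 => ?_
    rcases h1 [] with h4 | h4
    · omega
    · exact ih k (by omega) h3 (sub k r') fun v => h1 (k :: v)

theorem closure {b r : Cfg} (hr : ∀ v, r v ≤ b v) (g : ℕ → Prop) (hg : ∀ n, g n → E b r n) :
    ∃ r' : Cfg, (∀ v, r' v ≤ b v) ∧ ∀ n, g n ↔ E b r' n := by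
  have hF : ∀ v, LRec (b v) (r v) (E (subs v b) (subs v r))
      (fun k => E (subs (v ++ [k]) b) (subs (v ++ [k]) r)) := by
    intro v
    have := lrec_true (b := subs v b) (r := subs v r) fun l => hr _
    simp only [subs_snoc]
    have e1 : subs v b [] = b v := by simp [subs]
    have e2 : subs v r [] = r v := by simp [subs]
    rwa [e1, e2] at this
  have hstep : ∀ (v : List ℕ) (g : ℕ → Prop), ∃ (r1 : ℕ) (d : ℕ → ℕ → Prop),
      Dom g (E (subs v b) (subs v r)) → r1 ≤ b v ∧ LRec (b v) r1 g d ∧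
        (∀ k, Dom (d k) (E (subs (v ++ [k]) b) (subs (v ++ [k]) r))) ∧
        (r1 = b v ∨ r1 = r v) ∧ (¬ g 0 → r1 = b v ∨ ¬ E (subs v b) (subs v r) 0) := by
    intro v g
    by_cases hd : Dom g (E (subs v b) (subs v r))
    · obtain ⟨r1, d, h⟩ := (hF v).descend hd (hr v)
      exact ⟨r1, d, fun _ => h⟩
    · exact ⟨0, fun _ _ => False, fun h => absurd h hd⟩
  choose ρ d hd using hstep
  let G : List ℕ → ℕ → Prop := fun u => List.rec g (fun k u Gu => d u.reverse Gu k) u
  let f : List ℕ → ℕ → Prop := fun v => G v.reverse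
  have hf : ∀ v k, f (v ++ [k]) = d v (f v) k := by
    intro v k
    show G (v ++ [k]).reverse = _
    rw [List.reverse_append]
    show d v.reverse.reverse (G v.reverse) k = _
    rw [List.reverse_reverse]
  have hdom : ∀ v, Dom (f v) (E (subs v b) (subs v r)) := by
    intro v
    induction v using List.reverseRecOn with
    | nil => exact ⟨id, fun p hp => ⟨hg p hp, le_rfl⟩, fun p q _ _ h => ⟨h, by simp; omega⟩⟩
    | append_singleton v k ih => rw [hf]; exact (hd v _ ih).2.2.1 k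
  refine ⟨fun v => ρ v (f v), fun v => (hd v _ (hdom v)).1, fun n => ?_⟩
  refine good_eq b n _ f (fun v => ?_) (fun v h0 => ?_)
  · simp only [hf]; exact (hd v _ (hdom v)).2.1
  · rcases (hd v _ (hdom v)).2.2.2.2 h0 with h | h
    · refine ret_iff.2 fun k h1 h2 => ?_
      simp only [subs, List.append_nil] at h1 h2
      omega
    · exact ret_transfer (not_not.1 h) _ fun l => (hd _ _ (hdom (v ++ l))).2.2.2.1

end Pool.Agent.H10.Rotor
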