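import Mathlib

namespace Pool.Agent.H10.Theta

open Finset Filter Topology Polynomial

/-- Finite Euler products. -/
noncomputable def PP (x : ℝ) (m : ℕ) : ℝ := ∏ i ∈ range m, (1 - (x ^ 2) ^ (i + 1))

/-- Truncated reciprocals. -/
noncomputable def JJ (x : ℝ) (n k : ℕ) : ℝ := if k ≤ n then 1 / PP x (n - k) else 0

/-- Terms of the finite Jacobi identity. -/
noncomputable def cc (x : ℝ) (n k : ℕ) : ℝ :=
  (-1) ^ k * x ^ (k * (k + 1)) * PP x (2 * n + 1) * JJ x n k / PP x (n + k + 1)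

variable {x : ℝ}

lemma fac_pos (h0 : 0 < x) (h1 : x < 1) (i : ℕ) : 0 < 1 - (x ^ 2) ^ (i + 1) :=
  sub_pos.2 (pow_lt_one₀ (by positivity) (pow_lt_one₀ h0.le h1 two_ne_zero) (Nat.succ_ne_zero i))

lemma PP_pos (h0 : 0 < x) (h1 : x < 1) (m : ℕ) : 0 < PP x m := prod_pos fun i _ => fac_pos h0 h1 i

lemma PP_succ (m : ℕ) : PP x (m + 1) = PP x m * (1 - (x ^ 2) ^ (m + 1)) := prod_range_succ _ _

lemma JJ_shift (n k : ℕ) : JJ x (n + 1) (k + 1) = JJ x n k := by simp [JJ]

lemma JJ_rec (h0 : 0 < x) (h1 : x < 1) (n k : ℕ) :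
    JJ x n k = (1 - (x ^ 2) ^ (n + 1) / (x ^ 2) ^ k) * JJ x (n + 1) k := by
  unfold JJ
  rcases lt_trichotomy k (n + 1) with h | h | h
  · obtain ⟨j, rfl⟩ := Nat.exists_eq_add_of_le (Nat.lt_succ_iff.1 h)
    have a := PP_pos h0 h1 j
    have b := fac_pos h0 h1 j
    rw [if_pos (by omega), if_pos (by omega), show k + j + 1 - k = j + 1 by omega,
      Nat.add_sub_cancel_left, PP_succ, add_assoc, pow_add _ k, mul_div_cancel_left₀ _
      (by positivity)]
    field_simp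
  · rw [if_neg (by omega), h, div_self (by positivity), sub_self, zero_mul]
  · rw [if_neg (by omega), if_neg (by omega), mul_zero]

lemma cc_rec (h0 : 0 < x) (h1 : x < 1) (n k : ℕ) : cc x (n + 1) (k + 1) =
    (1 + ((x ^ 2) ^ (n + 1)) ^ 2) * cc x n (k + 1) -
      (x ^ 2) ^ (n + 1) * (cc x n k + cc x n (k + 2)) := by
  have hC := JJ_rec h0 h1 n (k + 2)
  have hB := JJ_rec h0 h1 n (k + 1)
  rw [JJ_shift n (k + 1)] at hC
  rw [JJ_shift n k] at hB
  unfold cc
  rw [hC, hB, JJ_shift,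
    show n + 1 + (k + 1) + 1 = n + k + 1 + 1 + 1 by ring, show n + (k + 2) + 1 = n + k + 1 + 1 + 1 by
    ring, show n + (k + 1) + 1 = n + k + 1 + 1 by ring, show 2 * (n + 1) + 1 = 2 * n + 1 + 1 + 1 by
    ring, PP_succ (n + k + 1 + 1), PP_succ (n + k + 1), PP_succ (2 * n + 1 + 1),
    PP_succ (2 * n + 1)]
  have a := (PP_pos h0 h1 (n + k + 1)).ne'
  have b := (fac_pos h0 h1 (n + k + 1)).ne'
  have c := (fac_pos h0 h1 (n + k + 1 + 1)).ne'
  have e1 : x ^ ((k + 1) * (k + 1 + 1)) = x ^ (k * (k + 1)) * ((x ^ 2) ^ k * x ^ 2) := by ring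
  have e2 : x ^ ((k + 2) * (k + 2 + 1)) =
    x ^ (k * (k + 1)) * ((x ^ 2) ^ k * (x ^ 2) ^ k * (x ^ 2) ^ 3) := by ring
  rw [e1, e2]
  generalize hb : 1 - (x ^ 2) ^ (n + k + 1 + 1) = B at *
  generalize hc : 1 - (x ^ 2) ^ (n + k + 1 + 1 + 1) = C at *
  simp only [pow_add, two_mul n] at hb hc ⊢
  have q0 : x ^ 2 ≠ 0 := by positivity
  have v0 : (x ^ 2) ^ k ≠ 0 := by positivity
  generalize (x ^ 2) ^ k = v at *
  generalize (x ^ 2) ^ n = u at *
  generalize x ^ 2 = q at *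
  field_simp
  subst hb hc
  ring

lemma cc_rec0 (h0 : 0 < x) (h1 : x < 1) (n : ℕ) : cc x (n + 1) 0 =
    (1 + ((x ^ 2) ^ (n + 1)) ^ 2) * cc x n 0 - (x ^ 2) ^ (n + 1) * (cc x n 1 - cc x n 0) := by
  unfold cc
  rw [JJ_rec h0 h1 n 1, JJ_shift, JJ_rec h0 h1 n 0, show 2 * (n + 1) + 1 = 2 * n + 1 + 1 + 1 by
    ring, PP_succ (n + 1), PP_succ (2 * n + 1 + 1), PP_succ (2 * n + 1)]
  have a := (PP_pos h0 h1 (n + 1)).ne'
  have b := (fac_pos h0 h1 (n + 1)).ne'
  generalize hb : 1 - (x ^ 2) ^ (n + 1 + 1) = B at *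
  simp only [pow_add, two_mul n] at hb ⊢
  have q0 : x ^ 2 ≠ 0 := by positivity
  norm_num
  generalize (x ^ 2) ^ n = u at *
  generalize x ^ 2 = q at *
  field_simp
  subst hb
  ring

lemma cc_zero {n k : ℕ} (h : n < k) : cc x n k = 0 := by simp [cc, JJ, h.not_ge]

lemma fin_jacobi (h0 : 0 < x) (h1 : x < 1) (n N : ℕ) (h : n < N) :
    ∑ k ∈ range N, (2 * k + 1) * cc x n k = PP x n ^ 2 := by
  induction n generalizing N with
  | zero =>
    rw [sum_eq_single 0 (fun k _ hk => by rw [cc_zero (Nat.pos_of_ne_zero hk), mul_zero])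
      fun h' => absurd (mem_range.2 h) h']
    have := (PP_pos h0 h1 1).ne'
    simp [cc, JJ, this, show PP x 0 = 1 from rfl]
  | succ n ih =>
    obtain ⟨M, rfl⟩ : ∃ M, N = M + 1 := ⟨N - 1, by omega⟩
    have g0 := ih M (by omega)
    have g1 := ih (M + 1) (by omega)
    have g2 := ih (M + 2) (by omega)
    have g3 : ∑ k ∈ range (M + 2), cc x n k = ∑ k ∈ range M, cc x n k := by
      rw [sum_range_succ, sum_range_succ, cc_zero (by omega), cc_zero (by omega)]
      simp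
    rw [sum_range_succ'] at g1 ⊢
    rw [sum_range_succ', sum_range_succ'] at g2 g3
    have e : ∑ k ∈ range M, (2 * ((k + 1 : ℕ) : ℝ) + 1) * cc x (n + 1) (k + 1) =
        (1 + ((x ^ 2) ^ (n + 1)) ^ 2) * ∑ k ∈ range M, (2 * ((k + 1 : ℕ) : ℝ) + 1) * cc x n (k + 1)
        - (x ^ 2) ^ (n + 1) * (∑ k ∈ range M, (2 * (k : ℝ) + 1) * cc x n k +
          2 * ∑ k ∈ range M, cc x n k +
          ∑ k ∈ range M, (2 * ((k + 1 + 1 : ℕ) : ℝ) + 1) * cc x n (k + 1 + 1) -
          2 * ∑ k ∈ range M, cc x n (k + 1 + 1)) := by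
      simp only [mul_sum, ← sum_add_distrib, ← sum_sub_distrib]
      refine sum_congr rfl fun k _ => ?_
      rw [cc_rec h0 h1]
      push_cast
      ring
    rw [e, cc_rec0 h0 h1, PP_succ]
    push_cast at *
    linear_combination (1 + ((x ^ 2) ^ (n + 1)) ^ 2) * g1 -
      (x ^ 2) ^ (n + 1) * (g0 + g2 - 2 * g3)

lemma PP_anti (h0 : 0 < x) (h1 : x < 1) : Antitone (PP x) := antitone_nat_of_succ_le fun n => by
  rw [PP_succ]
  exact mul_le_of_le_one_right (PP_pos h0 h1 n).le (sub_le_self _ (by positivity))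

lemma PP_low (h0 : 0 < x) (h1 : x < 1) : ∃ δ > 0, ∀ m, δ ≤ PP x m := by
  have q0 : 0 < x ^ 2 := by positivity
  have q1 : x ^ 2 < 1 := pow_lt_one₀ h0.le h1 two_ne_zero
  unfold PP
  generalize x ^ 2 = q at *
  have d : 0 < 1 - q := by linarith
  refine ⟨Real.exp (-((1 - q)⁻¹ * (1 - q)⁻¹)), Real.exp_pos _, fun m => ?_⟩
  have h : ∑ i ∈ range m, q ^ i ≤ (1 - q)⁻¹ := by
    rw [← tsum_geometric_of_lt_one q0.le q1]
    exact (summable_geometric_of_lt_one q0.le q1).sum_le_tsum _ fun i _ => by positivity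
  calc _ ≤ Real.exp (∑ i ∈ range m, -(q ^ i * (1 - q)⁻¹)) := by
        rw [Real.exp_le_exp, sum_neg_distrib, ← sum_mul, neg_le_neg_iff]
        gcongr
    _ ≤ _ := by
        rw [Real.exp_sum]
        refine prod_le_prod (fun i _ => (Real.exp_pos _).le) fun i _ => ?_
        have a : q ^ i ≤ 1 := pow_le_one₀ q0.le q1.le
        have b : 0 < q ^ i := by positivity
        have c := Real.add_one_le_exp (q ^ i * (1 - q)⁻¹)
        have e : 0 < q ^ i * (1 - q)⁻¹ + 1 := by positivity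
        rw [Real.exp_neg]
        refine (inv_anti₀ e c).trans ?_
        rw [inv_le_iff_one_le_mul₀ e, pow_succ]
        field_simp
        nlinarith [mul_nonneg b.le (mul_nonneg q0.le (sub_nonneg.2 a)), mul_pos b d, mul_pos d d]

lemma summ (h0 : 0 < x) (h1 : x < 1) (j : ℕ) : Summable fun k : ℕ => (k + 1 : ℝ) ^ j * x ^ k := by
  have := (summable_nat_add_iff 1).2 (summable_pow_mul_geometric_of_norm_lt_one j
    (r := x) (by rwa [Real.norm_of_nonneg h0.le]))
  refine (this.mul_left x⁻¹).congr fun k => ?_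
  push_cast
  field_simp
  ring

/-- The theta series. -/
noncomputable def th (x : ℝ) : ℝ := ∑' k : ℕ, (-1) ^ k * ((2 * k + 1) * x ^ (k * (k + 1)))

lemma jacobi (h0 : 0 < x) (h1 : x < 1) :
    ∃ L > 0, Tendsto (PP x) atTop (𝓝 L) ∧ th x = L ^ 3 := by
  obtain ⟨δ, δ0, hδ⟩ := PP_low h0 h1
  have lim := tendsto_atTop_ciInf (PP_anti h0 h1) ⟨δ, by rintro _ ⟨m, rfl⟩; exact hδ m⟩
  have L0 := δ0.trans_le (ge_of_tendsto' lim hδ)
  generalize ⨅ m, PP x m = L at *
  refine ⟨L, L0, lim, ?_⟩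
  have t := tendsto_tsum_of_dominated_convergence (𝓕 := atTop)
    (f := fun n k : ℕ => (2 * k + 1) * cc x n k)
    (g := fun k : ℕ => (-1) ^ k * ((2 * k + 1) * x ^ (k * (k + 1))) / L)
    ((summ h0 h1 1).mul_left (2 / δ ^ 2)) (fun k => ?_) (.of_forall fun n k => ?_)
  · have e : ∀ n, ∑' k : ℕ, (2 * k + 1) * cc x n k = PP x n ^ 2 := fun n => by
      rw [tsum_eq_sum (s := range (n + 1)) fun k hk => by
        rw [cc_zero (by simpa using hk), mul_zero], fin_jacobi h0 h1 n _ (by omega)]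
    simp only [e, tsum_div_const] at t
    have := tendsto_nhds_unique t (lim.pow 2)
    rw [div_eq_iff L0.ne'] at this
    exact this.trans (by ring)
  · have a := lim.comp (f := fun n => 2 * n + 1) (tendsto_atTop_mono (fun n => by
      simp only [id]; omega) tendsto_id)
    have b := lim.comp (tendsto_add_atTop_nat (k + 1))
    have c := lim.comp (tendsto_sub_atTop_nat k)
    have := ((((a.const_mul ((-1) ^ k * x ^ (k * (k + 1)))).mul
      (tendsto_const_nhds.div c L0.ne' (a := 1))).div b L0.ne')).const_mul (2 * k + 1 : ℝ)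
    rw [show (2 * k + 1 : ℝ) * ((-1) ^ k * x ^ (k * (k + 1)) * L * (1 / L) / L) =
      (-1) ^ k * ((2 * k + 1) * x ^ (k * (k + 1))) / L by field_simp] at this
    refine this.congr' ?_
    filter_upwards [eventually_ge_atTop k] with n hn
    simp [cc, JJ, hn, add_assoc]
  · have a : PP x (2 * n + 1) ≤ 1 := PP_anti h0 h1 (Nat.zero_le _)
    have a0 := PP_pos h0 h1 (2 * n + 1)
    have b := hδ (n + k + 1)
    have c : 0 ≤ JJ x n k ∧ JJ x n k ≤ 1 / δ := by
      unfold JJ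
      split_ifs
      · exact ⟨(one_div_pos.2 (PP_pos h0 h1 _)).le, one_div_le_one_div_of_le δ0 (hδ _)⟩
      · exact ⟨le_rfl, by positivity⟩
    have e : x ^ (k * (k + 1)) ≤ x ^ k := pow_le_pow_of_le_one h0.le h1.le (by nlinarith)
    have c1 := c.1
    simp only [cc, norm_mul, norm_div, norm_pow, norm_neg, norm_one, one_pow, one_mul]
    rw [Real.norm_of_nonneg (by positivity), Real.norm_of_nonneg h0.le, Real.norm_of_nonneg a0.le,
      Real.norm_of_nonneg c1, Real.norm_of_nonneg (δ0.le.trans b)]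
    calc _ ≤ (2 * (k + 1)) * (x ^ k * 1 * (1 / δ) / δ) := by
          have := c.2
          have := δ0.trans_le b
          gcongr
          linarith
      _ = _ := by field_simp

lemma th_anti : AntitoneOn th (Set.Ioo 0 1) := fun x hx y hy hxy => by
  obtain ⟨L, L0, l1, e1⟩ := jacobi hx.1 hx.2
  obtain ⟨M, M0, l2, e2⟩ := jacobi hy.1 hy.2
  rw [e1, e2]
  refine pow_le_pow_left₀ M0.le (le_of_tendsto_of_tendsto' l2 l1 fun m =>
    prod_le_prod (fun i _ => (fac_pos hy.1 hy.2 i).le) fun i _ => ?_) 3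
  have := hx.1
  gcongr

lemma deriv_sum (h0 : 0 < x) (h1 : x < 1) : ∃ l ≤ 0,
    HasSum (fun k : ℕ => (-1) ^ k * ((2 * k + 1) * k * (k + 1) * x ^ (k * (k + 1)))) l := by
  obtain ⟨r, r1, r2⟩ := exists_between h1
  have r0 := h0.trans r1
  have bd : ∀ (k : ℕ) (y : ℝ), y ∈ Set.Ioo 0 r → ‖(-1 : ℝ) ^ k * ((2 * k + 1) *
      ((k * (k + 1) : ℕ) * y ^ (k * (k + 1) - 1)))‖ ≤ 2 * ((k + 1) ^ 3 * r ^ k) := by
    intro k y hy
    have y0 := hy.1
    rw [norm_mul, norm_pow, norm_neg, norm_one, one_pow, one_mul, Real.norm_of_nonneg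
      (by positivity)]
    rcases Nat.eq_zero_or_pos k with rfl | hk
    · simp
    · have : y ^ (k * (k + 1) - 1) ≤ r ^ k :=
        (pow_le_pow_left₀ y0.le hy.2.le _).trans (pow_le_pow_of_le_one r0.le r2.le
          (Nat.le_sub_one_of_lt (by nlinarith)))
      push_cast
      calc _ ≤ (2 * (k + 1)) * ((k + 1) * (k + 1) * r ^ k) := by gcongr <;> linarith
        _ = _ := by ring
  have su := (summ r0 r2 3).mul_left 2
  have hd := hasDerivAt_tsum_of_isPreconnected su isOpen_Ioo isPreconnected_Ioo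
    (g := fun (k : ℕ) (y : ℝ) => (-1) ^ k * ((2 * k + 1) * y ^ (k * (k + 1))))
    (fun k y _ => ((hasDerivAt_pow _ y).const_mul _).const_mul _) bd ⟨h0, r1⟩
    (.of_norm_bounded ((summ h0 h1 1).mul_left 2) fun k => by
      rw [norm_mul, norm_pow, norm_neg, norm_one, one_pow, one_mul, Real.norm_of_nonneg
        (by positivity), ← mul_assoc, pow_one]
      have e : x ^ (k * (k + 1)) ≤ x ^ k := pow_le_pow_of_le_one h0.le h1.le (by nlinarith)
      gcongr
      linarith) ⟨h0, r1⟩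
  have hn := hd.hasDerivWithinAt.nonpos_of_antitoneOn
    (isOpen_Ioo.preperfect x ⟨h0, h1⟩) th_anti
  refine ⟨_, mul_nonpos_of_nonpos_of_nonneg hn h0.le, ?_⟩
  refine (congrArg (fun f => HasSum f _) (funext fun k => ?_)).mpr
    ((Summable.of_norm_bounded su fun k => bd k x ⟨h0, r1⟩).hasSum.mul_right x)
  rcases Nat.eq_zero_or_pos k with rfl | hk
  · simp
  · obtain ⟨j, hj⟩ : ∃ j, k * (k + 1) = j + 1 := ⟨_, (Nat.succ_pred_eq_of_pos (by positivity)).symm⟩
    have : ((k * (k + 1) : ℕ) : ℝ) = k * (k + 1) := by push_cast; ring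
    rw [this, hj, Nat.add_sub_cancel]
    ring

lemma th_sum (h0 : 0 < x) (h1 : x < 1) : ∃ l > 0,
    HasSum (fun k : ℕ => (-1) ^ k * ((2 * k + 1) * x ^ (k * (k + 1)))) l := by
  obtain ⟨L, L0, -, e⟩ := jacobi h0 h1
  refine ⟨th x, e ▸ pow_pos L0 3, Summable.hasSum (.of_norm_bounded ((summ h0 h1 1).mul_left 2)
    fun k => ?_)⟩
  rw [norm_mul, norm_pow, norm_neg, norm_one, one_pow, one_mul, Real.norm_of_nonneg
    (by positivity), ← mul_assoc, pow_one]
  have e : x ^ (k * (k + 1)) ≤ x ^ k := pow_le_pow_of_le_one h0.le h1.le (by nlinarith)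
  gcongr
  linarith

lemma inc {a : ℕ → ℝ} (m : ℕ) :
    ((∀ k < 2 * m, a k ≤ a (k + 1)) → a 0 ≤ ∑ k ∈ range (2 * m + 1), (-1) ^ k * a k) ∧
    ((∀ k < 2 * m + 1, a k ≤ a (k + 1)) →
      ∑ k ∈ range (2 * m + 1 + 1), (-1) ^ k * a k ≤ a 0 - a 1) := by
  induction m with
  | zero => simp [sum_range_succ, sub_eq_add_neg]
  | succ m ih =>
    have e : (-1 : ℝ) ^ (2 * m) = 1 := by simp
    refine ⟨fun h => ?_, fun h => ?_⟩
    · rw [mul_add, mul_one, sum_range_succ, sum_range_succ]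
      simp only [pow_succ, e]
      linarith [ih.1 fun k hk => h k (by omega), h (2 * m + 1) (by omega)]
    · rw [mul_add, mul_one, sum_range_succ, sum_range_succ]
      simp only [pow_succ, e]
      linarith [ih.2 fun k hk => h k (by omega), h (2 * m + 2) (by omega)]

lemma alt {w : ℕ → ℝ} (hw : ∀ k, 0 < w (k + 1)) (hc : ∀ k, w (k + 2) * w k ≤ w (k + 1) ^ 2)
    (h0 : 0 < x) (h1 : x < 1) {l : ℝ}
    (hl : HasSum (fun k : ℕ => (-1) ^ k * (w k * x ^ (k * (k + 1)))) l) (n : ℕ) :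
    (∀ k < n, w k * x ^ (k * (k + 1)) ≤ w (k + 1) * x ^ ((k + 1) * (k + 1 + 1))) ∨
      0 < (-1) ^ n * (∑ k ∈ range (n + 1), (-1) ^ k * (w k * x ^ (k * (k + 1))) - l) := by
  obtain ⟨a, ha⟩ : ∃ a : ℕ → ℝ, ∀ k, w k * x ^ (k * (k + 1)) = a k := ⟨_, fun _ => rfl⟩
  have H : ∀ k, a (k + 1) < a k → a (k + 1 + 1) < a (k + 1) := fun k h => by
    rw [← ha, ← ha] at *
    rw [show x ^ ((k + 1) * (k + 1 + 1)) = x ^ (2 * (k + 1)) * x ^ (k * (k + 1)) by ring,
      ← mul_assoc, mul_lt_mul_iff_left₀ (by positivity)] at h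
    rw [show x ^ ((k + 1 + 1) * (k + 1 + 1 + 1)) = x ^ 2 * x ^ (2 * (k + 1)) *
      x ^ ((k + 1) * (k + 1 + 1)) by ring, ← mul_assoc, mul_lt_mul_iff_left₀ (by positivity)]
    have q1 : x ^ 2 ≤ 1 := pow_le_one₀ h0.le h1.le
    have y0 : 0 < x ^ (2 * (k + 1)) := by positivity
    have b1 := hw k
    have b2 := hw (k + 1)
    refine lt_of_mul_lt_mul_left (a := w (k + 1)) ?_ b1.le
    have := mul_lt_mul_of_pos_left h b2
    have : w (k + 1) * (w (k + 1 + 1) * (x ^ 2 * x ^ (2 * (k + 1)))) ≤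
      w (k + 1) * (w (k + 1 + 1) * (1 * x ^ (2 * (k + 1)))) := by gcongr
    nlinarith [hc k]
  simp only [ha] at hl ⊢
  by_cases h : ∀ k < n, a k ≤ a (k + 1)
  · exact Or.inl h
  right
  push Not at h
  obtain ⟨k, hk, h⟩ := h
  have H2 : ∀ j, a (k + j + 1) < a (k + j) := fun j => by
    induction j with
    | zero => exact h
    | succ j ih => exact H _ ih
  have H3 : ∀ i, a (i + n + 1) < a (i + n) := fun i => by
    have := H2 (i + n - k)
    rwa [show k + (i + n - k) = i + n by omega] at this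
  have t := (((hasSum_nat_add_iff' n).2 hl).mul_left ((-1) ^ n)).tendsto_sum_nat
  have e : (-1 : ℝ) ^ n * (-1) ^ n = 1 := by rw [← mul_pow]; simp
  have e2 : ∀ i, (-1 : ℝ) ^ n * ((-1) ^ (i + n) * a (i + n)) = (-1) ^ i * a (i + n) := fun i => by
    rw [pow_add]
    linear_combination (-1) ^ i * a (i + n) * e
  simp only [e2] at t
  have := Antitone.tendsto_le_alternating_series t (antitone_nat_of_succ_le fun i => by
    rw [add_right_comm]; exact (H3 i).le) 1
  have h3 := H3 1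
  simp only [sum_range_succ, range_zero, sum_empty] at this ⊢
  rw [show 1 + n + 1 = 2 + n by ring] at h3
  norm_num at this
  have e3 : (-1 : ℝ) ^ n * ((-1) ^ n * a n) = a n := by rw [← mul_assoc, e, one_mul]
  linarith

/-- The polynomial. -/
noncomputable def pn (n : ℕ) : ℝ[X] :=
  ∑ k ∈ range (n + 1), C ((-1) ^ k * (2 * k + 1) : ℝ) * X ^ (k * (k + 1))

lemma eval_pn (n : ℕ) (x : ℝ) :
    (pn n).eval x = ∑ k ∈ range (n + 1), (-1) ^ k * ((2 * k + 1) * x ^ (k * (k + 1))) := by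
  simp only [pn, eval_finsetSum, eval_mul, eval_C, eval_pow, eval_X, mul_assoc]

lemma eval_neg_pn (n : ℕ) (x : ℝ) : (pn n).eval (-x) = (pn n).eval x := by
  simp only [eval_pn, (Nat.even_mul_succ_self _).neg_pow]

lemma eval_dpn (n : ℕ) (x : ℝ) : x * (derivative (pn n)).eval x =
    ∑ k ∈ range (n + 1), (-1) ^ k * ((2 * k + 1) * k * (k + 1) * x ^ (k * (k + 1))) := by
  simp only [pn, derivative_sum, derivative_C_mul_X_pow, eval_finsetSum, eval_mul, eval_C,
    eval_pow, eval_X, mul_sum]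
  refine sum_congr rfl fun k _ => ?_
  rcases Nat.eq_zero_or_pos k with rfl | hk
  · simp
  · obtain ⟨j, hj⟩ : ∃ j, k * (k + 1) = j + 1 := ⟨_, (Nat.succ_pred_eq_of_pos (by positivity)).symm⟩
    have : ((k * (k + 1) : ℕ) : ℝ) = k * (k + 1) := by push_cast; ring
    rw [this, hj, Nat.add_sub_cancel]
    ring

lemma even_pos (m : ℕ) (x : ℝ) : 0 < (pn (2 * m)).eval x := by
  wlog hx : 0 ≤ x
  · rw [← eval_neg_pn]
    exact this m _ (by linarith)
  rcases hx.eq_or_lt with rfl | h0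
  · rw [eval_pn, sum_range_succ', sum_eq_zero fun k _ => by simp]
    simp
  have i := (inc (a := fun k : ℕ => (2 * k + 1) * x ^ (k * (k + 1))) m).1
  rw [eval_pn]
  by_cases h1 : x < 1
  · obtain ⟨l, l0, hl⟩ := th_sum h0 h1
    rcases alt (w := fun k : ℕ => 2 * k + 1) (fun k => by positivity) (fun k => by
      push_cast; nlinarith) h0 h1 hl (2 * m) with h | h
    · exact lt_of_lt_of_le (by simp) (i h)
    · rw [pow_mul, neg_one_sq, one_pow, one_mul] at h
      linarith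
  · refine lt_of_lt_of_le (by simp) (i fun k _ => ?_)
    rw [not_lt] at h1
    push_cast
    gcongr <;> linarith

lemma odd_neg (m : ℕ) {x : ℝ} (h0 : 0 < x) : (derivative (pn (2 * m + 1))).eval x < 0 := by
  refine neg_of_mul_neg_left ?_ h0.le
  have i := (inc (a := fun k : ℕ => (2 * k + 1) * k * (k + 1) * x ^ (k * (k + 1))) m).2
  have p : 0 < x ^ 2 := by positivity
  rw [mul_comm, eval_dpn]
  by_cases h1 : x < 1
  · obtain ⟨l, l0, hl⟩ := deriv_sum h0 h1
    rcases alt (w := fun k : ℕ => (2 * k + 1) * k * (k + 1)) (fun k => by positivity) (fun k => by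
      have : (0 : ℝ) ≤ k := by positivity
      push_cast
      nlinarith [pow_nonneg this 2, pow_nonneg this 3, pow_nonneg this 4]) h0 h1 hl (2 * m + 1)
      with h | h
    · exact (i h).trans_lt (by norm_num; linarith)
    · rw [pow_succ, pow_mul, neg_one_sq, one_pow, one_mul] at h
      linarith
  · refine (i fun k _ => ?_).trans_lt (by norm_num; linarith)
    rw [not_lt] at h1
    push_cast
    gcongr <;> linarith

lemma odd_roots (m : ℕ) : ∃ r > 0, (pn (2 * m + 1)).roots = {r, -r} := by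
  have e0 : (pn (2 * m + 1)).eval 0 = 1 := by
    rw [eval_pn, sum_range_succ', sum_eq_zero fun k _ => by simp]
    simp
  have e1 : (pn (2 * m + 1)).eval 1 ≤ 0 := by
    rw [eval_pn]
    refine ((inc (a := fun k : ℕ => (2 * k + 1) * (1 : ℝ) ^ (k * (k + 1))) m).2
      fun k _ => by simp).trans (by norm_num)
  have p0 : pn (2 * m + 1) ≠ 0 := fun h => by simp [h] at e0
  have sa : StrictAntiOn (fun x => (pn (2 * m + 1)).eval x) (Set.Ici 0) :=
    strictAntiOn_of_deriv_neg (convex_Ici 0) (pn _).continuous.continuousOn fun x hx => by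
      rw [Polynomial.deriv]
      exact odd_neg m (by simpa using hx)
  obtain ⟨r, hr, h⟩ := intermediate_value_Icc' zero_le_one (pn (2 * m + 1)).continuous.continuousOn
    (show (0 : ℝ) ∈ _ from ⟨e1, by simp [e0]⟩)
  simp only at h
  have r0 : 0 < r := hr.1.lt_of_ne fun e => by simp [← e, e0] at h
  refine ⟨r, r0, (Multiset.Nodup.ext (Multiset.nodup_iff_count_le_one.2 fun y => ?_)
    (by simp; linarith)).2 fun y => ?_⟩
  · rw [count_roots]
    by_contra hc
    obtain ⟨a, b⟩ := (one_lt_rootMultiplicity_iff_isRoot p0).1 (not_le.1 hc)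
    rcases lt_trichotomy y 0 with hy | rfl | hy
    · have c := odd_neg m (neg_pos.2 hy)
      have d := eval_dpn (2 * m + 1) (-y)
      simp only [(Nat.even_mul_succ_self _).neg_pow] at d
      rw [← eval_dpn, b.eq_zero] at d
      nlinarith
    · exact absurd (e0 ▸ a.eq_zero) one_ne_zero
    · exact (odd_neg m hy).ne b
  · simp only [mem_roots p0, IsRoot, Multiset.insert_eq_cons, Multiset.mem_cons,
      Multiset.mem_singleton]
    refine ⟨fun hy => ?_, by rintro (rfl | rfl); exacts [h, by rw [eval_neg_pn, h]]⟩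
    rcases le_total 0 y with h0 | h0
    · exact Or.inl (sa.injOn h0 r0.le (hy.trans h.symm))
    · refine Or.inr (neg_eq_iff_eq_neg.1 (sa.injOn (neg_nonneg.2 h0) r0.le ?_))
      simp only [eval_neg_pn, hy, h]

end Pool.Agent.H10.Theta
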