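import Mathlib

set_option autoImplicit false

namespace Pool.Agent.H10.Tv

open Finset Polynomial

def Alt (U : Finset ℝ) (σ : ℝ → Bool) (L : ℕ) : Prop :=
  ∃ e : ℕ → ℝ, (∀ i, i < L → e i ∈ U) ∧ ∀ i, i + 1 < L → e i < e (i + 1) ∧ σ (e i) ≠ σ (e (i + 1))

lemma Alt.cons {U : Finset ℝ} {σ : ℝ → Bool} {L : ℕ} (e : ℕ → ℝ) (h1 : ∀ i, i < L → e i ∈ U)
    (h2 : ∀ i, i + 1 < L → e i < e (i + 1) ∧ σ (e i) ≠ σ (e (i + 1))) (m : ℝ) (hm : m ∈ U)
    (h3 : m < e 0) (h4 : σ m ≠ σ (e 0)) : Alt U σ (L + 1) := by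
  refine ⟨fun i => Nat.casesOn i m e, ?_, ?_⟩
  · intro i hi
    cases i with
    | zero => exact hm
    | succ i => exact h1 i (by omega)
  · intro i hi
    cases i with
    | zero => exact ⟨h3, h4⟩
    | succ i => exact h2 i (by omega)

lemma poly (k : ℕ) : ∀ (U : Finset ℝ) (σ : ℝ → Bool), ¬ Alt U σ (k + 2) →
    ∃ p : ℝ[X], p.natDegree ≤ k ∧ ∀ t ∈ U, (σ t = true → 0 < p.eval t) ∧ (σ t = false → p.eval t < 0) := by
  have const : ∀ (U : Finset ℝ) (σ : ℝ → Bool), (∀ t ∈ U, ∀ t' ∈ U, σ t = σ t') →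
      ∃ p : ℝ[X], p.natDegree ≤ 0 ∧ ∀ t ∈ U, (σ t = true → 0 < p.eval t) ∧ (σ t = false → p.eval t < 0) := by
    intro U σ h
    by_cases h1 : ∃ t ∈ U, σ t = true
    · obtain ⟨t0, ht0, e⟩ := h1
      refine ⟨C 1, by simp, fun t ht => ⟨fun _ => by simp, fun h' => ?_⟩⟩
      rw [h t ht t0 ht0, e] at h'; exact absurd h' (by simp)
    · push Not at h1
      exact ⟨C (-1), by simp, fun t ht => ⟨fun h' => absurd h' (h1 t ht), fun _ => by simp⟩⟩
  induction k with
  | zero =>
    intro U σ h
    apply const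
    intro t ht t' ht'
    by_contra hne
    have hlt : t ≠ t' := fun e => hne (by rw [e])
    rcases lt_or_gt_of_ne hlt with h1 | h1
    · exact h (Alt.cons (L := 1) (fun _ => t') (fun _ _ => ht') (fun i hi => by omega) t ht h1 hne)
    · exact h (Alt.cons (L := 1) (fun _ => t) (fun _ _ => ht) (fun i hi => by omega) t' ht' h1
        (Ne.symm hne))
  | succ k ih =>
    intro U σ h
    by_cases hc : ∀ t ∈ U, ∀ t' ∈ U, σ t = σ t'
    · obtain ⟨p, h1, h2⟩ := const U σ hc
      exact ⟨p, by omega, h2⟩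
    push Not at hc
    obtain ⟨t1, ht1, t2, ht2, hne⟩ := hc
    have hU : U.Nonempty := ⟨t1, ht1⟩
    set m := U.min' hU with hm
    have hmU : m ∈ U := U.min'_mem hU
    have hmle : ∀ t ∈ U, m ≤ t := fun t ht => U.min'_le t ht
    have hW : (U.filter (fun t => σ t ≠ σ m)).Nonempty := by
      by_cases e : σ t1 = σ m
      · exact ⟨t2, mem_filter.2 ⟨ht2, fun e' => hne (e.trans e'.symm)⟩⟩
      · exact ⟨t1, mem_filter.2 ⟨ht1, e⟩⟩
    set c := (U.filter (fun t => σ t ≠ σ m)).min' hW with hcdef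
    have hc := mem_filter.1 (Finset.min'_mem _ hW)
    rw [← hcdef] at hc
    have hcle : ∀ t ∈ U, t < c → σ t = σ m := by
      intro t ht hlt
      by_contra e
      exact absurd (Finset.min'_le _ t (mem_filter.2 ⟨ht, e⟩)) (not_le.2 hlt)
    have hmc : m < c := lt_of_le_of_ne (hmle c hc.1) (fun e => hc.2 (by rw [e]))
    have hW2 : (U.filter (fun t => t < c)).Nonempty := ⟨m, mem_filter.2 ⟨hmU, hmc⟩⟩
    set b := (U.filter (fun t => t < c)).max' hW2 with hb
    have hbc : b < c := (mem_filter.1 (Finset.max'_mem _ hW2)).2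
    have hble : ∀ t ∈ U, t < c → t ≤ b := fun t ht h' => Finset.le_max' _ t (mem_filter.2 ⟨ht, h'⟩)
    let σ' : ℝ → Bool := fun t => if t < c then !(σ t) else σ t
    have hlow : ∀ t ∈ U, t ≤ c → σ' t = !(σ m) := by
      intro t ht hle
      simp only [σ']
      split_ifs with h1
      · rw [hcle t ht h1]
      · have : t = c := le_antisymm hle (not_lt.1 h1)
        rw [this]
        have := hc.2
        revert this; cases σ c <;> cases σ m <;> simp
    have hhigh : ∀ t, c ≤ t → σ' t = σ t := by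
      intro t ht; simp only [σ', if_neg (not_lt.2 ht)]
    have h' : ¬ Alt U σ' (k + 2) := by
      rintro ⟨e, he1, he2⟩
      apply h
      have hmono : ∀ i, i + 1 < k + 2 → e 1 ≤ e (i + 1) := by
        intro i
        induction i with
        | zero => intro _; exact le_rfl
        | succ i ih2 => intro hi; exact (ih2 (by omega)).trans (he2 (i + 1) hi).1.le
      have h1c : c < e 1 := by
        by_contra hle
        have hle := not_lt.1 hle
        have a := he2 0 (by omega)
        exact a.2 ((hlow _ (he1 0 (by omega)) (a.1.le.trans hle)).trans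
          (hlow _ (he1 1 (by omega)) hle).symm)
      by_cases h0 : e 0 ≤ c
      · have A1 : σ c ≠ σ (e 1) := by
          have a := (he2 0 (by omega)).2
          rw [hlow _ (he1 0 (by omega)) h0, hhigh _ h1c.le] at a
          have := hc.2
          revert a this; cases σ c <;> cases σ m <;> cases σ (e 1) <;> simp
        refine Alt.cons (L := k + 2) (fun i => Nat.casesOn i c (fun j => e (j + 1))) ?_ ?_ m hmU hmc
          (Ne.symm hc.2)
        · intro i hi
          cases i with
          | zero => exact hc.1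
          | succ i => exact he1 (i + 1) hi
        · intro i hi
          cases i with
          | zero => exact ⟨h1c, A1⟩
          | succ i =>
            have a := he2 (i + 1) hi
            rw [hhigh _ (h1c.le.trans (hmono i (by omega))),
              hhigh _ (h1c.le.trans (hmono (i + 1) hi))] at a
            exact a
      · have h0 := not_le.1 h0
        have hall : ∀ i, i < k + 2 → c ≤ e i := by
          intro i hi
          cases i with
          | zero => exact h0.le
          | succ i => exact h1c.le.trans (hmono i hi)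
        have he2' : ∀ i, i + 1 < k + 2 → e i < e (i + 1) ∧ σ (e i) ≠ σ (e (i + 1)) := by
          intro i hi
          have a := he2 i hi
          rwa [hhigh _ (hall i (by omega)), hhigh _ (hall _ hi)] at a
        by_cases e0 : σ (e 0) = σ m
        · exact Alt.cons e he1 he2' c hc.1 h0 (by rw [e0]; exact hc.2)
        · exact Alt.cons e he1 he2' m hmU (hmc.trans h0) (Ne.symm e0)
    obtain ⟨p, hp1, hp2⟩ := ih U σ' h'
    refine ⟨(X - C ((b + c) / 2)) * p, ?_, ?_⟩
    · refine natDegree_mul_le.trans ?_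
      rw [natDegree_X_sub_C]; omega
    · intro t ht
      have := hp2 t ht
      simp only [eval_mul, eval_sub, eval_X, eval_C]
      by_cases hlt : t < c
      · have h1 := hble t ht hlt
        have h2 : t - (b + c) / 2 < 0 := by linarith
        simp only [σ', if_pos hlt] at this
        constructor
        · intro e; exact mul_pos_of_neg_of_neg h2 (this.2 (by simp [e]))
        · intro e; exact mul_neg_of_neg_of_pos h2 (this.1 (by simp [e]))
      · have h2 : 0 < t - (b + c) / 2 := by have := not_lt.1 hlt; linarith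
        simp only [σ', if_neg hlt] at this
        exact ⟨fun e => mul_pos h2 (this.1 e), fun e => mul_neg_of_pos_of_neg h2 (this.2 e)⟩

lemma breaks (k : ℕ) (U : Finset ℝ) (σ : ℝ → Bool) (h : ¬ Alt U σ (k + 2)) :
    ∃ B : Finset ℝ, B.card ≤ k ∧ ∀ t ∈ U, ∀ t' ∈ U, t < t' → σ t ≠ σ t' → ∃ b ∈ B, t < b ∧ b < t' := by
  classical
  obtain ⟨p, hp1, hp2⟩ := poly k U σ h
  refine ⟨p.roots.toFinset, (Multiset.toFinset_card_le _).trans ((card_roots' p).trans hp1), ?_⟩
  intro t ht t' ht' hlt hne
  have hc : ContinuousOn (fun x => p.eval x) (Set.Icc t t') := p.continuous.continuousOn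
  have a := hp2 t ht
  have a' := hp2 t' ht'
  have key : ∃ b ∈ Set.Ioo t t', p.eval b = 0 ∧ p.eval t ≠ 0 := by
    cases hs : σ t
    · have hs' : σ t' = true := by revert hne; rw [hs]; cases σ t' <;> simp
      obtain ⟨b, hb, e⟩ := intermediate_value_Ioo hlt.le hc ⟨a.2 hs, a'.1 hs'⟩
      exact ⟨b, hb, e, (a.2 hs).ne⟩
    · have hs' : σ t' = false := by revert hne; rw [hs]; cases σ t' <;> simp
      obtain ⟨b, hb, e⟩ := intermediate_value_Ioo' hlt.le hc ⟨a'.2 hs', a.1 hs⟩
      exact ⟨b, hb, e, (a.1 hs).ne'⟩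
  obtain ⟨b, hb, e, hn⟩ := key
  have hp0 : p ≠ 0 := by rintro rfl; simp at hn
  exact ⟨b, Multiset.mem_toFinset.2 ((mem_roots hp0).2 e), hb.1, hb.2⟩

/-- moment curve -/
def gam (d : ℕ) (t : ℝ) : Fin d → ℝ := fun i => t ^ (i.val + 1)

lemma sep (d : ℕ) (U : Finset ℝ) (σ : ℝ → Bool) (h : ¬ Alt U σ (d + 2)) (x : Fin d → ℝ)
    (h1 : x ∈ convexHull ℝ (gam d '' {t | t ∈ U ∧ σ t = true}))
    (h2 : x ∈ convexHull ℝ (gam d '' {t | t ∈ U ∧ σ t = false})) : False := by
  obtain ⟨p, hp1, hp2⟩ := poly d U σ h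
  let φ : (Fin d → ℝ) → ℝ := fun y => ∑ i : Fin d, p.coeff (i.val + 1) * y i
  have hφ : IsLinearMap ℝ φ := by
    constructor
    · intro y z; simp [φ, mul_add, sum_add_distrib]
    · intro c y; simp only [φ, Pi.smul_apply, smul_eq_mul, mul_sum]
      exact sum_congr rfl fun i _ => by ring
  have hev : ∀ t, p.eval t = φ (gam d t) + p.coeff 0 := by
    intro t
    rw [eval_eq_sum_range' (show p.natDegree < d + 1 by omega), sum_range_succ',
      Finset.sum_range (fun i => p.coeff (i + 1) * t ^ (i + 1))]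
    simp [φ, gam]
  have a1 : x ∈ {y | -p.coeff 0 < φ y} := by
    refine convexHull_min ?_ (convex_halfSpace_gt hφ _) h1
    rintro _ ⟨t, ⟨ht, hs⟩, rfl⟩
    have := (hp2 t ht).1 hs
    rw [hev] at this
    show -p.coeff 0 < φ (gam d t)
    linarith
  have a2 : x ∈ {y | φ y < -p.coeff 0} := by
    refine convexHull_min ?_ (convex_halfSpace_lt hφ _) h2
    rintro _ ⟨t, ⟨ht, hs⟩, rfl⟩
    have := (hp2 t ht).2 hs
    rw [hev] at this
    show φ (gam d t) < -p.coeff 0
    linarith
  exact lt_asymm (show -p.coeff 0 < φ x from a1) a2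

lemma meet (d : ℕ) (U : Finset ℝ) (σ : ℝ → Bool) (h : Alt U σ (d + 2)) :
    ∃ x, x ∈ convexHull ℝ (gam d '' {t | t ∈ U ∧ σ t = true}) ∧
      x ∈ convexHull ℝ (gam d '' {t | t ∈ U ∧ σ t = false}) := by
  classical
  obtain ⟨e, he1, he2⟩ := h
  let f : Fin (d + 2) → ℝ := fun i => e i
  have hf : StrictMono f := by
    apply Fin.strictMono_iff_lt_succ.2
    intro i
    exact (he2 i (by omega)).1
  have hdep : ¬ AffineIndependent ℝ (fun i => gam d (f i)) := by
    intro hi
    have h1 := hi.card_le_finrank_succ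
    have h2 := Submodule.finrank_le (vectorSpan ℝ (Set.range fun i => gam d (f i)))
    simp at h1 h2
    omega
  obtain ⟨I, x, hx1, hx2⟩ := Convex.radon_partition hdep
  let U' : Finset ℝ := univ.image f
  have hcard : U'.card = d + 2 := by simp [U', card_image_of_injective _ hf.injective]
  let τ : ℝ → Bool := fun t => decide (∃ i ∈ I, f i = t)
  have hτ : ∀ i, τ (f i) = true ↔ i ∈ I := by
    intro i
    simp only [τ, decide_eq_true_eq]
    exact ⟨fun ⟨j, hj, e⟩ => hf.injective e ▸ hj, fun hi => ⟨i, hi, rfl⟩⟩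
  have halt : Alt U' τ (d + 2) := by
    by_contra hn
    refine sep d U' τ hn x (convexHull_mono ?_ hx1) (convexHull_mono ?_ hx2)
    · rintro _ ⟨i, hi, rfl⟩
      exact ⟨f i, ⟨by simp [U'], (hτ i).2 hi⟩, rfl⟩
    · rintro _ ⟨i, hi, rfl⟩
      refine ⟨f i, ⟨by simp [U'], ?_⟩, rfl⟩
      have := (hτ i).not.2 hi
      simpa using this
  obtain ⟨e', h1', h2'⟩ := halt
  let f' : Fin (d + 2) → ℝ := fun i => e' i
  have hf' : StrictMono f' := by
    apply Fin.strictMono_iff_lt_succ.2
    intro i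
    exact (h2' i (by omega)).1
  have eq1 := Finset.orderEmbOfFin_unique hcard (f := f) (fun i => by simp [U']) hf
  have eq2 := Finset.orderEmbOfFin_unique hcard (f := f') (fun i => h1' i i.2) hf'
  have eq3 : ∀ i, i < d + 2 → e' i = e i := fun i hi => congrFun (eq2.trans eq1.symm) ⟨i, hi⟩
  have par : ∀ i, i < d + 2 → (τ (e i) = σ (e i) ↔ τ (e 0) = σ (e 0)) := by
    intro i
    induction i with
    | zero => intro _; rfl
    | succ i ih =>
      intro hi
      rw [← ih (by omega)]
      have a := (he2 i hi).2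
      have b := (h2' i hi).2
      rw [eq3 i (by omega), eq3 _ hi] at b
      revert a b
      cases τ (e i) <;> cases σ (e i) <;> cases τ (e (i + 1)) <;> cases σ (e (i + 1)) <;> simp
  by_cases h0 : τ (e 0) = σ (e 0)
  · refine ⟨x, convexHull_mono ?_ hx1, convexHull_mono ?_ hx2⟩
    · rintro _ ⟨i, hi, rfl⟩
      refine ⟨f i, ⟨he1 i i.2, ?_⟩, rfl⟩
      rw [← (par i i.2).2 h0]; exact (hτ i).2 hi
    · rintro _ ⟨i, hi, rfl⟩
      refine ⟨f i, ⟨he1 i i.2, ?_⟩, rfl⟩
      rw [← (par i i.2).2 h0]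
      have := (hτ i).not.2 hi
      simpa using this
  · refine ⟨x, convexHull_mono ?_ hx2, convexHull_mono ?_ hx1⟩
    · rintro _ ⟨i, hi, rfl⟩
      refine ⟨f i, ⟨he1 i i.2, ?_⟩, rfl⟩
      have a := (par i i.2).not.2 h0
      have b := (hτ i).not.2 hi
      change ¬ τ (f i) = σ (f i) at a
      revert a b; cases τ (f i) <;> cases σ (f i) <;> simp
    · rintro _ ⟨i, hi, rfl⟩
      refine ⟨f i, ⟨he1 i i.2, ?_⟩, rfl⟩
      have a := (par i i.2).not.2 h0
      have b := (hτ i).2 hi
      change ¬ τ (f i) = σ (f i) at a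
      revert a b; cases τ (f i) <;> cases σ (f i) <;> simp

lemma genpos (d : ℕ) (T : Finset ℝ) (a : Fin d → ℝ) (b : ℝ) (ha : a ≠ 0) :
    (T.filter (fun t => ∑ i, a i * gam d t i = b)).card ≤ d := by
  classical
  let p : ℝ[X] := ∑ i : Fin d, C (a i) * X ^ (i.val + 1) - C b
  have hp0 : p ≠ 0 := by
    intro h0
    apply ha
    funext j
    have := congrArg (fun q : ℝ[X] => q.coeff (j.val + 1)) h0
    simp only [p, coeff_sub, finsetSum_coeff, coeff_C_mul_X_pow, coeff_C_succ, sub_zero,
      coeff_zero, add_left_inj] at this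
    rw [Finset.sum_eq_single j] at this
    · simpa using this
    · intro i _ hij
      rw [if_neg]
      intro e; exact hij (Fin.ext e.symm)
    · simp
  have hdeg : p.natDegree ≤ d := by
    refine (natDegree_sub_le _ _).trans (max_le ?_ (by simp))
    refine natDegree_sum_le_of_forall_le _ _ fun i _ => ?_
    exact (natDegree_C_mul_X_pow_le _ _).trans (by omega)
  refine le_trans (card_le_card ?_) ((Multiset.toFinset_card_le _).trans ((card_roots' p).trans hdeg))
  intro t ht
  have := (mem_filter.1 ht).2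
  refine Multiset.mem_toFinset.2 ((mem_roots hp0).2 ?_)
  simp only [p, IsRoot, eval_sub, eval_finsetSum, eval_mul, eval_C, eval_pow, eval_X]
  simp only [gam] at this
  rw [this, sub_self]

end Pool.Agent.H10.Tv
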