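import Mathlib

set_option autoImplicit false
set_option linter.unusedSectionVars false

namespace Pool.Agent.H10.Unital

open Set Submodule
open scoped Matroid

section Vec
variable {α W : Type}

/-- the vector matroid of a finite family -/
noncomputable def vecM [Finite α] (F : Type) [Field F] [AddCommGroup W] [Module F W]
    (v : α → W) : Matroid α :=
  (IndepMatroid.ofFinite (E := univ) (toFinite _) (fun I => LinearIndepOn F v I)
    (linearIndepOn_empty _ _)
    (fun I J hJ hIJ => hJ.mono hIJ)
    (fun I J hI hJ hlt => by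
      by_contra hn
      push Not at hn
      have h1 : ∀ e ∈ J, v e ∈ span F (v '' I) := by
        intro e he
        by_cases heI : e ∈ I
        · exact subset_span ⟨e, heI, rfl⟩
        · by_contra h
          exact hn e he heI ((linearIndepOn_insert heI).2 ⟨hI, h⟩)
      have h2 : span F (v '' J) ≤ span F (v '' I) := by
        rw [span_le]
        rintro _ ⟨e, he, rfl⟩
        exact h1 e he
      have : Fintype I := Fintype.ofFinite I
      have : Fintype J := Fintype.ofFinite J
      have h3 := finrank_span_eq_card (R := F) hI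
      have h4 := finrank_span_eq_card (R := F) hJ
      rw [← image_eq_range] at h3 h4
      have : Module.Finite F (span F (v '' I)) := Module.Finite.span_of_finite F (toFinite _)
      have h5 := Submodule.finrank_mono h2
      rw [h3, h4, ← Nat.card_eq_fintype_card, ← Nat.card_eq_fintype_card, Nat.card_coe_set_eq,
        Nat.card_coe_set_eq] at h5
      omega)
    (fun I _ => subset_univ _)).matroid

variable {F : Type} [Field F] [AddCommGroup W] [Module F W] {v : α → W}

theorem vecM_E [Finite α] : (vecM F v).E = univ := rfl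

theorem vecM_indep [Finite α] (I : Set α) : (vecM F v).Indep I ↔ LinearIndepOn F v I := by
  simp [vecM]

end Vec

lemma star_acyclic : (SimpleGraph.fromEdgeSet ({s(0, 1), s(0, 2), s(0, 3)} :
    Set (Sym2 (Fin 4)))).IsAcyclic := by
  rw [SimpleGraph.isAcyclic_iff_forall_adj_isBridge]
  intro v w h
  rw [SimpleGraph.isBridge_iff]
  revert v w
  decide

lemma tri_not (i j k : Fin 4) (h1 : i ≠ j) (h2 : i ≠ k) (h3 : j ≠ k) :
    ¬ (SimpleGraph.fromEdgeSet ({s(j, k), s(i, j), s(i, k)} : Set (Sym2 (Fin 4)))).IsAcyclic := by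
  intro h
  have hc : (SimpleGraph.fromEdgeSet ({s(j, k), s(i, j), s(i, k)} :
      Set (Sym2 (Fin 4)))).IsNClique 3 {i, j, k} := by
    rw [SimpleGraph.is3Clique_triple_iff]
    simp [h1, h2, h3]
  obtain ⟨u, w, hw, -⟩ := SimpleGraph.is3Clique_iff_exists_cycle_length_three.1 ⟨_, hc⟩
  exact h w hw

section Herm
variable {F : Type} [Field F] [StarRing F]

/-- no complete quadrilateral on the Hermitian curve -/
lemma core (y1 z1 y2 z2 y3 z3 a b c d e f : F)
    (h1 : z1 + star z1 + y1 * star y1 = 0) (h2 : z2 + star z2 + y2 * star y2 = 0)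
    (h3 : z3 + star z3 + y3 * star y3 = 0)
    (hab : a + b = 1) (hcd : c + d = 1) (hef : e + f = 1)
    (h12 : (a * z1 + b * z2) + star (a * z1 + b * z2) +
      (a * y1 + b * y2) * star (a * y1 + b * y2) = 0)
    (h13 : (c * z1 + d * z3) + star (c * z1 + d * z3) +
      (c * y1 + d * y3) * star (c * y1 + d * y3) = 0)
    (h23 : (e * z2 + f * z3) + star (e * z2 + f * z3) +
      (e * y2 + f * y3) * star (e * y2 + f * y3) = 0)
    (ht : a * d * e + b * c * f = 0) (ha : a ≠ 0) (hd : d ≠ 0) (he : e ≠ 0) :
    (y2 - y1) * (z3 - z1) - (y3 - y1) * (z2 - z1) = 0 := by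
  have sab : star a + star b = 1 := by rw [← star_add, hab, star_one]
  have scd : star c + star d = 1 := by rw [← star_add, hcd, star_one]
  have sef : star e + star f = 1 := by rw [← star_add, hef, star_one]
  have st : star a * star d * star e + star b * star c * star f = 0 := by
    have := congrArg star ht
    simp only [star_add, star_mul', star_zero] at this
    exact this
  simp only [star_add, star_mul'] at h12 h13 h23
  have hs : star ((y2 - y1) * (z3 - z1) - (y3 - y1) * (z2 - z1)) =
      (star y2 - star y1) * (star z3 - star z1) - (star y3 - star y1) * (star z2 - star z1) := by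
    simp only [star_sub, star_mul']
  have hsa : star a ≠ 0 := star_ne_zero.2 ha
  have hsd : star d ≠ 0 := star_ne_zero.2 hd
  have hse : star e ≠ 0 := star_ne_zero.2 he
  generalize star a = a' at *
  generalize star b = b' at *
  generalize star c = c' at *
  generalize star d = d' at *
  generalize star e = e' at *
  generalize star f = f' at *
  generalize star y1 = Y1 at *
  generalize star y2 = Y2 at *
  generalize star y3 = Y3 at *
  generalize star z1 = Z1 at *
  generalize star z2 = Z2 at *
  generalize star z3 = Z3 at *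
  have g12 : a * b' * (z1 + Z2 + y1 * Y2) + b * a' * (z2 + Z1 + y2 * Y1) = 0 := by
    linear_combination h12 - a * a' * h1 - b * b' * h2 + (a * z1 + b * z2) * sab +
      (a' * Z1 + b' * Z2) * hab
  have g13 : c * d' * (z1 + Z3 + y1 * Y3) + d * c' * (z3 + Z1 + y3 * Y1) = 0 := by
    linear_combination h13 - c * c' * h1 - d * d' * h3 + (c * z1 + d * z3) * scd +
      (c' * Z1 + d' * Z3) * hcd
  have g23 : e * f' * (z2 + Z3 + y2 * Y3) + f * e' * (z3 + Z2 + y3 * Y2) = 0 := by
    linear_combination h23 - e * e' * h2 - f * f' * h3 + (e * z2 + f * z3) * sef +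
      (e' * Z2 + f' * Z3) * hef
  have key : ∀ h12 h21 h13 h31 h23 h32 : F, a * b' * h12 + b * a' * h21 = 0 →
      c * d' * h13 + d * c' * h31 = 0 → e * f' * h23 + f * e' * h32 = 0 →
      h12 * h23 * h31 + h13 * h21 * h32 = 0 := by
    intro h12 h21 h13 h31 h23 h32 k1 k2 k3
    have : (a * d * e) * (a' * d' * e') * (h12 * h23 * h31 + h13 * h21 * h32) = 0 := by
      have e1 : a * b' * h12 = - (b * a' * h21) := by linear_combination k1
      have e2 : d * c' * h31 = - (c * d' * h13) := by linear_combination k2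
      have e3 : e * f' * h23 = - (f * e' * h32) := by linear_combination k3
      have e4 : (a * b' * h12) * (e * f' * h23) * (d * c' * h31) =
          - ((b * a' * h21) * (f * e' * h32) * (c * d' * h13)) := by
        rw [e1, e2, e3]; ring
      linear_combination (-1 : F) * e4 + (a * d * e * (h12 * h23 * h31)) * st +
        (a' * d' * e' * (h13 * h21 * h32)) * ht
    rcases mul_eq_zero.1 this with h | h
    · exact absurd h (by simp [ha, hd, he, hsa, hsd, hse])
    · exact h
  have k := key _ _ _ _ _ _ g12 g13 g23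
  have hz1 : Z1 = - z1 - y1 * Y1 := by linear_combination h1
  have hz2 : Z2 = - z2 - y2 * Y2 := by linear_combination h2
  have hz3 : Z3 = - z3 - y3 * Y3 := by linear_combination h3
  have : ((y2 - y1) * (z3 - z1) - (y3 - y1) * (z2 - z1)) *
      star ((y2 - y1) * (z3 - z1) - (y3 - y1) * (z2 - z1)) = 0 := by
    rw [hs]
    subst hz1 hz2 hz3
    linear_combination (-1 : F) * k
  rcases mul_eq_zero.1 this with h | h
  · exact h
  · exact star_eq_zero.1 h

end Herm

section Main
variable {F : Type} [Field F] [StarRing F] {α : Type} [Finite α] (y z : α → F)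

/-- the point of the curve attached to an index -/
def pt (x : α) : Fin 3 → F := ![1, y x, z x]

lemma pt_pair (hinj : ∀ a b, y a = y b → z a = z b → a = b) (a b : α) :
    LinearIndepOn F (pt y z) {a, b} := by
  have h0 : ∀ x, pt y z x ≠ 0 := fun x h => by
    have := congrFun h 0
    simp [pt] at this
  by_cases hab : a = b
  · subst hab
    simpa using h0 a
  · rw [linearIndepOn_insert (by simpa using hab)]
    refine ⟨by simpa using h0 b, ?_⟩
    rw [image_singleton, mem_span_singleton]
    rintro ⟨c, hc⟩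
    have h1 := congrFun hc 0
    have h2 := congrFun hc 1
    have h3 := congrFun hc 2
    simp [pt] at h1 h2 h3
    subst h1
    exact hab (hinj a b (by simpa using h2.symm) (by simpa using h3.symm))

lemma pt_dep (hinj : ∀ a b, y a = y b → z a = z b → a = b) {a b c : α} (hca : c ≠ a)
    (hcb : c ≠ b) (h : ¬ LinearIndepOn F (pt y z) {c, a, b}) :
    ∃ s t : F, s + t = 1 ∧ s ≠ 0 ∧ t ≠ 0 ∧ y c = s * y a + t * y b ∧ z c = s * z a + t * z b := by
  rw [linearIndepOn_insert (by simp [hca, hcb])] at h
  have h' : pt y z c ∈ span F (pt y z '' {a, b}) := by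
    by_contra h'
    exact h ⟨pt_pair y z hinj a b, h'⟩
  rw [image_pair, mem_span_pair] at h'
  obtain ⟨s, t, hc⟩ := h'
  have h1 := congrFun hc 0
  have h2 := congrFun hc 1
  have h3 := congrFun hc 2
  simp [pt] at h1 h2 h3
  refine ⟨s, t, h1, ?_, ?_, h2.symm, h3.symm⟩
  · rintro rfl
    obtain rfl : t = 1 := by simpa using h1
    exact hcb (hinj _ _ (by simpa using h2.symm) (by simpa using h3.symm))
  · rintro rfl
    obtain rfl : s = 1 := by simpa using h1
    exact hca (hinj _ _ (by simpa using h2.symm) (by simpa using h3.symm))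

lemma pt_ind {a b c : α} (hab : a ≠ b) (hac : a ≠ c) (hbc : b ≠ c)
    (h : LinearIndepOn F (pt y z) {a, b, c}) (r s t : F) (h0 : r + s + t = 0)
    (h1 : r * y a + s * y b + t * y c = 0) (h2 : r * z a + s * z b + t * z c = 0) :
    r = 0 ∧ s = 0 ∧ t = 0 := by
  have hl : LinearIndependent F (fun i : Fin 3 => pt y z (![a, b, c] i)) :=
    LinearIndependent.comp h (fun i : Fin 3 => ⟨![a, b, c] i, by fin_cases i <;> simp⟩) (by
      intro i j hij
      have := congrArg Subtype.val hij
      fin_cases i <;> fin_cases j <;>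
        first
        | rfl
        | exact absurd this hab
        | exact absurd this hac
        | exact absurd this hbc
        | exact absurd this hab.symm
        | exact absurd this hac.symm
        | exact absurd this hbc.symm)
  rw [Fintype.linearIndependent_iff] at hl
  have := hl ![r, s, t] (by
    ext i
    fin_cases i <;> simp [Fin.sum_univ_three, pt, h0, h1, h2])
  exact ⟨this 0, this 1, this 2⟩

lemma card_le {I : Set α} (h : LinearIndepOn F (pt y z) I) : I.ncard ≤ 3 := by
  have : Fintype I := Fintype.ofFinite I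
  have := LinearIndependent.fintype_card_le_finrank h
  rw [← Nat.card_eq_fintype_card, Nat.card_coe_set_eq] at this
  simpa using this

theorem no_minor (hinj : ∀ a b, y a = y b → z a = z b → a = b)
    (hc : ∀ a, z a + star (z a) + y a * star (y a) = 0) :
    ¬ ∃ N : Matroid α, Matroid.IsMinor N (vecM F (pt y z)) ∧
      ∃ φ : α → Sym2 (Fin 4), Set.BijOn φ N.E {s | ¬ s.IsDiag} ∧
        ∀ I ⊆ N.E, N.Indep I ↔ (SimpleGraph.fromEdgeSet (φ '' I)).IsAcyclic := by
  rintro ⟨N, ⟨C, D, rfl⟩, φ, hφ, hI⟩
  set M := vecM F (pt y z) with hM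
  obtain ⟨J, hJ⟩ := M.exists_isBasis' C
  obtain ⟨a1, e1, f1⟩ := hφ.surjOn (a := s(0, 1)) (by simp)
  obtain ⟨a2, e2, f2⟩ := hφ.surjOn (a := s(0, 2)) (by simp)
  obtain ⟨a3, e3, f3⟩ := hφ.surjOn (a := s(0, 3)) (by simp)
  obtain ⟨a12, e12, f12⟩ := hφ.surjOn (a := s(1, 2)) (by simp)
  obtain ⟨a13, e13, f13⟩ := hφ.surjOn (a := s(1, 3)) (by simp)
  obtain ⟨a23, e23, f23⟩ := hφ.surjOn (a := s(2, 3)) (by simp)
  have ne : ∀ {a b : α} {s t : Sym2 (Fin 4)}, φ a = s → φ b = t → s ≠ t → a ≠ b := by
    rintro a b s t rfl rfl h rfl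
    exact h rfl
  have n12 : a1 ≠ a2 := ne f1 f2 (by decide)
  have n13 : a1 ≠ a3 := ne f1 f3 (by decide)
  have n23 : a2 ≠ a3 := ne f2 f3 (by decide)
  have hstar : (M ／ C ＼ D).Indep {a1, a2, a3} := by
    rw [hI _ (by rintro x (rfl | rfl | rfl) <;> assumption)]
    simp only [image_insert_eq, image_singleton, f1, f2, f3]
    exact star_acyclic
  rw [Matroid.delete_indep_iff, hJ.contract_indep_iff] at hstar
  obtain ⟨⟨hs1, hs2⟩, -⟩ := hstar
  have hJ0 : J = ∅ := by
    have h1 := card_le y z ((vecM_indep _).1 hs1)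
    rw [ncard_union_eq (hs2.symm.mono_right hJ.subset), ncard_eq_three.2 ⟨a1, a2, a3, n12, n13,
      n23, rfl⟩] at h1
    exact (ncard_eq_zero (toFinite _)).1 (by omega)
  subst hJ0
  rw [union_empty] at hs1
  have hs := (vecM_indep _).1 hs1
  have dep : ∀ {a b c : α} {i j k : Fin 4}, a ∈ (M ／ C ＼ D).E → b ∈ (M ／ C ＼ D).E →
      c ∈ (M ／ C ＼ D).E → φ a = s(i, j) → φ b = s(i, k) → φ c = s(j, k) → i ≠ j → i ≠ k →
      j ≠ k → ¬ LinearIndepOn F (pt y z) {c, a, b} := by
    intro a b c i j k ha hb hc' fa fb fc h1 h2 h3 h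
    have hsub : {c, a, b} ⊆ (M ／ C ＼ D).E := by
      rintro x (rfl | rfl | rfl) <;> assumption
    have : (M ／ C ＼ D).Indep {c, a, b} := by
      rw [Matroid.delete_indep_iff, hJ.contract_indep_iff, union_empty]
      refine ⟨⟨(vecM_indep _).2 h, ?_⟩, ?_⟩
      · exact disjoint_right.2 fun x hx => (hsub hx).1.2
      · exact disjoint_left.2 fun x hx => (hsub hx).2
    rw [hI _ hsub] at this
    simp only [image_insert_eq, image_singleton, fa, fb, fc] at this
    exact tri_not i j k h1 h2 h3 this
  obtain ⟨a, b, hab, ha, hb, y12, z12⟩ := pt_dep y z hinj (ne f12 f1 (by decide))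
    (ne f12 f2 (by decide)) (dep e1 e2 e12 f1 f2 f12 (by decide) (by decide) (by decide))
  obtain ⟨c, d, hcd, hc', hd, y13, z13⟩ := pt_dep y z hinj (ne f13 f1 (by decide))
    (ne f13 f3 (by decide)) (dep e1 e3 e13 f1 f3 f13 (by decide) (by decide) (by decide))
  obtain ⟨e, f, hef, he, hf, y23, z23⟩ := pt_dep y z hinj (ne f23 f2 (by decide))
    (ne f23 f3 (by decide)) (dep e2 e3 e23 f2 f3 f23 (by decide) (by decide) (by decide))
  obtain ⟨m, n, hmn, -, -, ym, zm⟩ := pt_dep y z hinj (ne f23 f12 (by decide))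
    (ne f23 f13 (by decide)) (dep e12 e13 e23 f12 f13 f23 (by decide) (by decide) (by decide))
  obtain ⟨k1, k2, k3⟩ := pt_ind y z n12 n13 n23 hs (m * a + n * c) (m * b - e) (n * d - f)
    (by linear_combination m * hab + n * hcd + hmn - hef)
    (by rw [y23, y12, y13] at ym; linear_combination -ym)
    (by rw [z23, z12, z13] at zm; linear_combination -zm)
  have hdet := core (y a1) (z a1) (y a2) (z a2) (y a3) (z a3) a b c d e f (hc _) (hc _) (hc _)
    hab hcd hef (by rw [← y12, ← z12]; exact hc _) (by rw [← y13, ← z13]; exact hc _)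
    (by rw [← y23, ← z23]; exact hc _)
    (by linear_combination (b * d) * k1 - (a * d) * k2 - (b * c) * k3) ha hd he
  obtain ⟨l1, l2, l3⟩ := pt_ind y z n12 n13 n23 hs (y a2 - y a3) (y a3 - y a1) (y a1 - y a2)
    (by ring) (by ring) (by linear_combination (-1 : F) * hdet)
  obtain ⟨-, -, l4⟩ := pt_ind y z n12 n13 n23 hs (z a2 - z a3) (z a3 - z a1) (z a1 - z a2)
    (by ring) (by linear_combination hdet) (by ring)
  exact n12 (hinj _ _ (sub_eq_zero.1 l3) (sub_eq_zero.1 l4))

end Main

end Pool.Agent.H10.Unital
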