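import Mathlib

set_option autoImplicit false

namespace Pool.Agent.H10.VWC

open Finset

section corona
variable {W : Type} (G : SimpleGraph W)

def corAdj : W ⊕ W → W ⊕ W → Prop
  | .inl u, .inl v => G.Adj u v
  | .inl u, .inr v => u = v
  | .inr u, .inl v => u = v
  | .inr _, .inr _ => False

def corona : SimpleGraph (W ⊕ W) where
  Adj := corAdj G
  symm := ⟨by
    rintro (u | u) (v | v) h
    · exact G.adj_symm h
    · exact Eq.symm h
    · exact Eq.symm h
    · exact h⟩
  loopless := ⟨by
    rintro (u | u) h
    · exact G.irrefl h
    · exact h⟩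

theorem corona_noiso (v : W ⊕ W) : ∃ w, (corona G).Adj v w := by
  rcases v with v | v
  · exact ⟨.inr v, rfl⟩
  · exact ⟨.inl v, rfl⟩

theorem indep_iff {X : Type} (H : SimpleGraph X) (s : Set X) :
    H.IsIndepSet s ↔ ∀ a ∈ s, ∀ b ∈ s, ¬ H.Adj a b := by
  constructor
  · intro h a ha b hb hab
    exact h ha hb hab.ne hab
  · intro h a ha b hb _
    exact h a ha b hb

theorem corona_indep (s : Finset (W ⊕ W)) :
    (corona G).IsIndepSet (s : Set (W ⊕ W)) ↔
      G.IsIndepSet (s.toLeft : Set W) ∧ Disjoint s.toLeft s.toRight := by
  rw [indep_iff, indep_iff, Finset.disjoint_left]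
  constructor
  · intro h
    refine ⟨fun a ha b hb hab => h (.inl a) (by simpa using ha) (.inl b) (by simpa using hb) hab,
      fun a ha hb => h (.inl a) (by simpa using ha) (.inr a) (by simpa using hb) rfl⟩
  · rintro ⟨h1, h2⟩ (a | a) ha (b | b) hb hab
    · exact h1 a (by simpa using ha) b (by simpa using hb) hab
    · have : a = b := hab
      subst this
      exact h2 (by simpa using ha) (by simpa using hb)
    · have : a = b := hab
      subst this
      exact h2 (by simpa using hb) (by simpa using ha)
    · exact hab

theorem corona_max [Fintype W] (s : Finset (W ⊕ W))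
    (h : (corona G).IsIndepSet (s : Set (W ⊕ W)))
    (hm : ∀ v, v ∉ s → ¬ (corona G).IsIndepSet (insert v (s : Set (W ⊕ W)))) :
    s.card = Fintype.card W := by
  classical
  have h2 := ((corona_indep G s).1 h).2
  have h3 : s.toLeft ∪ s.toRight = univ := by
    rw [eq_univ_iff_forall]
    intro a
    by_contra hc
    simp only [mem_union, mem_toLeft, mem_toRight, not_or] at hc
    refine hm (.inr a) hc.2 ?_
    rw [indep_iff] at h ⊢
    intro x hx y hy hxy
    rcases hx with rfl | hx
    · rcases hy with rfl | hy
      · exact hxy
      · rcases y with y | y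
        · have : a = y := hxy
          subst this
          exact hc.1 hy
        · exact hxy
    · rcases hy with rfl | hy
      · rcases x with x | x
        · have : x = a := hxy
          subst this
          exact hc.1 hx
        · exact hxy
      · exact h x hx y hy hxy
  rw [← card_toLeft_add_card_toRight, ← card_union_of_disjoint h2, h3, card_univ]

open Classical in
theorem corona_count [Fintype W] (k : ℕ) :
    {s : Finset (W ⊕ W) | (corona G).IsIndepSet (s : Set (W ⊕ W)) ∧ s.card = k}.ncard =
      ∑ j ∈ range (k + 1), (univ.filter fun I : Finset W => G.IsIndepSet (I : Set W) ∧ I.card = j).card *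
        (Fintype.card W - j).choose (k - j) := by
  have h1 : {s : Finset (W ⊕ W) | (corona G).IsIndepSet (s : Set (W ⊕ W)) ∧ s.card = k} =
      ↑(univ.filter fun s : Finset (W ⊕ W) =>
        (corona G).IsIndepSet (s : Set (W ⊕ W)) ∧ s.card = k) := by
    ext s; simp
  rw [h1, Set.ncard_coe_finset]
  have h2 : (univ.filter fun s : Finset (W ⊕ W) =>
        (corona G).IsIndepSet (s : Set (W ⊕ W)) ∧ s.card = k).card =
      ((range (k + 1)).sigma fun j =>
        (univ.filter fun I : Finset W => G.IsIndepSet (I : Set W) ∧ I.card = j).sigma
          fun I => (univ \ I).powersetCard (k - j)).card := by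
    refine card_bij' (fun s _ => ⟨s.toLeft.card, s.toLeft, s.toRight⟩)
      (fun p _ => p.2.1.disjSum p.2.2) ?_ ?_ ?_ ?_
    · intro s hs
      simp only [mem_filter, mem_univ, true_and, corona_indep] at hs
      have := card_toLeft_add_card_toRight (u := s)
      simp only [mem_sigma, mem_range, mem_filter, mem_univ, true_and, mem_powersetCard]
      refine ⟨by omega, ⟨hs.1.1, trivial⟩, ?_, by omega⟩
      intro a ha
      simp only [mem_sdiff, mem_univ, true_and]
      exact fun hb => Finset.disjoint_left.1 hs.1.2 hb ha
    · rintro ⟨j, I, J⟩ hp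
      simp only [mem_sigma, mem_range, mem_filter, mem_univ, true_and, mem_powersetCard] at hp
      simp only [mem_filter, mem_univ, true_and, corona_indep, toLeft_disjSum, toRight_disjSum,
        card_disjSum]
      refine ⟨⟨hp.2.1.1, ?_⟩, by omega⟩
      rw [Finset.disjoint_left]
      intro a ha hb
      have := hp.2.2.1 hb
      simp only [mem_sdiff] at this
      exact this.2 ha
    · intro s _
      exact toLeft_disjSum_toRight
    · rintro ⟨j, I, J⟩ hp
      simp only [mem_sigma, mem_range, mem_filter, mem_univ, true_and, mem_powersetCard] at hp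
      simp [hp.2.1.2]
  rw [h2, card_sigma]
  refine sum_congr rfl fun j _ => ?_
  rw [card_sigma, ← smul_eq_mul, ← sum_const]
  refine sum_congr rfl fun I hI => ?_
  simp only [mem_filter] at hI
  rw [card_powersetCard, card_univ_sdiff, hI.2.2]

end corona

section base
variable (A B T : Type)

def baseAdj : A ⊕ (B × T) → A ⊕ (B × T) → Prop
  | .inl _, .inl _ => False
  | .inl _, .inr _ => True
  | .inr _, .inl _ => True
  | .inr p, .inr q => p.1 = q.1 ∧ p.2 ≠ q.2

def base : SimpleGraph (A ⊕ (B × T)) where
  Adj := baseAdj A B T
  symm := ⟨by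
    rintro (u | u) (v | v) h
    · exact h
    · trivial
    · trivial
    · exact ⟨h.1.symm, h.2.symm⟩⟩
  loopless := ⟨by
    rintro (u | u) h
    · exact h
    · exact h.2 rfl⟩

def Tr (J : Finset (B × T)) : Prop := ∀ p ∈ J, ∀ q ∈ J, p.1 = q.1 → p.2 = q.2

open Classical in
theorem tr_count [Fintype B] [Fintype T] (j : ℕ) :
    (univ.filter fun J : Finset (B × T) => Tr B T J ∧ J.card = j).card =
      (Fintype.card B).choose j * Fintype.card T ^ j := by
  have h1 : (univ.filter fun J : Finset (B × T) => Tr B T J ∧ J.card = j).card =
      ((univ.powersetCard j).sigma fun S : Finset B =>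
        Fintype.piFinset fun b => if b ∈ S then (univ.map ⟨some, Option.some_injective T⟩)
          else ({none} : Finset (Option T))).card := by
    symm
    have key : ∀ (S : Finset B) (g : B → Option T),
        (∀ b, g b ∈ if b ∈ S then (univ.map ⟨some, Option.some_injective T⟩)
          else ({none} : Finset (Option T))) →
        (univ.filter fun p : B × T => g p.1 = some p.2).image Prod.fst = S := by
      intro S g hg
      ext b
      simp only [mem_image, mem_filter, mem_univ, true_and]
      have := hg b
      constructor
      · rintro ⟨p, hp, rfl⟩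
        by_contra hc
        rw [if_neg hc, hp] at this
        simp at this
      · intro hb
        rw [if_pos hb] at this
        simp only [mem_map, mem_univ, Function.Embedding.coeFn_mk, true_and] at this
        obtain ⟨x, hx⟩ := this
        exact ⟨(b, x), hx.symm, rfl⟩
    refine card_bij (fun p _ => univ.filter fun q : B × T => p.2 q.1 = some q.2) ?_ ?_ ?_
    · rintro ⟨S, g⟩ hp
      simp only [mem_sigma, mem_powersetCard, Fintype.mem_piFinset] at hp
      have htr : Tr B T (univ.filter fun q : B × T => g q.1 = some q.2) := by
        intro p hp q hq hpq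
        simp only [mem_filter, mem_univ, true_and] at hp hq
        rw [hpq, hq] at hp
        exact (Option.some_injective _ hp).symm
      simp only [mem_filter, mem_univ, true_and]
      refine ⟨htr, ?_⟩
      rw [← hp.1.2, ← key S g hp.2, card_image_of_injOn]
      intro p hp q hq hpq
      exact Prod.ext hpq (htr p hp q hq hpq)
    · rintro ⟨S, g⟩ hp ⟨S', g'⟩ hp' h
      simp only [mem_sigma, mem_powersetCard, Fintype.mem_piFinset] at hp hp'
      have hS : S = S' := by rw [← key S g hp.2, ← key S' g' hp'.2]; simp only at h; rw [h]
      have hg : g = g' := by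
        funext b
        ext x
        have := Finset.ext_iff.1 h (b, x)
        simpa using this
      subst hS hg
      rfl
    · intro J hJ
      simp only [mem_filter, mem_univ, true_and] at hJ
      refine ⟨⟨J.image Prod.fst, fun b => if h : ∃ x, (b, x) ∈ J then some h.choose else none⟩,
        ?_, ?_⟩
      · simp only [mem_sigma, mem_powersetCard, Fintype.mem_piFinset]
        refine ⟨⟨subset_univ _, ?_⟩, fun b => ?_⟩
        · rw [card_image_of_injOn, hJ.2]
          intro p hp q hq hpq
          exact Prod.ext hpq (hJ.1 p hp q hq hpq)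
        · by_cases h : ∃ x, (b, x) ∈ J
          · have : b ∈ J.image Prod.fst := by
              obtain ⟨x, hx⟩ := h
              exact mem_image.2 ⟨_, hx, rfl⟩
            rw [if_pos this, dif_pos h]
            simp
          · have : b ∉ J.image Prod.fst := by
              intro hb
              obtain ⟨p, hp, rfl⟩ := mem_image.1 hb
              exact h ⟨p.2, hp⟩
            rw [if_neg this, dif_neg h]
            simp
      · ext ⟨b, x⟩
        simp only [mem_filter, mem_univ, true_and]
        constructor
        · intro h
          by_cases h' : ∃ x, (b, x) ∈ J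
          · rw [dif_pos h'] at h
            rw [← Option.some_injective _ h]
            exact h'.choose_spec
          · rw [dif_neg h'] at h
            cases h
        · intro h
          have h' : ∃ x, (b, x) ∈ J := ⟨x, h⟩
          rw [dif_pos h']
          congr 1
          exact hJ.1 _ h'.choose_spec _ h rfl
  rw [h1, card_sigma]
  have h2 : ∀ S ∈ (univ.powersetCard j : Finset (Finset B)),
      (Fintype.piFinset fun b => if b ∈ S then (univ.map ⟨some, Option.some_injective T⟩)
          else ({none} : Finset (Option T))).card = Fintype.card T ^ j := by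
    intro S hS
    rw [Fintype.card_piFinset]
    simp only [apply_ite card, card_map, card_univ, card_singleton]
    rw [prod_ite_mem, univ_inter, prod_const, (mem_powersetCard.1 hS).2]
  rw [sum_congr rfl h2, sum_const, card_powersetCard, card_univ, smul_eq_mul]

theorem base_indep (s : Finset (A ⊕ (B × T))) :
    (base A B T).IsIndepSet (s : Set (A ⊕ (B × T))) ↔
      s.toRight = ∅ ∨ (s.toLeft = ∅ ∧ Tr B T s.toRight) := by
  rw [indep_iff]
  constructor
  · intro h
    by_cases h1 : s.toRight = ∅
    · exact Or.inl h1
    · right
      obtain ⟨q, hq⟩ := nonempty_iff_ne_empty.2 h1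
      refine ⟨eq_empty_of_forall_notMem fun a ha => ?_, ?_⟩
      · exact h (.inl a) (by simpa using ha) (.inr q) (by simpa using hq) trivial
      · intro p hp r hr hpr
        by_contra hc
        exact h (.inr p) (by simpa using hp) (.inr r) (by simpa using hr) ⟨hpr, hc⟩
  · rintro (h | ⟨h1, h2⟩) (a | a) ha (b | b) hb hab
    · exact hab
    · have : b ∈ s.toRight := by simpa using hb
      simp [h] at this
    · have : a ∈ s.toRight := by simpa using ha
      simp [h] at this
    · have : a ∈ s.toRight := by simpa using ha
      simp [h] at this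
    · exact hab
    · have : a ∈ s.toLeft := by simpa using ha
      simp [h1] at this
    · have : b ∈ s.toLeft := by simpa using hb
      simp [h1] at this
    · exact hab.2 (h2 a (by simpa using ha) b (by simpa using hb) hab.1)

open Classical in
theorem base_count [Fintype A] [Fintype B] [Fintype T] (j : ℕ) :
    (univ.filter fun I : Finset (A ⊕ (B × T)) =>
      (base A B T).IsIndepSet (I : Set (A ⊕ (B × T))) ∧ I.card = j).card =
      (Fintype.card A).choose j + (Fintype.card B).choose j * Fintype.card T ^ j -
        (if j = 0 then 1 else 0) := by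
  by_cases hj : j = 0
  · subst hj
    have : (univ.filter fun I : Finset (A ⊕ (B × T)) =>
      (base A B T).IsIndepSet (I : Set (A ⊕ (B × T))) ∧ I.card = 0) = {∅} := by
      ext I
      simp only [mem_filter, mem_univ, true_and, card_eq_zero, mem_singleton]
      constructor
      · exact fun h => h.2
      · rintro rfl
        simp
    rw [this]
    simp
  rw [if_neg hj, Nat.sub_zero, ← tr_count B T j]
  have h1 : (univ.filter fun I : Finset (A ⊕ (B × T)) =>
      (base A B T).IsIndepSet (I : Set (A ⊕ (B × T))) ∧ I.card = j) =
      ((univ.powersetCard j : Finset (Finset A)).image fun I => I.disjSum ∅) ∪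
      ((univ.filter fun J : Finset (B × T) => Tr B T J ∧ J.card = j).image
        fun J => (∅ : Finset A).disjSum J) := by
    ext s
    simp only [mem_filter, mem_univ, true_and, base_indep, mem_union, mem_image, mem_powersetCard,
      subset_univ]
    have hc := card_toLeft_add_card_toRight (u := s)
    constructor
    · rintro ⟨h | ⟨h1, h2⟩, hk⟩
      · left
        refine ⟨s.toLeft, ?_, ?_⟩
        · rw [h] at hc; simp at hc; omega
        · rw [← h]; exact toLeft_disjSum_toRight
      · right
        refine ⟨s.toRight, ⟨h2, ?_⟩, ?_⟩
        · rw [h1] at hc; simp at hc; omega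
        · rw [← h1]; exact toLeft_disjSum_toRight
    · rintro (⟨I, hI, rfl⟩ | ⟨J, hJ, rfl⟩)
      · refine ⟨Or.inl toRight_disjSum, ?_⟩
        rw [card_disjSum, hI, card_empty, Nat.add_zero]
      · refine ⟨Or.inr ⟨toLeft_disjSum, ?_⟩, ?_⟩
        · rw [toRight_disjSum]; exact hJ.1
        · rw [card_disjSum, hJ.2, card_empty, Nat.zero_add]
  rw [h1, card_union_of_disjoint, card_image_of_injective, card_image_of_injective,
    card_powersetCard, card_univ]
  · intro J J' h
    have := congrArg toRight h
    simpa only [toRight_disjSum] using this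
  · intro J J' h
    have := congrArg toLeft h
    simpa only [toLeft_disjSum] using this
  · rw [Finset.disjoint_left]
    intro s hs hs'
    obtain ⟨I, hI, rfl⟩ := mem_image.1 hs
    obtain ⟨J, hJ, h⟩ := mem_image.1 hs'
    have := congrArg toLeft h
    simp only [toLeft_disjSum] at this
    subst this
    simp at hI
    exact hj hI.symm

end base

def fc (n k : ℕ) : ℕ := if k ≤ n then n.factorial / (k.factorial * (n - k).factorial) else 0

theorem fc_eq (n k : ℕ) : n.choose k = fc n k := by
  unfold fc
  split_ifs with h
  · exact Nat.choose_eq_factorial_div_factorial h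
  · exact Nat.choose_eq_zero_of_lt (by omega)

def cf (k : ℕ) : ℕ := ∑ j ∈ range (k + 1),
  (fc 600 j + fc 117 j * 14 ^ j - (if j = 0 then 1 else 0)) * fc (2238 - j) (k - j)

theorem cf1 : cf 1198 < cf 1197 := by decide +kernel
theorem cf2 : cf 1198 < cf 1199 := by decide +kernel

abbrev W0 : Type := Fin 600 ⊕ (Fin 117 × Fin 14)

def GG : SimpleGraph (W0 ⊕ W0) := corona (base (Fin 600) (Fin 117) (Fin 14))

theorem GG_count (k : ℕ) :
    {s : Finset (W0 ⊕ W0) | GG.IsIndepSet (s : Set (W0 ⊕ W0)) ∧ s.card = k}.ncard = cf k := by
  unfold GG cf
  rw [corona_count]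
  refine sum_congr rfl fun j _ => ?_
  have := base_count (Fin 600) (Fin 117) (Fin 14) j
  simp only [Fintype.card_fin, fc_eq] at this
  rw [← this, fc_eq]
  have hc : Fintype.card (Fin 600 ⊕ (Fin 117 × Fin 14)) = 2238 := by simp
  rw [hc]
  congr!

end Pool.Agent.H10.VWC
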